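import Pool.Agent.MP_1a6d78_lc.PG.Pcs

/-! PROJECT PG: the primitives, the derived programs, the kill round, frames.
Junk values: `n` for cells, `4 n` for ports, `16 n` for entries and heads. -/

namespace Pool.Agent.MP_1a6d78_lc.PG

open Classical ED PR GL

noncomputable section

/-- The primitives of a level; `rs = 0` open, `rs = 1 + a % 2` when `z` is known to have `Cy a`. -/
structure Pr where
  al : ℕ → Prop
  lam : ℕ → ℕ
  En : ℕ → ℕ → ℕ
  FE : ℕ → ℕ → ℕ → ℕ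
  F : Bool → ℕ → ℕ → Sg → Sg → ℕ
  next : ℕ → ℕ
  cur : ℕ → ℕ
  rs : ℕ

/-- The side hugged by the types 0, 3 and by the types 1, 2. -/
def hs (i : ℕ) : ℕ := if i = 0 ∨ i = 3 then 3 else 1

namespace Pr

variable (P : Pr) (n : ℕ)

/-- The map of the level. -/
def mp : Cm := ⟨n, fun p => if P.al (p / 4) then P.lam p else p⟩

def st (i c : ℕ) : ℕ := P.lam (pt c i) / 4

/-- One period from the successor of `y` to `y`. -/
def ring (i y : ℕ) : Sg := ⟨i, P.st i y, sd i (P.lam (pt y i)), y⟩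

/-- The two segments that cover the walk of `p`. -/
def fu (i p s u : ℕ) : Sg := if u = 0 then ⟨i, p, s, P.En i p⟩ else P.ring i (P.En i p)

def On (y a : ℕ) (A : Sg) : Prop := onf n P.F y a A

def OnC (y : ℕ) (A : Sg) : Prop :=
  (y = A.p ∧ P.al y) ∨ onc n P.F y A

/-- `y` is on the walk of `p`. -/
def pa (i p y : ℕ) : Prop := P.OnC n y (P.fu i p i 0) ∨ P.OnC n y (P.fu i p i 1)

def lo (p : ℕ) : ℕ := if P.lam p % 4 = (p + 1) % 4 then p else P.lam p

def prb (p : ℕ) : Prop :=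
  P.al (p / 4) ∧
    P.lam (pt (P.FE ((P.lo p + 3) % 4) (P.lo p / 4) ((P.lo p + 2) % 4)) (P.lo p + 2)) ≠
      pt (P.FE ((P.lo p + 2) % 4) (P.lam (P.lo p) / 4) ((P.lo p + 2) % 4)) (P.lo p + 3)

/-- The first hit on the whole walk of `p`. -/
def early (i p s a b : ℕ) (B : ℕ → Sg) (m : ℕ) : ℕ :=
  if fo n P.F true a b (P.fu i p s 0) B n m < n then fo n P.F true a b (P.fu i p s 0) B n m
  else fo n P.F true a b (P.fu i p s 1) B n m

/-- The primitive `F` of the next level from pieces: `np A` is the index of the last piece,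
`pc A a k` are the pieces for the side `a`, `rv A k` says that the piece is read backwards. -/
def genF (al' : ℕ → Prop) (np : Sg → ℕ) (pc : Sg → ℕ → ℕ → Sg) (rv : Sg → ℕ → Bool) (fl : Bool)
    (a b : ℕ) (A B : Sg) : ℕ :=
  if al' A.p ∧ al' B.p then fpc n P.F fl a b (pc A a) (rv A) (np A + 1) (pc B b) (np B + 1) else n

/-- Entries `4 p + i`, heads `4 y + i`. -/
def val (e : ℕ) : Prop := P.prb (e / 4) ∧ (e / 4 + e) % 2 = 1

def own (e : ℕ) : ℕ := pt (P.En (e % 4) (e / 16)) e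

def hv (y : ℕ) : Prop := P.al (y / 4) ∧ P.En (y % 4) (y / 4) = y / 4

def ld : Ld := ⟨P.val, P.own, P.hv, P.next, P.cur⟩

/-- Note that `z` is on a limit cycle. -/
def mark (z : ℕ) : Pr :=
  { P with rs := if P.rs = 0 ∧ ∃ t < 8, P.On n z ((t / 2 + 3 * (t % 2)) % 4) (P.fu (t / 2) z 0 1) then
      (if ∃ t < 4, P.On n z (1 + 2 * (t / 2)) (P.fu ((1 + 2 * (t / 2) + t % 2) % 4) z 0 1) then 1
      else 2) else P.rs }

end Pr

/-! ### Frames -/

def Sg.tw (A : Sg) (g : ℕ) : Sg := ⟨fp g A.i, A.p, if A.s < 4 then fs g A.s else A.s, A.q⟩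

/-- The renaming of entries. -/
def te (g e : ℕ) : ℕ := 4 * tp g (e / 4) + fp g (e % 4)

def Pr.tw (P : Pr) (n g : ℕ) : Pr where
  al := P.al
  lam p := if P.al (p / 4) then tp (gi g) (P.lam (tp g p)) else 4 * n
  En i c := P.En (fp g i) c
  FE i c a := P.FE (fp g i) c (fs g a)
  F fl a b A B := P.F fl (fs g a) (fs g b) (A.tw g) (B.tw g)
  next z := tz (16 * n) (te (gi g)) (tp (gi g)) (P.next (tz (16 * n) (te g) (tp g) z))
  cur e := P.cur (te g e)
  rs := if P.rs = 0 then 0 else 1 + (P.rs - 1 + fs g 0) % 2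

/-! ### Rounds -/

/-- The data of a round: lists of length at most `c` are short, `j` is the list level, `h` the hash. -/
structure Rn where
  P : Pr
  n : ℕ
  z : ℕ
  c : ℕ
  q : ℕ
  j : ℕ
  h : ℕ → Prop

namespace Rn

variable (K : Rn)

def short (i y : ℕ) : Prop := K.P.ld.short (16 * K.n) K.q K.c (pt y i)

/-- The port of the `t`-th entry of the head `(i, y)`, `4 n` if the slot is not live. -/
def ent (i y t : ℕ) : ℕ := K.P.ld.en (16 * K.n) K.q (pt y i) t / 4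

/-! ### The kill of type 0 -/

/-- Both ends of the listed links, `t < 4 c`. -/
def links (x t : ℕ) : ℕ :=
  if t % 2 = 0 then
    (if t / 2 < K.c then K.ent 0 x (t / 2) else K.ent 1 (K.P.En 1 x) (t / 2 - K.c))
  else K.P.lam (if t / 2 < K.c then K.ent 0 x (t / 2) else K.ent 1 (K.P.En 1 x) (t / 2 - K.c))

def own0 (p : ℕ) : ℕ := K.P.En 0 (K.P.En ((p + 1) % 2) (p / 4))

def sel (x : ℕ) : Prop :=
  K.P.al x ∧ K.P.En 0 x = x ∧ K.P.FE 0 x 3 = K.n ∧ K.h x ∧ K.short 0 x ∧ K.short 1 (K.P.En 1 x) ∧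
    ∀ t < 4 * K.c, K.links x t < 4 * K.n → K.own0 (K.links x t) = x ∨ ¬K.h (K.own0 (K.links x t))

/-- The selected region in which the `i`-walk of `c` ends, `i < 2`. -/
def obj (i c : ℕ) : ℕ :=
  if K.P.FE i (K.P.En i c) (hs i) = K.n ∧ K.sel (K.P.En 0 (K.P.En i c)) then
    K.P.En 0 (K.P.En i c) else K.n

/-- The number of candidates. -/
def nc : ℕ := 12 * K.c + 2

def C (x t : ℕ) : ℕ :=
  if t < 4 * K.c then K.links x t / 4
  else K.P.FE (2 + t % 2) (K.P.En (2 + t % 2)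
    (if (t - 4 * K.c) / 2 = 4 * K.c then x else K.links x ((t - 4 * K.c) / 2) / 4)) (hs (2 + t % 2))

def meets (p s b : ℕ) : Prop :=
  K.P.pa K.n 0 p b ∨ K.P.early K.n 0 p s 3 2 (K.P.fu 3 b 3) 2 < K.n

def hop (b : ℕ) : ℕ := if K.P.FE 0 b 3 < K.n then K.P.FE 2 (K.P.FE 0 b 3) 1 else b

def G : ℕ → ℕ → ℕ → Prop
  | 0 => fun x t => K.C x t < K.n
  | k + 1 => fun x t => K.C x t < K.n ∧ ∃ r < K.nc + 1,
      K.P.En 0 (it K.n K.hop r (K.C x t)) ≠ x ∨ ∃ t' < K.nc, G k x t' ∧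
        K.meets (K.P.FE 0 (it K.n K.hop r (K.C x t)) 3) 3 (K.C x t')

/-- The candidates that survive. -/
def gd (x t : ℕ) : ℕ := if K.G K.nc x t then K.C x t else K.n

def al' (c : ℕ) : Prop :=
  K.P.al c ∧ (K.obj 0 c = K.n ∨ ∃ t < K.nc, K.meets c 0 (K.gd (K.obj 0 c) t))

/-- The walls, `t < 2 nc`. -/
def wall (w x t : ℕ) : Sg := K.P.fu w (K.gd x (t / 2)) (hs w) (t % 2)

def hits (w t : ℕ) : ℕ :=
  K.P.early K.n w t 2 2 (hs (5 - w)) (K.wall (5 - w) (K.obj 0 t)) (2 * K.nc)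

/-- The first surviving port on the `w`-walk after `e`. -/
def nxa (w e : ℕ) : ℕ :=
  if K.al' (K.P.st w e) then K.P.lam (pt e w)
  else if K.P.FE w (K.P.st w e) (hs w) < K.n ∧ ¬K.P.On K.n (K.hits w (K.P.st w e)) 2
      ⟨w, K.P.st w e, 2, K.P.FE w (K.P.st w e) (hs w)⟩ then
    pt (K.P.FE w (K.P.st w e) (hs w)) (ep w (hs w))
  else pt (K.hits w (K.P.st w e)) (ep w 2)

def lam' (p : ℕ) : ℕ :=
  if K.al' (p / 4) then
    if 2 ≤ p % 4 then K.nxa (p % 4) (p / 4)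
    else if K.al' (K.P.lam p / 4) then K.P.lam p else K.nxa (5 - K.P.lam p % 4) (K.P.lam p / 4)
  else 4 * K.n

/-- The new `FE` of the types 2, 3. -/
def FEd (w c a : ℕ) : ℕ :=
  if a = 2 ∧ K.P.FE w c a < K.n ∧ ¬K.al' (K.P.FE w c a) then K.hits w (K.P.FE w c a)
  else K.P.FE w c a

def cq (i p t : ℕ) : ℕ :=
  if t < K.nc then K.gd (K.obj i p) t
  else K.P.st (ep i (hs i))
    (K.P.F false (hs i) 2 (K.P.fu i p 0 0) (K.wall (3 - i) (K.obj i p) (t - K.nc)))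

/-- The last surviving cell of the old walk. -/
def dq (i p : ℕ) : ℕ :=
  K.cq i p (lst (3 * K.nc) fun t => K.P.pa K.n i p (K.cq i p t) ∧ K.al' (K.cq i p t) ∧
    ¬K.al' (K.P.st i (K.cq i p t)))

def dg (i p : ℕ) : ℕ := K.lam' (pt (K.dq i p) i)

def hp (i p : ℕ) : Prop := sd i (K.dg i p) = 0

def tight (w b g : ℕ) : Prop :=
  K.P.pa K.n w b g ∧ ¬K.P.On K.n (K.FEd w b 2) 2 ⟨w, b, hs w, g⟩

def db (i p : ℕ) : ℕ :=
  K.gd (K.obj i p) (lst K.nc fun t => K.tight (3 - i) (K.gd (K.obj i p) t) (K.dg i p / 4))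

/-- The start of the next stage. -/
def nx (i p : ℕ) : ℕ := if K.obj i p = K.n then p else if K.hp i p then K.dg i p / 4 else K.db i p

def dp (i p k : ℕ) : ℕ := it K.n (K.nx i) k p

/-- The side of the first passage of the stage `k`. -/
def ds (i p s k : ℕ) : ℕ :=
  if k = 0 then s else if K.hp i (K.dp i p (k - 1)) then 0 else hs i

/-- The pieces of the whole new walk, two per stage. -/
def pf (i p s k : ℕ) : Sg :=
  if k % 2 = 0 then ⟨i, K.dp i p (k / 2), K.ds i p s (k / 2), K.dq i (K.dp i p (k / 2))⟩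
  else if K.hp i (K.dp i p (k / 2)) then junk K.n
  else ⟨3 - i, K.db i (K.dp i p (k / 2)), hs i, K.dg i (K.dp i p (k / 2)) / 4⟩

/-- On the new limit cycle. -/
def onp (i c b : ℕ) : Prop := ∃ k < 2 * (K.nc + 1), K.P.OnC K.n b (K.pf i c 0 (2 * (K.nc + 1) + k))

def En' (i c : ℕ) : ℕ :=
  if K.al' c then
    if 2 ≤ i then (if K.al' (K.P.En i c) then K.P.En i c else K.nxa i (K.P.En i c) / 4)
    else if K.obj i (K.dp i c (K.nc + 1)) = K.n then K.P.En i (K.dp i c (K.nc + 1))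
    else K.gd (K.obj i c) (amin K.nc fun t =>
      if K.onp i c (K.gd (K.obj i c) t) then K.gd (K.obj i c) t else K.n)
  else K.n

/-- The first passage by `a` inside the stage that starts at `p`. -/
def fe (i p a : ℕ) : ℕ :=
  if K.obj i p = K.n ∨ K.P.On K.n (K.P.FE i p a) a ⟨i, p, 0, K.dq i p⟩ then K.P.FE i p a
  else if sd i (K.dg i p) = a then K.dg i p / 4 else K.n

def FE' (i c a : ℕ) : ℕ :=
  if K.al' c then
    if 2 ≤ i then K.FEd i c a
    else K.fe i (K.dp i c (lst (2 * (K.nc + 1)) fun k => K.fe i (K.dp i c k) a < K.n)) a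
  else K.n

/-- The index of the last piece. -/
def np (A : Sg) : ℕ :=
  if 2 ≤ A.i then 0 else lst (4 * (K.nc + 1)) fun k =>
    K.obj A.i (K.dp A.i A.p (k / 2)) = K.n ∨ K.P.OnC K.n A.q (K.pf A.i A.p A.s k)

def pc (A : Sg) (_a k : ℕ) : Sg :=
  if 2 ≤ A.i then A
  else if k = K.np A then
    (if k % 2 = 0 then ⟨A.i, K.dp A.i A.p (k / 2), K.ds A.i A.p A.s (k / 2), A.q⟩
    else ⟨3 - A.i, A.q, hs A.i, K.dg A.i (K.dp A.i A.p (k / 2)) / 4⟩)
  else K.pf A.i A.p A.s k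

def rv (A : Sg) (k : ℕ) : Bool := decide (A.i < 2 ∧ k % 2 = 1)

/-- The new geometry with the old lists. -/
def N : Pr :=
  ⟨K.al', K.lam', K.En', K.FE', K.P.genF K.n K.al' K.np K.pc rv, K.P.next, K.P.cur,
    if K.P.rs = 0 ∧ ¬K.al' K.z then 2 else K.P.rs⟩

def moved (i c : ℕ) : Prop := i < 2 ∧ K.obj i c < K.n

def ins (e : ℕ) : Prop := K.N.val e ∧ (K.moved (e % 4) (e / 16) ∨ ¬K.P.val e)

def ren (y : ℕ) : ℕ :=
  if K.moved (y % 4) (y / 4) then 16 * K.n else pt (K.P.En (y % 4) (y / 4)) y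

/-- The killer seen from the port `p` upwards. -/
def up (p : ℕ) : ℕ := K.obj ((p + 1) % 2) (p / 4)

def seen (p : ℕ) : ℕ := if K.up p < K.n then K.up p else K.up (K.P.lam p)

def bp (x t : ℕ) : ℕ :=
  if t < 4 * K.nc then pt (K.gd x (t / 4)) t
  else pt (K.FEd (2 + t % 2) (K.gd x ((t - 4 * K.nc) / 2)) 2) (ep (2 + t % 2) 2)

/-- The ports at which entries may have to be inserted, `t < 12 nc`. -/
def nxp (x t : ℕ) : ℕ := if t % 2 = 0 then K.bp x (t / 2) else K.lam' (K.bp x (t / 2))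

def Nx (z t : ℕ) : ℕ :=
  pt (K.nxp (if zl (16 * K.n) z = 0 then K.obj (ze (16 * K.n) z % 4) (ze (16 * K.n) z / 4)
    else K.seen (ze (16 * K.n) z / 4)) t) (ze (16 * K.n) z)

def an (e : ℕ) : ℕ :=
  if K.moved (e % 4) (K.N.own e / 4) then code (16 * K.n) 0 (K.N.own e)
  else K.P.ld.slot (16 * K.n) (pt (K.links (K.up (e / 4)) (lst (4 * K.c) fun t =>
    K.P.val (pt (K.links (K.up (e / 4)) t) e) ∧
      K.P.own (pt (K.links (K.up (e / 4)) t) e) = K.ren (K.N.own e))) e)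

def rd : GL.Rd :=
  ⟨16 * K.n, K.q, K.j, 12 * K.nc, K.P.ld, K.N.val, K.N.own, K.N.hv, K.ins, K.ren, K.an, K.Nx⟩

def kill : Pr := { K.N with next := K.rd.next, cur := K.rd.cur }

end Rn

end

end Pool.Agent.MP_1a6d78_lc.PG
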