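import Pool.Agent.MP_1a6d78_lc.PG.Alg

/-! PROJECT PG: the cut of rings of type 0 (outer cells: side 0, entry port 1; inner cells:
side 3, entry port 3). -/

namespace Pool.Agent.MP_1a6d78_lc.PG

open Classical ED PR GL

noncomputable section

namespace Rn

variable (K : Rn)

/-- The 1-cycle of the first inner cell. -/
def cg (v : ℕ) : ℕ := K.P.En 1 (K.P.FE 0 v 3)

/-- `y` is a cell of kind `a` of the cycle with the name `v`. -/
def con (v a y : ℕ) : Prop := K.P.On K.n y a (K.P.ring 0 v)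

/-- The 1-walk of `c` meets an outer cell of the cycle with the name `v`. -/
def cx (v c : ℕ) : Prop :=
  K.con v 0 c ∨ K.P.early K.n 1 c 0 1 0 (fun _ => K.P.ring 0 v) 1 < K.n

def ccut (v : ℕ) : Prop :=
  K.P.En 0 v = v ∧ K.P.FE 0 v 0 < K.n ∧ K.P.FE 0 v 3 < K.n ∧ K.short 0 v ∧ K.short 1 (K.cg v) ∧
    (K.P.En 0 K.z = v ∨ ∃ t < K.c, K.P.En 0 (K.ent 1 (K.cg v) t / 4) = v) ∧
    (∀ t < K.c, K.ent 1 (K.cg v) t < 4 * K.n →
      (K.ent 1 (K.cg v) t % 4 = 0 ∧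
        (K.con v 0 (K.ent 1 (K.cg v) t / 4) ∨ K.con v 3 (K.ent 1 (K.cg v) t / 4))) ∨
      K.cx v (K.ent 1 (K.cg v) t / 4)) ∧ ¬K.cx v (K.P.FE 0 v 3)

/-- `y` is a cell of kind `a` of a ring that is cut. -/
def cis (a y : ℕ) : Prop := K.ccut (K.P.En 0 y) ∧ K.con (K.P.En 0 y) a y

/-- The kind of a ring cell. -/
def ck (y : ℕ) : ℕ := if K.con (K.P.En 0 y) 0 y then 0 else 3

/-- The names of the rings at which a walk from `c` may be diverted, `t < c + 2`. -/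
def cc (c t : ℕ) : ℕ :=
  K.P.En 0 (if t < K.c then K.ent 1 (K.P.En 1 c) t / 4 else if t = K.c then K.z else c)

def cb (c t : ℕ) : Sg := if K.ccut (K.cc c t) then K.P.ring 0 (K.cc c t) else junk K.n

/-- The first cell of kind `a` of a cut ring on the `i`-walk of `c`; the walk arrives by the side `b`. -/
def ch (i a b c : ℕ) : ℕ := if K.cis a c then c else K.P.early K.n i c a b a (K.cb c) (K.c + 2)

/-- The cell at which the `i`-walk of `c` is diverted. -/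
def cdiv (i c : ℕ) : ℕ :=
  if i = 0 then (if K.ch 0 0 3 c < K.n then K.ch 0 0 3 c else K.ch 0 3 0 c)
  else if i = 1 then K.ch 1 0 1 c else if i = 3 then K.ch 3 3 2 c else K.n

/-- The last cell of kind `a` of the ring up to the ring cell `r`. -/
def cpv (a r : ℕ) : ℕ :=
  if K.con (K.P.En 0 r) a r then r
  else K.P.early K.n (ep 0 (3 - a)) r (3 - a) (3 - a) a (fun _ => K.P.ring 0 (K.P.En 0 r)) 1

def clam (p : ℕ) : ℕ :=
  if K.cis (K.ck (p / 4)) (p / 4) ∧ p % 4 = 0 then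
    pt (K.P.FE 0 (p / 4) (K.ck (p / 4))) (ep 0 (K.ck (p / 4)))
  else if K.cis (K.ck (p / 4)) (p / 4) ∧ p % 4 = ep 0 (K.ck (p / 4)) then
    4 * K.cpv (K.ck (p / 4)) (K.P.lam p / 4)
  else K.P.lam p

def cEn (i c : ℕ) : ℕ :=
  if K.cdiv i c < K.n then K.P.FE 0 (K.P.En 0 (K.cdiv i c)) (K.ck (K.cdiv i c)) else K.P.En i c

/-- The cell after the diversion. -/
def cr (i c : ℕ) : ℕ := K.clam (pt (K.cdiv i c) i) / 4

def cFE (i c a : ℕ) : ℕ :=
  if K.cdiv i c < K.n ∧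
      ¬(K.P.FE i c a ≠ c ∧ K.P.On K.n (K.P.FE i c a) a ⟨i, c, a, K.cdiv i c⟩) then
    (if a = K.ck (K.cdiv i c) then K.cr i c else K.n)
  else K.P.FE i c a

/-- The index of the last piece. -/
def cnp (A : Sg) : ℕ :=
  if K.cdiv A.i A.p < K.n ∧ ¬K.P.OnC K.n A.q ⟨A.i, A.p, A.s, K.cdiv A.i A.p⟩ then 1 else 0

def cpc (A : Sg) (a k : ℕ) : Sg :=
  if K.cnp A = 0 then A
  else if k = 0 then ⟨A.i, A.p, A.s, K.cdiv A.i A.p⟩
  else if a = K.ck (K.cdiv A.i A.p) then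
    (if A.i = 0 then ⟨0, K.cr A.i A.p, a, A.q⟩ else ⟨0, A.q, a, K.cr A.i A.p⟩)
  else junk K.n

def crv (A : Sg) (k : ℕ) : Bool := decide (A.i ≠ 0 ∧ k = 1)

/-- The new geometry with the old lists. -/
def cN : Pr :=
  ⟨K.P.al, K.clam, K.cEn, K.cFE, K.P.genF K.n K.P.al K.cnp K.cpc crv, K.P.next, K.P.cur, K.P.rs⟩

def cins (e : ℕ) : Prop := K.cN.val e ∧ (K.cdiv (e % 4) (e / 16) < K.n ∨ ¬K.P.val e)

def cren (y : ℕ) : ℕ :=
  if K.cdiv (y % 4) (y / 4) < K.n then 16 * K.n else pt (K.P.En (y % 4) (y / 4)) y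

def can (e : ℕ) : ℕ :=
  if K.cdiv (e % 4) (e / 16) < K.n then code (16 * K.n) 0 (K.cN.own e)
  else K.P.ld.slot (16 * K.n) (pt (K.P.lam (K.clam (e / 4))) e)

/-- The ports whose entries may move to a new cycle on the ring `v`, `t < 3 c`. -/
def cnx (v t : ℕ) : ℕ :=
  if t < K.c then K.ent 0 v t
  else if t < 2 * K.c then K.ent 1 (K.cg v) (t - K.c) else K.clam (K.ent 0 v (t - 2 * K.c))

def cNx (z t : ℕ) : ℕ :=
  pt (if zl (16 * K.n) z = 0 then K.cnx (K.P.En 0 (ze (16 * K.n) z / 4)) t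
    else K.clam (K.P.lam (ze (16 * K.n) z / 4))) (ze (16 * K.n) z)

def crd : GL.Rd :=
  ⟨16 * K.n, K.q, K.j, 3 * K.c + 1, K.P.ld, K.cN.val, K.cN.own, K.cN.hv, K.cins, K.cren, K.can,
    K.cNx⟩

def cut : Pr := { K.cN with next := K.crd.next, cur := K.crd.cur }

end Rn

end

end Pool.Agent.MP_1a6d78_lc.PG
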