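import Pool.Agent.MP_1a6d78_lc.PG.Defs

/-! PROJECT PG: certificates; the smoothing and the cut exist. -/

namespace Pool.Agent.MP_1a6d78_lc.PG.Ct

open Classical ED PR PL Relation

open Cm (pr0)

variable {M M' : Cm} {a b c i x y z p u : ℕ} {D X R : ℕ → Prop}

theorem al_lk (H : M.Ok) (h : M.al (p / 4)) : M.al (M.lk p / 4) := by
  by_contra v
  have := (H.fix _).2 v
  rw [H.inv] at this
  exact (H.fix p).1 this.symm h

theorem ok_pl (H : M.Ok) : PL.Ok M.n M.al M.lk := by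
  refine ⟨fun p hp => ⟨?_, H.inv p⟩, fun p _ => H.fix p, fun p _ => H.par p⟩
  by_cases u : M.al (p / 4)
  · have := H.lt _ (al_lk H u)
    omega
  · rwa [(H.fix p).2 u]

theorem lt4 (H : M.Ok) (h : M.al (p / 4)) : p < 4 * M.n := by
  have := H.lt _ h
  omega

theorem r4_div (p : ℕ) : r4 p / 4 = p / 4 := by unfold r4; omega

theorem nr_al (H : M.Ok) : M.al (M.nr x / 4) ↔ M.al (x / 4) := by
  unfold Cm.nr
  refine ⟨fun h => ?_, fun h => al_lk H (by rwa [r4_div])⟩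
  have := al_lk H h
  rwa [H.inv, r4_div] at this

theorem nr_inj (H : M.Ok) : Function.Injective M.nr := fun x y e => by
  have := congrArg M.lk e
  unfold Cm.nr at this
  rw [H.inv, H.inv] at this
  unfold r4 at this
  omega

theorem nr_par (H : M.Ok) (h : M.al (x / 4)) : M.nr x % 2 = x % 2 := by
  have := H.par (r4 x) (by rwa [r4_div])
  unfold Cm.nr
  unfold r4 at *
  omega

theorem nr_per (H : M.Ok) (x : ℕ) : ∃ t, 0 < t ∧ M.nr^[t] x = x := by
  by_cases h : x < 4 * M.n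
  · exact ((ok_pl H).iv.pm.comp Two.pm).period h
  · have e : ∀ y, y / 4 = x / 4 → M.nr y = r4 y := fun y e => (H.fix _).2 fun v => by
      have := H.lt _ v
      rw [r4_div] at this
      omega
    refine ⟨4, by omega, ?_⟩
    show M.nr (M.nr (M.nr (M.nr x))) = x
    rw [e x rfl, e (r4 x) (by simp only [r4_div]), e (r4 (r4 x)) (by simp only [r4_div]),
      e _ (by simp only [r4_div])]
    unfold r4
    omega

theorem rg_refl (M : Cm) (x : ℕ) : M.Rg x x := ⟨0, rfl⟩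

theorem rg_nr (M : Cm) (x : ℕ) : M.Rg x (M.nr x) := ⟨1, rfl⟩

theorem rg_trans (h : M.Rg x y) (k : M.Rg y z) : M.Rg x z := by
  obtain ⟨s, rfl⟩ := h
  obtain ⟨t, rfl⟩ := k
  exact ⟨t + s, Function.iterate_add_apply _ _ _ _⟩

theorem rg_ind {Q : ℕ → Prop} (h : M.Rg x y) (h0 : Q x) (hs : ∀ d, Q d → Q (M.nr d)) : Q y := by
  obtain ⟨s, rfl⟩ := h
  exact iter_inv hs h0 s

theorem rg_back (H : M.Ok) (x : ℕ) : M.Rg (M.nr x) x := by
  obtain ⟨t, h, e⟩ := nr_per H x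
  refine ⟨t - 1, ?_⟩
  rwa [← Function.iterate_succ_apply, show (t - 1).succ = t by omega]

theorem rg_symm (H : M.Ok) (h : M.Rg x y) : M.Rg y x :=
  rg_ind (Q := fun d => M.Rg d x) h (rg_refl M x) fun d k => rg_trans (rg_back H d) k

theorem rg_al (H : M.Ok) (h : M.Rg x y) : M.al (y / 4) ↔ M.al (x / 4) :=
  rg_ind (Q := fun d => M.al (d / 4) ↔ M.al (x / 4)) h Iff.rfl fun _ k => (nr_al H).trans k

theorem rg_par (H : M.Ok) (h : M.Rg x y) (k : M.al (x / 4)) : y % 2 = x % 2 :=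
  (rg_ind (Q := fun d => M.al (d / 4) ∧ d % 2 = x % 2) h ⟨k, rfl⟩
    fun _ k => ⟨(nr_al H).2 k.1, (nr_par H k.1).trans k.2⟩).2

theorem crit_mod (h : M.Crit x) (k : M.Rg x y) : y % 4 = x % 4 :=
  (rg_ind (Q := fun d => M.Rg x d ∧ d % 4 = x % 4) k ⟨rg_refl M x, rfl⟩
    fun d k => ⟨rg_trans k.1 (rg_nr M d), (not_not.1 (h d k.1)).trans k.2⟩).2

theorem nr_psi (H : M.Ok) (x : ℕ) : M.nr (PL.r3 (M.lk x)) = x := by
  unfold Cm.nr
  rw [show r4 (PL.r3 (M.lk x)) = M.lk x by unfold r4 PL.r3; omega, H.inv]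

theorem rg_rch (H : M.Ok) (h : M.Rg x y) (k : M.al (x / 4)) : M.Rch a x y :=
  (rg_ind (Q := fun d => M.al (d / 4) ∧ M.Rch a x d) h ⟨k, .refl⟩
    fun _ k => ⟨(nr_al H).2 k.1, k.2.tail ⟨k.1, Or.inl rfl⟩⟩).2

theorem rch_iff (H : M.Ok) (k : M.al (x / 4)) : M.Rch a x y ↔ PL.Rch M.n M.lk a x y := by
  constructor
  · intro h
    induction h with
    | refl => exact .refl
    | @tail u v _ w ih =>
      rcases w with ⟨w, rfl | ⟨e, rfl⟩⟩
      · have := PL.Rch.bk (k := a) (ok_pl H).iv (lt4 H (by rwa [r4_div] : M.al (r4 u / 4)))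
        rw [show PL.r3 (r4 u) = u by unfold PL.r3 r4; omega] at this
        exact ih.trans this
      · rw [show pt (u / 4) (a + 2) = op u by unfold pt op; omega]
        exact ih.trans (PL.Rch.arc (lt4 H w) e)
  · intro h
    suffices M.al (y / 4) ∧ M.Rch a x y from this.2
    induction h with
    | refl => exact ⟨k, .refl⟩
    | @tail u v _ w ih =>
      rcases w with ⟨-, rfl | ⟨e, rfl⟩⟩
      · have := rg_back H (PL.r3 (M.lk u))
        rw [nr_psi H] at this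
        exact ⟨(rg_al H this).2 ih.1, ih.2.trans (rg_rch H this ih.1)⟩
      · exact ⟨by rw [show op u / 4 = u / 4 by unfold op; omega]; exact ih.1,
          ih.2.tail ⟨ih.1, Or.inr ⟨e, by unfold pt op; omega⟩⟩⟩

theorem cy_iff (H : M.Ok) : M.Cy a z ↔ M.al z ∧ Cyc M.n M.lk a z :=
  and_congr_right fun k => rch_iff H (by rwa [show pt z (a + 2) / 4 = z by unfold pt; omega])

/-- Only the parity of the type matters. -/
theorem cy_par (H : M.Ok) (e : a % 2 = b % 2) (h : M.Cy a z) : M.Cy b z := by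
  rw [cy_iff H] at h ⊢
  exact ⟨h.1, h.2.par (ok_pl H).iv e⟩

/-- MINTY. -/
theorem cy_or (H : M.Ok) (e : (a + b) % 2 = 1) (h : M.al z) : M.Cy a z ∨ M.Cy b z := by
  rw [cy_iff H, cy_iff H]
  by_cases k : Cyc M.n M.lk a z
  · exact Or.inl ⟨h, k⟩
  · exact Or.inr ⟨h, (minty (ok_pl H) (H.lt _ h) h k).par (ok_pl H).iv (by omega)⟩

/-- A cell of a limit cycle. -/
theorem kd_cy (H : M.Ok) (hi : i < 4) (h : M.Kd i u z) : M.Cy (u + 1) z := by
  obtain ⟨w, ⟨k1, t, k2⟩, rfl, rfl⟩ := h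
  have e : M.st i = fun a => M.lk (4 * a + i) / 4 := by
    funext a
    unfold Cm.st pt
    rw [Nat.mod_eq_of_lt hi]
  have pw : pt w i = 4 * w + i := by unfold pt; omega
  have a1 : M.al (M.st i w) := al_lk H (by rwa [show pt w i / 4 = w by omega])
  have := walk_cyc (ok_pl H) hi (H.lt _ a1) a1 (t := t) (e := M.lk (pt w i) % 4) (by omega) (by
    unfold Cm.wk at k2
    rw [← e, k2, ← pw]
    unfold Cm.st
    omega)
  rw [cy_iff H]
  refine ⟨a1, this.par (ok_pl H).iv ?_⟩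
  unfold Cm.ss sd
  split_ifs <;> omega

theorem per_kd (H : M.Ok) (h : M.Per i z) : ∃ u, M.Kd i u z := by
  obtain ⟨k1, t, k2⟩ := h
  have al : M.al (M.wk i z t) := iter_inv (Q := M.al)
    (fun a k => al_lk H (by rwa [show pt a i / 4 = a by unfold pt; omega])) k1 t
  have e : M.st i (M.wk i z t) = z := by
    unfold Cm.wk at *
    rwa [← Function.iterate_succ_apply' (M.st i), Function.iterate_succ_apply]
  exact ⟨_, _, ⟨al, t, by rw [e]⟩, e, rfl⟩

theorem dd_al (H : M.Ok) (hx : M.al x) (h : M.Dd x c) : M.al c := by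
  induction h with
  | @top c k =>
    have := (rg_al H k).2 (by rwa [show 4 * x / 4 = x by omega])
    rwa [show 4 * c / 4 = c by omega] at this
  | @step c k _ ih =>
    obtain ⟨u, k⟩ := k
    have := (rg_al H k).1 (by rw [show (4 * u + 2) / 4 = u by omega]; exact ih u k)
    rwa [show 4 * c / 4 = c by omega] at this

theorem last_arc (H : M.Ok) (h : M.Rch 0 x y) :
    M.Rg y x ∨ ∃ u, M.al u ∧ M.Rch 0 x (4 * u) ∧ M.Rg y (4 * u + 2) := by
  induction h with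
  | refl => exact Or.inl (rg_refl _ _)
  | @tail u v g w ih =>
    rcases w with ⟨w, rfl | ⟨e, rfl⟩⟩
    · exact ih.imp (rg_trans (rg_back H u)) fun ⟨d, k0, k1, k2⟩ =>
        ⟨d, k0, k1, rg_trans (rg_back H u) k2⟩
    · exact Or.inr ⟨u / 4, w, by rwa [show 4 * (u / 4) = u by omega], rg_refl _ _⟩

/-- A cell that dies is on no cycle of type 0. -/
theorem dd_not (H : M.Ok) (hx : M.Top x) (h : M.Dd x c) : ¬M.Rch 0 (4 * c + 2) (4 * c) := by
  induction h with
  | @top c k =>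
    intro g
    rcases last_arc H g with u | ⟨d, -, -, u⟩ <;>
    · have := crit_mod hx.2 (rg_trans k u)
      omega
  | @step c k l ih =>
    intro g
    rcases last_arc H g with u | ⟨d, k0, k1, u⟩
    · exact ih c u g
    · have ac : M.al (4 * c / 4) := (rg_al H u).1 (by rwa [show (4 * d + 2) / 4 = d by omega])
      refine ih d u ((rg_rch H (rg_symm H u) ((rg_al H u).2 ac)).trans (.head ⟨ac, Or.inr
        ⟨by omega, ?_⟩⟩ k1))
      unfold pt
      omega

theorem dd_cy (H : M.Ok) (hx : M.Top x) (h : M.Dd x z) : M.Cy 1 z :=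
  (cy_or H (a := 0) rfl (dd_al H hx.1 h)).resolve_left fun k => dd_not H hx h k.2

/-! ### The smoothing -/

theorem pr0_sm : pr0 = sm 0 := by
  funext p
  unfold pr0 sm r4 PL.r3
  split_ifs <;> omega

theorem pr0_S (H : M.Ok) : ∀ x, M.al (x / 4) → x < 4 * M.n ∧ M.al (pr0 (M.lk x) / 4) ∧
    pr0 (M.lk x) / 4 = M.lk x / 4 ∧ pr0 (pr0 (M.lk x)) = M.lk x := fun x h => by
  have e : pr0 (M.lk x) / 4 = M.lk x / 4 ∧ pr0 (pr0 (M.lk x)) = M.lk x := by
    unfold pr0
    split_ifs <;> omega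
  exact ⟨lt4 H h, e.1 ▸ al_lk H h, e⟩

theorem cv_par (H : M.Ok) {P : ℕ → Prop} {r : ℕ} (h : Cv M.lk pr0 P x r) (k : M.al (x / 4)) :
    (r + x) % 2 = 1 := by
  induction h with
  | stop _ => exact H.par _ k
  | @go x r _ _ ih =>
    have := ih (pr0_S H x k).2.1
    have := H.par _ k
    unfold pr0 at *
    split_ifs at * <;> omega

theorem smo_ex (H : M.Ok) (D : ℕ → Prop) : ∃ M', M.Smo M' D := by
  have e : ∀ p, ∃ r, M.al (p / 4) ∧ ¬D (p / 4) → Cv M.lk pr0 (fun c => M.al c ∧ ¬D c) p r :=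
    fun p => by
      by_cases h : M.al (p / 4) ∧ ¬D (p / 4)
      · simp only [h, not_false_iff, and_self, true_imp_iff]
        refine Cv.ex (n := M.n) (S := fun x => M.al (x / 4))
          (fun x u => ⟨(pr0_S H x u).1, (pr0_S H x u).2.1, (pr0_S H x u).2.2.1⟩)
          (fun x y u v e => ?_) h.1 h
        rw [← H.inv x, ← H.inv y, ← (pr0_S H x u).2.2.2, ← (pr0_S H y v).2.2.2, e]
      · exact ⟨0, fun u => absurd u h⟩
  choose f hf using e
  have al : Cm.al ⟨M.n, fun p => if M.al (p / 4) ∧ ¬D (p / 4) then f p else p⟩ =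
      fun c => M.al c ∧ ¬D c := by
    funext c
    have e : 4 * c / 4 = c := by omega
    refine propext ⟨fun h => ?_, fun h k => ?_⟩
    · by_contra k
      exact h (if_neg (by rwa [e]))
    · have k' : (if M.al (4 * c / 4) ∧ ¬D (4 * c / 4) then f (4 * c) else 4 * c) = 4 * c := k
      rw [if_pos (by rwa [e])] at k'
      have := cv_par H (hf (4 * c) (by rwa [e])) (by rw [e]; exact h.1)
      omega
  refine ⟨⟨M.n, fun p => if M.al (p / 4) ∧ ¬D (p / 4) then f p else p⟩, rfl,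
    fun c => by rw [al], fun p h => ?_, fun p h => ?_⟩ <;> rw [al] at *
  · have := hf p h
    rwa [← (if_pos h : ite _ (f p) p = _)] at this
  · exact if_neg h

theorem smo_ok (H : M.Ok) (S : M.Smo M' D) : M'.Ok := by
  have par : ∀ p, M'.al (p / 4) → (M'.lk p + p) % 2 = 1 := fun p h =>
    cv_par H (S.lk p h) ((S.al _).1 h).1
  have inv : ∀ p, M'.lk (M'.lk p) = p := fun p => by
    by_cases h : M'.al (p / 4)
    · have k := ((S.al _).1 h).1
      refine (S.lk _ ((S.lk p h).fin (fun x u => (pr0_S H x u).2.1) k).1).uniq ?_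
      have := (S.lk p h).rev (ok_pl H).iv (pr' := pr0) (pr0_S H) k (.stop (by rwa [H.inv]))
      rwa [H.inv] at this
    · rw [S.fix p h, S.fix p h]
  have fix : ∀ p, M'.lk p = p ↔ ¬M'.al (p / 4) := fun p =>
    ⟨fun e h => by have := par p h; omega, S.fix p⟩
  exact ⟨fun c h => S.n ▸ H.lt c ((S.al c).1 h).1, inv, fix, par⟩

/-- Cycles lift through the kill. -/
theorem smo_cy (H : M.Ok) (S : M.Smo M' D) (hD : ∀ c, M.al c → D c → M.Cy 1 c) (h : M'.Cy a z) :
    M.Cy a z := by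
  have H' := smo_ok H S
  have o := ok_pl H'
  rw [cy_iff H'] at h
  rw [S.n] at o h
  have k := ((S.al _).1 h.1).1
  exact (cy_iff H).2 ⟨k, lift_kill (k := 0) (ok_pl H) o (fun c h => ((S.al c).1 h).1)
    (fun p _ h => pr0_sm ▸ S.lk p h) (fun d _ u v => ((cy_iff H).1 (hD d u
      (not_not.1 fun w => v ((S.al d).2 ⟨u, w⟩)))).2) (H.lt _ k) h.1 h.2⟩

theorem dead_cy (H : M.Ok) (hX : ∀ x, X x → M.Top x) (h : M.Dead X z) : M.Cy 1 z := by
  obtain ⟨x, k1, k2⟩ := h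
  exact dd_cy H (hX x k1) k2

/-! ### The cut -/

theorem per_inj (h : M.Per i x) (k : M.Per i y) (e : M.st i x = M.st i y) : x = y := by
  obtain ⟨-, s, h⟩ := h
  obtain ⟨-, t, k⟩ := k
  exact Function.IsPeriodicPt.eq_of_apply_eq (f := M.st i) (m := s + 1) (n := t + 1) h k
    s.succ_pos t.succ_pos e

theorem per_st (H : M.Ok) (h : M.Per i x) : M.Per i (M.st i x) := by
  obtain ⟨k, s, h⟩ := h
  refine ⟨al_lk H (by rwa [show pt x i / 4 = x by unfold pt; omega]), s, ?_⟩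
  unfold Cm.wk at *
  rw [← Function.iterate_succ_apply, Function.iterate_succ_apply', h]

theorem kd_per (H : M.Ok) (h : M.Kd i a y) : M.Per i y := by
  obtain ⟨u, k, rfl, -⟩ := h
  exact per_st H k

theorem kd_uniq (h : M.Kd i a y) (k : M.Kd i b y) : a = b := by
  obtain ⟨u, h1, h2, rfl⟩ := h
  obtain ⟨v, k1, k2, rfl⟩ := k
  rw [per_inj h1 k1 (h2.trans k2.symm)]

theorem co_st : M.Co i (M.st i x) y ↔ M.Co i x y := by
  constructor
  · rintro ⟨u, ⟨t, h⟩, k⟩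
    exact ⟨u, ⟨t + 1, h⟩, k⟩
  · rintro ⟨u, ⟨t, rfl⟩, s, k⟩
    refine ⟨M.wk i x (t + 1), ⟨t, rfl⟩, s + 1, ?_⟩
    unfold Cm.wk at *
    rw [Function.iterate_succ_apply', Function.iterate_succ_apply', k]

/-- The port of entry of a cell of a limit cycle of type 0. -/
noncomputable def en0 (M : Cm) (c : ℕ) : ℕ := if M.Kd 0 0 c then 1 else 3

theorem en_kd (h : M.Kd 0 a y) : en0 M y = ep 0 a ∧ (a = 0 ∨ a = 3) := by
  have e : a = 0 ∨ a = 3 := by
    obtain ⟨u, -, -, rfl⟩ := h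
    unfold Cm.ss sd
    split_ifs <;> omega
  refine ⟨?_, e⟩
  unfold en0
  rcases e with rfl | rfl
  · rw [if_pos h]; rfl
  · rw [if_neg fun k => by have := kd_uniq h k; omega]; rfl

theorem en_st (H : M.Ok) (h : M.Per 0 u) : M.lk (4 * u) = 4 * M.st 0 u + en0 M (M.st 0 u) := by
  have := H.par (4 * u) (by rw [show 4 * u / 4 = u by omega]; exact h.1)
  rw [(en_kd ⟨u, h, rfl, rfl⟩).1]
  unfold Cm.ss Cm.st
  rw [show pt u 0 = 4 * u from rfl]
  unfold sd
  split_ifs <;> simp only [ep] <;> norm_num <;> omega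

theorem ring_of (H : M.Ok) (R : ℕ → Prop) :
    PL.Ring M.n M.lk 0 (fun y => ∃ v a, R v ∧ M.Rc v a y) (en0 M) := by
  refine ⟨by omega, ?_, ?_⟩
  · rintro y ⟨v, a, h, k1, k2⟩
    have p := kd_per H k1
    exact ⟨H.lt _ p.1, _, ⟨v, _, h, ⟨y, p, rfl, rfl⟩, co_st.2 k2⟩, en_st H p⟩
  · rintro y ⟨v, a, h, ⟨u, p, rfl, rfl⟩, k2⟩
    obtain ⟨b, k⟩ := per_kd H p
    exact ⟨by unfold en0; split_ifs <;> omega, u, ⟨v, b, h, k, co_st.1 k2⟩, en_st H p⟩

theorem cv_fe (H : M.Ok) (h : M.Kd 0 a y) : M.FE 0 y a < M.n ∧ M.Kd 0 a (M.FE 0 y a) ∧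
    Cv M.lk (fun r => 4 * (r / 4) + 0) (fun c => en0 M c = en0 M y) (4 * y + 0)
      (pt (M.FE 0 y a) (ep 0 a)) := by
  have p := kd_per H h
  have pw : ∀ t, M.Per 0 (M.wk 0 y t) := iter_inv (Q := M.Per 0) (fun _ => per_st H) p
  have ex : ∃ t < M.n, M.ss 0 (M.wk 0 y t) = a := by
    obtain ⟨u, k, rfl, rfl⟩ := h
    obtain ⟨s, k1, k2⟩ := iter_bnd' (Q := M.Per 0) (fun _ => per_st H) (fun _ v => H.lt _ v.1) p
      k.2.choose_spec
    exact ⟨s, k1, congrArg _ k2⟩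
  obtain ⟨l1, l2⟩ := lst_spec ex
  rw [Cm.FE, if_pos ⟨p.1, ex⟩]
  have mn := fun t (ht : t < M.n) => lst_le (P := fun t => M.ss 0 (M.wk 0 y t) = a) ht
  generalize lst M.n (fun t => M.ss 0 (M.wk 0 y t) = a) = T at *
  have sc : ∀ t, M.wk 0 y (t + 1) = M.st 0 (M.wk 0 y t) := fun t =>
    Function.iterate_succ_apply' _ _ _
  have kd : M.Kd 0 a (M.wk 0 y (T + 1)) := ⟨_, pw T, (sc T).symm, l2⟩
  refine ⟨H.lt _ (pw _).1, kd, ?_⟩
  have key : ∀ d t, t + d = T → Cv M.lk (fun r => 4 * (r / 4) + 0) (fun c => en0 M c = en0 M y)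
      (4 * M.wk 0 y t + 0) (pt (M.wk 0 y (T + 1)) (ep 0 a)) := fun d => by
    induction d with
    | zero =>
      rintro t rfl
      have e := en_st H (pw t)
      rw [← sc] at e
      have e3 : en0 M (M.wk 0 y (t + 1)) < 4 := by unfold en0; split_ifs <;> omega
      rw [← (en_kd kd).1, show pt (M.wk 0 y (t + 0 + 1)) (en0 M (M.wk 0 y (t + 0 + 1))) =
        M.lk (4 * M.wk 0 y t + 0) by rw [add_zero, add_zero, e]; unfold pt; omega]
      refine .stop ?_
      rw [add_zero, e, show (4 * M.wk 0 y (t + 1) + en0 M (M.wk 0 y (t + 1))) / 4 =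
        M.wk 0 y (t + 1) by omega, (en_kd h).1]
      exact (en_kd kd).1
    | succ d ih =>
      intro t ht
      have e : M.lk (4 * M.wk 0 y t + 0) / 4 = M.wk 0 y (t + 1) := (sc t).symm
      refine .go ?_ (by rw [e]; exact ih (t + 1) (by omega))
      obtain ⟨k1, k2⟩ := en_kd (⟨_, pw t, (sc t).symm, rfl⟩ : M.Kd 0 _ (M.wk 0 y (t + 1)))
      obtain ⟨k3, k4⟩ := en_kd h
      rw [e, k1, k3]
      have : M.ss 0 (M.wk 0 y t) ≠ a := fun v => by have := mn t (by omega) v; omega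
      unfold ep
      split_ifs <;> omega
  exact key T 0 (by omega)

theorem off_iff : (∃ v a, R v ∧ M.Rc v a (p / 4) ∧ (p % 4 = 0 ∨ p % 4 = ep 0 a)) ↔
    (∃ v a, R v ∧ M.Rc v a (p / 4)) ∧ (p % 4 = 0 ∨ p % 4 = en0 M (p / 4)) :=
  ⟨fun ⟨v, a, h, k, e⟩ => ⟨⟨v, a, h, k⟩, (en_kd k.1).1 ▸ e⟩,
    fun ⟨⟨v, a, h, k⟩, e⟩ => ⟨v, a, h, k, (en_kd k.1).1 ▸ e⟩⟩

theorem cutm_ex (H : M.Ok) (R : ℕ → Prop) : ∃ M', M.Cutm M' R := by
  obtain ⟨f, C⟩ := cut_ex (ring_of H R) (ok_pl H).iv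
  have o := (C.ok (ok_pl H)).iv
  refine ⟨⟨M.n, fun p => if p < 4 * M.n then f p else M.lk p⟩, rfl, fun p => ?_,
    fun v a y h k => ?_, fun p h => ?_⟩
  · by_cases u : p < 4 * M.n
    · simp only [if_pos u, if_pos (o p u).1, (o p u).2]
    · have : M.lk p = p := (H.fix p).2 fun v => u (lt4 H v)
      simp only [if_neg u, this]
  · have := H.lt _ (kd_per H k.1).1
    exact (if_pos (by omega)).trans ((C.on y ⟨v, a, h, k⟩).uniq (cv_fe H k.1).2.2)
  · show ite _ _ _ = _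
    split_ifs with u
    · exact C.off p u (mt off_iff.2 h)
    · rfl

theorem cutm_cut (H : M.Ok) (S : M.Cutm M' R) :
    IsCut M.n M.lk M'.lk 0 (fun y => ∃ v a, R v ∧ M.Rc v a y) (en0 M) := by
  obtain ⟨f, C⟩ := cut_ex (ring_of H R) (ok_pl H).iv
  have e : ∀ y, (∃ v a, R v ∧ M.Rc v a y) → M'.lk (4 * y + 0) = f (4 * y + 0) :=
    fun y ⟨v, a, h, k⟩ => (S.ring v a y h k).trans ((cv_fe H k.1).2.2.uniq (C.on y ⟨v, a, h, k⟩))
  refine ⟨ring_of H R, fun y h => e y h ▸ C.on y h, fun y h => ?_,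
    fun p _ h => S.off p (mt off_iff.1 h)⟩
  obtain ⟨b, k1, -, k2, k3⟩ := C.pv'' (ok_pl H).iv h
  have := C.bk y h
  rw [k3] at this
  rw [← k2, ← e b k1, S.inv, e b k1, k2]
  exact this

theorem cutm_al (H : M.Ok) (S : M.Cutm M' R) : M'.al = M.al := by
  funext c
  have e : 4 * c / 4 = c := by omega
  by_cases h : c < M.n
  · have := ((cutm_cut H S).ok (ok_pl H)).fix (4 * c) (by omega)
    rw [e] at this
    exact propext (this.not.trans not_not)
  · unfold Cm.al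
    rw [S.off _ fun ⟨v, a, _, k, _⟩ => h (e ▸ H.lt _ (kd_per H k.1).1)]

theorem cutm_ok (H : M.Ok) (S : M.Cutm M' R) : M'.Ok := by
  have o := (cutm_cut H S).ok (ok_pl H)
  have e := cutm_al H S
  refine ⟨fun c h => S.n ▸ H.lt c (e ▸ h), S.inv, fun p => ?_, fun p h => ?_⟩
  · rw [e]
    by_cases h : p < 4 * M.n
    · exact o.fix p h
    · rw [S.off _ fun ⟨v, a, _, k, _⟩ => h (lt4 H (kd_per H k.1).1)]
      exact H.fix p
  · rw [e] at h
    exact o.par p (lt4 H h) h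

/-- Cycles lift through the cut. -/
theorem cutm_cy (H : M.Ok) (S : M.Cutm M' R) (h : M'.Cy a z) : M.Cy a z := by
  rw [cy_iff (cutm_ok H S), cutm_al H S, S.n] at h
  exact (cy_iff H).2 ⟨h.1, lift_cut (cutm_cut H S) (ok_pl H).iv h.2⟩

/-! ### Level zero -/

/-- The map of a rotation of darts. -/
noncomputable def zm (n : ℕ) (ρ : ℕ → ℕ) : Cm := ⟨n, fun p => if p < 4 * n then lam n ρ p else p⟩

theorem trunc {n : ℕ} {lk : ℕ → ℕ} (N : Cm) (e : N = ⟨n, fun p => if p < 4 * n then lk p else p⟩)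
    (H : PL.Ok n (fun _ => True) lk) :
    N.Ok ∧ (∀ c, N.al c ↔ c < n) ∧ ∀ c < n, (N.Cy a c ↔ Cyc n lk a c) := by
  have l : ∀ p, N.lk p = if p < 4 * n then lk p else p := fun p => by rw [e]
  have hn : N.n = n := by rw [e]
  have fx : ∀ p, N.lk p = p ↔ ¬p / 4 < n := fun p => by
    rw [l]
    split_ifs with u
    · exact ⟨fun v => absurd trivial ((H.fix p u).1 v), fun v => by omega⟩
    · exact ⟨fun _ => by omega, fun _ => rfl⟩
  have al : ∀ c, N.al c ↔ c < n := fun c => by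
    have := (fx (4 * c)).not
    rwa [not_not, show 4 * c / 4 = c by omega] at this
  have ok : N.Ok := by
    refine ⟨fun c u => hn ▸ (al c).1 u, fun p => ?_, fun p => by rw [al, fx], fun p u => ?_⟩
    · by_cases u : p < 4 * n
      · rw [l p, if_pos u, l, if_pos (H.iv p u).1, (H.iv p u).2]
      · rw [l p, if_neg u, l, if_neg u]
    · have : p < 4 * n := by have := (al _).1 u; omega
      rw [l, if_pos this]
      exact H.par p this trivial
  refine ⟨ok, al, fun c hc => ?_⟩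
  rw [cy_iff ok, al, and_iff_right hc, hn]
  have : (fun x y => x < 4 * n ∧ (y = PL.r3 (N.lk x) ∨ (x % 4 = a % 4 ∧ y = op x))) =
      fun x y => x < 4 * n ∧ (y = PL.r3 (lk x) ∨ (x % 4 = a % 4 ∧ y = op x)) := by
    funext x y
    exact propext (and_congr_right fun u => by rw [l, if_pos u])
  unfold Cyc PL.Rch
  rw [this]

end Pool.Agent.MP_1a6d78_lc.PG.Ct
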