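import Pool.Agent.MP_1a6d78_lc.PG.Seg
import Pool.Agent.MP_1a6d78_lc.PG.Cert

/-! PROJECT PG: the map of level 0 is computable; the number `mu` is computable with long loops. -/

namespace Pool.Agent.MP_1a6d78_lc.PG

open Classical ED PR PL SC GL

noncomputable section

/-- `mu` with bounded quantifiers. -/
def muB (n : ℕ) (lk : ℕ → ℕ) : ℕ :=
  cnt n (fun c => lk (4 * c) ≠ 4 * c) - ncl (4 * n) (fun x => lk (4 * (x / 4)) ≠ 4 * (x / 4) ∧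
    ∃ y < 4 * n, Sc (4 * n) (fun x => lk (r4 x)) x y ∧ lk (r4 y) % 4 ≠ y % 4)
    (Sc (4 * n) fun x => lk (r4 x))

theorem Cm.Ok.lk_lt {M : Cm} (h : M.Ok) {p : ℕ} (hp : p < 4 * M.n) : M.lk p < 4 * M.n := by
  by_cases k : M.al (p / 4)
  · have := h.lt _ (h.al_lk k)
    omega
  · rwa [(h.fix p).2 k]

theorem muB_eq {M : Cm} (h : M.Ok) : muB M.n M.lk = M.mu := by
  have hf : ∀ a < 4 * M.n, M.nr a < 4 * M.n := fun a k => h.lk_lt (by unfold r4; omega)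
  have e : ∀ a < 4 * M.n, ∀ b, Sc (4 * M.n) M.nr a b ↔ M.Rg a b := fun a k b => sc_iff hf k
  refine congrArg (cnt M.n M.al - ·) (cnt_congr fun a k => and_congr (and_congr_right fun _ => ?_)
    (forall_congr' fun b => imp_congr_right fun _ => imp_congr_left (e a k b)))
  constructor
  · rintro ⟨y, -, u, v⟩ c
    exact c y ((e a k y).1 u) v
  · intro c
    obtain ⟨y, u⟩ := not_forall.1 c
    obtain ⟨u, v⟩ := Classical.not_imp.1 u
    exact ⟨y, ((e a k y).2 u).lt hf k, (e a k y).2 u, not_not.1 v⟩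

theorem muBC {κ β n : List Bool → ℕ} {lk : List Bool → Orc → ℕ → ℕ} (hn : Cn κ fun x _ => n x)
    (hb : ∀ x, 4 * n x ≤ β x) (hl : F1 κ β β fun x g _ => lk x g) :
    Nq κ β β fun x g _ => muB (n x) (lk x g) := by
  have n4 : Nq κ β β fun x _ _ => 4 * n x := Q.mul (Q.c 4) (Q.lift hn)
  have r : ∀ {a : EN}, Nq κ β β a → Nq κ β β fun x g ρ => lk x g (r4 (a x g ρ)) := fun h =>
    hl (Q.add (Q.mul (Q.c 4) (Q.div h (Q.c 4))) (Q.mod (Q.add h (Q.c 1)) (Q.c 4)))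
  have sc : ∀ {a b : EN}, Nq κ β β a → Nq κ β β b → Pq κ β β fun x g ρ =>
      Sc (4 * n x) (fun y => lk x g (r4 y)) (a x g ρ) (b x g ρ) := fun {a b} ha hc =>
    Q.cgP (Q.ex (P := fun x g ρ t => it (4 * n x) (fun y => lk x g (r4 y)) (min t (4 * n x))
        (a x g ρ) = b x g ρ) n4 (fun x _ _ => hb x)
      (Q.eq (Q.it (f := fun x g _ y => lk x g (r4 y)) n4 (r (Q.v 0)) (Q.min (Q.v 0) n4)
        (fun x _ _ => (min_le_right _ _).trans (hb x)) (Q.w ha)) (Q.w hc))) fun x g ρ =>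
      exists_congr fun t => and_congr_right fun k => by rw [min_eq_left k.le]
  have al : ∀ {a : EN}, Nq κ β β a → Pq κ β β fun x g ρ => lk x g (4 * a x g ρ) ≠ 4 * a x g ρ :=
    fun h => Q.ne (hl (Q.mul (Q.c 4) h)) (Q.mul (Q.c 4) h)
  refine Q.sub (Q.cnt (P := fun x g _ c => lk x g (4 * c) ≠ 4 * c) (Q.lift hn)
    (fun x _ _ => by have := hb x; omega) (al (Q.v 0))) ?_
  exact Q.cnt (P := fun x g _ d => (lk x g (4 * (d / 4)) ≠ 4 * (d / 4) ∧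
      ∃ y < 4 * n x, Sc (4 * n x) (fun y => lk x g (r4 y)) d y ∧ lk x g (r4 y) % 4 ≠ y % 4) ∧
      ∀ e < 4 * n x, Sc (4 * n x) (fun y => lk x g (r4 y)) d e → d ≤ e) n4 (fun x _ _ => hb x)
    (Q.and (Q.and (al (Q.div (Q.v 0) (Q.c 4)))
      (Q.ex (P := fun x g ρ y => Sc (4 * n x) (fun y => lk x g (r4 y)) (hd (ρ 0)) y ∧
          lk x g (r4 y) % 4 ≠ y % 4) n4 (fun x _ _ => hb x)
        (Q.and (sc (Q.v 1) (Q.v 0)) (Q.ne (Q.mod (r (Q.v 0)) (Q.c 4)) (Q.mod (Q.v 0) (Q.c 4))))))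
      (Q.all (P := fun x g ρ e => Sc (4 * n x) (fun y => lk x g (r4 y)) (hd (ρ 0)) e →
          hd (ρ 0) ≤ e) n4 (fun x _ _ => hb x) (Q.imp (sc (Q.v 1) (Q.v 0)) (Q.le (Q.v 1) (Q.v 0)))))

/-- A computable map. -/
structure BC (κ : List Bool → ℕ) (M : List Bool → Cm) : Prop where
  n : Cn κ fun x _ => (M x).n
  lk : ∀ {a : List Bool → Env → ℕ}, Cn κ a → Cn κ fun x ρ => (M x).lk (a x ρ)
  lk_lt : ∀ x {p : ℕ}, p < 4 * (M x).n → (M x).lk p < 4 * (M x).n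
  lk_ge : ∀ x {p : ℕ}, 4 * (M x).n ≤ p → (M x).lk p = p

namespace B0

variable {κ : List Bool → ℕ} {i a b c t : List Bool → Env → ℕ} {A B : List Bool → Env → Sg}

/-- A computable segment. -/
def Sv (κ : List Bool → ℕ) (A : List Bool → Env → Sg) : Prop :=
  (Cn κ fun x ρ => (A x ρ).i) ∧ (Cn κ fun x ρ => (A x ρ).p) ∧ (Cn κ fun x ρ => (A x ρ).s) ∧
    Cn κ fun x ρ => (A x ρ).q

theorem Sv.w (h : Sv κ A) : Sv κ fun x ρ => A x (tl ρ) :=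
  ⟨K.w h.1, K.w h.2.1, K.w h.2.2.1, K.w h.2.2.2⟩

theorem pt (ha : Cn κ a) (hb : Cn κ b) : Cn κ fun x ρ => pt (a x ρ) (b x ρ) :=
  K.add (K.mul (K.c 4) ha) (K.mod hb (K.c 4))

end B0

namespace BC

open B0

variable {κ : List Bool → ℕ} {i a b c t : List Bool → Env → ℕ} {A B : List Bool → Env → Sg}
  {M : List Bool → Cm} (H : BC κ M)
include H

theorem al_lt (x : List Bool) {c : ℕ} (h : (M x).al c) : c < (M x).n :=
  not_le.1 fun k => h (H.lk_ge x (by omega))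

theorem st_lt (x : List Bool) (i : ℕ) : ∀ c < (M x).n, (M x).st i c < (M x).n := fun c h => by
  have := H.lk_lt x (p := pt c i) (by unfold pt; omega)
  unfold Cm.st
  omega

theorem wk_eq (x : List Bool) (i c t : ℕ) : (M x).wk i c t =
    if c < (M x).n then it (M x).n ((M x).st i) t c else c := by
  split_ifs with h
  · exact (it_eq (H.st_lt x i) h t).symm
  · refine Function.iterate_fixed ?_ t
    rw [Cm.st, H.lk_ge x (by unfold pt; omega), pt_div]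

theorem ok_iff (x : List Bool) (A : Sg) : (M x).ok A ↔
    A.i < 4 ∧ (M x).al A.p ∧ ∃ t < (M x).n, (M x).wk A.i A.p t = A.q :=
  and_congr_right fun _ => and_congr_right fun h => ⟨fun ⟨_, k⟩ =>
    iter_bnd' (Q := fun a => a < (M x).n) (H.st_lt x _) (fun _ h => h) (H.al_lt x h) k,
    fun ⟨t, _, k⟩ => ⟨t, k⟩⟩

theorem al (h : Cn κ a) : PR.Cp κ fun x ρ => (M x).al (a x ρ) :=
  K.ne (H.lk (K.mul (K.c 4) h)) (K.mul (K.c 4) h)

theorem st (hi : Cn κ i) (ha : Cn κ a) : Cn κ fun x ρ => (M x).st (i x ρ) (a x ρ) :=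
  K.div (H.lk (B0.pt ha hi)) (K.c 4)

theorem ss (hi : Cn κ i) (ha : Cn κ a) : Cn κ fun x ρ => (M x).ss (i x ρ) (a x ρ) :=
  K.ite (K.eq (K.mod (H.lk (B0.pt ha hi)) (K.c 4)) (K.mod (K.add hi (K.c 1)) (K.c 4)))
    (K.mod hi (K.c 4)) (K.mod (K.add hi (K.c 3)) (K.c 4))

theorem wk (hi : Cn κ i) (ha : Cn κ a) (ht : Cn κ t) :
    Cn κ fun x ρ => (M x).wk (i x ρ) (a x ρ) (t x ρ) :=
  K.cg (K.ite (i := fun _ _ => propDecidable _) (K.lt ha H.n)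
    (K.it (f := fun x ρ => (M x).st (i x ρ)) H.n (H.st (K.w hi) (K.v 0)) ht ha) ha)
    fun x ρ => by rw [H.wk_eq]; congr

theorem En0 (hi : Cn κ i) (ha : Cn κ a) : Cn κ fun x ρ => (M x).En0 (i x ρ) (a x ρ) :=
  K.ite (H.al ha) (K.lst (P := fun x ρ y => ∃ t < (M x).n,
      (M x).wk (i x ρ) (a x ρ) ((M x).n + t) = y) H.n
    (K.ex (P := fun x ρ t => (M x).wk (i x (tl ρ)) (a x (tl ρ)) ((M x).n + t) = hd (ρ 0)) H.n
      (K.eq (H.wk (K.w (K.w hi)) (K.w (K.w ha)) (K.add H.n (K.v 0))) (K.v 1)))) H.n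

theorem FE (hi : Cn κ i) (ha : Cn κ a) (hb : Cn κ b) :
    Cn κ fun x ρ => (M x).FE (i x ρ) (a x ρ) (b x ρ) :=
  have h := K.eq (H.ss (K.w hi) (H.wk (K.w hi) (K.w ha) (K.v 0))) (K.w hb)
  K.ite (K.and (H.al ha) (K.ex (P := fun x ρ t =>
      (M x).ss (i x ρ) ((M x).wk (i x ρ) (a x ρ) t) = b x ρ) H.n h))
    (H.wk hi ha (K.add (K.lst (P := fun x ρ t =>
      (M x).ss (i x ρ) ((M x).wk (i x ρ) (a x ρ) t) = b x ρ) H.n h) (K.c 1))) H.n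

theorem el (h : Sv κ A) (ht : Cn κ t) : Cn κ fun x ρ => (M x).el (A x ρ) (t x ρ) :=
  H.wk h.1 h.2.1 ht

theorem sv (h : Sv κ A) (ht : Cn κ t) : Cn κ fun x ρ => (M x).sv (A x ρ) (t x ρ) :=
  K.ite (K.eq ht (K.c 0)) h.2.2.1 (H.ss h.1 (H.wk h.1 h.2.1 (K.sub ht (K.c 1))))

theorem ln (h : Sv κ A) : Cn κ fun x ρ => (M x).ln (A x ρ) :=
  K.lst (P := fun x ρ t => (M x).el (A x ρ) t = (A x ρ).q) H.n
    (K.eq (H.el h.w (K.v 0)) (K.w h.2.2.2))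

theorem ok (h : Sv κ A) : PR.Cp κ fun x ρ => (M x).ok (A x ρ) :=
  K.cgP (K.and (K.lt h.1 (K.c 4)) (K.and (H.al h.2.1)
    (K.ex (P := fun x ρ t => (M x).wk (A x ρ).i (A x ρ).p t = (A x ρ).q) H.n
      (K.eq (H.el h.w (K.v 0)) (K.w h.2.2.2))))) fun x _ => (H.ok_iff x _).symm

theorem Ps (h : Sv κ A) (ha : Cn κ a) (hb : Cn κ b) :
    PR.Cp κ fun x ρ => (M x).Ps (A x ρ) (a x ρ) (b x ρ) :=
  K.cgP (K.ex (P := fun x ρ t => (M x).el (A x ρ) t = a x ρ ∧ (M x).sv (A x ρ) t = b x ρ)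
    (K.add (H.ln h) (K.c 1)) (K.and (K.eq (H.el h.w (K.v 0)) (K.w ha)) (K.eq (H.sv h.w (K.v 0)) (K.w hb))))
    fun _ _ => exists_congr fun _ => and_congr_left' Nat.lt_succ_iff

theorem hit (ha : Cn κ a) (hb : Cn κ b) (h : Sv κ A) (k : Sv κ B) (ht : Cn κ t) :
    PR.Cp κ fun x ρ => (M x).hit (a x ρ) (b x ρ) (A x ρ) (B x ρ) (t x ρ) :=
  K.and (K.le ht (H.ln h)) (K.and (K.eq (H.sv h ht) ha) (H.Ps k (H.el h ht) hb))

theorem F (fl : Bool) (ha : Cn κ a) (hb : Cn κ b) (h : Sv κ A) (k : Sv κ B) :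
    Cn κ fun x ρ => (M x).F fl (a x ρ) (b x ρ) (A x ρ) (B x ρ) := by
  have u := H.hit (K.w ha) (K.w hb) h.w k.w (K.v 0)
  refine K.ite (K.and (H.ok h) (K.and (H.ok k) (K.ex (P := fun x ρ t =>
    (M x).hit (a x ρ) (b x ρ) (A x ρ) (B x ρ) t) H.n u))) (H.el h ?_) H.n
  cases fl
  · exact K.sub (K.sub H.n (K.c 1)) (K.lst (P := fun x ρ t =>
      (M x).hit (a x ρ) (b x ρ) (A x ρ) (B x ρ) ((M x).n - 1 - t)) H.n
      (H.hit (K.w ha) (K.w hb) h.w k.w (K.sub (K.sub H.n (K.c 1)) (K.v 0))))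
  · exact K.lst (P := fun x ρ t => (M x).hit (a x ρ) (b x ρ) (A x ρ) (B x ρ) t) H.n u

end BC

end

end Pool.Agent.MP_1a6d78_lc.PG
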