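import Pool.Agent.MP_1a6d78_lc.PG.MCut
import Pool.Agent.MP_1a6d78_lc.PG.MBase

/-! PROJECT PG: the machine: oracle coding, level 0, the step, the potential; computability. -/

namespace Pool.Agent.MP_1a6d78_lc.PG

open Classical ED PR SC GL

noncomputable section

def Sg.clip (A : Sg) (q : ℕ) : Sg := ⟨min A.i q, min A.p q, min A.s q, min A.q q⟩

def Pr.clip (P : Pr) (q : ℕ) : Pr where
  al c := P.al (min c q)
  lam p := min (P.lam (min p q)) q
  En i c := min (P.En (min i q) (min c q)) q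
  FE i c a := min (P.FE (min i q) (min c q) (min a q)) q
  F fl a b A B := min (P.F fl (min a q) (min b q) (A.clip q) (B.clip q)) q
  next z := min (P.next (min z q)) q
  cur e := min (P.cur (min e q)) q
  rs := min P.rs q

/-- A call of the oracle. -/
def ask (q : ℕ) (g : Orc) (l : List ℕ) : ℕ := g (l.map fun a => min a q)

/-- The primitives read from an oracle. -/
def ofO (q : ℕ) (g : Orc) : Pr where
  al c := ask q g [0, c] ≠ 0
  lam p := ask q g [1, p]
  En i c := ask q g [2, i, c]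
  FE i c a := ask q g [3, i, c, a]
  F fl a b A B := ask q g [4, if fl = true then 1 else 0, a, b, A.i, A.p, A.s, A.q, B.i, B.p, B.s, B.q]
  next z := ask q g [5, z]
  cur e := ask q g [6, e]
  rs := ask q g [7]

/-- The primitives as one function. -/
def toO (q : ℕ) (P : Pr) (l : List ℕ) : ℕ :=
  if gt l 0 = 0 then (if P.al (gt l 1) then 1 else 0)
  else min (if gt l 0 = 1 then P.lam (gt l 1)
    else if gt l 0 = 2 then P.En (gt l 1) (gt l 2)
    else if gt l 0 = 3 then P.FE (gt l 1) (gt l 2) (gt l 3)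
    else if gt l 0 = 4 then P.F (decide (gt l 1 = 1)) (gt l 2) (gt l 3)
      ⟨gt l 4, gt l 5, gt l 6, gt l 7⟩ ⟨gt l 8, gt l 9, gt l 10, gt l 11⟩
    else if gt l 0 = 5 then P.next (gt l 1) else if gt l 0 = 6 then P.cur (gt l 1) else P.rs) q

/-- The geometry of level 0. -/
def geo0 (M : Cm) : Pr :=
  ⟨M.al, fun p => if M.al (p / 4) then M.lk p else 4 * M.n, M.En0, M.FE, M.F, fun _ => 0,
    fun _ => 1, 0⟩

def base0 (M : Cm) : Pr := { geo0 M with next := bnext (16 * M.n) (geo0 M).val (geo0 M).own }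

def Pr.garb (P : Pr) (n : ℕ) (h : ℕ → Prop) : Pr := { P with next := P.ld.gnext (16 * n) h }

/-- The cut round in the frame `g`. -/
def cutR (n z c q : ℕ) (P : Pr) (j g : ℕ) : Rn := ⟨P.tw n g, n, z, c, q, 2 * j, fun _ => True⟩

/-- The kill round in the frame `g`. -/
def killR (n z c q : ℕ) (P : Pr) (j g w : ℕ) : Rn :=
  ⟨(cutR n z c q P j g).cut, n, z, c, q, 2 * j + 1, colq n (4 * (4 * c)) w⟩

theorem ofO_toO {q β : ℕ} (h : q ≤ β) (h7 : 7 ≤ q) (P : Pr) :
    ofO q (nrm 12 β (toO q P)) = P.clip q := by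
  have e : ∀ a, min β (min a q) = min a q := fun a => min_eq_right ((min_le_right _ _).trans h)
  have e3 : ∀ o, o ≤ 7 → min o q = o := fun o k => min_eq_left (k.trans h7)
  have e4 : ∀ o, o ≤ 7 → min β o = o := fun o k => min_eq_right ((k.trans h7).trans h)
  have t : ∀ (l : List ℕ) (i : ℕ), i < 12 → gt (tab 12 fun i => min β (gt l i)) i = min β (gt l i) :=
    fun l i k => gt_tab _ k
  have g0 : ∀ (u : ℕ) (l : List ℕ), gt (u :: l) 0 = u := fun _ _ => rfl
  have g1 : ∀ (u i : ℕ) (l : List ℕ), gt (u :: l) (i + 1) = gt l i := fun _ _ _ => rfl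
  unfold ofO Pr.clip ask nrm toO
  congr 1
  · funext d
    by_cases u : P.al (min d q) <;> simp [t, g0, g1, e, u]
    omega
  · funext a
    simp [t, g0, g1, e, e3, e4]
  · funext a b
    simp [t, g0, g1, e, e3, e4]
  · funext a b c
    simp [t, g0, g1, e, e3, e4]
  · funext fl a b A B
    cases fl <;> simp [t, g0, g1, e, e3, e4, Sg.clip]
  · funext a
    simp [t, g0, g1, e, e3, e4]
  · funext a
    simp [t, g0, g1, e, e3, e4]
  · simp [t, g0, e, e3, e4]

variable {κ m β q n : List Bool → ℕ}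

theorem askC (hk : ∀ x, 12 ≤ κ x) (hq : Nq κ m β fun x _ _ => q x) (hb : ∀ x, q x ≤ β x)
    (a : EN) (l : List EN) (hl : l.length < 12) (h : ∀ f ∈ a :: l, Nq κ m β f) :
    Nq κ m β fun x g ρ => ask (q x) g ((a :: l).map fun f => f x g ρ) := by
  refine Q.call ?_ fun x g ρ y hy => ?_
  · induction l generalizing a with
    | nil => exact Q.min (h a List.mem_cons_self) hq
    | cons b l ih =>
      exact U.consL (l.length + 1) (fun x => by have := hk x; simp at hl; omega)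
        (Q.min (h a List.mem_cons_self) hq)
        (ih b (by simp at hl; omega) fun f k => h f (List.mem_cons_of_mem _ k))
        fun _ _ _ => by simp
  · obtain ⟨u, -, rfl⟩ := List.mem_map.1 hy
    exact (min_le_right _ _).trans (hb x)

theorem ofOC (hk : ∀ x, 12 ≤ κ x) (hq : Nq κ m β fun x _ _ => q x) (hb : ∀ x, q x ≤ β x) :
    PC κ m β fun x g _ => ofO (q x) g where
  al {a} h := Q.ne (askC hk hq hb _ [a] (by simp) (by simp [h, Q.c])) (Q.c 0)
  lam {a} h := askC hk hq hb _ [a] (by simp) (by simp [h, Q.c])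
  En {i a} h h' := askC hk hq hb _ [i, a] (by simp) (by simp [h, h', Q.c])
  FE {i a b} h h' h'' := askC hk hq hb _ [i, a, b] (by simp) (by simp [h, h', h'', Q.c])
  F {fl a b A B} h1 h2 h3 h4 h5 := askC hk hq hb (fun _ _ _ => 4)
    [fun x g ρ => if fl x g ρ = true then 1 else 0, a, b, fun x g ρ => (A x g ρ).i,
      fun x g ρ => (A x g ρ).p, fun x g ρ => (A x g ρ).s, fun x g ρ => (A x g ρ).q,
      fun x g ρ => (B x g ρ).i, fun x g ρ => (B x g ρ).p, fun x g ρ => (B x g ρ).s,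
      fun x g ρ => (B x g ρ).q] (by simp) (by
        simp only [List.forall_mem_cons]
        exact ⟨Q.c 4, Q.ite h1 (Q.c 1) (Q.c 0), h2, h3, h4.i, h4.p, h4.s, h4.q, h5.i, h5.p, h5.s,
          h5.q, by simp⟩)
  next {a} h := askC hk hq hb _ [a] (by simp) (by simp [h, Q.c])
  cur {a} h := askC hk hq hb _ [a] (by simp) (by simp [h, Q.c])
  rs := askC hk hq hb (fun _ _ _ => 7) [] (by simp) (by simp [Q.c])

theorem toOC {P : List Bool → Orc → Env → Pr} (H : PC κ m β P) (hq : Nq κ m β fun x _ _ => q x)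
    {l : List Bool → Orc → Env → List ℕ} (hl : Lq κ m β l) :
    Nq κ m β fun x g ρ => toO (q x) (P x g ρ) (l x g ρ) :=
  have u := fun i => Q.gt hl (Q.c i)
  have t := fun i => Q.eq (u 0) (Q.c i)
  Q.ite (t 0) (Q.ite (H.al (u 1)) (Q.c 1) (Q.c 0)) (Q.min (Q.ite (t 1) (H.lam (u 1))
    (Q.ite (t 2) (H.En (u 1) (u 2)) (Q.ite (t 3) (H.FE (u 1) (u 2) (u 3))
      (Q.ite (t 4) (H.F (Bv.dec (Q.eq (u 1) (Q.c 1))) (u 2) (u 3)
        (Sv.mk' (u 4) (u 5) (u 6) (u 7)) (Sv.mk' (u 8) (u 9) (u 10) (u 11)))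
        (Q.ite (t 5) (H.next (u 1)) (Q.ite (t 6) (H.cur (u 1)) H.rs)))))) hq)

namespace BC

variable {a : List Bool → Env → ℕ} {M : List Bool → Cm} (H : BC κ M)
include H

theorem lam (h : Cn κ a) : Cn κ fun x ρ => (geo0 (M x)).lam (a x ρ) :=
  K.ite (H.al (K.div h (K.c 4))) (H.lk h) (K.mul (K.c 4) H.n)

theorem lo (h : Cn κ a) : Cn κ fun x ρ => (geo0 (M x)).lo (a x ρ) :=
  K.ite (K.eq (K.mod (H.lam h) (K.c 4)) (K.mod (K.add h (K.c 1)) (K.c 4))) h (H.lam h)

theorem val (h : Cn κ a) : PR.Cp κ fun x ρ => (geo0 (M x)).val (a x ρ) :=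
  have d := K.div h (K.c 4)
  have l := H.lo d
  have u := fun k => K.mod (K.add l (K.c k)) (K.c 4)
  K.and (K.and (H.al (K.div d (K.c 4))) (K.ne
    (H.lam (B0.pt (H.FE (u 3) (K.div l (K.c 4)) (u 2)) (K.add l (K.c 2))))
    (B0.pt (H.FE (u 2) (K.div (H.lam l) (K.c 4)) (u 2)) (K.add l (K.c 3)))))
    (K.eq (K.mod (K.add d h) (K.c 2)) (K.c 1))

theorem own (h : Cn κ a) : Cn κ fun x ρ => (geo0 (M x)).own (a x ρ) :=
  B0.pt (H.En0 (K.mod h (K.c 4)) (K.div h (K.c 16))) h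

theorem base (hq : Cn κ fun x _ => q x) : Cn κ fun x ρ => toO (q x) (base0 (M x)) (ρ 0) := by
  have u := fun i => K.gt (K.vL (κ := κ) 0) (K.c i)
  have t := fun i => K.eq (u 0) (K.c i)
  have f := fun fl => H.F fl (u 2) (u 3)
    (A := fun _ ρ => ⟨gt (ρ 0) 4, gt (ρ 0) 5, gt (ρ 0) 6, gt (ρ 0) 7⟩)
    (B := fun _ ρ => ⟨gt (ρ 0) 8, gt (ρ 0) 9, gt (ρ 0) 10, gt (ρ 0) 11⟩)
    ⟨u 4, u 5, u 6, u 7⟩ ⟨u 8, u 9, u 10, u 11⟩
  refine K.ite (t 0) (K.ite (H.al (u 1)) (K.c 1) (K.c 0)) (K.min (K.ite (t 1) (H.lam (u 1))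
    (K.ite (t 2) (H.En0 (u 1) (u 2)) (K.ite (t 3) (H.FE (u 1) (u 2) (u 3)) (K.ite (t 4) ?_
      (K.ite (t 5) (bnextC (M := fun x => 16 * (M x).n) (K.mul (K.c 16) H.n) H.val H.own (u 1))
        (K.ite (t 6) (K.c 1) (K.c 0))))))) hq)
  exact K.cg (K.ite (i := fun _ _ => propDecidable _) (K.eq (u 1) (K.c 1)) (f true) (f false))
    fun x ρ => by by_cases k : gt (ρ 0) 1 = 1 <;> simp [k, base0, geo0]

end BC

end

end Pool.Agent.MP_1a6d78_lc.PG
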