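import Pool.Agent.MP_1a6d78_lc.PG.SpecC

/-! PROJECT PG, row CCOV: the pieces of a segment after the cut. -/

namespace Pool.Agent.MP_1a6d78_lc.PG

open Classical ED PR GL

namespace Cm

variable {M M' : Cm} {R : ℕ → Prop}

/-- A segment that does not leave a cell by a cut link. -/
theorem cov_same (h : M.Ok) (S : M.Cutm M' R) {A : Sg} {δ a : ℕ} {X : ℕ → Sg} {rv : ℕ → Bool}
    (k : M.ok A) (e : ∀ u, M.Mem A u → u ≠ A.q → ¬M.Rp R A.i u) (hX : X 0 = A)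
    (hr : rv 0 = false) : Cov M M' δ a A X rv 1 := by
  obtain ⟨-, e1, e2⟩ := agree h (S.ok' h) k (S.al' h ▸ k.2.1) fun u m c => S.off_pt k.1 (e u m c)
  refine cov_one (hX ▸ k) (fun y c => hX ▸ (e1 y a).1 c) (fun y c => Or.inl ((e1 y a).2 (hX ▸ c)))
    fun y y' _ _ _ _ c => ?_
  rw [hr, hX] at c
  exact (e2 y y').2 c

/-- A segment of type 0 between two cells of one kind of a cut ring. -/
theorem ring_seg (h : M.Ok) (S : M.Cutm M' R) {a u v : ℕ} (ku : M.Rk R a u) (kv : M.Rk R a v)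
    (c : M.Co 0 v u) : M.ok ⟨0, u, a, v⟩ ∧ M'.ok ⟨0, u, a, v⟩ ∧
      (∀ y, M.Ps ⟨0, u, a, v⟩ y a ↔ M'.Mem ⟨0, u, a, v⟩ y) ∧
      ∀ y y', M.Ps ⟨0, u, a, v⟩ y a → M.Ps ⟨0, u, a, v⟩ y' a → M.Bf ⟨0, u, a, v⟩ y y' →
        M'.Bf ⟨0, u, a, v⟩ y y' := by
  have o : M.ok ⟨0, u, a, v⟩ := ⟨Nat.zero_lt_succ _, ku.al h, c.symm.pa h (kv.kd.per h)⟩
  have o' : M'.ok ⟨0, u, a, v⟩ :=
    ⟨Nat.zero_lt_succ _, S.al' h ▸ ku.al h, (S.pa0 h ku v).2 ⟨kv, c⟩⟩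
  have b := (S.subw h a).bf h (S.ok' h) ku o o'
  have kd : ∀ y b, M.Ps ⟨0, u, a, v⟩ y b → M.Kd 0 b y := fun y b p => by
    rcases (ps_iff h o).1 p with ⟨rfl, rfl⟩ | ⟨w, w1, -, rfl, rfl⟩
    · exact ku.kd
    · exact kd_step ((ku.kd.per h).pa h w1.pa).1
  have rk : ∀ y, M.Ps ⟨0, u, a, v⟩ y a → M.Rk R a y := fun y p =>
    ku.co (kd y a p) p.mem.pa.co.symm
  refine ⟨o, o', fun y => ⟨fun p => ((b y y).2 ⟨p.mem.bf, rk y p, rk y p⟩).left, fun m => ?_⟩,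
    fun y y' p p' d => (b y y').2 ⟨d, rk y p, rk y' p'⟩⟩
  obtain ⟨m1, m2, -⟩ := (b y y).1 m.bf
  obtain ⟨b, pb⟩ := m1.left.ps
  exact (kd y b pb).uniq h m2.kd ▸ pb

/-- Two pieces: up to the diversion, and along the ring. -/
theorem cov_two (h : M.Ok) (h' : M'.Ok) {A Z : Sg} {δ a a0 d r : ℕ} {X : ℕ → Sg} {rv : ℕ → Bool}
    (k : M'.ok A) (oB : M.ok ⟨A.i, A.p, A.s, d⟩)
    (eP : ∀ y b, M'.Ps ⟨A.i, A.p, A.s, d⟩ y b ↔ M.Ps ⟨A.i, A.p, A.s, d⟩ y b)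
    (eB : ∀ y y', M'.Bf ⟨A.i, A.p, A.s, d⟩ y y' ↔ M.Bf ⟨A.i, A.p, A.s, d⟩ y y')
    (pr : M'.Ps A r a0) (dr : M'.Bf A d r) (sp : ∀ u, M'.Mem A u → M'.Bf A u d ∨ M'.Bf A r u)
    (s0 : ∀ y b, M'.Ps ⟨A.i, r, a0, A.q⟩ y b → b = a0) (oZ : M.ok Z)
    (z1 : ∀ y, M.Ps Z y a0 ↔ M'.Mem ⟨A.i, r, a0, A.q⟩ y)
    (z2 : ∀ y y', M.Ps Z y a0 → M.Ps Z y' a0 → M.Bo (!rv 1) Z y y' → M'.Bf ⟨A.i, r, a0, A.q⟩ y y')
    (x0 : X 0 = ⟨A.i, A.p, A.s, d⟩) (r0 : rv 0 = false)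
    (x1 : X 1 = if a = a0 then Z else junk M.n) : Cov M M' δ a A X rv 2 := by
  obtain ⟨-, q1, q2⟩ := cutq h' k dr.left
  obtain ⟨-, p1, p2⟩ := cutp h' k pr
  have one : M.ok (X 1) → a = a0 ∧ X 1 = Z := fun o => by
    by_cases c : a = a0
    · exact ⟨c, by rw [x1, if_pos c]⟩
    · rw [x1, if_neg c] at o
      exact absurd o (junk_not h)
  have zz : ∀ y, M.Ps Z y a0 → M'.Ps A y a0 ∧ M'.Bf A r y := fun y p => by
    obtain ⟨b, pb⟩ := ((z1 y).1 p).ps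
    exact (p1 y a0).1 (s0 y b pb ▸ pb)
  have two : ∀ {l : ℕ}, l < 2 → l = 0 ∨ l = 1 := fun c => by omega
  refine ⟨fun l hl => ?_, fun y p => ?_, fun l hl y o p => Or.inl ?_,
    fun l l' y y' c c' o o' p p' _ _ => ?_, fun l hl y y' o p p' _ _ b => ?_⟩
  · rcases two hl with rfl | rfl
    · rw [x0]; exact oB.wo
    · rw [x1]
      split_ifs
      exacts [oZ.wo, junk_wo h]
  · rcases sp y p.mem with c | c
    · exact ⟨0, by omega, x0 ▸ oB, x0 ▸ (eP y a).1 ((q1 y a).2 ⟨p, c⟩)⟩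
    · have p' := (p1 y a).2 ⟨p, c⟩
      have e := s0 y a p'
      refine ⟨1, by omega, ?_⟩
      rw [x1, if_pos e, e]
      exact ⟨oZ, (z1 y).2 p'.mem⟩
  · rcases two hl with rfl | rfl
    · rw [x0] at p
      exact ((q1 y a).1 ((eP y a).2 p)).1
    · obtain ⟨rfl, e⟩ := one o
      rw [e] at p
      exact (zz y p).1
  · obtain rfl : l = 0 := by omega
    obtain rfl : l' = 1 := by omega
    obtain ⟨rfl, e⟩ := one o'
    rw [x0] at p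
    rw [e] at p'
    exact (((q1 y a).1 ((eP y a).2 p)).2.trans h' k dr).trans h' k (zz y' p').2
  · rcases two hl with rfl | rfl
    · rw [x0, r0] at b
      exact ((q2 y y').1 ((eB y y').2 b)).1
    · obtain ⟨rfl, e⟩ := one o
      rw [e] at p p' b
      exact ((p2 y y').1 (z2 y y' p p' b)).1

end Cm

open Cm in
theorem cCov : CCovS := by
  rintro K M M' H ⟨i, p, s, q⟩ a ha k'
  have h := H.hy.ok
  have G := H.hy.geo
  have S := H.cut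
  have en := H.hy.n
  have h' := S.ok' h
  have hi : i < 4 := k'.1
  have hp : M.al p := S.al' h ▸ k'.2.1
  have r0 : Rn.crv ⟨i, p, s, q⟩ 0 = false := by simp [Rn.crv]
  have zero : K.cnp ⟨i, p, s, q⟩ = 0 → M.ok ⟨i, p, s, q⟩ →
      (∀ u, M.Mem ⟨i, p, s, q⟩ u → u ≠ q → ¬M.Rp K.ccut i u) →
      Cov M M' 0 a ⟨i, p, s, q⟩ (K.cpc ⟨i, p, s, q⟩ a) (Rn.crv ⟨i, p, s, q⟩)
        (K.cnp ⟨i, p, s, q⟩ + 1) := fun e o c => by
    rw [e]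
    exact cov_same h S o c (by rw [Rn.cpc, if_pos e]) r0
  rcases H.sel.div hi hp with ⟨e, no⟩ | ⟨lt, T, e, rp, no⟩
  · refine zero (if_neg fun c => ?_) ⟨hi, hp, ?_⟩ ?_
    · have := c.1
      rw [en] at this
      exact this.ne e
    · obtain ⟨t, c⟩ := k'.2.2
      exact ⟨t, ((S.wk_eq hi fun t _ => no t).1 t le_rfl).symm.trans c⟩
    · rintro u ⟨t, -, rfl⟩ -
      exact no t
  obtain ⟨oB, lB⟩ := mem_first (s := s) (Q := M.Rp K.ccut i) h hi hp rp no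
  have w := (S.wk_eq hi no).1
  rw [← e] at oB lB rp
  have cr : K.cr i p = M'.st i (K.cdiv i p) := by
    rw [Rn.cr, H.lam, pt_div, if_pos (e ▸ h.al_wk i hp T)]
    rfl
  have test : K.P.OnC K.n q ⟨i, p, s, K.cdiv i p⟩ ↔ M.Mem ⟨i, p, s, K.cdiv i p⟩ q := by
    rw [en, G.OnC_iff h (A := ⟨i, p, s, K.cdiv i p⟩) hi oB.wo]
    exact and_iff_right oB
  have off : ∀ u, M.Mem ⟨i, p, s, K.cdiv i p⟩ u → u ≠ K.cdiv i p → ¬M.Rp K.ccut i u := by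
    rintro u ⟨t, t1, rfl⟩ c
    exact no t (lt_of_le_of_ne (lB ▸ t1) fun d => c (by rw [d]; exact e.symm))
  by_cases m : M.Mem ⟨i, p, s, K.cdiv i p⟩ q
  · obtain ⟨o, -, q2⟩ := cutq h oB m
    refine zero (if_neg fun c => c.2 (test.2 m)) o fun u mu c => ?_
    obtain ⟨u1, u2⟩ := (q2 u u).1 mu.bf
    refine off u u1.left fun d => c (u2.anti h oB ?_)
    rw [d]
    exact m.bf_q h oB
  have np : K.cnp ⟨i, p, s, q⟩ = 1 := if_pos ⟨en ▸ lt, fun c => m (test.1 c)⟩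
  obtain ⟨-, eP, eB⟩ := agree h h' oB k'.2.1 fun u c d => S.off_pt hi (off u c d)
  obtain ⟨a0, kd, i0⟩ := rp
  have ck := H.sel.ck kd.kd
  have md : M'.Mem ⟨i, p, s, q⟩ (K.cdiv i p) := by
    refine ⟨T, not_lt.1 fun c => m ⟨_, lB ▸ c.le, ?_⟩, (w T le_rfl).trans e.symm⟩
    exact (w _ c.le).symm.trans (ln_spec h' k').2.1
  obtain ⟨s1, s2, -, s4⟩ := split h' k' md fun c : K.cdiv i p = q => m (by
    have u : M.Mem _ (K.cdiv i p) := mem_q h oB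
    exact c ▸ u)
  obtain ⟨t1, t2, -⟩ := S.step h kd i0
  change M'.Ps _ (M'.st i _) (M'.ss i _) at s1
  change M'.Bf _ _ (M'.st i _) at s2
  change ∀ u, _ → _ ∨ M'.Bf _ (M'.st i _) _ at s4
  rw [t1] at s1
  rw [← cr] at s1 s2 s4 t2
  have o2 : M'.ok ⟨i, K.cr i p, a0, q⟩ := (cutp h' k' s1).1
  have rk : ∀ y, M'.Mem ⟨i, K.cr i p, a0, q⟩ y → M.Rk K.ccut a0 y ∧ M.Co 0 y (K.cr i p) :=
    fun y c => (S.pa_iff h t2 i0 y).1 c.pa
  have s0 : ∀ y b, M'.Ps ⟨i, K.cr i p, a0, q⟩ y b → b = a0 := fun y b c => by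
    rcases (ps_iff h' o2).1 c with c | ⟨u, u1, -, -, rfl⟩
    exacts [c.2, (S.step h (rk u u1).1 i0).1]
  obtain ⟨kq, cq⟩ := rk q (mem_q h' o2)
  have x0 : K.cpc ⟨i, p, s, q⟩ a 0 = ⟨i, p, s, K.cdiv i p⟩ := by
    rw [Rn.cpc, if_neg (by omega), if_pos rfl]
  have x1 : K.cpc ⟨i, p, s, q⟩ a 1 = if a = a0 then
      (if i = 0 then ⟨0, K.cr i p, a0, q⟩ else ⟨0, q, a0, K.cr i p⟩) else junk M.n := by
    rw [Rn.cpc, if_neg (by omega), if_neg one_ne_zero, en]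
    show (if a = K.ck (K.cdiv i p) then _ else _) = _
    rw [ck]
    by_cases c : a = a0
    · rw [if_pos c, if_pos c, c]
    · rw [if_neg c, if_neg c]
  rw [np]
  by_cases c : i = 0
  · subst c
    obtain ⟨z0, -, z1, z2⟩ := ring_seg h S t2 kq cq
    rw [if_pos rfl] at x1
    refine cov_two h h' k' oB eP eB s1 s2 s4 s0 z0 z1 (fun y y' u u' b => z2 y y' u u' ?_) x0 r0 x1
    simpa [Rn.crv, Cm.Bo] using b
  · obtain ⟨z0, z0', z1, z2⟩ := ring_seg h S kq t2 cq.symm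
    rw [if_neg c] at x1
    obtain ⟨-, v⟩ := rev_seg (s' := a0) h' hi z0' fun u mu _ => by
      rw [i0.resolve_left c]
      exact S.st_st h ((S.pa0 h kq u).1 mu.pa).1
    refine cov_two h h' k' oB eP eB s1 s2 s4 s0 z0 (fun y => ?_)
      (fun y y' u u' b => (v y y').2 (z2 y' y u' u ?_)) x0 r0 x1
    · rw [z1, mem_iff_bf, mem_iff_bf]
      exact (v y y).symm
    · simpa [Rn.crv, Cm.Bo, c] using b

end Pool.Agent.MP_1a6d78_lc.PG
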