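import Pool.Agent.MP_1a6d78_lc.PG.SpecC

/-! PROJECT PG: the names of the cycles after the cut. -/

namespace Pool.Agent.MP_1a6d78_lc.PG

open Classical ED PR GL Cm

namespace CEn

variable {K : Rn} {M M' : Cm} {i c a d : ℕ}

/-- The new name of the cells of one kind of a cut ring. -/
theorem name (H : K.C1 M M') (k : M.Rk K.ccut a d) :
    M.Rk K.ccut a (K.P.FE 0 (K.P.En 0 d) (K.ck d)) ∧
      M.Co 0 (K.P.FE 0 (K.P.En 0 d) (K.ck d)) d := by
  have h := H.hy.ok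
  have G := H.hy.geo
  have z := k.kd.zero
  have p := G.nm.per 0 (by omega) d (k.al h)
  have e := (G.nm.pa 0 (by omega) d (k.al h)).co
  rw [H.sel.ck k.kd, G.FE 0 (by omega) a (by omega)]
  have r := fe_rc h p (fe_lt h p ⟨k.kd, e⟩)
  exact ⟨k.co r.1 (r.2.trans e.symm), r.2.trans e.symm⟩

theorem pos (H : K.C1 M M') (k : K.cdiv i c < M.n) :
    K.cEn i c = K.P.FE 0 (K.P.En 0 (K.cdiv i c)) (K.ck (K.cdiv i c)) := by
  rw [Rn.cEn, H.hy.n, if_pos k]

theorem neg (H : K.C1 M M') (k : ¬K.cdiv i c < M.n) : K.cEn i c = K.P.En i c := by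
  rw [Rn.cEn, H.hy.n, if_neg k]

theorem free (H : K.C1 M M') (hi : i < 4) (k : ∀ t, ¬M.Rp K.ccut i (M.wk i c t)) (t : ℕ) :
    M'.wk i c t = M.wk i c t := (H.cut.wk_eq hi (T := t) fun s _ => k s).1 t le_rfl

theorem both (H : K.C1 M M') (hi : i < 4) (hc : M.al c) :
    M'.Pa i c (K.cEn i c) ∧ M'.Per i (K.cEn i c) := by
  have h := H.hy.ok
  have G := H.hy.geo
  have S := H.cut
  rcases H.sel.div hi hc with ⟨e, k⟩ | ⟨e, T, e1, ⟨a, k1, k2⟩, k3⟩
  · rw [neg H e.not_lt]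
    obtain ⟨t, ht⟩ := G.nm.pa i hi c hc
    obtain ⟨p, s, hs⟩ := G.nm.per i hi c hc
    refine ⟨⟨t, (free H hi k t).trans ht⟩, S.al' h ▸ p, s, ?_⟩
    rw [← wk_succ', free H hi (fun u => by rw [← ht, ← wk_add]; exact k _), wk_succ', hs]
  · rw [pos H e, e1]
    obtain ⟨n1, n2⟩ := name H k1
    exact ⟨Pa.trans ⟨T, (S.wk_eq hi k3).1 T le_rfl⟩ ((S.pa_iff h k1 k2 _).2 ⟨n1, n2⟩),
      S.per_i h n1 k2⟩

theorem step (H : K.C1 M M') (hi : i < 4) (hc : M.al c) : K.cEn i (M'.st i c) = K.cEn i c := by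
  have h := H.hy.ok
  have G := H.hy.geo
  have S := H.cut
  by_cases r : M.Rp K.ccut i c
  · obtain ⟨a, k1, k2⟩ := r
    obtain ⟨-, k3, k4⟩ := S.step h k1 k2
    have e1 : K.cdiv i c = c :=
      (H.sel.div hi hc).eq (t := 0) ⟨a, k1, k2⟩ fun _ u => absurd u (Nat.not_lt_zero _)
    have e2 : K.cdiv i (M'.st i c) = M'.st i c :=
      (H.sel.div hi (k3.al h)).eq (t := 0) ⟨a, k3, k2⟩ fun _ u => absurd u (Nat.not_lt_zero _)
    rw [pos H (e1.trans_lt (h.lt _ hc)), pos H (e2.trans_lt (h.lt _ (k3.al h))), e1, e2,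
      H.sel.ck k1.kd, H.sel.ck k3.kd, (G.nm.co h (by omega) (k3.al h) hc).2 k4]
  · have e : M'.st i c = M.st i c := congrArg (· / 4) (S.off_pt hi r)
    have F := H.sel.div hi (h.al_st i hc)
    have e2 : K.cdiv i (M.st i c) = K.cdiv i c := by
      rcases H.sel.div hi hc with ⟨e1, k⟩ | ⟨-, T, e1, k1, k3⟩
      · rw [e1]
        exact F.none fun t => k (t + 1)
      · cases T with
        | zero => exact absurd k1 r
        | succ T => exact (F.eq (t := T) k1 fun t ht => k3 (t + 1) (by omega)).trans e1.symm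
    rw [e, Rn.cEn, Rn.cEn, e2, G.nm.st i hi c hc]

end CEn

open CEn in
theorem cEn : CEnS := by
  intro K M M' H
  have e := H.cut.al' H.hy.ok
  refine ⟨fun i hi c hc => ?_, fun i hi c hc => (both H hi (e ▸ hc)).1,
    fun i hi c hc => (both H hi (e ▸ hc)).2, fun i hi c hc => step H hi (e ▸ hc)⟩
  rw [e] at hc
  rw [neg H (H.sel.dead i hc).not_lt, H.hy.geo.En_dead hi hc, H.cut.n]

end Pool.Agent.MP_1a6d78_lc.PG
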