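import Pool.Agent.MP_1a6d78_lc.PG.SpecC

/-! PROJECT PG: the first passage by a side after the cut. -/

namespace Pool.Agent.MP_1a6d78_lc.PG

open Classical ED PR GL Cm

/-- A first passage before the diversion is the same in both maps. -/
theorem cfe_same {M M' : Cm} {R : ℕ → Prop} (h : M.Ok) (S : M.Cutm M' R) {i c a t : ℕ}
    (hi : i < 4) (hc : M.al c) (k : ∀ s < t + 1, ¬M.Rp R i (M.wk i c s))
    (e : M.ss i (M.wk i c t) = a) (f : ∀ s < t, M.ss i (M.wk i c s) ≠ a) :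
    M'.FE i c a = M.wk i c (t + 1) := by
  obtain ⟨w1, w2⟩ := S.wk_eq hi k
  rw [FE_eq (S.ok' h) (S.al' h ▸ hc) ((w2 t t.lt_succ_self).trans e)
    fun s hs => by rw [w2 s (by omega)]; exact f s hs, w1 _ le_rfl]

theorem cFe : CFeS := by
  intro K M M' H i hi a ha c
  have h := H.hy.ok
  have G := H.hy.geo
  have S := H.cut
  have h' := S.ok' h
  rw [Rn.cFE, H.hy.n, G.FE i hi a ha]
  by_cases hc : M.al c
  swap
  · rw [if_neg fun u => u.1.ne (H.sel.dead i hc), FE_dead hc, FE_dead (S.al' h ▸ hc), S.n]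
  have hc' : M'.al c := S.al' h ▸ hc
  rcases H.sel.div hi hc with ⟨d1, d2⟩ | ⟨d1, T, d2, d3, d4⟩
  · rw [if_neg fun u => u.1.ne d1]
    rcases FE_le h i c a with u | u
    · rw [u, ← S.n]
      refine ((FE_none h' hc').2 fun t => ?_).symm
      rw [(S.wk_eq hi (T := t + 1) fun s _ => d2 s).2 t t.lt_succ_self]
      exact (FE_none h hc).1 u t
    · obtain ⟨-, t, t1, t2, t3⟩ := FE_spec h (h.lt _ u)
      rw [t1, cfe_same h S hi hc (fun s _ => d2 s) t2 t3]
  obtain ⟨o, ln⟩ := mem_first (s := a) (Q := M.Rp K.ccut i) h hi hc d3 d4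
  obtain ⟨w1, w2⟩ := S.wk_eq hi d4
  rw [← d2] at o ln d3
  by_cases x : ∃ t, t < T ∧ M.ss i (M.wk i c t) = a
  · obtain ⟨t1, t2⟩ := Nat.find_spec x
    have t3 : ∀ s < Nat.find x, M.ss i (M.wk i c s) ≠ a := fun s hs e =>
      Nat.find_min x hs ⟨hs.trans t1, e⟩
    generalize Nat.find x = t at t1 t2 t3
    have e := FE_eq h hc t2 t3
    rw [if_neg, e, cfe_same h S hi hc (fun s hs => d4 s (by omega)) t2 t3]
    refine fun u => u.2 ⟨fun v => ?_, (G.On_iff h ha o.wo).2 ⟨o, t + 1, by omega, e.symm, t2⟩⟩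
    have := el_inj h o (s := t + 1) (t := 0) (by omega) (Nat.zero_le _) (e.symm.trans v)
    omega
  have y : ∀ s < T, M'.ss i (M'.wk i c s) ≠ a := fun s hs e => x ⟨s, hs, (w2 s hs).symm.trans e⟩
  obtain ⟨b, b1, b2⟩ := d3
  have wT : M'.wk i c T = K.cdiv i c := (w1 T le_rfl).trans d2.symm
  rw [if_pos, H.sel.ck b1.kd]
  · split_ifs with e
    · subst e
      rw [FE_eq h' hc' (t := T) (by rw [wT]; exact (S.step h b1 b2).1) y, wk_succ, wT, Rn.cr,
        H.lam, pt_div, if_pos (b1.al h)]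
      rfl
    · rw [← S.n]
      refine ((FE_none h' hc').2 fun t => ?_).symm
      rcases lt_or_ge t T with u | u
      · exact y t u
      · obtain ⟨r, rfl⟩ := Nat.exists_eq_add_of_le u
        rw [wk_add, wT, (S.step h ((S.pa_iff h b1 b2 _).1 (Pa.wk _ _ r)).1 b2).1]
        exact fun v => e v.symm
  · refine ⟨d1, fun ⟨v1, v2⟩ => ?_⟩
    obtain ⟨-, s, s1, s2, s3⟩ := (G.On_iff h ha o.wo).1 v2
    cases s with
    | zero => exact v1 s2.symm
    | succ s => exact x ⟨s, by omega, s3⟩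

end Pool.Agent.MP_1a6d78_lc.PG
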