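import Pool.Agent.MP_1a6d78_lc.PG.SpecC

/-! PROJECT PG, row CLAM: the links after the cut. -/

namespace Pool.Agent.MP_1a6d78_lc.PG

open Classical ED PR GL

theorem CLam.cpv_eq {K : Rn} {M : Cm} (H : K.Hy M) (L : K.CSelK M) {a r u : ℕ} (k : M.Kd 0 a u)
    (p : M.Per 0 r) (e : M.st 0 r = M.FE 0 u a) (c : M.Co 0 u r) : K.cpv a r = u := by
  have h := H.ok
  have G := H.geo
  have z := k.zero
  have ha : a < 4 := by omega
  obtain ⟨t, t1, t2, t3⟩ := Cm.prev0 h k p e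
  have no : ∀ s < t, ¬M.Kd 0 a (M.wk (ep 0 (3 - a)) r s) := fun s hs v => by
    have := v.uniq h (t3 s hs)
    omega
  rw [Rn.cpv, ← t1]
  split_ifs with w
  · rcases Nat.eq_zero_or_pos t with rfl | v
    exacts [rfl, absurd ((L.con ha).1 w).2.1 (no 0 v)]
  · have o := fun y => (G.On_iff h (y := y) ha (G.ring_wo h r (by omega))).symm.trans
      (G.On_ring h (i := 0) (c := r) (by omega) ha)
    rw [H.n]
    refine (G.early_fst h (by unfold ep; split_ifs <;> omega) (by omega) ha (by omega) p.1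
      fun _ _ => G.ring_wo h r (by omega)).eq ⟨t2 t le_rfl, 0, one_pos, (o _).2 ?_⟩
      fun s hs ⟨_, _, _, v⟩ => no s hs ((o _).1 v).2.1
    rw [t1]
    exact ⟨p.1, k, c⟩

theorem cLam : CLamS := by
  intro K M M' H S L p
  have h := H.ok
  have G := H.geo
  have ha : K.ck (p / 4) < 4 := by unfold Rn.ck; split_ifs <;> omega
  rw [Rn.clam]
  by_cases c1 : K.cis (K.ck (p / 4)) (p / 4) ∧ p % 4 = 0
  · have k := (L.cis ha).1 c1.1
    rw [if_pos c1, if_pos (k.al h), G.FE 0 (by omega) _ ha, ← S.exit k]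
    congr 1
    have := c1.2
    unfold pt
    omega
  rw [if_neg c1]
  by_cases c2 : K.cis (K.ck (p / 4)) (p / 4) ∧ p % 4 = ep 0 (K.ck (p / 4))
  · have k := (L.cis ha).1 c2.1
    have e : pt (p / 4) (ep 0 (K.ck (p / 4))) = p := by
      have := c2.2
      unfold pt
      omega
    obtain ⟨r, r1, r2, -, r4⟩ := k.kd.pred h
    obtain ⟨u, u1, u2, u3, u4⟩ := S.bwd h k
    rw [e] at r4 u4
    rw [if_pos c2, if_pos (k.al h), G.lam_al (k.al h), r4, pt_div, u4,
      CLam.cpv_eq H L u1.kd r1 (r2.trans u3.symm) (u2.trans (r2 ▸ Cm.Pa.step 0 r).co.symm)]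
    rfl
  rw [if_neg c2, G.lam, S.off']
  rintro ⟨a, k, v⟩
  have e := L.ck k.kd
  rw [← e] at k v
  exact v.elim (fun v => c1 ⟨(L.cis ha).2 k, v⟩) fun v => c2 ⟨(L.cis ha).2 k, v⟩

end Pool.Agent.MP_1a6d78_lc.PG
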