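import Pool.Agent.MP_1a6d78_lc.PG.CSel

/-! PROJECT PG: the lists in the cut round. -/

namespace Pool.Agent.MP_1a6d78_lc.PG

open Classical ED PR PL GL Cm

/-- What the list part uses. -/
structure Rn.C2 (K : Rn) (M M' : Cm) : Prop where
  c1 : K.C1 M M'
  geo : Geo M' K.cN
  om : S_Om
  prb : ∀ p, ¬M.Zr K.ccut (p % 4) (p / 4) → (M'.Prb p ↔ M.Prb p)
  plk : ∀ p, M.Prb (M.lk p) ↔ M.Prb p
  plk' : ∀ p, M'.Prb (M'.lk p) ↔ M'.Prb p
  pp : ∀ p, K.P.prb p ↔ M.Prb p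
  pp' : ∀ p, K.cN.prb p ↔ M'.Prb p

namespace Rn.C2

variable {K : Rn} {M M' : Cm} (H : K.C2 M M')
include H

theorem omv {v : ℕ} (r : K.ccut v) :
    (∀ c y, M.Pa 3 c y → M.Rc v 3 y → M.Co 1 c (M.FE 0 v 3) ∧ ∀ u, M.Pa 1 c u → ¬M.Rc v 0 u) ∧
    (∀ y, M.Rc v 0 y → M.Co 1 y (M.FE 0 v 3)) ∧ (∀ y, M.Rc v 3 y → ¬M.Prb (4 * y + 3)) ∧
    ∀ p y, M.Prb p → p % 2 = 0 → M.Pa 3 (p / 4) y → M.Rc v 3 y →
      p % 4 = 0 ∧ M.Rc v 3 (p / 4) ∧ M.Rc v 0 (M.lk p / 4) :=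
  H.om M H.c1.hy.ok v ((H.c1.sel.cut v).1 r).2.1.ring ((H.c1.sel.cut v).1 r).2.1.all
    ((H.c1.sel.cut v).1 r).2.1.nx

theorem al' : M'.al = M.al := H.c1.cut.al' H.c1.hy.ok

/-- A new probe is the exit port of a ring cell. -/
theorem newp {p : ℕ} (k : M'.Prb p) (l : ¬M.Prb p) : p % 4 = 0 ∧ ∃ a, M.Rk K.ccut a (p / 4) := by
  obtain ⟨e, q, v, r, c⟩ : M.Zr K.ccut (p % 4) (p / 4) := by_contra fun u => l ((H.prb p u).1 k)
  obtain ⟨a, x⟩ := q.kd H.c1.hy.ok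
  exact ⟨e, a, v, r, x, c⟩

/-- A probe at the exit port of a ring cell. -/
theorem exitp {a c : ℕ} (k : M.Rk K.ccut a c) (l : M'.Prb (pt c 0)) :
    a = 0 ∧ M.Prb (pt (M.FE 0 c 0) 1) ∧ M.Co 0 (M.FE 0 c 0) c ∧
      M'.lk (pt c 0) = pt (M.FE 0 c 0) 1 ∧
      ∃ r, M.lk (pt (M.FE 0 c 0) 1) = pt r 0 ∧ M.Prb (pt r 0) ∧ M.Pa 3 r c := by
  have h := H.c1.hy.ok
  have S := H.c1.cut
  obtain ⟨-, -, f3, f4⟩ := S.fwd h k
  have p' : M.Prb (pt (M.FE 0 c a) (ep 0 a)) := by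
    refine (H.prb _ fun u => ?_).1 (S.exit k ▸ (H.plk' _).2 l)
    have := u.1
    rw [pt_mod] at this
    rcases k.kd.zero with rfl | rfl <;> exact absurd this (by decide)
  rcases k.kd.zero with rfl | rfl
  · obtain ⟨r, r1, r2, -, r4⟩ := f3.kd.pred h
    obtain ⟨t, t1, -⟩ := prev0 h k.kd r1 r2
    exact ⟨rfl, p', f4.co.symm, S.exit k, r, r4, r4 ▸ (H.plk _).2 p', t, t1⟩
  · obtain ⟨v, r, w⟩ := f3
    exact absurd p' ((H.omv r).2.2.1 _ w)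

theorem val_iff {e : ℕ} : K.P.val e ↔ M.Prb (e / 4) ∧ (e / 4 + e) % 2 = 1 := by
  rw [Pr.val, H.pp]

theorem val'_iff {e : ℕ} : K.cN.val e ↔ M'.Prb (e / 4) ∧ (e / 4 + e) % 2 = 1 := by
  rw [Pr.val, H.pp']

theorem val_al {e : ℕ} (k : K.cN.val e) : M.al (e / 16) := by
  have := (H.val'_iff.1 k).1.1
  rwa [H.al', Nat.div_div_eq_div_mul] at this

theorem hl {y : ℕ} (k : K.cN.hv y) : y < 16 * K.n := by
  have := H.c1.hy.ok.lt _ (H.c1.hy.geo.al ▸ k.1)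
  rw [H.c1.hy.n]
  omega

theorem vl {e : ℕ} (k : K.cN.val e) : e < 16 * K.n ∧ K.cN.hv (K.cN.own e) := by
  have a := H.val_al k
  have := H.c1.hy.ok.lt _ a
  have i : e % 4 < 4 := Nat.mod_lt _ (by omega)
  rw [← H.al'] at a
  refine ⟨by rw [H.c1.hy.n]; omega, ?_⟩
  rw [Pr.hv, Pr.own, pt_div, pt_mod, H.geo.al]
  exact ⟨H.geo.nm.al i a, H.geo.nm.idem (H.c1.cut.ok' H.c1.hy.ok) i a⟩

/-- The head of an entry that does not move. -/
theorem stay {e : ℕ} (a : M.al (e / 16)) (k : ¬K.cdiv (e % 4) (e / 16) < K.n) :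
    K.cren (K.cN.own e) = pt (K.P.En (e % 4) (e / 16)) e := by
  have h := H.c1.hy.ok
  have G := H.c1.hy.geo
  have i : e % 4 < 4 := Nat.mod_lt _ (by omega)
  have o : K.cN.own e = pt (K.P.En (e % 4) (e / 16)) e := by
    show pt (K.cEn _ _) e = _
    rw [cEn, if_neg k]
  have d : ¬K.cdiv (e % 4) (K.P.En (e % 4) (e / 16)) < K.n := fun u => k (by
    rw [H.c1.hy.n] at u ⊢
    obtain ⟨t, u⟩ := (H.c1.sel.div i (G.nm.al i a)).lt_iff.1 u
    obtain ⟨s, e⟩ := (G.nm.pa _ i _ a).trans (Pa.wk _ _ t)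
    exact (H.c1.sel.div i a).lt_iff.2 ⟨s, e ▸ u⟩)
  rw [o, cren, pt_mod, pt_div, if_neg d, G.nm.idem h i a]
  unfold pt
  omega

theorem ren_id {x : ℕ} (k : K.cN.hv x) (l : K.cren x ≠ 16 * K.n) : K.cren x = x := by
  have e : K.cEn (x % 4) (x / 4) = x / 4 := k.2
  unfold cren at l ⊢
  split_ifs at l ⊢ with c
  · exact absurd rfl l
  · rw [cEn, if_neg c] at e
    rw [e, pt_eta]

/-- The anchor of a new probe that does not move. -/
theorem anc {e : ℕ} (k : K.cins e) (u : ¬K.cdiv (e % 4) (e / 16) < K.n) :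
    K.P.val (pt (K.P.lam (K.clam (e / 4))) e) ∧
      K.P.own (pt (K.P.lam (K.clam (e / 4))) e) = K.cren (K.cN.own e) ∧
      K.clam (K.P.lam (K.P.lam (K.clam (e / 4)))) = e / 4 := by
  have h := H.c1.hy.ok
  have G := H.c1.hy.geo
  have a := H.val_al k.1
  obtain ⟨v1, v2⟩ := H.val'_iff.1 k.1
  obtain ⟨n1, b, n2⟩ := H.newp v1 fun c => k.2.resolve_left u (H.val_iff.2 ⟨c, v2⟩)
  have ep' : e / 4 = pt (e / 4 / 4) 0 := by unfold pt; omega
  obtain ⟨rfl, x1, -, x3, r, r1, r2, r3⟩ := H.exitp n2 (ep' ▸ v1)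
  rw [Nat.div_div_eq_div_mul] at n2 r3
  have i3 : e % 4 = 3 := by
    by_contra c
    exact u (H.c1.hy.n ▸ (H.c1.sel.div (Nat.mod_lt _ (by omega)) a).lt_iff.2
      ⟨0, 0, n2, Or.inr (show e % 4 = 1 by omega)⟩)
  have l1 : K.clam (e / 4) = pt (M.FE 0 (e / 4 / 4) 0) 1 := by
    rw [H.c1.lam, if_pos (by rw [Nat.div_div_eq_div_mul]; exact a), ← x3, ← ep']
  have l2 : K.P.lam (K.clam (e / 4)) = pt r 0 := by rw [l1, G.lam_al x1.1, r1]
  have ar : M.al r := by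
    have := r2.1
    rwa [pt_div] at this
  refine ⟨?_, ?_, ?_⟩
  · rw [l2, H.val_iff, pt_div]
    exact ⟨r2, by unfold pt; omega⟩
  · rw [H.stay a u, l2, Pr.own, pt_mod, show pt (pt r 0) e / 16 = r by unfold pt; omega, i3,
      G.nm.pa_eq h (by omega) ar r3]
    unfold pt
    omega
  · rw [l1, G.lam_lam h x1.1, H.c1.lam, if_pos x1.1, ← x3, H.c1.cut.inv, ← ep']

/-- The port of an entry that moves is found from the ring. -/
theorem found {e : ℕ} (k : K.cN.val e) (u : K.cdiv (e % 4) (e / 16) < K.n) :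
    ∃ t < 3 * K.c + 1, K.cnx (K.P.En 0 (K.cN.own e / 4)) t = e / 4 := by
  have Y := H.c1.hy
  have h := Y.ok
  have G := Y.geo
  have a := H.val_al k
  have i : e % 4 < 4 := Nat.mod_lt _ (by omega)
  obtain ⟨v1, v2⟩ := H.val'_iff.1 k
  have F := H.c1.sel.div i a
  obtain ⟨T, t1, ⟨b, ⟨v, r, w⟩, hb⟩, -⟩ := F.of_lt (Y.n ▸ u)
  have pa : M.Pa (e % 4) (e / 4 / 4) (M.wk (e % 4) (e / 16) T) := by
    rw [Nat.div_div_eq_div_mul]; exact Pa.wk _ _ _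
  obtain ⟨-, cd, s0, s1⟩ := (H.c1.sel.cut v).1 r
  have o : K.P.En 0 (K.cN.own e / 4) = v := by
    rw [Pr.own, pt_div]
    show K.P.En 0 (K.cEn _ _) = v
    have b4 : b < 4 := by have := w.1.zero; omega
    rw [cEn, if_pos u, t1, H.c1.sel.ck w.1, Y.cut_en r w.2, G.FE 0 (by omega) b b4]
    exact Y.cut_en r (fe_rc h cd.ring.1 (fe_lt h cd.ring.1 w)).2
  have ex0 : ∀ p, M.Prb p → p % 2 = 1 → M.Co 0 (p / 4) v → ∃ t < K.c, K.ent 0 v t = p :=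
    fun p p1 p2 p3 => by
      have := Y.ex 0 (by omega) p p1 p2 (Y.cut_en r p3 ▸ s0)
      rwa [Y.cut_en r p3] at this
  have ep' : e / 4 % 4 = 0 → e / 4 = pt (e / 4 / 4) 0 := by unfold pt; omega
  rw [o]
  rcases hb with hb | hb
  · rw [hb] at pa w
    have p1 : M.Prb (e / 4) := by_contra fun c => by have := (H.newp v1 c).1; omega
    obtain ⟨t, t1, t2⟩ := ex0 _ p1 (by omega) (pa.co.trans w.2)
    exact ⟨t, by omega, by rw [cnx, if_pos t1, t2]⟩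
  rcases w.1.zero with rfl | rfl
  · replace hb : e % 4 = 1 := hb
    by_cases p1 : M.Prb (e / 4)
    · rw [hb] at pa w
      obtain ⟨t, t1, t2⟩ := Y.ent_eg (Y.n ▸ r.2.2.1) s1
        ⟨p1, by omega, pa.co.trans ((H.omv r).2.1 _ w)⟩
      exact ⟨K.c + t, by omega, by
        rw [cnx, if_neg (by omega), if_pos (by omega), Nat.add_sub_cancel_left, t2]⟩
    · obtain ⟨n1, b, n2⟩ := H.newp v1 p1
      obtain ⟨rfl, x1, x2, x3, -⟩ := H.exitp n2 (ep' n1 ▸ v1)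
      have d : M.wk (e % 4) (e / 16) T = e / 4 / 4 := by
        rw [Nat.div_div_eq_div_mul] at n2 ⊢
        exact t1.symm.trans (F.eq (t := 0) ⟨0, n2, Or.inr hb⟩ fun _ c => by omega)
      obtain ⟨t, t1, t2⟩ := ex0 _ x1 (by unfold pt; omega)
        (by rw [pt_div]; exact x2.trans (d ▸ w.2))
      exact ⟨2 * K.c + t, by omega, by
        rw [cnx, if_neg (by omega), if_neg (by omega), Nat.add_sub_cancel_left, t2, H.c1.lam,
          if_pos x1.1, ← x3, H.c1.cut.inv, ← ep' n1]⟩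
  · exfalso
    replace hb : e % 4 = 3 := hb
    rw [hb] at pa w
    by_cases p1 : M.Prb (e / 4)
    · obtain ⟨n1, n2, -⟩ := (H.omv r).2.2.2 _ _ p1 (by omega) pa w
      exact absurd (H.exitp ⟨v, r, n2⟩ (ep' n1 ▸ v1)).1 (by omega)
    · obtain ⟨n1, b, n2⟩ := H.newp v1 p1
      obtain ⟨rfl, -, x2, -, s, r1, r2, r3⟩ := H.exitp n2 (ep' n1 ▸ v1)
      obtain ⟨-, -, n3⟩ := (H.omv r).2.2.2 _ _ r2 (by unfold pt; omega)
        (by rw [pt_div]; exact r3.trans pa) w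
      rw [← r1, h.inv, pt_div] at n3
      exact ((H.omv r).1 _ _ pa w).2 _ (Pa.refl _ _) ⟨n2.kd, x2.symm.trans n3.2⟩

theorem hy : K.crd.Hy := by
  have Y := H.c1.hy
  refine ⟨fun e => H.vl, fun y => H.hl, fun e k => k.1, fun e k l => ?_, fun x y hx hy d e => ?_,
    fun e k => ?_, fun e k => ?_⟩
  · have u : ¬K.cdiv (e % 4) (e / 16) < K.n := fun c => l ⟨k, Or.inl c⟩
    exact ⟨by_contra fun c => l ⟨k, Or.inr c⟩, H.stay (H.val_al k) u⟩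
  · have n : K.cren x ≠ 16 * K.n := fun c => by
      have d1 : K.P.al (K.cren x / 4) := d.1
      rw [c, Y.geo.al, Y.n] at d1
      have := Y.ok.lt _ d1
      omega
    have e' : K.cren x = K.cren y := e
    rw [← H.ren_id hx n, e', H.ren_id hy (e' ▸ n)]
  · show K.can e = _ ∨ ∃ e', _ ∧ _ ∧ K.can e = _
    unfold can
    split_ifs with u
    · exact Or.inl rfl
    · exact Or.inr ⟨_, (H.anc k u).1, (H.anc k u).2.1, rfl⟩
  · show ∃ t < 3 * K.c + 1, K.cNx (K.can e) t = e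
    unfold can
    split_ifs with u
    · obtain ⟨t, t1, t2⟩ := H.found k.1 u
      have l := H.hl (H.vl k.1).2
      refine ⟨t, t1, ?_⟩
      rw [cNx, zl_mk _ l, ze_mk _ l, if_pos rfl, t2, Pr.own]
      unfold pt
      omega
    · obtain ⟨a1, -, a3⟩ := H.anc k u
      have l : pt (K.P.lam (K.clam (e / 4))) e < 16 * K.n := by
        have := Y.prb_lt (H.val_iff.1 a1).1
        rw [Y.n]
        omega
      refine ⟨0, by omega, ?_⟩
      have c0 : K.P.ld.cur (pt (K.P.lam (K.clam (e / 4))) e) ≠ 0 := Y.cur _ a1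
      rw [cNx, Ld.slot, zl_mk _ l, ze_mk _ l, if_neg c0, pt_div, a3]
      unfold pt
      omega

end Rn.C2

end Pool.Agent.MP_1a6d78_lc.PG
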