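import Pool.Agent.MP_1a6d78_lc.PG.SpecC

/-! PROJECT PG: the test of the cut and the cells of diversion. -/

namespace Pool.Agent.MP_1a6d78_lc.PG

open Classical ED PR PL Cm

theorem Cm.Fst.weak {M : Cm} {i p v : ℕ} {H J : ℕ → Prop} (a : M.Fst i p H v)
    (e : ∀ t, H t → J t) (f : ∀ t, J t → (∀ t' < t, ¬J t') → H t) : M.Fst i p J v := by
  rcases a with ⟨a1, a2⟩ | ⟨a1, t, t1, t2, t3⟩
  · refine Or.inl ⟨a1, fun t c => ?_⟩
    have x : ∃ t, J t := ⟨t, c⟩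
    exact a2 _ (f _ (Nat.find_spec x) fun _ => Nat.find_min x)
  · refine Or.inr ⟨a1, t, t1, e t t2, fun s hs c => ?_⟩
    have x : ∃ t, J t := ⟨s, c⟩
    exact t3 _ ((Nat.find_min' x c).trans_lt hs) (f _ (Nat.find_spec x) fun _ => Nat.find_min x)

namespace Rn.Hy

variable {K : Rn} {M : Cm} (H : K.Hy M)
include H

theorem con_iff {a y c : ℕ} (ha : a < 4) : K.con (K.P.En 0 c) a y ↔ M.al c ∧ M.Rc c a y := by
  rw [con, H.n]
  exact H.geo.On_ring H.ok (by omega) ha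

theorem con_nm {a y v : ℕ} (ha : a < 4) (e : K.P.En 0 v = v) :
    K.con v a y ↔ M.al v ∧ M.Rc v a y := by
  have := H.con_iff (y := y) (c := v) ha
  rwa [e] at this

theorem ring_ps {a y c : ℕ} (ha : a < 4) :
    M.ok (K.P.ring 0 (K.P.En 0 c)) ∧ M.Ps (K.P.ring 0 (K.P.En 0 c)) y a ↔ M.al c ∧ M.Rc c a y :=
  (H.geo.On_iff H.ok ha (H.geo.ring_wo H.ok c (by omega))).symm.trans
    (H.geo.On_ring H.ok (by omega) ha)

theorem cx_iff {v c : ℕ} (e : K.P.En 0 v = v) (hv : M.al v) (hc : M.al c) :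
    K.cx v c ↔ ∃ y, M.Pa 1 c y ∧ M.Rc v 0 y := by
  have h := H.ok
  have f := (H.geo.early_fst h (i := 1) (p := c) (s := 0) (a := 1) (b := 0) (m := 1)
    (B := fun _ => K.P.ring 0 (K.P.En 0 v)) (by omega) (by omega) (by omega) (by omega) hc
    fun _ _ => H.geo.ring_wo h v (by omega)).lt_iff
  rw [cx, H.con_nm (by omega) e, H.n]
  simp only [H.ring_ps (show 0 < 4 by omega)] at f
  rw [e] at f
  rw [f]
  constructor
  · rintro (k | ⟨t, -, -, -, -, k⟩)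
    exacts [⟨c, Pa.refl _ _, k.2⟩, ⟨_, Pa.wk _ _ _, k⟩]
  · rintro ⟨y, ⟨t, rfl⟩, k⟩
    have x : ∃ t, M.Rc v 0 (M.wk 1 c t) := ⟨t, k⟩
    have x1 := Nat.find_spec x
    have x2 := fun s => Nat.find_min x (m := s)
    generalize Nat.find x = s at x1 x2
    cases s with
    | zero => exact Or.inl ⟨hv, x1⟩
    | succ s =>
      refine Or.inr ⟨s + 1, ?_, 0, by omega, hv, x1⟩
      rw [wk_succ] at x1
      rcases arr0 (b := 1) h (h.al_wk 1 hc s) x1.1 (Or.inr (Or.inl ⟨rfl, rfl, rfl⟩)) with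
        u | ⟨a', u1, u2, u3⟩
      · exact u
      · have : a' = 0 := by
          rcases u1.zero with r | r
          · exact r
          · subst r; revert u3; decide
        subst this
        exact absurd ⟨u1, u2.trans x1.2⟩ (x2 s s.lt_succ_self)

theorem cg_nm {v : ℕ} (r : K.P.FE 0 v 3 < M.n) : M.al (M.FE 0 v 3) ∧
    K.cg v = K.P.En 1 (M.FE 0 v 3) ∧ M.al (K.cg v) ∧ K.P.En 1 (K.cg v) = K.cg v := by
  rw [H.geo.FE 0 (by omega) 3 (by omega)] at r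
  have a : M.al (M.FE 0 v 3) := (FE_le H.ok 0 v 3).resolve_left r.ne
  have e : K.cg v = K.P.En 1 (M.FE 0 v 3) := by rw [cg, H.geo.FE 0 (by omega) 3 (by omega)]
  exact ⟨a, e, e ▸ H.geo.nm.al (by omega) a, e ▸ H.geo.nm.idem H.ok (by omega) a⟩

/-- The listed entries of the 1-cycle of the first inner cell. -/
theorem eg_ent {v t : ℕ} (r : K.P.FE 0 v 3 < M.n) (k : K.ent 1 (K.cg v) t < 4 * M.n) :
    M.Eg v (K.ent 1 (K.cg v) t) := by
  obtain ⟨g1, g2, g3, g4⟩ := H.cg_nm r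
  obtain ⟨u1, u2, u3⟩ := H.val 1 (by omega) _ t g3 g4 k
  exact ⟨u1, by omega, (H.geo.nm.co H.ok (by omega) u1.1 g1).1 (u3.trans g2)⟩

theorem ent_eg {v p : ℕ} (r : K.P.FE 0 v 3 < M.n) (s : K.short 1 (K.cg v)) (k : M.Eg v p) :
    ∃ t < K.c, K.ent 1 (K.cg v) t = p := by
  obtain ⟨g1, g2, -, -⟩ := H.cg_nm r
  have e : K.P.En 1 (p / 4) = K.cg v := g2 ▸ (H.geo.nm.co H.ok (by omega) k.1.1 g1).2 k.2.2
  have := H.ex 1 (by omega) p k.1 (by have := k.2.1; omega) (e ▸ s)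
  rwa [e] at this

theorem prb_lt {p : ℕ} (k : M.Prb p) : p < 4 * M.n := by
  have := H.ok.lt _ k.1
  omega

theorem en_co {v c : ℕ} (e : K.P.En 0 v = v) (hv : M.al v) : K.P.En 0 c = v ↔ M.Co 0 c v := by
  by_cases hc : M.al c
  · rw [← H.geo.nm.co H.ok (by omega) hc hv, e]
  · refine iff_of_false (fun u => hc ((H.geo.En_al H.ok (by omega)).1 (u ▸ hv))) ?_
    rintro ⟨u, ⟨t, rfl⟩, u2⟩
    have : ∀ t, M.wk 0 c t = c := fun t => by
      induction t with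
      | zero => rfl
      | succ t ih => rw [wk_succ, ih, H.ok.st_dead 0 hc]
    exact hc (this t ▸ u2.al H.ok hv)

theorem ccut_iff (v : ℕ) :
    K.ccut v ↔ K.P.En 0 v = v ∧ M.Cond K.z v ∧ K.short 0 v ∧ K.short 1 (K.cg v) := by
  have h := H.ok
  have G := H.geo
  have f0 := G.FE 0 (by omega) 0 (by omega) v
  have f3 := G.FE 0 (by omega) 3 (by omega) v
  have kd : ∀ {p : ℕ}, K.P.En 0 v = v → M.al v → (K.con v 0 p ∨ K.con v 3 p ↔
      M.Per 0 p ∧ M.Co 0 p v) := fun {p} e hv => by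
    rw [H.con_nm (by omega) e, H.con_nm (by omega) e]
    refine ⟨fun u => u.elim (fun u => ⟨u.2.1.per h, u.2.2⟩) fun u => ⟨u.2.1.per h, u.2.2⟩,
      fun u => ?_⟩
    obtain ⟨a, k⟩ := u.1.kd h
    rcases k.zero with rfl | rfl
    exacts [Or.inl ⟨hv, k, u.2⟩, Or.inr ⟨hv, k, u.2⟩]
  rw [ccut, H.n]
  constructor
  · rintro ⟨e, c0, c3, s0, s1, cd, al, nx⟩
    have hv : M.al v := (FE_spec h (f0 ▸ c0)).1
    refine ⟨e, ⟨⟨e ▸ G.nm.per 0 (by omega) v hv, f0 ▸ c0, f3 ▸ c3⟩, ?_, fun p k => ?_,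
      fun u u1 u2 => nx (f3 ▸ (H.cx_iff e hv (H.cg_nm c3).1).2 ⟨u, u1, u2⟩)⟩, s0, s1⟩
    · rcases cd with u | ⟨t, -, u⟩
      · exact Or.inr ((H.en_co e hv).1 u)
      · have a := (G.En_al h (by omega)).1 (u ▸ hv)
        have := h.lt _ a
        exact Or.inl ⟨_, H.eg_ent c3 (by omega), (H.en_co e hv).1 u⟩
    · obtain ⟨t, t1, rfl⟩ := H.ent_eg c3 s1 k
      exact (al t t1 (H.prb_lt k.1)).imp (fun u => ⟨u.1, (kd e hv).1 u.2⟩)
        (H.cx_iff e hv k.1.1).1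
  · rintro ⟨e, ⟨⟨r1, r2, r3⟩, cd, al, nx⟩, s0, s1⟩
    refine ⟨e, f0 ▸ r2, f3 ▸ r3, s0, s1, ?_, fun t _ k => ?_, fun k => ?_⟩
    rotate_right
    · obtain ⟨u, u1, u2⟩ := (H.cx_iff e r1.1 (H.cg_nm (f3 ▸ r3)).1).1 (f3 ▸ k)
      exact nx u u1 u2
    · rcases cd with ⟨p, p1, p2⟩ | u
      · obtain ⟨t, t1, rfl⟩ := H.ent_eg (f3 ▸ r3) s1 p1
        exact Or.inr ⟨t, t1, (H.en_co e r1.1).2 p2⟩
      · exact Or.inl ((H.en_co e r1.1).2 u)
    · have g := H.eg_ent (f3 ▸ r3) k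
      exact (al _ g).imp (fun u => ⟨u.1, (kd e r1.1).2 u.2⟩) (H.cx_iff e r1.1 g.1.1).2

theorem cut_en {v y : ℕ} (r : K.ccut v) (k : M.Co 0 y v) : K.P.En 0 y = v :=
  (H.en_co r.1 ((H.ccut_iff v).1 r).2.1.ring.1.1).2 k

theorem cis_iff {a y : ℕ} (ha : a < 4) : K.cis a y ↔ M.Rk K.ccut a y := by
  rw [cis, H.con_iff ha]
  constructor
  · rintro ⟨r, k1, k2⟩
    exact ⟨_, r, k2.1, (H.geo.nm.pa 0 (by omega) y k1).co⟩
  · rintro ⟨v, r, k⟩
    exact ⟨H.cut_en r k.2 ▸ r, (k.1.per H.ok).1, k.1, Co.refl _ _⟩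

theorem ck_eq {a y : ℕ} (k : M.Kd 0 a y) : K.ck y = a := by
  rw [ck]
  simp only [H.con_iff (show 0 < 4 by omega)]
  split_ifs with c
  · exact c.2.1.uniq H.ok k
  · rcases k.zero with rfl | rfl
    exacts [absurd ⟨(k.per H.ok).1, k, Co.refl _ _⟩ c, rfl]

theorem cb_wo (c t : ℕ) : M.wo (K.cb c t) := by
  unfold cb
  split_ifs
  exacts [H.geo.ring_wo H.ok _ (by omega), H.n ▸ junk_wo H.ok]

theorem cb_ps {c t y a : ℕ} (ha : a < 4) :
    M.ok (K.cb c t) ∧ M.Ps (K.cb c t) y a ↔ K.ccut (K.cc c t) ∧ M.Rc (K.cc c t) a y := by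
  unfold cb
  split_ifs with r
  · have := H.ring_ps (y := y) (c := K.cc c t) ha
    rw [r.1] at this
    rw [this]
    exact ⟨fun u => ⟨r, u.2⟩, fun u => ⟨((H.ccut_iff _).1 r).2.1.ring.1.1, u.2⟩⟩
  · exact iff_of_false (fun u => junk_not H.ok (H.n ▸ u.1)) fun u => r u.1

theorem ch_fst {i a b c : ℕ} (hi : i < 4) (ha : a < 4) (hb : b < 4) (hab : a ≠ b) (hc : M.al c)
    (cp : ∀ v y, K.ccut v → M.Pa i c y → M.Rc v a y → ∃ l < K.c + 2, K.cc c l = v) :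
    M.Fst i c (fun t => (t = 0 ∨ M.sw i c a t = b) ∧ M.Rk K.ccut a (M.wk i c t)) (K.ch i a b c) := by
  unfold ch
  split_ifs with u
  · exact Or.inr ⟨H.ok.lt _ hc, 0, rfl, ⟨Or.inl rfl, (H.cis_iff ha).1 u⟩, fun _ k => by omega⟩
  · rw [H.n]
    refine (H.geo.early_fst H.ok hi hb ha hab.symm hc fun l _ => H.cb_wo c l).congr fun t => ?_
    simp only [H.cb_ps ha]
    constructor
    · rintro ⟨k1, l, -, k2⟩
      exact ⟨Or.inr k1, _, k2⟩
    · rintro ⟨k1, v, r, k2⟩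
      obtain ⟨l, l1, rfl⟩ := cp v _ r (Pa.wk _ _ _) k2
      exact ⟨k1.resolve_left fun e => u ((H.cis_iff ha).2 (by subst e; exact ⟨_, r, k2⟩)),
        l, l1, r, k2⟩

theorem ch_dead {i a b c : ℕ} (hi : i < 4) (ha : a < 4) (hb : b < 4) (hab : a ≠ b)
    (hc : ¬M.al c) : K.ch i a b c = M.n := by
  rw [ch, if_neg fun u => hc (((H.cis_iff ha).1 u).al H.ok), H.n]
  exact H.geo.early_dead H.ok hi hb ha hab.symm hc fun l _ => H.cb_wo c l

theorem cp0 {c v y a : ℕ} (r : K.ccut v) (p : M.Pa 0 c y) (k : M.Rc v a y) :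
    ∃ l < K.c + 2, K.cc c l = v :=
  ⟨K.c + 1, by omega, by
    rw [cc, if_neg (by omega), if_neg (by omega)]; exact H.cut_en r (p.co.trans k.2)⟩

theorem cp1 {c v : ℕ} (hc : M.al c) (r : K.ccut v) (k : M.Co 1 c (M.FE 0 v 3)) :
    ∃ l < K.c + 2, K.cc c l = v := by
  obtain ⟨g1, g2, -, -⟩ := H.cg_nm (H.n ▸ r.2.2.1)
  have e : K.P.En 1 c = K.cg v := g2 ▸ (H.geo.nm.co H.ok (by omega) hc g1).2 k
  rcases r.2.2.2.2.2.1 with u | ⟨t, t1, u⟩
  · exact ⟨K.c, by omega, by rw [cc, if_neg (by omega), if_pos rfl, u]⟩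
  · exact ⟨t, by omega, by rw [cc, if_pos t1, e, u]⟩

theorem cdiv_fst (O : S_Om) {i c : ℕ} (hi : i < 4) (hc : M.al c) :
    M.Fst i c (fun t => M.Rp K.ccut i (M.wk i c t)) (K.cdiv i c) := by
  have h := H.ok
  have om := fun v (r : K.ccut v) =>
    O M h v ((H.ccut_iff v).1 r).2.1.ring ((H.ccut_iff v).1 r).2.1.all ((H.ccut_iff v).1 r).2.1.nx
  have ar : ∀ {a b s t : ℕ}, M.Rk K.ccut a (M.wk i c t) →
      (∀ t' < t, ¬M.Rp K.ccut i (M.wk i c t')) →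
      ((i = 0 ∧ b = 3 - a) ∨ (i = 1 ∧ a = 0 ∧ b = 1) ∨ (i = 3 ∧ a = 3 ∧ b = 2)) →
      t = 0 ∨ M.sw i c s t = b := fun {a b s t} k n e => by
    cases t with
    | zero => exact Or.inl rfl
    | succ t =>
      rw [wk_succ] at k
      exact Or.inr ((arr0 h (h.al_wk i hc t) k.kd e).resolve_right fun ⟨a', u1, u2, u3⟩ =>
        n t t.lt_succ_self ⟨a', k.co u1 u2, u3⟩)
  unfold cdiv
  rcases (by omega : i = 0 ∨ i = 1 ∨ i = 2 ∨ i = 3) with rfl | rfl | rfl | rfl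
  · have f0 := H.ch_fst (i := 0) (a := 0) (b := 3) hi (by omega) (by omega) (by omega) hc
      fun v y => H.cp0
    have f3 := H.ch_fst (i := 0) (a := 3) (b := 0) hi (by omega) (by omega) (by omega) hc
      fun v y => H.cp0
    rw [if_pos rfl, H.n]
    split_ifs with u
    · obtain ⟨t, t1, t2, -⟩ := f0.of_lt u
      refine Or.inr ⟨u, t, t1, ⟨0, t2.2, Or.inl rfl⟩, fun s hs ⟨a, k, _⟩ => ?_⟩
      obtain ⟨r, rfl⟩ := Nat.exists_eq_add_of_lt hs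
      have p : M.Per 0 (M.wk 0 c (s + r)) := by
        rw [wk_add]; exact ((k.kd.per h).pa h (Pa.wk _ _ _)).1
      have q := kd_step p
      rw [← wk_succ, ← sw_succ 0 c 0, t2.1.resolve_left (by omega)] at q
      have := q.uniq h t2.2.kd
      omega
    · refine f3.weak (fun t k => ⟨3, k.2, Or.inl rfl⟩) fun t ⟨a, k, _⟩ n => ?_
      rcases k.kd.zero with rfl | rfl
      · exact absurd (f0.lt_iff.2 ⟨t, ar k n (Or.inl ⟨rfl, rfl⟩), k⟩) u
      · exact ⟨ar k n (Or.inl ⟨rfl, rfl⟩), k⟩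
  · rw [if_neg (by omega), if_pos rfl]
    refine (H.ch_fst (i := 1) (a := 0) (b := 1) hi (by omega) (by omega) (by omega) hc
      fun v y r p k => H.cp1 hc r (p.co.trans ((om v r).2.1 y k))).weak
      (fun t k => ⟨0, k.2, Or.inr rfl⟩) fun t ⟨a, k, e⟩ n => ?_
    rcases k.kd.zero with rfl | rfl
    · exact ⟨ar k n (Or.inr (Or.inl ⟨rfl, rfl, rfl⟩)), k⟩
    · exact absurd e (by decide)
  · rw [if_neg (by omega), if_neg (by omega), if_neg (by omega)]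
    refine Or.inl ⟨H.n, fun t ⟨a, k, e⟩ => ?_⟩
    rcases k.kd.zero with rfl | rfl <;> exact absurd e (by decide)
  · rw [if_neg (by omega), if_neg (by omega), if_pos rfl]
    refine (H.ch_fst (i := 3) (a := 3) (b := 2) hi (by omega) (by omega) (by omega) hc
      fun v y r p k => H.cp1 hc r ((om v r).1 c y p k).1).weak
      (fun t k => ⟨3, k.2, Or.inr rfl⟩) fun t ⟨a, k, e⟩ n => ?_
    rcases k.kd.zero with rfl | rfl
    · exact absurd e (by decide)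
    · exact ⟨ar k n (Or.inr (Or.inr ⟨rfl, rfl, rfl⟩)), k⟩

theorem cdiv_dead (i : ℕ) {c : ℕ} (hc : ¬M.al c) : K.cdiv i c = M.n := by
  unfold cdiv
  rw [H.ch_dead (i := 0) (a := 0) (b := 3) (by omega) (by omega) (by omega) (by omega) hc,
    H.ch_dead (i := 0) (a := 3) (b := 0) (by omega) (by omega) (by omega) (by omega) hc,
    H.ch_dead (i := 1) (a := 0) (b := 1) (by omega) (by omega) (by omega) (by omega) hc,
    H.ch_dead (i := 3) (a := 3) (b := 2) (by omega) (by omega) (by omega) (by omega) hc, H.n]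
  simp only [ite_self]

end Rn.Hy

theorem cSel : CSelS := fun O _ _ H =>
  ⟨H.con_iff, H.ccut_iff, H.cis_iff, H.ck_eq, H.cdiv_fst O, H.cdiv_dead⟩

end Pool.Agent.MP_1a6d78_lc.PG
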