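import Pool.Agent.MP_1a6d78_lc.PG.Tw

/-! PROJECT PG: counting regions, alternations and probes. -/

namespace Pool.Agent.MP_1a6d78_lc.PG.Ct

open Classical ED PR PL Relation

variable {M : Cm} {c x y p : ℕ}

/-- The next alternation of the region. -/
theorem nxt_alt (H : M.Ok) : ∃ f : ℕ → ℕ, ∀ y, M.al (y / 4) → M.Alt y →
    (M.Rg y (f y) ∧ M.Alt (f y) ∧ f y % 4 = (y + 2) % 4) ∧
      ∀ y', M.Alt y' → f y = f y' → y = y' := by
  have ex : ∀ y, ∃ t, M.Alt y → 0 < t ∧ M.Alt (M.nr^[t] y) ∧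
      ∀ s < t, 0 < s → ¬M.Alt (M.nr^[s] y) := fun y => by
    by_cases h : M.Alt y
    · have : ∃ t, 0 < t ∧ M.Alt (M.nr^[t] y) := by
        obtain ⟨t, k, e⟩ := nr_per H y
        exact ⟨t, k, by rwa [e]⟩
      exact ⟨Nat.find this, fun _ => ⟨(Nat.find_spec this).1, (Nat.find_spec this).2,
        fun s k l v => Nat.find_min this k ⟨l, v⟩⟩⟩
    · exact ⟨0, fun v => absurd v h⟩
  choose T hT using ex
  have inj : ∀ y y', M.Alt y → M.Alt y' → T y ≤ T y' → M.nr^[T y] y = M.nr^[T y'] y' → y = y' :=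
    fun y y' h h' l e => by
      obtain ⟨d, hd⟩ := Nat.exists_eq_add_of_le l
      rw [hd, Function.iterate_add_apply] at e
      have := (nr_inj H).iterate _ e
      rcases Nat.eq_zero_or_pos d with rfl | k
      · exact this
      · have i := (hT y h).1
        exact absurd (this ▸ h) ((hT y' h').2.2 d (by omega) k)
  refine ⟨fun y => M.nr^[T y] y, fun y a h => ⟨⟨⟨_, rfl⟩, (hT y h).2.1, ?_⟩, fun y' h' e =>
    (le_total _ _).elim (fun l => inj y y' h h' l e) fun l => (inj y' y h' h l e.symm).symm⟩⟩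
  have key : ∀ s, s + 1 ≤ T y → M.nr^[s + 1] y % 4 = (y + 2) % 4 := fun s => by
    induction s with
    | zero => exact fun _ => alt_mod H a h
    | succ s ih =>
      intro k
      rw [Function.iterate_succ_apply', not_not.1 ((hT y h).2.2 (s + 1) k s.succ_pos), ih (by omega)]
  have := (hT y h).1
  have := key (T y - 1) (by omega)
  rwa [show T y - 1 + 1 = T y by omega] at this

theorem alt_one (H : M.Ok) (k : M.al (x / 4)) (h : ¬M.Crit x) (a : ℕ) :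
    ∃ y, M.Rg x y ∧ M.Alt y ∧ y % 4 / 2 = a % 2 := by
  obtain ⟨f, hf⟩ := nxt_alt H
  obtain ⟨y, k1, k2⟩ : ∃ y, M.Rg x y ∧ M.Alt y := by
    by_contra v
    exact h fun y u w => v ⟨y, u, w⟩
  obtain ⟨⟨i1, i2, i3⟩, -⟩ := hf y ((rg_al H k1).2 k) k2
  by_cases e : y % 4 / 2 = a % 2
  · exact ⟨y, k1, k2, e⟩
  · exact ⟨f y, rg_trans k1 i1, i2, by omega⟩

theorem alt_two (H : M.Ok) (h : M.Sad x) (a : ℕ) : ∃ y y', y < y' ∧ (M.Rg x y ∧ M.Rg x y') ∧
    (M.Alt y ∧ y % 4 / 2 = a % 2) ∧ M.Alt y' ∧ y' % 4 / 2 = a % 2 := by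
  obtain ⟨f, hf⟩ := nxt_alt H
  have al := sad_al H h
  suffices ∃ y y', y ≠ y' ∧ (M.Rg x y ∧ M.Rg x y') ∧ (M.Alt y ∧ y % 4 / 2 = a % 2) ∧
      M.Alt y' ∧ y' % 4 / 2 = a % 2 by
    obtain ⟨y, y', e, k1, k2, k3⟩ := this
    rcases Nat.lt_or_gt_of_ne e with l | l
    exacts [⟨y, y', l, k1, k2, k3⟩, ⟨y', y, l, k1.symm, k3, k2⟩]
  obtain ⟨y, y', k1, k2, k3, k4, k5, k6⟩ := h
  obtain ⟨⟨i1, i2, i3⟩, i4⟩ := hf y ((rg_al H k1).2 al) k4
  obtain ⟨⟨j1, j2, j3⟩, -⟩ := hf y' ((rg_al H k2).2 al) k5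
  by_cases e : y % 4 / 2 = a % 2
  · exact ⟨y, y', k3, ⟨k1, k2⟩, ⟨k4, e⟩, k5, by omega⟩
  · exact ⟨f y, f y', fun v => k3 (i4 y' k5 v), ⟨rg_trans k1 i1, rg_trans k2 j1⟩, ⟨i2, by omega⟩,
      j2, by omega⟩

theorem rg_lt (H : M.Ok) (h : M.Rg x y) (k : M.al (x / 4)) : y < 4 * M.n := lt4 H ((rg_al H h).2 k)

/-- Every link alternates for exactly one region. -/
theorem cnt_alt (H : M.Ok) :
    cnt (4 * M.n) (fun x => M.al (x / 4) ∧ M.Alt x) = 2 * cnt M.n M.al := by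
  have i0 := cnt_split (4 * M.n) (fun x => M.al (x / 4)) M.Alt
  rw [(cnt4 M.n M.al).2] at i0
  have e : ∀ x, r3 x / 4 = x / 4 ∧ r4 (r3 x) = x ∧ r3 x % 4 = (x + 3) % 4 ∧
      r4 x % 4 = (x + 1) % 4 := fun x => by
    unfold r3 r4
    exact ⟨by omega, by omega, by omega, by omega⟩
  have key : ∀ x, M.al (x / 4) → M.al (r3 (M.nr x) / 4) ∧ (M.Alt (r3 (M.nr x)) ↔ ¬M.Alt x) :=
    fun x k => by
      have j1 := nr_par H k
      refine ⟨by rw [(e _).1]; exact (nr_al H).2 k, ?_⟩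
      have : M.nr (r3 (M.nr x)) = r4 x := by rw [Cm.nr, (e _).2.1, Cm.nr, H.inv]
      rw [Cm.Alt, Cm.Alt, this, (e x).2.2.2, (e _).2.2.1]
      clear this i0
      generalize M.nr x = w at *
      omega
  have inj : ∀ x y, r3 (M.nr x) = r3 (M.nr y) → x = y := fun x y v =>
    nr_inj H (by rw [← (e (M.nr x)).2.1, v, (e _).2.1])
  have i1 : cnt (4 * M.n) (fun x => M.Alt x ∧ M.al (x / 4)) ≤
      cnt (4 * M.n) fun x => ¬M.Alt x ∧ M.al (x / 4) :=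
    cnt_inj (fun x => r3 (M.nr x)) (fun x _ k => ⟨lt4 H (key x k.2).1,
      fun v => (key x k.2).2.1 v k.1, (key x k.2).1⟩) fun x _ y _ _ _ => inj x y
  have i2 : cnt (4 * M.n) (fun x => ¬M.Alt x ∧ M.al (x / 4)) ≤
      cnt (4 * M.n) fun x => M.Alt x ∧ M.al (x / 4) :=
    cnt_inj (fun x => r3 (M.nr x)) (fun x _ k => ⟨lt4 H (key x k.2).1,
      (key x k.2).2.2 k.1, (key x k.2).1⟩) fun x _ y _ _ _ => inj x y
  rw [cnt_congr (Q := fun x => M.Alt x ∧ M.al (x / 4)) fun _ _ => and_comm]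
  omega

theorem lo_alt (H : M.Ok) (k : M.al (p / 4)) : M.Alt (r3 (M.lo p)) := by
  have := H.par p k
  unfold Cm.Alt Cm.nr Cm.lo
  rw [show ∀ q, r4 (r3 q) = q from fun q => by unfold r4 r3; omega]
  split_ifs
  · unfold r3
    omega
  · rw [H.inv]
    unfold r3
    omega

theorem cnt_prb (H : M.Ok) :
    cnt (4 * M.n) M.Prb ≤ 2 * cnt (4 * M.n) fun x => M.Sad x ∧ M.Alt x := by
  have i0 := cnt_split (4 * M.n) M.Prb fun p => M.lk p % 4 = (p + 1) % 4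
  have f : ∀ p, M.Prb p → r3 (M.lo p) < 4 * M.n ∧ M.Sad (r3 (M.lo p)) ∧ M.Alt (r3 (M.lo p)) :=
    fun p k => ⟨lt4 H (sad_al H k.2), k.2, lo_alt H k.1⟩
  have r : ∀ x y, r3 x = r3 y → x = y := fun x y => by unfold r3; omega
  have i1 := cnt_inj (n := 4 * M.n) (P := fun p => M.lk p % 4 = (p + 1) % 4 ∧ M.Prb p)
    (Q := fun x => M.Sad x ∧ M.Alt x) (fun p => r3 (M.lo p)) (fun p _ k => f p k.2) fun x _ y _ k k' e => by
      have := r _ _ e
      rwa [Cm.lo, Cm.lo, if_pos k.1, if_pos k'.1] at this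
  have i2 := cnt_inj (n := 4 * M.n) (P := fun p => ¬M.lk p % 4 = (p + 1) % 4 ∧ M.Prb p)
    (Q := fun x => M.Sad x ∧ M.Alt x) (fun p => r3 (M.lo p)) (fun p _ k => f p k.2) fun x _ y _ k k' e => by
      have := r _ _ e
      rw [Cm.lo, Cm.lo, if_neg k.1, if_neg k'.1] at this
      rw [← H.inv x, this, H.inv]
  omega

theorem ncl_cut (n : ℕ) (A B : ℕ → Prop) (r : ℕ → ℕ → Prop) :
    ncl n A r = ncl n (fun a => A a ∧ B a) r + ncl n (fun a => A a ∧ ¬B a) r := by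
  unfold ncl
  rw [cnt_split n _ B]
  exact congrArg₂ _ (cnt_congr fun _ _ => ⟨fun k => ⟨⟨k.2.1, k.1⟩, k.2.2⟩,
    fun k => ⟨k.1.2, k.1.1, k.2⟩⟩) (cnt_congr fun _ _ => ⟨fun k => ⟨⟨k.2.1, k.1⟩, k.2.2⟩,
    fun k => ⟨k.1.2, k.1.1, k.2⟩⟩)

theorem cnt_bit (n : ℕ) (P : ℕ → Prop) : cnt n P =
    cnt n (fun y => P y ∧ y % 4 / 2 = 0 % 2) + cnt n fun y => P y ∧ y % 4 / 2 = 1 % 2 := by
  rw [cnt_split n P fun y => y % 4 / 2 = 0 % 2]
  exact congrArg₂ _ (cnt_congr fun _ _ => and_comm)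
    (cnt_congr fun _ _ => ⟨fun k => ⟨k.2, by omega⟩, fun k => ⟨by omega, k.1⟩⟩)

/-- A saddle region has four alternations. -/
theorem sad_four (H : M.Ok) :
    4 * ncl (4 * M.n) M.Sad M.Rg ≤ cnt (4 * M.n) fun x => M.Sad x ∧ M.Alt x := by
  have key : ∀ a, 2 * ncl (4 * M.n) M.Sad M.Rg ≤
      cnt (4 * M.n) fun y => (M.Sad y ∧ M.Alt y) ∧ y % 4 / 2 = a % 2 := fun a => by
    rw [cnt_split _ _ fun y => ∃ e < y, M.Rg y e ∧ M.Alt e ∧ e % 4 / 2 = a % 2]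
    have i1 := nclK.le (A := M.Sad) (B := fun y => (∃ e < y, M.Rg y e ∧ M.Alt e ∧
        e % 4 / 2 = a % 2) ∧ (M.Sad y ∧ M.Alt y) ∧ y % 4 / 2 = a % 2) (rg_eqv H (4 * M.n))
      fun x _ k => by
        obtain ⟨y, y', l, ⟨k1, k2⟩, k3, k4, k5⟩ := alt_two H k a
        exact ⟨y', rg_lt H k2 (sad_al H k), k2, ⟨y, l, rg_trans (rg_symm H k2) k1, k3⟩,
          ⟨(sad_rg H k2).1 k, k4⟩, k5⟩
    have i2 := nclK.le (A := M.Sad) (B := fun y => ¬(∃ e < y, M.Rg y e ∧ M.Alt e ∧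
        e % 4 / 2 = a % 2) ∧ (M.Sad y ∧ M.Alt y) ∧ y % 4 / 2 = a % 2) (rg_eqv H (4 * M.n))
      fun x _ k => by
        obtain ⟨y, -, -, ⟨k1, -⟩, k3, -⟩ := alt_two H k a
        have ex : ∃ y, M.Rg x y ∧ M.Alt y ∧ y % 4 / 2 = a % 2 := ⟨y, k1, k3⟩
        obtain ⟨j1, j2, j3⟩ := Nat.find_spec ex
        exact ⟨_, rg_lt H j1 (sad_al H k), j1, fun ⟨e, l, u, v⟩ =>
          Nat.find_min ex l ⟨rg_trans j1 u, v⟩, ⟨(sad_rg H j1).1 k, j2⟩, j3⟩
    omega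
  have i0 := key 0
  have i1 := key 1
  rw [cnt_bit]
  omega

/-- A set of non critical regions has two alternations per region. -/
theorem non_two (H : M.Ok) {A : ℕ → Prop} (hA : ∀ x y, M.Rg x y → A x → A y)
    (h : ∀ x, A x → M.al (x / 4) ∧ ¬M.Crit x) :
    2 * ncl (4 * M.n) A M.Rg ≤ cnt (4 * M.n) fun x => A x ∧ M.Alt x := by
  have key : ∀ a, ncl (4 * M.n) A M.Rg ≤
      cnt (4 * M.n) fun y => (A y ∧ M.Alt y) ∧ y % 4 / 2 = a % 2 := fun a =>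
    nclK.le (rg_eqv H _) fun x _ k => by
      obtain ⟨y, k1, k2, k3⟩ := alt_one H (h x k).1 (h x k).2 a
      exact ⟨y, rg_lt H k1 (h x k).1, k1, ⟨hA x y k1 k, k2⟩, k3⟩
  have i0 := key 0
  have i1 := key 1
  rw [cnt_bit]
  omega

theorem sad_non (h : M.Sad x) : ¬M.Crit x := fun k => by
  obtain ⟨y, -, k1, -, -, k2, -⟩ := h
  exact k y k1 k2

theorem cnt_all (H : M.Ok) :
    M.mu + ncl (4 * M.n) (fun x => M.al (x / 4) ∧ ¬M.Crit x) M.Rg = cnt M.n M.al ∧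
      cnt (4 * M.n) (fun x => M.Sad x ∧ M.Alt x) ≤ 4 * M.mu := by
  have i1 := sad_four H
  have i2 := non_two H (A := fun x => (M.al (x / 4) ∧ ¬M.Crit x) ∧ ¬M.Sad x)
    (fun x y u k => ⟨⟨(rg_al H u).2 k.1.1, mt (crit_rg H u).2 k.1.2⟩, mt (sad_rg H u).2 k.2⟩)
    fun _ k => k.1
  have i3 := cnt_alt H
  have i4 := ncl_cut (4 * M.n) (fun x => M.al (x / 4) ∧ ¬M.Crit x) M.Sad M.Rg
  have i5 : ncl (4 * M.n) (fun x => (M.al (x / 4) ∧ ¬M.Crit x) ∧ M.Sad x) M.Rg =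
      ncl (4 * M.n) M.Sad M.Rg := cnt_congr fun x _ => and_congr_left fun _ =>
    ⟨And.right, fun k => ⟨⟨sad_al H k, sad_non k⟩, k⟩⟩
  rw [cnt_split _ _ M.Sad, cnt_congr (Q := fun x => M.Sad x ∧ M.Alt x) (fun x _ =>
    and_congr_right fun k => and_iff_right (sad_al H k))] at i3
  have i6 := cnt_mono (n := 4 * M.n)
    (P := fun x => ((M.al (x / 4) ∧ ¬M.Crit x) ∧ ¬M.Sad x) ∧ M.Alt x)
    (Q := fun x => ¬M.Sad x ∧ M.al (x / 4) ∧ M.Alt x) fun _ _ k => ⟨k.1.2, k.1.1.1, k.2⟩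
  unfold Cm.mu
  omega

/-- The subtraction in `mu` is exact. -/
theorem mu_add (H : M.Ok) :
    M.mu + ncl (4 * M.n) (fun x => M.al (x / 4) ∧ ¬M.Crit x) M.Rg = cnt M.n M.al := (cnt_all H).1

/-- COUNT16. -/
theorem count16 (H : M.Ok) : cnt (4 * M.n) M.Prb ≤ 8 * M.mu := by
  have := cnt_prb H
  have := (cnt_all H).2
  omega

theorem rg_sc (H : M.Ok) (h : x < 4 * M.n) :
    M.Rg x y ↔ Sc (4 * M.n) (fun p => r4 (M.lk p)) (r4 x) (r4 y) := by
  have e : ∀ t, (fun p => r4 (M.lk p))^[t] (r4 x) = r4 (M.nr^[t] x) := fun t =>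
    (Function.Semiconj.iterate_right (f := r4) (ga := M.nr) (fun _ => rfl) t x).symm
  rw [sc_iff (Two.pm.comp (ok_pl H).iv.pm).1 (Two.pm.1 x h)]
  refine exists_congr fun t => ?_
  rw [e]
  generalize M.nr^[t] x = w
  unfold r4
  omega

theorem countg {n : ℕ} {lk : ℕ → ℕ} {al : ℕ → Prop} (iv : Iv (4 * n) lk)
    (h0 : ∀ p < 4 * n, lk p = p ↔ ¬al (p / 4)) :
    (ncl (4 * n) (fun p => al (p / 4)) (Sc (4 * n) fun p => r4 (lk p)) : ℤ) + gen (4 * n) r4 lk =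
      cnt n al + 2 * ncl (4 * n) (fun p => al (p / 4)) (Conn (4 * n) r4 lk) := by
  have cell : ∀ {A : ℕ → Prop} {r : ℕ → ℕ → Prop},
      (∀ p < 4 * n, A (p / 4) → ∀ e < 4 * n, r p e ↔ p / 4 = e / 4) →
      ncl (4 * n) (fun p => A (p / 4)) r = cnt n A := fun {A r} k => by
    rw [← (cnt4 n A).1]
    refine cnt_congr fun p hp => and_congr_right fun a => ⟨fun u => ?_, fun u e he v => ?_⟩
    · have := u (4 * (p / 4)) (by omega) ((k p hp a _ (by omega)).2 (by omega))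
      omega
    · have := (k p hp a e he).1 v
      omega
  have v : ncl (4 * n) (fun _ => True) (Sc (4 * n) r4) = n :=
    (cell (A := fun _ => True) fun p hp _ e _ => (Two.sc hp).symm).trans (by simp [cnt])
  have r : ∀ p, r4 p / 4 = p / 4 := fun p => by unfold r4; omega
  have dl : ∀ p < 4 * n, ¬al (p / 4) ↔ ¬al (lk p / 4) := fun p hp => by
    rw [← h0 p hp, ← h0 _ (iv p hp).1, (iv p hp).2, eq_comm]
  have c : ncl (4 * n) (fun p => ¬al (p / 4)) (Conn (4 * n) r4 lk) = cnt n fun a => ¬al a := by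
    refine cell (A := fun a => ¬al a) fun p hp a e he => ⟨fun k => ?_, fun k =>
      Sc.conn' _ Two.pm hp ((Two.sc hp).1 k)⟩
    refine (Conn.ind (r := fun x y => x / 4 = p / 4 ↔ y / 4 = p / 4)
      ⟨fun _ => Iff.rfl, Iff.symm, Iff.trans⟩ (fun x _ => by rw [r]) (fun x hx => ?_) k).1 rfl |>.symm
    by_cases u : al (x / 4)
    · have u' := not_not.1 ((dl x hx).not.1 (not_not.2 u))
      exact ⟨fun e => absurd (e ▸ u) a, fun e => absurd (e ▸ u') a⟩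
    · rw [(h0 x hx).2 u]
  have pm := Two.pm.comp iv.pm
  have f : ncl (4 * n) (fun p => ¬al (p / 4)) (Sc (4 * n) fun p => r4 (lk p)) =
      cnt n fun a => ¬al a := by
    refine cell (A := fun a => ¬al a) fun p hp a e he => ⟨fun k => ?_, fun k => ?_⟩
    · exact Sc.ind (Q := fun x => p / 4 = x / 4) pm.1 hp rfl
        (fun x hx u => by rw [(h0 x hx).2 (u ▸ a), r, u]) k
    · exact (Sc.ind (Q := fun x => p / 4 = x / 4 ∧ Sc (4 * n) (fun p => r4 (lk p)) p x) Two.pm.1 hp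
        ⟨rfl, Sc.refl _ hp⟩ (fun x hx u => ⟨by rw [r, u.1], by
          have := u.2.trans pm.1 hp (Sc.step pm.1 hx)
          rwa [(h0 x hx).2 (u.1 ▸ a)] at this⟩) ((Two.sc hp).1 k)).2
  have two : ∀ p < 4 * n, ∀ e, Sc (4 * n) lk p e → e = p ∨ e = lk p := fun p hp e k =>
    Sc.ind (Q := fun e => e = p ∨ e = lk p) iv.pm.1 hp (Or.inl rfl)
      (fun x _ u => u.elim (fun u => Or.inr (by rw [u])) fun u => Or.inl (by rw [u, (iv p hp).2])) k
  have e1 : ncl (4 * n) (fun p => ¬al (p / 4)) (Sc (4 * n) lk) = 4 * cnt n fun a => ¬al a := by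
    rw [← (cnt4 n _).2]
    refine cnt_congr fun p hp => ⟨And.left, fun a => ⟨a, fun e _ k => ?_⟩⟩
    have := two p hp e k
    rw [(h0 p hp).2 a] at this
    omega
  have e2 : ncl (4 * n) (fun p => al (p / 4)) (Sc (4 * n) lk) = 2 * cnt n al := by
    have i1 : ncl (4 * n) (fun p => al (p / 4)) (Sc (4 * n) lk) =
        cnt (4 * n) fun p => p ≤ lk p ∧ al (p / 4) :=
      cnt_congr fun p hp => ⟨fun k => ⟨k.2 _ (iv p hp).1 (Sc.step iv.pm.1 hp), k.1⟩,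
        fun k => ⟨k.2, fun e _ u => by have := two p hp e u; omega⟩⟩
    have i2 := cnt_split (4 * n) (fun p => al (p / 4)) fun p => p ≤ lk p
    have al' : ∀ p < 4 * n, al (p / 4) → al (lk p / 4) ∧ lk p ≠ p := fun p hp u =>
      ⟨not_not.1 ((dl p hp).not.1 (not_not.2 u)), fun e => (h0 p hp).1 e u⟩
    have i3 : cnt (4 * n) (fun p => p ≤ lk p ∧ al (p / 4)) ≤
        cnt (4 * n) fun p => ¬p ≤ lk p ∧ al (p / 4) :=
      cnt_inj lk (fun p hp k => ⟨(iv p hp).1, by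
        have := (al' p hp k.2).2
        rw [(iv p hp).2]; omega, (al' p hp k.2).1⟩) fun a ha b hb _ _ => iv.pm.2 a ha b hb
    have i4 : cnt (4 * n) (fun p => ¬p ≤ lk p ∧ al (p / 4)) ≤
        cnt (4 * n) fun p => p ≤ lk p ∧ al (p / 4) :=
      cnt_inj lk (fun p hp k => ⟨(iv p hp).1, by rw [(iv p hp).2]; omega, (al' p hp k.2).1⟩)
        fun a ha b hb _ _ => iv.pm.2 a ha b hb
    rw [(cnt4 n al).2] at i2
    omega
  have t : n = cnt n al + cnt n fun a => ¬al a := by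
    have t := cnt_split n (fun _ => True) al
    simp only [and_true] at t
    rwa [show cnt n (fun _ => True) = n by simp [cnt]] at t
  have s := ncl_split (4 * n) (fun p => al (p / 4)) (Sc (4 * n) fun p => r4 (lk p))
  unfold gen
  rw [v, ncl_split _ (fun p => al (p / 4)) (Conn _ _ _), ncl_split _ (fun p => al (p / 4)) (Sc _ lk),
    s, c, f, e1, e2]
  push_cast
  omega

/-- EULER: regions + genus = cells + twice the components. -/
theorem euler (H : M.Ok) : (ncl (4 * M.n) (fun x => M.al (x / 4)) M.Rg : ℤ) + M.gx =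
    cnt M.n M.al + 2 * ncl (4 * M.n) (fun p => M.al (p / 4)) (Conn (4 * M.n) r4 M.lk) := by
  have o := ok_pl H
  have pm := Two.pm.comp o.iv.pm
  have e : ∀ x, r4 (r3 x) = x ∧ r3 x / 4 = x / 4 := fun x => by unfold r3 r4; omega
  rw [← countg o.iv o.fix]
  refine congrArg (fun k : ℕ => (k : ℤ) + M.gx) ?_
  refine le_antisymm (ncl_le r4 (rg_eqv H _) pm.eqv (fun x hx y _ u k => ?_)
    (fun x hx k => ⟨Two.pm.1 x hx, by rwa [r4_div]⟩) fun x hx y _ _ _ => (rg_sc H hx).2)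
    (ncl_le r3 pm.eqv (rg_eqv H _) (fun x _ y _ u => (rg_al H u).2)
      (fun x hx k => ⟨r3_pm.1 x hx, by rwa [(e x).2]⟩) fun x hx y _ _ _ u => ?_)
  · exact Sc.ind (Q := fun d => M.al (d / 4)) pm.1 hx k
      (fun d _ v => by rw [r4_div]; exact al_lk H v) u
  · have := (rg_sc H (r3_pm.1 x hx)).1 u
    rwa [show r4 (PL.r3 x) = x from (e x).1, (e y).1] at this

/-- The number of critical regions. -/
theorem crit_ge (H : M.Ok) :
    (M.mu : ℤ) ≤ ncl (4 * M.n) (fun x => M.al (x / 4) ∧ M.Crit x) M.Rg + M.gx := by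
  have := euler H
  have := mu_add H
  have := ncl_cut (4 * M.n) (fun x => M.al (x / 4)) M.Crit M.Rg
  omega

end Pool.Agent.MP_1a6d78_lc.PG.Ct
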