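import Pool.Agent.MP_1a6d78_lc.PG.FSpec

/-! PROJECT PG, row CUTEX: the cut of the machine is a cut of a system; cuts of one ring exist. -/

namespace Pool.Agent.MP_1a6d78_lc.PG

open Classical ED PR PL Relation

namespace FCutEx

variable {M : Cm}

theorem pa_refl (i a : ℕ) : M.Pa i a a := ⟨0, rfl⟩

theorem pa_st {i a b : ℕ} (h : M.Pa i a b) : M.Pa i a (M.st i b) := by
  obtain ⟨t, rfl⟩ := h
  exact ⟨t + 1, Function.iterate_succ_apply' _ _ _⟩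

theorem co_iff (W : WalkK M) {i v y : ℕ} (hv : M.Per i v) :
    M.Per i y ∧ M.Co i y v ↔ M.Pa i v y :=
  ⟨fun h => (W.per_pa i y v h.1 ((W.co_per i y v hv).1 h.2)).2, fun h =>
    ⟨(W.per_pa i v y hv h).1, y, pa_refl i y, h⟩⟩

theorem rs_zr (W : WalkK M) {R : ℕ → Prop} (hR : ∀ v, R v → M.Ring v) : M.Rs (M.Zr R) := by
  rintro t y ⟨rfl, hy, v, hv, hc⟩
  have h1 := (W.ring v).1 (hR v hv)
  have h2 := (co_iff W h1.1).1 ⟨hy, hc⟩
  have h3 := (co_iff W h1.1).2 (pa_st h2)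
  exact ⟨by omega, W.rn_pa 0 v y h1 h2, rfl, h3.1, v, hv, h3.2⟩

theorem cut_iff (W : WalkK M) (M' : Cm) (R : ℕ → Prop) : M.Cutm M' R ↔ M.Cutx M' (M.Zr R) := by
  constructor
  · intro S
    refine ⟨S.n, S.inv, ?_, fun p h => S.off p ?_, ?_⟩
    rotate_right
    · rintro t y a ⟨rfl, -⟩ - ⟨e, -⟩
      unfold ep at e
      split_ifs at e
    · rintro t y a ⟨rfl, -, v, hv, hc⟩ k
      exact S.ring v a y hv ⟨k, hc⟩
    · rintro ⟨v, a, hv, k, e⟩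
      exact h ⟨0, a, ⟨rfl, (W.kd_per 0 a _ k.1).1, v, hv, k.2⟩, k.1, e⟩
  · intro S
    refine ⟨S.n, S.inv, fun v a y hv k =>
      S.ring 0 y a ⟨rfl, (W.kd_per 0 a _ k.1).1, v, hv, k.2⟩ k.1, fun p h => S.off p ?_⟩
    rintro ⟨t, a, ⟨rfl, -, v, hv, hc⟩, k, e⟩
    exact h ⟨v, a, hv, ⟨k, hc⟩, e⟩

theorem rs_one (W : WalkK M) {t v : ℕ} (ht : t < 4) (h : M.Rng t v) : M.Rs (M.One t v) := by
  rintro s y ⟨rfl, hy⟩
  exact ⟨ht, W.rn_pa s v y h hy, rfl, pa_st hy⟩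

end FCutEx

theorem fCutEx : S_Walk → S_Tw → S_TwC → S_CutEx := by
  intro hW hT hC M H
  have W := hW M H
  refine ⟨fun M' R hR => ⟨FCutEx.rs_zr W hR, FCutEx.cut_iff W M' R, fun S => Ct.cutm_ok H S⟩,
    fun t ht v hv => ⟨FCutEx.rs_one W ht hv, ?_⟩⟩
  have T := hT M H t (by omega)
  have e0 : fp t 0 = t := by unfold fp; split_ifs; omega
  have WN := hW _ T.ok
  have hN : (M.tw t).Ring v := (WN.ring v).2 ((T.rn 0 v).2 (e0.symm ▸ hv))
  obtain ⟨N', S⟩ := Ct.cutm_ex T.ok (fun u => u = v)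
  have o := Ct.cutm_ok T.ok S
  have hg : gi t < 8 := Ct.gi_lt (by omega)
  have hs : (M.tw t).Rs ((M.tw t).Zr fun u => u = v) :=
    FCutEx.rs_zr WN fun u hu => hu ▸ hN
  have C := (hC _ N' _ T.ok o hs ((FCutEx.cut_iff WN N' _).1 S) (gi t) hg).2
  rw [T.back] at C
  refine ⟨N'.tw (gi t), (hT N' o _ hg).ok, ?_⟩
  have e : (fun s y => s < 4 ∧ ((M.tw t).Zr fun u => u = v) (fp (gi t) s) y) = M.One t v := by
    funext s y
    have e1 : s < 4 ∧ fp (gi t) s = 0 ↔ s = t := by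
      unfold fp gi
      split_ifs <;> omega
    have e2 := FCutEx.co_iff W (y := y) hv.1
    apply propext
    constructor
    · rintro ⟨a, b, c, u, rfl, d⟩
      rw [T.per, e0] at c
      rw [T.co, e0] at d
      exact ⟨e1.1 ⟨a, b⟩, e2.1 ⟨c, d⟩⟩
    · rintro ⟨a, b⟩
      have := e2.2 b
      refine ⟨(e1.2 a).1, (e1.2 a).2, ?_, v, rfl, ?_⟩
      · rw [T.per, e0]; exact this.1
      · rw [T.co, e0]; exact this.2
  rwa [e] at C

end Pool.Agent.MP_1a6d78_lc.PG
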