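import Pool.Agent.MP_1a6d78_lc.PG.FSpec

/-! PROJECT PG, row CUTN: one step along a region after a cut. -/

namespace Pool.Agent.MP_1a6d78_lc.PG

open Classical ED PR PL Relation Cm

noncomputable section

namespace FCutN

variable {M M' : Cm} {R : ℕ → ℕ → Prop}

theorem ep_a (t : ℕ) : ep t (t % 4) = (t + 1) % 4 := by unfold ep; rw [if_pos (by omega)]

theorem ep_b (t : ℕ) : ep t ((t + 3) % 4) = (t + 3) % 4 := by unfold ep; rw [if_neg (by omega)]

theorem R_wk (hR : M.Rs R) {t y : ℕ} (h : R t y) (s : ℕ) : R t (M.wk t y s) := by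
  induction s with
  | zero => exact h
  | succ s ih => rw [wk_succ]; exact (hR _ _ ih).2.2

theorem kd_st {t u : ℕ} (h : M.Per t u) : M.Kd t (M.ss t u) (M.st t u) := ⟨u, h, rfl, rfl⟩

theorem back (ok : M.Ok) {i c : ℕ} (hc : M.al c) :
    M.lk (pt (M.st i c) (ep i (M.ss i c))) = pt c i := by rw [← ok.lk_pt hc, ok.inv]

/-- A changed port. -/
def Chg (M : Cm) (R : ℕ → ℕ → Prop) (p : ℕ) : Prop :=
  ∃ t a, R t (p / 4) ∧ M.Kd t a (p / 4) ∧ (p % 4 = t ∨ p % 4 = ep t a)

theorem chg_lk (ok : M.Ok) (hR : M.Rs R) {p : ℕ} (h : Chg M R p) : Chg M R (M.lk p) := by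
  obtain ⟨t, a, r, k, e | e⟩ := h
  · have per := k.per ok
    have t4 := (hR _ _ r).1
    have e1 : p = pt (p / 4) t := by unfold pt; omega
    have e2 : M.lk p = pt (M.st t (p / 4)) (ep t (M.ss t (p / 4))) := by
      rw [← ok.lk_pt per.1, ← e1]
    refine ⟨t, M.ss t (p / 4), ?_, ?_, Or.inr ?_⟩
    · rw [e2, pt_div]; exact (hR _ _ r).2.2
    · rw [e2, pt_div]; exact kd_st per
    · rw [e2, pt_mod]; unfold ep; split_ifs <;> omega
  · obtain ⟨u, per, e1, e2⟩ := k
    have t4 := (hR _ _ r).1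
    have e3 : p = pt (M.st t u) (ep t (M.ss t u)) := by
      rw [e1, e2, ← e]; unfold pt; omega
    have e4 : M.lk p = pt u t := by rw [e3, back ok per.1]
    obtain ⟨s, hs⟩ := per.2
    obtain ⟨b, kb⟩ := per.kd ok
    refine ⟨t, b, ?_, ?_, Or.inl ?_⟩
    · rw [e4, pt_div, ← hs, e1]; exact R_wk hR r s
    · rw [e4, pt_div]; exact kb
    · rw [e4, pt_mod]; omega

theorem kd_cases {t a y : ℕ} (k : M.Kd t a y) : a = t % 4 ∨ a = (t + 3) % 4 := by
  obtain ⟨u, -, -, rfl⟩ := k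
  exact ss_cases t u

theorem cor_chg (hR : M.Rs R) {x : ℕ} (h : M.Cor R x) : Chg M R x := by
  obtain ⟨t, r, k⟩ := h
  have t4 := (hR _ _ r).1
  refine ⟨t, x % 4, r, k, ?_⟩
  rcases kd_cases k with e | e
  · left; omega
  · right; rw [e, ep_b]

theorem kd_ent (ok : M.Ok) {t a y : ℕ} (k : M.Kd t a y) :
    M.lk (pt y (ep t a)) % 4 = t % 4 ∧ M.Per t (M.lk (pt y (ep t a)) / 4) := by
  obtain ⟨u, per, rfl, rfl⟩ := k
  rw [back ok per.1, pt_mod, pt_div]
  exact ⟨rfl, per⟩

/-- The goal. -/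
def Goal (M M' : Cm) (R : ℕ → ℕ → Prop) (x : ℕ) : Prop :=
  ∃ k, 0 < k ∧ M'.nr x = M.nr^[k] x ∧ ¬M.Cor R (M'.nr x) ∧
    (∀ s, 0 < s → s < k → M.Cor R (M.nr^[s] x)) ∧
    (1 < k → M'.Alt x ∧ ∃ s < k, M.Alt (M.nr^[s] x) ∧ M.nr^[s] x % 4 = x % 4 ∧
      ∀ s' < k, M.Alt (M.nr^[s'] x) → s' = s)

theorem exit (ok : M.Ok) (hR : M.Rs R) (hC : M.Cutx M' R) {t c : ℕ} (r : R t c)
    (k : M.Kd t (t % 4) c) : Goal M M' R (pt c (t + 3)) := by
  have t4 := (hR _ _ r).1
  have per := k.per ok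
  have r4e : ∀ y, r4 (pt y (t + 3)) = pt y t := fun y => by unfold r4 pt; omega
  have lt : M.FE t c (t % 4) < M.n := by
    obtain ⟨u, pu, e1, e2⟩ := k
    obtain ⟨s, hs⟩ := pu.2
    rw [e1] at hs
    rcases FE_le ok t c (t % 4) with e | e
    · exact absurd (by rw [hs, e2]) ((FE_none ok per.1).1 e s)
    · exact ok.lt _ e
  obtain ⟨-, j, f1, f2, f3⟩ := FE_spec ok lt
  have pw : ∀ s, M.Per t (M.wk t c s) := fun s => (per.pa ok (Pa.wk _ _ _)).1
  have f4 : ∀ s < j, M.ss t (M.wk t c s) = (t + 3) % 4 := fun s hs =>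
    (ss_cases t _).resolve_left (f3 s hs)
  have it : ∀ s ≤ j, M.nr^[s] (pt c (t + 3)) = pt (M.wk t c s) (t + 3) := by
    intro s
    induction s with
    | zero => exact fun _ => rfl
    | succ s ih =>
      intro hs
      rw [Function.iterate_succ_apply', ih (by omega), nr, r4e, ok.lk_pt (pw s).1,
        f4 s (by omega), ep_b, wk_succ]
      unfold pt; omega
  have last : M.nr^[j + 1] (pt c (t + 3)) = pt (M.wk t c (j + 1)) (t + 1) := by
    rw [Function.iterate_succ_apply', it j le_rfl, nr, r4e, ok.lk_pt (pw j).1, f2, ep_a, wk_succ]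
    unfold pt; omega
  have new : M'.nr (pt c (t + 3)) = pt (M.wk t c (j + 1)) (t + 1) := by
    rw [nr, r4e, hC.ring t c _ r k, f1, ep_a]
    unfold pt; omega
  have kf : M.Kd t (t % 4) (M.wk t c (j + 1)) := by rw [wk_succ, ← f2]; exact kd_st (pw j)
  refine ⟨j + 1, Nat.succ_pos _, new.trans last.symm, ?_, fun s s0 hs => ?_, fun _ => ⟨?_, j,
    Nat.lt_succ_self _, ?_, ?_, fun s' hs' a => ?_⟩⟩
  · rw [new]
    rintro ⟨t', r', k'⟩
    rw [pt_div] at r' k'
    rw [pt_mod] at k'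
    have t4' := (hR _ _ r').1
    rcases kd_cases k' with e | e
    · refine hC.sep t _ _ (R_wk hR r (j + 1)) kf ?_
      rw [ep_a, e, Nat.mod_eq_of_lt t4']
      exact r'
    · have a1 := (kd_ent ok kf).1
      have a2 := (kd_ent ok k').1
      rw [ep_a] at a1
      rw [e, ep_b, ← e, a1] at a2
      omega
  · obtain ⟨s, rfl⟩ := Nat.exists_eq_succ_of_ne_zero s0.ne'
    rw [it _ (by omega)]
    refine ⟨t, ?_, ?_⟩
    · rw [pt_div]; exact R_wk hR r _
    · rw [pt_div, pt_mod, wk_succ, ← f4 s (by omega)]; exact kd_st (pw s)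
  · unfold Alt; rw [new, pt_mod, pt_mod]; omega
  · unfold Alt
    rw [← Function.iterate_succ_apply' M.nr, last, it j le_rfl, pt_mod, pt_mod]; omega
  · rw [it j le_rfl, pt_mod, pt_mod]
  · by_contra ne
    unfold Alt at a
    rw [← Function.iterate_succ_apply' M.nr, it (s' + 1) (by omega), it s' (by omega), pt_mod,
      pt_mod] at a
    exact a rfl

theorem prev (ok : M.Ok) {t a c : ℕ} (k : M.Kd t a c) : ∃ m j, M.Kd t a (M.wk t c m) ∧
    M.wk t (M.wk t c m) (j + 1) = c ∧ M.ss t (M.wk t (M.wk t c m) j) = a ∧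
      ∀ s < j, M.ss t (M.wk t (M.wk t c m) s) ≠ a := by
  have per := k.per ok
  obtain ⟨n, hn⟩ := per.2
  rw [← wk_succ'] at hn
  have pw : ∀ s, M.Per t (M.wk t c s) := fun s => (per.pa ok (Pa.wk _ _ _)).1
  have g1 := Nat.findGreatest_spec (P := fun m => M.Kd t a (M.wk t c m)) (Nat.zero_le n) k
  have g2 := Nat.findGreatest_le (P := fun m => M.Kd t a (M.wk t c m)) n
  have g3 := fun s => Nat.findGreatest_is_greatest (P := fun m => M.Kd t a (M.wk t c m))
    (n := n) (k := s)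
  generalize Nat.findGreatest (fun m => M.Kd t a (M.wk t c m)) n = m at g1 g2 g3
  obtain ⟨j, rfl⟩ := Nat.exists_eq_add_of_le g2
  refine ⟨m, j, g1, by rw [← wk_add, ← add_assoc, hn], ?_, fun s hs e => ?_⟩
  · rw [← wk_add]
    refine Kd.uniq ok (kd_st (pw (m + j))) ?_
    rw [← wk_succ, hn]; exact k
  · refine g3 (m + s + 1) (by omega) (by omega) ?_
    rw [← wk_add] at e
    show M.Kd t a (M.wk t c (m + s + 1))
    rw [wk_succ, ← e]; exact kd_st (pw (m + s))

theorem entry (ok : M.Ok) (hR : M.Rs R) (hC : M.Cutx M' R) {t c : ℕ} (r : R t c)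
    (k : M.Kd t ((t + 3) % 4) c) : Goal M M' R (pt c (t + 2)) := by
  have t4 := (hR _ _ r).1
  obtain ⟨m, j, kg, f1, f2, f3⟩ := prev ok k
  have rg := R_wk hR r m
  generalize M.wk t c m = g at kg f1 f2 f3 rg
  have per := kg.per ok
  have pw : ∀ s, M.Per t (M.wk t g s) := fun s => (per.pa ok (Pa.wk _ _ _)).1
  have f4 : ∀ s < j, M.ss t (M.wk t g s) = t % 4 := fun s hs =>
    (ss_cases t _).resolve_right (f3 s hs)
  have e0 : r4 (pt c (t + 2)) = pt c ((t + 3) % 4) := by unfold r4 pt; omega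
  have e1 : ∀ y, r4 (pt y t) = pt y ((t + 1) % 4) := fun y => by unfold r4 pt; omega
  have it : ∀ s i, s + i = j → M.nr^[s + 1] (pt c (t + 2)) = pt (M.wk t g i) t := by
    intro s
    induction s with
    | zero =>
      intro i hi
      have : i = j := by omega
      subst this
      show M.nr (pt c (t + 2)) = _
      rw [nr, e0, ← back ok (pw i).1, f2, ep_b, ← wk_succ, f1]
    | succ s ih =>
      intro i hi
      rw [Function.iterate_succ_apply', ih (i + 1) (by omega), nr, e1, ← back ok (pw i).1,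
        f4 i (by omega), ep_a, wk_succ]
  have new : M'.nr (pt c (t + 2)) = pt g t := by
    rw [nr, e0, ← hC.inv (pt g t), hC.ring t g _ rg kg, FE_eq ok per.1 f2 f3, f1, ep_b]
  have md : ∀ s ≤ j, M.nr^[s + 1] (pt c (t + 2)) % 4 = t % 4 := fun s hs => by
    rw [it s (j - s) (by omega), pt_mod]
  refine ⟨j + 1, Nat.succ_pos _, new.trans (it j 0 rfl).symm, ?_, fun s s0 hs => ?_, fun _ => ⟨?_, 0,
    Nat.succ_pos _, ?_, rfl, fun s' hs' a => ?_⟩⟩
  · rw [new]
    rintro ⟨t', r', k'⟩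
    rw [pt_div] at r' k'
    rw [pt_mod] at k'
    have t4' := (hR _ _ r').1
    rcases kd_cases k' with e | e
    · have : t' = t := by omega
      subst this
      have := Kd.uniq ok k' kg
      omega
    · obtain ⟨a1, a2⟩ := kd_ent ok k'
      have e2 : pt g (ep t' (t % 4)) = pt g t := by rw [e, ep_b, ← e]; unfold pt; omega
      rw [e2] at a1 a2
      have e3 : M.ss t g = t % 4 := by unfold ss sd; rw [if_pos (by omega)]
      refine hC.sep t _ _ (hR _ _ rg).2.2 (kd_st per) ?_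
      rw [e3, ep_a, show (t + 1) % 4 = t' by omega]
      have s : M.st t' (M.st t g) = g := by
        show M.lk (pt (M.lk (pt g t) / 4) t') / 4 = g
        rw [show pt (M.lk (pt g t) / 4) t' = M.lk (pt g t) by
          generalize M.lk (pt g t) = w at a1; unfold pt; omega, ok.inv, pt_div]
      obtain ⟨w, hw⟩ := a2.2
      change M.wk t' (M.st t' (M.st t g)) w = M.st t g at hw
      rw [s] at hw
      exact hw ▸ R_wk hR r' w
  · obtain ⟨s, rfl⟩ := Nat.exists_eq_succ_of_ne_zero s0.ne'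
    obtain ⟨i, hi⟩ : ∃ i, s + (i + 1) = j := ⟨j - s - 1, by omega⟩
    rw [it s _ hi]
    refine ⟨t, ?_, ?_⟩
    · rw [pt_div]; exact R_wk hR rg _
    · rw [pt_div, pt_mod, wk_succ, ← f4 i (by omega)]; exact kd_st (pw i)
  · unfold Alt; rw [new, pt_mod, pt_mod]; omega
  · have := md 0 (Nat.zero_le _)
    show M.nr^[0 + 1] (pt c (t + 2)) % 4 ≠ pt c (t + 2) % 4
    rw [this, pt_mod]; omega
  · by_contra ne
    obtain ⟨s, rfl⟩ := Nat.exists_eq_succ_of_ne_zero ne
    unfold Alt at a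
    rw [← Function.iterate_succ_apply' M.nr, md (s + 1) (by omega), md s (by omega)] at a
    exact a rfl

end FCutN

open FCutN in
theorem fCutN : S_CutN := by
  intro M M' R ok _ hR hC x hx
  by_cases h : Chg M R (r4 x)
  · obtain ⟨t, b, r, k, e⟩ := h
    have d : r4 x / 4 = x / 4 := by unfold r4; omega
    have d' : r4 x % 4 = (x + 1) % 4 := by unfold r4; omega
    rw [d] at r k
    rw [d'] at e
    have t4 := (hR _ _ r).1
    have ne : x % 4 ≠ b := fun u => hx ⟨t, r, u ▸ k⟩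
    rcases kd_cases k with rfl | rfl
    · rw [ep_a] at e
      have : x = pt (x / 4) (t + 3) := by unfold pt; omega
      rw [this]
      exact exit ok hR hC r k
    · rw [ep_b] at e
      have : x = pt (x / 4) (t + 2) := by unfold pt; omega
      rw [this]
      exact entry ok hR hC r k
  · have e : M'.nr x = M.nr x := hC.off _ h
    refine ⟨1, Nat.one_pos, e, fun c => h ?_, fun s a b => by omega, fun a => absurd a (lt_irrefl _)⟩
    have := chg_lk ok hR (cor_chg hR c)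
    rwa [e, nr, ok.inv] at this

end

end Pool.Agent.MP_1a6d78_lc.PG
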