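import Pool.Agent.MP_1a6d78_lc.PG.FSpec

/-! PROJECT PG, row CUTR: regions after a cut. -/

namespace Pool.Agent.MP_1a6d78_lc.PG

open Classical ED PR PL Relation

namespace FCutR

variable {M M' : Cm} {R : ℕ → ℕ → Prop}

theorem st_mod (M : Cm) {i j : ℕ} (e : i % 4 = j % 4) : M.st i = M.st j := by
  funext c
  unfold Cm.st pt
  rw [e]

theorem pa_mod {i j a b : ℕ} (e : i % 4 = j % 4) : M.Pa i a b ↔ M.Pa j a b := by
  unfold Cm.Pa Cm.wk
  rw [st_mod M e]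

theorem per_mod {i j a : ℕ} (e : i % 4 = j % 4) : M.Per i a ↔ M.Per j a := by
  unfold Cm.Per
  rw [pa_mod e, st_mod M e]

theorem rs_pa (S : M.Rs R) {t y u : ℕ} (h : R t y) (p : M.Pa t y u) : R t u := by
  obtain ⟨k, rfl⟩ := p
  induction k with
  | zero => exact h
  | succ k ih => rw [Cm.wk_succ]; exact (S _ _ ih).2.2

theorem tr {x y z : ℕ} (h : M.Rg x y) (k : M.Rg y z) : M.Rg x z := by
  obtain ⟨s, rfl⟩ := h
  obtain ⟨t, rfl⟩ := k
  exact ⟨t + s, Function.iterate_add_apply _ _ _ _⟩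

/-- The conclusion of the row CUTN. -/
def Nx (M M' : Cm) (R : ℕ → ℕ → Prop) : Prop :=
  ∀ x, ¬M.Cor R x → ∃ k, 0 < k ∧ M'.nr x = M.nr^[k] x ∧ ¬M.Cor R (M'.nr x) ∧
    (∀ s, 0 < s → s < k → M.Cor R (M.nr^[s] x)) ∧
    (1 < k → M'.Alt x ∧ ∃ s < k, M.Alt (M.nr^[s] x) ∧ M.nr^[s] x % 4 = x % 4 ∧
      ∀ s' < k, M.Alt (M.nr^[s'] x) → s' = s)

theorem rg (N : Nx M M' R) (x y : ℕ) (hx : ¬M.Cor R x) :
    M'.Rg x y ↔ M.Rg x y ∧ ¬M.Cor R y := by
  constructor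
  · rintro ⟨t, rfl⟩
    induction t with
    | zero => exact ⟨⟨0, rfl⟩, hx⟩
    | succ t ih =>
      obtain ⟨k, _, e, c, _⟩ := N _ ih.2
      rw [Function.iterate_succ_apply']
      exact ⟨tr ih.1 ⟨k, e.symm⟩, c⟩
  · rintro ⟨⟨t, e⟩, hy⟩
    induction t using Nat.strong_induction_on generalizing x with
    | _ t ih =>
      rcases Nat.eq_zero_or_pos t with rfl | ht
      · exact ⟨0, e⟩
      obtain ⟨k, k0, e1, c, m, _⟩ := N x hx
      have : k ≤ t := by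
        by_contra h
        exact hy (e ▸ m t ht (by omega))
      refine tr ⟨1, rfl⟩ (ih (t - k) (by omega) _ c ?_)
      show M.nr^[t - k] (M'.nr x) = y
      rw [e1, ← Function.iterate_add_apply, Nat.sub_add_cancel this, e]

/-- `u` is the last label before `y` that is not a corner. -/
def Ow (M : Cm) (R : ℕ → ℕ → Prop) (u y : ℕ) : Prop :=
  ¬M.Cor R u ∧ ∃ s, M.nr^[s] u = y ∧ ∀ s', 0 < s' → s' ≤ s → M.Cor R (M.nr^[s'] u)

theorem ow_ex {x y : ℕ} (hx : ¬M.Cor R x) (h : M.Rg x y) : ∃ u, M.Rg x u ∧ Ow M R u y := by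
  obtain ⟨t, rfl⟩ := h
  induction t with
  | zero => exact ⟨x, ⟨0, rfl⟩, hx, 0, rfl, fun s' a b => by omega⟩
  | succ t ih =>
    by_cases c : M.Cor R (M.nr^[t + 1] x)
    · obtain ⟨u, h1, h2, s, e, h3⟩ := ih
      have e' : M.nr^[s + 1] u = M.nr^[t + 1] x := by
        rw [Function.iterate_succ_apply', Function.iterate_succ_apply', e]
      refine ⟨u, h1, h2, s + 1, e', fun s' a b => ?_⟩
      rcases Nat.lt_or_ge s s' with h | h
      · rw [show s' = s + 1 by omega, e']; exact c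
      · exact h3 s' a h
    · exact ⟨_, ⟨t + 1, rfl⟩, c, 0, rfl, fun s' a b => by omega⟩

theorem ow_uniq (G : RegK M) {u v y : ℕ} (h : Ow M R u y) (k : Ow M R v y) : u = v := by
  have inj : Function.Injective M.nr := fun a b => G.inj a b
  have key : ∀ {u v : ℕ} {s t : ℕ}, ¬M.Cor R u → M.nr^[s] u = M.nr^[t] v → s ≤ t →
      (∀ s', 0 < s' → s' ≤ t → M.Cor R (M.nr^[s'] v)) → u = v := by
    intro u v s t hu e le c
    obtain ⟨d, rfl⟩ := Nat.exists_eq_add_of_le le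
    rw [Function.iterate_add_apply] at e
    have e' := inj.iterate s e
    rcases Nat.eq_zero_or_pos d with rfl | hd
    · exact e'
    · exact absurd (e' ▸ c d hd (by omega)) hu
  obtain ⟨h1, s, e1, c1⟩ := h
  obtain ⟨h2, t, e2, c2⟩ := k
  rcases le_total s t with le | le
  · exact key h1 (e1.trans e2.symm) le c2
  · exact (key h2 (e2.trans e1.symm) le c1).symm

theorem ow_alt (N : Nx M M' R) {u y : ℕ} (h : Ow M R u y) (a : M.Alt y) :
    M'.Alt u ∧ y % 4 = u % 4 ∧ ∀ z, Ow M R u z → M.Alt z → z = y := by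
  obtain ⟨k, k0, e, c, _, f⟩ := N u h.1
  have lt : ∀ {s : ℕ}, (∀ s', 0 < s' → s' ≤ s → M.Cor R (M.nr^[s'] u)) → s < k := by
    intro s hs
    by_contra h'
    exact c (e ▸ hs k k0 (by omega))
  obtain ⟨_, s, rfl, c1⟩ := h
  have l1 := lt c1
  rcases Nat.lt_or_ge 1 k with h1 | h1
  · obtain ⟨a1, s0, _, _, a3, a4⟩ := f h1
    refine ⟨a1, by rw [a4 s l1 a]; exact a3, ?_⟩
    rintro z ⟨_, t, rfl, c2⟩ az
    rw [a4 s l1 a, a4 t (lt c2) az]
  · obtain rfl : k = 1 := by omega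
    obtain rfl : s = 0 := by omega
    refine ⟨?_, rfl, ?_⟩
    · unfold Cm.Alt at a ⊢
      rw [e]; exact a
    · rintro z ⟨_, t, rfl, c2⟩ _
      obtain rfl : t = 0 := by have := lt c2; omega
      rfl

theorem alt_ow (N : Nx M M' R) {u : ℕ} (h : ¬M.Cor R u) (a : M'.Alt u) :
    ∃ y, Ow M R u y ∧ M.Alt y := by
  obtain ⟨k, k0, e, _, m, f⟩ := N u h
  rcases Nat.lt_or_ge 1 k with h1 | h1
  · obtain ⟨_, s, l, a2, _⟩ := f h1
    exact ⟨_, ⟨h, s, rfl, fun s' p q => m s' p (by omega)⟩, a2⟩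
  · obtain rfl : k = 1 := by omega
    refine ⟨u, ⟨h, 0, rfl, fun s' p q => by omega⟩, ?_⟩
    unfold Cm.Alt at a ⊢
    rw [e] at a; exact a

theorem Ow.rg {u y : ℕ} (h : Ow M R u y) : M.Rg u y := let ⟨_, s, e, _⟩ := h; ⟨s, e⟩

theorem crit (N : Nx M M' R) (x : ℕ) (hx : ¬M.Cor R x) : M'.Crit x ↔ M.Crit x := by
  constructor
  · intro h y r a
    obtain ⟨u, r1, o⟩ := ow_ex hx r
    exact h u ((rg N x u hx).2 ⟨r1, o.1⟩) (ow_alt N o a).1
  · intro h u r a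
    obtain ⟨r1, c⟩ := (rg N x u hx).1 r
    obtain ⟨y, o, a1⟩ := alt_ow N c a
    exact h y (tr r1 o.rg) a1

theorem sad (N : Nx M M' R) (G : RegK M) (x : ℕ) (hx : ¬M.Cor R x) : M'.Sad x ↔ M.Sad x := by
  constructor
  · rintro ⟨u, v, r1, r2, ne, a1, a2, e⟩
    obtain ⟨r3, c1⟩ := (rg N x u hx).1 r1
    obtain ⟨r4, c2⟩ := (rg N x v hx).1 r2
    obtain ⟨y, o1, b1⟩ := alt_ow N c1 a1
    obtain ⟨z, o2, b2⟩ := alt_ow N c2 a2
    refine ⟨y, z, tr r3 o1.rg, tr r4 o2.rg, fun h => ne (ow_uniq G o1 (h ▸ o2)), b1, b2, ?_⟩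
    rw [(ow_alt N o1 b1).2.1, (ow_alt N o2 b2).2.1, e]
  · rintro ⟨y, z, r1, r2, ne, a1, a2, e⟩
    obtain ⟨u, r3, o1⟩ := ow_ex hx r1
    obtain ⟨v, r4, o2⟩ := ow_ex hx r2
    obtain ⟨b1, e1, q1⟩ := ow_alt N o1 a1
    obtain ⟨b2, e2, _⟩ := ow_alt N o2 a2
    exact ⟨u, v, (rg N x u hx).2 ⟨r3, o1.1⟩, (rg N x v hx).2 ⟨r4, o2.1⟩,
      fun h => ne (q1 z (h ▸ o2) a2).symm, b1, b2, by omega⟩

theorem kd_mod {i j a y : ℕ} (e : i % 4 = j % 4) (k : M.Kd i a y) : M.Kd j a y := by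
  obtain ⟨u, p, s, t⟩ := k
  refine ⟨u, (per_mod e).1 p, st_mod M e ▸ s, ?_⟩
  rw [← t]
  unfold Cm.ss sd pt
  rw [e, show (i + 1) % 4 = (j + 1) % 4 by omega, show (i + 3) % 4 = (j + 3) % 4 by omega]

theorem ncrit (K : WalkK M) (G : RegK M) (S : M.Rs R) {t a y : ℕ} (h : R t y)
    (k : M.Kd t a y) : ¬M.Crit (4 * y + a) := by
  intro c
  obtain ⟨t4, rn, _⟩ := S t y h
  obtain ⟨p, ha⟩ := K.kd_per t a y k
  obtain ⟨-, -, r⟩ := G.crit_kd y a (by omega) p.1 c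
  have all : ∀ u, M.Pa t y u → M.Kd t a u := fun u q => by
    have g : M.Rg (4 * y + a) (4 * u + a) := by
      rcases ha with ha | ha
      · exact (r u).1.2 ((pa_mod (by omega)).1 q)
      · exact (r u).2.2 ((pa_mod (by omega)).1 q)
    obtain ⟨k1, k2, -⟩ := G.crit_kd u a (by omega) ((K.pa_al _ _ _ q).2 p.1) ((G.crit _ _ g).1 c)
    rcases ha with ha | ha
    · exact kd_mod (by omega) k1
    · exact kd_mod (by omega) k2
  obtain ⟨-, ⟨u, u1, u2⟩, w, w1, w2⟩ := rn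
  have := K.kd_one _ _ _ _ u2 (all u u1)
  have := K.kd_one _ _ _ _ w2 (all w w1)
  omega

theorem cor (K : WalkK M) (G' : RegK M') (W : CutWK M M' R) (S : M.Rs R) {t a y : ℕ} (h : R t y)
    (k : M.Kd t a y) : M'.Crit (4 * y + a) ∧
      ∀ x, M'.Rg (4 * y + a) x ↔ x % 4 = a ∧ M.Pa t y (x / 4) ∧ M.Kd t a (x / 4) := by
  obtain ⟨_, _, w⟩ := W.twin t a y h k
  obtain ⟨p, ha⟩ := K.kd_per t a y k
  have c : M'.Crit (4 * y + a) := G'.kd_crit t a y fun u q =>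
    (W.twin t a u (rs_pa S h ((w u).1.1 q).1) ((w u).1.1 q).2).1
  obtain ⟨_, _, r⟩ := G'.crit_kd y a (by omega) ((W.al y).2 p.1) c
  have r' : ∀ u, M'.Rg (4 * y + a) (4 * u + a) ↔ M.Pa t y u ∧ M.Kd t a u := fun u => by
    rw [← (w u).1]
    rcases ha with ha | ha
    · rw [(r u).1]; exact pa_mod (by omega)
    · rw [(r u).2]; exact pa_mod (by omega)
  refine ⟨c, fun x => ⟨fun q => ?_, fun q => ?_⟩⟩
  · have e : x % 4 = a := by have := G'.crit_typ _ _ c q; omega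
    exact ⟨e, (r' _).1 (by rwa [show 4 * (x / 4) + a = x by omega])⟩
  · have := (r' _).2 q.2
    rwa [show 4 * (x / 4) + a = x by omega] at this

theorem ex (K : WalkK M) (G : RegK M) (P : M.Cutx M' R) (S : M.Rs R) (x : ℕ) :
    ∃ y, M.Rg x y ∧ ¬M.Cor R y := by
  by_contra hn
  have all : ∀ y, M.Rg x y → M.Cor R y := fun y r => by_contra fun c => hn ⟨y, r, c⟩
  obtain ⟨t0, h0, k0⟩ := all x ⟨0, rfl⟩
  have nc := ncrit K G S h0 k0
  rw [Nat.div_add_mod] at nc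
  obtain ⟨y, r, a⟩ : ∃ y, M.Rg x y ∧ M.Alt y := by
    by_contra h
    exact nc fun y r a => h ⟨y, r, a⟩
  obtain ⟨t, h, k⟩ := all y r
  obtain ⟨t', h', k'⟩ := all _ (tr r ⟨1, rfl⟩)
  change R t' (M.nr y / 4) at h'
  change M.Kd t' (M.nr y % 4) (M.nr y / 4) at k'
  obtain ⟨t4, _, hs⟩ := S _ _ h
  have t4' := (S _ _ h').1
  obtain ⟨p, ha⟩ := K.kd_per _ _ _ k
  unfold Cm.Alt at a
  rcases ha with ha | ha
  · have := ((K.kd_iff _ _ _).1 k).2.1
    rw [show pt (y / 4) (ep t (y % 4)) = r4 y by unfold pt ep r4; split_ifs <;> omega] at this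
    unfold Cm.nr at a
    omega
  · have e : M.nr y = pt (M.st t (y / 4)) (ep t (M.ss t (y / 4))) := by
      rw [← K.ent t _ p.1, show pt (y / 4) t = r4 y by unfold pt r4; omega]; rfl
    have kd : M.Kd t (M.ss t (y / 4)) (M.st t (y / 4)) := ⟨_, p, rfl, rfl⟩
    have bk := (K.back t _ p.1).2
    have sp := P.sep t _ _ hs kd
    rw [e, pt_div] at h'
    rw [e, pt_div, pt_mod] at k'
    rw [e, pt_mod] at a
    obtain ⟨p', hb⟩ := K.kd_per _ _ _ k'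
    have ty := ((K.kd_iff _ _ _).1 k').2.1
    generalize M.ss t (y / 4) = b at *
    have e1 : ep t b = (t + 1) % 4 := by unfold ep at *; split_ifs at * <;> omega
    rcases hb with hb | hb
    · exact sp ((show t' = ep t b by omega) ▸ h')
    · rw [show pt (M.st t (y / 4)) (ep t' (ep t b % 4)) = pt (M.st t (y / 4)) (ep t b) by
        rw [e1] at *; unfold pt ep; split_ifs <;> omega, bk, pt_mod] at ty
      omega

theorem prb (H : M.Ok) (K : WalkK M) (G : RegK M) (G' : RegK M') (W : CutWK M M' R)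
    (N : Nx M M' R) (S : M.Rs R) (p : ℕ) (h : ¬R (p % 4) (p / 4)) : M'.Prb p ↔ M.Prb p := by
  by_cases ha : M.al (p / 4)
  swap
  · exact ⟨fun k => absurd ((W.al _).1 k.1) ha, fun k => absurd k.1 ha⟩
  have ty := W.typ p h
  have pr := H.par p ha
  have key : ∀ x, x / 4 = p / 4 → (x % 4 = (p + 3) % 4 ∧ M.lk p % 4 = (p + 1) % 4 ∨
      x % 4 = p % 4 ∧ M.lk p % 4 = (p + 3) % 4) → ¬M.Cor R x := by
    rintro x e hx ⟨t, r, k⟩
    rw [e] at r k
    have t4 := (S _ _ r).1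
    have ne : t ≠ p % 4 := fun q => h (q ▸ r)
    obtain ⟨hb, ty, _⟩ := (K.kd_iff _ _ _).1 k
    rw [show pt (p / 4) (ep t (x % 4)) = p by unfold pt ep; split_ifs <;> omega] at ty
    omega
  rcases show M.lk p % 4 = (p + 1) % 4 ∨ M.lk p % 4 = (p + 3) % 4 by omega with e | e
  · rw [G.prb_up p e, G'.prb_up p (ty.trans e), W.al,
      sad N G _ (key (r3 p) (by unfold r3; omega) (Or.inl ⟨by unfold r3; omega, e⟩))]
  · rw [G.prb_dn p e, G'.prb_dn p (ty.trans e), W.al, sad N G _ (key p rfl (Or.inr ⟨rfl, e⟩))]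

end FCutR

open FCutR in
theorem fCutR : S_Walk → S_Reg → S_CutW → S_CutN → S_CutR := by
  intro hK hG hW hN M M' R H H' S X
  have K := hK M H
  have G := hG M H
  have G' := hG M' H'
  have W := hW M M' R H H' S X
  have N : Nx M M' R := hN M M' R H H' S X
  refine ⟨rg N, fun t a y h k => ⟨(cor K G' W S h k).1, ncrit K G S h k, (cor K G' W S h k).2⟩,
    ex K G X S, crit N, sad N G, prb H K G G' W N S, ?_⟩
  have nc : ∀ x, ¬M'.Crit x → ¬M.Cor R x := fun x c ⟨t, r, k⟩ => c (by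
    have := (cor K G' W S r k).1
    rwa [Nat.div_add_mod] at this)
  choose f f1 f2 using ex K G X S
  have i1 : ncl (4 * M.n) (fun x => M'.al (x / 4) ∧ ¬M'.Crit x) M'.Rg ≤
      ncl (4 * M.n) (fun x => M.al (x / 4) ∧ ¬M.Crit x) M.Rg :=
    Ct.ncl_le id (Ct.rg_eqv H' _) (Ct.rg_eqv H _)
      (fun x _ y _ u k => ⟨(G.al x y u).2 k.1, mt (G.crit x y u).2 k.2⟩)
      (fun x hx k => ⟨hx, (W.al _).1 k.1, mt (crit N x (nc x k.2)).2 k.2⟩)
      fun x _ y _ k k' u => (rg N x y (nc x k.2)).2 ⟨u, nc y k'.2⟩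
  have i2 : ncl (4 * M.n) (fun x => M.al (x / 4) ∧ ¬M.Crit x) M.Rg ≤
      ncl (4 * M.n) (fun x => M'.al (x / 4) ∧ ¬M'.Crit x) M'.Rg :=
    Ct.ncl_le f (Ct.rg_eqv H _) (Ct.rg_eqv H' _)
      (fun x _ y _ u k => ⟨(G'.al x y u).2 k.1, mt (G'.crit x y u).2 k.2⟩)
      (fun x _ k => by
        have a := (G.al x _ (f1 x)).2 k.1
        have := H.lt _ a
        exact ⟨by omega, (W.al _).2 a,
          mt (fun c => (G.crit x _ (f1 x)).2 ((crit N _ (f2 x)).1 c)) k.2⟩)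
      fun x _ y _ _ _ u => tr (f1 x) (tr ((rg N _ _ (f2 x)).1 u).1 (G.symm _ _ (f1 y)))
  unfold Cm.mu
  rw [X.n, le_antisymm i1 i2, show M'.al = M.al from funext fun c => propext (W.al c)]

end Pool.Agent.MP_1a6d78_lc.PG
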