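import Pool.Agent.MP_1a6d78_lc.PG.FSpec

/-! PROJECT PG, row CUTW: walks after a cut. -/

namespace Pool.Agent.MP_1a6d78_lc.PG

open Classical ED PR PL Relation Cm

noncomputable section

namespace FCutW

set_option linter.unusedSectionVars false

/-- Two maps with the same links along a walk have the same walk. -/
theorem agree {A B : Cm} {t v : ℕ} (h : ∀ y, A.Pa t v y → B.lk (pt y t) = A.lk (pt y t)) (s : ℕ) :
    B.wk t v s = A.wk t v s := by
  induction s with
  | zero => rfl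
  | succ s ih =>
    rw [wk_succ, wk_succ, ih]
    unfold Cm.st
    rw [h _ (Pa.wk _ _ _)]

theorem agree_pa {A B : Cm} {t v : ℕ} (h : ∀ y, A.Pa t v y → B.lk (pt y t) = A.lk (pt y t))
    (y : ℕ) : B.Pa t v y ↔ A.Pa t v y :=
  exists_congr fun s => by rw [agree h]

theorem agree_per {A B : Cm} {t v : ℕ} (h : ∀ y, A.Pa t v y → B.lk (pt y t) = A.lk (pt y t))
    (hv : B.al v) (k : A.Per t v) : B.Per t v := by
  obtain ⟨s, e⟩ := k.2
  exact ⟨hv, s, by rw [← wk_succ', agree h, wk_succ', e]⟩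

/-- Kinds are kept along a common cycle. -/
theorem agree_kd {A B : Cm} {t v a y : ℕ}
    (h : ∀ y, A.Pa t v y → B.lk (pt y t) = A.lk (pt y t)) (hal : ∀ c, A.al c → B.al c)
    (hy : A.Pa t v y) (k : A.Kd t a y) : B.Kd t a y := by
  obtain ⟨u, p, rfl, rfl⟩ := k
  have hu : A.Pa t v u := hy.trans p.2
  refine ⟨u, agree_per (fun w hw => h w (hu.trans hw)) (hal u p.1) p, ?_, ?_⟩
  · unfold Cm.st; rw [h u hu]
  · unfold ss; rw [h u hu]

/-- One walk follows the other up to the first port with `C`. -/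
theorem follow {A B : Cm} {C : ℕ → Prop} {i c y : ℕ}
    (h : ∀ u, ¬C u → B.lk (pt u i) = A.lk (pt u i)) (k : A.Pa i c y) :
    B.Pa i c y ∨ ∃ u, A.Pa i c u ∧ B.Pa i c u ∧ C u := by
  obtain ⟨s, rfl⟩ := k
  induction s with
  | zero => exact Or.inl (Pa.refl _ _)
  | succ s ih =>
    rcases ih with ih | ih
    · by_cases hc : C (A.wk i c s)
      · exact Or.inr ⟨_, Pa.wk _ _ _, ih, hc⟩
      · refine Or.inl (ih.trans ⟨1, ?_⟩)
        rw [A.wk_succ]
        show B.st i _ = _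
        unfold Cm.st
        rw [h _ hc]
    · exact Or.inr ih

variable {M M' : Cm} {R : ℕ → ℕ → Prop}

theorem clos (hR : M.Rs R) {t y u : ℕ} (h : R t y) (k : M.Pa t y u) : R t u := by
  obtain ⟨s, rfl⟩ := k
  induction s with
  | zero => exact h
  | succ s ih => rw [wk_succ]; exact (hR _ _ ih).2.2

/-- The changed ports. -/
def Chg (M : Cm) (R : ℕ → ℕ → Prop) (p : ℕ) : Prop :=
  ∃ t a, R t (p / 4) ∧ M.Kd t a (p / 4) ∧ (p % 4 = t ∨ p % 4 = ep t a)

section
variable (W : WalkK M) (W' : WalkK M') (h : M.Ok) (h' : M'.Ok) (hR : M.Rs R) (hC : M.Cutx M' R)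
include W hR hC

theorem nxt {t a y : ℕ} (r : R t y) (k : M.Kd t a y) :
    M'.st t y = M.FE t y a ∧ M'.ss t y = a ∧ M.Pa t y (M'.st t y) ∧ M.Kd t a (M'.st t y) := by
  have e := hC.ring t y a r k
  have e1 : M'.st t y = M.FE t y a := by unfold Cm.st; rw [e, pt_div]
  have f := W.fe_kd t y y a (W.kd_per _ _ _ k).1 (Pa.refl _ _) k
  refine ⟨e1, ?_, e1 ▸ f.2.1, e1 ▸ f.2.2⟩
  have ha := (W.kd_per _ _ _ k).2
  unfold ss sd
  rw [e, pt_mod]
  unfold ep
  split_ifs <;> omega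

theorem fwd {t a y u : ℕ} (r : R t y) (k : M.Kd t a y) (p : M'.Pa t y u) :
    M.Pa t y u ∧ M.Kd t a u := by
  obtain ⟨s, rfl⟩ := p
  induction s with
  | zero => exact ⟨Pa.refl _ _, k⟩
  | succ s ih =>
    rw [wk_succ]
    have n := nxt W hR hC (clos hR r ih.1) ih.2
    exact ⟨ih.1.trans n.2.2.1, n.2.2.2⟩

theorem bwd {t a : ℕ} (s : ℕ) : ∀ y, R t y → M.Kd t a y → M.Kd t a (M.wk t y s) →
    M'.Pa t y (M.wk t y s) := by
  induction s using Nat.strong_induction_on with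
  | _ s ih =>
    intro y r k ku
    cases s with
    | zero => exact Pa.refl _ _
    | succ s =>
      have py := (W.kd_per _ _ _ k).1
      have n := nxt W hR hC r k
      have hs : M.ss t (M.wk t y s) = a :=
        W.kd_one t _ _ _ ⟨_, (W.per_pa _ _ _ py (Pa.wk _ _ s)).1, (wk_succ _ _ _).symm, rfl⟩ ku
      obtain ⟨q, e, -, hq⟩ := W.fe_spec t y a (W.fe_kd t y y a py (Pa.refl _ _) k).1
      have hle : q ≤ s := not_lt.1 fun l => hq s l hs
      have e2 : M.wk t y (s + 1) = M.wk t (M'.st t y) (s - q) := by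
        rw [n.1, e, ← wk_add]; congr 1; omega
      rw [e2] at ku ⊢
      exact (Pa.step _ _).trans (ih _ (by omega) _ (clos hR r n.2.2.1) n.2.2.2 ku)

omit hR in
include h' in
theorem al_iff (c : ℕ) : M'.al c ↔ M.al c := by
  by_cases k : Chg M R (4 * c)
  · obtain ⟨t, a, r, k, -⟩ := k
    rw [show 4 * c / 4 = c by omega] at r k
    refine iff_of_true ?_ (W.kd_per _ _ _ k).1.1
    by_contra hn
    have e := (h'.fix (pt c t)).2 (by rw [pt_div]; exact hn)
    rw [hC.ring t c a r k] at e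
    have e2 := congrArg (· % 4) e
    simp only [pt_mod] at e2
    unfold ep at e2
    split_ifs at e2 <;> omega
  · unfold al
    rw [hC.off _ k]

include h' in
theorem per_t {t a y : ℕ} (r : R t y) (k : M.Kd t a y) : M'.Per t y := by
  have n := nxt W hR hC r k
  have py := (W.kd_per _ _ _ k).1
  obtain ⟨s, e⟩ := (W.per_pa _ _ _ py n.2.2.1).2
  refine ⟨(al_iff W h' hC y).2 py.1, ?_⟩
  have := bwd W hR hC s _ (clos hR r n.2.2.1) n.2.2.2 (by rw [e]; exact k)
  rwa [e] at this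

include h' in
/-- The previous cell of the same kind. -/
theorem prv {t a y : ℕ} (r : R t y) (k : M.Kd t a y) :
    ∃ u, M.Pa t y u ∧ M.Kd t a u ∧ M'.st t u = y := by
  obtain ⟨b, u, p, e, -⟩ := (per_t W h' hR hC r k).kd h'
  have q : M'.Pa t y u := e ▸ p.2
  exact ⟨u, (fwd W hR hC r k q).1, (fwd W hR hC r k q).2, e⟩

theorem rev {t a y : ℕ} (r : R t y) (k : M.Kd t a y) :
    M'.lk (pt (M'.st t y) (ep t a)) = pt y t := by
  rw [(nxt W hR hC r k).1, ← hC.ring t y a r k, hC.inv]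

theorem rev_st {t a y : ℕ} (r : R t y) (k : M.Kd t a y) :
    M'.st (ep t a) (M'.st t y) = y ∧ M'.ss (ep t a) (M'.st t y) = a := by
  have e := rev W hR hC r k
  have ha := (W.kd_per _ _ _ k).2
  constructor
  · show M'.lk _ / 4 = y
    rw [e, pt_div]
  · show sd _ (M'.lk _) = a
    rw [e]
    unfold sd
    rw [pt_mod]
    unfold ep
    split_ifs <;> omega

include h' in
theorem pa_j {t a y : ℕ} (r : R t y) (k : M.Kd t a y) (u : ℕ) :
    M'.Pa (ep t a) y u ↔ M.Pa t y u ∧ M.Kd t a u := by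
  constructor
  · rintro ⟨s, rfl⟩
    induction s with
    | zero => exact ⟨Pa.refl _ _, k⟩
    | succ s ih =>
      obtain ⟨w, p, kw, e⟩ := prv W h' hR hC (clos hR r ih.1) ih.2
      rw [wk_succ, ← e, (rev_st W hR hC (clos hR r (ih.1.trans p)) kw).1]
      exact ⟨ih.1.trans p, kw⟩
  · rintro ⟨p, ku⟩
    have ru := clos hR r p
    obtain ⟨s, e⟩ := (W.per_pa _ _ _ (W.kd_per _ _ _ k).1 p).2
    obtain ⟨q, e2⟩ := bwd W hR hC s u ru ku (by rw [e]; exact k)
    rw [← e, ← e2]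
    clear e2
    induction q with
    | zero => exact Pa.refl _ _
    | succ q ih =>
      have f := fwd W hR hC ru ku (Pa.wk t u q)
      refine Pa.trans ⟨1, ?_⟩ ih
      rw [M'.wk_succ t u q]
      exact (rev_st W hR hC (clos hR ru f.1) f.2).1

include h' in
theorem twin {t a y : ℕ} (r : R t y) (k : M.Kd t a y) : M'.Kd t a y ∧ M'.Kd (ep t a) a y ∧
    ∀ u, (M'.Pa t y u ↔ M.Pa t y u ∧ M.Kd t a u) ∧
      (M'.Pa (ep t a) y u ↔ M.Pa t y u ∧ M.Kd t a u) := by
  refine ⟨?_, ?_, fun u => ⟨⟨fwd W hR hC r k, ?_⟩, pa_j W h' hR hC r k u⟩⟩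
  · obtain ⟨w, p, kw, e⟩ := prv W h' hR hC r k
    exact ⟨w, per_t W h' hR hC (clos hR r p) kw, e, (nxt W hR hC (clos hR r p) kw).2.1⟩
  · have n := nxt W hR hC r k
    have v := rev_st W hR hC r k
    refine ⟨M'.st t y, ⟨h'.al_st t (per_t W h' hR hC r k).1, ?_⟩, v.1, v.2⟩
    rw [v.1]
    exact (pa_j W h' hR hC r k _).2 n.2.2
  · rintro ⟨⟨s, rfl⟩, ku⟩
    exact bwd W hR hC s y r k ku

omit hC in
include h in
/-- A changed port is on its ring. -/
theorem chg_on {p t a : ℕ} (k : M.Kd t a (p / 4)) (e : p % 4 = t ∨ p % 4 = ep t a)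
    (r : R t (p / 4)) : M.On t (p / 4) p := by
  have ht := (hR _ _ r).1
  rcases e with e | e
  · exact Or.inl ⟨by omega, Pa.refl _ _⟩
  · have e1 : pt (p / 4) (ep t a) = p := by rw [← e]; unfold pt; omega
    have k1 := ((W.kd_iff _ _ _).1 k).2
    rw [e1] at k1
    refine Or.inr ⟨k1.1, ?_⟩
    have e2 : M.st t (M.lk p / 4) = p / 4 := by
      unfold Cm.st
      rw [show pt (M.lk p / 4) t = M.lk p by have := k1.1; unfold pt; omega, h.inv]
    rw [← e2]
    exact k1.2.2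

end

end FCutW

open FCutW in
theorem fCutW : S_Walk → S_CutW := by
  intro hW M M' R h h' hR hC
  have W := hW M h
  have W' := hW M' h'
  have hal := al_iff W h' hC
  have hoff : ∀ i u, (¬∃ t a, R t u ∧ M.Kd t a u ∧ (i % 4 = t ∨ i % 4 = ep t a)) →
      M'.lk (pt u i) = M.lk (pt u i) := fun i u k => hC.off _ (by rwa [pt_div, pt_mod])
  refine ⟨hal, fun t ht v hv hn => ?_, fun t ht v hv => ?_, fun t a y r k => twin W h' hR hC r k,
    fun p hp => ?_, fun i c y k => ?_, fun i c y k => ?_⟩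
  · have on : ∀ p, M.On t v p → M'.lk p = M.lk p := by
      refine fun p hp => hC.off p ?_
      rintro ⟨t', a, r, k, e⟩
      have t4 := (hR _ _ r).1
      have pk := (W.kd_per _ _ _ k).1
      rcases hp with ⟨p1, p2⟩ | ⟨p1, p2⟩ <;> rcases e with e | e
      · obtain rfl : t' = t := by omega
        exact hn.1 (clos hR r (W.per_pa _ _ _ hv.1 p2).2)
      · exact hn.2 _ t' a p2 r k (by omega)
      · have e1 : pt (p / 4) t' = p := by unfold pt; omega
        have l := W.ent t' _ pk.1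
        have s : M.st t' (p / 4) = M.lk p / 4 := by rw [Cm.st, e1]
        rw [e1] at l
        refine hn.2 _ t' (M.ss t' (p / 4)) p2 (s ▸ (hR _ _ r).2.2) ⟨_, pk, s, rfl⟩ ?_
        rw [l, pt_mod] at p1
        unfold ep at p1 ⊢
        split_ifs at p1 ⊢ <;> omega
      · have e1 : pt (p / 4) (ep t' a) = p := by rw [← e]; unfold pt; omega
        have k1 := ((W.kd_iff _ _ _).1 k).2
        rw [e1] at k1
        obtain rfl : t' = t := by have := k1.1; omega
        rcases chg_on W h hR k (Or.inr e) r with o | o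
        · have := o.1
          unfold ep at e
          split_ifs at e <;> omega
        · exact hn.1 (clos hR r (o.2.trans (W.per_pa _ _ _ hv.1 p2).2))
    have ag : ∀ y, M.Pa t v y → M'.lk (pt y t) = M.lk (pt y t) := fun y hy =>
      on _ (Or.inl ⟨pt_mod _ _, by rwa [pt_div]⟩)
    have kd : ∀ a y, M.Pa t v y → M.Kd t a y → M'.Kd t a y := fun a y hy k =>
      agree_kd ag (fun c => (hal c).2) hy k
    obtain ⟨pv, ⟨y1, p1, k1⟩, y2, p2, k2⟩ := hv
    refine ⟨⟨agree_per ag ((hal v).2 pv.1) pv, ⟨y1, (agree_pa ag _).2 p1, kd _ _ p1 k1⟩,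
      y2, (agree_pa ag _).2 p2, kd _ _ p2 k2⟩, on, agree_pa ag,
      fun a => ⟨fun k => ?_, kd a v (Pa.refl _ _)⟩, fun a => ?_⟩
    · obtain ⟨b, kb⟩ := pv.kd h
      rwa [W'.kd_one t a b v k (kd b v (Pa.refl _ _) kb)]
    · have hs : ∀ s, M'.ss t (M.wk t v s) = M.ss t (M.wk t v s) := fun s => by
        unfold ss; rw [ag _ (Pa.wk _ _ _)]
      unfold FE
      simp only [hal, hC.n, agree ag, hs]
  · obtain ⟨pv, ⟨y1, p1, k1⟩, y2, p2, k2⟩ := hv
    have nc : ∀ y, M'.Pa t v y → ¬∃ t' a, R t' y ∧ M.Kd t' a y ∧ (t % 4 = t' ∨ t % 4 = ep t' a) := by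
      rintro y hy ⟨t', a, r, k, e⟩
      have hb := (W'.per_pa _ _ _ pv hy).2
      have one : ∀ u, M'.Pa t y u → M'.Kd t a u := by
        intro u hu
        rw [Nat.mod_eq_of_lt ht] at e
        rcases e with rfl | rfl
        · have f := ((twin W h' hR hC r k).2.2 u).1.1 hu
          exact (twin W h' hR hC (clos hR r f.1) f.2).1
        · have f := ((twin W h' hR hC r k).2.2 u).2.1 hu
          exact (twin W h' hR hC (clos hR r f.1) f.2).2.1
      have e1 := W'.kd_one _ _ _ _ k1 (one _ (hb.trans p1))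
      have e2 := W'.kd_one _ _ _ _ k2 (one _ (hb.trans p2))
      omega
    have ag : ∀ y, M'.Pa t v y → M.lk (pt y t) = M'.lk (pt y t) := fun y hy =>
      (hoff t y (nc y hy)).symm
    have pv' := agree_per ag ((hal v).1 pv.1) pv
    refine ⟨⟨pv', ⟨y1, (agree_pa ag _).2 p1, agree_kd ag (fun c => (hal c).1) p1 k1⟩,
      y2, (agree_pa ag _).2 p2, agree_kd ag (fun c => (hal c).1) p2 k2⟩, fun r => ?_,
      fun y t' a p r k e => nc y ((agree_pa ag _).1 p) ⟨t', a, r, k, Or.inr (by omega)⟩⟩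
    obtain ⟨a, k⟩ := pv'.kd h
    exact nc v (Pa.refl _ _) ⟨t, a, r, k, Or.inl (Nat.mod_eq_of_lt ht)⟩
  · by_cases c : Chg M R p
    · obtain ⟨t, a, r, k, e | e⟩ := c
      · exact absurd (e ▸ r) hp
      · have e1 : pt (p / 4) (ep t a) = p := by rw [← e]; unfold pt; omega
        obtain ⟨w, q, kw, ew⟩ := prv W h' hR hC r k
        have v := rev W hR hC (clos hR r q) kw
        have k1 := ((W.kd_iff _ _ _).1 k).2.1
        rw [ew, e1] at v
        rw [e1] at k1
        rw [v, pt_mod, k1]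
    · rw [hC.off p c]
  · rcases follow (B := M) (fun u hu => (hoff i u hu).symm) k with q | ⟨u, q1, q2, t, a, q⟩
    · exact Or.inl q
    · exact Or.inr ⟨u, t, a, q2, q1, q⟩
  · rcases follow (B := M') (hoff i) k with q | ⟨u, q1, q2, t, a, q⟩
    · exact Or.inl q
    · exact Or.inr ⟨u, t, a, q1, q2, q⟩

end

end Pool.Agent.MP_1a6d78_lc.PG
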