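import Pool.Agent.MP_1a6d78_lc.PG.FSpec

/-! PROJECT PG: row OM. -/

namespace Pool.Agent.MP_1a6d78_lc.PG

open Classical ED PR PL Relation Cm

namespace FOm

variable {M : Cm}

theorem pa_ind {i a b : ℕ} {Q : ℕ → Prop} (h : M.Pa i a b) (h0 : Q a)
    (hs : ∀ c, Q c → Q (M.st i c)) : Q b := by
  obtain ⟨t, rfl⟩ := h
  exact iter_inv hs h0 t

theorem run_pa {i s a b : ℕ} (h : M.Run i s a b) : M.Pa i a b := by
  induction h with
  | refl => exact Pa.refl _ _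
  | tail _ k ih => exact ih.trans (k.1 ▸ Pa.step _ _)

theorem st_of {p c q : ℕ} (H : M.Ok) (e : M.lk p = pt c q) : M.st q c = p / 4 := by
  unfold Cm.st
  rw [← e, H.inv]

end FOm

open FOm

theorem fOm (hW : S_Walk) (hR : S_Reg) (hX : S_CutEx) (hC : S_CutW) (hCR : S_CutR) (hB : S_Bas) :
    S_Om := by
  intro M H v hv hA nx
  have K := hW M H
  have G := hR M H
  have rv : M.Rng 0 v := (K.ring v).1 hv
  obtain ⟨rs, N, H', X⟩ := (hX M H).2 0 (by omega) v rv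
  have K' := hW N H'
  have G' := hR N H'
  have W := hC M N _ H H' rs X
  have C := hCR M N _ H H' rs X
  have rc : ∀ a y, M.Rc v a y ↔ M.Kd 0 a y ∧ M.Pa 0 v y := fun a y =>
    and_congr_right fun k => ⟨fun c => (K.per_pa _ _ _ (K.kd_per _ _ _ k).1
      ((K.co_per _ _ _ rv.1).1 c)).2, fun c => c.co.symm⟩
  have kind : ∀ {i u t a : ℕ}, M.One 0 v t u → M.Kd t a u → (i % 4 = t ∨ i % 4 = ep t a) →
      (i = 1 → M.Rc v 0 u) ∧ (i = 3 → M.Rc v 3 u) := by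
    rintro i u t a ⟨rfl, p⟩ k e
    rcases (K.kd_per _ _ _ k).2 with rfl | rfl
    · exact ⟨fun _ => (rc _ _).2 ⟨k, p⟩, fun i3 => by subst i3; exact absurd e (by decide)⟩
    · exact ⟨fun i1 => by subst i1; exact absurd e (by decide), fun _ => (rc _ _).2 ⟨k, p⟩⟩
  have tw : ∀ a y, M.Rc v a y → N.Kd (ep 0 a) a y ∧ ∀ u, N.Pa (ep 0 a) y u ↔ M.Rc v a u :=
    fun a y r => by
    rw [rc] at r
    obtain ⟨-, t1, t2⟩ := W.twin 0 a y ⟨rfl, r.2⟩ r.1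
    refine ⟨t1, fun u => ?_⟩
    rw [(t2 u).2, rc]
    exact ⟨fun k => ⟨k.2, r.2.trans k.1⟩, fun k =>
      ⟨(K.per_pa _ _ _ rv.1 r.2).2.trans k.2, k.1⟩⟩
  obtain ⟨B, hBd⟩ : ∃ B : ℕ → Prop, ∀ c, B c ↔ N.Co 1 c (M.FE 0 v 3) := ⟨_, fun _ => Iff.rfl⟩
  have B1 : ∀ c, B (N.st 1 c) ↔ B c := fun c => by rw [hBd, hBd]; exact Ct.co_st
  have no : ∀ c, B c → ∀ u, N.Pa 1 c u → ¬M.Rc v 0 u := fun c b u p r => by
    obtain ⟨w, w1, w2⟩ := p.co.symm.trans ((hBd c).1 b)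
    have rw' := ((tw 0 u r).2 w).1 w1
    rcases W.walk 1 _ w w2 with q | ⟨x, t, a, q, -, x1, x2, x3⟩
    · exact nx w q rw'
    · exact nx x q ((kind x1 x2 x3).1 rfl)
  have mp : ∀ c, B c → ∀ u, N.Pa 1 c u ↔ M.Pa 1 c u := fun c b u => by
    constructor
    · intro p
      rcases W.walk 1 c u p with q | ⟨x, t, a, -, q, x1, x2, x3⟩
      · exact q
      · exact absurd ((kind x1 x2 x3).1 rfl) (no c b x q)
    · intro p
      rcases W.walk' 1 c u p with q | ⟨x, t, a, -, q, x1, x2, x3⟩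
      · exact q
      · exact absurd ((kind x1 x2 x3).1 rfl) (no c b x q)
  have b0 : B (M.FE 0 v 3) := (hBd _).2 (Co.refl _ _)
  have fin : ∀ c, B c → M.Co 1 c (M.FE 0 v 3) ∧ ∀ u, M.Pa 1 c u → ¬M.Rc v 0 u := fun c b =>
    ⟨let ⟨w, w1, w2⟩ := (hBd c).1 b; ⟨w, (mp c b w).1 w1, (mp _ b0 w).1 w2⟩,
      fun u p => no c b u ((mp c b u).2 p)⟩
  have use : ∀ p, p % 2 = 0 → M.Prb p → B (p / 4) → M.One 0 v (p % 4) (p / 4) := fun p e k b => by
    rcases hA p ⟨k, e, (fin _ b).1⟩ with u | ⟨y, u1, u2⟩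
    · exact ⟨u.1, (K.per_pa _ _ _ u.2.1 ((K.co_per _ _ _ rv.1).1 u.2.2)).2⟩
    · exact absurd u2 ((fin _ b).2 y u1)
  have inn : ∀ c, B c → M.Pa 0 v c → M.Rc v 3 c := fun c b p =>
    (rc _ _).2 ⟨(K.kd_ex 0 c (K.per_pa _ _ _ rv.1 p).1).resolve_left fun k =>
      (fin c b).2 c (Pa.refl _ _) ((rc _ _).2 ⟨k, p⟩), p⟩
  have e2 : ∀ c, B c → ¬N.Prb (pt c 2) := fun c b k => by
    have nr : ¬M.One 0 v (pt c 2 % 4) (pt c 2 / 4) := fun r => by
      have := r.1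
      rw [pt_mod] at this
      omega
    exact nr (use _ (by unfold pt; omega) ((C.prb _ nr).1 k) (by rwa [pt_div]))
  have e0 : ∀ c, B c → ¬N.Prb (pt c 0) := fun c b k => by
    by_cases r : M.One 0 v (pt c 0 % 4) (pt c 0 / 4)
    swap
    · exact r (use _ (by unfold pt; omega) ((C.prb _ r).1 k) (by rwa [pt_div]))
    have p := r.2
    rw [pt_div] at p
    have cf : N.Cfg 1 3 c (M.FE 0 c 3) :=
      ⟨(W.al c).2 (K.per_pa _ _ _ rv.1 p).1.1, X.ring 0 c 3 ⟨rfl, p⟩ (inn c b p).1⟩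
    obtain ⟨⟨h, fh⟩, u, lu⟩ := G'.run 1 3 c _ (Or.inr rfl) cf
    obtain ⟨i1, i2, -⟩ := G'.flow 1 3 c _ h u (Or.inr rfl) cf fh lu
    obtain ⟨r, r1, r2⟩ := fh
    have e : N.st 1 r = h := by unfold Cm.st; rw [r2, pt_div]
    exact e2 h (e ▸ (B1 r).2 (pa_ind (run_pa r1) b fun c u => (B1 c).2 u)) (i2.1 (i1.2 k))
  have ev : ∀ p, p % 2 = 0 → B (p / 4) → ¬N.Prb p := fun p e b => by
    rcases (by omega : p % 4 = 0 ∨ p % 4 = 2) with u | u
    · have := e0 _ b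
      rwa [show pt (p / 4) 0 = p by unfold pt; omega] at this
    · have := e2 _ b
      rwa [show pt (p / 4) 2 = p by unfold pt; omega] at this
  have key : ∀ b y, N.Pa 3 b y → M.Rc v 3 y → (B (N.st 3 b) ↔ B b) := by
    intro b y p r
    by_contra ne
    have ab : N.al b := (K'.pa_al _ _ _ p).1 (K'.kd_per _ _ _ (tw 3 y r).1).1.1
    have kb : ∀ u a, N.Pa 3 b u → N.Per 3 b → N.Kd 3 a u → a = 3 := fun u a q pb k =>
      K'.kd_one _ _ _ _ k (tw 3 u (((tw 3 y r).2 u).1 ((K'.per_pa _ _ _ pb p).2.trans q))).1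
    obtain ⟨e, he, cf, nk⟩ : ∃ e, (e = 1 ∨ e = 3) ∧ N.Cfg 1 e (N.st 3 b) b ∧
        ¬N.Kd (1 + 2) (sd (1 + 2) (1 + e + 2)) b := by
      have k := (K'.back 3 b ab).2
      have a := (K'.st_al 3 b).2 ab
      rcases ss_cases (M := N) 3 b with s | s <;> rw [s] at k
      · exact ⟨3, Or.inr rfl, ⟨a, k⟩, fun q => absurd
          (kb b _ (Pa.refl _ _) (K'.kd_per _ _ _ q).1 q) (by decide)⟩
      · refine ⟨1, Or.inl rfl, ⟨a, k⟩, fun q => ?_⟩
        have pb := (K'.kd_per _ _ _ q).1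
        have := kb _ _ (Pa.step 3 b) pb ⟨b, pb, rfl, rfl⟩
        omega
    obtain ⟨e', a', b', h, u, he', -, -, -, -, nb, ph, pu⟩ := hB N H' B 1 e _ b he B1 cf nk ne
    exact nb (iff_of_false
      (fun k => ev _ (by unfold pt; omega) (by rwa [pt_div]) ph)
      fun k => ev _ (by unfold pt; omega) (by rwa [pt_div]) pu)
  have wB : ∀ c y, N.Pa 3 c y → M.Rc v 3 y → B y → B c := by
    rintro c y ⟨t, p⟩ r b
    induction t generalizing c with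
    | zero => exact (show c = y from p) ▸ b
    | succ t ih => exact (key c y ⟨_, p⟩ r).1 (ih _ p)
  have r0 : M.Rc v 3 (M.FE 0 v 3) := by
    obtain ⟨y, p, k⟩ := rv.2.2
    obtain ⟨-, p0, k0⟩ := K.fe_kd 0 v y _ rv.1 p k
    exact (rc _ _).2 ⟨k0, p0⟩
  have iB : ∀ y, M.Rc v 3 y → B y := fun y r => wB y _ (((tw 3 y r).2 _).2 r0) r0 b0
  have uB : ∀ c y, M.Pa 3 c y → M.Rc v 3 y → B c := fun c y p r => by
    rcases W.walk' 3 c y p with q | ⟨x, t, a, -, q, x1, x2, x3⟩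
    · exact wB c y q r (iB y r)
    · have := (kind x1 x2 x3).2 rfl
      exact wB c x q this (iB x this)
  have rB : ∀ x, M.Pa 0 v x → M.Co 1 x (M.FE 0 v 3) := fun x px => by
    have p0 := ((rc _ _).1 r0).2
    have p1 : M.Pa 0 (M.FE 0 v 3) x := (K.per_pa _ _ _ rv.1 p0).2.trans px
    refine (pa_ind (Q := fun x => M.Pa 0 v x ∧ M.Co 1 x (M.FE 0 v 3)) p1 ⟨p0, Co.refl _ _⟩
      fun c u => ?_).2
    have pc := K.per_pa _ _ _ rv.1 u.1
    have p2 := u.1.trans (Pa.step 0 c)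
    refine ⟨p2, ?_⟩
    have bk := (K.back 0 c pc.1.1).1
    have kd : M.Kd 0 (M.ss 0 c) (M.st 0 c) := ⟨c, pc.1, rfl, rfl⟩
    rcases ss_cases (M := M) 0 c with s | s <;> rw [s] at bk kd
    · exact Ct.co_st.1 (by change M.st 1 _ = c at bk; rw [bk]; exact u.2)
    · exact (fin _ (iB _ ((rc _ _).2 ⟨kd, p2⟩))).1
  have f3 : ∀ y, M.Rc v 3 y → ¬M.Prb (4 * y + 3) := fun y r k => by
    have k' : N.Prb (4 * y + 3) := (C.prb _ fun u => by have := u.1; omega).2 k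
    have := H'.par _ k'.1
    exact ev (N.lk (4 * y + 3)) (by omega) ((key y y (Pa.refl _ _) r).2 (iB y r))
      ((G'.prb_lk _).2 k')
  refine ⟨fun c y p r => fin c (uB c y p r), fun y r => rB y ((rc _ _).1 r).2, f3,
    fun p y k e p3 r => ?_⟩
  have b := uB _ y p3 r
  obtain ⟨q0, pv⟩ := use p e k b
  refine ⟨q0, inn _ b pv, ?_⟩
  have e0 : pt (p / 4) 0 = p := by unfold pt; omega
  have pc := (K.per_pa _ _ _ rv.1 pv).1
  have l := K.ent 0 _ pc.1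
  have kd : M.Kd 0 (M.ss 0 (p / 4)) (M.st 0 (p / 4)) := ⟨_, pc, rfl, rfl⟩
  have p2 := pv.trans (Pa.step 0 _)
  have s4 : M.st 0 (p / 4) = M.lk p / 4 := by unfold Cm.st; rw [e0]
  rw [e0] at l
  rw [← s4]
  rcases ss_cases (M := M) 0 (p / 4) with s | s <;> rw [s] at l kd
  · exact (rc _ _).2 ⟨kd, p2⟩
  · refine absurd ((G.prb_lk p).2 k) ?_
    rw [l]
    exact f3 _ ((rc _ _).2 ⟨kd, p2⟩)

end Pool.Agent.MP_1a6d78_lc.PG
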