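import Pool.Agent.MP_1a6d78_lc.PG.FSpec

/-! PROJECT PG, row REG. -/

namespace Pool.Agent.MP_1a6d78_lc.PG

open Cm Ct PR Relation

namespace FReg

variable {M : Cm} {x y z p q c i j a b e h u r s : ℕ}

theorem ptc (c : ℕ) (e : p % 4 = q % 4) : pt c p = pt c q := by unfold pt; omega

theorem nr_pt (c : ℕ) (e : p % 4 = (q + 1) % 4) : M.nr (pt c q) = M.lk (pt c p) := by
  unfold Cm.nr
  congr 1
  unfold r4 pt
  omega

theorem nr_r3 (p : ℕ) : M.nr (r3 p) = M.lk p := by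
  unfold Cm.nr
  congr 1
  unfold r4 r3
  omega

theorem fw (p : ℕ) : M.Rg (r3 p) (M.lk p) := nr_r3 p ▸ rg_nr M (r3 p)

theorem bw (H : M.Ok) (p : ℕ) : M.Rg (r3 (M.lk p)) p := by
  have := fw (M := M) (M.lk p)
  rwa [H.inv] at this

theorem prb_lk (H : M.Ok) (p : ℕ) : M.Prb (M.lk p) ↔ M.Prb p := by
  have a1 : M.al (M.lk p / 4) ↔ M.al (p / 4) :=
    ⟨fun k => by have := H.al_lk k; rwa [H.inv] at this, H.al_lk⟩
  unfold Cm.Prb
  rw [a1]
  refine and_congr_right fun k => ?_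
  have := H.par p k
  rw [show M.lo (M.lk p) = M.lo p by
    unfold Cm.lo
    rw [H.inv]
    split_ifs <;> omega]

theorem prb_up (e : M.lk p % 4 = (p + 1) % 4) : M.Prb p ↔ M.al (p / 4) ∧ M.Sad (r3 p) := by
  rw [Cm.Prb, Cm.lo, if_pos e]

theorem prb_dn (H : M.Ok) (e : M.lk p % 4 = (p + 3) % 4) : M.Prb p ↔ M.al (p / 4) ∧ M.Sad p := by
  rw [Cm.Prb, Cm.lo, if_neg (by omega), sad_rg H (bw H p)]

/-- A piece of a region without alternation. -/
def NA (M : Cm) : ℕ → ℕ → Prop := ReflTransGen fun x y => y = M.nr x ∧ ¬M.Alt x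

theorem NA.rg (k : NA M x y) : M.Rg x y ∧ y % 4 = x % 4 := by
  induction k with
  | refl => exact ⟨rg_refl _ _, rfl⟩
  | tail _ w ih =>
    obtain ⟨rfl, w⟩ := w
    exact ⟨rg_trans ih.1 (rg_nr _ _), (not_not.1 w).trans ih.2⟩

theorem first (k : M.Rg x y) (w : M.Alt y) : ∃ z, NA M x z ∧ M.Alt z := by
  obtain ⟨t, rfl⟩ := k
  induction t generalizing x with
  | zero => exact ⟨x, .refl, w⟩
  | succ t ih =>
    by_cases v : M.Alt x
    · exact ⟨x, .refl, v⟩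
    · obtain ⟨z, k1, k2⟩ := ih (x := M.nr x) w
      exact ⟨z, .head ⟨rfl, v⟩ k1, k2⟩

theorem NA.inj (H : M.Ok) (w : M.Alt x) (w' : M.Alt y) (k : NA M (M.nr x) z)
    (k' : NA M (M.nr y) z) : x = y := by
  induction k with
  | refl =>
    rcases k'.cases_tail with e | ⟨d, -, e, v⟩
    · exact nr_inj H e
    · exact absurd (nr_inj H e ▸ w) v
  | tail k1 k2 ih =>
    obtain ⟨rfl, k2⟩ := k2
    rcases k'.cases_tail with e | ⟨d, k3, e, v⟩
    · exact absurd (nr_inj H e ▸ w') k2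
    · exact ih (nr_inj H e ▸ k3)

theorem next (H : M.Ok) (k : M.al (y / 4)) (w : M.Alt y) :
    ∃ z, NA M (M.nr y) z ∧ M.Alt z ∧ M.Rg y z ∧ z % 4 = (y + 2) % 4 :=
  let ⟨z, k1, k2⟩ := first (rg_back H y) w
  ⟨z, k1, k2, rg_trans (rg_nr _ _) k1.rg.1, k1.rg.2.trans (alt_mod H k w)⟩

theorem alt (H : M.Ok) (k : M.al (x / 4)) (w : ¬M.Crit x) (e : q % 2 = x % 2) :
    ∃ y, M.Rg x y ∧ M.Alt y ∧ y % 4 = q % 4 := by
  obtain ⟨y, k1, k2⟩ : ∃ y, M.Rg x y ∧ M.Alt y := by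
    by_contra v
    exact w fun y k1 k2 => v ⟨y, k1, k2⟩
  have := rg_par H k1 k
  by_cases v : y % 4 = q % 4
  · exact ⟨y, k1, k2, v⟩
  · obtain ⟨z, -, k3, k4, k5⟩ := next H ((rg_al H k1).2 k) k2
    exact ⟨z, rg_trans k1 k4, k3, by omega⟩

theorem sad2 (H : M.Ok) (k : M.al (x / 4)) (w : M.Sad x) (e : q % 2 = x % 2) :
    ∃ y y', M.Rg x y ∧ M.Rg x y' ∧ y ≠ y' ∧ M.Alt y ∧ M.Alt y' ∧ y % 4 = q % 4 ∧
      y' % 4 = q % 4 := by
  obtain ⟨y, y', k1, k2, k3, k4, k5, k6⟩ := w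
  have := rg_par H k1 k
  by_cases v : y % 4 = q % 4
  · exact ⟨y, y', k1, k2, k3, k4, k5, v, k6 ▸ v⟩
  · obtain ⟨z, l1, l2, l3, l4⟩ := next H ((rg_al H k1).2 k) k4
    obtain ⟨z', m1, m2, m3, m4⟩ := next H ((rg_al H k2).2 k) k5
    exact ⟨z, z', rg_trans k1 l3, rg_trans k2 m3, fun v => k3 (NA.inj H k4 k5 l1 (v ▸ m1)), l2, m2,
      by omega, by omega⟩

/-- A region with two alternations of different types. -/
theorem two (k : NA M (M.nr x) y) (k' : NA M (M.nr y) x) (e : x % 4 ≠ y % 4) : ¬M.Sad x := by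
  have key : ∀ d, M.Rg x d → M.Alt d → d = x ∨ d = y := fun d w v => by
    have := rg_ind (Q := fun d => NA M d x ∨ NA M d y) w (Or.inl .refl) fun d w => by
      rcases w with w | w <;> rcases w.cases_head with rfl | ⟨_, ⟨rfl, -⟩, w⟩
      exacts [Or.inr k, Or.inl w, Or.inl k', Or.inr w]
    exact this.imp (fun w => w.cases_head.resolve_right fun ⟨_, w, _⟩ => w.2 v)
      fun w => w.cases_head.resolve_right fun ⟨_, w, _⟩ => w.2 v
  rintro ⟨d, d', k1, k2, k3, k4, k5, k6⟩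
  rcases key d k1 k4 with rfl | rfl <;> rcases key d' k2 k5 with rfl | rfl <;> omega

theorem crit_kd (H : M.Ok) (ha : a < 4) (hc : M.al c) (k : M.Crit (4 * c + a)) :
    M.Kd a a c ∧ M.Kd (a + 1) a c ∧ ∀ y, (M.Rg (4 * c + a) (4 * y + a) ↔ M.Pa a c y) ∧
      (M.Rg (4 * c + a) (4 * y + a) ↔ M.Pa (a + 1) c y) := by
  have ty : ∀ d, M.Rg (4 * c + a) d → pt (d / 4) a = d ∧ pt (d / 4) (a + 1) = r4 d := fun d w => by
    have := crit_mod k w
    unfold pt r4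
    omega
  have s1 : ∀ d, M.Rg (4 * c + a) d → M.st (a + 1) (d / 4) = M.nr d / 4 := fun d w => by
    rw [Cm.st, (ty d w).2, Cm.nr]
  have s0 : ∀ d, M.Rg (4 * c + a) d → M.st a (M.nr d / 4) = d / 4 := fun d w => by
    rw [Cm.st, (ty _ (rg_trans w (rg_nr _ _))).1, Cm.nr, H.inv, r4_div]
  have e0 : (4 * c + a) / 4 = c := by omega
  have p1 : ∀ d, M.Rg (4 * c + a) d → M.Pa (a + 1) c (d / 4) := fun d w =>
    (rg_ind (Q := fun d => M.Rg (4 * c + a) d ∧ M.Pa (a + 1) c (d / 4)) w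
      ⟨rg_refl _ _, e0.symm ▸ Pa.refl _ _⟩ fun d w =>
        ⟨rg_trans w.1 (rg_nr _ _), w.2.trans (s1 d w.1 ▸ Pa.step _ _)⟩).2
  have p0 : ∀ d, M.Rg (4 * c + a) d → M.Pa a c (d / 4) := fun d w =>
    e0 ▸ (rg_ind (Q := fun f => M.Rg (4 * c + a) f ∧ M.Pa a (f / 4) (d / 4)) (rg_symm H w)
      ⟨w, Pa.refl _ _⟩ fun f w =>
        ⟨rg_trans w.1 (rg_nr _ _), (Pa.step _ _).trans ((s0 f w.1).symm ▸ w.2)⟩).2
  have rb : ∀ d, M.Rg (4 * c + a) d → M.Rg (4 * c + a) (r3 (M.lk d)) := fun d w =>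
    rg_trans w (rg_symm H (bw H d))
  have e4 : ∀ d, M.Rg (4 * c + a) d → M.Rg (4 * c + a) (4 * (d / 4) + a) := fun d w => by
    have := crit_mod k w
    rwa [show 4 * (d / 4) + a = d by omega]
  have al : ∀ d, M.Rg (4 * c + a) d → M.al (d / 4) := fun d w => (rg_al H w).2 (e0.symm ▸ hc)
  refine ⟨?_, ?_, fun y => ⟨⟨fun w => ?_, ?_⟩, fun w => ?_, ?_⟩⟩
  · have w := rg_nr M (4 * c + a)
    have e1 := (s0 _ (rg_refl _ _)).trans e0
    refine ⟨_, ⟨al _ w, e1.symm ▸ p0 _ w⟩, e1, ?_⟩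
    rw [Cm.ss, (ty _ w).1, Cm.nr, H.inv]
    unfold sd r4
    split_ifs <;> omega
  · have w := rb _ (rg_refl _ _)
    have e1 := s1 _ w
    rw [nr_r3, H.inv, e0] at e1
    refine ⟨_, ⟨al _ w, e1.symm ▸ p1 _ w⟩, e1, ?_⟩
    rw [Cm.ss, (ty _ w).2, ← Cm.nr, nr_r3, H.inv]
    unfold sd
    split_ifs <;> omega
  · simpa only [show (4 * y + a) / 4 = y by omega] using p0 _ w
  · rintro ⟨t, rfl⟩
    refine iter_inv (Q := fun y => M.Rg (4 * c + a) (4 * y + a)) (fun y w => ?_) (rg_refl _ _) t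
    have := e4 _ (rb _ w)
    rwa [show r3 (M.lk (4 * y + a)) / 4 = M.st a y by
      rw [Cm.st, show pt y a = 4 * y + a by unfold pt; omega]; unfold r3; omega] at this
  · simpa only [show (4 * y + a) / 4 = y by omega] using p1 _ w
  · rintro ⟨t, rfl⟩
    refine iter_inv (Q := fun y => M.Rg (4 * c + a) (4 * y + a)) (fun y w => ?_) (rg_refl _ _) t
    have := e4 _ (rg_trans w (rg_nr _ _))
    rwa [← s1 _ w, show (4 * y + a) / 4 = y by omega] at this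

theorem kd_crit (H : M.Ok) (k : ∀ y, M.Pa i c y → M.Kd i a y) : M.Crit (4 * c + a) := by
  have ha : a = i % 4 ∨ a = (i + 3) % 4 :=
    let ⟨u, _, _, e⟩ := k c (Pa.refl _ _); e ▸ ss_cases i u
  have st : ∀ y, M.Pa i c y → ∃ u, M.Pa i c u ∧ M.nr (pt y a) = pt u a := fun y w => by
    rcases ha with ha | ha
    · obtain ⟨u, k1, rfl, k2⟩ := k y w
      refine ⟨u, w.trans k1.2, ?_⟩
      rw [nr_pt (p := ep i (M.ss i u)) _ (by rw [k2]; unfold ep; split_ifs <;> omega),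
        ← H.lk_pt k1.1, H.inv]
      exact ptc _ (by omega)
    · have k1 := (k y w).per H
      have w' := w.trans (Pa.step i y)
      refine ⟨_, w', ?_⟩
      rw [nr_pt (p := i) _ (by omega), H.lk_pt k1.1, Kd.uniq H ⟨y, k1, rfl, rfl⟩ (k _ w')]
      exact ptc _ (by unfold ep; split_ifs <;> omega)
  intro d w
  obtain ⟨y, k1, rfl⟩ := rg_ind (Q := fun d => ∃ y, M.Pa i c y ∧ d = pt y a) w
    ⟨c, Pa.refl _ _, by unfold pt; omega⟩ fun _ ⟨y, k1, k2⟩ => k2 ▸ st y k1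
  obtain ⟨u, -, k2⟩ := st y k1
  rw [Cm.Alt, k2, pt_mod, pt_mod]
  exact fun v => v rfl

theorem runx (H : M.Ok) (ha : M.al a) (k : M.lk (pt a (ep i s)) % 4 ≠ i % 4) :
    ∃ r, M.Run i s a r ∧ M.al r ∧ M.ss i r ≠ s := by
  by_contra v
  have all : ∀ y, M.Pa i a y → M.ss i y = s := by
    have nx : ∀ y, M.Run i s a y ∧ M.al y → M.ss i y = s := fun y w =>
      by_contra fun w' => v ⟨y, w.1, w.2, w'⟩
    rintro _ ⟨t, rfl⟩
    exact nx _ (iter_inv (Q := fun y => M.Run i s a y ∧ M.al y)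
      (fun y w => ⟨w.1.tail ⟨rfl, nx y w⟩, H.al_st i w.2⟩) ⟨.refl, ha⟩ t)
  have pre : ∀ y, M.Pa i a y → M.Per i y → ∃ w, M.Per i w ∧ M.st i w = y ∧ M.ss i w = s :=
    fun y k1 k2 => let ⟨_, w, k3, k4, _⟩ := k2.kd H; ⟨w, k3, k4, all w (k1.trans (k4 ▸ k3.2))⟩
  have dn : ∀ t, M.Per i (M.wk i a t) → M.Per i a := fun t => by
    induction t with
    | zero => exact id
    | succ t ih =>
      intro w
      obtain ⟨y, k1, k2, k3⟩ := pre _ (Pa.wk _ _ _) w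
      rw [wk_succ] at k2
      exact ih (H.st_inj k1.1 (H.al_wk i ha t) k2 (k3.trans (all _ (Pa.wk _ _ _)).symm) ▸ k1)
  obtain ⟨t, ht, e⟩ := (Pa.wk i a M.n).bnd H ha
  obtain ⟨m, hm⟩ := Nat.exists_eq_add_of_lt ht
  obtain ⟨y, k1, k2, k3⟩ := pre a (Pa.refl _ _) (dn t ⟨H.al_wk i ha t, m, by
    rw [← wk_succ', ← wk_add, ← add_assoc, ← hm, e]⟩)
  rw [← k2, ← k3, ← H.lk_pt k1.1, H.inv, pt_mod] at k
  exact k rfl

theorem cfg_b (H : M.Ok) (k : M.Cfg i e a b) : M.al b ∧ M.lk (pt b (i + 2)) = pt a (i + e) := by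
  have := H.al_st (i + e) k.1
  rw [Cm.st, k.2, pt_div] at this
  exact ⟨this, by rw [← k.2, H.inv]⟩

theorem run (H : M.Ok) (he : e = 1 ∨ e = 3) (k : M.Cfg i e a b) :
    (∃ h, M.Fh i e a h) ∧ ∃ u, M.Lu i e b u := by
  obtain ⟨hb, k2⟩ := cfg_b H k
  constructor
  · obtain ⟨r, k3, k4, k5⟩ := runx H (i := i) (s := sd i (i + e)) k.1 (by
      rw [ptc (q := i + e) a (by unfold ep sd; split_ifs <;> omega), k.2, pt_mod]; omega)
    refine ⟨M.st i r, r, k3, (H.lk_pt k4).trans (ptc _ ?_)⟩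
    have := ss_cases (M := M) i r
    unfold ep sd at *
    split_ifs at * <;> omega
  · obtain ⟨u, k3, k4, k5⟩ := runx H (i := i + e + 2) (s := sd (i + e + 2) (i + 2)) hb (by
      rw [ptc (q := i + 2) b (by unfold ep sd; split_ifs <;> omega), k2, pt_mod]; omega)
    refine ⟨u, k3, ?_⟩
    have := ss_cases (M := M) (i + e + 2) u
    rw [H.lk_pt k4, pt_mod]
    unfold ep sd at *
    split_ifs at * <;> omega

/-- A run that passes the side `i + 3` goes forward along the region. -/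
theorem run_fw (H : M.Ok) (k : M.Run i s a r) (ha : M.al a) (e : s % 4 = (i + 3) % 4)
    (e' : q % 4 = s % 4) : M.al r ∧ NA M (pt a q) (pt r q) := by
  induction k with
  | refl => exact ⟨ha, .refl⟩
  | @tail x y _ w ih =>
    obtain ⟨rfl, w⟩ := w
    have : M.nr (pt x q) = pt (M.st i x) q := by
      rw [nr_pt (p := i) _ (by omega), H.lk_pt ih.1, w]
      exact ptc _ (by unfold ep; split_ifs <;> omega)
    exact ⟨H.al_st i ih.1, ih.2.tail ⟨this.symm, fun v => v (by rw [this, pt_mod, pt_mod])⟩⟩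

/-- A run that passes the side `i` goes backward along the region. -/
theorem run_bw (H : M.Ok) (k : M.Run i s a r) (ha : M.al a) (e : s % 4 = i % 4)
    (e' : q % 4 = s % 4) : M.al r ∧ NA M (pt r q) (pt a q) := by
  induction k with
  | refl => exact ⟨ha, .refl⟩
  | @tail x y _ w ih =>
    obtain ⟨rfl, w⟩ := w
    have : M.nr (pt (M.st i x) q) = pt x q := by
      rw [nr_pt (p := ep i (M.ss i x)) _ (by rw [w]; unfold ep; split_ifs <;> omega),
        ← H.lk_pt ih.1, H.inv]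
      exact ptc _ (by omega)
    exact ⟨H.al_st i ih.1, .head ⟨this.symm, fun v => v (by rw [this, pt_mod, pt_mod])⟩ ih.2⟩

theorem r3_pt (c : ℕ) (e : p % 4 = (q + 1) % 4) : r3 (pt c p) = pt c q := by
  unfold r3 pt
  omega

theorem pt_ne (k : h ≠ u) : pt h q ≠ pt u q := fun v => k (by unfold pt at v; omega)

theorem flow (H : M.Ok) (he : e = 1 ∨ e = 3) (k : M.Cfg i e a b) (f : M.Fh i e a h)
    (l : M.Lu i e b u) : (h ≠ u ↔ M.Prb (pt a (i + e))) ∧ (h ≠ u ↔ M.Prb (pt h (i + e + 2))) ∧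
      (h ≠ u ↔ M.Prb (pt u (i + e + 2))) := by
  obtain ⟨hb, k2⟩ := cfg_b H k
  obtain ⟨ha, k1⟩ := k
  obtain ⟨r, f1, f2⟩ := f
  obtain ⟨l1, l2⟩ := l
  have f3 : M.lk (pt h (i + e + 2)) = pt r i := by rw [← f2, H.inv]
  rcases he with rfl | rfl
  · obtain ⟨hr, n1⟩ := run_bw (q := i) H f1 ha (by unfold sd; split_ifs <;> omega)
      (by unfold sd; split_ifs <;> omega)
    obtain ⟨hu, n2⟩ := run_fw (q := i + 2) H l1 hb (by unfold sd; split_ifs <;> omega)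
      (by unfold sd; split_ifs <;> omega)
    have hh : M.al h := by have := H.al_st i hr; rwa [Cm.st, f2, pt_div] at this
    rw [← k1, ← nr_pt (q := i) a rfl] at n2
    rw [← f3, ← nr_pt (q := i + 2) h rfl] at n1
    have g1 := rg_trans (rg_nr _ _) n1.rg.1
    have g2 := rg_trans (rg_nr _ _) n2.rg.1
    have key : h ≠ u ↔ M.Sad (pt a i) := ⟨fun v => ⟨_, _, rg_symm H g1, g2, pt_ne v, by
      rw [Cm.Alt, ← n1.rg.2, pt_mod, pt_mod]; omega, by
      rw [Cm.Alt, nr_pt (p := i + 1 + 2) u rfl, l2, pt_mod]; omega, by rw [pt_mod, pt_mod]⟩,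
      fun w v => two n2 (v ▸ n1) (by rw [pt_mod, pt_mod]; omega) w⟩
    rw [prb_up (by rw [k1, pt_mod]; unfold pt; omega), prb_up (by rw [f3, pt_mod]; unfold pt; omega),
      prb_up (by rw [l2]; unfold pt; omega), pt_div, pt_div, pt_div, r3_pt (q := i) a rfl,
      r3_pt (q := i + 2) h rfl, r3_pt (q := i + 2) u rfl, sad_rg H g1, ← sad_rg H g2]
    simp only [ha, hh, hu, true_and, key, and_self]
  · obtain ⟨hr, n1⟩ := run_fw (q := i + 3) H f1 ha (by unfold sd; split_ifs <;> omega)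
      (by unfold sd; split_ifs <;> omega)
    obtain ⟨hu, n2⟩ := run_bw (q := i + 3 + 2) H l1 hb (by unfold sd; split_ifs <;> omega)
      (by unfold sd; split_ifs <;> omega)
    have hh : M.al h := by have := H.al_st i hr; rwa [Cm.st, f2, pt_div] at this
    have e1 : M.nr (pt b (i + 3 + 2)) = pt a (i + 3) := (nr_pt b (by omega)).trans k2
    have e2 : M.nr (pt r (i + 3)) = pt h (i + 3 + 2) := (nr_pt r (by omega)).trans f2
    have e3 : M.nr (r3 (M.lk (pt u (i + 3 + 2)))) = pt u (i + 3 + 2) := by rw [nr_r3, H.inv]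
    have g1 : M.Rg (pt a (i + 3)) (pt h (i + 3 + 2)) := rg_trans n1.rg.1 (e2 ▸ rg_nr _ _)
    have g2 : M.Rg (pt u (i + 3 + 2)) (pt a (i + 3)) := rg_trans n2.rg.1 (e1 ▸ rg_nr _ _)
    have t3 : r3 (M.lk (pt u (i + 3 + 2))) % 4 = (i + 3) % 4 := by unfold r3; omega
    have key : h ≠ u ↔ M.Sad (pt a (i + 3)) := ⟨fun v => ⟨_, _, n1.rg.1,
      rg_symm H (rg_trans (bw H _) g2), fun w => pt_ne v (by rw [← e2, w, e3]), by
      rw [Cm.Alt, e2, pt_mod, pt_mod]; omega, by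
      rw [Cm.Alt, e3, t3, pt_mod]; omega, by rw [t3, pt_mod]⟩,
      fun w v => two (x := pt r (i + 3)) (y := pt b (i + 3 + 2)) (by rw [e2, v]; exact n2)
        (e1 ▸ n1) (by rw [pt_mod, pt_mod]; omega) ((sad_rg H n1.rg.1).1 w)⟩
    rw [prb_dn H (by rw [k1, pt_mod]; unfold pt; omega),
      prb_dn H (by rw [f3, pt_mod]; unfold pt; omega), prb_dn H (by rw [l2]; unfold pt; omega),
      pt_div, pt_div, pt_div, ← sad_rg H g1, sad_rg H g2]
    simp only [ha, hh, hu, true_and, key, and_self]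

end FReg

open FReg

theorem fReg (_ : S_Walk) : S_Reg := fun _ H =>
  { al := fun _ _ => rg_al H
    par := fun _ _ k w => rg_par H w k
    symm := fun _ _ => rg_symm H
    inj := fun _ _ e => nr_inj H e
    crit := fun _ _ => crit_rg H
    sad := fun _ _ => sad_rg H
    fw := fw
    bw := bw H
    prb_lk := prb_lk H
    prb_up := fun _ => prb_up
    prb_dn := fun _ => prb_dn H
    alt := fun _ k w _ => alt H k w
    sad2 := fun _ k w _ => sad2 H k w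
    crit_typ := fun _ _ => crit_mod
    crit_kd := fun _ _ => crit_kd H
    kd_crit := fun _ _ _ => kd_crit H
    run := fun _ _ _ _ => run H
    flow := fun _ _ _ _ _ _ => flow H }

end Pool.Agent.MP_1a6d78_lc.PG
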