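import Pool.Agent.MP_1a6d78_lc.PG.FSpec

/-! PROJECT PG: the kit of frames. -/

namespace Pool.Agent.MP_1a6d78_lc.PG

open Classical ED PR PL Relation Ct

namespace FTw

theorem comp {g h : ℕ} (hg : g < 8) (hh : h < 8) : ∃ k < 8, (∀ q, fp k q = fp g (fp h q)) ∧
    (∀ a, fs k a = fs g (fs h a)) ∧ (k < 4 ↔ (g < 4 ↔ h < 4)) := by
  refine ⟨if g < 4 then (if h < 4 then (g + h) % 4 else 4 + (g + h) % 4) else
    if h < 4 then 4 + (g + 4 - h) % 4 else (g + 4 - h) % 4, ?_, fun q => ?_, fun a => ?_, ?_⟩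
  · split_ifs <;> omega
  · unfold fp
    split_ifs <;> omega
  · unfold fs
    split_ifs <;> omega
  · split_ifs <;> omega

theorem tw_comp (M : Cm) {g h k : ℕ} (hg : g < 8) (hh : h < 8) (hk : k < 8)
    (e : ∀ q, fp k q = fp g (fp h q)) : (M.tw g).tw h = M.tw k := by
  have e1 : ∀ p, tp g (tp h p) = tp k p := fun p => by
    have e2 : fp g (tp h p) = fp g (fp h p) := by
      have := tp_mod h p
      have := fp_lt h p
      unfold fp at *
      split_ifs at * <;> omega
    rw [tp, tp_div, e2, ← e, tp]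
  have e2 : ∀ r, tp (gi h) (tp (gi g) r) = tp (gi k) r := fun r => by
    rw [← (tp_tp hk r).2, ← e1, (tp_tp hg _).1, (tp_tp hh _).1, e1, (tp_tp hk _).1]
  unfold Cm.tw
  simp only [e1, e2]

end FTw

theorem fTw : S_Tw := by
  intro M H g h
  have cell : ∀ p, (M.tw g).lk p / 4 = M.lk (tp g p) / 4 := fun p => by
    rw [← tw_lk h, tp_div]
  refine ⟨tw_ok H h, fun c => by rw [tw_al H h], cell, fun p => by rw [← tw_lk h, tp_mod],
    fun i c => by rw [tw_st h], fun i a b => by rw [tw_pa h], fun i c => by rw [tw_per H h],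
    fun i a b => by rw [tw_co h], fun i a y ha => tw_kd H h ha, fun i c a ha => tw_fe H h i c ha,
    fun t v => ?_, fun x y => tw_rg H h, fun x => tw_crit H h, fun x => tw_sad H h,
    fun p => tw_prb H h, tw_mu H h, fun W => ⟨fun k p hp => ?_, fun k p hp => ?_⟩,
    fun z W => and_congr_right fun _ => ⟨fun k p hp => ?_, fun k p hp => ?_⟩, tw_tw h M,
    fun h' hh => ?_⟩
  · unfold Cm.Rng
    simp only [tw_per H h, tw_pa h, tw_kd H h (Nat.mod_lt _ (by decide : 0 < 4))]
    by_cases k : g < 4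
    · rw [show fs g (t % 4) = fp g t % 4 by unfold fs fp; split_ifs; omega,
        show fs g ((t + 3) % 4) = (fp g t + 3) % 4 by unfold fs fp; split_ifs; omega]
    · rw [show fs g (t % 4) = (fp g t + 3) % 4 by unfold fs fp; split_ifs; omega,
        show fs g ((t + 3) % 4) = fp g t % 4 by unfold fs fp; split_ifs; omega]
      exact and_congr_right fun _ => and_comm
  · have := k (tp (gi g) p) (by rwa [tp_div])
    rwa [cell, (tp_tp h p).2] at this
  · rw [cell]
    exact k _ (by rwa [tp_div])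
  · have := k (tp (gi g) p) ((tw_prb H h).2 (by rwa [(tp_tp h p).2]))
    rwa [tp_div] at this
  · have := k _ ((tw_prb H h).1 hp)
    rwa [tp_div] at this
  · obtain ⟨k, hk, e1, e2, e3⟩ := FTw.comp h hh
    exact ⟨k, hk, e1, e2, e3, FTw.tw_comp M h hh hk e1⟩

end Pool.Agent.MP_1a6d78_lc.PG
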