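import Pool.Agent.MP_1a6d78_lc.PG.FSpec

/-! PROJECT PG, row TWC: cuts in another frame. -/

namespace Pool.Agent.MP_1a6d78_lc.PG

open Classical ED PR PL Relation

namespace FTwC

theorem ep_lt (t a : ℕ) : ep t a < 4 := by
  unfold ep
  split_ifs <;> omega

theorem fp_ep {g t a : ℕ} (h : g < 8) (ha : a = t % 4 ∨ a = (t + 3) % 4) :
    fp g (ep t a) = ep (fp g t) (fs g a) := by
  unfold fp fs ep
  rcases ha with ha | ha <;> split_ifs <;> omega

theorem pt_congr {c q r : ℕ} (e : q % 4 = r % 4) : pt c q = pt c r := by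
  unfold pt
  omega

end FTwC

open FTwC

theorem fTwC : S_Walk → S_Tw → S_TwC := by
  intro W T M M' R H H' S C g hg
  have K := T M H g hg
  have K' := T M' H' g hg
  have WK := W _ K.ok
  have W0 := W _ H
  refine ⟨?_, C.n, K'.ok.inv, ?_, ?_, ?_⟩
  rotate_right
  · rintro t y a ⟨ht, h⟩ hk ⟨-, h'⟩
    have ha := (WK.kd_per t a y hk).2
    rw [fp_ep hg ha] at h'
    exact C.sep _ y _ h ((K.kd t a y (by omega)).1 hk) h'
  · rintro t y ⟨ht, h⟩
    obtain ⟨_, h2, h3⟩ := S _ _ h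
    exact ⟨ht, (K.rn t y).2 h2, ht, by rw [K.st]; exact h3⟩
  · rintro t y a ⟨ht, h⟩ hk
    have ha := (WK.kd_per t a y hk).2
    have ha4 : a < 4 := by omega
    have e := C.ring _ y _ h ((K.kd t a y ha4).1 hk)
    show tp (gi g) (M'.lk (tp g (pt y t))) = _
    rw [Ct.tp_pt, e, Ct.tp_pt, K.fe t y a ha4, ← fp_ep hg ha, (Ct.fp_fp hg _).1]
    exact pt_congr (Nat.mod_mod _ _)
  · intro p hp
    show tp (gi g) (M'.lk (tp g p)) = tp (gi g) (M.lk (tp g p))
    rw [C.off]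
    rintro ⟨t, a, h, hk, e⟩
    rw [Ct.tp_div] at h hk
    rw [Ct.tp_mod] at e
    have ht : t < 4 := (S _ _ h).1
    have ha4 : a < 4 := by
      have := (W0.kd_per t a _ hk).2
      omega
    have e1 : fp g (fp (gi g) t) = t := by rw [(Ct.fp_fp hg t).2]; omega
    have e2 : fs g (fs (gi g) a) = a := by rw [(Ct.fs_fs hg a).2]; omega
    have l1 := Ct.fp_lt (gi g) t
    have l2 := Ct.fs_lt (gi g) a
    have hk' : (M.tw g).Kd (fp (gi g) t) (fs (gi g) a) (p / 4) := by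
      rw [K.kd _ _ _ l2, e1, e2]
      exact hk
    have e3 := fp_ep hg (WK.kd_per _ _ _ hk').2
    rw [e1, e2] at e3
    refine hp ⟨fp (gi g) t, fs (gi g) a, ⟨l1, by rw [e1]; exact h⟩, hk', ?_⟩
    rcases e with e | e
    · left
      have := (Ct.fp_inj hg).1 (e.trans e1.symm)
      omega
    · right
      have := (Ct.fp_inj hg).1 (e.trans e3.symm)
      have l3 := ep_lt (fp (gi g) t) (fs (gi g) a)
      omega

end Pool.Agent.MP_1a6d78_lc.PG
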