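import Pool.Agent.MP_1a6d78_lc.PG.FSpec

/-! PROJECT PG, row WALK. -/

namespace Pool.Agent.MP_1a6d78_lc.PG

open Cm

namespace FWalk

variable {M : Cm}

theorem lk_al (h : M.Ok) (p : ℕ) : M.al (M.lk p / 4) ↔ M.al (p / 4) :=
  ⟨fun k => by have := h.al_lk k; rwa [h.inv] at this, h.al_lk⟩

theorem st_al (h : M.Ok) (i c : ℕ) : M.al (M.st i c) ↔ M.al c := by
  have := lk_al h (pt c i)
  rwa [pt_div] at this

theorem wk_al (h : M.Ok) (i c t : ℕ) : M.al (M.wk i c t) ↔ M.al c := by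
  induction t with
  | zero => rfl
  | succ t ih => rw [wk_succ, st_al h, ih]

theorem back (h : M.Ok) {i c : ℕ} (hc : M.al c) :
    M.lk (pt (M.st i c) (ep i (M.ss i c))) = pt c i := by rw [← h.lk_pt hc, h.inv]

theorem ev (h : M.Ok) {i c : ℕ} (hc : M.al c) : ∃ u, M.Pa i c u ∧ M.Per i u := by
  obtain ⟨s, hs, e⟩ := (Pa.wk i c M.n).bnd h hc
  obtain ⟨r, hr⟩ := Nat.exists_eq_add_of_lt hs
  refine ⟨_, Pa.wk i c s, h.al_wk i hc s, r, ?_⟩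
  rw [← wk_succ', ← wk_add, ← add_assoc, ← hr, e]

theorem kd_per (h : M.Ok) {i a y : ℕ} (k : M.Kd i a y) :
    M.Per i y ∧ (a = i % 4 ∨ a = (i + 3) % 4) :=
  ⟨k.per h, let ⟨u, _, _, e⟩ := k; e ▸ ss_cases i u⟩

theorem kd_iff (h : M.Ok) (i a y : ℕ) : M.Kd i a y ↔ (a = i % 4 ∨ a = (i + 3) % 4) ∧
    M.lk (pt y (ep i a)) % 4 = i % 4 ∧ M.Per i (M.lk (pt y (ep i a)) / 4) := by
  refine ⟨fun k => ⟨(kd_per h k).2, ?_⟩, fun ⟨k1, k2, k3⟩ => ?_⟩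
  · obtain ⟨u, p, rfl, rfl⟩ := k
    rw [back h p.1, pt_mod, pt_div]
    exact ⟨rfl, p⟩
  · have e : pt (M.lk (pt y (ep i a)) / 4) i = M.lk (pt y (ep i a)) := by
      generalize M.lk (pt y (ep i a)) = q at k2
      unfold pt; omega
    refine ⟨_, k3, by rw [st, e, h.inv, pt_div], ?_⟩
    rw [ss, e, h.inv]
    unfold sd
    rw [pt_mod]
    unfold ep
    split_ifs <;> omega

theorem fe_lt (h : M.Ok) {i c a t : ℕ} (hc : M.al c) (e : M.ss i (M.wk i c t) = a) :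
    M.FE i c a < M.n :=
  h.lt _ ((FE_le h i c a).resolve_left fun k => (FE_none h hc).1 k t e)

theorem fe_kd (h : M.Ok) {i v y a : ℕ} (p : M.Per i v) (q : M.Pa i v y) (k : M.Kd i a y) :
    M.FE i v a < M.n ∧ M.Pa i v (M.FE i v a) ∧ M.Kd i a (M.FE i v a) := by
  obtain ⟨u, pu, rfl, rfl⟩ := k
  obtain ⟨t, ht⟩ : M.Pa i v u := q.trans pu.2
  have l := fe_lt h p.1 (congrArg (M.ss i) ht)
  obtain ⟨-, s, e1, e2, -⟩ := FE_spec h l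
  exact ⟨l, ⟨s + 1, e1.symm⟩, _, (p.pa h (Pa.wk i v s)).1, by rw [e1, wk_succ], e2⟩

theorem ring (h : M.Ok) (v : ℕ) : M.Ring v ↔ M.Rng 0 v := by
  refine ⟨fun ⟨p, a, b⟩ => ⟨p, ?_, ?_⟩, fun ⟨p, ⟨y, a, a'⟩, z, b, b'⟩ =>
    ⟨p, (fe_kd h p a a').1, (fe_kd h p b b').1⟩⟩
  · obtain ⟨-, s, -, e2, -⟩ := FE_spec h a
    exact ⟨_, Pa.wk 0 v (s + 1), _, (p.pa h (Pa.wk 0 v s)).1, (wk_succ _ _ _).symm, e2⟩
  · obtain ⟨-, s, -, e2, -⟩ := FE_spec h b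
    exact ⟨_, Pa.wk 0 v (s + 1), _, (p.pa h (Pa.wk 0 v s)).1, (wk_succ _ _ _).symm, e2⟩

end FWalk

open FWalk

theorem fWalk : S_Walk := fun M h =>
  { lk_al := lk_al h
    st_al := st_al h
    pa_al := fun i a _ ⟨t, e⟩ => e ▸ wk_al h i a t
    ent := fun _ _ hc => h.lk_pt hc
    back := fun i c hc => ⟨by rw [st, back h hc, pt_div], back h hc⟩
    ev := fun _ _ hc => ev h hc
    per_pa := fun _ _ _ p q => p.pa h q
    per_inj := fun _ _ _ p q e => p.st_inj h q e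
    kd_ex := fun _ _ p => let ⟨_, k⟩ := p.kd h; (kd_per h k).2.elim (fun e => Or.inl (e ▸ k))
      fun e => Or.inr (e ▸ k)
    kd_per := fun _ _ _ k => kd_per h k
    kd_one := fun _ _ _ _ k l => k.uniq h l
    kd_iff := kd_iff h
    co_trans := fun _ _ _ _ k l => k.trans l
    co_per := fun _ _ _ p => ⟨fun k => k.pa h p, Pa.co⟩
    fe := fun _ _ _ => ⟨fun k => let ⟨a, t, _, e, _⟩ := FE_spec h k; ⟨a, t, e⟩,
      fun ⟨a, _, e⟩ => fe_lt h a e⟩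
    fe_spec := fun _ _ _ k => (FE_spec h k).2
    fe_kd := fun _ _ _ _ p q k => fe_kd h p q k
    ring := ring h
    rn_pa := fun _ _ _ ⟨p, ⟨a, a1, a2⟩, b, b1, b2⟩ q =>
      ⟨(p.pa h q).1, ⟨a, (p.pa h q).2.trans a1, a2⟩, b, (p.pa h q).2.trans b1, b2⟩ }

end Pool.Agent.MP_1a6d78_lc.PG
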