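import Pool.Agent.MP_1a6d78_lc.PG.SpecB
import Pool.Agent.MP_1a6d78_lc.PG.Cnt

/-! PROJECT PG: the region kit, the test for saddle links, frames of the primitives. -/

namespace Pool.Agent.MP_1a6d78_lc.PG

open Classical ED PR PL Relation Ct

namespace Fl

variable {M : Cm} {a b c e g i j k o s u v x : ℕ}

theorem ss_os (M : Cm) (hk : k < 4) (a : ℕ) :
    (M.ss k a = k ∧ os k (M.ss k a) = (k + 3) % 4) ∨
      (M.ss k a = (k + 3) % 4 ∧ os k (M.ss k a) = k) := by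
  have := Cm.ss_cases (M := M) k a
  unfold os
  split_ifs <;> omega

theorem nr_pt (H : M.Ok) (h : M.al c) (e : i % 4 = (j + 1) % 4) :
    M.nr (pt c j) = pt (M.st i c) (ep i (M.ss i c)) := by
  rw [← H.lk_pt h, Cm.nr, show r4 (pt c j) = pt c i by unfold r4 pt; omega]

theorem nr_back (H : M.Ok) (h : M.al c) (e : (j + 1) % 4 = ep i (M.ss i c)) :
    M.nr (pt (M.st i c) j) = pt c i := by
  rw [Cm.nr, show r4 (pt (M.st i c) j) = pt (M.st i c) (ep i (M.ss i c)) by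
    rw [← e]; unfold r4 pt; omega, ← H.lk_pt h, H.inv]

theorem pt_cg (c : ℕ) (e : i % 4 = j % 4) : pt c i = pt c j := by unfold pt; rw [e]

theorem rg1 (H : M.Ok) (hk : k < 4) (h : M.al a) :
    M.Rg (pt a (M.ss k a)) (pt (M.st k a) (M.ss k a)) := by
  rcases ss_os M hk a with ⟨e, -⟩ | ⟨e, -⟩
  · have := rg_back H (pt (M.st k a) k)
    rw [nr_back H h (by rw [e]; unfold ep; simp)] at this
    rwa [e]
  · have := rg_nr M (pt a ((k + 3) % 4))
    rw [nr_pt H h (i := k) (by omega), e, show ep k ((k + 3) % 4) = (k + 3) % 4 by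
      unfold ep; split_ifs <;> omega] at this
    rwa [e]

theorem rg2 (H : M.Ok) (hk : k < 4) (h : M.al a) :
    M.Rg (pt a (os k (M.ss k a))) (pt (M.st k a) (os k (M.ss k a) + 2)) := by
  rcases ss_os M hk a with ⟨e, e'⟩ | ⟨e, e'⟩ <;> rw [e']
  · have := rg_nr M (pt a ((k + 3) % 4))
    rwa [nr_pt H h (i := k) (by omega), e, pt_cg _ (show ep k k % 4 = ((k + 3) % 4 + 2) % 4 by
      unfold ep; split_ifs <;> omega)] at this
  · have := rg_back H (pt (M.st k a) (k + 2))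
    rwa [nr_back H h (by rw [e]; unfold ep; split_ifs <;> omega)] at this

theorem plk (H : M.Ok) (p : ℕ) : M.Prb (M.lk p) ↔ M.Prb p := by
  have key : ∀ p, M.Prb p → M.Prb (M.lk p) := fun p h => by
    have := H.par p h.1
    refine ⟨al_lk H h.1, ?_⟩
    rw [show M.lo (M.lk p) = M.lo p by
      unfold Cm.lo; rw [H.inv]; split_ifs <;> first | rfl | omega]
    exact h.2
  exact ⟨fun h => H.inv p ▸ key _ h, key p⟩

theorem psad (H : M.Ok) (hk : k < 4) :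
    M.Prb (pt a k) ↔ M.al a ∧ M.Sad (pt a (os k (M.ss k a))) := by
  unfold Cm.Prb
  rw [pt_div]
  refine and_congr_right fun h => ?_
  have r := rg2 H hk h
  rw [Cm.lo, H.lk_pt h]
  rcases ss_os M hk a with ⟨e, e'⟩ | ⟨e, e'⟩ <;> rw [e'] at r ⊢ <;> rw [e]
  · rw [if_pos (by unfold pt ep; split_ifs <;> omega),
      show r3 (pt a k) = pt a ((k + 3) % 4) by unfold r3 pt; omega]
  · rw [if_neg (by unfold pt ep; split_ifs <;> omega), sad_rg H r,
      show r3 (pt (M.st k a) (ep k ((k + 3) % 4))) = pt (M.st k a) (k + 2) by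
        unfold r3 pt ep; split_ifs <;> omega]

theorem ti_iff : M.Ti i o u v ↔ ReflTransGen (fun x y => y = M.st i x ∧ M.ss i x = o) u v := by
  constructor
  · rintro ⟨t, rfl, h⟩
    induction t with
    | zero => exact .refl
    | succ t ih => exact (ih fun s k => h s (by omega)).tail ⟨Cm.wk_succ _ _ _, h t (by omega)⟩
  · intro h
    induction h with
    | refl => exact ⟨0, rfl, fun _ h => by omega⟩
    | tail _ w ih =>
      obtain ⟨t, rfl, h⟩ := ih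
      refine ⟨t + 1, (Cm.wk_succ _ _ _).trans w.1.symm, fun s k => ?_⟩
      rcases (by omega : s < t ∨ s = t) with l | rfl
      exacts [h s l, w.2]

theorem ti_al (H : M.Ok) (h : M.al u) (t : M.Ti i o u v) : M.al v := by
  obtain ⟨t, rfl, -⟩ := t
  exact H.al_wk i h t

theorem ti_rg (H : M.Ok) (hi : i < 4) (h : M.al u) (t : M.Ti i o u v) : M.Rg (pt u o) (pt v o) := by
  rw [ti_iff] at t
  induction t with
  | refl => exact rg_refl _ _
  | tail p w ih =>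
    obtain ⟨rfl, rfl⟩ := w
    exact rg_trans ih (rg1 H hi (ti_al H h (ti_iff.2 p)))

theorem rev (H : M.Ok) (hk : k < 4) (h : M.al u) (ho : o = k ∨ o = (k + 3) % 4)
    (t : M.Ti k o u v) : M.Ti (ep k o) o v u := by
  rw [ti_iff] at t ⊢
  induction t with
  | refl => exact .refl
  | @tail x y p w ih =>
    obtain ⟨rfl, e⟩ := w
    have l : M.lk (pt (M.st k x) (ep k o)) = pt x k := by
      rw [← e, ← H.lk_pt (ti_al H h (ti_iff.2 p)), H.inv]
    refine .head ⟨by rw [Cm.st, l, pt_div], ?_⟩ ih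
    rw [Cm.ss, l]
    rcases ho with rfl | rfl <;> unfold sd ep pt <;> split_ifs <;> omega

theorem ti_uniq (t : M.Ti i o c u) (h : M.ss i u ≠ o) (t' : M.Ti i o c v) (h' : M.ss i v ≠ o) :
    u = v := by
  obtain ⟨s, rfl, k⟩ := t
  obtain ⟨r, rfl, k'⟩ := t'
  rcases lt_trichotomy s r with l | rfl | l
  exacts [absurd (k' s l) h, rfl, absurd (k r l) h']

theorem ti_fe (H : M.Ok) (h : M.al c) (t : M.Ti i o c g) (e : M.ss i g ≠ o) :
    M.FE i c (M.ss i g) = M.st i g := by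
  obtain ⟨t, rfl, k⟩ := t
  rw [Cm.FE_eq H h rfl fun s l v => e (v.symm.trans (k s l)), Cm.wk_succ]

/-- The first alternation, read on the walk that hugs the region. -/
theorem run1 (H : M.Ok) (hi : i < 4) (e : j = (i + 3) % 4) (h : M.al c) (n : ¬M.Crit (pt c j)) :
    ∃ t, (∀ s < t, ¬M.Alt (M.nr^[s] (pt c j))) ∧ M.Alt (M.nr^[t] (pt c j)) ∧
      ∃ g, M.nr^[t] (pt c j) = pt g j ∧ M.Ti i j c g ∧ M.ss i g = i := by
  have ex : ∃ t, M.Alt (M.nr^[t] (pt c j)) := by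
    by_contra v
    exact n fun y ⟨t, u⟩ w => v ⟨t, u ▸ w⟩
  have al : ∀ d, M.al d → (M.Alt (pt d j) ↔ M.ss i d = i) ∧
      (M.ss i d ≠ i → M.ss i d = j ∧ M.nr (pt d j) = pt (M.st i d) j) := fun d k => by
    have := Cm.ss_cases (M := M) i d
    rw [Cm.Alt, nr_pt H k (i := i) (by omega)]
    unfold pt ep
    split_ifs <;> omega
  have key : ∀ s ≤ Nat.find ex, ∃ g, M.nr^[s] (pt c j) = pt g j ∧ M.Ti i j c g := fun s => by
    induction s with
    | zero => exact fun _ => ⟨c, rfl, ti_iff.2 .refl⟩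
    | succ s ih =>
      intro l
      obtain ⟨g, k1, k2⟩ := ih (by omega)
      obtain ⟨i1, i2⟩ := al g (ti_al H h k2)
      obtain ⟨j1, j2⟩ := i2 (mt i1.2 (k1 ▸ Nat.find_min ex l))
      exact ⟨_, by rw [Function.iterate_succ_apply', k1, j2],
        ti_iff.2 ((ti_iff.1 k2).tail ⟨rfl, j1⟩)⟩
  obtain ⟨g, k1, k2⟩ := key _ le_rfl
  exact ⟨_, fun s => Nat.find_min ex, Nat.find_spec ex, g, k1, k2,
    (al g (ti_al H h k2)).1.1 (k1 ▸ Nat.find_spec ex)⟩

theorem not_sad {t1 t2 : ℕ} (h1 : ∀ s < t1, ¬M.Alt (M.nr^[s] (M.nr x)))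
    (h2 : ∀ s < t2, ¬M.Alt (M.nr^[s] (M.nr (M.nr^[t1] (M.nr x)))))
    (e : M.nr^[t2] (M.nr (M.nr^[t1] (M.nr x))) = x) (d : M.nr^[t1] (M.nr x) % 4 ≠ x % 4) :
    ¬M.Sad x := by
  have key : ∀ y, M.Rg x y → M.Alt y → y = x ∨ y = M.nr^[t1] (M.nr x) := fun y u w => by
    have := rg_ind (Q := fun y => (∃ s ≤ t1, y = M.nr^[s] (M.nr x)) ∨
      ∃ s ≤ t2, y = M.nr^[s] (M.nr (M.nr^[t1] (M.nr x)))) u (Or.inr ⟨t2, le_rfl, e.symm⟩) (by
        rintro _ (⟨s, l, rfl⟩ | ⟨s, l, rfl⟩) <;> rcases l.lt_or_eq with l | rfl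
        · exact Or.inl ⟨s + 1, l, (Function.iterate_succ_apply' _ _ _).symm⟩
        · exact Or.inr ⟨0, by omega, rfl⟩
        · exact Or.inr ⟨s + 1, l, (Function.iterate_succ_apply' _ _ _).symm⟩
        · exact Or.inl ⟨0, by omega, by rw [e]; rfl⟩)
    rcases this with ⟨s, l, rfl⟩ | ⟨s, l, rfl⟩ <;> rcases l.lt_or_eq with l | rfl
    exacts [absurd w (h1 s l), Or.inr rfl, absurd w (h2 s l), Or.inl e]
  rintro ⟨y, y', k1, k2, k3, k4, k5, k6⟩
  rcases key y k1 k4 with rfl | i1 <;> rcases key y' k2 k5 with i2 | i2 <;> omega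

theorem alt_pt (H : M.Ok) (hk : k < 4) (h : M.al a) (e : M.ss k a = k) :
    M.nr (pt a ((k + 3) % 4)) = pt (M.st k a) ((k + 1) % 4) ∧ M.Alt (pt a ((k + 3) % 4)) := by
  rw [Cm.Alt, nr_pt H h (i := k) (by omega), e]
  unfold pt ep
  split_ifs <;> omega

theorem turn1 (H : M.Ok) (hk : k < 4) (h : M.al a) (e : M.ss k a = k) :
    ∃ d u, M.Ti ((k + 2) % 4) ((k + 1) % 4) (M.st k a) d ∧ M.ss ((k + 2) % 4) d = (k + 2) % 4 ∧
      M.Ti k ((k + 3) % 4) (M.st ((k + 2) % 4) d) u ∧ M.ss k u = k ∧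
      M.Rg (pt a ((k + 3) % 4)) (pt u ((k + 3) % 4)) ∧ (M.Sad (pt a ((k + 3) % 4)) ↔ u ≠ a) := by
  obtain ⟨a1, a2⟩ := alt_pt H hk h e
  have nc : ∀ y, M.Rg (pt a ((k + 3) % 4)) y → ¬M.Crit y := fun y u v =>
    (crit_rg H u).2 v _ (rg_refl _ _) a2
  have hb := H.al_st k h
  have r0 := a1 ▸ rg_nr M (pt a ((k + 3) % 4))
  obtain ⟨t1, k1, -, d, k2, k3, k4⟩ := run1 H (i := (k + 2) % 4) (j := (k + 1) % 4) (by omega)
    (by omega) hb (nc _ r0)
  have hd := ti_al H hb k3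
  obtain ⟨b1, -⟩ := alt_pt H (k := (k + 2) % 4) (by omega) hd k4
  rw [show ((k + 2) % 4 + 3) % 4 = (k + 1) % 4 by omega,
    show ((k + 2) % 4 + 1) % 4 = (k + 3) % 4 by omega] at b1
  have r1 := rg_trans (rg_trans r0 ⟨t1, k2⟩) (b1 ▸ rg_nr M _)
  obtain ⟨t2, l1, l0, u, l2, l3, l4⟩ := run1 H hk rfl (H.al_st _ hd) (nc _ r1)
  have r2 := rg_trans r1 ⟨t2, l2⟩
  refine ⟨d, u, k3, k4, l3, l4, r2, fun s v => ?_, fun v => ⟨_, _, rg_refl _ _, r2, fun w => v ?_,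
    a2, l2 ▸ l0, by rw [pt_mod, pt_mod]⟩⟩
  · refine not_sad (t1 := t1) (t2 := t2) ?_ ?_ ?_ ?_ s <;> rw [a1]
    · exact k1
    · rwa [k2, b1]
    · rw [k2, b1, l2, v]
    · rw [k2, pt_mod, pt_mod]
      omega
  · rw [← pt_div u ((k + 3) % 4), ← w, pt_div]

theorem tw_ti (H : M.Ok) (h : g < 8) (ho : o < 4) (k : M.al u) :
    (M.tw g).Ti i o u v ↔ M.Ti (fp g i) (fs g o) u v := by
  unfold Cm.Ti
  simp only [tw_wk h, tw_ss_iff H h i (wk_al H k _ _) ho]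

/-- The mirror that keeps the type `k`. -/
theorem mir (hk : k < 4) : ∃ g < 8, fp g k = k ∧ fp g ((k + 2) % 4) = (k + 2) % 4 ∧ fs g k = (k + 3) % 4 ∧
    fs g ((k + 3) % 4) = k ∧ fs g ((k + 2) % 4) = (k + 1) % 4 ∧ fs g ((k + 1) % 4) = (k + 2) % 4 :=
  ⟨4 + 2 * k % 4, by omega, by interval_cases k <;> decide⟩

theorem turn0 (H : M.Ok) (hk : k < 4) (h : M.al a) :
    ∃ d u, M.Ti ((k + 2) % 4) ((os k (M.ss k a) + 2) % 4) (M.st k a) d ∧
      M.ss ((k + 2) % 4) d = (M.ss k a + 2) % 4 ∧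
      M.Ti k (os k (M.ss k a)) (M.st ((k + 2) % 4) d) u ∧ M.ss k u = M.ss k a ∧
      M.Rg (pt a (os k (M.ss k a))) (pt u (os k (M.ss k a))) ∧
      (M.Sad (pt a (os k (M.ss k a))) ↔ u ≠ a) := by
  rcases ss_os M hk a with ⟨e, e'⟩ | ⟨e, e'⟩ <;> rw [e', e]
  · rw [show ((k + 3) % 4 + 2) % 4 = (k + 1) % 4 by omega]
    exact turn1 H hk h e
  · obtain ⟨g, hg, g1, g2, g3, g4, g5, g6⟩ := mir hk
    obtain ⟨d, u, k1, k2, k3, k4, k5, k6⟩ := turn1 (tw_ok H hg) hk (tw_al H hg ▸ h)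
      ((tw_ss_iff H hg k h hk).2 (by rw [g1, g3, e]))
    rw [tw_st hg, g1, tw_ti H hg (by omega) (H.al_st k h), g2, g6] at k1
    have hd := ti_al H (H.al_st k h) k1
    rw [tw_st hg, g2, tw_ti H hg (by omega) (H.al_st _ hd), g1, g4] at k3
    rw [tw_ss_iff H hg _ hd (by omega), g2, g5] at k2
    rw [tw_ss_iff H hg _ (ti_al H (H.al_st _ hd) k3) hk, g1, g3] at k4
    rw [tw_rg H hg, ts_pt, ts_pt, g4] at k5
    rw [tw_sad H hg, ts_pt, g4] at k6
    exact ⟨d, u, k1, by rw [k2]; omega, k3, k4, k5, k6⟩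

theorem turn (H : M.Ok) (hk : k < 4) (h : M.al a) :
    M.FE ((k + 2) % 4) (M.st k a) ((M.ss k a + 2) % 4) < M.n ∧
    ∃ u, M.Ti k (os k (M.ss k a)) (M.FE ((k + 2) % 4) (M.st k a) ((M.ss k a + 2) % 4)) u ∧
      M.ss k u = M.ss k a ∧ (M.Prb (pt a k) ↔ u ≠ a) ∧ (u ≠ a → M.Prb (pt u k)) := by
  obtain ⟨d, u, k1, k2, k3, k4, k5, k6⟩ := turn0 H hk h
  have hd := H.al_st ((k + 2) % 4) (ti_al H (H.al_st k h) k1)
  have := ss_os M hk a
  rw [← k2, ti_fe H (H.al_st k h) k1 (by omega)]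
  exact ⟨H.lt _ hd, u, k3, k4, by rw [psad H hk, and_iff_right h, k6], fun v => by
    rw [psad H hk, k4]; exact ⟨ti_al H hd k3, (sad_rg H k5).1 (k6.2 v)⟩⟩

theorem run2 (H : M.Ok) (hi : i < 4) (ho : o = i ∨ o = (i + 3) % 4) (h : M.al c)
    (n : ¬M.Crit (pt c o)) : ∃ g, M.Ti i o c g ∧ M.ss i g ≠ o := by
  rcases ho with rfl | rfl
  · obtain ⟨g, hg, g1, -, g3, g4, -⟩ := mir hi
    obtain ⟨-, -, -, d, -, k1, k2⟩ := run1 (tw_ok H hg) hi rfl (tw_al H hg ▸ h)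
      (by rwa [tw_crit H hg, ts_pt, g4])
    rw [tw_ti H hg (by omega) h, g1, g4] at k1
    rw [tw_ss_iff H hg _ (ti_al H h k1) hi, g1, g3] at k2
    exact ⟨d, k1, by omega⟩
  · obtain ⟨-, -, -, d, -, k1, k2⟩ := run1 H hi rfl h n
    exact ⟨d, k1, by omega⟩

theorem bk (H : M.Ok) (hk : k < 4) (h : M.al a) :
    ∃ g, M.Ti (ep k (os k (M.ss k a))) (os k (M.ss k a)) a g ∧
      M.ss (ep k (os k (M.ss k a))) g ≠ os k (M.ss k a) ∧
      (M.Prb (pt g (ep k (os k (M.ss k a)))) ↔ M.Prb (pt a k)) := by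
  have r := rg2 H hk h
  have c := ss_os M hk a
  rw [psad H hk]
  generalize os k (M.ss k a) = o at *
  have e : ep k o < 4 ∧ (o = ep k o ∨ o = (ep k o + 3) % 4) := by unfold ep; split_ifs <;> omega
  obtain ⟨g, k1, k2⟩ := run2 H e.1 e.2 h fun v => by
    have := crit_mod v r
    rw [pt_mod, pt_mod] at this
    omega
  have := ss_os M e.1 g
  refine ⟨g, k1, k2, ?_⟩
  rw [psad H e.1, show os (ep k o) (M.ss (ep k o) g) = o by omega, and_iff_right h,
    and_iff_right (ti_al H h k1), sad_rg H (ti_rg H e.1 h k1)]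

theorem trace (H : M.Ok) (hk : k < 4) (χ : ℕ → Prop)
    (hχ : ∀ c, M.al c → (χ (M.st ((k + 2) % 4) c) ↔ χ c)) (h : M.al a)
    (d : ¬(χ a ↔ χ (M.st k a))) (p : ¬M.Prb (pt a k)) : ∃ a', M.al a' ∧ M.Pa k (M.st k a') a ∧
      M.ss k a' ≠ M.ss k a ∧ (χ a' ↔ χ (M.st k a)) ∧ (χ (M.st k a') ↔ χ a) := by
  obtain ⟨k0, u, k1, -, k2, -⟩ := turn H hk h
  obtain rfl : u = a := not_not.1 (mt k2.2 p)
  obtain ⟨-, t, k3, -⟩ := Cm.FE_spec H k0
  have hb := H.al_st k h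
  have inv := iter_inv (f := M.st ((k + 2) % 4)) (Q := fun c => M.al c ∧ (χ c ↔ χ (M.st k u)))
    (fun c v => ⟨H.al_st _ v.1, (hχ c v.1).trans v.2⟩) ⟨hb, Iff.rfl⟩ (t + 1)
  rw [show (M.st ((k + 2) % 4))^[t + 1] (M.st k u) = _ from k3.symm] at inv
  generalize M.FE ((k + 2) % 4) (M.st k u) ((M.ss k u + 2) % 4) = e at *
  have key : ∀ v, ReflTransGen (fun x y => y = M.st k x ∧ M.ss k x = os k (M.ss k u)) e v →
      ¬(χ v ↔ χ e) → ∃ a', M.al a' ∧ M.Pa k (M.st k a') v ∧ M.ss k a' = os k (M.ss k u) ∧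
        (χ a' ↔ χ e) ∧ ¬(χ (M.st k a') ↔ χ e) := fun v w => by
    induction w with
    | refl => exact fun n => absurd Iff.rfl n
    | @tail x y w s ih =>
      obtain ⟨rfl, s⟩ := s
      intro n
      by_cases l : χ x ↔ χ e
      · exact ⟨x, ti_al H inv.1 (ti_iff.2 w), Cm.Pa.refl _ _, s, l, n⟩
      · obtain ⟨a', j1, j2, j3⟩ := ih l
        exact ⟨a', j1, j2.trans (Cm.Pa.step _ _), j3⟩
  obtain ⟨a', j1, j2, j3, j4, j5⟩ := key u (ti_iff.1 k1) (by tauto)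
  have := ss_os M hk u
  exact ⟨a', j1, j2, by omega, by tauto, by tauto⟩

theorem back {n : ℕ} (S : ℕ → Prop) (r : ℕ → ℕ → Prop) (h : ∀ a, S a → a < n ∧ ∃ b, S b ∧ r b a)
    (k : ∃ a, S a) : ∃ a, S a ∧ TransGen r a a := by
  obtain ⟨a, k⟩ := k
  have e : ∀ a, ∃ b, S a → S b ∧ r b a := fun a => by
    by_cases u : S a
    · exact (h a u).2.imp fun _ v _ => v
    · exact ⟨0, fun v => absurd v u⟩
  choose f hf using e
  obtain ⟨s, l, e⟩ := iter_bnd' (Q := S) (f := f) (fun a u => (hf a u).1) (fun a u => (h a u).1) k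
    (rfl : f^[n] a = _)
  have sa := iter_inv (Q := S) (f := f) (fun a u => (hf a u).1) k s
  have := (iter_inv (f := f) (Q := fun b => S b ∧ TransGen r b (f^[s] a))
    (fun b u => ⟨(hf b u.1).1, u.2.head (hf b u.1).2⟩) ⟨(hf _ sa).1, .single (hf _ sa).2⟩
    (n - s - 1)).2
  rw [← Function.iterate_succ_apply, ← Function.iterate_add_apply,
    show (n - s - 1).succ + s = n by omega, ← e] at this
  exact ⟨_, sa, this⟩

end Fl

theorem flowS : FlowS := fun _ H =>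
  ⟨fun _ hk _ => Fl.rg1 H hk, fun _ hk _ => Fl.rg2 H hk, Fl.plk H, fun _ hk _ => Fl.psad H hk,
    fun _ hk _ => Fl.turn H hk, fun _ hk _ => Fl.bk H hk, fun _ hk _ _ _ => Fl.rev H hk,
    fun _ hk χ _ => Fl.trace H hk χ, Fl.back⟩

theorem prbS : PrbS := fun M P H G p => by
  unfold Pr.prb
  rw [G.al]
  by_cases h : M.al (p / 4)
  swap
  · exact ⟨fun v => absurd v.1 h, fun v => absurd v.1 h⟩
  have e : P.lo p = M.lo p := by unfold Pr.lo Cm.lo; rw [G.lam, if_pos h]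
  have par := H.par p h
  obtain ⟨a, k, hk, ha, e1, e2, e3⟩ : ∃ a k, k < 4 ∧ M.al a ∧ M.lo p = pt a k ∧ M.ss k a = k ∧
      (M.Prb p ↔ M.Prb (pt a k)) := by
    unfold Cm.lo
    split_ifs with u
    · have : pt (p / 4) (p % 4) = p := by unfold pt; omega
      exact ⟨p / 4, p % 4, by omega, h, this.symm, by
        rw [Cm.ss, this]; unfold sd; split_ifs <;> omega, by rw [this]⟩
    · have : pt (M.lk p / 4) (M.lk p % 4) = M.lk p := by unfold pt; omega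
      exact ⟨M.lk p / 4, M.lk p % 4, by omega, al_lk H h, this.symm, by
        rw [Cm.ss, this, H.inv]; unfold sd; split_ifs <;> omega, by rw [this, Fl.plk H]⟩
  obtain ⟨d, u, k1, k2, k3, k4, -, k6⟩ := Fl.turn0 H hk ha
  obtain ⟨g, l1, l2, -⟩ := Fl.bk H hk ha
  rw [e3, Fl.psad H hk, k6, and_iff_right h, and_iff_right ha, e, e1, G.lam (pt a k), pt_div,
    if_pos ha, show (pt a k + 3) % 4 = (k + 3) % 4 by unfold pt; omega,
    show (pt a k + 2) % 4 = (k + 2) % 4 by unfold pt; omega, G.FE _ (by omega) _ (by omega),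
    G.FE _ (by omega) _ (by omega)]
  have o : os k (M.ss k a) = (k + 3) % 4 := by rw [e2]; simp [os]
  have w : ep k ((k + 3) % 4) = (k + 3) % 4 := by unfold ep; split_ifs <;> omega
  rw [o, w] at l1 l2
  rw [o] at k1 k3
  rw [e2] at k2 k4
  have hb := H.al_st k ha
  have hd := Fl.ti_al H hb k1
  have hg := Fl.ti_al H ha l1
  have s : M.ss ((k + 3) % 4) g = (k + 2) % 4 := by
    have := Cm.ss_cases (M := M) ((k + 3) % 4) g
    omega
  have f1 := Fl.ti_fe H ha l1 l2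
  have f2 := Fl.ti_fe H hb k1 (by omega)
  rw [s] at f1
  rw [k2] at f2
  have b1 := H.lk_pt (i := (k + 3) % 4) hg
  have b2 := H.lk_pt (i := (k + 2) % 4) hd
  rw [f1, show M.lk (pt a k) / 4 = M.st k a from rfl, f2, G.lam, pt_div, if_pos (H.al_st _ hg),
    Fl.pt_cg (j := ep ((k + 3) % 4) (M.ss ((k + 3) % 4) g)) _ (by
      rw [s]; unfold pt ep; split_ifs <;> omega), ← b1, H.inv]
  have he := H.al_st ((k + 2) % 4) hd
  have se : M.ss ((k + 3) % 4) (M.st ((k + 2) % 4) d) ≠ (k + 3) % 4 := by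
    rw [Cm.ss, Fl.pt_cg (j := ep ((k + 2) % 4) (M.ss ((k + 2) % 4) d)) _ (by
      rw [k2]; unfold ep; split_ifs <;> omega), ← b2, H.inv]
    unfold sd pt
    split_ifs <;> omega
  refine not_congr ⟨fun v => ?_, fun v => ?_⟩
  · obtain rfl : g = M.st ((k + 2) % 4) d := by unfold pt at v; omega
    have := Fl.rev H (by omega) ha (Or.inl rfl) l1
    rw [show ep ((k + 3) % 4) ((k + 3) % 4) = k by unfold ep; split_ifs <;> omega] at this
    exact Fl.ti_uniq k3 (by omega) this (by omega)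
  · have := Fl.rev H hk he (Or.inr rfl) k3
    rw [w, v] at this
    rw [Fl.ti_uniq l1 l2 this se]
    unfold pt
    omega

/-- The primitives in another frame. -/
theorem geo_tw {M : Cm} {P : Pr} {g : ℕ} (H : M.Ok) (G : Geo M P) (h : g < 8) :
    Geo (M.tw g) (P.tw M.n g) := by
  refine ⟨G.al.trans (tw_al H h).symm, fun p => ?_, tw_nm H h G.nm, fun i _ a ha c => ?_,
    fun fl a b A B ha hb ne wA wB => ?_⟩
  · rw [tw_al H h]
    show ite (P.al _) (tp _ (P.lam _)) _ = _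
    rw [G.lam, tp_div, G.al]
    split_ifs <;> rfl
  · rw [tw_fe H h i c ha]
    exact G.FE _ (fp_lt _ _) _ (fs_lt _ _) c
  · have wo : ∀ A, (M.tw g).wo A → M.wo (A.tw g) ∧ ((M.tw g).ok A ↔ M.ok (A.tw g)) := fun A w => by
      unfold Cm.wo at *
      rw [tw_al H h] at w
      have : M.al A.p → M.ok (A.tw g) := fun k => (tw_sok H h (w k).1).1 (w k)
      exact ⟨this, fun k => this (tw_al H h ▸ k.2.1), fun k => w k.2.1⟩
    have sv : ∀ (A : Sg) a t, a < 4 → M.al A.p →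
        ((M.tw g).sv A t = a ↔ M.sv (A.tw g) t = fs g a) := fun A a t ha k => by
      unfold Cm.sv
      split_ifs
      · have := fs_lt g a
        have := fs_inj (a := A.s) (b := a) h
        show _ ↔ ite _ _ _ = _
        split_ifs <;> omega
      · rw [tw_wk h]
        exact tw_ss_iff H h _ (wk_al H k _ _) ha
    have el : ∀ A, (M.tw g).el A = M.el (A.tw g) ∧ (M.tw g).ln A = M.ln (A.tw g) := fun A =>
      ⟨tw_el h A, tw_ln h A⟩
    refine (G.F fl _ _ _ _ (fs_lt _ _) (fs_lt _ _) (fun e => ne (by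
      have := (fs_inj h).1 e; omega)) (wo A wA).1 (wo B wB).1).trans ?_
    unfold Cm.F
    rw [(wo A wA).2, (wo B wB).2, tw_n]
    by_cases k : M.ok (A.tw g) ∧ M.ok (B.tw g)
    · have e : (M.tw g).hit a b A B = M.hit (fs g a) (fs g b) (A.tw g) (B.tw g) := by
        funext t
        unfold Cm.hit Cm.Ps
        simp only [(el _).1, (el _).2, sv A a _ ha k.1.2.1, sv B b _ hb k.2.2.1]
      rw [e, (el A).1]
    · rw [if_neg fun v => k ⟨v.1, v.2.1⟩, if_neg fun v => k ⟨v.1, v.2.1⟩]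

end Pool.Agent.MP_1a6d78_lc.PG
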