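import Pool.Agent.MP_1a6d78_lc.PG.CList
import Pool.Agent.MP_1a6d78_lc.PG.CLam
import Pool.Agent.MP_1a6d78_lc.PG.CEn
import Pool.Agent.MP_1a6d78_lc.PG.CFe
import Pool.Agent.MP_1a6d78_lc.PG.CCov
import Pool.Agent.MP_1a6d78_lc.PG.Flow
import Pool.Agent.MP_1a6d78_lc.PG.FWalk
import Pool.Agent.MP_1a6d78_lc.PG.FReg
import Pool.Agent.MP_1a6d78_lc.PG.FTw
import Pool.Agent.MP_1a6d78_lc.PG.FTwC
import Pool.Agent.MP_1a6d78_lc.PG.FCutEx
import Pool.Agent.MP_1a6d78_lc.PG.FBas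
import Pool.Agent.MP_1a6d78_lc.PG.FOm
import Pool.Agent.MP_1a6d78_lc.PG.FCutW
import Pool.Agent.MP_1a6d78_lc.PG.FCutN
import Pool.Agent.MP_1a6d78_lc.PG.FCutR

/-! PROJECT PG: the cut round. -/

namespace Pool.Agent.MP_1a6d78_lc.PG

theorem cut_of (O : S_Om) (X : S_CutEx) (C : S_CutR) (R : S_Reg) : CutS := by
  intro K M H
  obtain ⟨M', S⟩ := Ct.cutm_ex H.ok K.ccut
  have o' := S.ok' H.ok
  have sel := cSel O K M H
  have c1 : K.C1 M M' := ⟨H, S, sel, cLam K M M' H S sel⟩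
  have ea : K.P.al = M'.al := H.geo.al.trans (S.al' H.ok).symm
  have geo : Geo M' K.cN := ⟨ea, fun p => by rw [S.al' H.ok, S.n]; exact c1.lam p, cEn K M M' c1,
    cFe K M M' c1, by
      have := H.geo.genF_gf H.ok o' S.n ea 0 (cCov K M M' c1)
      rwa [← H.n] at this⟩
  obtain ⟨x1, x2, -⟩ := (X M H.ok).1 M' K.ccut fun v r => ((sel.cut v).1 r).2.1.ring
  exact ⟨M', S, o', ⟨geo.al, geo.lam, geo.nm, geo.FE, geo.F⟩,
    Rn.C2.hy ⟨c1, geo, O, (C M M' _ H.ok o' x1 (x2.1 S)).prb, (R M H.ok).prb_lk, (R M' o').prb_lk,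
      prbS M K.P H.ok H.geo, prbS M' K.cN o' geo⟩, sel.cut⟩

theorem cutS : CutS :=
  have R := fReg fWalk
  have W := fCutW fWalk
  have X := fCutEx fWalk fTw (fTwC fWalk fTw)
  have C := fCutR fWalk R W fCutN
  cut_of (fOm fWalk R X W C (fBas fWalk R)) X C R

end Pool.Agent.MP_1a6d78_lc.PG
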