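import Pool.Agent.MP_1a6d78_lc.PG.Prog

/-! PROJECT PG: walks after the cut of rings of type 0. -/

namespace Pool.Agent.MP_1a6d78_lc.PG

open Classical ED PR PL

namespace Cm

variable {M M' : Cm} {R : ℕ → Prop} {a b i y u c p : ℕ}

/-- A cell of kind `a` of a ring that is cut. -/
def Rk (M : Cm) (R : ℕ → Prop) (a y : ℕ) : Prop := ∃ v, R v ∧ M.Rc v a y

/-- The `i`-walk leaves `y` by a link of a ring that is cut. -/
def Rp (M : Cm) (R : ℕ → Prop) (i y : ℕ) : Prop := ∃ a, M.Rk R a y ∧ (i = 0 ∨ i = ep 0 a)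

theorem Kd.zero (k : M.Kd 0 a y) : a = 0 ∨ a = 3 := (Ct.en_kd k).2

theorem kd_step (p : M.Per i u) : M.Kd i (M.ss i u) (M.st i u) := ⟨u, p, rfl, rfl⟩

theorem Rk.kd (k : M.Rk R a y) : M.Kd 0 a y := let ⟨_, _, u⟩ := k; u.1

theorem Rk.al (h : M.Ok) (k : M.Rk R a y) : M.al y := (k.kd.per h).1

theorem Rk.co (k : M.Rk R a y) (l : M.Kd 0 b u) (e : M.Co 0 u y) : M.Rk R b u :=
  let ⟨v, r, w⟩ := k; ⟨v, r, l, e.trans w.2⟩

/-- The predecessor on the cycle. -/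
theorem Kd.pred (h : M.Ok) (k : M.Kd i a y) : ∃ r, M.Per i r ∧ M.st i r = y ∧ M.ss i r = a ∧
    M.lk (pt y (ep i a)) = pt r i := by
  obtain ⟨r, r1, rfl, rfl⟩ := k
  exact ⟨r, r1, rfl, rfl, by rw [← h.lk_pt r1.1, h.inv]⟩

/-- A step backwards along a cycle of type 0. -/
theorem back0 (h : M.Ok) (p : M.Per 0 u) : M.st (ep 0 (M.ss 0 u)) (M.st 0 u) = u ∧
    M.ss (ep 0 (M.ss 0 u)) (M.st 0 u) = M.ss 0 u := by
  have e : M.lk (pt (M.st 0 u) (ep 0 (M.ss 0 u))) = pt u 0 := by rw [← h.lk_pt p.1, h.inv]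
  refine ⟨by rw [st, e, pt_div], ?_⟩
  rw [ss, e]
  rcases (kd_step p).zero with c | c <;> rw [c] <;> unfold sd ep pt <;> simp

/-- How a walk arrives at a cycle of type 0. -/
theorem arr0 (h : M.Ok) (hu : M.al u) (k : M.Kd 0 a (M.st i u))
    (hi : (i = 0 ∧ b = 3 - a) ∨ (i = 1 ∧ a = 0 ∧ b = 1) ∨ (i = 3 ∧ a = 3 ∧ b = 2)) :
    M.ss i u = b ∨ ∃ a', M.Kd 0 a' u ∧ M.Co 0 u (M.st i u) ∧ (i = 0 ∨ i = ep 0 a') := by
  have z := k.zero
  have s := ss_cases (M := M) i u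
  by_cases c : M.ss i u = b
  · exact Or.inl c
  right
  rcases hi with ⟨rfl, rfl⟩ | hi
  · obtain ⟨r, r1, r2, r3⟩ := k
    have : r = u := h.st_inj r1.1 hu r2 (by omega)
    subst this
    obtain ⟨a', k'⟩ := r1.kd h
    exact ⟨a', k', (Pa.step _ _).co, Or.inl rfl⟩
  · have e := h.lk_pt (i := i) hu
    have e2 : M.lk (pt (M.st i u) 0) = pt u i := by
      rw [← h.inv (pt u i), e]
      congr 1
      unfold pt ep
      split_ifs <;> omega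
    have e3 : M.st 0 (M.st i u) = u := by rw [st, e2, pt_div]
    have e4 : M.ss 0 (M.st i u) = a := by
      rw [ss, e2]
      unfold sd pt
      split_ifs <;> omega
    have k' := kd_step (k.per h)
    rw [e3, e4] at k'
    refine ⟨a, k', Co.symm (Pa.co ⟨1, e3⟩), Or.inr ?_⟩
    unfold ep
    split_ifs <;> omega

theorem fe_kd (h : M.Ok) (k : M.Kd 0 a y) : ∃ t, M.FE 0 y a = M.wk 0 y (t + 1) ∧
    M.Kd 0 a (M.wk 0 y (t + 1)) ∧ ∀ s < t, M.Kd 0 (3 - a) (M.wk 0 y (s + 1)) := by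
  obtain ⟨-, t, t1, t2, t3⟩ := FE_spec h (Ct.cv_fe h k).1
  have pw : ∀ s, M.Kd 0 (M.ss 0 (M.wk 0 y s)) (M.wk 0 y (s + 1)) := fun s => by
    rw [wk_succ]; exact kd_step ((k.per h).pa h (Pa.wk _ _ _)).1
  refine ⟨t, t1, t2 ▸ pw t, fun s hs => ?_⟩
  have := (pw s).zero
  have := k.zero
  have := t3 s hs
  rw [show 3 - a = M.ss 0 (M.wk 0 y s) by omega]
  exact pw s

/-- The first cell of kind `a` of a cycle. -/
theorem fe_rc (h : M.Ok) {v : ℕ} (p : M.Per 0 v) (k : M.FE 0 v a < M.n) :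
    M.Rc v a (M.FE 0 v a) := by
  obtain ⟨-, t, t1, t2, -⟩ := FE_spec h k
  rw [t1]
  exact ⟨by rw [wk_succ, ← t2]; exact kd_step (p.pa h (Pa.wk _ _ _)).1, (Pa.wk _ _ _).co.symm⟩

theorem fe_lt (h : M.Ok) {v : ℕ} (p : M.Per 0 v) (k : M.Rc v a y) : M.FE 0 v a < M.n := by
  obtain ⟨r, r1, r2, r3⟩ := k.1
  obtain ⟨t, e⟩ := ((r2 ▸ Pa.step 0 r : M.Pa 0 r y).co.trans k.2).symm.pa h r1
  exact lt_of_le_of_ne ((FE_le h _ _ _).elim le_of_eq fun u => (h.lt _ u).le)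
    fun c => (FE_none h p.1).1 c t (by rw [e, r3])

/-- From the predecessor back to the previous cell of the same kind. -/
theorem prev0 (h : M.Ok) (k : M.Kd 0 a u) {r : ℕ} (p : M.Per 0 r) (e : M.st 0 r = M.FE 0 u a) :
    ∃ t, M.wk (ep 0 (3 - a)) r t = u ∧ (∀ s ≤ t, M.sw (ep 0 (3 - a)) r (3 - a) s = 3 - a) ∧
      ∀ s < t, M.Kd 0 (3 - a) (M.wk (ep 0 (3 - a)) r s) := by
  obtain ⟨t, t1, -, t3⟩ := fe_kd h k
  have pw : ∀ s, M.Per 0 (M.wk 0 u s) := fun s => ((k.per h).pa h (Pa.wk _ _ _)).1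
  have er : r = M.wk 0 u t := p.st_inj h (pw t) (by rw [e, t1, wk_succ])
  have s1 : ∀ s < t, M.ss 0 (M.wk 0 u s) = 3 - a := fun s hs =>
    Kd.uniq h (by rw [wk_succ]; exact kd_step (pw s)) (t3 s hs)
  have w : ∀ j ≤ t, M.wk (ep 0 (3 - a)) r j = M.wk 0 u (t - j) := fun j => by
    induction j with
    | zero => exact fun _ => er
    | succ j ih =>
      intro hj
      rw [wk_succ, ih (by omega), show t - j = t - (j + 1) + 1 by omega, wk_succ,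
        ← s1 (t - (j + 1)) (by omega)]
      exact (back0 h (pw _)).1
  refine ⟨t, by rw [w t le_rfl, Nat.sub_self]; rfl, fun s hs => ?_, fun s hs => ?_⟩
  · cases s with
    | zero => rfl
    | succ s =>
      rw [sw_succ, w s (by omega), show t - s = t - (s + 1) + 1 by omega, wk_succ,
        ← s1 (t - (s + 1)) (by omega)]
      exact (back0 h (pw _)).2
  · rw [w s hs.le, show t - s = t - (s + 1) + 1 by omega]
    exact t3 _ (by omega)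

namespace Cutm

variable (h : M.Ok) (S : M.Cutm M' R)
include h S

theorem ok' : M'.Ok := Ct.cutm_ok h S

theorem al' : M'.al = M.al := Ct.cutm_al h S

omit h in
theorem off' (k : ¬M.Rp R (p % 4) (p / 4)) : M'.lk p = M.lk p :=
  S.off p fun ⟨v, a, r, w, e⟩ => k ⟨a, ⟨v, r, w⟩, e⟩

omit h in
theorem off_pt (hi : i < 4) (k : ¬M.Rp R i c) : M'.lk (pt c i) = M.lk (pt c i) :=
  S.off' (by rw [pt_mod, pt_div, Nat.mod_eq_of_lt hi]; exact k)

omit h in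
theorem exit (k : M.Rk R a y) : M'.lk (pt y 0) = pt (M.FE 0 y a) (ep 0 a) :=
  let ⟨v, r, w⟩ := k; S.ring v a y r w

theorem fwd (k : M.Rk R a y) : M'.st 0 y = M.FE 0 y a ∧ M'.ss 0 y = a ∧
    M.Rk R a (M.FE 0 y a) ∧ M.Pa 0 y (M.FE 0 y a) := by
  obtain ⟨t, t1, t2, -⟩ := fe_kd h k.kd
  refine ⟨by rw [st, S.exit k, pt_div], ?_, t1 ▸ k.co t2 (Pa.wk _ _ _).co.symm, t1 ▸ Pa.wk _ _ _⟩
  rw [ss, S.exit k]
  rcases k.kd.zero with rfl | rfl <;> unfold sd ep pt <;> simp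

theorem subw (a : ℕ) : SubW M M' 0 0 (M.Rk R a) := fun u k => by
  obtain ⟨t, t1, -, t3⟩ := fe_kd h k.kd
  obtain ⟨f1, -, f3, -⟩ := S.fwd h k
  refine ⟨t, f1.trans t1, f1 ▸ f3, fun s hs c => ?_⟩
  have := c.kd.uniq h (t3 s hs)
  have := k.kd.zero
  omega

theorem pa0 (k : M.Rk R a y) (u : ℕ) : M'.Pa 0 y u ↔ M.Rk R a u ∧ M.Co 0 u y := by
  rw [(S.subw h a).pa k]
  exact ⟨fun c => ⟨c.2, c.1.co.symm⟩, fun c => ⟨c.2.symm.pa h (c.1.kd.per h), c.1⟩⟩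

theorem per0 (k : M.Rk R a y) : M'.Per 0 y := by
  obtain ⟨f1, -, f3, f4⟩ := S.fwd h k
  exact ⟨S.al' h ▸ k.al h, f1 ▸ (S.pa0 h f3 y).2 ⟨k, f4.co⟩⟩

omit h in
theorem entry (k : M.Rk R a u) : M'.lk (pt (M.FE 0 u a) (ep 0 a)) = pt u 0 := by
  rw [← S.exit k, S.inv]

theorem bwd (k : M.Rk R a y) : ∃ u, M.Rk R a u ∧ M.Co 0 u y ∧ M.FE 0 u a = y ∧
    M'.lk (pt y (ep 0 a)) = pt u 0 := by
  obtain ⟨t, e⟩ := (S.per0 h k).2
  obtain ⟨u1, u2⟩ := (S.pa0 h k _).1 (Pa.wk 0 y t)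
  have e' : M.FE 0 (M'.wk 0 y t) a = y := by rw [← (S.fwd h u1).1, ← wk_succ, wk_succ', e]
  exact ⟨_, u1, u2, e', by rw [← S.entry u1, e']⟩

theorem st_st (k : M.Rk R a u) : M'.st (ep 0 a) (M'.st 0 u) = u := by
  rw [(S.fwd h k).1, st, S.entry k, pt_div]

/-- On a cut ring both walks stay on the cells of one kind. -/
theorem step (k : M.Rk R a y) (hi : i = 0 ∨ i = ep 0 a) :
    M'.ss i y = a ∧ M.Rk R a (M'.st i y) ∧ M.Co 0 (M'.st i y) y := by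
  rcases hi with rfl | rfl
  · obtain ⟨f1, f2, f3, f4⟩ := S.fwd h k
    exact ⟨f2, f1 ▸ f3, f1 ▸ f4.co.symm⟩
  · obtain ⟨u, u1, u2, -, u4⟩ := S.bwd h k
    have e : M'.st (ep 0 a) y = u := by rw [st, u4, pt_div]
    refine ⟨?_, e ▸ u1, e ▸ u2⟩
    rw [ss, u4]
    rcases k.kd.zero with rfl | rfl <;> unfold sd ep pt <;> simp

theorem pa_iff (k : M.Rk R a y) (hi : i = 0 ∨ i = ep 0 a) (u : ℕ) :
    M'.Pa i y u ↔ M.Rk R a u ∧ M.Co 0 u y := by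
  constructor
  · rintro ⟨t, rfl⟩
    induction t with
    | zero => exact ⟨k, Co.refl _ _⟩
    | succ t ih =>
      rw [wk_succ]
      exact ⟨(S.step h ih.1 hi).2.1, (S.step h ih.1 hi).2.2.trans ih.2⟩
  · rintro ⟨c1, c2⟩
    rcases hi with rfl | rfl
    · exact (S.pa0 h k u).2 ⟨c1, c2⟩
    · obtain ⟨t, rfl⟩ := (S.pa0 h c1 y).2 ⟨k, c2.symm⟩
      clear k c2
      induction t with
      | zero => exact Pa.refl _ _
      | succ t ih =>
        refine Pa.trans ?_ ih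
        have e := S.st_st h ((S.pa0 h c1 _).1 (Pa.wk 0 u t)).1
        rw [wk_succ]
        exact ⟨1, e⟩

theorem per_i (k : M.Rk R a y) (hi : i = 0 ∨ i = ep 0 a) : M'.Per i y :=
  ⟨S.al' h ▸ k.al h, (S.pa_iff h (S.step h k hi).2.1 hi y).2 ⟨k, (S.step h k hi).2.2.symm⟩⟩

omit h in
/-- Up to the first ring link the walk does not change. -/
theorem wk_eq (hi : i < 4) {T : ℕ} (k : ∀ t < T, ¬M.Rp R i (M.wk i c t)) :
    (∀ t ≤ T, M'.wk i c t = M.wk i c t) ∧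
      ∀ t < T, M'.ss i (M'.wk i c t) = M.ss i (M.wk i c t) := by
  have e : ∀ t ≤ T, M'.wk i c t = M.wk i c t :=
    wk_agree fun t ht => congrArg (· / 4) (S.off_pt hi (k t ht))
  exact ⟨e, fun t ht => by rw [e t ht.le, ss, ss, S.off_pt hi (k t ht)]⟩

end Cutm

end Cm

end Pool.Agent.MP_1a6d78_lc.PG
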