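import Pool.Agent.MP_1a6d78_lc.PS.Geo

/-! PROJECT PG: the semantic layer.  Prototype: PSC1a6d78_proto_h56.py.
Ports `4 c + q`: 0 NE, 1 NW, 2 SW, 3 SE.  Side `a` lies between the ports `a` and `a + 1`; the number
`4 c + a` is also the LABEL of the side `a` of the cell `c`. -/

namespace Pool.Agent.MP_1a6d78_lc.PG

open Classical ED PR PL Relation

noncomputable section

def pt (c q : ℕ) : ℕ := 4 * c + q % 4

def r3 (d : ℕ) : ℕ := 4 * (d / 4) + (d + 3) % 4

/-- The side passed by an `i`-walk that enters by the port `r`. -/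
def sd (i r : ℕ) : ℕ := if r % 4 = (i + 1) % 4 then i % 4 else (i + 3) % 4

/-- The port by which an `i`-walk enters when it passes the side `a`. -/
def ep (i a : ℕ) : ℕ := if a % 4 = i % 4 then (i + 1) % 4 else (i + 3) % 4

/-- The least (`fl`) or largest index below `n` with `P`. -/
def pick (fl : Bool) (n : ℕ) (P : ℕ → Prop) : ℕ :=
  if fl then lst n P else n - 1 - lst n fun i => P (n - 1 - i)

/-- A segment: the `i`-walk from `p` (first passage counted with side `s`) up to the first `q`. -/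
structure Sg where
  i : ℕ
  p : ℕ
  s : ℕ
  q : ℕ

/-- A cell map; dead ports are fixed by `lk`. -/
structure Cm where
  n : ℕ
  lk : ℕ → ℕ

namespace Cm

variable (M : Cm)

def al (c : ℕ) : Prop := M.lk (4 * c) ≠ 4 * c

structure Ok : Prop where
  lt : ∀ c, M.al c → c < M.n
  inv : ∀ p, M.lk (M.lk p) = p
  fix : ∀ p, M.lk p = p ↔ ¬M.al (p / 4)
  par : ∀ p, M.al (p / 4) → (M.lk p + p) % 2 = 1

/-- Twice the genus. -/
def gx : ℤ := gen (4 * M.n) r4 M.lk

/-! ### Walks -/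

def st (i c : ℕ) : ℕ := M.lk (pt c i) / 4

def wk (i c t : ℕ) : ℕ := (M.st i)^[t] c

/-- The side by which the `i`-walk passes the cell after `c`. -/
def ss (i c : ℕ) : ℕ := sd i (M.lk (pt c i))

/-- `b` is on the `i`-walk of `a`. -/
def Pa (i a b : ℕ) : Prop := ∃ t, M.wk i a t = b

/-- On a limit cycle. -/
def Per (i c : ℕ) : Prop := M.al c ∧ M.Pa i (M.st i c) c

/-- The same limit cycle. -/
def Co (i a b : ℕ) : Prop := ∃ u, M.Pa i a u ∧ M.Pa i b u

/-- `y` is on a limit cycle that passes it by the side `a`. -/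
def Kd (i a y : ℕ) : Prop := ∃ u, M.Per i u ∧ M.st i u = y ∧ M.ss i u = a

/-- Names of the limit cycles. -/
structure Nm (En : ℕ → ℕ → ℕ) : Prop where
  junk : ∀ i < 4, ∀ c, ¬M.al c → En i c = M.n
  pa : ∀ i < 4, ∀ c, M.al c → M.Pa i c (En i c)
  per : ∀ i < 4, ∀ c, M.al c → M.Per i (En i c)
  st : ∀ i < 4, ∀ c, M.al c → En i (M.st i c) = En i c

/-- The least cell of the limit cycle (level 0). -/
def En0 (i c : ℕ) : ℕ :=
  if M.al c then lst M.n fun y => ∃ t < M.n, M.wk i c (M.n + t) = y else M.n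

/-- The first cell after `c` passed by the side `a`. -/
def FE (i c a : ℕ) : ℕ :=
  if M.al c ∧ ∃ t < M.n, M.ss i (M.wk i c t) = a then
    M.wk i c (lst M.n (fun t => M.ss i (M.wk i c t) = a) + 1) else M.n

def el (A : Sg) (t : ℕ) : ℕ := M.wk A.i A.p t

def sv (A : Sg) (t : ℕ) : ℕ := if t = 0 then A.s else M.ss A.i (M.wk A.i A.p (t - 1))

def ln (A : Sg) : ℕ := lst M.n fun t => M.el A t = A.q

def ok (A : Sg) : Prop := A.i < 4 ∧ M.al A.p ∧ M.Pa A.i A.p A.q

/-- The segment passes `y` by the side `a`. -/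
def Ps (A : Sg) (y a : ℕ) : Prop := ∃ t ≤ M.ln A, M.el A t = y ∧ M.sv A t = a

def hit (a b : ℕ) (A B : Sg) (t : ℕ) : Prop := t ≤ M.ln A ∧ M.sv A t = a ∧ M.Ps B (M.el A t) b

/-- The first or last cell that `A` passes by `a` and `B` by `b`. -/
def F (fl : Bool) (a b : ℕ) (A B : Sg) : ℕ :=
  if M.ok A ∧ M.ok B ∧ ∃ t < M.n, M.hit a b A B t then M.el A (pick fl M.n (M.hit a b A B)) else M.n

/-! ### Regions -/

/-- The next label of the region. -/
def nr (x : ℕ) : ℕ := M.lk (r4 x)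

def Rg (x y : ℕ) : Prop := ∃ t, M.nr^[t] x = y

def Alt (x : ℕ) : Prop := M.nr x % 4 ≠ x % 4

def Crit (x : ℕ) : Prop := ∀ y, M.Rg x y → ¬M.Alt y

def Sad (x : ℕ) : Prop :=
  ∃ y y', M.Rg x y ∧ M.Rg x y' ∧ y ≠ y' ∧ M.Alt y ∧ M.Alt y' ∧ y % 4 = y' % 4

/-- The lower end of the link: the link alternates for the region of the label `r3 (lo p)`. -/
def lo (p : ℕ) : ℕ := if M.lk p % 4 = (p + 1) % 4 then p else M.lk p

def Prb (p : ℕ) : Prop := M.al (p / 4) ∧ M.Sad (r3 (M.lo p))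

/-- Cells minus non critical regions. -/
def mu : ℕ := cnt M.n M.al - ncl (4 * M.n) (fun x => M.al (x / 4) ∧ ¬M.Crit x) M.Rg

/-- Moves inside a region, and through a cell from the side `a` to the side `a + 2`. -/
def Rch (a : ℕ) : ℕ → ℕ → Prop :=
  ReflTransGen fun x y => M.al (x / 4) ∧ (y = M.nr x ∨ (x % 4 = a % 4 ∧ y = pt (x / 4) (a + 2)))

/-- `z` is on a closed path of the parity of `a`. -/
def Cy (a z : ℕ) : Prop := M.al z ∧ M.Rch a (pt z (a + 2)) (pt z a)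

/-! ### The kill of type 0 -/

/-- The side 0 of `x` is in a critical region. -/
def Top (x : ℕ) : Prop := M.al x ∧ M.Crit (4 * x)

/-- The cells that die with the region above `x`. -/
inductive Dd (x : ℕ) : ℕ → Prop
  | top {c : ℕ} : M.Rg (4 * x) (4 * c) → Dd x c
  | step {c : ℕ} : (∃ u, M.Rg (4 * c) (4 * u + 2)) → (∀ u, M.Rg (4 * c) (4 * u + 2) → Dd x u) →
      Dd x c

/-- A whole run of cells above a region is dead, the region is not. -/
def Hop (x : ℕ) : Prop :=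
  ∃ c t, M.lk (4 * c + 2) % 4 = 1 ∧ ¬M.Dd x (M.st 2 c) ∧ (∀ s ≤ t, M.Dd x (M.wk 3 c s)) ∧
    M.lk (4 * M.wk 3 c t + 3) % 4 = 0

/-- The kill of `x` pays. -/
def NT (z x : ℕ) : Prop :=
  M.Dd x z ∨ (∃ c, M.Dd x c ∧ (M.Sad (4 * c) ∨ M.Sad (4 * c + 1) ∨ M.Sad (4 * c + 3))) ∨ M.Hop x

/-- Smoothing of type 0 joins the ports 0, 1 and the ports 2, 3. -/
def pr0 (p : ℕ) : ℕ := if p % 2 = 0 then p + 1 else p - 1

/-- `M'` comes from `M` by smoothing the cells with `D`. -/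
structure Smo (M' : Cm) (D : ℕ → Prop) : Prop where
  n : M'.n = M.n
  al : ∀ c, M'.al c ↔ M.al c ∧ ¬D c
  lk : ∀ p, M'.al (p / 4) → Cv M.lk pr0 M'.al p (M'.lk p)
  fix : ∀ p, ¬M'.al (p / 4) → M'.lk p = p

/-- No saddle link joins the basins of two members of the family. -/
def Ind (X : ℕ → Prop) : Prop :=
  ∀ x y p, X x → X y → M.Prb p → M.Co ((p + 1) % 2) (p / 4) x →
    M.Co ((M.lk p + 1) % 2) (M.lk p / 4) y → x = y

/-- A family of names of critical regions that can be killed together. -/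
structure Fam (X : ℕ → Prop) : Prop where
  top : ∀ x, X x → M.Top x
  one : ∀ x y, X x → X y → M.Rg (4 * x) (4 * y) → x = y
  ind : M.Ind X

def Dead (X : ℕ → Prop) (c : ℕ) : Prop := ∃ x, X x ∧ M.Dd x c

/-! ### The cut of rings of type 0: outer cells are passed by the side 0, inner cells by the side 3 -/

def Ring (v : ℕ) : Prop := M.Per 0 v ∧ M.FE 0 v 0 < M.n ∧ M.FE 0 v 3 < M.n

/-- A cell of kind `a` of the cycle of `v`. -/
def Rc (v a y : ℕ) : Prop := M.Kd 0 a y ∧ M.Co 0 y v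

/-- A valid entry of the 1-cycle of the first inner cell. -/
def Eg (v p : ℕ) : Prop := M.Prb p ∧ p % 2 = 0 ∧ M.Co 1 (p / 4) (M.FE 0 v 3)

structure Cond (z v : ℕ) : Prop where
  ring : M.Ring v
  cand : (∃ p, M.Eg v p ∧ M.Co 0 (p / 4) v) ∨ M.Co 0 z v
  all : ∀ p, M.Eg v p → (p % 4 = 0 ∧ M.Per 0 (p / 4) ∧ M.Co 0 (p / 4) v) ∨
    ∃ y, M.Pa 1 (p / 4) y ∧ M.Rc v 0 y
  nx : ∀ u, M.Pa 1 (M.FE 0 v 3) u → ¬M.Rc v 0 u

/-- `M'` comes from `M` by cutting the rings of the cells `v` with `R v`. -/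
structure Cutm (M' : Cm) (R : ℕ → Prop) : Prop where
  n : M'.n = M.n
  inv : ∀ p, M'.lk (M'.lk p) = p
  ring : ∀ v a y, R v → M.Rc v a y → M'.lk (4 * y) = pt (M.FE 0 y a) (ep 0 a)
  off : ∀ p, (¬∃ v a, R v ∧ M.Rc v a (p / 4) ∧ (p % 4 = 0 ∨ p % 4 = ep 0 a)) → M'.lk p = M.lk p

end Cm

/-! ### Frames: the group of the square, `g < 8`; `g < 4` rotations, `g ≥ 4` reflections -/

def fp (g q : ℕ) : ℕ := if g < 4 then (g + q) % 4 else (g + 4 - q % 4) % 4

def fs (g a : ℕ) : ℕ := if g < 4 then (g + a) % 4 else (g + 3 - a % 4) % 4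

def gi (g : ℕ) : ℕ := if g < 4 then (4 - g) % 4 else g

def tp (g p : ℕ) : ℕ := 4 * (p / 4) + fp g p

/-- The port `q` of the new map is the port `fp g q` of the old map. -/
def Cm.tw (M : Cm) (g : ℕ) : Cm := ⟨M.n, fun p => tp (gi g) (M.lk (tp g p))⟩

end

end Pool.Agent.MP_1a6d78_lc.PG
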