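import Pool.Agent.MP_1a6d78_lc.PG.FSpec

/-! PROJECT PG: the kill lowers `mu`. -/

namespace Pool.Agent.MP_1a6d78_lc.PG

open Classical ED PR PL Relation Cm Ct

namespace Drop

variable {M M' : Cm} {X : ℕ → Prop}

/-- The link at the port 0 of `o` alternates for the region of `x`. -/
def Ps (M : Cm) (o x : ℕ) : Prop :=
  (M.lk (4 * o) % 4 = 1 ∧ M.Rg x (4 * o + 3)) ∨ (M.lk (4 * o) % 4 = 3 ∧ M.Rg x (4 * o))

theorem Ps.rg {o x y : ℕ} (h : Ps M o y) (k : M.Rg x y) : Ps M o x :=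
  h.imp (fun u => ⟨u.1, rg_trans k u.2⟩) fun u => ⟨u.1, rg_trans k u.2⟩

theorem Ps.one (H : M.Ok) {o x y : ℕ} (h : Ps M o x) (k : Ps M o y) : M.Rg x y := by
  rcases h with h | h <;> rcases k with k | k
  exacts [rg_trans h.2 (rg_symm H k.2), by omega, by omega, rg_trans h.2 (rg_symm H k.2)]

theorem nr0 (M : Cm) (c : ℕ) : M.nr (4 * c) = M.lk (4 * c + 1) := by rw [Cm.nr, Two.r0]

theorem nr1 (M : Cm) (c : ℕ) : M.nr (4 * c + 1) = M.lk (4 * c + 2) := by rw [Cm.nr, Two.r1]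

theorem nr2 (M : Cm) (c : ℕ) : M.nr (4 * c + 2) = M.lk (4 * c + 3) := by rw [Cm.nr, Two.r2]

theorem nr3 (M : Cm) (c : ℕ) : M.nr (4 * c + 3) = M.lk (4 * c) := by rw [Cm.nr, Two.r3]

theorem st_of {p c q : ℕ} (H : M.Ok) (hq : q < 4) (e : M.lk p = 4 * c + q) :
    M.st q c = p / 4 := by
  unfold Cm.st
  rw [show pt c q = 4 * c + q by unfold pt; omega, ← e, H.inv]

theorem alt2 (H : M.Ok) {x y : ℕ} (a : M.al (x / 4)) (r : M.Rg x y) (k : M.Alt y)
    (e : y % 4 = 2) : ∃ o, M.nr y = 4 * o ∧ M.Rg x (4 * o) ∧ Ps M o x := by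
  have := alt_mod H ((rg_al H r).2 a) k
  have e1 : M.nr y = 4 * (M.nr y / 4) := by omega
  have r' := rg_trans r (rg_nr M y)
  refine ⟨_, e1, e1 ▸ r', Or.inr ⟨?_, e1 ▸ r'⟩⟩
  rw [← e1, Cm.nr, H.inv]
  unfold r4
  omega

theorem alt3 (H : M.Ok) {x y : ℕ} (a : M.al (x / 4)) (r : M.Rg x y) (k : M.Alt y)
    (e : y % 4 = 3) : M.lk (4 * (y / 4)) % 4 = 1 ∧ Ps M (y / 4) x := by
  have := alt_mod H ((rg_al H r).2 a) k
  have e1 : y = 4 * (y / 4) + 3 := by omega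
  rw [e1, nr3] at this
  have e2 : M.lk (4 * (y / 4)) % 4 = 1 := by omega
  exact ⟨e2, Or.inl ⟨e2, e1 ▸ r⟩⟩

theorem ncl_eq (n : ℕ) (A : ℕ → Prop) : ncl n A Eq = cnt n A :=
  cnt_congr fun _ _ => ⟨And.left, fun k => ⟨k, fun _ _ e => e.le⟩⟩

theorem eqv_eq (n : ℕ) : Eqv n Eq :=
  ⟨fun _ _ => rfl, fun _ _ _ _ => Eq.symm, fun _ _ _ _ _ _ => Eq.trans⟩

theorem nc_le (H : M.Ok) (G : RegK M) :
    ncl (4 * M.n) (fun x => M.al (x / 4) ∧ ¬M.Crit x) M.Rg ≤ cnt M.n M.al := by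
  have e : ∀ x, ∃ o, M.al (x / 4) ∧ ¬M.Crit x → M.al o ∧ Ps M o x := fun x => by
    by_cases k : M.al (x / 4) ∧ ¬M.Crit x
    · rcases Nat.mod_two_eq_zero_or_one x with u | u
      · obtain ⟨y, r, a, e⟩ := G.alt x k.1 k.2 2 (by omega)
        obtain ⟨o, -, o2, o3⟩ := alt2 H k.1 r a e
        have := (rg_al H o2).2 k.1
        rw [show 4 * o / 4 = o by omega] at this
        exact ⟨o, fun _ => ⟨this, o3⟩⟩
      · obtain ⟨y, r, a, e⟩ := G.alt x k.1 k.2 3 (by omega)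
        exact ⟨y / 4, fun _ => ⟨(rg_al H r).2 k.1, (alt3 H k.1 r a e).2⟩⟩
    · exact ⟨0, fun u => absurd u k⟩
  choose f hf using e
  rw [← ncl_eq M.n M.al]
  exact ncl_le f (rg_eqv H _) (eqv_eq _) (fun _ _ _ _ e k => e ▸ k)
    (fun x _ k => ⟨H.lt _ (hf x k).1, (hf x k).1⟩)
    fun x _ y _ k k' e => (hf x k).2.one H (e ▸ (hf y k').2)

theorem ncl_cut (n : ℕ) (A Q : ℕ → Prop) (r : ℕ → ℕ → Prop) :
    ncl n A r = ncl n (fun x => A x ∧ Q x) r + ncl n (fun x => A x ∧ ¬Q x) r := by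
  unfold ncl
  rw [cnt_split _ _ Q]
  congr 1 <;> exact cnt_congr fun _ _ => by tauto

theorem ev (H : M.Ok) {P : ℕ → Prop} {p r : ℕ} (h : Cv M.lk pr0 P p r) (a : M.al (p / 4))
    (o : p % 2 = 1) : ∃ k, M.nr^[k + 1] (r3 p) = r ∧
      ∀ s < k, ¬P (M.nr^[s + 1] (r3 p) / 4) := by
  have n1 : ∀ q, M.nr (r3 q) = M.lk q := fun q => by
    rw [Cm.nr, show r4 (r3 q) = q by unfold r4 r3; omega]
  induction h with
  | @stop x _ => exact ⟨0, n1 x, fun _ h => absurd h (by omega)⟩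
  | @go x r k _ ih =>
    have := H.par x a
    have e : pr0 (M.lk x) = M.lk x + 1 := if_pos (by omega)
    obtain ⟨t, t1, t2⟩ := ih (by rw [e, show (M.lk x + 1) / 4 = M.lk x / 4 by omega]; exact al_lk H a)
      (by omega)
    rw [show r3 (pr0 (M.lk x)) = M.nr (r3 x) by rw [n1, e]; unfold r3; omega] at t1 t2
    refine ⟨t + 1, t1, fun s hs => ?_⟩
    cases s with
    | zero => rwa [zero_add, Function.iterate_one, n1]
    | succ s => exact t2 s (by omega)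

end Drop

open Drop

theorem drop (hW : S_Walk) (hR : S_Reg) (hD : S_Dead) (M M' : Cm) (X : ℕ → Prop) (z : ℕ)
    (H : M.Ok) (F : M.Fam X) (S : M.Smo M' (M.Dead X)) (hz : ¬M.Dead X z) :
    2 * M'.mu + cnt M.n (fun x => X x ∧ M.NT z x) ≤ 2 * M.mu := by
  have H' := smo_ok H S
  have K := hW M H
  have G := hR M H
  have D := fun x (k : X x) => hD M H x (F.top x k)
  have uq : ∀ x y c, X x → X y → M.Dd x c → M.Dd y c → x = y := fun x y c hx hy k l => by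
    have i1 := G.crit_kd x 0 (by omega) (F.top x hx).1 (F.top x hx).2
    have i2 := G.crit_kd y 0 (by omega) (F.top y hy).1 (F.top y hy).2
    refine F.one x y hx hy ((i1.2.2 y).1.2 ((K.co_per _ _ _ (K.kd_per _ _ _ i2.1).1).1 ?_))
    exact ((D x hx).co c k).1.co.symm.trans ((D y hy).co c l).1.co
  have dal : ∀ c, M.Dead X c → M.al c := fun c ⟨x, k, l⟩ => (D x k).al c l
  have same : ∀ p, M'.al (p / 4) → M'.al (M.lk p / 4) → M'.lk p = M.lk p := fun p k l =>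
    (S.lk p k).uniq (.stop l)
  have face : ∀ u d y, X u → M.Dd u d → y / 4 = d → y % 2 = 1 → ∃ o, M.Dd u o ∧
      M.lk (4 * o) % 4 = 1 ∧ M.Rg y (4 * o + 3) := fun u d y hu k e o => by
    have fin : ∀ o o', M.lk (4 * o) = 4 * o' + 1 → M.Rg y (4 * o' + 1) →
        M.lk (4 * o) % 4 = 1 ∧ M.Rg y (4 * o + 3) := fun o o' l r =>
      ⟨by omega, rg_trans r (by rw [← l, ← nr3]; exact rg_back H _)⟩
    rcases (by omega : y = 4 * d + 1 ∨ y = 4 * d + 3) with rfl | rfl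
    · obtain ⟨o, o', -, l, d1, -, r⟩ := (D u hu).top1 d k
      exact ⟨o, d1, fin o o' (by rw [← l, H.inv]) r⟩
    · obtain ⟨o, o', -, l, d1, -, r⟩ := (D u hu).top3 d k
      exact ⟨o, d1, fin o o' l r⟩
  obtain ⟨Hit, hH⟩ : ∃ Hit : ℕ → Prop, ∀ x, Hit x ↔ ∃ o v, X v ∧ M.Dd v o ∧ Ps M o x :=
    ⟨_, fun _ => Iff.rfl⟩
  have Hrg : ∀ x y, M.Rg x y → Hit y → Hit x := fun x y r k =>
    let ⟨o, v, k1, k2, k3⟩ := (hH y).1 k; (hH x).2 ⟨o, v, k1, k2, k3.rg r⟩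
  have evn : ∀ y, M'.al (y / 4) → y % 2 = 0 → ∃ k, M.nr^[k + 1] y = M'.nr y ∧
      ∀ s < k, ¬M'.al (M.nr^[s + 1] y / 4) := fun y a o => by
    have := ev H (S.lk (r4 y) (by rwa [r4_div])) (by rw [r4_div]; exact ((S.al _).1 a).1)
      (by unfold r4; omega)
    rwa [show r3 (r4 y) = y by unfold r3 r4; omega] at this
  have odd : ∀ x y, M.al (x / 4) → x % 2 = 1 → ¬Hit x → M.Rg x y → M'.al (y / 4) :=
    fun x y a o k r => (S.al _).2 ⟨(rg_al H r).2 a, fun ⟨u, hu, d⟩ => by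
      obtain ⟨o', o1, o2, o3⟩ := face u _ y hu d rfl (by rw [rg_par H r a, o])
      exact k ((hH x).2 ⟨o', u, hu, o1, Or.inl ⟨o2, rg_trans r o3⟩⟩)⟩
  have oddn : ∀ y, M.al (y / 4) → y % 2 = 1 → ¬Hit y → M'.nr y = M.nr y := fun y a o k =>
    same _ (by rw [r4_div]; exact odd y y a o k (rg_refl _ _)) (odd y _ a o k (rg_nr _ _))
  have pure : ∀ x y, M'.al (x / 4) → ¬Hit x → M'.Rg x y → M.Rg x y := fun x y a k r => by
    refine (rg_ind (Q := fun d => M'.al (d / 4) ∧ M.Rg x d) r ⟨a, rg_refl _ _⟩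
      fun d u => ⟨(nr_al H').2 u.1, rg_trans u.2 ?_⟩).2
    rcases Nat.mod_two_eq_zero_or_one d with o | o
    · obtain ⟨t, e, -⟩ := evn d u.1 o
      exact ⟨_, e⟩
    · rw [oddn d ((S.al _).1 u.1).1 o fun v => k (Hrg _ _ u.2 v)]
      exact rg_nr _ _
  have ev2 : ∀ t x, M'.al (x / 4) → x % 2 = 0 → M'.al (M.nr^[t] x / 4) → M'.Rg x (M.nr^[t] x) := by
    intro t
    induction t using Nat.strong_induction_on with
    | _ t ih =>
      intro x a o b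
      cases t with
      | zero => exact rg_refl _ _
      | succ t =>
        obtain ⟨k, e, l⟩ := evn x a o
        obtain ⟨r, rfl⟩ : ∃ r, t = r + k :=
          ⟨t - k, by have : ¬t < k := fun h => l t h b; omega⟩
        rw [add_assoc, Function.iterate_add_apply, e] at b ⊢
        exact rg_trans (rg_nr _ _) (ih r (by omega) _ ((nr_al H').2 a)
          (by rw [nr_par H' a, o]) b)
  have ind : ∀ o, M.al o → ¬M.Crit (4 * o) → (∀ u, M.Rg (4 * o) (4 * u + 2) → M.Dead X u) →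
      M.Dead X o := fun o a nc all => by
    have a4 : M.al (4 * o / 4) := by rwa [show 4 * o / 4 = o by omega]
    obtain ⟨l0, r0, a0, e0⟩ := G.alt (4 * o) a4 nc 0 (by omega)
    have m0 := alt_mod H ((rg_al H r0).2 a4) a0
    have e1 : M.nr l0 = 4 * (M.nr l0 / 4) + 2 := by omega
    have r1 := rg_trans r0 (rg_nr M l0)
    obtain ⟨x, hx, dx⟩ := all _ (e1 ▸ r1)
    refine ⟨x, hx, .step ⟨_, e1 ▸ r1⟩ fun u ru => ?_⟩
    have := rg_ind (Q := fun l => M.Rg (4 * o) l ∧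
        ((l % 4 = 2 ∧ M.Dd x (l / 4)) ∨ (l % 4 = 0 ∧ M.Co 0 (l / 4) x)))
      (rg_trans (rg_symm H r1) ru) ⟨r1, Or.inl ⟨by omega, dx⟩⟩ fun l ⟨r, k⟩ => by
      have r' := rg_trans r (rg_nr M l)
      have al := (rg_al H r).2 a4
      have p1 := rg_par H r' a4
      obtain ⟨b, hb | hb⟩ : ∃ b, M.nr l = 4 * b ∨ M.nr l = 4 * b + 2 := ⟨M.nr l / 4, by omega⟩
      · refine ⟨r', Or.inr ⟨by omega, co_st.1 ?_⟩⟩
        rw [hb, show 4 * b / 4 = b by omega, st_of H (by omega) (q := 0) hb, r4_div]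
        exact k.elim (fun k => ((D x hx).co _ k.2).1.co) And.right
      · obtain ⟨y, hy, dy⟩ := all b (hb ▸ r')
        refine ⟨r', Or.inl ⟨by omega, ?_⟩⟩
        rw [hb, show (4 * b + 2) / 4 = b by omega]
        by_cases e : l = l0
        · rw [← e, hb, show (4 * b + 2) / 4 = b by omega] at dx
          exact dx
        have cy := ((D y hy).co b dy).2.co
        have key : M.Prb (r4 l) → M.Co 0 (l / 4) x → x = y := fun p c =>
          F.ind x y (r4 l) hx hy p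
            (by rwa [r4_div, show (r4 l + 1) % 2 = 0 by have := rg_par H r a4; unfold r4; omega])
            (by change M.Co ((M.nr l + 1) % 2) (M.nr l / 4) y
                rwa [hb, show (4 * b + 2 + 1) % 2 = 1 by omega, show (4 * b + 2) / 4 = b by omega])
        suffices x = y from this ▸ dy
        rcases k with k | k
        · obtain ⟨c, rfl⟩ : ∃ c, l = 4 * c + 2 := ⟨l / 4, by omega⟩
          rw [show (4 * c + 2) / 4 = c by omega] at k al key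
          rw [nr2] at hb
          obtain ⟨o1, d1, l1, q1⟩ := face x c (4 * c + 3) hx k.2 (by omega) (by omega)
          obtain ⟨o2, d2, l2, q2⟩ := face y b (4 * b + 1) hy dy (by omega) (by omega)
          by_cases eo : o1 = o2
          · exact uq x y o1 hx hy d1 (eo ▸ d2)
          refine key ?_ ((D x hx).co _ k.2).1.co
          rw [Two.r2]
          refine (G.prb_dn _ (by omega)).2 ⟨by rwa [show (4 * c + 3) / 4 = c by omega],
            _, _, q1, rg_trans ?_ q2, by omega, ?_, ?_, by omega⟩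
          · have := rg_back H (4 * b + 1)
            rwa [nr1, ← hb, H.inv] at this
          · rw [Cm.Alt, nr3]; omega
          · rw [Cm.Alt, nr3]; omega
        · refine key ((G.prb_up _ ?_).2 ⟨by rwa [r4_div], ?_⟩) k.2
          · change M.nr l % 4 = _
            unfold r4
            omega
          · rw [show r3 (r4 l) = l by unfold r3 r4; omega]
            exact ⟨l, l0, rg_refl _ _, rg_trans (rg_symm H r) r0, e, by rw [Cm.Alt]; omega, a0,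
              by omega⟩
    rcases this.2 with k | k
    · have := k.2
      rwa [show (4 * u + 2) / 4 = u by omega] at this
    · omega
  have theta : ∀ x, ∃ y, (M.al (x / 4) ∧ ¬M.Crit x) ∧ ¬Hit x →
      M.Rg x y ∧ M'.al (y / 4) ∧ ¬M'.Crit y := fun x => by
    by_cases k : (M.al (x / 4) ∧ ¬M.Crit x) ∧ ¬Hit x
    swap
    · exact ⟨0, fun u => absurd u k⟩
    obtain ⟨⟨a, nc⟩, nh⟩ := k
    rcases Nat.mod_two_eq_zero_or_one x with u | u
    · obtain ⟨y, r, ay, e⟩ := G.alt x a nc 2 (by omega)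
      obtain ⟨o, -, o2, o3⟩ := alt2 H a r ay e
      have e4 : 4 * o / 4 = o := by omega
      have ao : M.al o := e4 ▸ (rg_al H o2).2 a
      have nd : ¬M.Dead X o := fun ⟨v, v1, v2⟩ => nh ((hH x).2 ⟨o, v, v1, v2, o3⟩)
      have ao' : M'.al (4 * o / 4) := e4.symm ▸ (S.al o).2 ⟨ao, nd⟩
      refine ⟨4 * o, fun _ => ⟨o2, ao', fun c => nd (ind o ao (mt (crit_rg H o2).2 nc)
        fun f rf => by_contra fun nf => ?_)⟩⟩
      have af := (rg_al H rf).2 (e4.symm ▸ ao)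
      obtain ⟨t, ht⟩ := rf
      have := crit_mod c (ev2 t _ ao' (by omega) (by
        rw [ht]; exact (S.al _).2 ⟨af, by rwa [show (4 * f + 2) / 4 = f by omega]⟩))
      omega
    · obtain ⟨y, r, ay, -⟩ := G.alt x a nc 1 (by omega)
      refine ⟨y, fun _ => ⟨r, odd x y a u nh r, fun c => c y (rg_refl _ _) ?_⟩⟩
      rw [Cm.Alt, oddn y ((rg_al H r).2 a) (by rw [rg_par H r a, u]) fun v => nh (Hrg _ _ r v)]
      exact ay
  choose th hth using theta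
  obtain ⟨Lo, hL⟩ : ∃ Lo : ℕ → Prop, ∀ u, Lo u ↔
      ∀ o o' v x, M.Dd u o → X v → M.Dd v o' → Ps M o x → Ps M o' x → v = u := ⟨_, fun _ => Iff.rfl⟩
  have lon : ∀ u, X u → Lo u → ∀ x y, M'.al (x / 4) → x % 2 = 1 → (∃ o, M.Dd u o ∧ Ps M o x) →
      M'.Rg x y → ∃ o, M.Dd u o ∧ Ps M o y := fun u hu lu x y a o k r => by
    have cv : ∀ p r, Cv M.lk pr0 M'.al p r → M.al (p / 4) → p % 2 = 0 →
        (∃ o, M.Dd u o ∧ Ps M o (r3 p)) → ∃ o, M.Dd u o ∧ Ps M o r := fun p r h => by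
      induction h with
      | @stop p _ => exact fun _ _ ⟨o, o1, o2⟩ => ⟨o, o1, o2.rg (rg_symm H (G.fw p))⟩
      | @go p r k _ ih =>
        rintro a e ⟨o, o1, o2⟩
        have := H.par p a
        have e1 : pr0 (M.lk p) = M.lk p - 1 := if_neg (by omega)
        have al := al_lk H a
        obtain ⟨v, hv, dv⟩ : M.Dead X (M.lk p / 4) := by_contra fun n => k ((S.al _).2 ⟨al, n⟩)
        obtain ⟨o', q1, q2, q3⟩ := face v _ (M.lk p) hv dv rfl (by omega)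
        obtain rfl := (hL u).1 lu o o' v _ o1 hv q1 o2 (Or.inl ⟨q2, rg_trans (G.fw p) q3⟩)
        obtain ⟨o3, s1, s2, s3⟩ := face v _ (r3 (pr0 (M.lk p))) hv dv (by rw [e1]; unfold r3; omega)
          (by rw [e1]; unfold r3; omega)
        exact ih (by rwa [e1, show (M.lk p - 1) / 4 = M.lk p / 4 by omega]) (by omega)
          ⟨o3, s1, Or.inl ⟨s2, s3⟩⟩
    exact (rg_ind (Q := fun d => M'.al (d / 4) ∧ d % 2 = 1 ∧ ∃ o, M.Dd u o ∧ Ps M o d) r ⟨a, o, k⟩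
      fun d w => ⟨(nr_al H').2 w.1, by rw [nr_par H' w.1, w.2.1],
        cv _ _ (S.lk (r4 d) (by rw [r4_div]; exact w.1)) (by rw [r4_div]; exact ((S.al _).1 w.1).1)
          (by have := w.2.1; unfold r4; omega)
          (by rw [show r3 (r4 d) = d by unfold r3 r4; omega]; exact w.2.2)⟩).2.2
  obtain ⟨Tw, hT⟩ : ∃ Tw : ℕ → Prop, ∀ u, Tw u ↔
      ∃ o o' x, M.Dd u o ∧ M.Dd u o' ∧ o ≠ o' ∧ Ps M o x ∧ Ps M o' x := ⟨_, fun _ => Iff.rfl⟩
  have new : ∀ u, ∃ y, X u ∧ M.NT z u ∧ Lo u ∧ ¬Tw u → (M'.al (y / 4) ∧ ¬M'.Crit y) ∧ y % 2 = 1 ∧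
      ∃ o, M.Dd u o ∧ Ps M o y := fun u => by
    by_cases k : X u ∧ M.NT z u ∧ Lo u ∧ ¬Tw u
    swap
    · exact ⟨0, fun v => absurd v k⟩
    obtain ⟨hu, nt, lu, nt2⟩ := k
    have fc : ∀ y, y % 2 = 1 → M.Dd u (y / 4) → M.Sad y → ∃ y, (M'.al (y / 4) ∧ ¬M'.Crit y) ∧
        y % 2 = 1 ∧ ∃ o, M.Dd u o ∧ Ps M o y := fun y o d s => by
      obtain ⟨o1, d1, l1, q1⟩ := face u _ y hu d rfl o
      have a := (D u hu).al _ d
      obtain ⟨w, r, aw, ew, nw⟩ : ∃ w, M.Rg y w ∧ M.Alt w ∧ w % 4 = 3 ∧ w / 4 ≠ o1 := by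
        obtain ⟨w, w', k1, k2, k3, k4, k5, k6, k7⟩ := G.sad2 y a s 3 (by omega)
        by_cases e : w / 4 = o1
        exacts [⟨w', k2, k5, k7, by omega⟩, ⟨w, k1, k4, k6, e⟩]
      obtain ⟨l2, p2⟩ := alt3 H a r aw ew
      have p1 : Ps M o1 y := Or.inl ⟨l1, q1⟩
      have nd : ¬M.Dead X (w / 4) := fun ⟨v, hv, dv⟩ => by
        obtain rfl := (hL u).1 lu o1 _ v y d1 hv dv p1 p2
        exact nt2 ((hT v).2 ⟨_, _, y, d1, dv, nw.symm, p1, p2⟩)
      have aw' : M'.al (w / 4) := (S.al _).2 ⟨(rg_al H r).2 a, nd⟩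
      refine ⟨w, ⟨aw', fun c => c w (rg_refl _ _) ?_⟩, by omega, o1, d1, p1.rg (rg_symm H r)⟩
      have e : M'.nr w = M.nr w := same _ (by rwa [r4_div]) ((S.al _).2
        ⟨(nr_al H).2 ((rg_al H r).2 a), fun ⟨v, hv, dv⟩ => nd ⟨v, hv, ?_⟩⟩)
      · rwa [Cm.Alt, e]
      · have := ((D v hv).up _ dv).2
        have m := alt_mod H ((rg_al H r).2 a) aw
        rwa [st_of H (by omega) (p := r4 w) (q := 1)
          (by change M.nr w = 4 * (M.nr w / 4) + 1; omega), r4_div] at this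
    suffices ∃ y, (M'.al (y / 4) ∧ ¬M'.Crit y) ∧ y % 2 = 1 ∧ ∃ o, M.Dd u o ∧ Ps M o y from
      let ⟨y, k⟩ := this; ⟨y, fun _ => k⟩
    rcases nt with nt | ⟨c, d, s | s | s⟩ | ⟨c, t, l, no, run, e⟩
    · exact absurd ⟨u, hu, nt⟩ hz
    · have a : M.al (4 * c / 4) := by rw [show 4 * c / 4 = c by omega]; exact (D u hu).al _ d
      obtain ⟨w, w', k1, k2, k3, k4, k5, k6, k7⟩ := G.sad2 _ a s 2 (by omega)
      obtain ⟨o, o1, o2, o3⟩ := alt2 H a k1 k4 k6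
      obtain ⟨o', p1, p2, p3⟩ := alt2 H a k2 k5 k7
      exact absurd ((hT u).2 ⟨o, o', _, (D u hu).out _ _ d o2, (D u hu).out _ _ d p2,
        fun e => k3 (nr_inj H (by rw [o1, p1, e])), o3, p3⟩) nt2
    · exact fc _ (by omega) (by rwa [show (4 * c + 1) / 4 = c by omega]) s
    · exact fc _ (by omega) (by rwa [show (4 * c + 3) / 4 = c by omega]) s
    · have go : ∀ t c, (∀ s ≤ t, M.Dd u (M.wk 3 c s)) → M.lk (4 * M.wk 3 c t + 3) % 4 = 0 →
          ∃ e o, M.Dd u e ∧ M.lk (4 * e + 3) = 4 * o ∧ M.Rg (4 * c + 2) (4 * o) ∧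
            (M'.al o → Cv M.lk pr0 M'.al (4 * c + 3) (4 * o)) := fun t => by
        have z0 : ∀ c, M.Dd u c → M.lk (4 * c + 3) % 4 = 0 → ∃ e o, M.Dd u e ∧
            M.lk (4 * e + 3) = 4 * o ∧ M.Rg (4 * c + 2) (4 * o) ∧
              (M'.al o → Cv M.lk pr0 M'.al (4 * c + 3) (4 * o)) := fun c d k => by
          have e : M.lk (4 * c + 3) = 4 * (M.lk (4 * c + 3) / 4) := by omega
          exact ⟨c, _, d, e, by rw [← e, ← nr2]; exact rg_nr _ _, fun a => e ▸ .stop a⟩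
        induction t with
        | zero => exact fun c d k => z0 c (d 0 le_rfl) k
        | succ t ih =>
          intro c d k
          by_cases e : M.lk (4 * c + 3) % 4 = 0
          · exact z0 c (d 0 (by omega)) e
          obtain ⟨e', o, i1, i2, i3, i4⟩ := ih (M.st 3 c) (fun s hs => d (s + 1) (by omega)) k
          have := H.par (4 * c + 3)
            (by rw [show (4 * c + 3) / 4 = c by omega]; exact (D u hu).al _ (d 0 (by omega)))
          have e2 : M.lk (4 * c + 3) = 4 * M.st 3 c + 2 := by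
            change _ = 4 * (M.lk (4 * c + 3) / 4) + 2
            omega
          refine ⟨e', o, i1, i2, rg_trans (by rw [← e2, ← nr2]; exact rg_nr _ _) i3,
            fun a => .go (fun v => ((S.al _).1 v).2 ⟨u, hu, d 1 (by omega)⟩) ?_⟩
          rw [e2, show pr0 (4 * M.st 3 c + 2) = 4 * M.st 3 c + 3 from if_pos (by omega)]
          exact i4 a
      obtain ⟨e', o2, i1, i2, i3, i4⟩ := go t c run e
      have dc : M.Dd u c := run 0 (by omega)
      have e1 : M.lk (4 * c + 2) = 4 * M.st 2 c + 1 := by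
        change _ = 4 * (M.lk (4 * c + 2) / 4) + 1
        omega
      have e2 : M.lk (4 * M.st 2 c + 1) = 4 * c + 2 := by rw [← e1, H.inv]
      have r1 : M.Rg (4 * M.st 2 c) (4 * c + 2) := by rw [← e2, ← nr0]; exact rg_nr _ _
      have n1 : ¬M.Dead X (M.st 2 c) := fun ⟨v, hv, dv⟩ =>
        no (uq v u c hv hu ((D v hv).inc _ _ dv r1) dc ▸ dv)
      have n2 : ¬M.Dead X o2 := fun ⟨v, hv, dv⟩ =>
        n1 ⟨v, hv, (D v hv).out _ _ dv (rg_symm H (rg_trans r1 i3))⟩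
      have ac := (D u hu).al _ dc
      have a2 : M'.al o2 := (S.al _).2 ⟨by
        have := (rg_al H i3).2 (by rwa [show (4 * c + 2) / 4 = c by omega])
        rwa [show 4 * o2 / 4 = o2 by omega] at this, n2⟩
      have a1 : M'.al ((4 * M.st 2 c + 1) / 4) := by
        rw [show (4 * M.st 2 c + 1) / 4 = M.st 2 c by omega]
        exact (S.al _).2 ⟨H.al_st 2 ac, n1⟩
      have l' : M'.lk (4 * M.st 2 c + 1) = 4 * o2 := (S.lk _ a1).uniq (.go (by
        rw [e2, show (4 * c + 2) / 4 = c by omega]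
        exact fun v => ((S.al _).1 v).2 ⟨u, hu, dc⟩) (by
        rw [e2, show pr0 (4 * c + 2) = 4 * c + 3 from if_pos (by omega)]
        exact i4 a2))
      obtain ⟨o, d1, l1, q1⟩ := face u e' (4 * e' + 3) hu i1 (by omega) (by omega)
      refine ⟨4 * o2 + 3, ⟨by rwa [show (4 * o2 + 3) / 4 = o2 by omega],
        fun c => c _ (rg_refl _ _) ?_⟩, by omega, o, d1, Or.inl ⟨l1, rg_trans ?_ q1⟩⟩
      · rw [Cm.Alt, nr3, ← l', H'.inv]
        omega
      · have := rg_nr M (4 * o2 + 3)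
        rwa [nr3, ← i2, H.inv, i2] at this
  choose nw hnw using new
  have part1 : ∀ w : ℕ → ℕ,
      ncl (4 * M.n) (fun x => (M.al (x / 4) ∧ ¬M.Crit x) ∧ Hit x) M.Rg +
        cnt M.n (fun u => X u ∧ (Tw u ∨ ∃ o o' v x, M.Dd u o ∧ X v ∧ M.Dd v o' ∧ Ps M o x ∧
          Ps M o' x ∧ w v < w u)) ≤ cnt M.n (M.Dead X) := fun w => by
    have e : ∀ x, ∃ o v, Hit x → X v ∧ M.Dd v o ∧ Ps M o x ∧
        ∀ o' v', X v' → M.Dd v' o' → Ps M o' x → w v ≤ w v' := fun x => by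
      by_cases k : Hit x
      · have ex : ∃ m, ∃ o v, X v ∧ M.Dd v o ∧ Ps M o x ∧ w v = m :=
          let ⟨o, v, k1, k2, k3⟩ := (hH x).1 k; ⟨_, o, v, k1, k2, k3, rfl⟩
        obtain ⟨o, v, k1, k2, k3, k4⟩ := Nat.find_spec ex
        exact ⟨o, v, fun _ => ⟨k1, k2, k3, fun o' v' l1 l2 l3 =>
          k4 ▸ Nat.find_min' ex ⟨o', v', l1, l2, l3, rfl⟩⟩⟩
      · exact ⟨0, 0, fun u => absurd u k⟩
    choose f fv hf using e
    obtain ⟨I, hI⟩ : ∃ I : ℕ → Prop, ∀ o, I o ↔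
      ∃ x < 4 * M.n, Hit x ∧ (∀ e < 4 * M.n, M.Rg x e → x ≤ e) ∧ f x = o := ⟨_, fun _ => Iff.rfl⟩
    have e2 : ∀ u, ∃ o, X u ∧ (Tw u ∨ ∃ o o' v x, M.Dd u o ∧ X v ∧ M.Dd v o' ∧ Ps M o x ∧
        Ps M o' x ∧ w v < w u) → M.Dd u o ∧ ¬I o := fun u => by
      by_cases k : X u ∧ (Tw u ∨ ∃ o o' v x, M.Dd u o ∧ X v ∧ M.Dd v o' ∧ Ps M o x ∧
        Ps M o' x ∧ w v < w u)
      swap
      · exact ⟨0, fun v => absurd v k⟩
      rcases k.2 with t | ⟨o, o', v, x, k1, k2, k3, k4, k5, k6⟩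
      · obtain ⟨o, o', x, k1, k2, k3, k4, k5⟩ := (hT u).1 t
        by_cases i : I o
        · refine ⟨o', fun _ => ⟨k2, fun i' => k3 ?_⟩⟩
          obtain ⟨a, a1, a2, a3, rfl⟩ := (hI o).1 i
          obtain ⟨b, b1, b2, b3, rfl⟩ := (hI o').1 i'
          have r := rg_trans ((hf a a2).2.2.1.one H k4) (k5.one H (hf b b2).2.2.1)
          rw [le_antisymm (a3 b b1 r) (b3 a a1 (rg_symm H r))]
        · exact ⟨o, fun _ => ⟨k1, i⟩⟩
      · refine ⟨o, fun _ => ⟨k1, fun i => ?_⟩⟩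
        obtain ⟨a, -, a2, -, rfl⟩ := (hI o).1 i
        obtain ⟨j1, j2, j3, j4⟩ := hf a a2
        have := j4 o' v k2 k3 (k5.rg (j3.one H k4))
        rw [uq _ _ _ j1 k.1 j2 k1] at this
        omega
    choose g hg using e2
    rw [cnt_split M.n (M.Dead X) I]
    refine Nat.add_le_add (cnt_inj f (fun x hx k => ?_) fun x hx y hy k l e => ?_)
      (cnt_inj g (fun u _ k => ?_) fun u _ v _ k l e => ?_)
    · obtain ⟨j1, j2, -⟩ := hf x k.1.2
      exact ⟨H.lt _ (dal _ ⟨_, j1, j2⟩), (hI _).2 ⟨x, hx, k.1.2, k.2, rfl⟩, _, j1, j2⟩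
    · have r := (hf x k.1.2).2.2.1.one H (e ▸ (hf y l.1.2).2.2.1)
      exact le_antisymm (k.2 y hy r) (l.2 x hx (rg_symm H r))
    · exact ⟨H.lt _ (dal _ ⟨_, k.1, (hg u k).1⟩), (hg u k).2, _, k.1, (hg u k).1⟩
    · exact uq u v _ k.1 l.1 (hg u k).1 (e ▸ (hg v l).1)
  have hinv : ∀ x y, M'.Rg x y → M'.al (x / 4) → ¬Hit x → ¬Hit y := fun x y r a k v =>
    k (Hrg _ _ (pure x y a k r) v)
  have lt' : ∀ y, M'.al (y / 4) → y < 4 * M'.n := fun y a => lt4 H' a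
  have p2 : ncl (4 * M.n) (fun x => (M.al (x / 4) ∧ ¬M.Crit x) ∧ ¬Hit x) M.Rg ≤
      ncl (4 * M'.n) (fun x => (M'.al (x / 4) ∧ ¬M'.Crit x) ∧ ¬Hit x) M'.Rg :=
    ncl_le th (rg_eqv H _) (rg_eqv H' _)
      (fun x _ y _ r k => ⟨⟨(rg_al H' r).2 k.1.1, mt (crit_rg H' r).2 k.1.2⟩, hinv x y r k.1.1 k.2⟩)
      (fun x _ k => ⟨lt' _ (hth x k).2.1, (hth x k).2,
        fun v => k.2 (Hrg _ _ (hth x k).1 v)⟩)
      fun x _ y _ k l r => rg_trans (hth x k).1 (rg_trans (pure _ _ (hth x k).2.1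
        (fun v => k.2 (Hrg _ _ (hth x k).1 v)) r) (rg_symm H (hth y l).1))
  have p3 : cnt M.n (fun u => X u ∧ M.NT z u ∧ Lo u ∧ ¬Tw u) ≤
      ncl (4 * M'.n) (fun x => (M'.al (x / 4) ∧ ¬M'.Crit x) ∧ Hit x) M'.Rg := by
    rw [← ncl_eq]
    refine ncl_le nw (eqv_eq _) (rg_eqv H' _)
      (fun x _ y _ r k => ⟨⟨(rg_al H' r).2 k.1.1, mt (crit_rg H' r).2 k.1.2⟩, by_contra fun v =>
        hinv y x (rg_symm H' r) ((rg_al H' r).2 k.1.1) v k.2⟩) (fun u _ k => ?_)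
      fun u _ v _ k l r => ?_
    · obtain ⟨j1, -, o, j2, j3⟩ := hnw u k
      exact ⟨lt' _ j1.1, j1, (hH _).2 ⟨o, u, k.1, j2, j3⟩⟩
    · obtain ⟨j1, j2, j3⟩ := hnw u k
      obtain ⟨o, o1, o2⟩ := lon u k.1 k.2.2.1 _ _ j1.1 j2 j3 r
      obtain ⟨-, -, o', o3, o4⟩ := hnw v l
      exact ((hL u).1 k.2.2.1 o o' v _ o1 l.1 o3 o2 o4).symm
  have q1 := part1 id
  have q2 := part1 fun v => M.n - v
  have q3 := (cnt_mono (n := M.n) (P := fun x => X x ∧ M.NT z x) fun u _ k => ?_).trans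
    ((cnt_or _ _ _).trans (Nat.add_le_add_right (cnt_or M.n
      (fun u => X u ∧ (Tw u ∨ ∃ o o' v x, M.Dd u o ∧ X v ∧ M.Dd v o' ∧ Ps M o x ∧
          Ps M o' x ∧ id v < id u))
      fun u => X u ∧ (Tw u ∨ ∃ o o' v x, M.Dd u o ∧ X v ∧ M.Dd v o' ∧ Ps M o x ∧
          Ps M o' x ∧ M.n - v < M.n - u)) (cnt M.n fun u => X u ∧ M.NT z u ∧ Lo u ∧ ¬Tw u)))
  · have c1 := cnt_split M.n M.al (M.Dead X)
    have c2 : cnt M.n (fun a => M.Dead X a ∧ M.al a) = cnt M.n (M.Dead X) :=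
      cnt_congr fun a _ => ⟨And.left, fun k => ⟨k, dal a k⟩⟩
    have c3 : cnt M.n (fun a => ¬M.Dead X a ∧ M.al a) = cnt M'.n M'.al := by
      rw [S.n]
      exact cnt_congr fun a _ => by rw [S.al, and_comm]
    have c4 := nc_le H' (hR M' H')
    have c5 := ncl_cut (4 * M.n) (fun x => M.al (x / 4) ∧ ¬M.Crit x) Hit M.Rg
    have c6 := ncl_cut (4 * M'.n) (fun x => M'.al (x / 4) ∧ ¬M'.Crit x) Hit M'.Rg
    unfold Cm.mu
    omega
  · by_cases t : Tw u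
    · exact Or.inl (Or.inl ⟨k.1, Or.inl t⟩)
    by_cases l : Lo u
    · exact Or.inr ⟨k.1, k.2, l, t⟩
    rw [hL] at l
    push Not at l
    obtain ⟨o, o', v, x, l1, l2, l3, l4, l5, l6⟩ := l
    have := H.lt v (F.top v l2).1
    rcases Nat.lt_or_gt_of_ne l6 with c | c
    · exact Or.inl (Or.inl ⟨k.1, Or.inr ⟨o, o', v, x, l1, l2, l3, l4, l5, c⟩⟩)
    · exact Or.inl (Or.inr ⟨k.1, Or.inr ⟨o, o', v, x, l1, l2, l3, l4, l5, by omega⟩⟩)

end Pool.Agent.MP_1a6d78_lc.PG
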