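import Pool.Agent.MP_1a6d78_lc.PG.FSpec

/-! PROJECT PG: enough poles and rings that pay. -/

namespace Pool.Agent.MP_1a6d78_lc.PG

open Classical ED PR PL Relation

noncomputable section

namespace FAct

/-- The cells of the rings. -/
def rs (M : Cm) : Finset (ℕ × ℕ) :=
  (Finset.range 4 ×ˢ Finset.range M.n).filter fun a => M.Rng a.1 a.2

theorem mem {M : Cm} (H : M.Ok) (a : ℕ × ℕ) : a ∈ rs M ↔ a.1 < 4 ∧ M.Rng a.1 a.2 := by
  simp only [rs, Finset.mem_filter, Finset.mem_product, Finset.mem_range]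
  exact ⟨fun h => ⟨h.1.1, h.2⟩, fun h => ⟨⟨h.1, H.lt _ h.2.1.1⟩, h.2⟩⟩

theorem ts_eq (x : ℕ) : Ct.ts (x % 4) (4 * (x / 4)) = x := by
  unfold Ct.ts fs
  split_ifs <;> omega

theorem base (tw : S_Tw) (pe : S_PE) (ba : S_Base) {M : Cm} (H : M.Ok) {z G : ℕ} (hz : M.gx ≤ G)
    (h : ∀ g < 4, ∀ x, (M.tw g).Top x → ¬(M.tw g).NT z x → (M.tw g).Clo ((M.tw g).Dd x)) :
    M.Wit z G := by
  obtain ⟨S, s1, s2, s3⟩ := ba M H z G hz
  have inj : Function.Injective fun x : ℕ => (x % 4, x / 4) := fun x y e => by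
    obtain ⟨e1, e2⟩ := Prod.mk.inj e
    omega
  refine ⟨S.image fun x => (x % 4, x / 4), ∅, ?_, fun a ha => ?_, fun a ha b hb e r => ?_,
    by simp, by simp⟩
  · rw [Finset.card_image_of_injective _ inj]
    omega
  · obtain ⟨x, hx, rfl⟩ := Finset.mem_image.1 ha
    obtain ⟨x1, x2, x3⟩ := s2 x hx
    have g4 : x % 4 < 4 := Nat.mod_lt _ (by norm_num)
    have K := tw M H (x % 4) (by omega)
    have top : (M.tw (x % 4)).Top (x / 4) :=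
      ⟨(K.al _).2 x1, (K.crit _).2 (by rwa [ts_eq])⟩
    refine ⟨g4, top, by_contra fun k => ?_⟩
    have c := h _ g4 _ top k
    exact x3 _ ((K.clo _).1 c) ((K.cln _ _).1 ((pe _ K.ok z _ top).2.1 k c))
      (Cm.Dd.top ⟨0, rfl⟩)
  · obtain ⟨x, hx, rfl⟩ := Finset.mem_image.1 ha
    obtain ⟨y, hy, rfl⟩ := Finset.mem_image.1 hb
    have K := tw M H (x % 4) (by omega)
    have r' := (K.rg _ _).1 r
    have e' : x % 4 = y % 4 := e
    rw [ts_eq, e', ts_eq] at r'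
    rw [s3 x hx y hy r']

end FAct

theorem fAct : S_Walk → S_Reg → S_Dead → S_Tw → S_TwC → S_CutEx → S_CutW → S_CutR → S_CS → S_G0 →
    S_G1 → S_PE → S_Base → S_Step → S_GCut → S_Act := by
  intro _ _ _ tw twc cx cw cr cs g0 g1 pe ba st gc M
  induction hk : (FAct.rs M).card using Nat.strong_induction_on generalizing M with
  | _ k ih =>
  intro H z G hz
  by_cases h : ∀ g < 4, ∀ x, (M.tw g).Top x → ¬(M.tw g).NT z x → (M.tw g).Clo ((M.tw g).Dd x)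
  · exact FAct.base tw pe ba H hz h
  obtain ⟨g, g4, x, top, nt, p, p1, p2⟩ : ∃ g < 4, ∃ x, (M.tw g).Top x ∧ ¬(M.tw g).NT z x ∧
      ∃ p, (M.tw g).Dd x (p / 4) ∧ ¬(M.tw g).Dd x ((M.tw g).lk p / 4) := by
    by_contra k
    exact h fun g g4 x a b p c => by_contra fun d => k ⟨g, g4, x, a, b, p, c, d⟩
  have g8 : g < 8 := by omega
  have K := tw M H g g8
  obtain ⟨t, v, ht, cap⟩ : ∃ t v, (t = 2 ∨ t = 3) ∧ (M.tw g).Cap x t v := by
    obtain ⟨t, ht, c | c⟩ := g0 _ K.ok z x p top nt p1 p2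
    exacts [⟨t, _, ht, c.2⟩, ⟨t, _, ht, c.2⟩]
  have t4 : t < 4 := by omega
  obtain ⟨rsN, N1, ok1, cut⟩ := (cx _ K.ok).2 t t4 v cap.1
  obtain ⟨top1, dd, nt1⟩ := cs _ N1 _ K.ok ok1 rsN cut x top
  obtain ⟨y, y1, y2⟩ : ∃ y, (M.tw g).Pa t v y ∧ (M.tw g).Kd t 2 y := by
    rcases ht with rfl | rfl
    exacts [cap.1.2.1, cap.1.2.2]
  have dy : N1.Dd x y := (dd y).2 ((cap.2 y y1).2 y2)
  have n1 : ¬N1.NT z x := fun c => nt ((nt1 z).1 c)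
  have clo := g1 N1 ok1 z x y top1 n1 dy
    ((cr _ N1 _ K.ok ok1 rsN cut).cor t 2 y ⟨rfl, y1⟩ y2).1
  have cln := (pe N1 ok1 z x top1).2.1 n1 clo
  have K1 := tw N1 ok1 (gi g) (Ct.gi_lt g8)
  have cut' := (twc _ N1 _ K.ok ok1 rsN cut (gi g) (Ct.gi_lt g8)).2
  have e : (fun t' y => t' < 4 ∧ (M.tw g).One t v (fp (gi g) t') y) = M.One (fp g t) v := by
    funext t' u
    refine propext ⟨fun ⟨a, b, c⟩ => ⟨?_, (K.pa _ _ _).1 c⟩, fun ⟨a, b⟩ =>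
      ⟨a ▸ Ct.fp_lt g t, ?_, (K.pa _ _ _).2 b⟩⟩
    · rw [← b, (Ct.fp_fp g8 t').2]
      omega
    · rw [a, (Ct.fp_fp g8 t).1]
      omega
  rw [e, K.back] at cut'
  have rn := (K.rn t v).1 cap.1
  have f4 := Ct.fp_lt g t
  have W := cw M _ _ H K1.ok ((cx M H).2 _ f4 v rn).1 cut'
  refine st M _ (N1.Dd x) z G _ v H K1.ok f4 rn cut' ((K1.clo _).2 clo) ((K1.cln _ _).2 cln)
    ⟨y, (K.pa _ _ _).1 y1, dy⟩ (ih _ ?_ _ rfl K1.ok z G ((gc M _ _ v H K1.ok f4 rn cut').trans hz))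
  rw [← hk]
  refine Finset.card_lt_card ⟨fun a ha => ?_, fun c => ?_⟩
  · obtain ⟨a1, a2⟩ := (FAct.mem K1.ok a).1 ha
    exact (FAct.mem H a).2 ⟨a1, (W.lift _ a1 _ a2).1⟩
  · obtain ⟨a1, a2⟩ := (FAct.mem K1.ok _).1 (c ((FAct.mem H (fp g t, v)).2 ⟨f4, rn⟩))
    exact (W.lift _ a1 _ a2).2.1 ⟨rfl, 0, rfl⟩

end

end Pool.Agent.MP_1a6d78_lc.PG
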