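import Pool.Agent.MP_1a6d78_lc.PG.FSpec

/-! PROJECT PG, row BAS: the border of a basin has a saddle link. -/

namespace Pool.Agent.MP_1a6d78_lc.PG

open Classical Relation

namespace FBas

variable {M : Cm}

/-- One step of a run that enters by the port `i + 2`. -/
theorem step (H : M.Ok) (K : WalkK M) {i e x : ℕ} (he : e = 1 ∨ e = 3) (hx : M.al x)
    (hs : M.ss (i + e + 2) x = sd (i + e + 2) (i + 2)) :
    M.lk (pt x (i + e + 2)) = pt (M.st (i + e + 2) x) (i + 2) ∧
      M.st (i + 2) (M.st (i + e + 2) x) = x ∧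
      M.ss (i + 2) (M.st (i + e + 2) x) = sd (i + 2) (i + e + 2) := by
  have h1 : M.lk (pt x (i + e + 2)) = pt (M.st (i + e + 2) x) (i + 2) := by
    rw [K.ent _ _ hx, hs]
    unfold pt ep sd
    split_ifs <;> omega
  have h2 : M.lk (pt (M.st (i + e + 2) x) (i + 2)) = pt x (i + e + 2) := by
    rw [← h1, H.inv]
  refine ⟨h1, ?_, ?_⟩
  · show M.lk (pt (M.st (i + e + 2) x) (i + 2)) / 4 = x
    rw [h2, pt_div]
  · show sd (i + 2) (M.lk (pt (M.st (i + e + 2) x) (i + 2))) = _
    rw [h2]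
    unfold sd
    rw [pt_mod]

/-- The cells of a run lie behind its first cell. -/
theorem run (H : M.Ok) (K : WalkK M) {i e b x : ℕ} (he : e = 1 ∨ e = 3) (hb : M.al b)
    (r : M.Run (i + e + 2) (sd (i + e + 2) (i + 2)) b x) :
    M.al x ∧ M.Pa (i + 2) x b ∧ (x = b ∨ ∃ y, M.Pa (i + 2) x y ∧ M.st (i + 2) y = b ∧
      M.ss (i + 2) y = sd (i + 2) (i + e + 2)) := by
  induction r with
  | refl => exact ⟨hb, Cm.Pa.refl _ _, Or.inl rfl⟩
  | @tail x y _ s ih =>
    obtain ⟨hx, hp, hq⟩ := ih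
    obtain ⟨rfl, hs⟩ := s
    obtain ⟨_, h2, h3⟩ := step H K he hx hs
    have p1 : M.Pa (i + 2) (M.st (i + e + 2) x) x := by
      have := Cm.Pa.step (M := M) (i + 2) (M.st (i + e + 2) x)
      rwa [h2] at this
    refine ⟨H.al_st _ hx, p1.trans hp, Or.inr ?_⟩
    rcases hq with rfl | ⟨y, py, e1, e2⟩
    · exact ⟨_, Cm.Pa.refl _ _, h2, h3⟩
    · exact ⟨y, p1.trans py, e1, e2⟩

/-- A run that changes membership has a step that does. -/
theorem change {B : ℕ → Prop} {j s b u : ℕ} (r : M.Run j s b u) :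
    (B u ↔ B b) ∨ ∃ x, M.Run j s b x ∧ M.ss j x = s ∧ ¬(B x ↔ B (M.st j x)) := by
  induction r with
  | refl => exact Or.inl Iff.rfl
  | @tail x y r s ih =>
    obtain ⟨rfl, hs⟩ := s
    rcases ih with ih | ih
    · by_cases k : B x ↔ B (M.st j x)
      · exact Or.inl (k.symm.trans ih)
      · exact Or.inr ⟨x, r, hs, k⟩
    · exact Or.inr ih

theorem keep {B : ℕ → Prop} {i s a r : ℕ} (hB : ∀ c, B (M.st i c) ↔ B c) (h : M.Run i s a r) :
    B r ↔ B a := by
  induction h with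
  | refl => exact Iff.rfl
  | tail _ s ih => rw [s.1, hB, ih]

theorem flip {e : ℕ} (he : e = 1 ∨ e = 3) (x i : ℕ) :
    (4 - e = 1 ∨ 4 - e = 3) ∧ pt x (i + (4 - e)) = pt x (i + e + 2) := by
  unfold pt
  omega

theorem fin (H : M.Ok) (K : WalkK M) {j b : ℕ} (hb : M.al b) : {y | M.Pa j y b}.Finite :=
  (Set.finite_lt_nat M.n).subset fun y hy => H.lt y ((K.pa_al j y b hy).1 hb)

end FBas

open FBas in
theorem fBas : S_Walk → S_Reg → S_Bas := by
  intro hW hR M H B i e a b he hB hc hk hab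
  have K := hW M H
  have G := hR M H
  generalize hm : {y | M.Pa (i + 2) y b}.ncard = m
  induction m using Nat.strong_induction_on generalizing e a b with
  | _ m ih =>
  have hb : M.al b := by
    have := (K.lk_al (pt a (i + e))).2 (by rw [pt_div]; exact hc.1)
    rwa [hc.2, pt_div] at this
  obtain ⟨⟨h, hh⟩, u, hu⟩ := G.run i e a b he hc
  rcases change (B := B) hu.1 with k | ⟨x, rx, hs, k⟩
  · have hha : B h ↔ B a := by
      obtain ⟨r, rr, er⟩ := hh
      have : h = M.st i r := by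
        show h = M.lk (pt r i) / 4
        rw [er, pt_div]
      rw [this, hB, keep hB rr]
    have hne : ¬(B h ↔ B u) := fun l => hab (hha.symm.trans (l.trans k))
    have hhu : h ≠ u := fun l => hne (by rw [l])
    obtain ⟨_, f2, f3⟩ := G.flow i e a b h u he hc hh hu
    exact ⟨e, a, b, h, u, he, hc, Cm.Pa.refl _ _, hh, hu, hne, f2.1 hhu, f3.1 hhu⟩
  · obtain ⟨hx, px, q⟩ := run H K he hb rx
    obtain ⟨h1, h2, h3⟩ := step H K he hx hs
    have hx' := H.al_st (i + e + 2) hx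
    have p1 : M.Pa (i + 2) (M.st (i + e + 2) x) x := by
      have := Cm.Pa.step (M := M) (i + 2) (M.st (i + e + 2) x)
      rwa [h2] at this
    have px' := p1.trans px
    have np : ¬M.Per (i + 2) (M.st (i + e + 2) x) := by
      intro p
      apply hk
      rcases q with l | ⟨y, py, e1, e2⟩
      · exact ⟨_, p, h2.trans l, h3⟩
      · exact ⟨y, (K.per_pa _ _ _ p (p1.trans py)).1, e1, e2⟩
    have hc' : M.Cfg i (4 - e) x (M.st (i + e + 2) x) := ⟨hx, by rw [(flip he x i).2, h1]⟩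
    have lt : {y | M.Pa (i + 2) y (M.st (i + e + 2) x)}.ncard < m := by
      rw [← hm]
      refine Set.ncard_lt_ncard ⟨fun y hy => Cm.Pa.trans hy px', fun l => np ⟨hx', ?_⟩⟩
        (fin H K hb)
      rw [h2]
      exact px.trans (l (Cm.Pa.refl _ _))
    obtain ⟨e', a', b', h', u', t1, t2, t3, t4⟩ := ih _ lt (4 - e) x _ (flip he x i).1 hc'
      (fun l => np (K.kd_per _ _ _ l).1) k rfl
    exact ⟨e', a', b', h', u', t1, t2, t3.trans px', t4⟩

end Pool.Agent.MP_1a6d78_lc.PG
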