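import Pool.Agent.MP_1a6d78_lc.PG.FSpec
import Pool.Agent.MP_1a6d78_lc.PG.Cnt

/-! PROJECT PG: enough critical regions outside the clean components. -/

namespace Pool.Agent.MP_1a6d78_lc.PG

open Classical ED PR PL Ct

theorem fBase0 : S_Base := fun M H z G hz => by
  obtain ⟨U, hU⟩ : ∃ U : ℕ → Prop, ∀ c, U c ↔ ∃ W, M.Clo W ∧ M.Cln z W ∧ W c :=
    ⟨_, fun _ => Iff.rfl⟩
  have u1 : ∀ p, U (p / 4) → U (M.lk p / 4) := fun p k => by
    obtain ⟨W, k1, k2, k3⟩ := (hU _).1 k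
    exact (hU _).2 ⟨W, k1, k2, k1 p k3⟩
  have u2 : ∀ x, M.Alt x → U (x / 4) → ¬M.Sad x := fun x a k s => by
    obtain ⟨W, -, k2, k3⟩ := (hU _).1 k
    have al := sad_al H s
    have := alt_mod H al a
    refine k2.2 (r4 x) ⟨by rwa [r4_div], ?_⟩ (by rwa [r4_div])
    rwa [Cm.lo, if_pos (by unfold Cm.nr at this; rw [this]; unfold r4; omega),
      show r3 (r4 x) = x by unfold r3 r4; omega]
  obtain ⟨N, S⟩ := smo_ex H U
  have H' := smo_ok H S
  have nr : ∀ x, N.al (x / 4) → N.nr x = M.nr x := fun x k => by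
    rw [← r4_div, S.al] at k
    exact (S.lk _ ((S.al _).2 k)).uniq (.stop ((S.al _).2
      ⟨al_lk H k.1, fun v => k.2 (H.inv (r4 x) ▸ u1 _ v)⟩))
  have it : ∀ x, N.al (x / 4) → ∀ t, N.al (N.nr^[t] x / 4) ∧ N.nr^[t] x = M.nr^[t] x :=
    fun x k t => by
      induction t with
      | zero => exact ⟨k, rfl⟩
      | succ t ih =>
        rw [Function.iterate_succ_apply', Function.iterate_succ_apply', ← ih.2]
        exact ⟨(nr_al H').2 ih.1, nr _ ih.1⟩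
  have rg : ∀ x, N.al (x / 4) → ∀ y, N.Rg x y ↔ M.Rg x y := fun x k y =>
    exists_congr fun t => by rw [(it x k t).2]
  have alt : ∀ x, N.al (x / 4) → (N.Alt x ↔ M.Alt x) := fun x k => by
    unfold Cm.Alt
    rw [nr x k]
  have cr : ∀ x, N.al (x / 4) → (N.Crit x ↔ M.Crit x) := fun x k => forall_congr' fun y => by
    rw [← rg x k]
    exact forall_congr' fun v => (alt y ((rg_al H' v).2 k)).not
  have i1 := crit_ge H'
  have i0 : N.gx ≤ M.gx := by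
    have o := (ok_pl H').iv
    rw [Cm.gx, S.n] at *
    refine GEN.mono swapK nclK Two.pm (ok_pl H).iv _ _ rfl o fun d _ => ?_
    by_cases k : N.al (d / 4)
    · rw [S.al] at k
      exact Or.inr ((S.lk _ ((S.al _).2 k)).uniq (.stop ((S.al _).2
        ⟨al_lk H k.1, fun v => k.2 (H.inv d ▸ u1 _ v)⟩)))
    · exact Or.inl (S.fix d k)
  have i2 := mu_add H
  have i3 := mu_add H'
  have i4 := cnt_alt H
  have i5 := cnt_alt H'
  rw [S.n] at i1 i3 i5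
  rw [ncl_cut _ _ fun x => U (x / 4)] at i2
  rw [cnt_split _ _ fun x => U (x / 4), cnt_bit] at i4
  have i6 : ncl (4 * M.n) (fun x => (M.al (x / 4) ∧ ¬M.Crit x) ∧ ¬U (x / 4)) M.Rg =
      ncl (4 * M.n) (fun x => N.al (x / 4) ∧ ¬N.Crit x) N.Rg := cnt_congr fun x _ => by
    by_cases k : N.al (x / 4)
    · simp only [rg x k, cr x k, k, (S.al _).1 k, not_false_iff, and_true]
    · exact ⟨fun v => absurd ((S.al _).2 ⟨v.1.1.1, v.1.2⟩) k, fun v => absurd v.1.1 k⟩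
  have i7 : cnt (4 * M.n) (fun x => ¬U (x / 4) ∧ M.al (x / 4) ∧ M.Alt x) =
      cnt (4 * M.n) fun x => N.al (x / 4) ∧ N.Alt x := cnt_congr fun x _ =>
    ⟨fun v => have k := (S.al _).2 ⟨v.2.1, v.1⟩; ⟨k, (alt x k).2 v.2.2⟩,
      fun v => ⟨((S.al _).1 v.1).2, ((S.al _).1 v.1).1, (alt x v.1).1 v.2⟩⟩
  have ur : ∀ x y, M.Rg x y → U (x / 4) → U (y / 4) := fun x y v k =>
    rg_ind (Q := fun d => U (d / 4)) v k fun d w => u1 _ (by rwa [r4_div])
  have i8 : ∀ a, cnt (4 * M.n) (fun x => (U (x / 4) ∧ M.al (x / 4) ∧ M.Alt x) ∧ x % 4 / 2 = a % 2) ≤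
      ncl (4 * M.n) (fun x => (M.al (x / 4) ∧ ¬M.Crit x) ∧ U (x / 4)) M.Rg := fun a => by
    refine le_trans (cnt_mono fun x _ k => ⟨k, fun e _ (v : x = e) => v.le⟩)
      (ncl_le (r := Eq) id ⟨fun _ _ => rfl, fun _ _ _ _ => Eq.symm, fun _ _ _ _ _ _ => Eq.trans⟩
        (rg_eqv H _) (fun x _ y _ v k => ⟨⟨(rg_al H v).2 k.1.1, mt (crit_rg H v).2 k.1.2⟩,
          ur x y v k.2⟩) (fun x hx k => ⟨hx, ⟨k.1.2.1, fun v => v x (rg_refl _ _) k.1.2.2⟩, k.1.1⟩)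
        fun x _ y _ k k' v => by_contra fun ne => u2 x k.1.2.2 k.1.1
          ⟨x, y, rg_refl _ _, v, ne, k.1.2.2, k'.1.2.2, ?_⟩)
    have := rg_par H v k.1.2.1
    have := k.2
    have := k'.2
    simp only [id] at *
    omega
  have j0 := i8 0
  have j1 := i8 1
  have i9 : N.mu ≤ ncl (4 * M.n) (fun x => N.al (x / 4) ∧ N.Crit x) N.Rg + G := by omega
  unfold ncl PR.cnt at i9
  refine ⟨_, le_trans (by omega : _ ≤ N.mu) i9, fun x k => ?_, fun x k y k' v => ?_⟩ <;>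
    simp only [Finset.mem_filter, Finset.mem_range] at *
  · obtain ⟨-, ⟨k1, k2⟩, -⟩ := k
    exact ⟨((S.al _).1 k1).1, (cr x k1).1 k2, fun W w1 w2 w3 =>
      ((S.al _).1 k1).2 ((hU _).2 ⟨W, w1, w2, w3⟩)⟩
  · obtain ⟨k0, ⟨k1, -⟩, k2⟩ := k
    obtain ⟨l0, -, l2⟩ := k'
    have := (rg x k1 y).2 v
    exact le_antisymm (k2 y l0 this)
      (l2 x k0 (rg_symm H' this))

theorem fBase : S_Walk → S_Reg → S_Base := fun _ _ => fBase0

end Pool.Agent.MP_1a6d78_lc.PG
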