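import Pool.Agent.MP_1a6d78_lc.PG.FSpec

/-! PROJECT PG: a cut does not change the kills. -/

namespace Pool.Agent.MP_1a6d78_lc.PG

namespace FCS

variable {M : Cm} {R : ℕ → ℕ → Prop} {x t a y : ℕ}

theorem rg_trans {z : ℕ} (a : M.Rg x y) (b : M.Rg y z) : M.Rg x z :=
  let ⟨s, hs⟩ := a
  let ⟨t, ht⟩ := b
  ⟨t + s, by rw [Function.iterate_add_apply, hs, ht]⟩

theorem rpa (h : M.Rs R) {u : ℕ} (r : R t y) (p : M.Pa t y u) : R t u := by
  obtain ⟨k, rfl⟩ := p
  induction k with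
  | zero => exact r
  | succ k ih => rw [Cm.wk_succ]; exact (h _ _ ih).2.2

theorem two (W : WalkK M) (D : DeadK M x) (h : M.Rs R) (r : R t y) (k : M.Kd t a y)
    (d : M.Dd x y) : a = 2 ∧ (t = 2 ∨ t = 3) := by
  obtain ⟨t4, rn, -⟩ := h t y r
  obtain ⟨c1, c2, -, -, c3, c4⟩ := D.cyc y d
  have := (W.kd_per t a y k).2
  have h0 : t ≠ 0 := fun e => c3 (e ▸ rn)
  have h1 : t ≠ 1 := fun e => c4 (e ▸ rn)
  have h2 : t = 2 → a ≠ 1 := fun e e' => c1 (by rwa [e, e'] at k)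
  have h3 : t = 3 → a ≠ 3 := fun e e' => c2 (by rwa [e, e'] at k)
  omega

theorem pred (ok : M.Ok) (W : WalkK M) (h : M.Rs R) (r : R t y) (k : M.Kd t a y) :
    M.lk (pt y (ep t a)) % 4 = t % 4 ∧ R t (M.lk (pt y (ep t a)) / 4) := by
  obtain ⟨-, k1, k2⟩ := (W.kd_iff t a y).1 k
  refine ⟨k1, rpa h r (W.per_pa t _ y k2 ⟨1, ?_⟩).2⟩
  change M.lk (pt _ t) / 4 = y
  rw [show pt (M.lk (pt y (ep t a)) / 4) t = M.lk (pt y (ep t a)) by rw [pt]; omega, ok.inv, pt_div]

theorem other (W : WalkK M) (G : RegK M) (rn : M.Rng t y) (ht : t = 2 ∨ t = 3) :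
    ∃ a u, a ≠ 2 ∧ M.Pa t y u ∧ M.Kd t a u ∧ M.Rg (4 * y + 2) (4 * u + 2) := by
  obtain ⟨a, w, a2, p, k⟩ : ∃ a w, a ≠ 2 ∧ M.Pa t y w ∧ M.Kd t a w := by
    obtain ⟨-, ⟨w, p, k⟩, w', p', k'⟩ := rn
    rcases ht with rfl | rfl
    exacts [⟨_, w', by decide, p', k'⟩, ⟨_, w, by decide, p, k⟩]
  obtain ⟨pw, n, e⟩ := W.per_pa t y w rn.1 p
  have cl : ∀ n, ∃ a u, a ≠ 2 ∧ M.Pa t w u ∧ M.Kd t a u ∧
      M.Rg (4 * M.wk t w n + 2) (4 * u + 2) := by
    intro n
    induction n with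
    | zero => exact ⟨a, w, a2, .refl _ _, k, 0, rfl⟩
    | succ n ih =>
      have pu := (W.per_pa t w _ pw (.wk t w n)).1
      by_cases s : M.ss t (M.wk t w n) = 2
      · obtain ⟨a, u, b1, b2, b3, b4⟩ := ih
        refine ⟨a, u, b1, b2, b3, rg_trans ?_ b4⟩
        have e := W.ent t _ pu.1
        rw [s, ← Cm.wk_succ] at e
        rcases ht with rfl | rfl
        · have := G.bw (pt (M.wk 2 w n) 2)
          rw [e, show ep 2 2 = 3 from rfl] at this
          convert this using 1 <;> simp only [pt, r3] <;> omega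
        · have := G.symm _ _ (G.fw (pt (M.wk 3 w n) 3))
          rw [e, show ep 3 2 = 2 from rfl] at this
          convert this using 1 <;> simp only [pt, r3] <;> omega
      · exact ⟨_, _, s, .wk t w (n + 1), ⟨_, pu, (Cm.wk_succ ..).symm, rfl⟩, 0, rfl⟩
  obtain ⟨a, u, b1, b2, b3, b4⟩ := cl n
  exact ⟨a, u, b1, p.trans b2, b3, e ▸ b4⟩

theorem hop {N : Cm} {c k : ℕ} (dd : ∀ c, N.Dd x c ↔ M.Dd x c)
    (h : ∀ s ≤ k, ∀ p, p / 4 = M.wk 3 c s → N.lk p = M.lk p) (h1 : M.lk (4 * c + 2) % 4 = 1)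
    (h2 : ¬M.Dd x (M.st 2 c)) (h3 : ∀ s ≤ k, M.Dd x (M.wk 3 c s))
    (h4 : M.lk (4 * M.wk 3 c k + 3) % 4 = 0) : N.Hop x := by
  have e : ∀ s ≤ k, N.wk 3 c s = M.wk 3 c s := by
    intro s hs
    induction s with
    | zero => rfl
    | succ s ih =>
      rw [Cm.wk_succ, Cm.wk_succ, ih (by omega), Cm.st, Cm.st, h s (by omega) _ (pt_div _ _)]
  refine ⟨c, k, ?_, ?_, fun s hs => ?_, ?_⟩
  · rw [h 0 (by omega) _ (by rw [Cm.wk_zero]; omega), h1]
  · rw [dd, Cm.st, h 0 (by omega) (pt c 2) (pt_div _ _)]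
    exact h2
  · rw [dd, e s hs]
    exact h3 s hs
  · rw [e k le_rfl, h k le_rfl _ (by omega), h4]

end FCS

open FCS in
theorem fCS : S_Walk → S_Reg → S_Dead → S_CutW → S_CutR → S_CS := by
  intro hW hG hD hCW hCR M M' R ok ok' rs cut x top
  have W := hW M ok
  have D := hD M ok x top
  have CW := hCW M M' R ok ok' rs cut
  have CR := hCR M M' R ok ok' rs cut
  have cr : ∀ c a, a < 4 → M.Cor R (4 * c + a) → ∃ t, R t c ∧ M.Kd t a c := fun c a a4 h => by
    rwa [Cm.Cor, show (4 * c + a) / 4 = c by omega, show (4 * c + a) % 4 = a by omega] at h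
  have nc : ∀ c a, a < 4 → a ≠ 2 → M.Dd x c → ¬M.Cor R (4 * c + a) := fun c a a4 a2 d h =>
    let ⟨_, r, k⟩ := cr c a a4 h
    a2 (two W D rs r k d).1
  have n0 : ∀ c, M.Dd x c → ¬M.Cor R (4 * c) := fun c => nc c 0 (by omega) (by omega)
  have nx := n0 x (.top ⟨0, rfl⟩)
  have oth : ∀ u, M.Cor R (4 * u + 2) →
      ∃ y, M.Rg (4 * u + 2) (4 * y + 2) ∧ ¬M.Dd x y ∧ ¬M.Cor R (4 * y + 2) := by
    intro u h
    obtain ⟨t, r, k⟩ := cr u 2 (by omega) h
    have t4 := (rs t u r).1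
    have ht : t = 2 ∨ t = 3 := by have := (W.kd_per _ _ _ k).2; omega
    obtain ⟨a, y, a2, p, ky, g⟩ := other W (hG M ok) (rs t u r).2.1 ht
    refine ⟨y, g, fun d => a2 (two W D rs (rpa rs r p) ky d).1, fun h' => ?_⟩
    obtain ⟨t', r', k'⟩ := cr y 2 (by omega) h'
    have t4' := (rs t' y r').1
    have := (W.kd_per _ _ _ k').2
    by_cases e : t' = t
    · exact a2 (W.kd_one _ _ _ _ ky (e ▸ k'))
    · refine cut.sep t' y 2 r' k' ?_
      rw [show ep t' 2 = t by unfold ep; split_ifs <;> omega]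
      exact rpa rs r p
  have dd : ∀ c, M'.Dd x c ↔ M.Dd x c := fun c => by
    refine ⟨fun h => ?_, fun h => ?_⟩
    · induction h with
      | top g => exact .top ((CR.rg _ _ nx).1 g).1
      | @step c ex _ ih =>
        have c0 : ¬M.Cor R (4 * c) := fun h => by
          obtain ⟨t, r, k⟩ := cr c 0 (by omega) h
          obtain ⟨u, g⟩ := ex
          have := (((CR.cor t 0 c r k).2.2 _).1 g).1
          omega
        refine .step (ex.imp fun u g => ((CR.rg _ _ c0).1 g).1) fun u g => ?_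
        by_cases e : M.Cor R (4 * u + 2)
        · obtain ⟨y, g', d, n⟩ := oth u e
          exact absurd (ih y ((CR.rg _ _ c0).2 ⟨rg_trans g g', n⟩)) d
        · exact ih u ((CR.rg _ _ c0).2 ⟨g, e⟩)
    · induction h with
      | top g => exact .top ((CR.rg _ _ nx).2 ⟨g, n0 _ (.top g)⟩)
      | @step c ex al ih =>
        have c0 := n0 c (.step ex al)
        refine .step (ex.imp fun u g => (CR.rg _ _ c0).2 ⟨g, fun e => ?_⟩)
          fun u g => ih u ((CR.rg _ _ c0).1 g).1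
        obtain ⟨y, g', d, -⟩ := oth u e
        exact d (al y (rg_trans g g'))
  have un : ∀ y, (∀ t, ¬R t y) → ∀ p, p / 4 = y → M'.lk p = M.lk p := fun y h p e =>
    cut.off p fun ⟨t, _, r, _⟩ => h t (e ▸ r)
  have kd : ∀ t y, R t y → M.Dd x y → M.Kd t 2 y ∧ (t = 2 ∨ t = 3) := fun t y r d => by
    obtain ⟨a, k⟩ := (rs t y r).2.1.1.kd ok
    obtain ⟨rfl, e⟩ := two W D rs r k d
    exact ⟨k, e⟩
  have hp : M'.Hop x ↔ M.Hop x := by
    constructor
    · rintro ⟨c, k, h1, h2, h3, h4⟩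
      refine hop (fun c => (dd c).symm) (fun s hs p e => (un _ (fun t r => ?_) p e).symm)
        h1 h2 h3 h4
      obtain ⟨k2, ht⟩ := kd t _ r ((dd _).1 (h3 s hs))
      have tw := (CW.twin t 2 _ r k2).2.2 (M'.wk 3 c k)
      have p3 : M'.Pa 3 (M'.wk 3 c s) (M'.wk 3 c k) :=
        ⟨k - s, by rw [← Cm.wk_add, Nat.add_sub_cancel' hs]⟩
      have q : M.Pa t (M'.wk 3 c s) (M'.wk 3 c k) ∧ M.Kd t 2 (M'.wk 3 c k) := by
        rcases ht with rfl | rfl
        exacts [tw.2.1 p3, tw.1.1 p3]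
      have tw' := CW.twin t 2 _ (rpa rs r q.1) q.2
      have k3 : M'.Kd 2 2 (M'.wk 3 c k) := by
        rcases ht with rfl | rfl
        exacts [tw'.1, tw'.2.1]
      have : M'.lk (4 * M'.wk 3 c k + 3) % 4 = 2 := (((hW M' ok').kd_iff 2 2 _).1 k3).2.1
      omega
    · rintro ⟨c, k, h1, h2, h3, h4⟩
      have ex : ∃ s, M.lk (4 * M.wk 3 c s + 3) % 4 = 0 := ⟨k, h4⟩
      have le := Nat.find_min' ex h4
      have r2 : ∀ d s, s + d = k → ¬R 2 (M.wk 3 c s) := by
        intro d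
        induction d with
        | zero =>
          intro s e r
          obtain rfl : s = k := e
          have : M.lk (4 * M.wk 3 c s + 3) % 4 = 2 := (pred ok W rs r (kd 2 _ r (h3 s le_rfl)).1).1
          omega
        | succ d ih =>
          intro s e r
          refine ih (s + 1) (by omega) ?_
          rw [Cm.wk_succ]
          exact (pred ok W rs r (kd 2 _ r (h3 s (by omega))).1).2
      have r3 : ∀ s ≤ Nat.find ex, ¬R 3 (M.wk 3 c s) := by
        intro s hs r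
        induction s with
        | zero =>
          have : M.lk (4 * c + 2) % 4 = 3 := (pred ok W rs r (kd 3 _ r (h3 0 (by omega))).1).1
          omega
        | succ s ih =>
          have q : R 3 (M.lk (4 * M.wk 3 c (s + 1) + 2) / 4) :=
            (pred ok W rs r (kd 3 _ r (h3 _ (by omega))).1).2
          have m := Nat.find_min ex (show s < Nat.find ex by omega)
          have e : (4 * M.wk 3 c s + 3) / 4 = M.wk 3 c s := by omega
          have := ok.par (4 * M.wk 3 c s + 3) (by rw [e]; exact D.al _ (h3 s (by omega)))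
          have w : M.wk 3 c (s + 1) = M.lk (4 * M.wk 3 c s + 3) / 4 := Cm.wk_succ ..
          rw [show 4 * M.wk 3 c (s + 1) + 2 = M.lk (4 * M.wk 3 c s + 3) by omega, ok.inv, e] at q
          exact ih (by omega) q
      refine hop dd (fun s hs => un _ fun t r => ?_) h1 h2 (fun s hs => h3 s (hs.trans le))
        (Nat.find_spec ex)
      rcases (kd t _ r (h3 s (hs.trans le))).2 with rfl | rfl
      exacts [r2 (k - s) s (by omega) r, r3 s hs r]
  refine ⟨⟨(CW.al x).2 top.1, (CR.crit _ nx).2 top.2⟩, dd, fun z =>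
    or_congr (dd z) (or_congr (exists_congr fun c => ?_) hp)⟩
  rw [dd]
  exact and_congr_right fun d => or_congr (CR.sad _ (n0 c d)) (or_congr
    (CR.sad _ (nc c 1 (by omega) (by omega) d)) (CR.sad _ (nc c 3 (by omega) (by omega) d)))

end Pool.Agent.MP_1a6d78_lc.PG
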