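import Pool.Agent.MP_1a6d78_lc.PG.FSpec

/-! PROJECT PG, row CMP: cuts one after the other. -/

namespace Pool.Agent.MP_1a6d78_lc.PG

open Classical

namespace FCmp

theorem eq_pt {p y q : ℕ} (h : p / 4 = y) (k : p % 4 = q % 4) : pt y q = p := by
  unfold pt; omega

theorem ep_lt (t a : ℕ) : ep t a % 4 = ep t a := by
  unfold ep; split_ifs <;> omega

theorem rs_pa {M : Cm} {R : ℕ → ℕ → Prop} (hR : M.Rs R) {t a b : ℕ} (h : R t a)
    (k : M.Pa t a b) : R t b := by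
  obtain ⟨s, rfl⟩ := k
  induction s with
  | zero => exact h
  | succ s ih => rw [Cm.wk_succ]; exact (hR _ _ ih).2.2

/-- The cell before `y` on its cycle. -/
theorem prev {M : Cm} (hM : M.Ok) (K : WalkK M) {t a y : ℕ} (h : M.Kd t a y) :
    M.lk (pt y (ep t a)) = pt (M.lk (pt y (ep t a)) / 4) t ∧
      M.Pa t y (M.lk (pt y (ep t a)) / 4) := by
  obtain ⟨-, h1, h2⟩ := (K.kd_iff t a y).1 h
  have e : pt (M.lk (pt y (ep t a)) / 4) t = M.lk (pt y (ep t a)) := eq_pt rfl h1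
  refine ⟨e.symm, (K.per_pa t _ y h2 ⟨1, ?_⟩).2⟩
  show M.lk (pt _ t) / 4 = y
  rw [e, hM.inv, pt_div]

theorem on_exit (M : Cm) (t y : ℕ) : M.On t y (pt y t) :=
  Or.inl ⟨pt_mod y t, by rw [pt_div]; exact Cm.Pa.refl _ _⟩

theorem on_of {M : Cm} (hM : M.Ok) (K : WalkK M) {t a p : ℕ} (ht : t < 4)
    (h : M.Kd t a (p / 4)) (k : p % 4 = t ∨ p % 4 = ep t a) : M.On t (p / 4) p := by
  rcases k with k | k
  · exact Or.inl ⟨by omega, Cm.Pa.refl _ _⟩
  · have e : pt (p / 4) (ep t a) = p := eq_pt rfl (by rw [ep_lt, k])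
    obtain ⟨h1, h2⟩ := prev hM K h
    rw [e] at h1 h2
    exact Or.inr ⟨by rw [h1, pt_mod], h2⟩

end FCmp

open FCmp

theorem fCmp : S_Walk → S_CutW → S_Cmp := by
  intro hW hC M M1 M2 R R' hM h1 h2 hR C1
  have K := hW M hM
  have K1 := hW M1 h1
  have W := hC M M1 R hM h1 hR C1
  have st_eq : ∀ t < 4, ∀ y, M.Rng t y → ¬R t y ∧ M.Nb R t y → M1.st t y = M.st t y := fun t ht y hy hn => by
    unfold Cm.st
    rw [(W.keep t ht y hy hn).2.1 _ (on_exit M t y)]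
  constructor
  · intro hR' C2
    have L : ∀ t y, R' t y → t < 4 ∧ M.Rng t y ∧ ¬R t y ∧ M.Nb R t y := fun t y h =>
      ⟨(hR' t y h).1, W.lift t (hR' t y h).1 y (hR' t y h).2.1⟩
    have X : ∀ t y a, R' t y → M.Kd t a y → ¬R (ep t a) y := fun t y a h k r => by
      obtain ⟨l1, l2, l3⟩ := L _ _ h
      obtain ⟨u1, u2⟩ := prev hM K k
      obtain ⟨-, rn, r2⟩ := hR _ _ r
      have e := K.ent (ep t a) y rn.1.1
      refine l3.2 _ (ep t a) (M.ss (ep t a) y) u2 r2 ⟨y, rn.1, rfl, rfl⟩ ?_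
      have e2 := congrArg (· % 4) (u1.symm.trans e)
      simp only [pt_mod, ep_lt] at e2
      omega
    refine ⟨fun t y h => ?_, fun t y h => (L t y h).2.2.1, C2.n.trans C1.n, C2.inv, ?_, ?_, ?_⟩
    rotate_right
    · rintro t y a (h | h) k (r | r)
      · exact C1.sep t y a h k r
      · exact (L _ _ r).2.2.2 y t a (Cm.Pa.refl _ _) h k rfl
      · exact X t y a h k r
      · obtain ⟨l1, l2, l3⟩ := L _ _ h
        exact C2.sep t y a h (((W.keep t l1 y l2 l3).2.2.2.1 a).2 k) r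
    · obtain ⟨a, b, c⟩ := L t y h
      exact ⟨a, b, st_eq t a y b c ▸ (hR' t y h).2.2⟩
    · rintro t y a (h | h) hk
      · rw [← C1.ring t y a h hk]
        refine C2.off _ ?_
        rintro ⟨t', a', q1, q2, q3⟩
        obtain ⟨l1, l2, l3⟩ := L _ _ q1
        have q4 := ((W.keep t' l1 _ l2 l3).2.2.2.1 a').1 q2
        have t4 := (hR t y h).1
        rw [pt_div] at q1 q4 l3
        rw [pt_mod, Nat.mod_eq_of_lt t4] at q3
        rcases q3 with rfl | rfl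
        · exact l3.1 h
        · exact X _ _ _ q1 q4 h
      · obtain ⟨l1, l2, l3⟩ := L _ _ h
        obtain ⟨-, -, -, k1, k2⟩ := W.keep t l1 y l2 l3
        rw [C2.ring t y a h ((k1 a).2 hk), k2]
    · intro p hp
      rw [C2.off p, C1.off p]
      · rintro ⟨t, a, q1, q2, q3⟩
        exact hp ⟨t, a, Or.inl q1, q2, q3⟩
      · rintro ⟨t, a, q1, q2, q3⟩
        obtain ⟨l1, l2, l3⟩ := L _ _ q1
        exact hp ⟨t, a, Or.inr q1, ((W.keep t l1 _ l2 l3).2.2.2.1 a).1 q2, q3⟩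
  · intro hR' hsub C2
    have nb : ∀ t y, R' t y → M.Nb R t y := fun t y h u t' a p r k e =>
      C2.sep t' u a (hsub _ _ r) k (e ▸ rs_pa hR' h p)
    refine ⟨?_, C2.n.trans C1.n.symm, C2.inv, ?_, ?_, ?_⟩
    rotate_right
    · rintro t y a ⟨h, hn⟩ hk r
      obtain ⟨l1, l2, -⟩ := hR' t y h
      exact C2.sep t y a h (((W.keep t l1 y l2 ⟨hn, nb t y h⟩).2.2.2.1 a).1 hk) r.1
    · rintro t y ⟨h, hn⟩
      obtain ⟨l1, l2, l3⟩ := hR' t y h
      refine ⟨l1, (W.keep t l1 y l2 ⟨hn, nb t y h⟩).1, ?_⟩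
      rw [st_eq t l1 y l2 ⟨hn, nb t y h⟩]
      exact ⟨l3, fun k => hn (rs_pa hR k l2.1.2)⟩
    · rintro t y a ⟨h, hn⟩ hk
      obtain ⟨l1, l2, -⟩ := hR' t y h
      obtain ⟨-, -, -, k1, k2⟩ := W.keep t l1 y l2 ⟨hn, nb t y h⟩
      rw [C2.ring t y a h ((k1 a).1 hk), k2]
    · intro p hp
      by_cases h : ∃ t a, R' t (p / 4) ∧ M.Kd t a (p / 4) ∧ (p % 4 = t ∨ p % 4 = ep t a)
      · obtain ⟨t, a, q1, q2, q3⟩ := h
        obtain ⟨l1, l2, -⟩ := hR' t _ q1
        have hr : R t (p / 4) := by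
          by_contra hn
          exact hp ⟨t, a, ⟨q1, hn⟩, ((W.keep t l1 _ l2 ⟨hn, nb t _ q1⟩).2.2.2.1 a).2 q2, q3⟩
        rcases q3 with q3 | q3
        · have e : pt (p / 4) t = p := eq_pt rfl (by omega)
          have e1 := C1.ring t _ a hr q2
          have e2 := C2.ring t _ a q1 q2
          rw [e] at e1 e2
          rw [e1, e2]
        · have e : pt (p / 4) (ep t a) = p := eq_pt rfl (by rw [ep_lt, q3])
          obtain ⟨t1, -, t2⟩ := W.twin t a _ hr q2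
          obtain ⟨u1, u2⟩ := prev h1 K1 t1
          rw [e] at u1 u2
          obtain ⟨v1, v2⟩ := (t2 _).1.1 u2
          have r1 := rs_pa hR hr v1
          have e1 := C1.ring t _ a r1 v2
          have e2 := C2.ring t _ a (hsub _ _ r1) v2
          rw [← e1, ← u1, h1.inv] at e2
          calc M2.lk p = M2.lk (M2.lk (M1.lk p)) := by rw [e2]
            _ = M1.lk p := C2.inv _
      · rw [C2.off p h, C1.off p]
        rintro ⟨t, a, q1, q2, q3⟩
        exact h ⟨t, a, hsub _ _ q1, q2, q3⟩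

end Pool.Agent.MP_1a6d78_lc.PG
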