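import Pool.Agent.MP_1a6d78_lc.PG.FSpec

/-! PROJECT PG: the cells that die with a critical region. -/

namespace Pool.Agent.MP_1a6d78_lc.PG

open Classical ED PR PL Relation Ct

namespace FDead

variable {M : Cm} {x y c d : ℕ}

theorem fw {Q : ℕ → Prop} (h : M.Rg x y) (h0 : Q x) (hs : ∀ d, M.Rg x d → Q d → Q (M.nr d)) :
    Q y :=
  (rg_ind (Q := fun d => M.Rg x d ∧ Q d) h ⟨rg_refl M x, h0⟩
    fun d k => ⟨rg_trans k.1 (rg_nr M d), hs d k.1 k.2⟩).2

theorem bw {Q : ℕ → Prop} (h : M.Rg x y) (h0 : Q y) (hs : ∀ d, M.Rg x d → Q (M.nr d) → Q d) :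
    Q x := by
  obtain ⟨t, e⟩ := h
  suffices k : ∀ d, M.Rg x d → M.nr^[t] d = y → Q d from k x (rg_refl M x) e
  clear e
  induction t with
  | zero => exact fun d _ e => (show d = y from e) ▸ h0
  | succ t ih => exact fun d k e => hs d k (ih _ (rg_trans k (rg_nr M d)) e)

theorem d4 (c : ℕ) : 4 * c / 4 = c := by omega

theorem nr0 (M : Cm) (c : ℕ) : M.nr (4 * c) = M.lk (4 * c + 1) :=
  congrArg M.lk (by unfold r4; omega)

theorem st0 (M : Cm) (c : ℕ) : M.st 0 c = M.lk (4 * c) / 4 := rfl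

theorem st1 (M : Cm) (c : ℕ) : M.st 1 c = M.lk (4 * c + 1) / 4 := rfl

theorem lk_nr (H : M.Ok) (d : ℕ) : M.lk (M.nr d) = r4 d := H.inv _

theorem prev (H : M.Ok) (y : ℕ) : M.Rg y (r3 (M.lk y)) :=
  rg_symm H ⟨1, nr_psi H y⟩

theorem out (H : M.Ok) (h : M.Dd x c) (k : M.Rg (4 * c) (4 * d)) : M.Dd x d := by
  cases h with
  | top e => exact .top (rg_trans e k)
  | step e f =>
    exact .step (e.imp fun u e => rg_trans (rg_symm H k) e) fun u e => f u (rg_trans k e)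

theorem inc (hx : M.Top x) (h : M.Dd x c) (k : M.Rg (4 * c) (4 * d + 2)) : M.Dd x d := by
  cases h with
  | top e =>
    have := crit_mod hx.2 (rg_trans e k)
    omega
  | step e f => exact f d k

theorem typ (H : M.Ok) (h : M.al c) (k : M.Rg (4 * c) y) :
    y = 4 * (y / 4) ∨ y = 4 * (y / 4) + 2 := by
  have := rg_par H k (by rwa [d4])
  omega

theorem reg (H : M.Ok) (hx : M.Top x) (h : M.Dd x c) (k : M.Rg (4 * c) y) : M.Dd x (y / 4) := by
  rcases typ H (dd_al H hx.1 h) k with e | e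
  exacts [out H h (e ▸ k), inc hx h (e ▸ k)]

theorem up0 (H : M.Ok) (hx : M.Top x) (h : M.Dd x c) : M.Dd x (M.st 0 c) := by
  have := reg H hx h (prev H (4 * c))
  rwa [show r3 (M.lk (4 * c)) / 4 = M.st 0 c by rw [st0]; unfold r3; omega] at this

theorem up1 (H : M.Ok) (hx : M.Top x) (h : M.Dd x c) : M.Dd x (M.st 1 c) := by
  have := reg H hx h (rg_nr M (4 * c))
  rwa [nr0] at this

theorem pa {i : ℕ} (hs : ∀ c, M.Dd x c → M.Dd x (M.st i c)) (h : M.Dd x c) (k : M.Pa i c d) :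
    M.Dd x d := by
  obtain ⟨t, rfl⟩ := k
  exact iter_inv hs h t

theorem co (H : M.Ok) (R : RegK M) (hx : M.Top x) (h : M.Dd x c) : M.Pa 0 c x ∧ M.Pa 1 c x := by
  have a := dd_al H hx.1 h
  induction h with
  | @top c k =>
    have := (R.crit_kd c 0 (by omega) a ((R.crit _ _ k).1 hx.2)).2.2 x
    exact ⟨this.1.1 (rg_symm H k), this.2.1 (rg_symm H k)⟩
  | @step c k f ih =>
    obtain ⟨u, k⟩ := k
    have g : ∀ u, M.Rg (4 * c) (4 * u + 2) → M.Pa 0 u x ∧ M.Pa 1 u x :=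
      fun u k => ih u k (dd_al H hx.1 (f u k))
    have e0 : (4 * u + 2) / 4 = u := by omega
    constructor
    · rw [← d4 c]
      refine fw (Q := fun d => M.Pa 0 (d / 4) x) (rg_symm H k) (e0.symm ▸ (g u k).1)
        fun d k1 k2 => ?_
      have k3 := rg_trans (rg_trans k k1) (rg_nr M d)
      rcases typ H a k3 with e | e
      · refine (Cm.Pa.step 0 _).trans ?_
        rwa [st0, ← e, lk_nr H, r4_div]
      · exact (g _ (e ▸ k3)).1
    · rw [← d4 c]
      refine bw (Q := fun d => M.Pa 1 (d / 4) x) k (e0.symm ▸ (g u k).2) fun d k1 k2 => ?_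
      rcases typ H a k1 with e | e
      · refine (Cm.Pa.step 1 _).trans ?_
        rwa [st1, ← nr0, ← e]
      · exact (g _ (e ▸ k1)).2

theorem cy01 (H : M.Ok) (W : WalkK M) (R : RegK M) (hx : M.Top x) (h : M.Dd x c) :
    ¬M.Kd 0 3 c ∧ ¬M.Kd 1 1 c := by
  have a := dd_al H hx.1 h
  have b := (R.crit_kd x 0 (by omega) hx.1 hx.2).2.2 c
  have g := fun k : M.Rg (4 * x) (4 * c) => R.crit_kd c 0 (by omega) a ((R.crit _ _ k).1 hx.2)
  constructor
  · intro k
    have := W.kd_one _ _ _ _ k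
      (g (b.1.2 (W.per_pa _ _ _ (W.kd_per _ _ _ k).1 (co H R hx h).1).2)).1
    omega
  · intro k
    have := W.kd_one _ _ _ _ k
      (g (b.2.2 (W.per_pa _ _ _ (W.kd_per _ _ _ k).1 (co H R hx h).2).2)).2.1
    omega

theorem cy2 (H : M.Ok) (W : WalkK M) (hx : M.Top x) (h : M.Dd x c) : ¬M.Kd 2 1 c := by
  intro k
  induction h with
  | @top c e =>
    have h1 : M.lk (4 * c + 1) % 4 = 2 := ((W.kd_iff _ _ _).1 k).2.1
    have := crit_mod hx.2 (rg_trans e (rg_nr M _))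
    rw [nr0] at this
    omega
  | @step c _ f ih =>
    have := (fw (Q := fun d => d % 4 = 2 ∧ M.Per 2 (d / 4)) (rg_back H (4 * c))
      (by rw [nr0]; exact ((W.kd_iff _ _ _).1 k).2) fun d k1 k2 => by
        have e : d = 4 * (d / 4) + 2 := by omega
        have k3 := (W.kd_ex _ _ k2.2).resolve_right (ih _ (e ▸ rg_trans (rg_nr M _) k1))
        have e1 : r4 d = pt (d / 4) (ep 2 (2 % 4)) := by
          change _ = 4 * (d / 4) + 3
          unfold r4
          omega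
        unfold Cm.nr
        rw [e1]
        exact ((W.kd_iff _ _ _).1 k3).2).1
    omega

theorem cy3 (H : M.Ok) (W : WalkK M) (hx : M.Top x) (h : M.Dd x c) : ¬M.Kd 3 3 c := by
  intro k
  induction h with
  | @top c e =>
    have h1 : M.lk (4 * c) % 4 = 3 := ((W.kd_iff _ _ _).1 k).2.1
    have := crit_mod hx.2 (rg_trans e (prev H _))
    unfold r3 at this
    omega
  | @step c _ f ih =>
    have h1 : M.lk (4 * c) % 4 = 3 ∧ M.Per 3 (M.lk (4 * c) / 4) := ((W.kd_iff _ _ _).1 k).2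
    have := (bw (Q := fun d => d % 4 = 2 ∧ M.Per 3 (d / 4)) (prev H (4 * c))
      ⟨by unfold r3; omega, by
        rw [show r3 (M.lk (4 * c)) / 4 = M.lk (4 * c) / 4 by unfold r3; omega]
        exact h1.2⟩ fun d k1 k2 => by
        have e : M.nr d = 4 * (M.nr d / 4) + 2 := by omega
        have k3 := (W.kd_ex _ _ k2.2).resolve_left (ih _ (e ▸ rg_trans k1 (rg_nr M _)))
        have k4 : M.lk (4 * (M.nr d / 4) + 2) % 4 = 3 ∧
          M.Per 3 (M.lk (4 * (M.nr d / 4) + 2) / 4) := ((W.kd_iff _ _ _).1 k3).2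
        rw [← e, lk_nr H, r4_div] at k4
        exact ⟨by have := k4.1; unfold r4 at this; omega, k4.2⟩).1
    omega

theorem top1 (H : M.Ok) (hx : M.Top x) (t : ℕ) : ∀ c, M.Dd x c → M.wk 1 c t = x →
    ∃ o o', M.Run 1 1 c o' ∧ M.lk (4 * o' + 1) = 4 * o ∧ M.Dd x o ∧ M.Dd x o' ∧
      M.Rg (4 * c + 1) (4 * o' + 1) := by
  have key : ∀ c, M.Dd x c → M.lk (4 * c + 1) % 4 = 0 →
      ∃ o o', M.Run 1 1 c o' ∧ M.lk (4 * o' + 1) = 4 * o ∧ M.Dd x o ∧ M.Dd x o' ∧
        M.Rg (4 * c + 1) (4 * o' + 1) := fun c h e =>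
    ⟨M.st 1 c, c, .refl, by rw [st1]; omega, up1 H hx h, h, rg_refl _ _⟩
  induction t with
  | zero =>
    rintro c h (rfl : c = x)
    have := crit_mod hx.2 (rg_nr M _)
    rw [nr0] at this
    exact key c h (by omega)
  | succ t ih =>
    intro c h e
    have h1 := typ H (dd_al H hx.1 h) (rg_nr M _)
    rw [nr0, ← st1] at h1
    rcases h1 with h1 | h1
    · exact key c h (by omega)
    · obtain ⟨o, o', a1, a2, a3, a4, a5⟩ := ih _ (up1 H hx h) e
      refine ⟨o, o', .head ⟨rfl, ?_⟩ a1, a2, a3, a4, rg_trans (rg_symm H ⟨1, ?_⟩) a5⟩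
      · change sd 1 (M.lk (4 * c + 1)) = 1
        rw [sd, if_pos (by omega)]
      · change M.lk (r4 _) = _
        rw [show r4 (4 * M.st 1 c + 1) = 4 * M.st 1 c + 2 by unfold r4; omega, ← h1, H.inv]

theorem top3 (H : M.Ok) (hx : M.Top x) (t : ℕ) : ∀ c, M.Dd x c → M.wk 0 c t = x →
    ∃ o o', M.Run 0 3 c o ∧ M.lk (4 * o) = 4 * o' + 1 ∧ M.Dd x o ∧ M.Dd x o' ∧
      M.Rg (4 * c + 3) (4 * o' + 1) := by
  have n3 : ∀ c, M.nr (4 * c + 3) = M.lk (4 * c) := fun c => congrArg M.lk (by unfold r4; omega)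
  have key : ∀ c, M.Dd x c → M.lk (4 * c) % 4 = 1 →
      ∃ o o', M.Run 0 3 c o ∧ M.lk (4 * o) = 4 * o' + 1 ∧ M.Dd x o ∧ M.Dd x o' ∧
        M.Rg (4 * c + 3) (4 * o' + 1) := fun c h e =>
    have e' : M.lk (4 * c) = 4 * M.st 0 c + 1 := by rw [st0]; omega
    ⟨c, M.st 0 c, .refl, e', h, up0 H hx h, ⟨1, (n3 c).trans e'⟩⟩
  induction t with
  | zero =>
    rintro c h (rfl : c = x)
    have := crit_mod hx.2 (prev H _)
    unfold r3 at this
    exact key c h (by omega)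
  | succ t ih =>
    intro c h e
    have h1 := H.par (4 * c) (by rw [d4]; exact dd_al H hx.1 h)
    by_cases h2 : M.lk (4 * c) % 4 = 1
    · exact key c h h2
    · obtain ⟨o, o', a1, a2, a3, a4, a5⟩ := ih _ (up0 H hx h) e
      refine ⟨o, o', .head ⟨rfl, ?_⟩ a1, a2, a3, a4, rg_trans ⟨1, (n3 c).trans ?_⟩ a5⟩
      · change sd 0 (M.lk (4 * c)) = 3
        rw [sd, if_neg h2]
      · rw [st0]
        omega

theorem move (h : M.Rg (4 * x) (4 * y)) (k : M.Dd y c) : M.Dd x c := by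
  induction k with
  | top e => exact .top (rg_trans h e)
  | step e _ ih => exact .step e ih

end FDead

open FDead in
theorem fDead : S_Walk → S_Reg → S_Dead := fun hW hR M H x hx =>
  have W := hW M H
  have R := hR M H
  { al := fun _ => dd_al H hx.1
    up := fun _ h => ⟨up0 H hx h, up1 H hx h⟩
    out := fun _ _ => out H
    inc := fun _ _ => inc hx
    co := fun _ => co H R hx
    cyc := fun _ h => ⟨cy2 H W hx h, cy3 H W hx h, (cy01 H W R hx h).1, (cy01 H W R hx h).2,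
      fun ⟨_, _, _, a, b⟩ => (cy01 H W R hx (pa (fun _ => up0 H hx) h a)).1 b,
      fun ⟨_, ⟨_, a, b⟩, _⟩ => (cy01 H W R hx (pa (fun _ => up1 H hx) h a)).2 b⟩
    top1 := fun c h => let ⟨t, e⟩ := (co H R hx h).2; top1 H hx t c h e
    top3 := fun c h => let ⟨t, e⟩ := (co H R hx h).1; top3 H hx t c h e
    same := fun y k => by
      have e : ∀ c, M.Dd y c ↔ M.Dd x c := fun c => ⟨move k, move (rg_symm H k)⟩
      refine ⟨⟨?_, (R.crit _ _ k).1 hx.2⟩, e, fun z => ?_⟩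
      · have := (rg_al H k).2 (by rw [d4]; exact hx.1)
        rwa [d4] at this
      · simp only [Cm.NT, Cm.Hop, e] }

end Pool.Agent.MP_1a6d78_lc.PG
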