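import Pool.Agent.MP_1a6d78_lc.PG.FSpec

/-! PROJECT PG: the border of a kill that does not pay. -/

namespace Pool.Agent.MP_1a6d78_lc.PG

theorem fG0 : S_Walk → S_Dead → S_Tw → S_Mir → S_G0a → S_G0 := by
  intro _ hD hT hM hG M H z x p hx hn hd hl
  have D := hD M H x hx
  have T := hT M H 5 (by omega)
  obtain ⟨m1, m2, m3⟩ := hM M H x hx
  have par := H.par p (D.al _ hd)
  have f2 : fp 5 2 = 3 := by decide
  have s2 : fs 5 2 = 2 := by decide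
  have cap : ∀ v, (M.tw 5).Cap x 2 v → M.Cap x 3 v := fun v h =>
    ⟨f2 ▸ (T.rn 2 v).1 h.1, fun y hy => by
      have := h.2 y ((T.pa 2 v y).2 (f2 ▸ hy))
      rwa [m2, T.kd 2 2 y (by omega), f2, s2] at this⟩
  have e1 : tp 5 (tp 5 p) = p := (Ct.tp_tp (g := 5) (by omega) p).1
  have e2 := Ct.tp_div 5 p
  have e3 := Ct.tp_mod 5 p
  have e4 := T.cell (tp 5 p)
  have e5 := T.port (tp 5 p)
  rw [e1] at e4 e5
  have g1 := hG M H z x p hx hn hd hl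
  have g2 := hG (M.tw 5) T.ok z x (tp 5 p) m1 (fun h => hn ((m3 z).1 h))
    (by rw [m2, e2]; exact hd) (by rw [m2, e4]; exact hl)
  rw [e2, e4] at g2
  have up : ∀ i, p % 4 = i → M.lk p / 4 = M.st i (p / 4) := fun i hi => by
    unfold Cm.st pt
    congr 2
    omega
  unfold fp at e3 e5
  rw [if_neg (by omega)] at e3 e5
  have ar : ∀ a b c d : ℕ, a % 4 = (5 + 4 - b % 4) % 4 → (5 + 4 - c % 4) % 4 = d % 4 →
      (d + b) % 2 = 1 → (b % 4 = 2 → ¬d % 4 = 1 → d % 4 = 3 ∧ a % 4 = 3 ∧ c % 4 = 2) ∧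
        (b % 4 = 3 → ¬d % 4 = 2 → a % 4 = 2 ∧ c % 4 = 1) := fun a b c d u v w =>
    ⟨fun _ _ => by omega, fun _ _ => by omega⟩
  have ar := ar _ _ _ _ e3 e5 par
  obtain h | h | h | h : p % 4 = 0 ∨ p % 4 = 1 ∨ p % 4 = 2 ∨ p % 4 = 3 := by omega
  · exact absurd (up 0 h ▸ (D.up _ hd).1) hl
  · exact absurd (up 1 h ▸ (D.up _ hd).2) hl
  · by_cases k : M.lk p % 4 = 1
    · exact ⟨2, Or.inl rfl, Or.inl ⟨h, g1.2 h k⟩⟩
    · exact ⟨3, Or.inr rfl, Or.inr ⟨(ar.1 h k).1, cap _ (g2.1 (ar.1 h k).2.1 (ar.1 h k).2.2)⟩⟩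
  · by_cases k : M.lk p % 4 = 2
    · exact ⟨2, Or.inl rfl, Or.inr ⟨k, g1.1 h k⟩⟩
    · exact ⟨3, Or.inr rfl, Or.inl ⟨h, cap _ (g2.2 (ar.2 h k).1 (ar.2 h k).2)⟩⟩

end Pool.Agent.MP_1a6d78_lc.PG
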