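import Pool.Agent.MP_1a6d78_lc.PG.FSpec

/-! PROJECT PG, row G1. -/

namespace Pool.Agent.MP_1a6d78_lc.PG

open Cm

namespace FG1

variable {M : Cm} {z x y : ℕ}

/-- The setting. -/
structure St (M : Cm) (z x y : ℕ) : Prop where
  ok : M.Ok
  w : WalkK M
  r : RegK M
  d : DeadK M x
  nt : ¬M.NT z x
  dy : M.Dd x y
  cr : M.Crit (4 * y + 2)
  g0 : ∀ p, M.Dd x (p / 4) → ¬M.Dd x (M.lk p / 4) → ∃ t, (t = 2 ∨ t = 3) ∧
    ((p % 4 = t ∧ M.Cap x t (p / 4)) ∨ (M.lk p % 4 = t ∧ M.Cap x t (M.lk p / 4)))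

theorem co_st (i c y : ℕ) : M.Co i (M.st i c) y ↔ M.Co i c y :=
  ⟨fun k => (Pa.step i c).co.trans k, fun k => (Pa.step i c).co.symm.trans k⟩

theorem kd4 {a b : ℕ} (k : M.Kd 4 a b) : M.Kd 0 a b := k

namespace St

variable (h : St M z x y)

include h

theorem kd {c : ℕ} (k : M.Pa 2 y c) : M.Kd 2 2 c ∧ M.Kd 3 2 c := by
  have a := h.d.al y h.dy
  have k1 := ((h.r.crit_kd y 2 (by norm_num) a h.cr).2.2 c).1.2 k
  have k2 := h.r.crit_kd c 2 (by norm_num) (k.al h.ok a) ((h.r.crit _ _ k1).1 h.cr)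
  exact ⟨k2.1, k2.2.1⟩

theorem nr {c t : ℕ} (k : M.Pa 2 y c) (ht : t = 2 ∨ t = 3) : ¬M.Rng t c := by
  have a := (h.r.crit_kd y 2 (by norm_num) (h.d.al y h.dy) h.cr).2.2
  rcases ht with rfl | rfl
  · rintro ⟨-, -, u, k1, k2⟩
    exact absurd (k2.uniq h.ok (h.kd (k.trans k1)).1) (by norm_num)
  · rintro ⟨-, ⟨u, k1, k2⟩, -⟩
    have k3 := (a u).1.1 ((a u).2.2 (((a c).2.1 ((a c).1.2 k)).trans k1))
    exact absurd (k2.uniq h.ok (h.kd k3).2) (by norm_num)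

theorem dead_pa {c : ℕ} (k : M.Pa 2 c y) : M.Dd x c := by
  obtain ⟨t, e⟩ := k
  induction t generalizing c with
  | zero => exact (show c = y from e) ▸ h.dy
  | succ t ih =>
    have k1 : M.Dd x (M.lk (pt c 2) / 4) := ih e
    have k : M.Pa 2 c y := ⟨_, e⟩
    by_contra k2
    have e1 : M.lk (M.lk (pt c 2)) = pt c 2 := h.ok.inv _
    obtain ⟨s, hs, ⟨k3, k4⟩ | ⟨k3, k4⟩⟩ := h.g0 _ k1 (by rwa [e1, pt_div])
    · have p := h.ok.par _ (h.d.al _ k1)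
      rw [e1] at p
      have p2 := pt_mod c 2
      obtain rfl : s = 3 := by omega
      have e2 : pt (M.lk (pt c 2) / 4) 3 = M.lk (pt c 2) := by
        have : ∀ q, q % 4 = 3 → pt (q / 4) 3 = q := fun q _ => by unfold pt; omega
        exact this _ k3
      have e3 : M.st 3 (M.lk (pt c 2) / 4) = c := by rw [Cm.st, e2, e1, pt_div]
      refine k2 ((k4.2 c ⟨1, e3⟩).2 ⟨_, k4.1.1, e3, ?_⟩)
      rw [Cm.ss, e2, e1, sd, pt_mod]
      rfl
    · rw [e1, pt_mod] at k3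
      rw [e1, pt_div] at k4
      subst k3
      exact h.nr (k4.1.1.pa h.ok k).2 hs k4.1

theorem dead {c : ℕ} (k : M.Co 2 c y) : M.Dd x c :=
  h.dead_pa (k.pa h.ok ((h.kd (Pa.refl 2 y)).1.per h.ok))

theorem sad {e w : ℕ} (he : e = 1 ∨ e = 3) (k : M.Co 2 w y) (k1 : M.Prb (pt w (2 + e + 2)))
    (k2 : M.lk (pt w (2 + e + 2)) % 4 = 2) : False := by
  refine h.nt (Or.inr (Or.inl ⟨w, h.dead k, ?_⟩))
  rcases he with rfl | rfl
  · have := ((h.r.prb_up _ (by rw [k2]; unfold pt; omega)).1 k1).2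
    rw [show r3 (pt w (2 + 1 + 2)) = 4 * w by unfold r3 pt; omega] at this
    exact Or.inl this
  · exact Or.inr (Or.inr ((h.r.prb_dn _ (by rw [k2]; unfold pt; omega)).1 k1).2)

theorem up (hB : S_Bas) {b : ℕ} (k : M.Dd x b) : M.Co 2 (M.st 0 b) y ↔ M.Co 2 b y := by
  by_contra k1
  have a := h.d.al b k
  have e1 := (h.w.back 0 b a).2
  obtain ⟨e, he, k2, k3⟩ : ∃ e, (e = 1 ∨ e = 3) ∧ M.Cfg 2 e (M.st 0 b) b ∧
      ¬M.Kd (2 + 2) (sd (2 + 2) (2 + e + 2)) b := by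
    rcases ss_cases (M := M) 0 b with e2 | e2 <;> rw [e2] at e1
    · exact ⟨3, Or.inr rfl, ⟨h.ok.al_st 0 a, e1⟩, fun k4 => (h.d.cyc b k).2.2.1 (kd4 k4)⟩
    · exact ⟨1, Or.inl rfl, ⟨h.ok.al_st 0 a, e1⟩, fun k4 =>
        (h.d.cyc _ (h.d.up b k).1).2.2.1 ⟨b, (kd4 k4).per h.ok, rfl, e2⟩⟩
  obtain ⟨e', a', b', g, u, he', -, -, ⟨r, -, f1⟩, f2, f3, f4, f5⟩ :=
    hB M h.ok (fun c => M.Co 2 c y) 2 e _ b he (fun c => co_st 2 c y) k2 k3 k1
  by_cases k4 : M.Co 2 u y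
  · exact h.sad he' k4 f5 f2.2
  · refine h.sad he' (by_contra fun k5 => f3 (iff_of_false k5 k4)) f4 ?_
    rw [← f1, h.ok.inv, pt_mod]

theorem co (hB : S_Bas) {c : ℕ} (k : M.Dd x c) : M.Co 2 c y := by
  have key : ∀ t c, M.Dd x c → (M.Co 2 (M.wk 0 c t) y ↔ M.Co 2 c y) := fun t => by
    induction t with
    | zero => exact fun _ _ => Iff.rfl
    | succ t ih => exact fun c k => (ih _ (h.d.up c k).1).trans (h.up hB k)
  obtain ⟨s, e⟩ := (h.d.co c k).1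
  obtain ⟨t, f⟩ := (h.d.co y h.dy).1
  rw [← key s c k, e, ← f, key t y h.dy]
  exact Co.refl 2 y

theorem cap (hB : S_Bas) {t v : ℕ} (ht : t = 2 ∨ t = 3) (k : M.Cap x t v) : False := by
  obtain ⟨⟨p, ⟨a, a1, a2⟩, b, b1, b2⟩, k2⟩ := id k
  rcases ht with rfl | rfl
  · have k3 := (h.co hB ((k2 a a1).2 a2)).symm.pa h.ok (a2.per h.ok)
    exact h.nr k3 (Or.inl rfl) (h.w.rn_pa _ _ _ k.1 a1)
  · have key : ∀ t c, M.Pa 3 v c → M.Dd x (M.wk 3 c t) → M.Dd x c := fun t => by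
      induction t with
      | zero => exact fun _ _ k => k
      | succ t ih =>
        intro c k3 k4
        have k5 := k3.trans (Pa.step 3 c)
        have k6 := ih _ k5 k4
        have k7 := (p.pa h.ok k3).1
        have e : M.ss 3 c = 2 := Kd.uniq h.ok ⟨c, k7, rfl, rfl⟩ ((k2 _ k5).1 k6)
        have e1 := (h.w.back 3 c k7.1).1
        rw [e] at e1
        refine h.dead ?_
        rw [← e1]
        exact (co_st 2 _ y).2 (h.co hB k6)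
    obtain ⟨s, e⟩ := (p.pa h.ok a1).2.trans b1
    have k3 := (k2 a a1).1 (key s a a1 (e ▸ (k2 b b1).2 b2))
    exact absurd (k3.uniq h.ok a2) (by norm_num)

end St

end FG1

theorem fG1 : S_Walk → S_Reg → S_Dead → S_Bas → S_G0 → S_G1 := by
  intro hW hR hD hB hG M ok z x y hx hn hy hc p hp
  have h : FG1.St M z x y :=
    ⟨ok, hW M ok, hR M ok, hD M ok x hx, hn, hy, hc, fun p => hG M ok z x p hx hn⟩
  by_contra k
  obtain ⟨t, ht, ⟨-, k1⟩ | ⟨-, k1⟩⟩ := h.g0 p hp k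
  exacts [h.cap hB ht k1, h.cap hB ht k1]

end Pool.Agent.MP_1a6d78_lc.PG
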