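import Pool.Agent.MP_1a6d78_lc.PG.FSpec

/-! PROJECT PG: the mirror keeps the kill of type 0. -/

namespace Pool.Agent.MP_1a6d78_lc.PG

open PR PL

namespace FMir

open Ct

variable {M : Cm} {x c z : ℕ}

theorem ts0 (c : ℕ) : ts 5 (4 * c) = 4 * c := by unfold ts fs; split_ifs <;> omega

theorem ts1 (c : ℕ) : ts 5 (4 * c + 1) = 4 * c + 3 := by unfold ts fs; split_ifs <;> omega

theorem ts2 (c : ℕ) : ts 5 (4 * c + 2) = 4 * c + 2 := by unfold ts fs; split_ifs <;> omega

theorem ts3 (c : ℕ) : ts 5 (4 * c + 3) = 4 * c + 1 := by unfold ts fs; split_ifs <;> omega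

theorem back (M : Cm) : (M.tw 5).tw 5 = M := tw_tw (g := 5) (by omega) M

theorem top (H : M.Ok) (h : M.Top x) : (M.tw 5).Top x :=
  ⟨by rw [tw_al H (by omega)]; exact h.1, (tw_crit H (by omega)).2 (by rw [ts0]; exact h.2)⟩

theorem dd0 (H : M.Ok) (h : M.Dd x c) : (M.tw 5).Dd x c := by
  induction h with
  | top k => exact .top ((tw_rg H (by omega)).2 (by rwa [ts0, ts0]))
  | step k _ ih =>
    obtain ⟨u, k⟩ := k
    refine .step ⟨u, (tw_rg H (by omega)).2 (by rwa [ts0, ts2])⟩ fun v w => ih v ?_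
    have := (tw_rg H (by omega)).1 w
    rwa [ts0, ts2] at this

theorem dd (H : M.Ok) : (M.tw 5).Dd x c ↔ M.Dd x c :=
  ⟨fun h => by have := dd0 (tw_ok H (by omega)) h; rwa [back] at this, dd0 H⟩

theorem wk_succ (M : Cm) (i c t : ℕ) : M.wk i c (t + 1) = M.st i (M.wk i c t) :=
  Function.iterate_succ_apply' _ _ _

theorem lk5 (p : ℕ) : fp 5 ((M.tw 5).lk p) = M.lk (tp 5 p) % 4 := by
  rw [← tw_lk (by omega), tp_mod]

theorem hop (H : M.Ok) (K : DeadK M x) (h : M.Hop x) : (M.tw 5).Hop x := by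
  classical
  obtain ⟨c, t, h1, h2, h3, h4⟩ := h
  have ex : ∃ t, M.lk (4 * M.wk 3 c t + 3) % 4 = 0 := ⟨t, h4⟩
  have le : Nat.find ex ≤ t := Nat.find_le h4
  have e0 := Nat.find_spec ex
  have mn : ∀ s < Nat.find ex, M.lk (4 * M.wk 3 c s + 3) % 4 ≠ 0 := fun s k => Nat.find_min ex k
  generalize Nat.find ex = n at le e0 mn
  have p3 : ∀ d, pt d 3 = 4 * d + 3 := fun d => rfl
  have p2 : ∀ d, pt d 2 = 4 * d + 2 := fun d => rfl
  have r : ∀ d, r4 (4 * d + 2) = 4 * d + 3 ∧ r4 (4 * d) = 4 * d + 1 := fun d => by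
    unfold r4
    omega
  have lk : ∀ s < n, M.lk (4 * M.wk 3 c s + 3) = 4 * M.wk 3 c (s + 1) + 2 := fun s k => by
    have i1 := mn s k
    have i2 := H.par (4 * M.wk 3 c s + 3) (by
      rw [show (4 * M.wk 3 c s + 3) / 4 = M.wk 3 c s by omega]
      exact K.al _ (h3 s (by omega)))
    rw [wk_succ, Cm.st, p3]
    omega
  have bk : ∀ s ≤ n, M.wk 2 (M.wk 3 c n) s = M.wk 3 c (n - s) := by
    intro s
    induction s with
    | zero => exact fun _ => rfl
    | succ s ih =>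
      intro k
      rw [wk_succ, ih (by omega), show n - s = n - (s + 1) + 1 by omega, Cm.st, p2,
        ← lk _ (by omega), H.inv]
      omega
  have rg : ∀ s ≤ n, M.Rg (4 * M.st 2 c) (4 * M.wk 3 c s + 2) := by
    intro s
    induction s with
    | zero =>
      intro _
      have := rg_nr M (4 * M.st 2 c)
      rwa [Cm.nr, (r _).2, show 4 * M.st 2 c + 1 = M.lk (4 * c + 2) by
        rw [Cm.st, p2]; omega, H.inv] at this
    | succ s ih =>
      intro k
      have := rg_trans (ih (by omega)) (rg_nr M _)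
      rwa [Cm.nr, (r _).1, lk s (by omega)] at this
  have f2 : fp 5 2 = 3 := rfl
  have f3 : fp 5 3 = 2 := rfl
  refine ⟨M.wk 3 c n, n, ?_, ?_, fun s k => ?_, ?_⟩
  · have := lk5 (M := M) (4 * M.wk 3 c n + 2)
    rw [← p2, tp_pt, f2, p3, p2, e0] at this
    unfold fp at this
    split_ifs at this <;> omega
  · rw [dd H, tw_st (by omega), f2]
    intro k
    have := rg_trans (rg n le_rfl) (rg_nr M _)
    rw [Cm.nr, (r _).1, show M.lk (4 * M.wk 3 c n + 3) = 4 * M.st 3 (M.wk 3 c n) by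
      rw [Cm.st, p3]; omega] at this
    exact h2 (K.out _ _ k (rg_symm H this))
  · rw [dd H, tw_wk (by omega), f3, bk s k]
    exact h3 _ (by omega)
  · rw [tw_wk (by omega), f3, bk n le_rfl, Nat.sub_self, show M.wk 3 c 0 = c from rfl]
    have := lk5 (M := M) (4 * c + 3)
    rw [← p3, tp_pt, f3, p2, p3, h1] at this
    unfold fp at this
    split_ifs at this <;> omega

theorem nt (H : M.Ok) (K : DeadK M x) (h : M.NT z x) : (M.tw 5).NT z x := by
  rcases h with h | ⟨c, h, k⟩ | h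
  · exact Or.inl (dd0 H h)
  · refine Or.inr (Or.inl ⟨c, dd0 H h, ?_⟩)
    rw [tw_sad H (by omega), tw_sad H (by omega), tw_sad H (by omega), ts0, ts1, ts3]
    tauto
  · exact Or.inr (Or.inr (hop H K h))

end FMir

theorem fMir (_ : S_Walk) (_ : S_Reg) (hD : S_Dead) (_ : S_Tw) : S_Mir := fun M H x h =>
  ⟨FMir.top H h, fun _ => FMir.dd H, fun _ => ⟨fun k => by
    have H' := Ct.tw_ok H (g := 5) (by omega)
    have := FMir.nt H' (hD _ H' x (FMir.top H h)) k
    rwa [FMir.back] at this, FMir.nt H (hD M H x h)⟩⟩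

end Pool.Agent.MP_1a6d78_lc.PG
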