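import Pool.Agent.MP_1a6d78_lc.PG.FSpec

namespace Pool.Agent.MP_1a6d78_lc.PG

open Classical ED PR PL Relation Cm

namespace FPC

theorem closed {M : Cm} {W : ℕ → Prop} {i : ℕ} (h : ∀ c, W c → W (M.st i c)) {a b : ℕ}
    (p : M.Pa i a b) (ha : W a) : W b := by
  obtain ⟨t, rfl⟩ := p
  induction t with
  | zero => exact ha
  | succ t ih => rw [wk_succ]; exact h _ ih

theorem enter {M : Cm} {W : ℕ → Prop} {i a b : ℕ} (p : M.Pa i a b) (ha : ¬W a) (hb : W b) :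
    ∃ c, M.Pa i a c ∧ ¬W c ∧ W (M.st i c) := by
  obtain ⟨t, rfl⟩ := p
  induction t with
  | zero => exact absurd hb ha
  | succ t ih =>
    by_cases h : W (M.wk i a t)
    · exact ih h
    · exact ⟨_, Pa.wk _ _ _, h, by rwa [wk_succ] at hb⟩

end FPC

theorem fPC : S_Walk → S_Reg → S_Dead → S_CutEx → S_CutW → S_CutR → S_PE → S_Om → S_PC := by
  intro hW hR hD hE hCW hCR hPE hO M H z v ⟨hv, M', W, H', hc, clo, cln, wy, nt⟩
  have w := hW M H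
  have rs := ((hE M H).2 0 (by omega) v hv).1
  have K := hCW M M' _ H H' rs hc
  have C := hCR M M' _ H H' rs hc
  have pv := hv.1
  obtain ⟨y1, py1, ky1⟩ := hv.2.1
  obtain ⟨y2, py2, ky2⟩ := hv.2.2
  obtain ⟨-, px, kx⟩ := w.fe_kd 0 v y1 0 pv py1 ky1
  obtain ⟨-, py, ky⟩ := w.fe_kd 0 v y2 3 pv py2 ky2
  have top : M'.Top (M.FE 0 v 0) :=
    ⟨(K.al _).2 (w.kd_per _ _ _ kx).1.1, (C.cor 0 0 _ ⟨rfl, px⟩ kx).1⟩
  have pe := hPE M' H' z _ top
  have cl : ∀ i a b, M'.Pa i a b → W a → W b := fun i a b p =>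
    FPC.closed (fun c hc' => clo (pt c i) (by rwa [pt_div])) p
  have bk : ∀ y, M.Pa 0 v y → M.Pa 0 y v := fun y p => (w.per_pa 0 v y pv p).2
  have tw : ∀ a y u, M.Pa 0 v y → M.Kd 0 a y → M.Pa 0 v u → M.Kd 0 a u → W y → W u :=
    fun a y u p k p' k' => cl 0 y u (((K.twin 0 a y ⟨rfl, p⟩ k).2.2 u).1.2 ⟨(bk y p).trans p', k'⟩)
  have out : ∀ y, M.Pa 0 v y → M.Kd 0 0 y → ¬W y := fun y p k h =>
    pe.2.2 W clo cln (tw 0 y _ p k px kx h) nt
  have o1 : ∀ t a c, M.One 0 v t c → M.Kd t a c → (1 = t ∨ 1 = ep t a) →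
      M.Pa 0 v c ∧ M.Kd 0 0 c := by
    rintro t a c ⟨rfl, p⟩ k e
    refine ⟨p, ?_⟩
    rcases (w.kd_per _ _ _ k).2 with rfl | rfl
    · exact k
    · exact absurd e (by decide)
  have ch : ∀ c, (M.Pa 0 v c ∧ M.Kd 0 0 c) ∨ M'.lk (pt c 1) = M.lk (pt c 1) := fun c => by
    by_cases h : ∃ t a, M.One 0 v t (pt c 1 / 4) ∧ M.Kd t a (pt c 1 / 4) ∧
        (pt c 1 % 4 = t ∨ pt c 1 % 4 = ep t a)
    · obtain ⟨t, a, r, k, e⟩ := h
      rw [pt_div] at r k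
      rw [pt_mod] at e
      exact Or.inl (o1 t a c r k e)
    · exact Or.inr (hc.off _ h)
  have c1 : ∀ c, W c → W (M.st 1 c) := fun c h => by
    rcases ch c with ⟨p, k⟩ | e
    · exact absurd h (out c p k)
    · have := clo (pt c 1) (by rwa [pt_div])
      rwa [e] at this
  have all : M.All v := by
    rintro p ⟨pb, par, u, pu, yu⟩
    by_cases h : W (p / 4)
    · by_cases r : M.One 0 v (p % 4) (p / 4)
      · exact Or.inl ⟨r.1, (w.per_pa 0 v _ pv r.2).1, (bk _ r.2).co⟩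
      · exact absurd h (cln.2 p ((C.prb p r).2 pb))
    · obtain ⟨c, pc, nc, wc⟩ := FPC.enter pu h (FPC.closed c1 yu wy)
      rcases ch c with ⟨p, k⟩ | e
      · exact Or.inr ⟨c, pc, k, (bk c p).co⟩
      · have := clo (M'.lk (pt c 1)) (by rw [e]; exact wc)
        rw [hc.inv, pt_div] at this
        exact absurd this nc
  have ring := (w.ring v).2 hv
  have nx : ∀ u, M.Pa 1 (M.FE 0 v 3) u → ¬M.Rc v 0 u := fun u p r =>
    out u (w.per_pa 0 u v (w.kd_per _ _ _ r.1).1 ((w.co_per _ _ _ pv).1 r.2)).2 r.1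
      (FPC.closed c1 p wy)
  obtain ⟨om1, om2, -, -⟩ := hO M H v ring all nx
  have dk := hD M' H' _ top
  have d0 : ∀ c, M'.Dd (M.FE 0 v 0) c → M.Co 0 c v := fun c h => by
    rcases K.walk 0 c _ (dk.co c h).1 with p | ⟨u, t, a, p, -, r, -⟩
    · exact (p.trans (bk _ px)).co
    · exact (p.trans (bk _ r.2)).co
  have d1 : ∀ c, M'.Dd (M.FE 0 v 0) c → M.Co 1 c (M.FE 0 v 3) := fun c h => by
    rcases K.walk 1 c _ (dk.co c h).2 with p | ⟨u, t, a, p, -, r, k, e⟩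
    · exact p.co.trans (om2 _ ⟨kx, (bk _ px).co⟩)
    · obtain ⟨q, k'⟩ := o1 t a u r k e
      exact p.co.trans (om2 _ ⟨k', (bk _ q).co⟩)
  refine ⟨ring, ?_, all, nx⟩
  rcases pe.1 nt with h | h
  · exact Or.inr (d0 z h)
  obtain ⟨p, pb, dd, par⟩ := h 0
  left
  by_cases r : M.One 0 v (p % 4) (p / 4)
  swap
  · exact ⟨p, ⟨(C.prb p r).1 pb, par, d1 _ dd⟩, d0 _ dd⟩
  have pd := (w.per_pa 0 v _ pv r.2).1
  have kd : M.Kd 0 0 (p / 4) := by
    rcases w.kd_ex 0 _ pd with k | k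
    · exact k
    · exact absurd (tw 3 _ _ py ky r.2 k wy) (cln.2 p pb)
  obtain ⟨-, p2, k2⟩ := w.fe_kd 0 _ _ 0 pd (Pa.refl _ _) kd
  have e := hc.ring 0 _ 0 ⟨rfl, r.2⟩ kd
  have e0 : pt (p / 4) 0 = p := by
    have := r.1
    unfold pt
    omega
  rw [e0] at e
  set d := M.FE 0 (p / 4) 0 with hd
  have b1 : M.Prb (pt d (ep 0 0)) := by
    refine (C.prb _ fun h => ?_).1 (by rw [← e]; exact ((hR M' H').prb_lk p).2 pb)
    have := h.1
    rw [pt_mod] at this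
    revert this
    decide
  obtain ⟨-, m0, pe'⟩ := (w.kd_iff 0 0 d).1 k2
  have e1 : pt (M.lk (pt d (ep 0 0)) / 4) 0 = M.lk (pt d (ep 0 0)) := by
    unfold pt at m0 ⊢
    omega
  have s1 : M.st 0 (M.lk (pt d (ep 0 0)) / 4) = d := by
    unfold Cm.st
    rw [e1, H.inv, pt_div]
  have co : M.Co 0 (M.lk (pt d (ep 0 0)) / 4) v := by
    have := Pa.step (M := M) 0 (M.lk (pt d (ep 0 0)) / 4)
    rw [s1] at this
    exact (this.trans (bk _ (r.2.trans p2))).co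
  refine ⟨_, ⟨((hR M H).prb_lk _).2 b1, by omega, ?_⟩, co⟩
  rcases w.kd_ex 0 _ pe' with k | k
  · exact om2 _ ⟨k, co⟩
  · exact (om1 _ _ (Pa.refl _ _) ⟨k, co⟩).1

end Pool.Agent.MP_1a6d78_lc.PG
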