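import Pool.Agent.MP_1a6d78_lc.PG.FSpec

/-! PROJECT PG, row PE: probes and kills that pay. -/

namespace Pool.Agent.MP_1a6d78_lc.PG

open Classical ED PR PL Relation

namespace FPE

variable {M : Cm} {x : ℕ}

/-- Both ends of a saddle link give both parities. -/
theorem both (ok : M.Ok) (R : RegK M) {p : ℕ} (hp : M.Prb p) (h1 : M.Dd x (p / 4))
    (h2 : M.Dd x (M.lk p / 4)) (q : ℕ) : ∃ p, M.Prb p ∧ M.Dd x (p / 4) ∧ p % 2 = q % 2 := by
  have := ok.par p hp.1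
  by_cases e : p % 2 = q % 2
  · exact ⟨p, hp, h1, e⟩
  · exact ⟨M.lk p, (R.prb_lk p).2 hp, h2, by omega⟩

theorem nr2 (c : ℕ) : M.nr (4 * c + 2) = M.lk (4 * c + 3) := by
  unfold Cm.nr r4
  congr 1
  omega

theorem nr0 (c : ℕ) : M.nr (4 * c) = M.lk (4 * c + 1) := by
  unfold Cm.nr r4
  congr 1
  omega

theorem st_eq (i c : ℕ) (hi : i < 4) : M.st i c = M.lk (4 * c + i) / 4 := by
  unfold Cm.st pt
  rw [Nat.mod_eq_of_lt hi]

theorem hop (ok : M.Ok) (R : RegK M) (D : DeadK M x) (h : M.Hop x) (q : ℕ) :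
    ∃ p, M.Prb p ∧ M.Dd x (p / 4) ∧ p % 2 = q % 2 := by
  obtain ⟨c, t0, h1, h2, h3, h4⟩ := h
  have hex : ∃ t, M.lk (4 * M.wk 3 c t + 3) % 4 = 0 := ⟨t0, h4⟩
  obtain ⟨t, ht, hmin⟩ : ∃ t, M.lk (4 * M.wk 3 c t + 3) % 4 = 0 ∧
      ∀ s < t, M.lk (4 * M.wk 3 c s + 3) % 4 ≠ 0 :=
    ⟨Nat.find hex, Nat.find_spec hex, fun s hs => Nat.find_min hex hs⟩
  have hle : t ≤ t0 := not_lt.1 fun a => hmin t0 a h4
  have hd : ∀ s ≤ t, M.Dd x (M.wk 3 c s) := fun s hs => h3 s (hs.trans hle)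
  have hw : ∀ s ≤ t, M.nr^[s] (4 * c + 2) = 4 * M.wk 3 c s + 2 := by
    intro s hs
    induction s with
    | zero => rfl
    | succ s ih =>
      have a := hmin s hs
      have b := ok.par (4 * M.wk 3 c s + 3) (by
        rw [show (4 * M.wk 3 c s + 3) / 4 = M.wk 3 c s by omega]
        exact D.al _ (hd s (by omega)))
      have e : M.wk 3 c (s + 1) = M.lk (4 * M.wk 3 c s + 3) / 4 := by
        rw [← st_eq 3 _ (by omega)]
        exact Function.iterate_succ_apply' _ _ _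
      rw [Function.iterate_succ_apply', ih (by omega), nr2, e]
      omega
  have hc : M.Dd x c := hd 0 (Nat.zero_le _)
  have hrg : M.Rg (4 * c + 2) (4 * M.wk 3 c t + 2) := ⟨t, hw t le_rfl⟩
  have halt : M.Alt (4 * M.wk 3 c t + 2) := by
    unfold Cm.Alt
    rw [nr2]
    omega
  have hf : M.nr (4 * M.st 2 c) = 4 * c + 2 := by
    rw [nr0, st_eq 2 c (by omega), show 4 * (M.lk (4 * c + 2) / 4) + 1 = M.lk (4 * c + 2) by omega,
      ok.inv]
  have hinj : Function.Injective M.nr := R.inj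
  have hs : M.Sad (4 * c + 2) := by
    by_contra hs
    refine h2 (.step ⟨c, 1, hf⟩ fun u ⟨j, hj⟩ => ?_)
    have hcu : M.Rg (4 * c + 2) (4 * u + 2) := by
      obtain ⟨i, hi⟩ := R.symm _ _ ⟨1, hf⟩
      exact ⟨j + i, by rw [Function.iterate_add_apply, hi, hj]⟩
    have hex' : ∃ k, M.Alt (M.nr^[k] (4 * u + 2)) := by
      obtain ⟨i, hi⟩ := R.symm _ _ hcu
      exact ⟨t + i, by rwa [Function.iterate_add_apply, hi, hw t le_rfl]⟩
    obtain ⟨k, hk, hkm⟩ : ∃ k, M.Alt (M.nr^[k] (4 * u + 2)) ∧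
        ∀ s < k, ¬M.Alt (M.nr^[s] (4 * u + 2)) :=
      ⟨Nat.find hex', Nat.find_spec hex', fun s hs => Nat.find_min hex' hs⟩
    have hty : ∀ s ≤ k, M.nr^[s] (4 * u + 2) % 4 = 2 := by
      intro s hs
      induction s with
      | zero => show (4 * u + 2) % 4 = 2; omega
      | succ s ih =>
        rw [Function.iterate_succ_apply', not_not.1 (hkm s hs), ih (by omega)]
    have he : M.nr^[k] (4 * u + 2) = M.nr^[t] (4 * c + 2) := by
      by_contra hne
      obtain ⟨i, hi⟩ := hcu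
      refine hs ⟨_, _, ⟨k + i, by rw [Function.iterate_add_apply, hi]⟩, ⟨t, rfl⟩, hne, hk,
        by rwa [hw t le_rfl], ?_⟩
      rw [hty k le_rfl, hw t le_rfl]
      omega
    rcases le_or_gt k t with a | a
    · obtain ⟨d, rfl⟩ := Nat.exists_eq_add_of_le a
      rw [Function.iterate_add_apply] at he
      have := (hinj.iterate k he).trans (hw d (by omega))
      rw [show u = M.wk 3 c d by omega]
      exact hd d (by omega)
    · obtain ⟨d, rfl⟩ := Nat.exists_eq_add_of_lt a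
      rw [Nat.add_assoc, Function.iterate_add_apply] at he
      have := hinj.iterate t he
      rw [Function.iterate_succ_apply', ← hf] at this
      have h5 := hty d (by omega)
      rw [hinj this] at h5
      omega
  by_cases e : q % 2 = 0
  · have e1 : (4 * c + 2) / 4 = c := by omega
    exact ⟨4 * c + 2, (R.prb_dn _ (by omega)).2 ⟨e1.symm ▸ D.al _ hc, hs⟩, e1.symm ▸ hc, by omega⟩
  · have e1 : (4 * M.wk 3 c t + 3) / 4 = M.wk 3 c t := by omega
    have e2 : r3 (4 * M.wk 3 c t + 3) = 4 * M.wk 3 c t + 2 := by unfold r3; omega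
    exact ⟨4 * M.wk 3 c t + 3, (R.prb_up _ (by omega)).2 ⟨e1.symm ▸ D.al _ (hd t le_rfl),
      e2.symm ▸ (R.sad _ _ hrg).1 hs⟩, e1.symm ▸ hd t le_rfl, by omega⟩

theorem top (ok : M.Ok) (R : RegK M) (D : DeadK M x) {o o' : ℕ} (h : M.lk (4 * o' + 1) = 4 * o)
    (h1 : M.Dd x o) (h2 : M.Dd x o') (hs : M.Sad (4 * o' + 1)) (q : ℕ) :
    ∃ p, M.Prb p ∧ M.Dd x (p / 4) ∧ p % 2 = q % 2 := by
  have e1 : (4 * o' + 1) / 4 = o' := by omega
  have e2 : M.lk (4 * o' + 1) / 4 = o := by omega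
  exact both ok R ((R.prb_dn _ (by omega)).2 ⟨e1.symm ▸ D.al _ h2, hs⟩) (e1.symm ▸ h2)
    (e2.symm ▸ h1) q

theorem one (ok : M.Ok) (R : RegK M) (D : DeadK M x) {z : ℕ} (h : M.NT z x) :
    M.Dd x z ∨ ∀ q, ∃ p, M.Prb p ∧ M.Dd x (p / 4) ∧ p % 2 = q % 2 := by
  rcases h with h | ⟨c, hc, h | h | h⟩ | h
  · exact Or.inl h
  · have e0 : 4 * c / 4 = c := by omega
    obtain ⟨y, -, ⟨j, hj⟩, -, -, ha, -, hy, -⟩ :=
      R.sad2 (4 * c) (e0.symm ▸ D.al _ hc) h 2 (by omega)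
    obtain ⟨u, rfl⟩ : ∃ u, y = 4 * u + 2 := ⟨y / 4, by omega⟩
    have hu := D.inc c u hc ⟨j, hj⟩
    have e1 : (4 * u + 3) / 4 = u := by omega
    have e2 : r3 (4 * u + 3) = 4 * u + 2 := by unfold r3; omega
    have b := ok.par (4 * u + 3) (e1.symm ▸ D.al _ hu)
    unfold Cm.Alt at ha
    rw [nr2] at ha
    refine Or.inr (both ok R ((R.prb_up (4 * u + 3) (by omega)).2 ⟨e1.symm ▸ D.al _ hu,
      e2.symm ▸ (R.sad _ _ ⟨j, hj⟩).1 h⟩) (e1.symm ▸ hu) (D.out c _ hc ⟨j + 1, ?_⟩))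
    rw [Function.iterate_succ_apply', hj, nr2]
    omega
  · obtain ⟨o, o', -, a, b, d, e⟩ := D.top1 c hc
    exact Or.inr (top ok R D a b d ((R.sad _ _ e).1 h))
  · obtain ⟨o, o', -, a, b, d, e⟩ := D.top3 c hc
    exact Or.inr (top ok R D (by rw [← a, ok.inv]) b d ((R.sad _ _ e).1 h))
  · exact Or.inr (hop ok R D h)

theorem up (R : RegK M) {z p : ℕ} (hp : M.Prb p) (h : M.lk p % 4 = (p + 1) % 4)
    (h1 : M.Dd x (p / 4)) (h2 : M.Dd x (M.lk p / 4)) : M.NT z x := by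
  have a := ((R.prb_up p h).1 hp).2
  have b := (R.sad _ _ (R.fw p)).1 a
  refine Or.inr (Or.inl ?_)
  by_cases e : M.lk p % 4 = 2
  · exact ⟨_, h1, Or.inl (by rwa [show 4 * (p / 4) = r3 p by unfold r3; omega])⟩
  refine ⟨_, h2, ?_⟩
  rcases (by omega : M.lk p % 4 = 0 ∨ M.lk p % 4 = 1 ∨ M.lk p % 4 = 3) with e | e | e
  · exact Or.inl (by rwa [show 4 * (M.lk p / 4) = M.lk p by omega])
  · exact Or.inr (Or.inl (by rwa [show 4 * (M.lk p / 4) + 1 = M.lk p by omega]))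
  · exact Or.inr (Or.inr (by rwa [show 4 * (M.lk p / 4) + 3 = M.lk p by omega]))

end FPE

open FPE in
theorem fPE : S_Walk → S_Reg → S_Dead → S_PE := by
  intro _ hR hD M ok z x hx
  have R := hR M ok
  have D := hD M ok x hx
  refine ⟨one ok R D, fun h hc => ⟨fun a => h (Or.inl a), fun p hp a => h ?_⟩,
    fun W hW hz hx' h => ?_⟩
  · have := ok.par p hp.1
    by_cases e : M.lk p % 4 = (p + 1) % 4
    · exact up R hp e a (hc p a)
    · exact up R ((R.prb_lk p).2 hp) (by rw [ok.inv]; omega) (hc p a) (by rwa [ok.inv])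
  · have key : ∀ t c, W (M.wk 0 c t) → W c := by
      intro t
      induction t with
      | zero => exact fun c a => a
      | succ t ih =>
        intro c a
        have := hW _ (show W (M.lk (4 * c) / 4) from ih (M.st 0 c) a)
        rwa [ok.inv, show 4 * c / 4 = c by omega] at this
    have sub : ∀ c, M.Dd x c → W c := fun c hc => by
      obtain ⟨t, ht⟩ := (D.co c hc).1
      exact key t c (ht.symm ▸ hx')
    rcases one ok R D h with a | a
    · exact hz.1 (sub z a)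
    · obtain ⟨p, hp, a, -⟩ := a 0
      exact hz.2 p hp (sub _ a)

end Pool.Agent.MP_1a6d78_lc.PG
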