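import Pool.Agent.MP_1a6d78_lc.PG.FSpec

/-! PROJECT PG, row PINJ: two paying rings with the same inner cycle coincide. -/

namespace Pool.Agent.MP_1a6d78_lc.PG

open Classical

namespace FPInj

variable {M M' : Cm} {W : ℕ → Prop} {z v : ℕ}

theorem clo_iff (ok : M'.Ok) (c : M'.Clo W) (p : ℕ) : W (p / 4) ↔ W (M'.lk p / 4) := by
  refine ⟨c p, fun h => ?_⟩
  have := c (M'.lk p) h
  rwa [ok.inv] at this

theorem off_step (ok : M'.Ok) (cut : M.Cutx M' (M.One 0 v)) (c : M'.Clo W) (i : ℕ) {x : ℕ}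
    (h : ¬M.Pa 0 v x) : W x ↔ W (M.st i x) := by
  have e : M'.lk (pt x i) = M.lk (pt x i) := by
    refine cut.off _ ?_
    rintro ⟨t, a, hp, -⟩
    have hq := hp.2
    rw [pt_div] at hq
    exact h hq
  have := clo_iff ok c (pt x i)
  rw [pt_div, e] at this
  exact this

theorem off_walk (ok : M'.Ok) (cut : M.Cutx M' (M.One 0 v)) (c : M'.Clo W) {x y : ℕ}
    (p : M.Pa 0 x y) (h : ¬M.Pa 0 v y) : W x ↔ W y := by
  obtain ⟨t, e⟩ := p
  induction t generalizing x with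
  | zero => rw [← e]; rfl
  | succ t ih =>
    have hx : ¬M.Pa 0 v x := fun k => h (Cm.Pa.trans k ⟨t + 1, e⟩)
    exact (off_step ok cut c 0 hx).trans (ih e)

theorem pa_clo (c : M'.Clo W) {i a b : ℕ} (h : M'.Pa i a b) (w : W a) : W b := by
  obtain ⟨t, rfl⟩ := h
  induction t with
  | zero => exact w
  | succ t ih =>
    rw [Cm.wk_succ]
    exact c (pt (M'.wk i a t) i) (by rwa [pt_div])

/-- The data of a paying ring. -/
structure Dat (M M' : Cm) (W : ℕ → Prop) (z v : ℕ) : Prop where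
  rng : M.Rng 0 v
  ok : M'.Ok
  cut : M.Cutx M' (M.One 0 v)
  clo : M'.Clo W
  cln : M'.Cln z W
  inn : W (M.FE 0 v 3)
  nt : M'.NT z (M.FE 0 v 0)

theorem outer (hW : S_Walk) (hX : S_CutEx) (hC : S_CutW) (hR : S_CutR) (hP : S_PE) (ok : M.Ok)
    (D : Dat M M' W z v) {y : ℕ} (p : M.Pa 0 v y) (k : M.Kd 0 0 y) : ¬W y := by
  intro w
  have K := hW M ok
  have rs := ((hX M ok).2 0 (by omega) v D.rng).1
  have C := hC M M' _ ok D.ok rs D.cut
  have R := hR M M' _ ok D.ok rs D.cut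
  obtain ⟨-, px, kx⟩ := K.fe_kd 0 v y 0 D.rng.1 p k
  have al : M'.al (M.FE 0 v 0) := (C.al _).2 (K.kd_per _ _ _ kx).1.1
  have cr : M'.Crit (4 * M.FE 0 v 0 + 0) := (R.cor 0 0 _ ⟨rfl, px⟩ kx).1
  have top : M'.Top (M.FE 0 v 0) := ⟨al, cr⟩
  have pyx : M.Pa 0 y (M.FE 0 v 0) := Cm.Pa.trans (K.per_pa 0 v y D.rng.1 p).2 px
  have q : M'.Pa 0 y (M.FE 0 v 0) := (((C.twin 0 0 y ⟨rfl, p⟩ k).2.2 _).1).2 ⟨pyx, kx⟩
  exact (hP M' D.ok z _ top).2.2 W D.clo D.cln (pa_clo D.clo q w) D.nt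

theorem one_step (hW : S_Walk) (hX : S_CutEx) (hC : S_CutW) (hR : S_CutR) (hP : S_PE) (ok : M.Ok)
    (D : Dat M M' W z v) {x : ℕ} (w : W x) : W (M.st 1 x) := by
  have e : M'.lk (pt x 1) = M.lk (pt x 1) := by
    refine D.cut.off _ ?_
    rintro ⟨t, a, hp, hk, hq⟩
    obtain ⟨rfl, hp⟩ := hp
    rw [pt_div] at hp hk
    rw [pt_mod] at hq
    have ha := ((hW M ok).kd_per _ _ _ hk).2
    have a0 : a = 0 := by
      unfold ep at hq
      rcases ha with ha | ha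
      · omega
      · subst ha
        simp at hq
    subst a0
    exact outer hW hX hC hR hP ok D hp hk w
  have := D.clo (pt x 1) (by rwa [pt_div])
  rw [e] at this
  exact this

theorem one_walk (hW : S_Walk) (hX : S_CutEx) (hC : S_CutW) (hR : S_CutR) (hP : S_PE) (ok : M.Ok)
    (D : Dat M M' W z v) (t : ℕ) : W (M.wk 1 (M.FE 0 v 3) t) := by
  induction t with
  | zero => exact D.inn
  | succ t ih =>
    rw [Cm.wk_succ]
    exact one_step hW hX hC hR hP ok D ih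

theorem outside (hW : S_Walk) (hX : S_CutEx) (hR : S_CutR) (hQ : S_PC) (ok : M.Ok)
    (D : Dat M M' W z v) {v' : ℕ} (P : M.Pend z v') (n : ¬M.Pa 0 v v') : ¬W v' := by
  intro w
  have K := hW M ok
  have rs := ((hX M ok).2 0 (by omega) v D.rng).1
  have R := hR M M' _ ok D.ok rs D.cut
  rcases (hQ M ok z v' P).cand with ⟨p, eg, co⟩ | co
  · have pa := (K.co_per 0 _ _ P.1.1).1 co
    have nr : ¬M.One 0 v (p % 4) (p / 4) := fun k => n (Cm.Pa.trans k.2 pa)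
    exact D.cln.2 p ((R.prb p nr).2 eg.1) ((off_walk D.ok D.cut D.clo pa n).2 w)
  · have pa := (K.co_per 0 _ _ P.1.1).1 co
    exact D.cln.1 ((off_walk D.ok D.cut D.clo pa n).2 w)

end FPInj

open FPInj in
theorem fPInj (hW : S_Walk) (_hG : S_Reg) (_hD : S_Dead) (hX : S_CutEx) (hC : S_CutW)
    (hR : S_CutR) (hP : S_PE) (hQ : S_PC) : S_PInj := by
  intro M ok z v v' P P' co
  by_contra n
  obtain ⟨r1, M1, W, o1, c1, l1, n1, i1, t1⟩ := id P
  obtain ⟨r2, M2, W', o2, c2, l2, n2, i2, t2⟩ := id P'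
  have D : Dat M M1 W z v := ⟨r1, o1, c1, l1, n1, i1, t1⟩
  have D' : Dat M M2 W' z v' := ⟨r2, o2, c2, l2, n2, i2, t2⟩
  have K := hW M ok
  have dis : ∀ y, M.Pa 0 v y → ¬M.Pa 0 v' y := fun y a b => n ⟨y, a, b⟩
  have a1 : ¬W v' := outside hW hX hR hQ ok D P' fun k => dis _ k (Cm.Pa.refl _ _)
  have a2 : ¬W' v := outside hW hX hR hQ ok D' P fun k => dis _ (Cm.Pa.refl _ _) k
  obtain ⟨y, py, ky⟩ := r1.2.2
  have p0 : M.Pa 0 v (M.FE 0 v 3) := (K.fe_kd 0 v y 3 r1.1 py ky).2.1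
  have key : ∀ t, ¬W' (M.wk 1 (M.FE 0 v 3) t) := by
    intro t
    induction t with
    | zero => exact fun w => a2 ((off_walk o2 c2 l2 p0 (dis _ p0)).2 w)
    | succ t ih =>
      rw [Cm.wk_succ]
      intro w
      by_cases hx : M.Pa 0 v' (M.wk 1 (M.FE 0 v 3) t)
      · exact a1 ((off_walk o1 c1 l1 hx fun k => dis _ k hx).2 (one_walk hW hX hC hR hP ok D t))
      · exact ih ((off_step o2 c2 l2 1 hx).2 w)
  obtain ⟨u, ⟨s, e1⟩, ⟨t, e2⟩⟩ := co
  have := one_walk hW hX hC hR hP ok D' t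
  rw [e2, ← e1] at this
  exact key s this

end Pool.Agent.MP_1a6d78_lc.PG
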