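import Pool.Agent.MP_1a6d78_lc.PG.FSpec

/-! PROJECT PG, row PT: a ring that pays after the cut of a clean ring pays before. -/

namespace Pool.Agent.MP_1a6d78_lc.PG

open Classical ED PR PL Relation

namespace FPT

variable {M M' : Cm} {R : ℕ → ℕ → Prop} {W : ℕ → Prop} {z t : ℕ}

theorem clo_pa (h : M.Clo W) {i a b : ℕ} (p : M.Pa i a b) (ha : W a) : W b := by
  obtain ⟨s, rfl⟩ := p
  induction s with
  | zero => exact ha
  | succ s ih => rw [Cm.wk_succ]; exact h (pt _ i) (by rw [pt_div]; exact ih)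

theorem rs_pa (h : M.Rs R) {t a b : ℕ} (p : M.Pa t a b) (ha : R t a) : R t b := by
  obtain ⟨s, rfl⟩ := p
  induction s with
  | zero => exact ha
  | succ s ih => rw [Cm.wk_succ]; exact (h t _ ih).2.2

theorem clo_not (hM : M.Ok) (h : M.Clo W) : M.Clo fun c => ¬W c := fun p hp hq =>
  hp (by have := h _ hq; rwa [hM.inv] at this)

theorem st_eq {p i : ℕ} (h : p % 4 = i % 4) : M.st i (p / 4) = M.lk p / 4 := by
  have : pt (p / 4) i = p := by unfold pt; omega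
  unfold Cm.st; rw [this]

theorem pa_lk {p i : ℕ} (h : p % 4 = i) : M.Pa i (p / 4) (M.lk p / 4) := by
  rw [← st_eq (i := i) (by omega)]; exact Cm.Pa.step _ _

/-- Closed clean sets stay so after a cut of rings of one type. -/
theorem down (hR : S_Reg) (hM' : M'.Ok) (hC : M.Cutx M' R) (cw : CutWK M M' R)
    (cr : CutRK M M' R) (one : ∀ t' y, R t' y → t' = t) (h1 : M.Clo W) (h2 : M.Cln z W) :
    M'.Clo W ∧ M'.Cln z W := by
  have c : M'.Clo W := by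
    intro p hp
    by_cases hc : ∃ t a, R t (p / 4) ∧ M.Kd t a (p / 4) ∧ (p % 4 = t ∨ p % 4 = ep t a)
    · obtain ⟨t', a, k1, k2, k3⟩ := hc
      have tw := (cw.twin t' a _ k1 k2).2.2 (M'.lk p / 4)
      rcases k3 with k3 | k3
      · exact clo_pa h1 (tw.1.1 (pa_lk k3)).1 hp
      · exact clo_pa h1 (tw.2.1 (pa_lk k3)).1 hp
    · rw [hC.off p hc]; exact h1 p hp
  refine ⟨c, h2.1, fun p hp hw => ?_⟩
  by_cases k : R (p % 4) (p / 4)
  · have par := hM'.par p hp.1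
    have e := one _ _ k
    refine h2.2 (M'.lk p) ((cr.prb _ fun k' => ?_).1 (((hR M' hM').prb_lk p).2 hp)) (c p hw)
    have := one _ _ k'
    omega
  · exact h2.2 p ((cr.prb p k).1 hp) hw

/-- A closed clean set after the cut that has all ring cells or none is closed and clean before. -/
theorem up (hW : S_Walk) (hR : S_Reg) (hM : M.Ok) (hS : M.Rs R) (hC : M.Cutx M' R)
    (cr : CutRK M M' R) (one : ∀ t' y, R t' y → t' = t)
    (all : ∀ y u, R t y → R t u → W y → W u) (h1 : M'.Clo W) (h2 : M'.Cln z W) :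
    M.Clo W ∧ M.Cln z W := by
  have c : M.Clo W := by
    intro p hp
    by_cases hc : ∃ t a, R t (p / 4) ∧ M.Kd t a (p / 4) ∧ (p % 4 = t ∨ p % 4 = ep t a)
    · obtain ⟨t', a, k1, k2, k3⟩ := hc
      obtain rfl := one _ _ k1
      refine all _ _ k1 (rs_pa hS ?_ k1) hp
      rcases k3 with k3 | k3
      · exact pa_lk k3
      · obtain ⟨-, e1, e2⟩ := ((hW M hM).kd_iff _ _ _).1 k2
        have e : pt (p / 4) (ep t' a) = p := by unfold pt; omega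
        rw [e] at e1 e2
        have e3 : M.st t' (M.lk p / 4) = p / 4 := by rw [st_eq e1, hM.inv]
        exact ((hW M hM).per_pa _ _ _ e2 (e3 ▸ Cm.Pa.step _ _)).2
    · rw [← hC.off p hc]; exact h1 p hp
  refine ⟨c, h2.1, fun p hp hw => ?_⟩
  by_cases k : R (p % 4) (p / 4)
  · have par := hM.par p hp.1
    have e := one _ _ k
    refine h2.2 (M.lk p) ((cr.prb _ fun k' => ?_).2 (((hR M hM).prb_lk p).2 hp)) (c p hw)
    have := one _ _ k'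
    omega
  · exact h2.2 p ((cr.prb p k).2 hp) hw

end FPT

open FPT in
theorem fPT (hW : S_Walk) (hR : S_Reg) (hX : S_CutEx) (hCW : S_CutW) (hCR : S_CutR) (hCS : S_CS)
    (hCmp : S_Cmp) (hPE : S_PE) : S_PT := by
  intro M M1 D z t v v' hM hM1 ht hv hC1 hD1 hD2 ⟨y0, hy0, dy0⟩ ⟨hv1, M12, W, h12, hC12, hW1, hW2,
    hW3, hNT⟩
  have K := hW M hM
  have rs : M.Rs (M.One t v) := ((hX M hM).2 t ht v hv).1
  have cw1 := hCW M M1 _ hM hM1 rs hC1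
  obtain ⟨hv', nR⟩ := cw1.lift 0 (by norm_num) v' hv1
  obtain ⟨-, -, kpa, -, kfe⟩ := cw1.keep 0 (by norm_num) v' hv' nR
  have rs1 : M1.Rs (M1.One 0 v') := ((hX M1 hM1).2 0 (by norm_num) v' hv1).1
  have eO : M1.One 0 v' = M.One 0 v' := by
    funext t' y; unfold Cm.One; rw [kpa]
  rw [kfe] at hW3 hNT
  obtain ⟨hD1', hD2'⟩ := down hR h12 hC12 (hCW _ _ _ hM1 h12 rs1 hC12) (hCR _ _ _ hM1 h12 rs1 hC12)
    (fun _ _ k => k.1) hD1 hD2
  rw [eO] at rs1 hC12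
  obtain ⟨rs', M2, h2, hC2⟩ := (hX M hM).2 0 (by norm_num) v' hv'
  obtain ⟨-, dis, hCu⟩ := (hCmp M M1 M12 _ (M.One 0 v') hM hM1 h12 rs hC1).1 rs1 hC12
  have rsu : M.Rs fun t' y => M.One t v t' y ∨ M.One 0 v' t' y := fun t' y k =>
    k.elim (fun k => ⟨(rs _ _ k).1, (rs _ _ k).2.1, Or.inl (rs _ _ k).2.2⟩)
      fun k => ⟨(rs' _ _ k).1, (rs' _ _ k).2.1, Or.inr (rs' _ _ k).2.2⟩
  obtain ⟨rs2, hC3⟩ := (hCmp M M2 M12 _ _ hM h2 h12 rs' hC2).2 rsu (fun _ _ k => Or.inr k) hCu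
  have eR : (fun t' y => (M.One t v t' y ∨ M.One 0 v' t' y) ∧ ¬M.One 0 v' t' y) = M.One t v := by
    funext t' y
    exact propext ⟨fun k => k.1.resolve_right k.2, fun k => ⟨Or.inl k, fun k' => dis _ _ k' k⟩⟩
  rw [eR] at rs2 hC3
  obtain ⟨pv, ⟨ya, pa, ka⟩, yb, pb, kb⟩ := hv'
  obtain ⟨-, f0, g0⟩ := K.fe_kd 0 v' ya _ pv pa ka
  obtain ⟨-, f3, -⟩ := K.fe_kd 0 v' yb _ pv pb kb
  change M.Pa 0 v' (M.FE 0 v' 0) at f0
  change M.Kd 0 0 (M.FE 0 v' 0) at g0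
  change M.Pa 0 v' (M.FE 0 v' 3) at f3
  have top2 : M2.Top (M.FE 0 v' 0) :=
    ⟨((hCW _ _ _ hM h2 rs' hC2).al _).2 (K.kd_per _ _ _ g0).1.1,
      ((hCR _ _ _ hM h2 rs' hC2).cor 0 0 _ ⟨rfl, f0⟩ g0).1⟩
  obtain ⟨top12, -, nt⟩ := hCS M2 M12 _ h2 h12 rs2 hC3 _ top2
  have nD : ¬D (M.FE 0 v' 3) := fun k => by
    have p3 := ((hW M1 hM1).per_pa 0 _ _ hv1.1 ((kpa _).2 f3)).2
    exact (hPE M12 h12 z _ top12).2.2 D hD1' hD2'
      (clo_pa hD1 (p3.trans ((kpa _).2 f0)) k) hNT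
  have cr3 := hCR _ _ _ h2 h12 rs2 hC3
  refine ⟨⟨pv, ⟨ya, pa, ka⟩, yb, pb, kb⟩, M2, ?_⟩
  by_cases hc : ∃ y, M.Pa t v y ∧ W y ∧ ¬D y
  · obtain ⟨y1, hy1, wy1, dy1⟩ := hc
    have cwu := hCW _ _ _ hM h12 rsu hCu
    have same : ∀ {y u a : ℕ}, M.Pa t v y → M.Pa t v u → M.Kd t a y → M.Kd t a u →
        M12.Pa t y u := fun {y u a} py pu ky ku =>
      ((cwu.twin t a y (Or.inl ⟨rfl, py⟩) ky).2.2 u).1.2
        ⟨(K.per_pa _ _ _ hv.1 py).2.trans pu, ku⟩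
    have kd := fun {y : ℕ} (py : M.Pa t v y) => K.kd_ex t y (K.per_pa _ _ _ hv.1 py).1
    have all : ∀ u, M.Pa t v u → W u ∨ D u := by
      intro u pu
      rcases kd hy0 with k0 | k0 <;> rcases kd hy1 with k1 | k1 <;> rcases kd pu with k | k
      all_goals first
        | exact absurd (clo_pa hD1' (same hy0 hy1 k0 k1) dy0) dy1
        | exact Or.inr (clo_pa hD1' (same hy0 pu k0 k) dy0)
        | exact Or.inl (clo_pa hW1 (same hy1 pu k1 k) wy1)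
    obtain ⟨u1, u2⟩ := up (W := fun c => W c ∨ D c) (z := z) hW hR h2 rs2 hC3 cr3
      (fun _ _ k => k.1) (fun _ u _ k _ => all u k.2)
      (fun p k => k.imp (hW1 p) (hD1' p))
      ⟨fun k => k.elim hW2.1 hD2.1, fun p hp k => k.elim (hW2.2 p hp) (hD2'.2 p hp)⟩
    exact ⟨_, h2, hC2, u1, u2, Or.inl hW3, (nt z).1 hNT⟩
  · obtain ⟨u1, u2⟩ := up (W := fun c => W c ∧ ¬D c) (z := z) hW hR h2 rs2 hC3 cr3
      (fun _ _ k => k.1) (fun y _ k _ w => absurd ⟨y, k.2, w⟩ hc)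
      (fun p k => ⟨hW1 p k.1, clo_not h12 hD1' p k.2⟩)
      ⟨fun k => hW2.1 k.1, fun p hp k => hW2.2 p hp k.1⟩
    exact ⟨_, h2, hC2, u1, u2, ⟨hW3, nD⟩, (nt z).1 hNT⟩

end Pool.Agent.MP_1a6d78_lc.PG
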