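import Pool.Agent.MP_1a6d78_lc.PG.FSpec

/-! PROJECT PG, row PROG: a large family in one frame. -/

namespace Pool.Agent.MP_1a6d78_lc.PG

open Classical ED PR PL Relation

noncomputable section

namespace FProg

theorem fib (A : Finset (ℕ × ℕ)) (k n m : ℕ) (h : ∀ a ∈ A, a.1 < k ∧ a.2 < n)
    (hm : ∀ g < k, PR.cnt n (fun x => (g, x) ∈ A) ≤ m) : A.card ≤ k * m := by
  have s : A ⊆ (Finset.range k).biUnion fun g =>
      ((Finset.range n).filter fun x => (g, x) ∈ A).image fun x => (g, x) := by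
    intro a ha
    simp only [Finset.mem_biUnion, Finset.mem_range, Finset.mem_image, Finset.mem_filter]
    exact ⟨a.1, (h a ha).1, a.2, ⟨(h a ha).2, ha⟩, rfl⟩
  refine (Finset.card_le_card s).trans (Finset.card_biUnion_le.trans ?_)
  refine (Finset.sum_le_card_nsmul _ _ m fun g hg => ?_).trans (by simp)
  refine Finset.card_image_le.trans ?_
  refine le_trans (le_of_eq ?_) (hm g (Finset.mem_range.1 hg))
  unfold PR.cnt
  congr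

theorem outer (hW : S_Walk) {N : Cm} (H : N.Ok) {v : ℕ} (r : N.Rng 0 v) :
    N.Pa 0 v (N.FE 0 v 0) ∧ N.Kd 0 0 (N.FE 0 v 0) := by
  obtain ⟨p, ⟨y, hy, ky⟩, _⟩ := r
  exact ((hW N H).fe_kd 0 v y 0 p hy ky).2

theorem sub {N : Cm} (H : N.Ok) {R : ℕ → Prop} {v v' : ℕ} (r : N.Rng 0 v) (hv : R v')
    (c : N.Co 0 v v') : ∀ t y, N.One 0 v t y → N.Zr R t y := by
  rintro t y ⟨e, p⟩
  have k := Cm.Per.pa H r.1 p
  exact ⟨e, k.1, v', hv, Cm.Co.trans (Cm.Pa.co k.2) c⟩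

theorem top (hW : S_Walk) (hX : S_CutEx) (hR : S_CutR) (hS : S_CS) (hC : S_Cmp) {N N' : Cm}
    (H : N.Ok) {R : ℕ → Prop} (hr : ∀ v, R v → N.Ring v) (hc : N.Cutm N' R) {z v v' : ℕ}
    (P : N.Pend z v) (hv : R v') (c : N.Co 0 v v') :
    N'.Top (N.FE 0 v 0) ∧ N'.NT z (N.FE 0 v 0) := by
  obtain ⟨r, M2, W, H2, C2, -, -, -, nt⟩ := P
  obtain ⟨rs, e, ok⟩ := (hX N H).1 N' R hr
  have r1 := ((hX N H).2 0 (by omega) v r).1
  obtain ⟨rs2, C3⟩ := (hC N M2 N' _ _ H H2 (ok hc) r1 C2).2 rs (sub H r hv c) (e.1 hc)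
  obtain ⟨p, k⟩ := outer hW H r
  have T : M2.Top (N.FE 0 v 0) := by
    refine ⟨fun q => ?_, ((hR N M2 _ H H2 r1 C2).cor 0 0 _ ⟨rfl, p⟩ k).1⟩
    have u := C2.ring 0 _ 0 ⟨rfl, p⟩ k
    have u1 : pt (N.FE 0 v 0) 0 = 4 * N.FE 0 v 0 := rfl
    have u2 : ep 0 0 = 1 := rfl
    rw [u1, q, u2] at u
    unfold pt at u
    omega
  obtain ⟨T', -, n'⟩ := hS M2 N' _ H2 (ok hc) rs2 C3 _ T
  exact ⟨T', (n' z).2 nt⟩

theorem sep (hW : S_Walk) (hX : S_CutEx) (hR : S_CutR) {N N' : Cm}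
    (H : N.Ok) {R : ℕ → Prop} (hr : ∀ v, R v → N.Ring v) (hc : N.Cutm N' R) {v w v' : ℕ}
    (r : N.Rng 0 v) (s : N.Rng 0 w) (hv : R v') (c : N.Co 0 v v')
    (g : N'.Rg (4 * N.FE 0 v 0) (4 * N.FE 0 w 0)) : N.Co 0 v w := by
  obtain ⟨rs, e, ok⟩ := (hX N H).1 N' R hr
  obtain ⟨p, k⟩ := outer hW H r
  have u := (((hR N N' _ H (ok hc) rs (e.1 hc)).cor 0 0 _ (sub H r hv c 0 _ ⟨rfl, p⟩) k).2.2
    (4 * N.FE 0 w 0)).1 g
  have d : 4 * N.FE 0 w 0 / 4 = N.FE 0 w 0 := by omega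
  rw [d] at u
  exact ⟨_, p.trans u.2.1, (outer hW H s).1⟩

end FProg

theorem fProg : S_Walk → S_Tw → S_CutEx → S_CutR → S_CS → S_Cmp → S_PC → S_PInj → S_Act →
    S_Prog := by
  intro hW hT hX hR hS hC hP hI hA M H z G hz
  obtain ⟨A, P, hc, a1, a2, p1, p2⟩ := hA M H z G hz
  by_cases c1 : ∃ g < 4, M.mu ≤ 12 * (PR.cnt M.n fun x => (g, x) ∈ A) + G
  · obtain ⟨g, hg, c⟩ := c1
    refine ⟨g, by omega, _, c, Or.inl ⟨fun x hx => (a1 _ hx).2, fun x y hx hy r => ?_⟩⟩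
    exact congrArg Prod.snd (a2 _ hx _ hy rfl r)
  by_cases c2 : ∃ g < 8, M.mu ≤ 12 * (PR.cnt M.n fun x => (g, x) ∈ P) + G
  · obtain ⟨g, hg, c⟩ := c2
    have K := (hT M H g hg).ok
    have inj : ∀ v v', (g, v) ∈ P → (g, v') ∈ P → (M.tw g).Co 0 v v' → v = v' :=
      fun v v' hv hv' r => congrArg Prod.snd (p2 _ hv _ hv' rfl r)
    refine ⟨g, hg, _, c, Or.inr ⟨fun v hv => hP _ K z v (p1 _ hv).2, inj,
      fun v v' hv hv' r => inj v v' hv hv' (hI _ K z v v' (p1 _ hv).2 (p1 _ hv').2 r),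
      fun N' R hr hm => ⟨fun v v' hv hv' r => ?_, fun v w v' w' hv hw hv' _ r _ u => ?_⟩⟩⟩
    · exact FProg.top hW hX hR hS hC K hr hm (p1 _ hv).2 hv' r
    · exact inj v w hv hw (FProg.sep hW hX hR K hr hm (p1 _ hv).2.1 (p1 _ hw).2.1 hv' r u)
  exfalso
  have b1 := FProg.fib A 4 M.n ((M.mu - G - 1) / 12) (fun a ha => ⟨(a1 a ha).1,
    (hT M H a.1 (by have := (a1 a ha).1; omega)).ok.lt _ (a1 a ha).2.1.1⟩) fun g hg => by
      have := Nat.not_le.1 fun u => c1 ⟨g, hg, u⟩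
      omega
  have b2 := FProg.fib P 8 M.n ((M.mu - G - 1) / 12) (fun a ha => ⟨(p1 a ha).1,
    (hT M H a.1 (p1 a ha).1).ok.lt _ (p1 a ha).2.1.1.1⟩) fun g hg => by
      have := Nat.not_le.1 fun u => c2 ⟨g, hg, u⟩
      omega
  have := Nat.not_le.1 fun u => c1 ⟨0, by omega, u⟩
  omega

end

end Pool.Agent.MP_1a6d78_lc.PG
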