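import Pool.Agent.MP_1a6d78_lc.PG.FSpec

/-! PROJECT PG, row STEP: witnesses go back along the cut of a clean ring. -/

namespace Pool.Agent.MP_1a6d78_lc.PG

open Classical ED PR PL Relation

namespace FStep

/-- The situation of the step. -/
structure Sit (M N : Cm) (D : ℕ → Prop) (z t v : ℕ) : Prop where
  ok : M.Ok
  ok1 : N.Ok
  lt : t < 4
  rng : M.Rng t v
  rs : M.Rs (M.One t v)
  cut : M.Cutx N (M.One t v)
  clo : N.Clo D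
  cln : N.Cln z D
  ex : ∃ y, M.Pa t v y ∧ D y

variable {M N : Cm} {D : ℕ → Prop} {z t v : ℕ}

theorem Sit.tw (hT : S_Tw) (hC : S_TwC) (h : Sit M N D z t v) {g s : ℕ} (hg : g < 8) (hs : s < 4)
    (e : fp g s = t) : Sit (M.tw g) (N.tw g) D z s v := by
  have K := hT M h.ok g hg
  have K1 := hT N h.ok1 g hg
  have e1 : (fun t' y => t' < 4 ∧ M.One t v (fp g t') y) = (M.tw g).One s v := by
    funext t' y
    unfold Cm.One
    rw [K.pa, e, ← e, Ct.fp_inj hg]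
    exact propext ⟨fun k => ⟨by omega, k.2.2⟩, fun k => ⟨by omega, by omega, k.2⟩⟩
  have := hC M N _ h.ok h.ok1 h.rs h.cut g hg
  rw [e1] at this
  obtain ⟨y, y1, y2⟩ := h.ex
  exact ⟨K.ok, K1.ok, hs, (K.rn _ _).2 (e ▸ h.rng), this.1, this.2, (K1.clo _).2 h.clo,
    (K1.cln _ _).2 h.cln, y, (K.pa _ _ _).2 (e ▸ y1), y2⟩

theorem clo_pa (h : N.Clo D) {i a b : ℕ} (k : N.Pa i a b) (ha : D a) : D b := by
  obtain ⟨s, rfl⟩ := k
  induction s with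
  | zero => exact ha
  | succ s ih =>
    rw [Cm.wk_succ]
    exact h _ (by rwa [pt_div])

/-- All cells of one kind of the ring are in `D`. -/
theorem Sit.kind (hW : S_Walk) (hC : S_CutW) (h : Sit M N D z t v) :
    ∃ a, (a = t % 4 ∨ a = (t + 3) % 4) ∧ ∀ x, M.Pa t v x → M.Kd t a x → D x := by
  obtain ⟨y, y1, y2⟩ := h.ex
  have W := hW M h.ok
  obtain ⟨p1, p2⟩ := W.per_pa _ _ _ h.rng.1 y1
  obtain ⟨a, ha⟩ := p1.kd h.ok
  exact ⟨a, (W.kd_per _ _ _ ha).2, fun x x1 x2 => clo_pa h.clo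
    ((((hC M N _ h.ok h.ok1 h.rs h.cut).twin t a y ⟨rfl, y1⟩ ha).2.2 x).1.2 ⟨p2.trans x1, x2⟩) y2⟩

/-- Two cells of the same kind of the ring have their corners in one region. -/
theorem Sit.rg (hW : S_Walk) (hR : S_CutR) (h : Sit M N D z t v) {x y : ℕ} (x1 : M.Pa t v x)
    (x2 : M.Kd t 0 x) (y1 : M.Pa t v y) (y2 : M.Kd t 0 y) : N.Rg (4 * x) (4 * y) := by
  have e : 4 * y / 4 = y := by omega
  exact (((hR M N _ h.ok h.ok1 h.rs h.cut).cor t 0 x ⟨rfl, x1⟩ x2).2.2 (4 * y)).2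
    ⟨by omega, by rw [e]; exact ((hW M h.ok).per_pa _ _ _ h.rng.1 x1).2.trans y1, by rwa [e]⟩

theorem Sit.pend (hW : S_Walk) (hD : S_Dead) (hC : S_CutW) (hR : S_CutR) (hP : S_PE)
    (h : Sit M N D z 0 v) {x : ℕ} (x1 : M.Pa 0 v x) (x2 : M.Kd 0 0 x) (x3 : N.Top x)
    (x4 : N.NT z x) : M.Pend z v := by
  have W := hW M h.ok
  obtain ⟨a, a1, a2⟩ := h.kind hW hC
  obtain ⟨y, y1, y2⟩ := h.rng.2.2
  obtain ⟨-, f1, f2⟩ := W.fe_kd _ _ _ _ h.rng.1 x1 x2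
  obtain ⟨-, g1, g2⟩ := W.fe_kd _ _ _ _ h.rng.1 y1 y2
  refine ⟨h.rng, N, D, h.ok1, h.cut, h.clo, h.cln, ?_,
    (((hD N h.ok1 x x3).same _ (h.rg hW hR x1 x2 f1 f2)).2.2 z).2 x4⟩
  rcases a1 with rfl | rfl
  · exact absurd x4 ((hP N h.ok1 z x x3).2.2 D h.clo h.cln (a2 x x1 x2))
  · exact a2 _ g1 g2

theorem cor_iff {x : ℕ} : M.Cor (M.One t v) (4 * x) ↔ M.Pa t v x ∧ M.Kd t 0 x := by
  unfold Cm.Cor Cm.One
  rw [show 4 * x / 4 = x by omega, show 4 * x % 4 = 0 by omega]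
  exact ⟨fun ⟨_, ⟨e, k⟩, l⟩ => ⟨k, e ▸ l⟩, fun k => ⟨t, ⟨rfl, k.1⟩, k.2⟩⟩

theorem Sit.keep (hC : S_CutW) (hR : S_CutR) (hS : S_CS) (h : Sit M N D z t v) {x : ℕ}
    (k : ¬M.Cor (M.One t v) (4 * x)) (x3 : N.Top x) (x4 : N.NT z x) : M.Top x ∧ M.NT z x := by
  have k1 : M.Top x := ⟨((hC M N _ h.ok h.ok1 h.rs h.cut).al x).1 x3.1,
    ((hR M N _ h.ok h.ok1 h.rs h.cut).crit _ k).1 x3.2⟩
  exact ⟨k1, ((hS M N _ h.ok h.ok1 h.rs h.cut x k1).2.2 z).1 x4⟩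

theorem Sit.co (hC : S_CutW) (h : Sit M N D z t v) {a b : ℕ} (ha : N.Rng 0 a) (hb : N.Rng 0 b)
    (k : M.Co 0 a b) : N.Co 0 a b := by
  have C := hC M N _ h.ok h.ok1 h.rs h.cut
  obtain ⟨u, u1, u2⟩ := k
  obtain ⟨a1, a2⟩ := C.lift 0 (by decide) a ha
  obtain ⟨b1, b2⟩ := C.lift 0 (by decide) b hb
  exact ⟨u, ((C.keep 0 (by decide) a a1 a2).2.2.1 u).2 u1,
    ((C.keep 0 (by decide) b b1 b2).2.2.1 u).2 u2⟩

theorem Sit.nco (hC : S_CutW) (h : Sit M N D z 0 v) {a : ℕ} (ha : N.Rng 0 a) : ¬M.Co 0 v a :=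
  fun k =>
    let ⟨a1, a2⟩ := (hC M N _ h.ok h.ok1 h.rs h.cut).lift 0 (by decide) a ha
    a2.1 ⟨rfl, k.pa h.ok a1.1⟩

theorem tw5 (hT : S_Tw) (h : M.Ok) {g : ℕ} (hg : g < 4) :
    (M.tw g).tw 5 = M.tw (4 + (g + 1) % 4) := by
  obtain ⟨k, k1, k2, -, k3, k4⟩ := (hT M h g (by omega)).comp 5 (by decide)
  have e := k2 0
  rw [show fp 5 0 = 1 from rfl] at e
  have k5 : ¬k < 4 := fun l => by have := (k3.1 l).1 hg; omega
  rw [k4, show k = 4 + (g + 1) % 4 by unfold fp at e; simp only [if_neg k5, if_pos hg] at e; omega]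

end FStep

open FStep in
theorem fStep : S_Walk → S_Reg → S_Dead → S_Tw → S_Mir → S_TwC → S_CutEx → S_CutW → S_CutR →
    S_CS → S_PE → S_PT → S_Step := by
  intro hW _ hD hT hM hTC hE hC hR hS hP hPT M N D z G t v ok ok1 lt rng cut clo cln ex
    ⟨A, P, c1, a1, a2, p1, p2⟩
  have h : Sit M N D z t v := ⟨ok, ok1, lt, rng, ((hE M ok).2 t lt v rng).1, cut, clo, cln, ex⟩
  have fe : ∀ {g}, g < 8 → fp g (fp (gi g) t) = t := fun hg =>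
    ((Ct.fp_fp hg t).2).trans (Nat.mod_eq_of_lt lt)
  have fr : ∀ {g}, g < 8 → Sit (M.tw g) (N.tw g) D z (fp (gi g) t) v := fun hg =>
    h.tw hT hTC hg (Ct.fp_lt _ _) (fe hg)
  rw [(hR M N _ ok ok1 h.rs cut).mu] at c1
  obtain ⟨Q, hQ⟩ : ∃ Q : ℕ × ℕ → Prop, Q = fun a =>
    (M.tw a.1).Cor ((M.tw a.1).One (fp (gi a.1) t) v) (4 * a.2) := ⟨_, rfl⟩
  have l8 : ∀ a ∈ A, a.1 < 8 := fun a ha => by have := (a1 a ha).1; omega
  have k1 : ∀ a ∈ A, ¬Q a → a.1 < 4 ∧ (M.tw a.1).Top a.2 ∧ (M.tw a.1).NT z a.2 := fun a ha k =>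
    ⟨(a1 a ha).1, (fr (l8 a ha)).keep hC hR hS (by rwa [hQ] at k) (a1 a ha).2.1 (a1 a ha).2.2⟩
  have k2 : ∀ a ∈ A, ¬Q a → ∀ b ∈ A, ¬Q b → a.1 = b.1 → (M.tw a.1).Rg (4 * a.2) (4 * b.2) →
      a = b := fun a ha k b hb l e r => by
    have S := fr (l8 a ha)
    rw [hQ] at k l
    exact a2 a ha b hb e (((hR _ _ _ S.ok S.ok1 S.rs S.cut).rg _ _ k).2 ⟨r, by rw [e]; exact l⟩)
  have k3 : ∀ a ∈ P, a.1 < 8 ∧ (M.tw a.1).Pend z a.2 := fun a ha =>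
    let S := fr (p1 a ha).1
    ⟨(p1 a ha).1, hPT _ _ D z _ v _ S.ok S.ok1 S.lt S.rng S.cut S.clo S.cln S.ex (p1 a ha).2⟩
  have k4 : ∀ a ∈ P, ∀ b ∈ P, a.1 = b.1 → (M.tw a.1).Co 0 a.2 b.2 → a = b := fun a ha b hb e r =>
    p2 a ha b hb e ((fr (p1 a ha).1).co hC (p1 a ha).2.1 (by rw [e]; exact (p1 b hb).2.1) r)
  by_cases hc : ∃ c ∈ A, Q c
  swap
  · have hn : ∀ a ∈ A, ¬Q a := fun a ha k => hc ⟨a, ha, k⟩
    exact ⟨A, P, c1, fun a ha => k1 a ha (hn a ha),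
      fun a ha b hb => k2 a ha (hn a ha) b hb (hn b hb), k3, k4⟩
  obtain ⟨c, hc, qc⟩ := hc
  obtain ⟨a0, b1, b2⟩ := h.kind hW hC
  have tr : ∀ a ∈ A, Q a → M.Pa t v a.2 ∧ M.Kd t a.1 a.2 ∧ a.1 ≠ a0 := fun a ha k => by
    rw [hQ] at k
    have K := hT M ok a.1 (l8 a ha)
    have S := fr (l8 a ha)
    obtain ⟨u1, u2⟩ := cor_iff.1 k
    rw [K.pa, fe (l8 a ha)] at u1
    rw [K.kd _ _ _ (by decide), fe (l8 a ha), show fs a.1 0 = a.1 by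
      have := (a1 a ha).1; unfold fs; rw [if_pos this]; omega] at u2
    exact ⟨u1, u2, fun e => (hP _ S.ok1 z a.2 (a1 a ha).2.1).2.2 D S.clo S.cln
      (b2 _ u1 (e ▸ u2)) (a1 a ha).2.2⟩
  have one : ∀ a ∈ A, Q a → c = a := fun a ha k => by
    obtain ⟨-, u2, u3⟩ := tr a ha k
    obtain ⟨-, w2, w3⟩ := tr c hc qc
    have e1 := ((hW M ok).kd_per _ _ _ u2).2
    have e2 := ((hW M ok).kd_per _ _ _ w2).2
    have e : c.1 = a.1 := by omega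
    rw [hQ] at k qc
    rw [← e] at k
    exact a2 c hc a ha e ((fr (l8 c hc)).rg hW hR (cor_iff.1 qc).1 (cor_iff.1 qc).2
      (cor_iff.1 k).1 (cor_iff.1 k).2)
  obtain ⟨u1, u2, -⟩ := tr c hc qc
  obtain ⟨d1, d2, d3⟩ := a1 c hc
  obtain ⟨g, g1, g2, g3, g4, g5⟩ : ∃ g < 8, fp g 0 = t ∧ fs g 0 = c.1 ∧ (N.tw g).Top c.2 ∧
      (N.tw g).NT z c.2 := by
    rcases ((hW M ok).kd_per _ _ _ u2).2 with e | e
    · exact ⟨c.1, by omega, by unfold fp; rw [if_pos d1]; omega,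
        by unfold fs; rw [if_pos d1]; omega, d2, d3⟩
    · have m := hM _ (fr (l8 c hc)).ok1 c.2 d2
      rw [tw5 hT ok1 d1] at m
      exact ⟨4 + (c.1 + 1) % 4, by omega, by unfold fp; rw [if_neg (by omega)]; omega,
        by unfold fs; rw [if_neg (by omega)]; omega, m.1, (m.2.2 z).2 d3⟩
  have S := h.tw hT hTC g1 (show 0 < 4 by decide) g2
  have K := hT M ok g g1
  have pn : (M.tw g).Pend z v := S.pend hW hD hC hR hP ((K.pa _ _ _).2 (g2 ▸ u1))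
    ((K.kd _ _ _ (by decide)).2 (by rw [g2, g3]; exact u2)) g4 g5
  have nc : ∀ b ∈ P, g = b.1 → ¬(M.tw g).Co 0 v b.2 := fun b hb e =>
    S.nco hC (by rw [e]; exact (p1 b hb).2.1)
  have hn : ∀ a ∈ A.erase c, a ∈ A ∧ ¬Q a := fun a ha =>
    ⟨Finset.mem_of_mem_erase ha, fun k =>
      Finset.ne_of_mem_erase ha (one a (Finset.mem_of_mem_erase ha) k).symm⟩
  refine ⟨A.erase c, insert (g, v) P, ?_, fun a ha => k1 a (hn a ha).1 (hn a ha).2,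
    fun a ha b hb => k2 a (hn a ha).1 (hn a ha).2 b (hn b hb).1 (hn b hb).2, fun a ha => ?_,
    fun a ha b hb e r => ?_⟩
  · rw [Finset.card_insert_of_notMem fun k => nc _ k rfl (Cm.Co.refl _ _)]
    have := Finset.card_erase_add_one hc
    omega
  · rcases Finset.mem_insert.1 ha with rfl | ha
    exacts [⟨g1, pn⟩, k3 a ha]
  · rcases Finset.mem_insert.1 ha with rfl | ha <;> rcases Finset.mem_insert.1 hb with rfl | hb
    · rfl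
    · exact absurd r (nc b hb e)
    · exact absurd (show (M.tw g).Co 0 v a.2 from (show g = a.1 from e.symm) ▸ r.symm)
        (nc a ha e.symm)
    · exact k4 a ha b hb e r

end Pool.Agent.MP_1a6d78_lc.PG
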