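import Pool.Agent.MP_1a6d78_lc.PG.FSpec

namespace Pool.Agent.MP_1a6d78_lc.PG

open Classical ED PR PL Relation

namespace FWall

variable {M : Cm} {x : ℕ}

/-- One step of a wall. -/
def Sp (M : Cm) (x c d : ℕ) : Prop := d = M.st 2 c ∧ (M.ss 2 c = 2 ↔ M.Dd x d)

def Conf (M : Cm) (x g : ℕ) : Prop :=
  M.lk (4 * g + 2) % 4 = 3 ∧ ¬M.Dd x g ∧ M.Dd x (M.st 2 g)

def Top2 (M : Cm) (x w : ℕ) : Prop :=
  M.Dd x w ∧ M.Prb (4 * w + 3) ∧ M.lk (4 * w + 3) % 4 = 0 ∧ ¬M.Dd x (M.st 3 w)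

theorem nr2 (M : Cm) (c : ℕ) : M.nr (4 * c + 2) = M.lk (4 * c + 3) := by
  unfold Cm.nr r4
  congr 1
  omega

theorem nr0 (M : Cm) (c : ℕ) : M.nr (4 * c) = M.lk (4 * c + 1) := by
  unfold Cm.nr r4
  congr 1
  omega

theorem runA (H : M.Ok) {g u : ℕ} (hg : M.al g) (h : M.Run 5 1 g u) (h0 : ¬M.Dd x g) :
    (M.al u ∧ ¬M.Dd x u ∧ ReflTransGen (Sp M x) u g) ∨
      ∃ a b, M.Dd x b ∧ ¬M.Dd x a ∧ M.lk (4 * a + 1) = 4 * b + 2 ∧ TransGen (Sp M x) b g := by
  induction h with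
  | refl => exact Or.inl ⟨hg, h0, ReflTransGen.refl⟩
  | @tail a b _ hab ih =>
    rcases ih with ⟨h1, h2, h3⟩ | h1
    · obtain ⟨e1, e2⟩ := hab
      have hp := H.par (pt a 5) (by rw [pt_div]; exact h1)
      have e3 : M.lk (4 * a + 1) = 4 * b + 2 := by
        unfold Cm.st at e1
        unfold Cm.ss sd at e2
        unfold pt at e1 e2 hp
        norm_num at e1 e2 hp
        omega
      have e4 : M.lk (4 * b + 2) = 4 * a + 1 := by rw [← e3, H.inv]
      have e5 : Sp M x b a := by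
        refine ⟨?_, ?_⟩
        · unfold Cm.st pt
          norm_num
          omega
        · unfold Cm.ss sd pt
          norm_num [e4, h2]
      by_cases hb : M.Dd x b
      · exact Or.inr ⟨a, b, hb, h2, e3, TransGen.head' e5 h3⟩
      · exact Or.inl ⟨e1 ▸ H.al_st 5 h1, hb, ReflTransGen.head e5 h3⟩
    · exact Or.inr h1

/-- Steps along a region through labels of type 2. -/
def T2 (M : Cm) : ℕ → ℕ → Prop := ReflTransGen fun c d => M.nr (4 * c + 2) = 4 * d + 2

theorem t2_rg {c d : ℕ} (h : T2 M c d) : M.Rg (4 * c + 2) (4 * d + 2) := by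
  induction h with
  | refl => exact ⟨0, rfl⟩
  | tail _ h ih =>
    obtain ⟨t, ht⟩ := ih
    exact ⟨t + 1, by rw [Function.iterate_succ_apply', ht, h]⟩

theorem fwd (a t : ℕ) : ∀ f, M.nr^[t] (4 * f + 2) = 4 * a →
    ∃ f', T2 M f f' ∧ M.Alt (4 * f' + 2) := by
  induction t with
  | zero => intro f h; simp only [Function.iterate_zero, id] at h; omega
  | succ t ih =>
    intro f h
    by_cases h1 : M.Alt (4 * f + 2)
    · exact ⟨f, ReflTransGen.refl, h1⟩
    · unfold Cm.Alt at h1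
      have h2 : M.nr (4 * f + 2) = 4 * (M.nr (4 * f + 2) / 4) + 2 := by omega
      rw [Function.iterate_succ_apply, h2] at h
      obtain ⟨f', h3, h4⟩ := ih _ h
      exact ⟨f', ReflTransGen.head h2 h3, h4⟩

theorem runB (H : M.Ok) (R : RegK M) (D : DeadK M x) {a g : ℕ} (ha : ¬M.Dd x a) (t : ℕ) :
    ∀ d, M.nr^[t] (4 * d + 2) = 4 * a → M.Dd x d → (∀ f, T2 M f d → M.Dd x f) →
      TransGen (Sp M x) d g →
      (∃ w, ReflTransGen (Sp M x) w g ∧ Top2 M x w) ∨
        ∃ g', Conf M x g' ∧ TransGen (Sp M x) g' g := by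
  induction t with
  | zero => intro d h; simp only [Function.iterate_zero, id] at h; omega
  | succ t ih =>
    intro d h hd hT hS
    have hrg : M.Rg (4 * d + 2) (4 * a) := ⟨_, h⟩
    have hal := D.al d hd
    have hp := H.par (4 * d + 3) (by rw [show (4 * d + 3) / 4 = d by omega]; exact hal)
    rw [Function.iterate_succ_apply, nr2] at h
    obtain ⟨c, hc⟩ : ∃ c, c = M.lk (4 * d + 3) / 4 := ⟨_, rfl⟩
    have hst : M.st 3 d = c := by rw [hc]; rfl
    by_cases h0 : M.lk (4 * d + 3) % 4 = 0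
    · left
      have e1 : M.lk (4 * d + 3) = 4 * c := by omega
      refine ⟨d, hS.to_reflTransGen, hd, ?_, h0, ?_⟩
      · rw [R.prb_up _ (by omega), show (4 * d + 3) / 4 = d by omega,
          show r3 (4 * d + 3) = 4 * d + 2 by unfold r3; omega]
        refine ⟨hal, ?_⟩
        have h1 : ∃ f, M.Rg (4 * a) (4 * f + 2) ∧ ¬M.Dd x f := by
          by_contra hn
          exact ha (Cm.Dd.step ⟨d, R.symm _ _ hrg⟩ fun u hu =>
            by_contra fun h' => hn ⟨u, hu, h'⟩)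
        obtain ⟨f, h2, h3⟩ := h1
        obtain ⟨s, hs⟩ := R.symm _ _ h2
        obtain ⟨f', h4, h5⟩ := fwd a s f hs
        refine ⟨4 * d + 2, 4 * f' + 2, ⟨0, rfl⟩,
          Ct.rg_trans (Ct.rg_trans hrg h2) (t2_rg h4), fun e => h3 (hT f ?_), ?_, h5, by omega⟩
        · rw [show d = f' by omega]; exact h4
        · unfold Cm.Alt
          rw [nr2]
          omega
      · rw [hst]
        intro hcd
        rw [e1] at h
        exact ha (D.out c a hcd ⟨_, h⟩)
    · have e1 : M.lk (4 * d + 3) = 4 * c + 2 := by omega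
      have e2 : M.lk (4 * c + 2) = 4 * d + 3 := by rw [← e1, H.inv]
      have e3 : M.st 2 c = d := by
        unfold Cm.st pt
        norm_num
        omega
      have e5 : Sp M x c d := by
        refine ⟨e3.symm, ?_⟩
        unfold Cm.ss sd pt
        norm_num [e2, hd]
      by_cases hcd : M.Dd x c
      · rw [e1] at h
        refine ih c h hcd (fun f hf => ?_) (TransGen.head e5 hS)
        rcases ReflTransGen.cases_tail hf with h1 | ⟨c', h1, h2⟩
        · rw [← h1]; exact hcd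
        · have := R.inj _ _ (h2.trans (e1.symm.trans (nr2 M d).symm))
          refine hT f ?_
          rw [show d = c' by omega]
          exact h1
      · exact Or.inr ⟨c, ⟨by omega, hcd, e3 ▸ hd⟩, TransGen.head e5 hS⟩

theorem conf_al (W : WalkK M) (D : DeadK M x) {g : ℕ} (h : Conf M x g) : M.al g :=
  (W.st_al 2 g).1 (D.al _ h.2.2)

theorem stepW (H : M.Ok) (W : WalkK M) (R : RegK M) (D : DeadK M x) {g : ℕ} (h : Conf M x g) :
    M.Prb (4 * g + 2) ∨ (∃ w, ReflTransGen (Sp M x) w g ∧ Top2 M x w) ∨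
      ∃ g', Conf M x g' ∧ TransGen (Sp M x) g' g := by
  by_cases hP : M.Prb (4 * g + 2)
  · exact Or.inl hP
  right
  have hal := conf_al W D h
  obtain ⟨h1, h2, h3⟩ := h
  have e1 : M.lk (4 * g + 2) = pt (M.st 2 g) (0 + 3) := by
    unfold Cm.st pt
    norm_num
    omega
  have hC : M.Cfg 0 3 (M.st 2 g) g := ⟨D.al _ h3, by rw [← e1, H.inv]; rfl⟩
  obtain ⟨⟨hh, hF⟩, u, hL⟩ := R.run 0 3 _ g (Or.inr rfl) hC
  have e2 : hh = u := by
    by_contra hn
    apply hP
    rw [← R.prb_lk, e1]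
    exact (R.flow 0 3 _ g hh u (Or.inr rfl) hC hF hL).1.1 hn
  have hu : M.Dd x u := by
    obtain ⟨r, h4, h5⟩ := hF
    have h6 : M.Dd x r := by
      clear h5
      induction h4 with
      | refl => exact h3
      | tail _ h ih => rw [h.1]; exact (D.up _ ih).1
    have h7 : M.st 0 r = u := by
      unfold Cm.st
      rw [h5, pt_div, e2]
    rw [← h7]
    exact (D.up _ h6).1
  rcases runA H hal hL.1 h2 with h4 | ⟨a, b, h4, h5, h6, h7⟩
  · exact absurd hu h4.2.1
  · have h8 : M.Rg (4 * a) (4 * b + 2) := ⟨1, (nr0 M a).trans h6⟩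
    obtain ⟨t, ht⟩ := R.symm _ _ h8
    refine runB H R D h5 t b ht h4 (fun f hf => ?_) h7
    rcases ReflTransGen.cases_tail hf with h9 | ⟨c', _, h9⟩
    · rw [← h9]; exact h4
    · have := R.inj _ _ (h9.trans ((nr0 M a).trans h6).symm)
      omega

theorem sp_pa {a b : ℕ} (h : ReflTransGen (Sp M x) a b) : M.Pa 2 a b := by
  induction h with
  | refl => exact Cm.Pa.refl _ _
  | tail _ h ih => rw [h.1]; exact ih.trans (Cm.Pa.step _ _)

theorem cap (W : WalkK M) {g g0 : ℕ} (h : Conf M x g) (h0 : M.al g0)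
    (hc : TransGen (Sp M x) g0 g0) (hs : ReflTransGen (Sp M x) g0 g) : M.Cap x 2 g := by
  have hZ : ∀ y, M.Pa 2 g0 y → TransGen (Sp M x) y g0 := by
    rintro y ⟨t, rfl⟩
    induction t with
    | zero => exact hc
    | succ t ih =>
      obtain ⟨c, h1, h2⟩ := TransGen.head'_iff.1 ih
      rw [Cm.wk_succ, ← h1.1]
      exact TransGen.trans_right h2 hc
  have hper : M.Per 2 g0 := by
    obtain ⟨c, h1, h2⟩ := TransGen.head'_iff.1 hc
    exact ⟨h0, h1.1 ▸ sp_pa h2⟩
  have hg := sp_pa hs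
  have hgood : ∀ y a, M.Pa 2 g y → M.Kd 2 a y → (a = 2 ↔ M.Dd x y) := by
    rintro y a hy ⟨u, h1, h2, h3⟩
    have h4 := (W.per_pa 2 u y h1 (h2 ▸ Cm.Pa.step _ _)).2
    obtain ⟨c, h5, _⟩ := TransGen.head'_iff.1 (hZ u ((hg.trans hy).trans h4))
    rw [← h3, ← h2, ← h5.1]
    exact h5.2
  have hpg := (W.per_pa 2 g0 g hper hg).1
  have hall : ∀ y, M.Pa 2 g y → (M.Dd x y ↔ M.Kd 2 2 y) := by
    intro y hy
    refine ⟨fun hd => ?_, fun hk => (hgood y 2 hy hk).1 rfl⟩
    rcases W.kd_ex 2 y (W.per_pa 2 g y hpg hy).1 with h1 | h1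
    · exact h1
    · exact absurd ((hgood y _ hy h1).2 hd) (by norm_num)
  refine ⟨⟨hpg, ⟨_, Cm.Pa.step _ _, (hall _ (Cm.Pa.step _ _)).1 h.2.2⟩, g, Cm.Pa.refl _ _, ?_⟩,
    hall⟩
  rcases W.kd_ex 2 g hpg with h1 | h1
  · exact absurd ((hall g (Cm.Pa.refl _ _)).2 h1) h.2.1
  · exact h1

end FWall

open FWall in
theorem fWall : S_Walk → S_Reg → S_Dead → S_Wall := by
  intro hW hR hD M H x g hx h1 h2 h3
  have W := hW M H
  have R := hR M H
  have D := hD M H x hx
  have hg : Conf M x g := ⟨h1, h2, h3⟩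
  rw [or_iff_not_imp_left]
  intro hn
  have hnext : ∀ c, Conf M x c → ReflTransGen (Sp M x) c g →
      ∃ c', Conf M x c' ∧ TransGen (Sp M x) c' c := by
    intro c hc hs
    rcases stepW H W R D hc with h | ⟨w, h, h'⟩ | h
    · exact absurd ⟨c, hs, Or.inl ⟨hc.2.1, h, hc.1, hc.2.2⟩⟩ hn
    · exact absurd ⟨w, h.trans hs, Or.inr h'⟩ hn
    · exact h
  by_contra hcap
  have key : ∀ k c, Conf M x c → ReflTransGen (Sp M x) c g →
      ((Finset.range M.n).filter fun y => TransGen (Sp M x) y c).card ≠ k := by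
    intro k
    induction k using Nat.strong_induction_on with
    | _ k ih =>
      intro c hc hs hk
      obtain ⟨c', h4, h5⟩ := hnext c hc hs
      have h6 := h5.to_reflTransGen.trans hs
      refine ih _ ?_ c' h4 h6 rfl
      rw [← hk]
      refine Finset.card_lt_card ⟨fun y hy => ?_, fun h => ?_⟩
      · rw [Finset.mem_filter] at hy ⊢
        exact ⟨hy.1, hy.2.trans h5⟩
      · have h7 := h (Finset.mem_filter.2
          ⟨Finset.mem_range.2 (H.lt _ (conf_al W D h4)), h5⟩)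
        exact hcap (cap W hg (conf_al W D h4) (Finset.mem_filter.1 h7).2 h6)
  exact key _ g hg ReflTransGen.refl rfl

end Pool.Agent.MP_1a6d78_lc.PG
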