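import Pool.Agent.MP_1a6d78_lc.PG.FAct
import Pool.Agent.MP_1a6d78_lc.PG.FBas
import Pool.Agent.MP_1a6d78_lc.PG.FBase
import Pool.Agent.MP_1a6d78_lc.PG.FCS
import Pool.Agent.MP_1a6d78_lc.PG.FCmp
import Pool.Agent.MP_1a6d78_lc.PG.FCutEx
import Pool.Agent.MP_1a6d78_lc.PG.FCutN
import Pool.Agent.MP_1a6d78_lc.PG.FCutR
import Pool.Agent.MP_1a6d78_lc.PG.FCutW
import Pool.Agent.MP_1a6d78_lc.PG.FDead
import Pool.Agent.MP_1a6d78_lc.PG.FG0
import Pool.Agent.MP_1a6d78_lc.PG.FG0a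
import Pool.Agent.MP_1a6d78_lc.PG.FG1
import Pool.Agent.MP_1a6d78_lc.PG.FMir
import Pool.Agent.MP_1a6d78_lc.PG.FOm
import Pool.Agent.MP_1a6d78_lc.PG.FPC
import Pool.Agent.MP_1a6d78_lc.PG.FPE
import Pool.Agent.MP_1a6d78_lc.PG.FPInj
import Pool.Agent.MP_1a6d78_lc.PG.FPT
import Pool.Agent.MP_1a6d78_lc.PG.FProg
import Pool.Agent.MP_1a6d78_lc.PG.FReg
import Pool.Agent.MP_1a6d78_lc.PG.FStep
import Pool.Agent.MP_1a6d78_lc.PG.FTw
import Pool.Agent.MP_1a6d78_lc.PG.FTwC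
import Pool.Agent.MP_1a6d78_lc.PG.FWalk
import Pool.Agent.MP_1a6d78_lc.PG.FWall
import Pool.Agent.MP_1a6d78_lc.PG.Drop

/-! PROJECT PG: cuts, basins, progress; all rows together. -/

namespace Pool.Agent.MP_1a6d78_lc.PG

open PR

theorem sWalk : S_Walk := fWalk

theorem sReg : S_Reg := fReg sWalk

theorem sDead : S_Dead := fDead sWalk sReg

theorem sTw : S_Tw := fTw

theorem sMir : S_Mir := fMir sWalk sReg sDead sTw

theorem sTwC : S_TwC := fTwC sWalk sTw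

theorem sCutEx : S_CutEx := fCutEx sWalk sTw sTwC

theorem sBase : S_Base := fBase sWalk sReg

theorem sBas : S_Bas := fBas sWalk sReg

theorem sWall : S_Wall := fWall sWalk sReg sDead

theorem sG0 : S_G0 := fG0 sWalk sDead sTw sMir (fG0a sWalk sReg sDead sWall)

theorem sG1 : S_G1 := fG1 sWalk sReg sDead sBas sG0

theorem sPE : S_PE := fPE sWalk sReg sDead

theorem sCutW : S_CutW := fCutW sWalk

theorem sCutR : S_CutR := fCutR sWalk sReg sCutW fCutN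

theorem sCS : S_CS := fCS sWalk sReg sDead sCutW sCutR

theorem sCmp : S_Cmp := fCmp sWalk sCutW

theorem sOm : S_Om := fOm sWalk sReg sCutEx sCutW sCutR sBas

theorem sPC : S_PC := fPC sWalk sReg sDead sCutEx sCutW sCutR sPE sOm

theorem sPInj : S_PInj := fPInj sWalk sReg sDead sCutEx sCutW sCutR sPE sPC

theorem sPT : S_PT := fPT sWalk sReg sCutEx sCutW sCutR sCS sCmp sPE

theorem sStep : S_Step := fStep sWalk sReg sDead sTw sMir sTwC sCutEx sCutW sCutR sCS sPE sPT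

theorem sAct (h : S_GCut) : S_Act :=
  fAct sWalk sReg sDead sTw sTwC sCutEx sCutW sCutR sCS sG0 sG1 sPE sBase sStep h

theorem sProg (h : S_GCut) : S_Prog := fProg sWalk sTw sCutEx sCutR sCS sCmp sPC sPInj (sAct h)

theorem sDrop (M M' : Cm) (X : ℕ → Prop) (z : ℕ) (H : M.Ok) (F : M.Fam X)
    (S : M.Smo M' (M.Dead X)) (hz : ¬M.Dead X z) :
    2 * M'.mu + cnt M.n (fun x => X x ∧ M.NT z x) ≤ 2 * M.mu :=
  drop sWalk sReg sDead M M' X z H F S hz

end Pool.Agent.MP_1a6d78_lc.PG
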