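import Pool.Agent.MP_1a6d78_lc.PG.FSpec

/-! PROJECT PG, row G0A: the border of a kill that does not pay, walls of type 2. -/

namespace Pool.Agent.MP_1a6d78_lc.PG

open Classical ED PR PL Relation

namespace FG0a

variable {M : Cm} {x z : ℕ}

lemma st2 (c : ℕ) : M.st 2 c = M.lk (4 * c + 2) / 4 := rfl
lemma st3 (c : ℕ) : M.st 3 c = M.lk (4 * c + 3) / 4 := rfl

lemma ss2 (c : ℕ) : M.ss 2 c = 2 ↔ M.lk (4 * c + 2) % 4 = 3 := by
  show sd 2 (M.lk (4 * c + 2)) = 2 ↔ _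
  unfold sd
  split_ifs with k <;> simp_all

lemma ss3 (c : ℕ) (h : M.ss 3 c = 2) : M.lk (4 * c + 3) % 4 ≠ 0 := by
  intro k
  have e : sd 3 (M.lk (4 * c + 3)) = 2 := h
  unfold sd at e
  rw [if_pos (by omega)] at e
  omega

/-- A configuration at the border lies on a closed wall. -/
lemma wall (hR : RegK M) (hD : DeadK M x) (hW : S_Wall) (h : M.Ok) (hx : M.Top x)
    (hn : ¬M.NT z x) {g : ℕ} (h1 : M.lk (4 * g + 2) % 4 = 3) (h2 : ¬M.Dd x g)
    (h3 : M.Dd x (M.st 2 g)) : M.Cap x 2 g := by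
  rcases hW M h x g hx h1 h2 h3 with ⟨w, hs, ⟨-, a2, a3, a4⟩ | ⟨a1, -, a3, -⟩⟩ | k
  · refine absurd (Or.inr (Or.inl ⟨_, a4, Or.inr (Or.inr ?_)⟩)) hn
    have e : 4 * M.st 2 w + 3 = M.lk (4 * w + 2) := by rw [st2]; omega
    rw [e]
    exact (hR.sad _ _ (hR.fw _)).1 ((hR.prb_up _ (by omega)).1 a2).2
  · have key : ∀ d, M.Seg x w d → M.Hop x ∨
        ∃ t, (∀ s ≤ t, M.Dd x (M.wk 3 d s)) ∧ M.lk (4 * M.wk 3 d t + 3) % 4 = 0 := by
      intro d hd
      induction hd with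
      | refl => exact Or.inr ⟨0, fun s e => by rw [Nat.le_zero.1 e]; exact a1, a3⟩
      | @tail c d _ hc ih =>
        rcases ih with k | ⟨t, t1, t2⟩
        · exact Or.inl k
        obtain ⟨rfl, hc⟩ := hc
        by_cases k : M.Dd x (M.st 2 c)
        · have e1 := (ss2 c).1 (hc.2 k)
          have e2 : M.st 3 (M.st 2 c) = c := by
            rw [st3, show 4 * M.st 2 c + 3 = M.lk (4 * c + 2) by rw [st2]; omega, h.inv]
            omega
          refine Or.inr ⟨t + 1, fun s e => ?_, by rw [Cm.wk_succ', e2]; exact t2⟩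
          cases s with
          | zero => exact k
          | succ s => rw [Cm.wk_succ', e2]; exact t1 s (by omega)
        · have e1 : ¬M.lk (4 * c + 2) % 4 = 3 := fun e => k (hc.1 ((ss2 c).2 e))
          have e2 := h.par (4 * c + 2)
            (by rw [show (4 * c + 2) / 4 = c by omega]; exact hD.al _ (t1 0 (Nat.zero_le _)))
          exact Or.inl ⟨c, t, by omega, k, t1, t2⟩
    rcases key g hs with k | ⟨t, t1, -⟩
    · exact absurd (Or.inr (Or.inr k)) hn
    · exact absurd (t1 0 (Nat.zero_le _)) h2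
  · exact k

end FG0a

open FG0a in
theorem fG0a : S_Walk → S_Reg → S_Dead → S_Wall → S_G0a := by
  intro sK sR sD hW M h z x p hx hn hp hq
  have hK := sK M h
  have hR := sR M h
  have hD := sD M h x hx
  refine ⟨fun e1 e2 => ?_, fun e1 e2 => ?_⟩
  · have e : 4 * (M.lk p / 4) + 2 = M.lk p := by omega
    exact wall hR hD hW h hx hn (by rw [e, h.inv]; exact e1) hq (by rw [st2, e, h.inv]; exact hp)
  have e : 4 * (p / 4) + 2 = p := by omega
  obtain ⟨⟨o, r, hr, ho⟩, -⟩ := hR.run 3 3 (p / 4) (M.lk p / 4) (Or.inr rfl)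
    ⟨hD.al _ hp, by
      show M.lk (4 * (p / 4) + 2) = 4 * (M.lk p / 4) + 1
      rw [e]
      omega⟩
  have key : ∀ c, M.Run 3 2 (p / 4) c → M.Cap x 2 (p / 4) ∨ ∃ t, M.wk 3 (p / 4) t = c ∧
      (∀ s ≤ t, M.Dd x (M.wk 3 (p / 4) s)) ∧ M.Pa 2 c (p / 4) := by
    intro c hc
    induction hc with
    | refl => exact Or.inr ⟨0, rfl, fun s e => by rw [Nat.le_zero.1 e]; exact hp, Cm.Pa.refl _ _⟩
    | @tail c d _ hc ih =>
      rcases ih with k | ⟨t, t0, t1, t2⟩
      · exact Or.inl k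
      obtain ⟨rfl, hc⟩ := hc
      have dc : M.Dd x c := t0 ▸ t1 t le_rfl
      have a1 := ss3 c hc
      have a2 := h.par (4 * c + 3) (by rw [show (4 * c + 3) / 4 = c by omega]; exact hD.al _ dc)
      have a3 : 4 * M.st 3 c + 2 = M.lk (4 * c + 3) := by rw [FG0a.st3]; omega
      have a4 : M.st 2 (M.st 3 c) = c := by rw [st2, a3, h.inv]; omega
      have a5 : M.Pa 2 (M.st 3 c) (p / 4) := Cm.Pa.trans ⟨1, a4⟩ t2
      by_cases k : M.Dd x (M.st 3 c)
      · refine Or.inr ⟨t + 1, by rw [Cm.wk_succ, t0], fun s e => ?_, a5⟩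
        rcases Nat.lt_or_ge s (t + 1) with l | l
        · exact t1 s (by omega)
        · rw [show s = t + 1 by omega, Cm.wk_succ, t0]
          exact k
      · obtain ⟨c1, c2⟩ := wall hR hD hW h hx hn (g := M.st 3 c) (by rw [a3, h.inv]; omega) k
          (by rw [a4]; exact dc)
        exact Or.inl ⟨hK.rn_pa _ _ _ c1 a5, fun y hy => c2 y (a5.trans hy)⟩
  rcases key r hr with k | ⟨t, t0, t1, -⟩
  · exact k
  · have ho' : M.lk (4 * r + 3) = 4 * o + 0 := ho
    refine absurd (Or.inr (Or.inr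
      ⟨p / 4, t, by rw [e]; exact e2, by rw [st2, e]; exact hq, t1, ?_⟩)) hn
    rw [t0, ho']
    omega

end Pool.Agent.MP_1a6d78_lc.PG
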