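import Pool.Agent.MP_1a6d78_lc.PG.Defs

/-! PROJECT PG: walks and segments. -/

namespace Pool.Agent.MP_1a6d78_lc.PG

open Classical ED PR PL

theorem pt_div (c q : ℕ) : pt c q / 4 = c := by unfold pt; omega

theorem pt_mod (c q : ℕ) : pt c q % 4 = q % 4 := by unfold pt; omega

theorem pt_eta (p : ℕ) : pt (p / 4) p = p := by unfold pt; omega

theorem pick_spec {n : ℕ} {P : ℕ → Prop} (fl : Bool) (h : ∃ m < n, P m) :
    pick fl n P < n ∧ P (pick fl n P) ∧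
      ∀ m < n, P m → if fl then pick fl n P ≤ m else m ≤ pick fl n P := by
  cases fl
  · obtain ⟨m, h1, h2⟩ := h
    have e : ∀ m < n, n - 1 - (n - 1 - m) = m := fun m h => by omega
    obtain ⟨k1, k2⟩ := lst_spec (n := n) (P := fun i => P (n - 1 - i))
      ⟨n - 1 - m, by omega, by rw [e m h1]; exact h2⟩
    refine ⟨by simp only [pick]; simp; omega, k2, fun u u1 u2 => ?_⟩
    have := lst_le (n := n) (m := n - 1 - u) (P := fun i => P (n - 1 - i)) (by omega)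
      (by rw [e u u1]; exact u2)
    simp only [pick]
    simp
    omega
  · exact ⟨(lst_spec h).1, (lst_spec h).2, fun m h1 h2 => lst_le h1 h2⟩

namespace Cm

variable {M : Cm}

/-- `y` is on the segment. -/
def Mem (M : Cm) (A : Sg) (y : ℕ) : Prop := ∃ t ≤ M.ln A, M.el A t = y

/-- `y` and `y'` are on the segment, `y` not after `y'`. -/
def Bf (M : Cm) (A : Sg) (y y' : ℕ) : Prop :=
  ∃ s t, s ≤ t ∧ t ≤ M.ln A ∧ M.el A s = y ∧ M.el A t = y'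

/-- `Bf` for `fl = true`, the reverse order for `fl = false`. -/
def Bo (M : Cm) (fl : Bool) (A : Sg) (y y' : ℕ) : Prop := if fl then M.Bf A y y' else M.Bf A y' y

/-- `v` is the first (`fl`) or last cell of `A` with `I`, `n` if there is none. -/
def Ex (M : Cm) (fl : Bool) (A : Sg) (I : ℕ → Prop) (v : ℕ) : Prop :=
  (v = M.n ∧ ∀ u, ¬I u) ∨ (v < M.n ∧ I v ∧ ∀ u, I u → M.Bo fl A v u)

/-! ### Walks -/

theorem wk_zero (i c : ℕ) : M.wk i c 0 = c := rfl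

theorem wk_succ (i c t : ℕ) : M.wk i c (t + 1) = M.st i (M.wk i c t) :=
  Function.iterate_succ_apply' _ _ _

theorem wk_succ' (i c t : ℕ) : M.wk i c (t + 1) = M.wk i (M.st i c) t := rfl

theorem wk_add (i c s t : ℕ) : M.wk i c (s + t) = M.wk i (M.wk i c s) t := by
  unfold wk
  rw [add_comm, Function.iterate_add_apply]

theorem Ok.al_lk (h : M.Ok) {p : ℕ} (hp : M.al (p / 4)) : M.al (M.lk p / 4) := by
  by_contra k
  have e := (h.fix _).2 k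
  rw [h.inv] at e
  exact (h.fix p).1 e.symm hp

theorem Ok.al_st (h : M.Ok) (i : ℕ) {c : ℕ} (hc : M.al c) : M.al (M.st i c) :=
  h.al_lk (by rw [pt_div]; exact hc)

theorem Ok.al_wk (h : M.Ok) (i : ℕ) {c : ℕ} (hc : M.al c) (t : ℕ) : M.al (M.wk i c t) :=
  iter_inv (Q := M.al) (fun _ k => h.al_st i k) hc t

theorem Ok.st_dead (h : M.Ok) (i : ℕ) {c : ℕ} (hc : ¬M.al c) : M.st i c = c := by
  unfold st
  rw [(h.fix _).2 (by rw [pt_div]; exact hc), pt_div]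

theorem Ok.not_al_n (h : M.Ok) : ¬M.al M.n := fun k => lt_irrefl _ (h.lt _ k)

/-- The port reached by the step. -/
theorem Ok.lk_pt (h : M.Ok) {i c : ℕ} (hc : M.al c) :
    M.lk (pt c i) = pt (M.st i c) (ep i (M.ss i c)) := by
  have p := h.par (pt c i) (by rw [pt_div]; exact hc)
  unfold st ss ep sd
  unfold pt at *
  split_ifs <;> omega

theorem ss_cases (i c : ℕ) : M.ss i c = i % 4 ∨ M.ss i c = (i + 3) % 4 := by
  unfold ss sd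
  split_ifs <;> simp

/-- A step is determined by its end and its side. -/
theorem Ok.st_inj (h : M.Ok) {i a b : ℕ} (ha : M.al a) (hb : M.al b) (e1 : M.st i a = M.st i b)
    (e2 : M.ss i a = M.ss i b) : a = b := by
  have k : M.lk (pt a i) = M.lk (pt b i) := by rw [h.lk_pt ha, h.lk_pt hb, e1, e2]
  have := congrArg (fun p => M.lk p / 4) k
  simpa only [h.inv, pt_div] using this

theorem Pa.refl (i a : ℕ) : M.Pa i a a := ⟨0, rfl⟩

theorem Pa.trans {i a b c : ℕ} (h : M.Pa i a b) (k : M.Pa i b c) : M.Pa i a c := by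
  obtain ⟨s, rfl⟩ := h
  obtain ⟨t, rfl⟩ := k
  exact ⟨s + t, wk_add _ _ _ _⟩

theorem Pa.step (i a : ℕ) : M.Pa i a (M.st i a) := ⟨1, rfl⟩

theorem Pa.wk (i a t : ℕ) : M.Pa i a (M.wk i a t) := ⟨t, rfl⟩

theorem Pa.tot {i a b c : ℕ} (h : M.Pa i a b) (k : M.Pa i a c) : M.Pa i b c ∨ M.Pa i c b := by
  obtain ⟨s, rfl⟩ := h
  obtain ⟨t, rfl⟩ := k
  rcases le_total s t with u | u <;> obtain ⟨r, rfl⟩ := Nat.exists_eq_add_of_le u
  exacts [Or.inl ⟨r, (wk_add _ _ _ _).symm⟩, Or.inr ⟨r, (wk_add _ _ _ _).symm⟩]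

theorem Pa.cases {i a b : ℕ} (h : M.Pa i a b) : a = b ∨ M.Pa i (M.st i a) b := by
  obtain ⟨t, rfl⟩ := h
  cases t with
  | zero => exact Or.inl rfl
  | succ t => exact Or.inr ⟨t, rfl⟩

theorem Pa.al (h : M.Ok) {i a b : ℕ} (ha : M.al a) (k : M.Pa i a b) : M.al b := by
  obtain ⟨t, rfl⟩ := k
  exact h.al_wk i ha t

theorem Pa.bnd (h : M.Ok) {i a b : ℕ} (ha : M.al a) (k : M.Pa i a b) : ∃ t < M.n, M.wk i a t = b := by
  obtain ⟨t, e⟩ := k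
  exact iter_bnd' (Q := M.al) (fun _ k => h.al_st i k) h.lt ha e

theorem Per.st (h : M.Ok) {i c : ℕ} (k : M.Per i c) : M.Per i (M.st i c) := by
  obtain ⟨t, e⟩ := k.2
  exact ⟨h.al_st i k.1, t, by rw [← wk_succ', wk_succ, e]⟩

theorem Per.pa (h : M.Ok) {i c y : ℕ} (k : M.Per i c) (p : M.Pa i c y) : M.Per i y ∧ M.Pa i y c := by
  obtain ⟨t, rfl⟩ := p
  induction t with
  | zero => exact ⟨k, Pa.refl _ _⟩
  | succ t ih =>
    rw [wk_succ]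
    exact ⟨ih.1.st h, ih.1.2.trans ih.2⟩

theorem Co.refl (i a : ℕ) : M.Co i a a := ⟨a, Pa.refl _ _, Pa.refl _ _⟩

theorem Co.symm {i a b : ℕ} (h : M.Co i a b) : M.Co i b a :=
  let ⟨u, p, q⟩ := h; ⟨u, q, p⟩

theorem Co.trans {i a b c : ℕ} (h : M.Co i a b) (k : M.Co i b c) : M.Co i a c := by
  obtain ⟨u, p, q⟩ := h
  obtain ⟨v, r, s⟩ := k
  rcases q.tot r with w | w
  exacts [⟨v, p.trans w, s⟩, ⟨u, p, s.trans w⟩]

theorem Pa.co {i a b : ℕ} (h : M.Pa i a b) : M.Co i a b := ⟨b, h, Pa.refl _ _⟩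

/-- Every walk with the same end passes a periodic cell. -/
theorem Co.pa (h : M.Ok) {i a b : ℕ} (k : M.Co i a b) (p : M.Per i b) : M.Pa i a b :=
  let ⟨_, u, v⟩ := k; u.trans (p.pa h v).2

theorem Nm.pa_eq {En : ℕ → ℕ → ℕ} (h : M.Ok) (N : M.Nm En) {i a b : ℕ} (hi : i < 4) (ha : M.al a)
    (k : M.Pa i a b) : En i b = En i a := by
  obtain ⟨t, rfl⟩ := k
  induction t with
  | zero => rfl
  | succ t ih => rw [wk_succ, N.st i hi _ (h.al_wk i ha t), ih]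

theorem Nm.al {En : ℕ → ℕ → ℕ} (N : M.Nm En) {i a : ℕ} (hi : i < 4) (ha : M.al a) :
    M.al (En i a) := (N.per i hi a ha).1

theorem Nm.idem {En : ℕ → ℕ → ℕ} (h : M.Ok) (N : M.Nm En) {i a : ℕ} (hi : i < 4) (ha : M.al a) :
    En i (En i a) = En i a := N.pa_eq h hi ha (N.pa i hi a ha)

theorem Nm.co {En : ℕ → ℕ → ℕ} (h : M.Ok) (N : M.Nm En) {i a b : ℕ} (hi : i < 4) (ha : M.al a)
    (hb : M.al b) : En i a = En i b ↔ M.Co i a b :=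
  ⟨fun e => ⟨_, N.pa i hi a ha, e ▸ N.pa i hi b hb⟩,
    fun ⟨_, p, q⟩ => (N.pa_eq h hi ha p).symm.trans (N.pa_eq h hi hb q)⟩

/-- A periodic cell is entered by exactly one side. -/
theorem Per.kd (h : M.Ok) {i y : ℕ} (k : M.Per i y) : ∃ a, M.Kd i a y := by
  obtain ⟨t, e⟩ := k.2
  exact ⟨_, M.wk i y t, (k.pa h (Pa.wk _ _ _)).1, by rw [← wk_succ, wk_succ', e], rfl⟩

theorem Kd.per (h : M.Ok) {i a y : ℕ} (k : M.Kd i a y) : M.Per i y :=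
  let ⟨_, p, e, _⟩ := k; e ▸ p.st h

theorem Per.st_inj (h : M.Ok) {i u v : ℕ} (p : M.Per i u) (q : M.Per i v)
    (e : M.st i u = M.st i v) : u = v := by
  obtain ⟨s, hs⟩ := p.2
  obtain ⟨t, ht⟩ := q.2
  have per : ∀ {u s : ℕ}, M.wk i (M.st i u) s = u → ∀ k, M.wk i u (k * (s + 1)) = u := by
    intro u s hs k
    induction k with
    | zero => rw [zero_mul]; rfl
    | succ k ih => rw [add_mul, one_mul, wk_add, ih, wk_succ', hs]
  have a1 := per hs (t + 1)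
  have a2 := per ht (s + 1)
  rw [show (t + 1) * (s + 1) = (t * s + t + s) + 1 by ring, wk_succ', e] at a1
  rw [show (s + 1) * (t + 1) = (t * s + t + s) + 1 by ring, wk_succ'] at a2
  exact a1.symm.trans a2

theorem Kd.uniq (h : M.Ok) {i a b y : ℕ} (k : M.Kd i a y) (l : M.Kd i b y) : a = b := by
  obtain ⟨u, p, e, rfl⟩ := k
  obtain ⟨v, q, f, rfl⟩ := l
  rw [p.st_inj h q (e.trans f.symm)]

/-! ### The first passage by a side -/

theorem FE_le (h : M.Ok) (i c a : ℕ) : M.FE i c a = M.n ∨ M.al (M.FE i c a) := by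
  unfold FE
  split_ifs with k
  exacts [Or.inr (h.al_wk i k.1 _), Or.inl rfl]

theorem FE_dead {i c a : ℕ} (hc : ¬M.al c) : M.FE i c a = M.n := if_neg fun k => hc k.1

theorem FE_ex (h : M.Ok) {i c a t : ℕ} (hc : M.al c) (e : M.ss i (M.wk i c t) = a) :
    ∃ t < M.n, M.ss i (M.wk i c t) = a :=
  let ⟨s, s1, s2⟩ := (Pa.wk i c t).bnd h hc; ⟨s, s1, by rw [s2, e]⟩

theorem FE_none (h : M.Ok) {i c a : ℕ} (hc : M.al c) :
    M.FE i c a = M.n ↔ ∀ t, M.ss i (M.wk i c t) ≠ a := by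
  constructor
  · intro e t k
    have := h.lt _ (h.al_wk i hc (lst M.n (fun t => M.ss i (M.wk i c t) = a) + 1))
    rw [FE, if_pos ⟨hc, FE_ex h hc k⟩] at e
    omega
  · exact fun k => if_neg fun ⟨_, t, _, e⟩ => k t e

theorem FE_eq (h : M.Ok) {i c a t : ℕ} (hc : M.al c) (e : M.ss i (M.wk i c t) = a)
    (k : ∀ s < t, M.ss i (M.wk i c s) ≠ a) : M.FE i c a = M.wk i c (t + 1) := by
  have x := FE_ex h hc e
  obtain ⟨x1, x2⟩ := lst_spec x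
  rw [FE, if_pos ⟨hc, x⟩]
  have : lst M.n (fun t => M.ss i (M.wk i c t) = a) = t := by
    rcases lt_trichotomy (lst M.n fun t => M.ss i (M.wk i c t) = a) t with u | u | u
    · exact absurd x2 (k _ u)
    · exact u
    · exact absurd (lst_le (u.trans x1) e) (not_le.2 u)
  rw [this]

theorem FE_spec (h : M.Ok) {i c a : ℕ} (k : M.FE i c a < M.n) : M.al c ∧ ∃ t,
    M.FE i c a = M.wk i c (t + 1) ∧ M.ss i (M.wk i c t) = a ∧
      ∀ s < t, M.ss i (M.wk i c s) ≠ a := by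
  have hc : M.al c := by_contra fun u => by rw [FE_dead u] at k; exact lt_irrefl _ k
  have ex : ∃ t, M.ss i (M.wk i c t) = a := by_contra fun u =>
    k.ne ((FE_none h hc).2 fun t e => u ⟨t, e⟩)
  exact ⟨hc, Nat.find ex, FE_eq h hc (Nat.find_spec ex) fun _ => Nat.find_min ex,
    Nat.find_spec ex, fun _ => Nat.find_min ex⟩

/-! ### Segments -/

variable {A B : Sg}

theorem ln_spec (h : M.Ok) (k : M.ok A) :
    M.ln A < M.n ∧ M.el A (M.ln A) = A.q ∧ ∀ t < M.ln A, M.el A t ≠ A.q := by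
  obtain ⟨u1, u2⟩ := lst_spec (P := fun t => M.el A t = A.q) (k.2.2.bnd h k.2.1)
  exact ⟨u1, u2, fun t ht e => absurd (lst_le (P := fun t => M.el A t = A.q) (ht.trans u1) e)
    (not_le.2 ht)⟩

theorem ln_eq (h : M.Ok) (k : M.ok A) {l : ℕ} (e : M.el A l = A.q) (hl : ∀ t < l, M.el A t ≠ A.q) :
    M.ln A = l := by
  obtain ⟨-, u2, u3⟩ := ln_spec h k
  rcases lt_trichotomy (M.ln A) l with u | u | u
  exacts [absurd u2 (hl _ u), u, absurd e (u3 _ u)]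

theorem el_inj (h : M.Ok) (k : M.ok A) {s t : ℕ} (hs : s ≤ M.ln A) (ht : t ≤ M.ln A)
    (e : M.el A s = M.el A t) : s = t :=
  iter_first (ln_spec h k).2.1 (ln_spec h k).2.2 s hs t ht e

theorem el_al (h : M.Ok) (k : M.ok A) (t : ℕ) : M.al (M.el A t) := h.al_wk _ k.2.1 t

theorem sv_succ (A : Sg) (t : ℕ) : M.sv A (t + 1) = M.ss A.i (M.el A t) := rfl

theorem Ps.mem {y a : ℕ} (p : M.Ps A y a) : M.Mem A y := let ⟨t, u, v, _⟩ := p; ⟨t, u, v⟩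

theorem Mem.ps {y : ℕ} (p : M.Mem A y) : ∃ a, M.Ps A y a := let ⟨t, u, v⟩ := p; ⟨_, t, u, v, rfl⟩

theorem Mem.pa {y : ℕ} (p : M.Mem A y) : M.Pa A.i A.p y := let ⟨t, _, v⟩ := p; ⟨t, v⟩

theorem Mem.al (h : M.Ok) (k : M.ok A) {y : ℕ} (p : M.Mem A y) : M.al y := p.pa.al h k.2.1

theorem mem_p (A : Sg) : M.Mem A A.p := ⟨0, Nat.zero_le _, rfl⟩

theorem ps_p (A : Sg) : M.Ps A A.p A.s := ⟨0, Nat.zero_le _, rfl, rfl⟩

theorem mem_q (h : M.Ok) (k : M.ok A) : M.Mem A A.q := ⟨_, le_rfl, (ln_spec h k).2.1⟩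

theorem Ps.uniq (h : M.Ok) (k : M.ok A) {y a b : ℕ} (p : M.Ps A y a) (q : M.Ps A y b) : a = b := by
  obtain ⟨s, s1, s2, rfl⟩ := p
  obtain ⟨t, t1, t2, rfl⟩ := q
  rw [el_inj h k s1 t1 (s2.trans t2.symm)]

theorem Bf.left {y y' : ℕ} (b : M.Bf A y y') : M.Mem A y :=
  let ⟨s, _, u, v, e, _⟩ := b; ⟨s, u.trans v, e⟩

theorem Bf.right {y y' : ℕ} (b : M.Bf A y y') : M.Mem A y' :=
  let ⟨_, t, _, v, _, e⟩ := b; ⟨t, v, e⟩

theorem Bf.pa {y y' : ℕ} (b : M.Bf A y y') : M.Pa A.i y y' := by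
  obtain ⟨s, t, u, -, rfl, rfl⟩ := b
  obtain ⟨r, rfl⟩ := Nat.exists_eq_add_of_le u
  exact ⟨r, (wk_add _ _ _ _).symm⟩

theorem Mem.bf {y : ℕ} (p : M.Mem A y) : M.Bf A y y := let ⟨t, u, e⟩ := p; ⟨t, t, le_rfl, u, e, e⟩

theorem Mem.bf_p {y : ℕ} (p : M.Mem A y) : M.Bf A A.p y :=
  let ⟨t, u, e⟩ := p; ⟨0, t, Nat.zero_le _, u, rfl, e⟩

theorem Mem.bf_q (h : M.Ok) (k : M.ok A) {y : ℕ} (p : M.Mem A y) : M.Bf A y A.q :=
  let ⟨t, u, e⟩ := p; ⟨t, _, u, le_rfl, e, (ln_spec h k).2.1⟩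

theorem Mem.tot {y y' : ℕ} (p : M.Mem A y) (q : M.Mem A y') : M.Bf A y y' ∨ M.Bf A y' y := by
  obtain ⟨s, s1, s2⟩ := p
  obtain ⟨t, t1, t2⟩ := q
  rcases le_total s t with u | u
  exacts [Or.inl ⟨s, t, u, t1, s2, t2⟩, Or.inr ⟨t, s, u, s1, t2, s2⟩]

theorem Bf.anti (h : M.Ok) (k : M.ok A) {y y' : ℕ} (b : M.Bf A y y') (c : M.Bf A y' y) : y = y' := by
  obtain ⟨s, t, u, v, rfl, rfl⟩ := b
  obtain ⟨s', t', u', v', e1, e2⟩ := c
  have a1 := el_inj h k (u'.trans v') v e1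
  have a2 := el_inj h k v' (u.trans v) e2
  rw [show s = t by omega]

theorem Bf.trans (h : M.Ok) (k : M.ok A) {x y z : ℕ} (b : M.Bf A x y) (c : M.Bf A y z) :
    M.Bf A x z := by
  obtain ⟨s, t, u, v, rfl, rfl⟩ := b
  obtain ⟨s', t', u', v', e1, rfl⟩ := c
  have a1 := el_inj h k (u'.trans v') v e1
  exact ⟨s, t', by omega, v', rfl, rfl⟩

theorem Mem.bo (fl : Bool) {y : ℕ} (p : M.Mem A y) : M.Bo fl A y y := by
  cases fl <;> exact p.bf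

theorem Bo.left {fl : Bool} {y y' : ℕ} (b : M.Bo fl A y y') : M.Mem A y := by
  cases fl
  exacts [Bf.right b, Bf.left b]

theorem Bo.right {fl : Bool} {y y' : ℕ} (b : M.Bo fl A y y') : M.Mem A y' := by
  cases fl
  exacts [Bf.left b, Bf.right b]

theorem Mem.toto (fl : Bool) {y y' : ℕ} (p : M.Mem A y) (q : M.Mem A y') :
    M.Bo fl A y y' ∨ M.Bo fl A y' y := by
  cases fl
  exacts [q.tot p, p.tot q]

theorem Bo.anti (h : M.Ok) (k : M.ok A) {fl : Bool} {y y' : ℕ} (b : M.Bo fl A y y')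
    (c : M.Bo fl A y' y) : y = y' := by
  cases fl
  exacts [Bf.anti h k c b, Bf.anti h k b c]

theorem Bo.trans (h : M.Ok) (k : M.ok A) {fl : Bool} {x y z : ℕ} (b : M.Bo fl A x y)
    (c : M.Bo fl A y z) : M.Bo fl A x z := by
  cases fl
  exacts [Bf.trans h k c b, Bf.trans h k b c]

theorem Ex.uniq (h : M.Ok) (k : M.ok A) {fl : Bool} {I : ℕ → Prop} {v w : ℕ} (a : M.Ex fl A I v)
    (b : M.Ex fl A I w) : v = w := by
  rcases a with ⟨a1, a2⟩ | ⟨-, a2, a3⟩ <;> rcases b with ⟨b1, b2⟩ | ⟨-, b2, b3⟩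
  exacts [a1.trans b1.symm, absurd b2 (a2 _), absurd a2 (b2 _), (a3 _ b2).anti h k (b3 _ a2)]

theorem Ex.congr {fl : Bool} {I J : ℕ → Prop} {v : ℕ} (a : M.Ex fl A I v) (e : ∀ u, I u ↔ J u) :
    M.Ex fl A J v := (funext fun u => propext (e u) : I = J) ▸ a

theorem Ex.le {fl : Bool} {I : ℕ → Prop} {v : ℕ} (a : M.Ex fl A I v) : v ≤ M.n :=
  a.elim (fun k => k.1.le) fun k => k.1.le

theorem Ex.lt_iff {fl : Bool} {I : ℕ → Prop} {v : ℕ} (a : M.Ex fl A I v) : v < M.n ↔ ∃ u, I u :=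
  a.elim (fun k => ⟨fun c => absurd k.1 c.ne, fun ⟨u, c⟩ => absurd c (k.2 u)⟩)
    fun k => ⟨fun _ => ⟨v, k.2.1⟩, fun _ => k.1⟩

theorem Ex.of_lt {fl : Bool} {I : ℕ → Prop} {v : ℕ} (a : M.Ex fl A I v) (h : v < M.n) :
    I v ∧ ∀ u, I u → M.Bo fl A v u :=
  a.elim (fun k => absurd k.1 h.ne) fun k => k.2

theorem F_junk (fl : Bool) (a b : ℕ) (k : ¬(M.ok A ∧ M.ok B)) : M.F fl a b A B = M.n :=
  if_neg fun u => k ⟨u.1, u.2.1⟩

theorem F_spec (h : M.Ok) (fl : Bool) (a b : ℕ) (k : M.ok A) (l : M.ok B) :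
    M.Ex fl A (fun y => M.Ps A y a ∧ M.Ps B y b) (M.F fl a b A B) := by
  have n1 := (ln_spec h k).1
  unfold F
  split_ifs with u
  · obtain ⟨p1, p2, p3⟩ := pick_spec fl u.2.2
    refine Or.inr ⟨h.lt _ (el_al h k _), ⟨⟨_, p2.1, rfl, p2.2.1⟩, p2.2.2⟩, ?_⟩
    rintro y ⟨⟨t, t1, rfl, t3⟩, t4⟩
    have := p3 t (by omega) ⟨t1, t3, t4⟩
    cases fl
    exacts [⟨_, _, this, p2.1, rfl, rfl⟩, ⟨_, _, this, t1, rfl, rfl⟩]
  · refine Or.inl ⟨rfl, ?_⟩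
    rintro y ⟨⟨t, t1, rfl, t3⟩, t4⟩
    exact u ⟨k, l, t, by omega, t1, t3, t4⟩

theorem F_le (h : M.Ok) (fl : Bool) (a b : ℕ) (A B : Sg) : M.F fl a b A B ≤ M.n := by
  by_cases k : M.ok A ∧ M.ok B
  exacts [(F_spec h fl a b k.1 k.2).le, (F_junk fl a b k).le]

/-! ### Special segments -/

theorem one_ok {i y : ℕ} (s : ℕ) (hi : i < 4) (hy : M.al y) : M.ok ⟨i, y, s, y⟩ :=
  ⟨hi, hy, Pa.refl _ _⟩

theorem one_ps (h : M.Ok) {i y s : ℕ} (k : M.ok ⟨i, y, s, y⟩) (u a : ℕ) :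
    M.Ps ⟨i, y, s, y⟩ u a ↔ u = y ∧ a = s := by
  have e : M.ln ⟨i, y, s, y⟩ = 0 := ln_eq h k rfl fun _ k => absurd k (Nat.not_lt_zero _)
  constructor
  · rintro ⟨t, t1, rfl, rfl⟩
    rw [e, Nat.le_zero] at t1
    rw [t1]
    exact ⟨rfl, rfl⟩
  · rintro ⟨rfl, rfl⟩
    exact ps_p _

/-- Cut at the end. -/
theorem cutq (h : M.Ok) (k : M.ok A) {r : ℕ} (m : M.Mem A r) : M.ok ⟨A.i, A.p, A.s, r⟩ ∧
    (∀ y a, M.Ps ⟨A.i, A.p, A.s, r⟩ y a ↔ M.Ps A y a ∧ M.Bf A y r) ∧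
    ∀ y y', M.Bf ⟨A.i, A.p, A.s, r⟩ y y' ↔ M.Bf A y y' ∧ M.Bf A y' r := by
  have o : M.ok ⟨A.i, A.p, A.s, r⟩ := ⟨k.1, k.2.1, m.pa⟩
  obtain ⟨l, l1, rfl⟩ := m
  have e : M.ln ⟨A.i, A.p, A.s, M.el A l⟩ = l :=
    ln_eq h o rfl fun t ht c => ht.ne (el_inj h k (ht.le.trans l1) l1 c)
  refine ⟨o, fun y a => ⟨?_, ?_⟩, fun y y' => ⟨?_, ?_⟩⟩
  · rintro ⟨t, t1, rfl, rfl⟩
    rw [e] at t1
    exact ⟨⟨t, t1.trans l1, rfl, rfl⟩, t, l, t1, l1, rfl, rfl⟩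
  · rintro ⟨⟨t, t1, rfl, rfl⟩, s, s', u1, u2, u3, u4⟩
    have a1 := el_inj h k (u1.trans u2) t1 u3
    have a2 := el_inj h k u2 l1 u4
    exact ⟨t, by omega, rfl, rfl⟩
  · rintro ⟨s, t, u1, u2, rfl, rfl⟩
    rw [e] at u2
    exact ⟨⟨s, t, u1, u2.trans l1, rfl, rfl⟩, t, l, u2, l1, rfl, rfl⟩
  · rintro ⟨⟨s, t, u1, u2, rfl, rfl⟩, s', t', v1, v2, v3, v4⟩
    have a1 := el_inj h k (v1.trans v2) u2 v3
    have a2 := el_inj h k v2 l1 v4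
    exact ⟨s, t, u1, by omega, rfl, rfl⟩

/-- Cut at the start. -/
theorem cutp (h : M.Ok) (k : M.ok A) {r s : ℕ} (m : M.Ps A r s) : M.ok ⟨A.i, r, s, A.q⟩ ∧
    (∀ y a, M.Ps ⟨A.i, r, s, A.q⟩ y a ↔ M.Ps A y a ∧ M.Bf A r y) ∧
    ∀ y y', M.Bf ⟨A.i, r, s, A.q⟩ y y' ↔ M.Bf A y y' ∧ M.Bf A r y := by
  have o : M.ok ⟨A.i, r, s, A.q⟩ := ⟨k.1, m.mem.al h k, (m.mem.bf_q h k).pa⟩
  obtain ⟨l, l1, rfl, rfl⟩ := m
  have el : ∀ t, M.el ⟨A.i, M.el A l, M.sv A l, A.q⟩ t = M.el A (l + t) := fun t =>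
    (wk_add _ _ _ _).symm
  have sv : ∀ t, M.sv ⟨A.i, M.el A l, M.sv A l, A.q⟩ t = M.sv A (l + t) := fun t => by
    cases t with
    | zero => rfl
    | succ t => rw [sv_succ, el]; rfl
  have e : M.ln ⟨A.i, M.el A l, M.sv A l, A.q⟩ = M.ln A - l :=
    ln_eq h o (by rw [el, Nat.add_sub_cancel' l1]; exact (ln_spec h k).2.1) fun t ht => by
      rw [el]; exact (ln_spec h k).2.2 _ (by omega)
  refine ⟨o, fun y a => ⟨?_, ?_⟩, fun y y' => ⟨?_, ?_⟩⟩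
  · rintro ⟨t, t1, rfl, rfl⟩
    rw [e] at t1
    rw [el, sv]
    exact ⟨⟨l + t, by omega, rfl, rfl⟩, l, l + t, by omega, by omega, rfl, rfl⟩
  · rintro ⟨⟨t, t1, rfl, rfl⟩, s, s', u1, u2, u3, u4⟩
    have a1 := el_inj h k (u1.trans u2) l1 u3
    have a2 := el_inj h k u2 t1 u4
    exact ⟨t - l, by omega, by rw [el, show l + (t - l) = t by omega],
      by rw [sv, show l + (t - l) = t by omega]⟩
  · rintro ⟨s, t, u1, u2, rfl, rfl⟩
    rw [e] at u2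
    rw [el, el]
    exact ⟨⟨l + s, l + t, by omega, by omega, rfl, rfl⟩, l, l + s, by omega, by omega, rfl, rfl⟩
  · rintro ⟨⟨s, t, u1, u2, rfl, rfl⟩, s', t', v1, v2, v3, v4⟩
    have a1 := el_inj h k (v1.trans v2) l1 v3
    have a2 := el_inj h k v2 (u1.trans u2) v4
    exact ⟨s - l, t - l, by omega, by omega, by rw [el, show l + (s - l) = s by omega],
      by rw [el, show l + (t - l) = t by omega]⟩

/-- The cycle of `v`, from the cell after `v` to `v`. -/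
def rg (M : Cm) (i v : ℕ) : Sg := ⟨i, M.st i v, M.ss i v, v⟩

theorem rg_ok (h : M.Ok) {i v : ℕ} (hi : i < 4) (p : M.Per i v) : M.ok (M.rg i v) :=
  ⟨hi, h.al_st i p.1, p.2⟩

theorem rg_el (i v t : ℕ) : M.el (M.rg i v) t = M.wk i v (t + 1) := rfl

theorem rg_sv (i v t : ℕ) : M.sv (M.rg i v) t = M.ss i (M.wk i v t) := by
  cases t <;> rfl

theorem rg_ps (h : M.Ok) {i v : ℕ} (hi : i < 4) (p : M.Per i v) (y a : ℕ) :
    M.Ps (M.rg i v) y a ↔ M.Kd i a y ∧ M.Co i y v := by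
  have o := rg_ok h hi p
  constructor
  · rintro ⟨t, -, rfl, rfl⟩
    rw [rg_el, rg_sv]
    exact ⟨⟨_, (p.pa h (Pa.wk _ _ _)).1, (wk_succ _ _ _).symm, rfl⟩, (Pa.wk _ _ _).co.symm⟩
  · rintro ⟨k, c⟩
    have e : M.wk i v (M.ln (M.rg i v) + 1) = v := (ln_spec h o).2.1
    have all : ∀ t, ∃ s ≤ M.ln (M.rg i v), M.wk i v (s + 1) = M.wk i v t := fun t => by
      induction t with
      | zero => exact ⟨_, le_rfl, e⟩
      | succ t ih =>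
        obtain ⟨s, s1, s2⟩ := ih
        rcases s1.lt_or_eq with u | u
        · exact ⟨s + 1, u, by rw [wk_succ, s2, wk_succ]⟩
        · exact ⟨0, Nat.zero_le _, by rw [wk_succ _ _ t, ← s2, u, e]; rfl⟩
    obtain ⟨t, rfl⟩ := c.symm.pa h (k.per h)
    obtain ⟨s, s1, s2⟩ := all t
    refine ⟨s, s1, s2, ?_⟩
    rw [rg_sv]
    exact Kd.uniq h ⟨_, (p.pa h (Pa.wk _ _ _)).1, (wk_succ _ _ _).symm.trans s2, rfl⟩ k

/-- The path to a periodic cell and the cycle contain all the passages of the walk. -/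
theorem full_ps (h : M.Ok) {i p s v : ℕ} (hi : i < 4) (hp : M.al p) (k : M.Pa i p v)
    (q : M.Per i v) (y a : ℕ) : M.Ps ⟨i, p, s, v⟩ y a ∨ M.Ps (M.rg i v) y a ↔
      (y = p ∧ a = s) ∨ ∃ t, M.wk i p (t + 1) = y ∧ M.ss i (M.wk i p t) = a := by
  have o : M.ok ⟨i, p, s, v⟩ := ⟨hi, hp, k⟩
  have e : M.wk i p (M.ln ⟨i, p, s, v⟩) = v := (ln_spec h o).2.1
  constructor
  · rintro (⟨t, -, rfl, rfl⟩ | ⟨t, -, rfl, rfl⟩)
    · cases t with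
      | zero => exact Or.inl ⟨rfl, rfl⟩
      | succ t => exact Or.inr ⟨t, rfl, rfl⟩
    · exact Or.inr ⟨M.ln ⟨i, p, s, v⟩ + t, by rw [add_assoc, wk_add, e, rg_el],
        by rw [wk_add, e, rg_sv]⟩
  · rintro (⟨rfl, rfl⟩ | ⟨t, rfl, rfl⟩)
    · exact Or.inl (ps_p _)
    · rcases lt_or_ge t (M.ln ⟨i, p, s, v⟩) with u | u
      · exact Or.inl ⟨t + 1, u, rfl, rfl⟩
      · obtain ⟨r, rfl⟩ := Nat.exists_eq_add_of_le u
        refine Or.inr ((rg_ps h hi q _ _).2 ?_)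
        rw [add_assoc, wk_add, wk_add, e]
        exact ⟨⟨_, (q.pa h (Pa.wk _ _ _)).1, (wk_succ _ _ _).symm, rfl⟩, (Pa.wk _ _ _).co.symm⟩

end Cm

end Pool.Agent.MP_1a6d78_lc.PG
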