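import Pool.Agent.MP_1a6d78_lc.PG.Tw
import Pool.Agent.MP_1a6d78_lc.PG.Seg

/-! PROJECT PG: cuts, basins, progress.  Statements of the rows; hints: PSC1a6d78_FSPEC.md. -/

namespace Pool.Agent.MP_1a6d78_lc.PG

open Classical ED PR PL Relation

noncomputable section

namespace Cm

variable (M : Cm)

/-- `v` is on a limit cycle of type `t` with cells of both kinds. -/
def Rng (t v : ℕ) : Prop :=
  M.Per t v ∧ (∃ y, M.Pa t v y ∧ M.Kd t (t % 4) y) ∧ ∃ y, M.Pa t v y ∧ M.Kd t ((t + 3) % 4) y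

/-- The link at the port `p` is used by the `t`-walk of `v`. -/
def On (t v p : ℕ) : Prop :=
  (p % 4 = t % 4 ∧ M.Pa t v (p / 4)) ∨ (M.lk p % 4 = t % 4 ∧ M.Pa t v (M.lk p / 4))

/-- A piece of an `i`-walk that passes all cells after the first by the side `a`. -/
def Run (i a : ℕ) : ℕ → ℕ → Prop := ReflTransGen fun x y => y = M.st i x ∧ M.ss i x = a

def Cfg (i e a b : ℕ) : Prop := M.al a ∧ M.lk (pt a (i + e)) = pt b (i + 2)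

/-- The first cell that the `i`-walk of `a` enters by the port `i - e`. -/
def Fh (i e a h : ℕ) : Prop :=
  ∃ r, M.Run i (sd i (i + e)) a r ∧ M.lk (pt r i) = pt h (i + e + 2)

/-- The last cell of the run of type `i - e` from `b` that enters by the port `i + 2`. -/
def Lu (i e b u : ℕ) : Prop :=
  M.Run (i + e + 2) (sd (i + e + 2) (i + 2)) b u ∧ M.lk (pt u (i + e + 2)) % 4 = i % 4

def Clo (W : ℕ → Prop) : Prop := ∀ p, W (p / 4) → W (M.lk p / 4)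

def Cln (z : ℕ) (W : ℕ → Prop) : Prop := ¬W z ∧ ∀ p, M.Prb p → ¬W (p / 4)

/-- A piece of a wall: the cells passed by the side 2 are dead, the others are not. -/
def Seg (x : ℕ) : ℕ → ℕ → Prop :=
  ReflTransGen fun c d => d = M.st 2 c ∧ (M.ss 2 c = 2 ↔ M.Dd x d)

/-- A closed wall. -/
def Cap (x t v : ℕ) : Prop := M.Rng t v ∧ ∀ y, M.Pa t v y → (M.Dd x y ↔ M.Kd t 2 y)

/-- A system of whole rings. -/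
def Rs (R : ℕ → ℕ → Prop) : Prop := ∀ t y, R t y → t < 4 ∧ M.Rng t y ∧ R t (M.st t y)

def One (t v : ℕ) (t' y : ℕ) : Prop := t' = t ∧ M.Pa t v y

/-- The rings of type 0 of the cells with `R`. -/
def Zr (R : ℕ → Prop) (t y : ℕ) : Prop := t = 0 ∧ M.Per 0 y ∧ ∃ v, R v ∧ M.Co 0 y v

/-- `M'` comes from `M` by cutting the rings of the system `R`. -/
structure Cutx (M' : Cm) (R : ℕ → ℕ → Prop) : Prop where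
  n : M'.n = M.n
  inv : ∀ p, M'.lk (M'.lk p) = p
  ring : ∀ t y a, R t y → M.Kd t a y → M'.lk (pt y t) = pt (M.FE t y a) (ep t a)
  off : ∀ p, (¬∃ t a, R t (p / 4) ∧ M.Kd t a (p / 4) ∧ (p % 4 = t ∨ p % 4 = ep t a)) →
    M'.lk p = M.lk p
  sep : ∀ t y a, R t y → M.Kd t a y → ¬R (ep t a) y

/-- The `t`-walk of `v` does not run back along a ring of the system. -/
def Nb (R : ℕ → ℕ → Prop) (t v : ℕ) : Prop :=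
  ∀ y t' a, M.Pa t v y → R t' y → M.Kd t' a y → t ≠ ep t' a

/-- The label `x` is a corner of a ring of the system. -/
def Cor (R : ℕ → ℕ → Prop) (x : ℕ) : Prop := ∃ t, R t (x / 4) ∧ M.Kd t (x % 4) (x / 4)

/-- The test of the cut without the candidate. -/
def All (v : ℕ) : Prop :=
  ∀ p, M.Eg v p → (p % 4 = 0 ∧ M.Per 0 (p / 4) ∧ M.Co 0 (p / 4) v) ∨
    ∃ y, M.Pa 1 (p / 4) y ∧ M.Rc v 0 y

/-- The inner side of the ring is clean and the outer pole pays after the cut. -/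
def Pend (z v : ℕ) : Prop :=
  M.Rng 0 v ∧ ∃ (M' : Cm) (W : ℕ → Prop), M'.Ok ∧ M.Cutx M' (M.One 0 v) ∧ M'.Clo W ∧ M'.Cln z W ∧
    W (M.FE 0 v 3) ∧ M'.NT z (M.FE 0 v 0)

/-- Enough poles and rings that pay. -/
def Wit (z G : ℕ) : Prop :=
  ∃ A P : Finset (ℕ × ℕ), M.mu ≤ A.card + P.card + G ∧
    (∀ a ∈ A, a.1 < 4 ∧ (M.tw a.1).Top a.2 ∧ (M.tw a.1).NT z a.2) ∧
    (∀ a ∈ A, ∀ b ∈ A, a.1 = b.1 → (M.tw a.1).Rg (4 * a.2) (4 * b.2) → a = b) ∧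
    (∀ a ∈ P, a.1 < 8 ∧ (M.tw a.1).Pend z a.2) ∧
    ∀ a ∈ P, ∀ b ∈ P, a.1 = b.1 → (M.tw a.1).Co 0 a.2 b.2 → a = b

end Cm

/-! ### Kit -/

/-- WALK -/
structure WalkK (M : Cm) : Prop where
  lk_al : ∀ p, M.al (M.lk p / 4) ↔ M.al (p / 4)
  st_al : ∀ i c, M.al (M.st i c) ↔ M.al c
  pa_al : ∀ i a b, M.Pa i a b → (M.al b ↔ M.al a)
  ent : ∀ i c, M.al c → M.lk (pt c i) = pt (M.st i c) (ep i (M.ss i c))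
  back : ∀ i c, M.al c → M.st (ep i (M.ss i c)) (M.st i c) = c ∧
    M.lk (pt (M.st i c) (ep i (M.ss i c))) = pt c i
  ev : ∀ i c, M.al c → ∃ u, M.Pa i c u ∧ M.Per i u
  per_pa : ∀ i a b, M.Per i a → M.Pa i a b → M.Per i b ∧ M.Pa i b a
  per_inj : ∀ i a b, M.Per i a → M.Per i b → M.st i a = M.st i b → a = b
  kd_ex : ∀ i y, M.Per i y → M.Kd i (i % 4) y ∨ M.Kd i ((i + 3) % 4) y
  kd_per : ∀ i a y, M.Kd i a y → M.Per i y ∧ (a = i % 4 ∨ a = (i + 3) % 4)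
  kd_one : ∀ i a b y, M.Kd i a y → M.Kd i b y → a = b
  kd_iff : ∀ i a y, M.Kd i a y ↔ (a = i % 4 ∨ a = (i + 3) % 4) ∧
    M.lk (pt y (ep i a)) % 4 = i % 4 ∧ M.Per i (M.lk (pt y (ep i a)) / 4)
  co_trans : ∀ i a b c, M.Co i a b → M.Co i b c → M.Co i a c
  co_per : ∀ i a b, M.Per i b → (M.Co i a b ↔ M.Pa i a b)
  fe : ∀ i c a, M.FE i c a < M.n ↔ M.al c ∧ ∃ t, M.ss i (M.wk i c t) = a
  fe_spec : ∀ i c a, M.FE i c a < M.n → ∃ t, M.FE i c a = M.wk i c (t + 1) ∧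
    M.ss i (M.wk i c t) = a ∧ ∀ s < t, M.ss i (M.wk i c s) ≠ a
  fe_kd : ∀ i v y a, M.Per i v → M.Pa i v y → M.Kd i a y →
    M.FE i v a < M.n ∧ M.Pa i v (M.FE i v a) ∧ M.Kd i a (M.FE i v a)
  ring : ∀ v, M.Ring v ↔ M.Rng 0 v
  rn_pa : ∀ t v y, M.Rng t v → M.Pa t v y → M.Rng t y

def S_Walk : Prop := ∀ M : Cm, M.Ok → WalkK M

/-- REGION -/
structure RegK (M : Cm) : Prop where
  al : ∀ x y, M.Rg x y → (M.al (y / 4) ↔ M.al (x / 4))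
  par : ∀ x y, M.al (x / 4) → M.Rg x y → y % 2 = x % 2
  symm : ∀ x y, M.Rg x y → M.Rg y x
  inj : ∀ x y, M.nr x = M.nr y → x = y
  crit : ∀ x y, M.Rg x y → (M.Crit x ↔ M.Crit y)
  sad : ∀ x y, M.Rg x y → (M.Sad x ↔ M.Sad y)
  fw : ∀ p, M.Rg (r3 p) (M.lk p)
  bw : ∀ p, M.Rg (r3 (M.lk p)) p
  prb_lk : ∀ p, M.Prb (M.lk p) ↔ M.Prb p
  prb_up : ∀ p, M.lk p % 4 = (p + 1) % 4 → (M.Prb p ↔ M.al (p / 4) ∧ M.Sad (r3 p))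
  prb_dn : ∀ p, M.lk p % 4 = (p + 3) % 4 → (M.Prb p ↔ M.al (p / 4) ∧ M.Sad p)
  alt : ∀ x, M.al (x / 4) → ¬M.Crit x → ∀ q, q % 2 = x % 2 →
    ∃ y, M.Rg x y ∧ M.Alt y ∧ y % 4 = q % 4
  sad2 : ∀ x, M.al (x / 4) → M.Sad x → ∀ q, q % 2 = x % 2 →
    ∃ y y', M.Rg x y ∧ M.Rg x y' ∧ y ≠ y' ∧ M.Alt y ∧ M.Alt y' ∧ y % 4 = q % 4 ∧ y' % 4 = q % 4
  crit_typ : ∀ x y, M.Crit x → M.Rg x y → y % 4 = x % 4
  crit_kd : ∀ c a, a < 4 → M.al c → M.Crit (4 * c + a) → M.Kd a a c ∧ M.Kd (a + 1) a c ∧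
    ∀ y, (M.Rg (4 * c + a) (4 * y + a) ↔ M.Pa a c y) ∧
      (M.Rg (4 * c + a) (4 * y + a) ↔ M.Pa (a + 1) c y)
  kd_crit : ∀ i a c, (∀ y, M.Pa i c y → M.Kd i a y) → M.Crit (4 * c + a)
  run : ∀ i e a b, e = 1 ∨ e = 3 → M.Cfg i e a b → (∃ h, M.Fh i e a h) ∧ ∃ u, M.Lu i e b u
  flow : ∀ i e a b h u, e = 1 ∨ e = 3 → M.Cfg i e a b → M.Fh i e a h → M.Lu i e b u →
    (h ≠ u ↔ M.Prb (pt a (i + e))) ∧ (h ≠ u ↔ M.Prb (pt h (i + e + 2))) ∧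
      (h ≠ u ↔ M.Prb (pt u (i + e + 2)))

def S_Reg : Prop := ∀ M : Cm, M.Ok → RegK M

/-- DEAD -/
structure DeadK (M : Cm) (x : ℕ) : Prop where
  al : ∀ c, M.Dd x c → M.al c
  up : ∀ c, M.Dd x c → M.Dd x (M.st 0 c) ∧ M.Dd x (M.st 1 c)
  out : ∀ c d, M.Dd x c → M.Rg (4 * c) (4 * d) → M.Dd x d
  inc : ∀ c u, M.Dd x c → M.Rg (4 * c) (4 * u + 2) → M.Dd x u
  co : ∀ c, M.Dd x c → M.Pa 0 c x ∧ M.Pa 1 c x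
  cyc : ∀ c, M.Dd x c → ¬M.Kd 2 1 c ∧ ¬M.Kd 3 3 c ∧ ¬M.Kd 0 3 c ∧ ¬M.Kd 1 1 c ∧
    ¬M.Rng 0 c ∧ ¬M.Rng 1 c
  top1 : ∀ c, M.Dd x c → ∃ o o', M.Run 1 1 c o' ∧ M.lk (4 * o' + 1) = 4 * o ∧ M.Dd x o ∧
    M.Dd x o' ∧ M.Rg (4 * c + 1) (4 * o' + 1)
  top3 : ∀ c, M.Dd x c → ∃ o o', M.Run 0 3 c o ∧ M.lk (4 * o) = 4 * o' + 1 ∧ M.Dd x o ∧
    M.Dd x o' ∧ M.Rg (4 * c + 3) (4 * o' + 1)
  same : ∀ y, M.Rg (4 * x) (4 * y) →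
    M.Top y ∧ (∀ c, M.Dd y c ↔ M.Dd x c) ∧ ∀ z, M.NT z y ↔ M.NT z x

def S_Dead : Prop := ∀ M : Cm, M.Ok → ∀ x, M.Top x → DeadK M x

/-- FRAME -/
structure TwK (M : Cm) (g : ℕ) : Prop where
  ok : (M.tw g).Ok
  al : ∀ c, (M.tw g).al c ↔ M.al c
  cell : ∀ p, (M.tw g).lk p / 4 = M.lk (tp g p) / 4
  port : ∀ p, fp g ((M.tw g).lk p) = M.lk (tp g p) % 4
  st : ∀ i c, (M.tw g).st i c = M.st (fp g i) c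
  pa : ∀ i a b, (M.tw g).Pa i a b ↔ M.Pa (fp g i) a b
  per : ∀ i c, (M.tw g).Per i c ↔ M.Per (fp g i) c
  co : ∀ i a b, (M.tw g).Co i a b ↔ M.Co (fp g i) a b
  kd : ∀ i a y, a < 4 → ((M.tw g).Kd i a y ↔ M.Kd (fp g i) (fs g a) y)
  fe : ∀ i c a, a < 4 → (M.tw g).FE i c a = M.FE (fp g i) c (fs g a)
  rn : ∀ t v, (M.tw g).Rng t v ↔ M.Rng (fp g t) v
  rg : ∀ x y, (M.tw g).Rg x y ↔ M.Rg (Ct.ts g x) (Ct.ts g y)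
  crit : ∀ x, (M.tw g).Crit x ↔ M.Crit (Ct.ts g x)
  sad : ∀ x, (M.tw g).Sad x ↔ M.Sad (Ct.ts g x)
  prb : ∀ p, (M.tw g).Prb p ↔ M.Prb (tp g p)
  mu : (M.tw g).mu = M.mu
  clo : ∀ W, (M.tw g).Clo W ↔ M.Clo W
  cln : ∀ z W, (M.tw g).Cln z W ↔ M.Cln z W
  back : (M.tw g).tw (gi g) = M
  comp : ∀ h < 8, ∃ k < 8, (∀ q, fp k q = fp g (fp h q)) ∧ (∀ a, fs k a = fs g (fs h a)) ∧
    (k < 4 ↔ (g < 4 ↔ h < 4)) ∧ (M.tw g).tw h = M.tw k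

def S_Tw : Prop := ∀ M : Cm, M.Ok → ∀ g < 8, TwK M g

/-- MIRROR -/
def S_Mir : Prop := ∀ M : Cm, M.Ok → ∀ x, M.Top x →
  (M.tw 5).Top x ∧ (∀ c, (M.tw 5).Dd x c ↔ M.Dd x c) ∧ ∀ z, (M.tw 5).NT z x ↔ M.NT z x

/-- Cuts in another frame. -/
def S_TwC : Prop := ∀ (M M' : Cm) (R : ℕ → ℕ → Prop), M.Ok → M'.Ok → M.Rs R → M.Cutx M' R →
  ∀ g < 8, (M.tw g).Rs (fun t y => t < 4 ∧ R (fp g t) y) ∧
    (M.tw g).Cutx (M'.tw g) fun t y => t < 4 ∧ R (fp g t) y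

/-- The cut of the machine is a cut of a system; cuts of one ring exist. -/
def S_CutEx : Prop := ∀ M : Cm, M.Ok →
  (∀ (M' : Cm) (R : ℕ → Prop), (∀ v, R v → M.Ring v) →
    M.Rs (M.Zr R) ∧ (M.Cutm M' R ↔ M.Cutx M' (M.Zr R)) ∧ (M.Cutm M' R → M'.Ok)) ∧
  ∀ t < 4, ∀ v, M.Rng t v → M.Rs (M.One t v) ∧ ∃ M' : Cm, M'.Ok ∧ M.Cutx M' (M.One t v)

/-! ### The genus -/

/-- GCUT -/
def S_GCut : Prop := ∀ (M M' : Cm) (t v : ℕ), M.Ok → M'.Ok → t < 4 → M.Rng t v →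
  M.Cutx M' (M.One t v) → M'.gx ≤ M.gx

/-- BASE -/
def S_Base : Prop := ∀ M : Cm, M.Ok → ∀ z G : ℕ, M.gx ≤ G → ∃ S : Finset ℕ, M.mu ≤ S.card + G ∧
  (∀ x ∈ S, M.al (x / 4) ∧ M.Crit x ∧ ∀ W, M.Clo W → M.Cln z W → ¬W (x / 4)) ∧
    ∀ x ∈ S, ∀ y ∈ S, M.Rg x y → x = y

/-! ### Basins and walls -/

/-- BASIN -/
def S_Bas : Prop := ∀ M : Cm, M.Ok → ∀ (B : ℕ → Prop) (i e a b : ℕ), e = 1 ∨ e = 3 →
  (∀ c, B (M.st i c) ↔ B c) → M.Cfg i e a b → ¬M.Kd (i + 2) (sd (i + 2) (i + e + 2)) b →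
    ¬(B a ↔ B b) → ∃ e' a' b' h u, (e' = 1 ∨ e' = 3) ∧ M.Cfg i e' a' b' ∧ M.Pa (i + 2) b' b ∧
      M.Fh i e' a' h ∧ M.Lu i e' b' u ∧ ¬(B h ↔ B u) ∧ M.Prb (pt h (i + e' + 2)) ∧
        M.Prb (pt u (i + e' + 2))

/-- WALL -/
def S_Wall : Prop := ∀ M : Cm, M.Ok → ∀ x g, M.Top x → M.lk (4 * g + 2) % 4 = 3 → ¬M.Dd x g →
  M.Dd x (M.st 2 g) →
    (∃ w, M.Seg x w g ∧ ((¬M.Dd x w ∧ M.Prb (4 * w + 2) ∧ M.lk (4 * w + 2) % 4 = 3 ∧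
      M.Dd x (M.st 2 w)) ∨ (M.Dd x w ∧ M.Prb (4 * w + 3) ∧ M.lk (4 * w + 3) % 4 = 0 ∧
        ¬M.Dd x (M.st 3 w)))) ∨ M.Cap x 2 g

/-- The border of a kill that does not pay, walls of type 2. -/
def S_G0a : Prop := ∀ M : Cm, M.Ok → ∀ z x p, M.Top x → ¬M.NT z x → M.Dd x (p / 4) →
  ¬M.Dd x (M.lk p / 4) → (p % 4 = 3 → M.lk p % 4 = 2 → M.Cap x 2 (M.lk p / 4)) ∧
    (p % 4 = 2 → M.lk p % 4 = 1 → M.Cap x 2 (p / 4))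

/-- The border of a kill that does not pay. -/
def S_G0 : Prop := ∀ M : Cm, M.Ok → ∀ z x p, M.Top x → ¬M.NT z x → M.Dd x (p / 4) →
  ¬M.Dd x (M.lk p / 4) → ∃ t, (t = 2 ∨ t = 3) ∧
    ((p % 4 = t ∧ M.Cap x t (p / 4)) ∨ (M.lk p % 4 = t ∧ M.Cap x t (M.lk p / 4)))

def S_G1 : Prop := ∀ M : Cm, M.Ok → ∀ z x y, M.Top x → ¬M.NT z x → M.Dd x y →
  M.Crit (4 * y + 2) → M.Clo (M.Dd x)

/-- Probes and kills that pay. -/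
def S_PE : Prop := ∀ M : Cm, M.Ok → ∀ z x, M.Top x →
  (M.NT z x → M.Dd x z ∨ ∀ q, ∃ p, M.Prb p ∧ M.Dd x (p / 4) ∧ p % 2 = q % 2) ∧
  (¬M.NT z x → M.Clo (M.Dd x) → M.Cln z (M.Dd x)) ∧
  ∀ W, M.Clo W → M.Cln z W → W x → ¬M.NT z x

/-! ### Cuts -/

/-- Walks after a cut. -/
structure CutWK (M M' : Cm) (R : ℕ → ℕ → Prop) : Prop where
  al : ∀ c, M'.al c ↔ M.al c
  keep : ∀ t < 4, ∀ v, M.Rng t v → ¬R t v ∧ M.Nb R t v → M'.Rng t v ∧ (∀ p, M.On t v p → M'.lk p = M.lk p) ∧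
    (∀ y, M'.Pa t v y ↔ M.Pa t v y) ∧ (∀ a, M'.Kd t a v ↔ M.Kd t a v) ∧
      ∀ a, M'.FE t v a = M.FE t v a
  lift : ∀ t < 4, ∀ v, M'.Rng t v → M.Rng t v ∧ ¬R t v ∧ M.Nb R t v
  twin : ∀ t a y, R t y → M.Kd t a y → M'.Kd t a y ∧ M'.Kd (ep t a) a y ∧
    ∀ u, (M'.Pa t y u ↔ M.Pa t y u ∧ M.Kd t a u) ∧ (M'.Pa (ep t a) y u ↔ M.Pa t y u ∧ M.Kd t a u)
  typ : ∀ p, ¬R (p % 4) (p / 4) → M'.lk p % 4 = M.lk p % 4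
  walk : ∀ i c y, M'.Pa i c y → M.Pa i c y ∨ ∃ u t a, M.Pa i c u ∧ M'.Pa i c u ∧ R t u ∧
    M.Kd t a u ∧ (i % 4 = t ∨ i % 4 = ep t a)
  walk' : ∀ i c y, M.Pa i c y → M'.Pa i c y ∨ ∃ u t a, M.Pa i c u ∧ M'.Pa i c u ∧ R t u ∧
    M.Kd t a u ∧ (i % 4 = t ∨ i % 4 = ep t a)

def S_CutW : Prop := ∀ (M M' : Cm) (R : ℕ → ℕ → Prop), M.Ok → M'.Ok → M.Rs R → M.Cutx M' R →
  CutWK M M' R

/-- One step along a region after a cut. -/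
def S_CutN : Prop := ∀ (M M' : Cm) (R : ℕ → ℕ → Prop), M.Ok → M'.Ok → M.Rs R → M.Cutx M' R →
  ∀ x, ¬M.Cor R x → ∃ k, 0 < k ∧ M'.nr x = M.nr^[k] x ∧ ¬M.Cor R (M'.nr x) ∧
    (∀ s, 0 < s → s < k → M.Cor R (M.nr^[s] x)) ∧
    (1 < k → M'.Alt x ∧ ∃ s < k, M.Alt (M.nr^[s] x) ∧ M.nr^[s] x % 4 = x % 4 ∧
      ∀ s' < k, M.Alt (M.nr^[s'] x) → s' = s)

/-- Regions after a cut. -/
structure CutRK (M M' : Cm) (R : ℕ → ℕ → Prop) : Prop where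
  rg : ∀ x y, ¬M.Cor R x → (M'.Rg x y ↔ M.Rg x y ∧ ¬M.Cor R y)
  cor : ∀ t a y, R t y → M.Kd t a y → M'.Crit (4 * y + a) ∧ ¬M.Crit (4 * y + a) ∧
    ∀ x, M'.Rg (4 * y + a) x ↔ x % 4 = a ∧ M.Pa t y (x / 4) ∧ M.Kd t a (x / 4)
  ex : ∀ x, ∃ y, M.Rg x y ∧ ¬M.Cor R y
  crit : ∀ x, ¬M.Cor R x → (M'.Crit x ↔ M.Crit x)
  sad : ∀ x, ¬M.Cor R x → (M'.Sad x ↔ M.Sad x)
  prb : ∀ p, ¬R (p % 4) (p / 4) → (M'.Prb p ↔ M.Prb p)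
  mu : M'.mu = M.mu

def S_CutR : Prop := ∀ (M M' : Cm) (R : ℕ → ℕ → Prop), M.Ok → M'.Ok → M.Rs R → M.Cutx M' R →
  CutRK M M' R

/-- CS -/
def S_CS : Prop := ∀ (M M' : Cm) (R : ℕ → ℕ → Prop), M.Ok → M'.Ok → M.Rs R → M.Cutx M' R →
  ∀ x, M.Top x → M'.Top x ∧ (∀ c, M'.Dd x c ↔ M.Dd x c) ∧ ∀ z, M'.NT z x ↔ M.NT z x

/-- Cuts one after the other. -/
def S_Cmp : Prop := ∀ (M M1 M2 : Cm) (R R' : ℕ → ℕ → Prop), M.Ok → M1.Ok → M2.Ok → M.Rs R →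
  M.Cutx M1 R →
    (M1.Rs R' → M1.Cutx M2 R' →
      M.Rs R' ∧ (∀ t y, R' t y → ¬R t y) ∧ M.Cutx M2 fun t y => R t y ∨ R' t y) ∧
    (M.Rs R' → (∀ t y, R t y → R' t y) → M.Cutx M2 R' →
      M1.Rs (fun t y => R' t y ∧ ¬R t y) ∧ M1.Cutx M2 fun t y => R' t y ∧ ¬R t y)

/-- OMEGA: what the test of the cut gives. -/
def S_Om : Prop := ∀ M : Cm, M.Ok → ∀ v, M.Ring v → M.All v →
  (∀ u, M.Pa 1 (M.FE 0 v 3) u → ¬M.Rc v 0 u) →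
  (∀ c y, M.Pa 3 c y → M.Rc v 3 y → M.Co 1 c (M.FE 0 v 3) ∧ ∀ u, M.Pa 1 c u → ¬M.Rc v 0 u) ∧
  (∀ y, M.Rc v 0 y → M.Co 1 y (M.FE 0 v 3)) ∧ (∀ y, M.Rc v 3 y → ¬M.Prb (4 * y + 3)) ∧
  ∀ p y, M.Prb p → p % 2 = 0 → M.Pa 3 (p / 4) y → M.Rc v 3 y →
    p % 4 = 0 ∧ M.Rc v 3 (p / 4) ∧ M.Rc v 0 (M.lk p / 4)

def S_PC : Prop := ∀ M : Cm, M.Ok → ∀ z v, M.Pend z v → M.Cond z v

def S_PInj : Prop := ∀ M : Cm, M.Ok → ∀ z v v', M.Pend z v → M.Pend z v' →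
  M.Co 1 (M.FE 0 v 3) (M.FE 0 v' 3) → M.Co 0 v v'

/-- A ring that pays after the cut of a clean ring pays before. -/
def S_PT : Prop := ∀ (M M1 : Cm) (D : ℕ → Prop) (z t v v' : ℕ), M.Ok → M1.Ok → t < 4 →
  M.Rng t v → M.Cutx M1 (M.One t v) → M1.Clo D → M1.Cln z D → (∃ y, M.Pa t v y ∧ D y) →
    M1.Pend z v' → M.Pend z v'

def S_Step : Prop := ∀ (M M1 : Cm) (D : ℕ → Prop) (z G t v : ℕ), M.Ok → M1.Ok → t < 4 →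
  M.Rng t v → M.Cutx M1 (M.One t v) → M1.Clo D → M1.Cln z D → (∃ y, M.Pa t v y ∧ D y) →
    M1.Wit z G → M.Wit z G

/-- ACT -/
def S_Act : Prop := ∀ M : Cm, M.Ok → ∀ z G : ℕ, M.gx ≤ G → M.Wit z G

/-- PROG -/
def S_Prog : Prop := ∀ M : Cm, M.Ok → ∀ z G : ℕ, M.gx ≤ G → ∃ g < 8, ∃ Y : ℕ → Prop,
  M.mu ≤ 12 * cnt M.n Y + G ∧
    (((∀ x, Y x → (M.tw g).Top x ∧ (M.tw g).NT z x) ∧
      ∀ x y, Y x → Y y → (M.tw g).Rg (4 * x) (4 * y) → x = y) ∨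
    ((∀ v, Y v → (M.tw g).Cond z v) ∧
      (∀ v v', Y v → Y v' → (M.tw g).Co 0 v v' → v = v') ∧
      (∀ v v', Y v → Y v' → (M.tw g).Co 1 ((M.tw g).FE 0 v 3) ((M.tw g).FE 0 v' 3) → v = v') ∧
      ∀ (N' : Cm) (R : ℕ → Prop), (∀ v, R v → (M.tw g).Ring v) → (M.tw g).Cutm N' R →
        (∀ v v', Y v → R v' → (M.tw g).Co 0 v v' →
          N'.Top ((M.tw g).FE 0 v 0) ∧ N'.NT z ((M.tw g).FE 0 v 0)) ∧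
        ∀ v w v' w', Y v → Y w → R v' → R w' → (M.tw g).Co 0 v v' → (M.tw g).Co 0 w w' →
          N'.Rg (4 * (M.tw g).FE 0 v 0) (4 * (M.tw g).FE 0 w 0) → v = w))

end

end Pool.Agent.MP_1a6d78_lc.PG
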