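import Pool.Agent.MP_1a6d78_lc.PG.Alg
import Pool.Agent.MP_1a6d78_lc.PG.Cert

/-! PROJECT PG: the meaning of the primitives, the hypotheses of a round. -/

namespace Pool.Agent.MP_1a6d78_lc.PG

open Classical ED PR GL

noncomputable section

/-- A path of the `i`-walk on which all passages are by the side `a`. -/
def Cm.Ti (M : Cm) (i a u v : ℕ) : Prop :=
  ∃ t, M.wk i u t = v ∧ ∀ s < t, M.ss i (M.wk i u s) = a

/-- The other side of the type `i < 4`. -/
def os (i a : ℕ) : ℕ := if a = i then (i + 3) % 4 else i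

structure Geo (M : Cm) (P : Pr) : Prop where
  al : P.al = M.al
  lam : ∀ p, P.lam p = if M.al (p / 4) then M.lk p else 4 * M.n
  nm : M.Nm P.En
  FE : ∀ i < 4, ∀ a < 4, ∀ c, P.FE i c a = M.FE i c a
  F : M.GF P.F

/-- The hypotheses of a round. -/
structure Rn.Hy (K : Rn) (M : Cm) : Prop where
  ok : M.Ok
  n : K.n = M.n
  geo : Geo M K.P
  le : ∀ i y t, K.ent i y t ≤ 4 * M.n
  val : ∀ i < 4, ∀ y t, M.al y → K.P.En i y = y → K.ent i y t < 4 * M.n →
    M.Prb (K.ent i y t) ∧ (K.ent i y t + i) % 2 = 1 ∧ K.P.En i (K.ent i y t / 4) = y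
  ex : ∀ i < 4, ∀ p, M.Prb p → (p + i) % 2 = 1 → K.short i (K.P.En i (p / 4)) →
    ∃ t < K.c, K.ent i (K.P.En i (p / 4)) t = p
  cur : ∀ e, K.P.val e → K.P.cur e ≠ 0

end

end Pool.Agent.MP_1a6d78_lc.PG
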