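import Pool.Agent.MP_1a6d78_lc.PG.Spec

/-! PROJECT PG, row ANC: anchors and candidates. -/

namespace Pool.Agent.MP_1a6d78_lc.PG

open Classical ED PR GL Relation Cm

namespace KAnc

variable {Z : Ks} {i x e c p : ℕ}

theorem al_of (G : Z.G1) (h : Z.M'.al c) : Z.M.al c := ((G.hy.smo.al c).1 h).1

theorem dead_of (G : Z.G1) (h : Z.M.al c) (k : ¬Z.M'.al c) : ∃ y, Z.X y ∧ Z.M.Dd y c := by
  by_contra n
  exact k ((G.hy.smo.al c).2 ⟨h, n⟩)

theorem same (G : Z.G1) (h : Z.M'.al c) (k : Z.M'.al (Z.M.st i c)) :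
    Z.M'.lk (pt c i) = Z.M.lk (pt c i) := G.smo.same (by rwa [pt_div]) k

/-- The next cell is dead: it dies with `x`. -/
theorem dd_st (G : Z.G1) (hi : i < 2) (hx : Z.X x) (h : Z.M'.al c) (k : Z.M.Co i c x)
    (n : ¬Z.M'.al (Z.M.st i c)) : Z.M.Dd x (Z.M.st i c) := by
  obtain ⟨y, hy, d⟩ := dead_of G (G.hy.ok.al_st i (al_of G h)) n
  rwa [G.dead.uniq hx hy hi k ((Pa.step i c).trans (G.dead.pa hy hi d)).co]

theorem par (G : Z.G1) (h : Z.M'.al c) : (Z.M'.lk (pt c i) + i) % 2 = 1 := by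
  have := G.hy.ok'.par (pt c i) (by rwa [pt_div])
  have := pt_mod c i
  omega

/-- A listed port and a cell for the ascent. -/
def Fd (Z : Ks) (i x : ℕ) : Prop := ∃ q v, Z.M.Lsd x q ∧ (q + (2 + i)) % 2 = 1 ∧ Z.M.al v ∧
  Z.M.Co i v x ∧ Z.M.Co (2 + i) v (q / 4)

theorem hstep (G : Z.G1) (hi : i < 2) (hx : Z.X x) (h : Z.M'.al c) (k : Z.M.Hug i x c) :
    Fd Z i x ∨ (Z.M'.ss i c = hs i ∧ Z.M.Hug i x (Z.M'.st i c)) := by
  by_cases n : Z.M'.al (Z.M.st i c)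
  · have s := same G h n
    obtain ⟨d, ⟨t, t1, t2⟩, hd⟩ := k
    cases t with
    | zero => exact absurd ⟨x, hx, (show c = d from t1) ▸ hd⟩ ((G.hy.smo.al c).1 h).2
    | succ t =>
      refine Or.inr ⟨?_, d, ⟨t, ?_, fun r hr => ?_⟩, hd⟩
      · unfold Cm.ss
        rw [s]
        exact t2 0 (Nat.succ_pos t)
      · unfold Cm.st
        rw [s]
        exact t1
      · unfold Cm.st
        rw [s]
        exact t2 (r + 1) (Nat.succ_lt_succ hr)
  · obtain ⟨⟨d, hd, l⟩, m⟩ := G.run.gcase hi hx h (dd_st G hi hx h (G.dead.hug hx hi k).co n)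
    refine m.imp_left fun m => ⟨_, d, m, ?_, Ct.dd_al G.hy.ok (G.hy.fam.top x hx).1 hd,
      (G.dead.pa hx hi hd).co, ?_⟩
    · have := par (i := i) G h
      omega
    · rw [← l]
      exact (Pa.step (2 + i) d).co

theorem hwalk (G : Z.G1) (hi : i < 2) (hx : Z.X x) (h : Z.M'.al c) (k : Z.M.Hug i x c) (t : ℕ) :
    Fd Z i x ∨ Z.M.Hug i x (Z.M'.wk i c t) := by
  induction t with
  | zero => exact Or.inr k
  | succ t ih =>
    refine ih.elim Or.inl fun a => ?_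
    rw [wk_succ]
    exact (hstep G hi hx (G.hy.ok'.al_wk i h t) a).imp_right And.right

theorem lv_wk (G : Z.G1) {w : ℕ} (hw : w = 2 ∨ w = 3) (h : Z.M.Lv Z.M' e) (t : ℕ) :
    Z.M.Lv Z.M' (Z.M.wk w e t) := by
  induction t with
  | zero => exact h
  | succ t ih => rw [wk_succ]; exact (G.dead.lvst hw ih).1

/-- The two kinds of new saddle links. -/
theorem split (G : Z.G1) (V : Z.ValK) {w : ℕ} (hw : w = 2 ∨ w = 3) (hx : Z.X x)
    (a : Z.M'.Prb (pt e w)) (s : Z.M.ss w e = 2) (k : Z.M.Hug (3 - w) x e) :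
    Z.M'.ss w e = 2 ∨ ∃ d, Z.M.Dd x d ∧ Z.M.Prb (pt d w) ∧
      Z.M'.lk (pt e w) = Z.M.lk (pt d w) := by
  have w4 : w < 4 := by omega
  obtain ⟨he, sad⟩ := (G.hy.fl'.psad w w4 e).1 a
  have he0 := al_of G he
  have lv := G.dead.lv he
  obtain ⟨t, nt⟩ := G.smo.ex hw lv
  have l := G.smo.dn hw he nt
  have ss : Z.M'.ss w e = Z.M.ss w (Z.M.wk w e t) := by
    unfold Cm.ss
    rw [l]
  by_cases c : Z.M'.ss w e = 2
  · exact Or.inl c
  have o : os w (Z.M'.ss w e) = 2 := by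
    have := Z.M'.ss_cases w e
    unfold os
    split_ifs <;> omega
  refine Or.inr ⟨_, ?_, ?_, l⟩
  · cases t with
    | zero => exact absurd (ss.trans s) c
    | succ t =>
      obtain ⟨y, hy, d⟩ := dead_of G (G.hy.ok.al_st w he0) (nt.1 0 (Nat.succ_pos t))
      obtain rfl := (G.run.cross hw hx he0 k s).2 y hy (G.dead.pa hy (by omega) d).co
      exact G.run.run hw hx d (G.dead.lvst hw lv).1
        ⟨fun r hr => nt.1 (r + 1) (Nat.succ_lt_succ hr), nt.2⟩ t le_rfl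
  · refine (G.hy.fl.psad w w4 _).2 ⟨G.hy.ok.al_wk w he0 t, ?_⟩
    rw [← ss, o]
    rw [o] at sad
    have rg : ∀ r ≤ t, Z.M.Rg (pt (Z.M.wk w e r) 2) (pt e 2) := by
      intro r hr
      induction r with
      | zero => exact Ct.rg_refl _ _
      | succ r ih =>
        have s2 : Z.M.ss w (Z.M.wk w e r) = 2 := by
          by_contra n
          exact nt.1 r hr (by rw [wk_succ]; exact (G.dead.lvst hw (lv_wk G hw lv r)).2 n)
        have := G.hy.fl.rg1 w w4 _ (G.hy.ok.al_wk w he0 r)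
        rw [s2, ← wk_succ] at this
        exact Ct.rg_trans (Ct.rg_symm G.hy.ok this) (ih (by omega))
    obtain ⟨y, y', h1, h2, h3⟩ := V.sad (by rwa [pt_div]) (by unfold pt; omega) sad
    exact ⟨y, y', Ct.rg_trans (rg t le_rfl) h1, Ct.rg_trans (rg t le_rfl) h2, h3⟩

theorem pre (G : Z.G1) (V : Z.ValK) (a : Z.M'.Prb p) (n : ¬Z.M.Prb p) (hx : Z.X x)
    (k : Z.M.Co ((p + 1) % 2) (p / 4) x) : ∃ i e, i < 2 ∧ p = pt e (3 - i) ∧ (p + 1) % 2 = i ∧
      p / 4 = e ∧ Z.M.Hug i x e ∧ (Z.M'.ss (3 - i) e = 2 ∨ ∃ d, Z.M.Dd x d ∧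
        Z.M.Lsd x (pt d (3 - i)) ∧ Z.M'.lk p = Z.M.lk (pt d (3 - i))) := by
  obtain ⟨y, hy, m, s, g⟩ := V.val a n
  have hi : (p + 1) % 2 < 2 := by omega
  obtain rfl := G.dead.uniq hx hy hi k (G.dead.hug hy hi g).co
  have ep : p = pt (p / 4) (3 - (p + 1) % 2) := by unfold pt; omega
  refine ⟨_, _, hi, ep, rfl, rfl, g, ?_⟩
  rw [m] at s
  generalize (p + 1) % 2 = i at *
  generalize p / 4 = e at *
  subst ep
  refine (split G V (by omega) hx a s (by rwa [show 3 - (3 - i) = i by omega])).imp_right ?_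
  rintro ⟨d, h1, h2, h3⟩
  refine ⟨d, h1, ⟨h2, Or.inl ?_⟩, h3⟩
  rw [pt_div, show (pt d (3 - i) + 1) % 2 = i by unfold pt; omega]
  exact (G.dead.pa hx hi h1).co

end KAnc

open KAnc in
theorem ancS : AncS := by
  intro Z G V
  refine ⟨fun {p x} a n hx k => ?_, fun {i c y x} hi hx hc k hp n => ?_,
    fun {p x} a hx k => ?_⟩
  · have he := a.1
    obtain ⟨i, e, hi, ep, e1, e2, g, m⟩ := pre G V a n hx k
    rw [e2] at he
    rw [e1, e2] at k ⊢
    have fd : Fd Z i x := by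
      rcases m with m | ⟨d, h1, h2, -⟩
      · obtain ⟨u, ⟨t, t1, -⟩, t2, -⟩ := G.hy.fl'.bk (3 - i) (by omega) e he
        have o : os (3 - i) 2 = hs i ∧ PG.ep (3 - i) (hs i) = i := by
          obtain rfl | rfl : i = 0 ∨ i = 1 := by omega
          all_goals decide
        rw [m, o.1, o.2] at t1 t2
        refine (hwalk G hi hx he g t).elim id fun b => ?_
        rw [t1] at b
        exact (hstep G hi hx (t1 ▸ G.hy.ok'.al_wk i he t) b).elim id fun b => absurd b.1 t2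
      · exact ⟨_, d, h2, by unfold pt; omega, Ct.dd_al G.hy.ok (G.hy.fam.top x hx).1 h1,
          (G.dead.pa hx hi h1).co, by rw [pt_div]; exact Co.refl _ _⟩
    obtain ⟨q, v, h1, h2, h3, h4, h5⟩ := fd
    have e3 : 2 + i - 2 = i := by omega
    obtain ⟨q', h6, h7, h8⟩ := G.asc.two (w := 2 + i) (c := e) (by omega) hx (al_of G he)
      (by rwa [e3]) h1 h2 h3 (by rwa [e3]) h5
    exact ⟨q', h6, by omega, h8⟩
  · obtain ⟨t, ht⟩ := hp
    induction t generalizing c with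
    | zero => exact absurd ((show c = y from ht) ▸ k) n
    | succ t ih =>
      have hg := G.hy.ok'.al_st i hc
      by_cases b : Z.M.Co i (Z.M'.st i c) x
      · exact ih hg b ht
      have nd : ¬Z.M'.al (Z.M.st i c) := fun d => b (by
        unfold Cm.st
        rw [same G hc d]
        exact (Pa.step i c).co.symm.trans k)
      refine ⟨Z.M'.lk (pt c i), (G.run.gcase hi hx hc (dd_st G hi hx hc k nd)).2.resolve_right
        fun d => b (G.dead.hug hx hi d.2).co, par G hc, Pa.co ⟨t, ?_⟩⟩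
      exact (G.smo.free hi (al_of G hg)
        (fun z hz d => b (G.run.inv hi hx hz hc k d ▸ d)) t).2.1.symm.trans ht
  · have he := a.1
    by_cases n : Z.M.Prb p
    · exact ⟨_, Or.inl ⟨p, ⟨n, Or.inl k⟩, rfl⟩, he, Or.inl rfl⟩
    have hl := G.hy.ok'.al_lk he
    obtain ⟨i, e, hi, ep, e1, e2, g, m⟩ := pre G V a n hx k
    rw [e2] at he
    rcases m with m | ⟨d, -, h2, h3⟩
    · obtain ⟨b, h1, h2, t, t1, t2⟩ := G.wall.one hi hx he g
      refine ⟨b, h1, h2, Or.inr (Or.inr ⟨3 - i, by omega, ?_⟩)⟩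
      rw [FE_eq G.hy.ok' h2 (t := t) (by rw [t1, m]) fun s hs' => by
        rw [t2 s hs']; unfold hs; split_ifs <;> omega, wk_succ, t1, ep, G.hy.ok'.lk_pt he, m]
    · refine ⟨_, Or.inl ⟨Z.M'.lk p, ?_, rfl⟩, hl, Or.inr (Or.inl rfl)⟩
      rw [h3]
      refine ⟨(G.hy.fl.plk _).2 h2.1, ?_⟩
      rw [G.hy.ok.inv]
      exact h2.2.symm

end Pool.Agent.MP_1a6d78_lc.PG
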