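import Pool.Agent.MP_1a6d78_lc.PG.Spec

/-! PROJECT PG, row ASC. -/

namespace Pool.Agent.MP_1a6d78_lc.PG

open Classical ED PR GL Relation

noncomputable section

namespace Asc

open Cm

variable {M : Cm} {Z : Ks} {k x c : ℕ}

theorem chg {χ : ℕ → Prop} {u t : ℕ} (h : ¬(χ u ↔ χ (M.wk k u t))) :
    ∃ s < t, ¬(χ (M.wk k u s) ↔ χ (M.st k (M.wk k u s))) ∧
      M.Pa k (M.st k (M.wk k u s)) (M.wk k u t) := by
  induction t with
  | zero => exact absurd Iff.rfl h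
  | succ t ih =>
    rw [wk_succ] at h ⊢
    by_cases e : χ u ↔ χ (M.wk k u t)
    · exact ⟨t, Nat.lt_succ_self t, fun e' => h (e.trans e'), Pa.refl _ _⟩
    · obtain ⟨s, hs, h1, h2⟩ := ih e
      exact ⟨s, hs.trans (Nat.lt_succ_self t), h1, h2.trans (Pa.step _ _)⟩

/-- The steps of the basin of `x` that change the cycle of the down type. -/
def Ch (M : Cm) (k x c a : ℕ) : Prop :=
  M.al a ∧ M.Co k a x ∧ ¬(M.Co (k + 2) a c ↔ M.Co (k + 2) (M.st k a) c)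

theorem ne (hy : Z.Hy) (hd : Z.DeadK) (hk : k < 2) (hx : Z.X x) {u : ℕ} (hu : Z.M.al u)
    (h : Z.M.Co k u x) (e : ¬(Z.M.Co (k + 2) u c ↔ Z.M.Co (k + 2) x c)) : ∃ a, Ch Z.M k x c a := by
  obtain ⟨t, rfl⟩ := h.pa hy.ok (hd.per hx hk)
  obtain ⟨s, -, h1, h2⟩ := chg (χ := fun y => Z.M.Co (k + 2) y c) e
  exact ⟨_, hy.ok.al_wk k hu s, ((Pa.step _ _).trans h2).co, h1⟩

theorem cyc (hy : Z.Hy) (hd : Z.DeadK) (hk : k < 2) (hx : Z.X x) (hn : ∃ a, Ch Z.M k x c a)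
    (h : ∀ a, Ch Z.M k x c a → ∃ b, Ch Z.M k x c b ∧ Z.M.Pa k (Z.M.st k b) a ∧
      Z.M.ss k b ≠ Z.M.ss k a) : False := by
  obtain ⟨a, ha, t⟩ := hy.fl.back (Ch Z.M k x c)
    (fun b a => Ch Z.M k x c b ∧ Z.M.Pa k (Z.M.st k b) a ∧ Z.M.ss k b ≠ Z.M.ss k a)
    (fun a ha => ⟨hy.ok.lt a ha.1, let ⟨b, hb, e⟩ := h a ha; ⟨b, hb, hb, e⟩⟩) hn
  obtain ⟨b, h1, hb, h2, h3⟩ := TransGen.tail'_iff.1 t
  have h4 : Z.M.Pa k a b := by
    clear h2 h3 hb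
    induction h1 with
    | refl => exact Pa.refl _ _
    | tail _ e ih => exact ih.trans ((Pa.step _ _).trans e.2.1)
  have pb : Z.M.Per k b := ⟨hb.1, h2.trans h4⟩
  have pa : Z.M.Per k a := ((pb.st hy.ok).pa hy.ok h2).1
  exact h3 ((hd.top hx hk pb hb.2.1).2.trans (hd.top hx hk pa ha.2.1).2.symm)

theorem tr (hy : Z.Hy) (hk : k < 2) {a : ℕ} (ha : Ch Z.M k x c a) (hp : ¬Z.M.Prb (pt a k)) :
    ∃ b, Ch Z.M k x c b ∧ Z.M.Pa k (Z.M.st k b) a ∧ Z.M.ss k b ≠ Z.M.ss k a := by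
  obtain ⟨b, h1, h2, h3, h4, h5⟩ := hy.fl.trace k (by omega) (fun y => Z.M.Co (k + 2) y c) a
    (fun y _ => by
      rw [Nat.mod_eq_of_lt (by omega : k + 2 < 4)]
      exact ⟨fun e => (Pa.step _ _).co.trans e, fun e => (Pa.step _ _).co.symm.trans e⟩)
    ha.1 ha.2.2 hp
  refine ⟨b, ⟨h1, ((Pa.step _ _).trans h2).co.trans ha.2.1, fun e => ha.2.2 ?_⟩, h2, h3⟩
  exact h5.symm.trans (e.symm.trans h4)

theorem lsd (hy : Z.Hy) (hk : k < 2) {a : ℕ} (ha : Ch Z.M k x c a) (hp : Z.M.Prb (pt a k)) :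
    Z.M.Lsd x (pt a k) ∧ Z.M.Lsd x (Z.M.lk (pt a k)) ∧ (Z.M.lk (pt a k) + (k + 2)) % 2 = 1 := by
  have p := hy.ok.par (pt a k) (by rw [pt_div]; exact ha.1)
  have q := pt_mod a k
  have e : (Z.M.lk (pt a k) + 1) % 2 = k := by omega
  have h : Z.M.Co ((Z.M.lk (pt a k) + 1) % 2) (Z.M.lk (pt a k) / 4) x := by
    rw [e]
    exact (Pa.step k a).co.symm.trans ha.2.1
  exact ⟨⟨hp, Or.inr h⟩, ⟨(hy.fl.plk _).2 hp, Or.inl h⟩, by omega⟩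

theorem one (hy : Z.Hy) (hd : Z.DeadK) (hk : k < 2) (hx : Z.X x) (hc : Z.M.al c)
    (h : Z.M.Co k c x) : ∃ d, Z.M.Src x d ∧ Z.M.Co (k + 2) d c := by
  by_contra hn
  refine cyc (c := c) hy hd hk hx
    (ne hy hd hk hx hc h fun e => hn ⟨x, Or.inl rfl, e.1 (Co.refl _ _)⟩) fun a ha =>
    tr hy hk ha fun hp => ha.2.2 (iff_of_false (fun e => hn ⟨a, ?_, e⟩) fun e => hn ⟨_, ?_, e⟩)
  · exact Or.inr ⟨_, (lsd hy hk ha hp).1, (pt_div a k).symm⟩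
  · exact Or.inr ⟨_, (lsd hy hk ha hp).2.1, rfl⟩

theorem two (hy : Z.Hy) (hd : Z.DeadK) (hk : k < 2) (hx : Z.X x) (hc : Z.M.al c)
    (h : Z.M.Co k c x) {q v : ℕ} (hq : Z.M.Lsd x q) (hp : (q + (k + 2)) % 2 = 1) (hv : Z.M.al v)
    (h1 : Z.M.Co k v x) (h2 : Z.M.Co (k + 2) v (q / 4)) :
    ∃ q', Z.M.Lsd x q' ∧ (q' + (k + 2)) % 2 = 1 ∧ Z.M.Co (k + 2) (q' / 4) c := by
  by_contra hn
  refine cyc (c := c) hy hd hk hx ?_ fun a ha => ?_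
  · by_cases e : Z.M.Co (k + 2) x c
    · exact ne hy hd hk hx hv h1 fun e' => hn ⟨q, hq, hp, h2.symm.trans (e'.2 e)⟩
    · exact ne hy hd hk hx hc h fun e' => e (e'.1 (Co.refl _ _))
  by_cases hb : Z.M.Prb (pt a k)
  swap
  · exact tr hy hk ha hb
  have ca : Z.M.Co (k + 2) a c := by
    by_contra e
    refine ha.2.2 (iff_of_false e fun e' => hn ⟨_, (lsd hy hk ha hb).2.1, (lsd hy hk ha hb).2.2, e'⟩)
  obtain ⟨g, g1, -, g3⟩ := hy.fl.bk k (by omega) a ha.1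
  have ho : os k (Z.M.ss k a) ≠ Z.M.ss k a ∧
      (os k (Z.M.ss k a) = k ∨ os k (Z.M.ss k a) = k + 3 - 4 * k) := by
    unfold os
    split_ifs <;> omega
  generalize os k (Z.M.ss k a) = o at g1 g3 ho
  have he : ep k o < 4 ∧ (o = ep k o ∨ o = (ep k o + 3) % 4) ∧ ep (ep k o) o = k ∧
      (ep k o + 1) % 2 = k := by
    rcases ho.2 with e | e <;> rw [e] <;> rcases (by omega : k = 0 ∨ k = 1) with rfl | rfl <;> decide
  have g2 := hy.fl.rev _ he.1 o a g ha.1 he.2.1 g1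
  rw [he.2.2.1] at g2
  have ag : Z.M.al g := let ⟨t, e, _⟩ := g1; Pa.al hy.ok ha.1 ⟨t, e⟩
  obtain ⟨t, rfl, ht⟩ := g2
  have hm := pt_mod g (ep k o)
  obtain ⟨s, hs, s1, s2⟩ := chg (M := Z.M) (k := k) (χ := fun y => Z.M.Co (k + 2) y c) (u := g)
    (t := t) fun e => hn ⟨pt g (ep k o), ⟨g3.2 hb, Or.inl (by
      rw [pt_div, show (pt g (ep k o) + 1) % 2 = k by omega]
      exact (Pa.wk k g t).co.trans ha.2.1)⟩, by omega, by rw [pt_div]; exact e.2 ca⟩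
  exact ⟨_, ⟨hy.ok.al_wk k ag s, ((Pa.step _ _).trans s2).co.trans ha.2.1, s1⟩, s2,
    by rw [ht s hs]; exact ho.1⟩

end Asc

theorem ascS : AscS := fun _ hy hd =>
  ⟨fun hw hx hc h => by
    rcases hw with rfl | rfl
    · exact Asc.one (k := 0) hy hd (by omega) hx hc h
    · exact Asc.one (k := 1) hy hd (by omega) hx hc h,
  fun hw hx hc h hq hp hv h1 h2 => by
    rcases hw with rfl | rfl
    · exact Asc.two (k := 0) hy hd (by omega) hx hc h hq hp hv h1 h2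
    · exact Asc.two (k := 1) hy hd (by omega) hx hc h hq hp hv h1 h2⟩

end

end Pool.Agent.MP_1a6d78_lc.PG
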