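import Pool.Agent.MP_1a6d78_lc.PG.SpecB

/-! PROJECT PG, row KCOV: the pieces cover the new segment. -/

namespace Pool.Agent.MP_1a6d78_lc.PG

open Classical ED PR GL Cm

noncomputable section

namespace KCov

variable {M M' : Cm} {A : Sg}

/-- The piece `X` of `M` carries the indices `lo .. hi` of the segment `A` of `M'`. -/
structure Pc (M M' : Cm) (A X : Sg) (r : Bool) (lo hi : ℕ) : Prop where
  le : hi ≤ M'.ln A
  ok : M.ok X
  ps : ∀ y c, M.Ps X y c ∧ M'.al y ↔ ∃ t, lo ≤ t ∧ t ≤ hi ∧ M'.el A t = y ∧ M'.sv A t = c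
  dead : ∀ y c, M.Ps X y c → ¬M'.al y → c = 2
  bo : ∀ y y', M'.al y → M'.al y' → M.Bo (!r) X y y' → M'.Bf A y y'

theorem glue (a : ℕ) (X : ℕ → Sg) (rv : ℕ → Bool) (N : ℕ)
    (I : ℕ → ℕ → ℕ → Prop) (h1 : ∀ k ≤ N, ¬M.al (X k).p ∨ ∃ lo hi, I k lo hi)
    (h2 : ∀ k lo hi, k ≤ N → I k lo hi → Pc M M' A (X k) (rv k) lo hi)
    (h3 : ∀ k k' lo hi lo' hi', k < k' → k' ≤ N → I k lo hi → I k' lo' hi' → hi ≤ lo')
    (h4 : ∀ t ≤ M'.ln A, ∃ k ≤ N, ∃ lo hi, I k lo hi ∧ lo ≤ t ∧ t ≤ hi) :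
    Cov M M' 2 a A X rv (N + 1) := by
  have g : ∀ k < N + 1, M.ok (X k) → ∃ lo hi, I k lo hi := fun k hk ok =>
    (h1 k (by omega)).resolve_left fun c => c ok.2.1
  refine ⟨fun k hk al => ?_, fun y ⟨t, t1, t2, t3⟩ => ?_, fun k hk y ok p => ?_,
    fun k k' y y' kk hk ok ok' p p' al al' => ?_, fun k hk y y' ok _ _ al al' b => ?_⟩
  · obtain ⟨lo, hi, i⟩ := (h1 k (by omega)).resolve_left fun c => c al
    exact (h2 k lo hi (by omega) i).ok
  · obtain ⟨k, hk, lo, hi, i, l1, l2⟩ := h4 t t1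
    have P := h2 k lo hi hk i
    exact ⟨k, by omega, P.ok, ((P.ps y a).2 ⟨t, l1, l2, t2, t3⟩).1⟩
  · obtain ⟨lo, hi, i⟩ := g k hk ok
    have P := h2 k lo hi (by omega) i
    by_cases al : M'.al y
    · obtain ⟨t, -, l2, t2, t3⟩ := (P.ps y a).1 ⟨p, al⟩
      exact Or.inl ⟨t, l2.trans P.le, t2, t3⟩
    · exact Or.inr ⟨al, P.dead y a p al⟩
  · obtain ⟨lo, hi, i⟩ := g k (by omega) ok
    obtain ⟨lo', hi', i'⟩ := g k' hk ok'
    have P := h2 k lo hi (by omega) i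
    have P' := h2 k' lo' hi' (by omega) i'
    obtain ⟨t, -, l2, t2, -⟩ := (P.ps y a).1 ⟨p, al⟩
    obtain ⟨t', l1, l3, t2', -⟩ := (P'.ps y' a).1 ⟨p', al'⟩
    have := h3 k k' lo hi lo' hi' kk (by omega) i i'
    exact ⟨t, t', by omega, l3.trans P'.le, t2, t2'⟩
  · obtain ⟨lo, hi, i⟩ := g k hk ok
    exact (h2 k lo hi (by omega) i).bo y y' al al' b

theorem even (h : M.Ok) (h' : M'.Ok) (o : M'.ok A) (al : ∀ c, M'.al c → M.al c) {lo len : ℕ}
    (hl : lo + len ≤ M'.ln A)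
    (old : ∀ t ≤ len, M'.wk A.i (M'.el A lo) t = M.wk A.i (M'.el A lo) t)
    (ss : ∀ t < len, M'.ss A.i (M.wk A.i (M'.el A lo) t) = M.ss A.i (M.wk A.i (M'.el A lo) t)) :
    Pc M M' A ⟨A.i, M'.el A lo, M'.sv A lo, M'.el A (lo + len)⟩ false lo (lo + len) := by
  have e : ∀ t ≤ len, M.wk A.i (M'.el A lo) t = M'.el A (lo + t) := fun t ht => by
    rw [← old t ht]; exact (wk_add _ _ _ _).symm
  have ok : M.ok ⟨A.i, M'.el A lo, M'.sv A lo, M'.el A (lo + len)⟩ :=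
    ⟨o.1, al _ (el_al h' o lo), len, e len le_rfl⟩
  have ln : M.ln ⟨A.i, M'.el A lo, M'.sv A lo, M'.el A (lo + len)⟩ = len :=
    ln_eq h ok (e len le_rfl) fun t ht c => by
      have := el_inj h' o (s := lo + t) (t := lo + len) (by omega) hl ((e t ht.le).symm.trans c)
      omega
  have sv : ∀ t ≤ len, M.sv ⟨A.i, M'.el A lo, M'.sv A lo, M'.el A (lo + len)⟩ t =
      M'.sv A (lo + t) := by
    intro t ht
    cases t with
    | zero => rfl
    | succ t =>
      show M.ss A.i (M.wk A.i (M'.el A lo) t) = M'.ss A.i (M'.el A (lo + t))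
      rw [← ss t (by omega), e t (by omega)]
  refine ⟨hl, ok, fun y c => ⟨fun ⟨⟨t, t1, t2, t3⟩, _⟩ => ?_, fun ⟨t, t1, t2, t3, t4⟩ => ?_⟩,
    fun y c ⟨t, t1, t2, _⟩ d => ?_, fun y y' _ _ ⟨t, t', t1, t2, t3, t4⟩ => ?_⟩
  · rw [ln] at t1
    exact ⟨lo + t, by omega, by omega, (e t t1).symm.trans t2, (sv t t1).symm.trans t3⟩
  · obtain ⟨r, rfl⟩ := Nat.exists_eq_add_of_le t1
    exact ⟨⟨r, by rw [ln]; omega, (e r (by omega)).trans t3, (sv r (by omega)).trans t4⟩,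
      t3 ▸ el_al h' o _⟩
  · rw [ln] at t1
    exact absurd (((e t t1).symm.trans t2) ▸ el_al h' o (lo + t)) d
  · rw [ln] at t2
    exact ⟨lo + t, lo + t', by omega, by omega, (e t (by omega)).symm.trans t3,
      (e t' t2).symm.trans t4⟩

theorem odd {Z : Ks} (D : Z.DownK) (h' : Z.M'.Ok) (o : Z.M'.ok A) {w σ lo len : ℕ}
    (hw : w = 2 ∨ w = 3) (hl : lo + len ≤ Z.M'.ln A)
    (rev : ∀ t ≤ len, Z.M'.wk w (Z.M'.el A (lo + len)) t = Z.M'.el A (lo + (len - t)))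
    (side : ∀ t < len, Z.M'.ss w (Z.M'.wk w (Z.M'.el A (lo + len)) t) = σ)
    (S : ∀ t ≤ len, Z.M'.sv A (lo + t) = σ) :
    Pc Z.M Z.M' A ⟨w, Z.M'.el A (lo + len), σ, Z.M'.el A lo⟩ true lo (lo + len) := by
  have e0 : Z.M'.wk w (Z.M'.el A (lo + len)) len = Z.M'.el A lo := by
    rw [rev len le_rfl, Nat.sub_self, add_zero]
  have ok : Z.M'.ok ⟨w, Z.M'.el A (lo + len), σ, Z.M'.el A lo⟩ :=
    ⟨by show w < 4; omega, el_al h' o _, len, e0⟩
  have ln : Z.M'.ln ⟨w, Z.M'.el A (lo + len), σ, Z.M'.el A lo⟩ = len :=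
    ln_eq h' ok e0 fun t ht c => by
      have := el_inj h' o (s := lo + (len - t)) (t := lo) (by omega) (by omega)
        ((rev t ht.le).symm.trans c)
      omega
  have sv : ∀ t ≤ len, Z.M'.sv ⟨w, Z.M'.el A (lo + len), σ, Z.M'.el A lo⟩ t = σ := by
    intro t ht
    cases t with
    | zero => rfl
    | succ t => exact side t (by omega)
  obtain ⟨d1, d2, d3, d4⟩ := D.ps (A := ⟨w, Z.M'.el A (lo + len), σ, Z.M'.el A lo⟩) hw ok
  refine ⟨hl, d1, fun y c => ?_, d3, fun y y' a a' b => ?_⟩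
  · rw [← d2]
    refine ⟨fun ⟨t, t1, t2, t3⟩ => ?_, fun ⟨t, t1, t2, t3, t4⟩ => ?_⟩
    · rw [ln] at t1
      exact ⟨lo + (len - t), by omega, by omega, (rev t t1).symm.trans t2,
        (S _ (by omega)).trans ((sv t t1).symm.trans t3)⟩
    · obtain ⟨r, rfl⟩ := Nat.exists_eq_add_of_le t1
      refine ⟨len - r, by rw [ln]; omega, (rev _ (by omega)).trans ?_,
        (sv _ (by omega)).trans ((S r (by omega)).symm.trans t4)⟩
      rw [show len - (len - r) = r by omega, t3]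
  · obtain ⟨t, t', t1, t2, t3, t4⟩ := (d4 y' y a' a).2 b
    rw [ln] at t2
    exact ⟨lo + (len - t'), lo + (len - t), by omega, by omega, (rev t' t2).symm.trans t4,
      (rev t (by omega)).symm.trans t3⟩

variable {K : Rn} {u a b : ℕ → ℕ}

theorem ex_np (H : K.H3 M M') (P : K.PfK M M') (o : M'.ok A) (hi : A.i < 2)
    (X : K.Idx M M' A.i A.p u a b) : ∃ k < 4 * (K.nc + 1),
      K.obj A.i (K.dp A.i A.p (k / 2)) = K.n ∨ K.P.OnC K.n A.q (K.pf A.i A.p A.s k) := by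
  have n : K.n = M.n := H.h2.h1.hy.n
  have h' : M'.Ok := H.h2.h1.g1.hy.ok'
  by_cases e : K.obj A.i (K.dp A.i A.p K.nc) = M.n
  · exact ⟨2 * K.nc, by omega, Or.inl (by rw [Nat.mul_div_cancel_left _ (by omega), e, n])⟩
  have lt : ∀ l, K.obj A.i (K.dp A.i A.p l) < M.n := fun l =>
    lt_of_le_of_ne (H.h2.h1.sel.ole _ _) fun c =>
      e (H.dp.exit hi o.2.1 (H.dp.dp l hi o.2.1).2.2 c)
  obtain ⟨s, d, s1, d0, d1, per⟩ := H.dp.per hi o.2.1 (lt _)
  have st := fun l => (X.one l (lt l)).2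
  have mono : StrictMono u := strictMono_nat_of_lt_succ fun l => by rw [st l]; omega
  obtain ⟨-, l1, l2⟩ := ln_spec h' o
  have hL : M'.ln A < u (s + d) := by
    by_contra c
    obtain ⟨r, hr⟩ := Nat.exists_eq_add_of_le (not_lt.1 c)
    have : u s < u (s + d) := mono (by omega)
    refine l2 (u s + r) (by omega) ?_
    rw [← l1, hr]
    show M'.wk A.i A.p _ = M'.wk A.i A.p _
    rw [wk_add, wk_add, X.dp, X.dp, per s le_rfl]
  have cov : ∀ l, M'.ln A < u l → ∃ k < 2 * l, K.P.OnC K.n A.q (K.pf A.i A.p A.s k) := by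
    intro l
    induction l with
    | zero => intro c; rw [X.zero] at c; omega
    | succ l ih =>
      intro c
      rcases lt_or_ge (M'.ln A) (u l) with g | g
      · obtain ⟨k, k1, k2⟩ := ih g
        exact ⟨k, by omega, k2⟩
      obtain ⟨-, -, p1, p2⟩ := P A.s l A.q hi o.2.1 X (lt l)
      rcases le_or_gt (M'.ln A) (u l + a l) with g' | g'
      · refine ⟨2 * l, by omega, p1.2 ⟨M'.ln A - u l, by omega, ?_⟩⟩
        rw [show u l + (M'.ln A - u l) = M'.ln A by omega]; exact l1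
      · have := st l
        refine ⟨2 * l + 1, by omega, (p2 (l1 ▸ el_al h' o _)).2 ⟨fun hp => ?_,
          M'.ln A - (u l + a l + 1), by omega, ?_⟩⟩
        · have := (X.one l (lt l)).1.hop hp
          omega
        · rw [show u l + a l + 1 + (M'.ln A - (u l + a l + 1)) = M'.ln A by omega]; exact l1
  obtain ⟨k, k1, k2⟩ := cov _ hL
  exact ⟨k, by omega, Or.inr k2⟩

theorem evenP (H : K.H3 M M') (o : M'.ok A) (X : K.Idx M M' A.i A.p u a b) {l len : ℕ}
    (pre : ∀ l' < l, K.obj A.i (K.dp A.i A.p l') < M.n) (hl : u l + len ≤ M'.ln A)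
    (old : ∀ t ≤ len, M'.wk A.i (K.dp A.i A.p l) t = M.wk A.i (K.dp A.i A.p l) t)
    (ss : ∀ t < len, M'.ss A.i (M.wk A.i (K.dp A.i A.p l) t) = M.ss A.i (M.wk A.i (K.dp A.i A.p l) t)) :
    Pc M M' A ⟨A.i, K.dp A.i A.p l, K.ds A.i A.p A.s l, M'.el A (u l + len)⟩ false (u l)
      (u l + len) := by
  have e : M'.el A (u l) = K.dp A.i A.p l := X.dp l
  have := even H.h2.h1.hy.ok H.h2.h1.g1.hy.ok' o
    (fun c k => ((H.h2.h1.g1.hy.smo.al c).1 k).1) hl (by rw [e]; exact old) (by rw [e]; exact ss)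
  rwa [e, sv_sw, ← X.ds l A.s pre] at this

theorem oddP (H : K.H3 M M') (o : M'.ok A) (hi : A.i < 2) (X : K.Idx M M' A.i A.p u a b)
    {l len : ℕ} (lt : K.obj A.i (K.dp A.i A.p l) < M.n) (hp : ¬K.hp A.i (K.dp A.i A.p l))
    (hb : len ≤ b l) (hl : u l + a l + 1 + len ≤ M'.ln A) :
    Pc M M' A ⟨3 - A.i, M'.el A (u l + a l + 1 + len), hs A.i, K.dg A.i (K.dp A.i A.p l) / 4⟩ true
      (u l + a l + 1) (u l + a l + 1 + len) := by
  have O := (X.one l lt).1
  obtain ⟨-, -, -, w⟩ := O.wall hp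
  have e : ∀ t, M'.el A (u l + a l + 1 + t) = M'.wk A.i (K.dp A.i A.p l) (a l + 1 + t) := fun t => by
    show M'.wk A.i A.p _ = _
    rw [← X.dp, ← wk_add]; congr 1; omega
  have e1 : ∀ t ≤ len, M'.wk (3 - A.i) (M'.el A (u l + a l + 1 + len)) t =
      M'.wk (3 - A.i) (K.db A.i (K.dp A.i A.p l)) (b l - (len - t)) := fun t ht => by
    rw [e, ← (w len hb).1, ← wk_add]; congr 1; omega
  have := odd (Z := K.ks M M') (A := A) H.h2.h1.g1.down H.h2.h1.g1.hy.ok' o (w := 3 - A.i)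
    (σ := hs A.i) (lo := u l + a l + 1) (len := len) (by omega) hl
    (fun t ht => (e1 t ht).trans ((w _ (by omega)).1.trans (e _).symm))
    (fun t ht => by
      have := (w (b l - (len - t) + 1) (by omega)).2.1
      rw [sw_succ, ← e1 t ht.le] at this
      exact this)
    (fun t ht => by
      have := (w t (by omega)).2.2
      rw [show a l + 1 + t = a l + t + 1 by omega, sw_succ, ← X.dp, ← wk_add] at this
      show M'.sv A _ = _
      rw [show u l + a l + 1 + t = u l + (a l + t) + 1 by omega]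
      exact this)
  have e2 : M'.el A (u l + a l + 1) = K.dg A.i (K.dp A.i A.p l) / 4 := (e 0).trans O.g.1
  rw [← e2]
  exact this

theorem up (H : K.H3 M M') (P : K.PfK M M') (o : M'.ok A) (hi : A.i < 2) (c : ℕ) :
    Cov M M' 2 c A (K.pc A c) (Rn.rv A) (K.np A + 1) := by
  obtain ⟨u, a, b, X⟩ := H.idx hi o.2.1
  have n : K.n = M.n := H.h2.h1.hy.n
  have h : M.Ok := H.h2.h1.hy.ok
  have h' : M'.Ok := H.h2.h1.g1.hy.ok'
  have i2 : ¬2 ≤ A.i := by omega
  obtain ⟨N1, N2⟩ := lst_spec (ex_np H P o hi X)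
  have N3 := fun k (hk : k < 4 * (K.nc + 1)) => lst_le (P := fun k =>
    K.obj A.i (K.dp A.i A.p (k / 2)) = K.n ∨ K.P.OnC K.n A.q (K.pf A.i A.p A.s k)) hk
  have eN : K.np A = _ := if_neg i2
  rw [← eN] at N1 N2 N3
  have pcN : ∀ k, K.pc A c k = if k = K.np A then
      (if k % 2 = 0 then ⟨A.i, K.dp A.i A.p (k / 2), K.ds A.i A.p A.s (k / 2), A.q⟩
      else ⟨3 - A.i, A.q, hs A.i, K.dg A.i (K.dp A.i A.p (k / 2)) / 4⟩)
      else K.pf A.i A.p A.s k := fun k => if_neg i2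
  clear eN
  generalize K.np A = N at N1 N2 N3 pcN ⊢
  have d0 : ∀ l : ℕ, 2 * l / 2 = l := fun l => by omega
  have d1 : ∀ l : ℕ, (2 * l + 1) / 2 = l := fun l => by omega
  have m0 : ∀ l : ℕ, 2 * l % 2 = 0 := fun l => by omega
  have m1 : ∀ l : ℕ, ¬(2 * l + 1) % 2 = 0 := fun l => by omega
  have r0 : ∀ l : ℕ, Rn.rv A (2 * l) = false := fun l => decide_eq_false (by omega)
  have r1 : ∀ l : ℕ, Rn.rv A (2 * l + 1) = true := fun l => decide_eq_true (by omega)
  have bef : ∀ k < N, ¬(K.obj A.i (K.dp A.i A.p (k / 2)) = K.n ∨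
      K.P.OnC K.n A.q (K.pf A.i A.p A.s k)) := fun k hk e => by
    have := N3 k (by omega) e
    omega
  have lt : ∀ l, 2 * l < N → K.obj A.i (K.dp A.i A.p l) < M.n := fun l hl =>
    lt_of_le_of_ne (H.h2.h1.sel.ole _ _) fun e => bef _ hl (Or.inl (by rw [d0, e, n]))
  obtain ⟨-, l1, l2⟩ := ln_spec h' o
  have alq : M'.al A.q := l1 ▸ el_al h' o _
  have st := fun l (hl : 2 * l < N) => (X.one l (lt l hl)).2
  have q0 : ∀ l, 2 * l < N → u l ≤ M'.ln A → u l + a l < M'.ln A := fun l hl g => by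
    by_contra e
    refine bef _ hl (Or.inr ((P A.s l A.q hi o.2.1 X (lt l hl)).2.2.1.2
      ⟨M'.ln A - u l, by omega, ?_⟩))
    rw [show u l + (M'.ln A - u l) = M'.ln A by omega]; exact l1
  have q1 : ∀ l, 2 * l + 1 < N → u l ≤ M'.ln A → u (l + 1) ≤ M'.ln A := fun l hl g => by
    have g0 := q0 l (by omega) g
    have g1 := st l (by omega)
    by_contra e
    refine bef _ hl (Or.inr (((P A.s l A.q hi o.2.1 X (lt l (by omega))).2.2.2 alq).2
      ⟨fun hp => ?_, M'.ln A - (u l + a l + 1), by omega, ?_⟩))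
    · have := (X.one l (lt l (by omega))).1.hop hp
      omega
    · rw [show u l + a l + 1 + (M'.ln A - (u l + a l + 1)) = M'.ln A by omega]; exact l1
  have q2 : ∀ l, 2 * l ≤ N → u l ≤ M'.ln A := by
    intro l
    induction l with
    | zero => intro _; rw [X.zero]; omega
    | succ l ih => exact fun hl => q1 l (by omega) (ih (by omega))
  have mono : ∀ l l', l ≤ l' → 2 * l' ≤ N → u l ≤ u l' := by
    intro l l' ll
    induction ll with
    | refl => exact fun _ => le_rfl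
    | @step l' _ ih =>
      intro hl
      have := st l' (by omega)
      have := ih (by omega)
      show u l ≤ u (l' + 1)
      omega
  have last : ∀ l, 2 * l + 1 = N → ¬K.hp A.i (K.dp A.i A.p l) ∧
      M'.ln A ≤ u l + a l + 1 + b l := fun l hl => by
    rw [← hl, d1, n] at N2
    have := N2.resolve_left (lt l (by omega)).ne
    rw [← n] at this
    obtain ⟨hp, t, t1, t2⟩ := ((P A.s l A.q hi o.2.1 X (lt l (by omega))).2.2.2 alq).1 this
    exact ⟨hp, by by_contra e; exact l2 _ (by omega) t2⟩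
  refine glue c _ _ N (fun k lo hi => ∃ l,
    (k = 2 * l ∧ lo = u l ∧ ((k = N ∧ hi = M'.ln A) ∨ (k < N ∧ hi = u l + a l))) ∨
    (k = 2 * l + 1 ∧ ¬K.hp A.i (K.dp A.i A.p l) ∧ lo = u l + a l + 1 ∧
      ((k = N ∧ hi = M'.ln A) ∨ (k < N ∧ hi = u (l + 1))))) (fun k hk => ?_) ?_ ?_ fun t ht => ?_
  · obtain ⟨l, rfl | rfl⟩ := Nat.even_or_odd' k
    · rcases hk.eq_or_lt with e | e
      exacts [Or.inr ⟨_, _, l, Or.inl ⟨rfl, rfl, Or.inl ⟨e, rfl⟩⟩⟩,
        Or.inr ⟨_, _, l, Or.inl ⟨rfl, rfl, Or.inr ⟨e, rfl⟩⟩⟩]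
    · rcases hk.eq_or_lt with e | e
      · exact Or.inr ⟨_, _, l, Or.inr ⟨rfl, (last l e).1, rfl, Or.inl ⟨e, rfl⟩⟩⟩
      · by_cases hp : K.hp A.i (K.dp A.i A.p l)
        · left
          rw [pcN, if_neg e.ne, Rn.pf, if_neg (m1 l), d1, if_pos hp, n]
          exact h.not_al_n
        · exact Or.inr ⟨_, _, l, Or.inr ⟨rfl, hp, rfl, Or.inr ⟨e, rfl⟩⟩⟩
  · rintro k lo hi' hk ⟨l, ⟨rfl, rfl, ⟨e, rfl⟩ | ⟨e, rfl⟩⟩ | ⟨rfl, hp, rfl, ⟨e, rfl⟩ | ⟨e, rfl⟩⟩⟩
    · rw [pcN, if_pos e, if_pos (m0 l), d0, r0]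
      obtain ⟨r, hr⟩ := Nat.exists_eq_add_of_le (q2 l hk)
      have pre : ∀ l' < l, K.obj A.i (K.dp A.i A.p l') < M.n := fun l' h => lt l' (by omega)
      rw [← l1, hr]
      by_cases z : K.obj A.i (K.dp A.i A.p l) = M.n
      · have al := (H.dp.dp l hi o.2.1).2.1
        have al0 := ((H.h2.h1.g1.hy.smo.al _).1 al).1
        have f := H.h2.h1.g1.smo.free hi al0 fun x sx co => by
          have := (H.h2.h1.sel.obj hi).2 ⟨al0, sx, co⟩
          omega
        exact evenP H o X pre hr.ge (fun t _ => (f t).2.1) fun t _ => (f t).2.2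
      · have z' := lt_of_le_of_ne (H.h2.h1.sel.ole _ _) z
        rw [← e, d0, n] at N2
        have := N2.resolve_left z
        rw [← n] at this
        obtain ⟨t, t1, t2⟩ := (P A.s l A.q hi o.2.1 X z').2.2.1.1 this
        have : r ≤ a l := by by_contra g; exact l2 _ (by omega) t2
        have O := (X.one l z').1
        exact evenP H o X pre hr.ge (fun t _ => O.old t (by omega)) fun t _ => O.ss t (by omega)
    · rw [pcN, if_neg e.ne, Rn.pf, if_pos (m0 l), d0, r0]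
      have O := (X.one l (lt l e)).1
      have e1 : M'.el A (u l + a l) = K.dq A.i (K.dp A.i A.p l) := by
        show M'.wk A.i A.p _ = _
        rw [wk_add, X.dp, O.old _ le_rfl, O.q]
      rw [← e1]
      exact evenP H o X (fun l' h => lt l' (by omega)) (q0 l e (q2 l hk)).le O.old O.ss
    · rw [pcN, if_pos e, if_neg (m1 l), d1, r1]
      obtain ⟨r, hr⟩ := Nat.exists_eq_add_of_le
        (Nat.succ_le_of_lt (q0 l (by omega) (q2 l (by omega))))
      have := (last l e).2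
      rw [← l1, hr]
      exact oddP H o hi X (lt l (by omega)) hp (by omega) hr.ge
    · rw [pcN, if_neg e.ne, Rn.pf, if_neg (m1 l), d1, if_neg hp, r1]
      have O := (X.one l (lt l (by omega))).1
      have s1 := st l (by omega)
      have e1 : M'.el A (u l + a l + 1 + b l) = K.db A.i (K.dp A.i A.p l) := by
        have := ((O.wall hp).2.2.2 (b l) le_rfl).1
        rw [Nat.sub_self, wk_zero] at this
        show M'.wk A.i A.p _ = _
        rw [this, ← X.dp, ← wk_add]; congr 1; omega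
      rw [← e1, s1]
      exact oddP H o hi X (lt l (by omega)) hp le_rfl (s1 ▸ q1 l e (q2 l (by omega)))
  · rintro k k' lo hi' lo' hi'' kk hk ⟨l, p⟩ ⟨l', p'⟩
    have g : l < l' → 2 * l' ≤ N → u l + a l + 1 + b l = u (l + 1) ∧ u (l + 1) ≤ u l' :=
      fun g1 g2 => ⟨(st l (by omega)).symm, mono _ _ g1 g2⟩
    rcases lt_trichotomy l l' with z | rfl | z
    · have := g z (by omega)
      omega
    · omega
    · omega
  · have cov : ∀ l, 2 * l ≤ N → t < u l → ∃ l' < l, (u l' ≤ t ∧ t ≤ u l' + a l') ∨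
        (¬K.hp A.i (K.dp A.i A.p l') ∧ u l' + a l' + 1 ≤ t ∧ t ≤ u (l' + 1)) := by
      intro l
      induction l with
      | zero => intro _ c; rw [X.zero] at c; omega
      | succ l ih =>
        intro hl g
        rcases lt_or_ge t (u l) with g1 | g1
        · obtain ⟨l', a1, a2⟩ := ih (by omega) g1
          exact ⟨l', by omega, a2⟩
        rcases le_or_gt t (u l + a l) with g2 | g2
        · exact ⟨l, by omega, Or.inl ⟨g1, g2⟩⟩
        · refine ⟨l, by omega, Or.inr ⟨fun hp => ?_, g2, g.le⟩⟩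
          have := (X.one l (lt l (by omega))).1.hop hp
          have := st l (by omega)
          omega
    rcases lt_or_ge t (u (N / 2)) with g | g
    · obtain ⟨l, a1, a2 | a2⟩ := cov _ (by omega) g
      · exact ⟨2 * l, by omega, _, _, ⟨l, Or.inl ⟨rfl, rfl, Or.inr ⟨by omega, rfl⟩⟩⟩, a2⟩
      · exact ⟨2 * l + 1, by omega, _, _,
          ⟨l, Or.inr ⟨rfl, a2.1, rfl, Or.inr ⟨by omega, rfl⟩⟩⟩, a2.2⟩
    · obtain ⟨l, e | e⟩ := Nat.even_or_odd' N
      · rw [e, d0] at g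
        exact ⟨N, le_rfl, _, _, ⟨l, Or.inl ⟨e, rfl, Or.inl ⟨rfl, rfl⟩⟩⟩, g, ht⟩
      · rw [e, d1] at g
        rcases le_or_gt t (u l + a l) with g2 | g2
        · exact ⟨2 * l, by omega, _, _, ⟨l, Or.inl ⟨rfl, rfl, Or.inr ⟨by omega, rfl⟩⟩⟩, g, g2⟩
        · exact ⟨N, le_rfl, _, _, ⟨l, Or.inr ⟨e, (last l e.symm).1, rfl, Or.inl ⟨rfl, rfl⟩⟩⟩, g2, ht⟩

end KCov

theorem covS : CovS := by
  intro K M M' H P A a _ o
  rcases lt_or_ge A.i 2 with hi | hi
  · exact KCov.up H P o hi a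
  · have i4 := o.1
    obtain ⟨d1, d2, d3, d4⟩ := H.h2.h1.g1.down.ps (A := A) (by omega) o
    have e1 : K.np A = 0 := if_pos hi
    have e2 : K.pc A a 0 = A := if_pos hi
    have e3 : Rn.rv A 0 = false := decide_eq_false (by omega)
    rw [e1]
    refine cov_one (by rw [e2]; exact d1) (fun y p => by rw [e2]; exact ((d2 y a).1 p).1)
      (fun y p => ?_) fun y y' _ _ al al' b => ?_
    · rw [e2] at p
      by_cases al : M'.al y
      exacts [Or.inl ((d2 y a).2 ⟨p, al⟩), Or.inr ⟨al, d3 y a p al⟩]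
    · rw [e2, e3] at b
      exact (d4 y y' al al').2 b

end

end Pool.Agent.MP_1a6d78_lc.PG
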