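import Pool.Agent.MP_1a6d78_lc.PG.Spec

/-! PROJECT PG, row DEAD: the cells that die. -/

namespace Pool.Agent.MP_1a6d78_lc.PG

open Classical ED PR GL Relation Ct

namespace KDead

variable {M : Cm} {a c d e i u w x : ℕ}

theorem d0 (c : ℕ) : 4 * c / 4 = c := by omega

theorem d2 (c : ℕ) : (4 * c + 2) / 4 = c := by omega

theorem up (F : M.FlowK) (hi : i < 2) (h : M.al c) :
    (M.ss i c = 0 ∧ M.Rg (4 * c) (4 * M.st i c)) ∨
      (M.ss i c = hs i ∧ M.Rg (4 * c) (4 * M.st i c + 2)) := by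
  have k1 := F.rg1 i (by omega) c h
  have k2 := F.rg2 i (by omega) c h
  have k3 := Cm.ss_cases (M := M) i c
  obtain rfl | rfl : i = 0 ∨ i = 1 := by omega
  · rcases k3 with k | k <;> rw [k] at k1 k2
    exacts [Or.inl ⟨k, k1⟩, Or.inr ⟨k, k2⟩]
  · rcases k3 with k | k <;> rw [k] at k1 k2
    exacts [Or.inr ⟨k, k2⟩, Or.inl ⟨k, k1⟩]

theorem dn (F : M.FlowK) (hw : w = 2 ∨ w = 3) (h : M.al e) :
    (M.ss w e = 2 ∧ M.Rg (4 * e + 2) (4 * M.st w e + 2)) ∨
      (M.ss w e ≠ 2 ∧ M.Rg (4 * e + 2) (4 * M.st w e)) := by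
  have k1 := F.rg1 w (by omega) e h
  have k2 := F.rg2 w (by omega) e h
  have k3 := Cm.ss_cases (M := M) w e
  rcases hw with rfl | rfl
  · rcases k3 with k | k <;> rw [k] at k1 k2
    exacts [Or.inl ⟨k, k1⟩, Or.inr ⟨by omega, k2⟩]
  · rcases k3 with k | k <;> rw [k] at k1 k2
    exacts [Or.inr ⟨by omega, k2⟩, Or.inl ⟨k, k1⟩]

theorem f1 (h : d % 4 = 0) : M.st 1 (d / 4) = M.nr d / 4 := by
  unfold Cm.st Cm.nr
  rw [show pt (d / 4) 1 = r4 d by unfold pt r4; omega]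

theorem f0 (H : M.Ok) (h : M.nr d % 4 = 0) : M.st 0 (M.nr d / 4) = d / 4 := by
  unfold Cm.st
  rw [show pt (M.nr d / 4) 0 = M.nr d by unfold pt; omega, Cm.nr, H.inv, r4_div]

theorem rg (H : M.Ok) (h : M.Dd x c) (k : M.Rg (4 * c) (4 * u)) : M.Dd x u := by
  cases h with
  | top l => exact .top (rg_trans l k)
  | step l m =>
    obtain ⟨v, l⟩ := l
    exact .step ⟨v, rg_trans (rg_symm H k) l⟩ fun v' l' => m v' (rg_trans k l')

theorem inc (hx : M.Top x) (h : M.Dd x c) (k : M.Rg (4 * c) (4 * u + 2)) : M.Dd x u := by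
  cases h with
  | top l =>
    have := crit_mod hx.2 (rg_trans l k)
    omega
  | step _ m => exact m u k

theorem st (H : M.Ok) (F : M.FlowK) (hx : M.Top x) (hi : i < 2) (h : M.Dd x c) :
    M.Dd x (M.st i c) := by
  rcases up F hi (dd_al H hx.1 h) with k | k
  exacts [rg H h k.2, inc hx h k.2]

theorem pa_top (H : M.Ok) (hx : M.Top x) (hi : i < 2) (h : M.Rg (4 * x) (4 * c)) : M.Pa i c x := by
  obtain rfl | rfl : i = 0 ∨ i = 1 := by omega
  · have := (rg_ind (Q := fun d => M.Rg (4 * x) d ∧ M.Pa 0 (d / 4) x) h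
      ⟨rg_refl _ _, by rw [d0]; exact Cm.Pa.refl _ _⟩ fun d k => by
        have k1 := rg_trans k.1 (rg_nr M d)
        have k2 := crit_mod hx.2 k1
        refine ⟨k1, (Cm.Pa.step _ _).trans ?_⟩
        rw [f0 H (by omega)]
        exact k.2).2
    rwa [d0] at this
  · have := (rg_ind (Q := fun d => M.Rg (4 * x) d ∧ M.Pa 1 c (d / 4)) (rg_symm H h)
      ⟨h, by rw [d0]; exact Cm.Pa.refl _ _⟩ fun d k => by
        have k2 := crit_mod hx.2 k.1
        refine ⟨rg_trans k.1 (rg_nr M d), k.2.trans ?_⟩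
        rw [← f1 (by omega)]
        exact Cm.Pa.step _ _).2
    rwa [d0] at this

/-- The walk leaves a region that is not critical. -/
theorem turn (H : M.Ok) (hi : i < 2) (hc : M.al c) (h : M.Rg (4 * c) (4 * u + 2)) :
    ∃ v, M.Pa i c v ∧ M.Rg (4 * c) (4 * v + 2) := by
  have par : ∀ d, M.Rg (4 * c) d → d % 2 = 0 := fun d k => by
    have := rg_par H k (by rwa [d0])
    omega
  obtain rfl | rfl : i = 0 ∨ i = 1 := by omega
  · have := (rg_ind (Q := fun d => M.Rg (4 * c) d ∧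
      (d % 4 = 0 → ∃ v, M.Pa 0 (d / 4) v ∧ M.Rg (4 * c) (4 * v + 2))) (rg_symm H h)
      ⟨h, fun k => by omega⟩ fun d k => by
        refine ⟨rg_trans k.1 (rg_nr M d), fun k1 => ?_⟩
        have k2 : M.Pa 0 (M.nr d / 4) (d / 4) := f0 H k1 ▸ Cm.Pa.step _ _
        have k3 := par d k.1
        by_cases k4 : d % 4 = 0
        · obtain ⟨v, v1, v2⟩ := k.2 k4
          exact ⟨v, k2.trans v1, v2⟩
        · exact ⟨d / 4, k2, by rw [show 4 * (d / 4) + 2 = d by omega]; exact k.1⟩).2 (by omega)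
    rwa [d0] at this
  · by_contra g
    have := (rg_ind (Q := fun d => d % 4 = 0 ∧ M.Rg (4 * c) d ∧ M.Pa 1 c (d / 4)) h
      ⟨by omega, rg_refl _ _, by rw [d0]; exact Cm.Pa.refl _ _⟩ fun d k => by
        have k1 := rg_trans k.2.1 (rg_nr M d)
        have k2 : M.Pa 1 c (M.nr d / 4) := k.2.2.trans (f1 k.1 ▸ Cm.Pa.step _ _)
        have k3 := par _ k1
        refine ⟨by_contra fun k4 => g ⟨M.nr d / 4, k2, ?_⟩, k1, k2⟩
        rwa [show 4 * (M.nr d / 4) + 2 = M.nr d by omega]).1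
    omega

theorem pa (H : M.Ok) (hx : M.Top x) (hi : i < 2) (h : M.Dd x c) : M.Pa i c x := by
  induction h with
  | top k => exact pa_top H hx hi k
  | step k l ih =>
    obtain ⟨u, k⟩ := k
    obtain ⟨v, v1, v2⟩ := turn H hi (dd_al H hx.1 (.step ⟨u, k⟩ l)) k
    exact v1.trans (ih v v2)

theorem per (H : M.Ok) (F : M.FlowK) (hx : M.Top x) (hi : i < 2) : M.Per i x :=
  ⟨hx.1, pa H hx hi (st H F hx hi (.top (rg_refl _ _)))⟩

theorem top1 (H : M.Ok) (F : M.FlowK) (hx : M.Top x) (hi : i < 2) (h : M.Rg (4 * x) (4 * a)) :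
    M.ss i a = 0 ∧ M.Rg (4 * x) (4 * M.st i a) := by
  rcases up F hi (dd_al H hx.1 (.top h)) with k | k
  · exact ⟨k.1, rg_trans h k.2⟩
  · have := crit_mod hx.2 (rg_trans h k.2)
    omega

theorem top (H : M.Ok) (F : M.FlowK) (hx : M.Top x) (hi : i < 2) (hc : M.Per i c)
    (h : M.Co i c x) : M.Rg (4 * x) (4 * c) ∧ M.ss i c = 0 := by
  obtain ⟨t, rfl⟩ := h.symm.pa H hc
  have k : ∀ t, M.Rg (4 * x) (4 * M.wk i x t) := fun t => by
    induction t with
    | zero => exact rg_refl _ _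
    | succ t ih => rw [Cm.wk_succ]; exact (top1 H F hx hi ih).2
  exact ⟨k t, (top1 H F hx hi (k t)).1⟩

theorem acc (hx : M.Top x) (h : M.Dd x c) : Acc (fun u c => M.Rg (4 * c) (4 * u + 2)) c := by
  induction h with
  | top k =>
    refine ⟨_, fun u l => ?_⟩
    have := crit_mod hx.2 (rg_trans k l)
    omega
  | step _ _ ih => exact ⟨_, ih⟩

theorem irr {r : ℕ → ℕ → Prop} (h : Acc r c) : ¬r c c := by
  induction h with
  | intro c _ ih => exact fun k => ih c k k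

theorem rank (H : M.Ok) (hx : M.Top x) : ∃ ρ : ℕ → ℕ, ∀ c u, M.Dd x c →
    (M.Rg (4 * c) (4 * u) → ρ u = ρ c) ∧ (M.Rg (4 * c) (4 * u + 2) → ρ u < ρ c) := by
  refine ⟨fun c => ((Finset.range M.n).filter fun v =>
    TransGen (fun u c => M.Rg (4 * c) (4 * u + 2)) v c).card, fun c u h => ⟨fun k => ?_, fun k => ?_⟩⟩
  · refine congrArg Finset.card (Finset.filter_congr fun v _ => ?_)
    rw [TransGen.tail'_iff, TransGen.tail'_iff]
    exact exists_congr fun b => and_congr_right fun _ => ⟨rg_trans k, rg_trans (rg_symm H k)⟩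
  · have hu := inc hx h k
    refine Finset.card_lt_card ⟨fun v hv => ?_, fun g => ?_⟩
    · rw [Finset.mem_filter] at hv ⊢
      exact ⟨hv.1, hv.2.tail k⟩
    · have := g (Finset.mem_filter.2 ⟨Finset.mem_range.2 (H.lt u (dd_al H hx.1 hu)), .single k⟩)
      exact irr (acc hx hu).transGen (Finset.mem_filter.1 this).2

end KDead

open KDead in
theorem deadS : DeadS := by
  intro Z h
  have H := h.ok
  have F := h.fl
  have T := h.fam.top
  have lv : ∀ {e}, Z.M'.al e → Z.M.Lv Z.M' e := fun {e} k =>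
    ⟨((h.smo.al e).1 k).1, e, k, Or.inl (rg_refl _ _)⟩
  refine ⟨rg H, fun hx => inc (T _ hx), fun hx => st H F (T _ hx), fun hx => pa H (T _ hx),
    fun hx => per H F (T _ hx), fun hx => top H F (T _ hx), fun hx hy hi k l => ?_,
    fun hx => rank H (T _ hx), lv, fun {w e} hw k => ?_, fun {i q} hi k l => ?_,
    fun hx hi k => ?_⟩
  · exact h.fam.one _ _ hx hy
      (top H F (T _ hx) hi (per H F (T _ hy) hi) (l.symm.trans k)).1
  · obtain ⟨k1, u, k2, k3⟩ := k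
    have k4 := H.al_st w k1
    rcases dn F hw k1 with l | l
    · exact ⟨⟨k4, u, k2, k3.imp (rg_trans (rg_symm H l.2)) (rg_trans (rg_symm H l.2))⟩,
        fun g => absurd l.1 g⟩
    · have k5 : Z.M'.al (Z.M.st w e) := (h.smo.al _).2 ⟨k4, fun ⟨x, hx, g⟩ =>
        ((h.smo.al u).1 k2).2 ⟨x, hx, k3.elim
          (fun m => inc (T _ hx) g (rg_trans (rg_symm H l.2) m))
          fun m => rg H g (rg_trans (rg_symm H l.2) m)⟩⟩
      exact ⟨lv k5, fun _ => k5⟩
  · obtain ⟨k1, k2⟩ := (h.smo.al q).1 k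
    have k4 := H.al_st i k1
    rcases up F hi k1 with m | m
    · exact absurd ((h.smo.al _).2 ⟨k4, fun ⟨x, hx, g⟩ =>
        k2 ⟨x, hx, rg H g (rg_symm H m.2)⟩⟩) l
    · exact ⟨m.1, k4, q, k, Or.inr (rg_symm H m.2)⟩
  · obtain ⟨d, ⟨t, e, -⟩, g⟩ := k
    exact Cm.Pa.trans ⟨t, e⟩ (pa H (T _ hx) hi g)

end Pool.Agent.MP_1a6d78_lc.PG
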