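import Pool.Agent.MP_1a6d78_lc.PG.Spec

/-! PROJECT PG, row DOWN: consequences of the index map for the down walks. -/

namespace Pool.Agent.MP_1a6d78_lc.PG

open Cm

/-- The new walk from `c` is the old one read at the indices `u`. -/
structure DIx (M M' : Cm) (w c : ℕ) (u : ℕ → ℕ) : Prop where
  al : M'.al c
  mono : StrictMono u
  zero : u 0 = 0
  wk : ∀ t, M'.wk w c t = M.wk w c (u t)
  ss : ∀ t s, u (t + 1) = s + 1 → M'.ss w (M'.wk w c t) = M.ss w (M.wk w c s)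
  sur : ∀ s, M'.al (M.wk w c s) → ∃ t, u t = s
  two : ∀ s, ¬M'.al (M.wk w c (s + 1)) → M.ss w (M.wk w c s) = 2

namespace DIx

variable {M M' : Cm} {w c : ℕ} {u : ℕ → ℕ}

theorem succ (I : DIx M M' w c u) (t : ℕ) : ∃ s, u (t + 1) = s + 1 :=
  Nat.exists_eq_succ_of_ne_zero (Nat.ne_zero_of_lt (I.mono (Nat.succ_pos t)))

theorem sur1 (I : DIx M M' w c u) {s : ℕ} (h : M'.al (M.wk w c (s + 1))) :
    ∃ t, u (t + 1) = s + 1 := by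
  obtain ⟨t, ht⟩ := I.sur _ h
  cases t with
  | zero => rw [I.zero] at ht; omega
  | succ t => exact ⟨t, ht⟩

theorem alu (I : DIx M M' w c u) (H : M'.Ok) (t : ℕ) : M'.al (M.wk w c (u t)) :=
  I.wk t ▸ H.al_wk w I.al t

theorem pa (I : DIx M M' w c u) (H : M'.Ok) {y : ℕ} : M'.Pa w c y ↔ M.Pa w c y ∧ M'.al y := by
  constructor
  · rintro ⟨t, rfl⟩
    exact ⟨⟨u t, (I.wk t).symm⟩, H.al_wk w I.al t⟩
  · rintro ⟨⟨s, rfl⟩, h⟩
    obtain ⟨t, rfl⟩ := I.sur s h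
    exact ⟨t, I.wk t⟩

theorem nxt (I : DIx M M' w c u) (H : M'.Ok) {r a : ℕ} :
    (∃ t, M'.wk w c (t + 1) = r ∧ M'.ss w (M'.wk w c t) = a) ↔
      (∃ t, M.wk w c (t + 1) = r ∧ M.ss w (M.wk w c t) = a) ∧ M'.al r := by
  constructor
  · rintro ⟨t, rfl, rfl⟩
    obtain ⟨s, hs⟩ := I.succ t
    exact ⟨⟨s, by rw [I.wk, hs], (I.ss t s hs).symm⟩, H.al_wk w I.al _⟩
  · rintro ⟨⟨s, rfl, rfl⟩, h⟩
    obtain ⟨t, ht⟩ := I.sur1 h
    exact ⟨t, by rw [I.wk, ht], I.ss t s ht⟩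

theorem fe1 (I : DIx M M' w c u) (H : M'.Ok) {a s : ℕ} (h : M'.al (M.wk w c (s + 1)))
    (e : M.ss w (M.wk w c s) = a)
    (k : ∀ r < s, ¬(M'.al (M.wk w c (r + 1)) ∧ M.ss w (M.wk w c r) = a)) :
    M'.FE w c a = M.wk w c (s + 1) := by
  obtain ⟨t, ht⟩ := I.sur1 h
  rw [FE_eq H I.al ((I.ss t s ht).trans e) fun t' h' e' => ?_, I.wk, ht]
  obtain ⟨r, hr⟩ := I.succ t'
  have := I.mono (Nat.succ_lt_succ h')
  exact k r (by simp only [Nat.succ_eq_add_one] at this; omega)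
    ⟨hr ▸ I.alu H _, (I.ss t' r hr).symm.trans e'⟩

theorem fe0 (I : DIx M M' w c u) (H : M'.Ok) {a : ℕ}
    (k : ∀ r, ¬(M'.al (M.wk w c (r + 1)) ∧ M.ss w (M.wk w c r) = a)) : M'.FE w c a = M'.n := by
  refine (FE_none H I.al).2 fun t e => ?_
  obtain ⟨r, hr⟩ := I.succ t
  exact k r ⟨hr ▸ I.alu H _, (I.ss t r hr).symm.trans e⟩

variable {A : Sg}

theorem sv (I : DIx M M' A.i A.p u) (t : ℕ) : M.sv A (u t) = M'.sv A t := by
  cases t with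
  | zero => rw [I.zero]; rfl
  | succ t =>
    obtain ⟨s, hs⟩ := I.succ t
    rw [hs, sv_succ, sv_succ]
    exact (I.ss t s hs).symm

theorem ln (I : DIx M M' A.i A.p u) (H : M.Ok) (H' : M'.Ok) (k : M.ok A) (k' : M'.ok A) :
    M.ln A = u (M'.ln A) := by
  obtain ⟨-, h1, h2⟩ := ln_spec H' k'
  refine ln_eq H k ((I.wk _).symm.trans h1) fun s hs e => ?_
  obtain ⟨t, rfl⟩ := I.sur s (by
    have := k'.2.2.al H' k'.2.1
    rwa [← e] at this)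
  exact h2 t (I.mono.lt_iff_lt.1 hs) ((I.wk t).trans e)

end DIx

theorem Ks.dix {Z : Ks} (d : Z.DeadK) (s : Z.SmoK) {w c : ℕ} (hw : w = 2 ∨ w = 3)
    (hc : Z.M'.al c) : ∃ u, DIx Z.M Z.M' w c u := by
  obtain ⟨u, h1, h2, h3, h4⟩ := s.idx hw hc
  have lv : ∀ t, Z.M.Lv Z.M' (Z.M.wk w c t) := fun t => by
    induction t with
    | zero => exact d.lv hc
    | succ t ih => rw [wk_succ]; exact (d.lvst hw ih).1
  refine ⟨u, hc, h1, h2, fun t => (h3 t).1, fun t r e => ?_, h4, fun t h => by_contra fun k => ?_⟩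
  · rw [(h3 t).2, e, Nat.add_sub_cancel]
  · exact h (wk_succ w c t ▸ (d.lvst hw (lv t)).2 k)

theorem downS : DownS := by
  intro Z H d s
  have al : ∀ {c}, Z.M'.al c → Z.M.al c := fun h => ((H.smo.al _).1 h).1
  have pa : ∀ {w c y}, w = 2 ∨ w = 3 → Z.M'.al c → (Z.M'.Pa w c y ↔ Z.M.Pa w c y ∧ Z.M'.al y) :=
    fun hw hc => let ⟨_, I⟩ := Ks.dix d s hw hc; I.pa H.ok'
  refine ⟨pa, fun {w c} hw hc => ?_, fun {w a b} hw ha hb => ?_, fun {w c x r a} hw hc => ?_,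
    fun {w c a} hw hc ha => ?_, fun hw hc h e k => ?_, fun hw hc k => ?_, fun {A} hw k' => ?_⟩
  · obtain ⟨u, I⟩ := Ks.dix d s hw hc
    constructor
    · rintro ⟨-, t, e⟩
      obtain ⟨⟨r, h, -⟩, -⟩ := (I.nxt H.ok').1 ⟨t, e, rfl⟩
      exact ⟨al hc, r, h⟩
    · rintro ⟨-, t, e⟩
      obtain ⟨r, h, -⟩ := (I.nxt H.ok').2 ⟨⟨t, e, rfl⟩, hc⟩
      exact ⟨hc, r, h⟩
  · constructor
    · rintro ⟨v, h1, h2⟩
      exact ⟨v, ((pa hw ha).1 h1).1, ((pa hw hb).1 h2).1⟩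
    · rintro ⟨_, ⟨t, rfl⟩, h2⟩
      obtain ⟨u, I⟩ := Ks.dix d s hw ha
      obtain ⟨r, hr⟩ := Nat.exists_eq_add_of_le (I.mono.le_apply (x := t))
      refine ⟨Z.M.wk w a (u t), (pa hw ha).2 ⟨Pa.wk _ _ _, I.alu H.ok' t⟩,
        (pa hw hb).2 ⟨h2.trans ⟨r, ?_⟩, I.alu H.ok' t⟩⟩
      rw [hr, wk_add]
  · obtain ⟨u, I⟩ := Ks.dix d s hw hc
    unfold Cm.Pw
    rw [I.nxt H.ok', or_and_right]
    exact or_congr_left ⟨fun h => ⟨h, h.1 ▸ hc⟩, And.left⟩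
  · obtain ⟨u, I⟩ := Ks.dix d s hw hc
    by_cases ex : ∃ t, Z.M.ss w (Z.M.wk w c t) = a
    · classical
      rw [FE_eq H.ok (al hc) (Nat.find_spec ex) fun _ => Nat.find_min ex]
      exact I.fe1 H.ok' (by_contra fun h => ha ((Nat.find_spec ex).symm.trans (I.two _ h)))
        (Nat.find_spec ex) fun r hr h => Nat.find_min ex hr h.2
    · rw [(FE_none H.ok (al hc)).2 fun t e => ex ⟨t, e⟩, I.fe0 H.ok' fun r h => ex ⟨r, h.2⟩,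
        H.smo.n]
  · obtain ⟨u, I⟩ := Ks.dix d s hw hc
    exact I.fe1 H.ok' h e k
  · obtain ⟨u, I⟩ := Ks.dix d s hw hc
    rw [I.fe0 H.ok' k, H.smo.n]
  · obtain ⟨u, I⟩ := Ks.dix d s hw k'.2.1
    have k : Z.M.ok A := ⟨k'.1, al k'.2.1, ((I.pa H.ok').1 k'.2.2).1⟩
    have l := I.ln H.ok H.ok' k k'
    refine ⟨k, fun y a => ⟨?_, ?_⟩, ?_, fun y y' hy hy' => ⟨?_, ?_⟩⟩
    · rintro ⟨t, h, rfl, rfl⟩
      exact ⟨⟨u t, l ▸ I.mono.monotone h, (I.wk t).symm, I.sv t⟩, el_al H.ok' k' t⟩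
    · rintro ⟨⟨r, h, rfl, rfl⟩, hy⟩
      obtain ⟨t, rfl⟩ := I.sur r hy
      exact ⟨t, I.mono.le_iff_le.1 (l ▸ h), I.wk t, (I.sv t).symm⟩
    · rintro _ _ ⟨r, -, rfl, rfl⟩ hy
      cases r with
      | zero => exact absurd k'.2.1 hy
      | succ r => exact I.two r hy
    · rintro ⟨r, t, h1, h2, rfl, rfl⟩
      exact ⟨u r, u t, I.mono.monotone h1, l ▸ I.mono.monotone h2, (I.wk r).symm, (I.wk t).symm⟩
    · rintro ⟨r, t, h1, h2, rfl, rfl⟩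
      obtain ⟨r, rfl⟩ := I.sur r hy
      obtain ⟨t, rfl⟩ := I.sur t hy'
      exact ⟨r, t, I.mono.le_iff_le.1 h1, I.mono.le_iff_le.1 (l ▸ h2), I.wk r, I.wk t⟩

end Pool.Agent.MP_1a6d78_lc.PG
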