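import Pool.Agent.MP_1a6d78_lc.PG.SpecB

/-! PROJECT PG, row DP: one stage and the loop. -/

namespace Pool.Agent.MP_1a6d78_lc.PG

open Classical ED PR GL Cm

namespace KDp

/-- One step of a wall, read backwards. -/
theorem back {M : Cm} (h : M.Ok) {i u : ℕ} (hi : i < 2) (hu : M.al u)
    (s : M.ss (3 - i) u = hs i) :
    M.st i (M.st (3 - i) u) = u ∧ M.ss i (M.st (3 - i) u) = hs i := by
  have e := h.lk_pt (i := 3 - i) hu
  have o : ep (3 - i) (hs i) = i := by
    obtain rfl | rfl : i = 0 ∨ i = 1 := by omega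
    all_goals decide
  rw [s, o] at e
  have e' : M.lk (pt (M.st (3 - i) u) i) = pt u (3 - i) := by rw [← e, h.inv]
  refine ⟨by rw [Cm.st, e', pt_div], ?_⟩
  rw [Cm.ss, e', sd, pt_mod]
  obtain rfl | rfl : i = 0 ∨ i = 1 := by omega
  all_goals decide

variable {K : Rn} {M M' : Cm} {i p : ℕ} (H : K.H2 M M')
include H

theorem ok : M.Ok := H.h1.g1.hy.ok

theorem ok' : M'.Ok := H.h1.g1.hy.ok'

theorem al_iff (c : ℕ) : M'.al c ↔ M.al c ∧ ¬M.Dead K.sel c := H.h1.g1.hy.smo.al c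

theorem obj_lt (hi : i < 2) (k : K.obj i p < M.n) :
    M.al p ∧ K.sel (K.obj i p) ∧ M.Co i p (K.obj i p) := (H.h1.sel.obj hi).1 ⟨rfl, k⟩

theorem obj_or (i p : ℕ) : K.obj i p < M.n ∨ K.obj i p = M.n := (H.h1.sel.ole i p).lt_or_eq

theorem alive (hi : i < 2) (hp : M.al p) {a t : ℕ} (k : M'.al (M.wk i p a)) (ht : t ≤ a) :
    M'.al (M.wk i p t) := by
  refine (al_iff H _).2 ⟨(ok H).al_wk i hp t, fun ⟨y, hy, d⟩ => ((al_iff H _).1 k).2 ⟨y, hy, ?_⟩⟩
  obtain ⟨r, rfl⟩ := Nat.exists_eq_add_of_le ht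
  rw [wk_add]
  exact iter_inv (Q := M.Dd y) (fun _ c => H.h1.g1.dead.st hy hi c) d r

theorem same {c : ℕ} (h : M'.al c) (k : M'.al (M.st i c)) :
    M'.lk (pt c i) = M.lk (pt c i) := H.h1.g1.smo.same (by rwa [pt_div]) k

theorem step (hi : i < 2) (hp : M'.al p) :
    K.obj i (M'.st i p) = K.obj i p ∨ K.obj i (M'.st i p) = M.n := by
  refine (obj_or H i (M'.st i p)).imp_left fun k => ?_
  obtain ⟨-, k1, k2⟩ := obj_lt H hi k
  have a := ((al_iff H _).1 hp).1
  rcases obj_or H i p with l | l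
  · obtain ⟨-, l1, l2⟩ := obj_lt H hi l
    exact H.h1.g1.run.inv hi l1 k1 hp l2 k2
  · have f : ∀ x, K.sel x → ¬M.Co i p x := fun x hx c => by
      have := (H.h1.sel.obj hi).2 ⟨a, hx, c⟩
      omega
    have e : M'.st i p = M.st i p := (H.h1.g1.smo.free hi a f 1).2.1
    rw [e] at k1 k2
    exact absurd ((Pa.step i p).co.trans k2) (f _ k1)

theorem inv (hi : i < 2) (hp : M'.al p) {u : ℕ} (k : M'.Pa i p u) :
    K.obj i u = K.obj i p ∨ K.obj i u = M.n := by
  obtain ⟨t, rfl⟩ := k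
  induction t with
  | zero => exact Or.inl rfl
  | succ t ih =>
    rw [wk_succ]
    rcases step H hi ((ok' H).al_wk i hp t) with e | e
    · rwa [e]
    · exact Or.inr e

theorem nx_n (k : K.obj i p = M.n) : K.nx i p = p := if_pos (k.trans H.h1.hy.n.symm)

theorem nx_lt (k : K.obj i p < M.n) :
    K.nx i p = if K.hp i p then K.dg i p / 4 else K.db i p :=
  if_neg (by rw [H.h1.hy.n]; exact k.ne)

variable (S : K.StageK M M')
include S

theorem one (hi : i < 2) (hp : M'.al p) (k : K.obj i p < M.n) : ∃ a b, K.One M M' i p a b := by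
  obtain ⟨pa, aq, -, -⟩ := S.q hi hp k
  have ea : M.wk i p (Nat.find pa) = K.dq i p := Nat.find_spec pa
  have fa : ∀ t < Nat.find pa, M.wk i p t ≠ K.dq i p := fun t ht => Nat.find_min pa ht
  generalize Nat.find pa = a at ea fa
  have al : ∀ t ≤ a, M'.al (M.wk i p t) := fun t ht =>
    alive H hi (obj_lt H hi k).1 (ea ▸ aq) ht
  have sm : ∀ t < a, M'.lk (pt (M.wk i p t) i) = M.lk (pt (M.wk i p t) i) := fun t ht =>
    same H (al t ht.le) (wk_succ (M := M) i p t ▸ al (t + 1) ht)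
  have old : ∀ t ≤ a, M'.wk i p t = M.wk i p t := fun t ht => by
    induction t with
    | zero => rfl
    | succ t ih => rw [wk_succ, wk_succ, ih (by omega), Cm.st, sm t ht, Cm.st]
  have ss : ∀ t < a, M'.ss i (M.wk i p t) = M.ss i (M.wk i p t) := fun t ht => by
    rw [Cm.ss, sm t ht, Cm.ss]
  have g1 : M'.wk i p (a + 1) = K.dg i p / 4 := by
    rw [wk_succ, old a le_rfl, ea, S.g hi hp k, Cm.st]
  have g2 : M'.ss i (K.dq i p) = sd i (K.dg i p) := by rw [S.g hi hp k, Cm.ss]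
  by_cases c : K.hp i p
  · exact ⟨a, 0, ea, fa, old, ss, ⟨g1, g2⟩, by rw [nx_lt H k, if_pos c, g1], fun _ => rfl,
      fun d => absurd c d⟩
  obtain ⟨-, ab, t0, t1, t2⟩ := S.b hi hp k c
  have o : M'.ok ⟨3 - i, K.db i p, hs i, K.dg i p / 4⟩ := ⟨by show 3 - i < 4; omega, ab, t0, t1⟩
  obtain ⟨-, l1, l2⟩ := ln_spec (ok' H) o
  generalize hb : M'.ln ⟨3 - i, K.db i p, hs i, K.dg i p / 4⟩ = b at l1 l2
  have l1' : M'.wk (3 - i) (K.db i p) b = K.dg i p / 4 := l1
  have bt : b ≤ t0 := not_lt.1 fun d => l2 t0 d t1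
  have s0 : M'.ss i (K.dq i p) = hs i := by
    have u := M'.ss_cases i (K.dq i p)
    have v : M'.ss i (K.dq i p) ≠ 0 := g2 ▸ c
    unfold hs
    split_ifs <;> omega
  have bk : ∀ t < b, M'.st i (M'.wk (3 - i) (K.db i p) (b - t)) =
      M'.wk (3 - i) (K.db i p) (b - (t + 1)) ∧
      M'.ss i (M'.wk (3 - i) (K.db i p) (b - t)) = hs i := fun t ht => by
    rw [show b - t = b - (t + 1) + 1 by omega, wk_succ]
    exact back (ok' H) hi ((ok' H).al_wk _ ab _) (t2 _ (by omega))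
  have rv : ∀ t ≤ b, M'.wk (3 - i) (K.db i p) (b - t) = M'.wk i p (a + 1 + t) := fun t ht => by
    induction t with
    | zero => exact l1'.trans g1.symm
    | succ t ih => rw [← add_assoc, wk_succ _ _ (a + 1 + t), ← ih (by omega), (bk t ht).1]
  refine ⟨a, b, ea, fa, old, ss, ⟨g1, g2⟩, ?_, fun d => absurd d c,
    fun _ => ⟨s0, hb, o, fun t ht => ⟨rv t ht, ?_, ?_⟩⟩⟩
  · rw [nx_lt H k, if_neg c, ← rv b le_rfl, Nat.sub_self, wk_zero]
  · cases t with
    | zero => rfl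
    | succ t => exact t2 t (by omega)
  · cases t with
    | zero => rw [add_zero, sw_succ, old a le_rfl, ea, s0]
    | succ t => rw [← add_assoc, sw_succ, ← rv t (by omega), (bk t ht).2]

theorem nx_pa (hi : i < 2) (hp : M'.al p) : M'.Pa i p (K.nx i p) := by
  rcases obj_or H i p with k | k
  · obtain ⟨a, b, o⟩ := one H S hi hp k
    exact ⟨_, o.nx⟩
  · rw [nx_n H k]
    exact Pa.refl _ _

theorem dp_eq (hi : i < 2) (hp : M'.al p) (k : ℕ) : K.dp i p k = (K.nx i)^[k] p :=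
  it_eq' (Q := M'.al) (fun _ c => (nx_pa H S hi c).al (ok' H) c) (fun a c => by
    rw [H.h1.hy.n]
    exact (ok H).lt a ((al_iff H a).1 c).1) hp k

theorem dp_succ (hi : i < 2) (hp : M'.al p) (k : ℕ) :
    K.dp i p (k + 1) = K.nx i (K.dp i p k) := by
  rw [dp_eq H S hi hp, dp_eq H S hi hp, Function.iterate_succ_apply']

theorem dp_pa (hi : i < 2) (hp : M'.al p) (k : ℕ) : M'.Pa i p (K.dp i p k) := by
  induction k with
  | zero => exact Pa.refl _ _
  | succ k ih =>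
    rw [dp_succ H S hi hp]
    exact ih.trans (nx_pa H S hi (ih.al (ok' H) hp))

theorem stay (hi : i < 2) (hp : M'.al p) {k l : ℕ} (e : K.obj i (K.dp i p k) = M.n) (h : k ≤ l) :
    K.dp i p l = K.dp i p k := by
  induction h with
  | refl => rfl
  | step _ ih => rw [dp_succ H S hi hp, ih, nx_n H e]

theorem cand (hi : i < 2) (hp : M'.al p) {k : ℕ} (e : K.obj i (K.dp i p k) < M.n) :
    M.Cand K.P.En (K.obj i p) (K.dp i p (k + 1)) := by
  have pa := dp_pa H S hi hp k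
  have a := pa.al (ok' H) hp
  rw [dp_succ H S hi hp, nx_lt H e, ← (inv H hi hp pa).resolve_right e.ne]
  split_ifs with c
  exacts [S.hp hi a e c, (S.b hi a e c).1]

theorem lt_le (hi : i < 2) (hp : M'.al p) {k l : ℕ} (e : K.obj i (K.dp i p l) < M.n) (h : k ≤ l) :
    K.obj i (K.dp i p k) < M.n :=
  (obj_or H _ _).resolve_right fun c => by
    rw [stay H S hi hp c h] at e
    exact e.ne c

theorem per (hi : i < 2) (hp : M'.al p) (e : K.obj i (K.dp i p K.nc) < M.n) :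
    ∃ s L, s ≤ K.nc ∧ 0 < L ∧ L ≤ K.nc ∧ ∀ k, s ≤ k → K.dp i p (k + L) = K.dp i p k := by
  have sx : K.sel (K.obj i p) := (obj_lt H hi (lt_le H S hi hp e (Nat.zero_le _))).2.1
  have ex : ∀ k : Fin (K.nc + 1), ∃ t : Fin K.nc, K.C (K.obj i p) t = K.dp i p (k + 1) := fun k =>
    let ⟨t, t1, t2⟩ := H.h1.sel.cex sx (cand H S hi hp (lt_le H S hi hp e (Nat.le_of_lt_succ k.2)))
    ⟨⟨t, t1⟩, t2⟩
  choose f hf using ex
  have key : ∀ u v : Fin (K.nc + 1), u < v → f u = f v →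
      ∃ s L, s ≤ K.nc ∧ 0 < L ∧ L ≤ K.nc ∧ ∀ k, s ≤ k → K.dp i p (k + L) = K.dp i p k := by
    intro u v uv d
    have uv' : (u : ℕ) < v := uv
    have v2 := v.2
    refine ⟨u + 1, v - u, by omega, by omega, by omega, fun k hk => ?_⟩
    induction hk with
    | refl => rw [show (u : ℕ) + 1 + (v - u) = v + 1 by omega, ← hf, ← hf, d]
    | @step m _ ih =>
      rw [Nat.succ_eq_add_one, add_right_comm, dp_succ H S hi hp, ih, dp_succ H S hi hp]
  obtain ⟨u, v, ne, d⟩ := Fintype.exists_ne_map_eq_of_card_lt f (by simp)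
  rcases lt_or_gt_of_ne ne with c | c
  exacts [key u v c d, key v u c d.symm]

theorem exit (hi : i < 2) (hp : M'.al p) {u : ℕ} (k : M'.Pa i p u) (e : K.obj i u = M.n) :
    K.obj i (K.dp i p K.nc) = M.n := by
  refine (obj_or H _ _).resolve_left fun c => ?_
  obtain ⟨s, L, s1, L0, -, pr⟩ := per H S hi hp c
  have pj : ∀ j, K.dp i p (s + j * L) = K.dp i p s := fun j => by
    induction j with
    | zero => rw [zero_mul, add_zero]
    | succ j ih => rw [Nat.succ_mul, ← add_assoc, pr _ (Nat.le_add_right _ _), ih]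
  have all : ∀ k, K.obj i (K.dp i p k) < M.n := fun k =>
    lt_le H S hi hp (l := s + k * L) (by rw [pj]; exact lt_le H S hi hp c s1)
      ((Nat.le_mul_of_pos_right k L0).trans (Nat.le_add_left _ _))
  have ix : ∀ k, ∃ m, k ≤ m ∧ M'.wk i p m = K.dp i p k := fun k => by
    induction k with
    | zero => exact ⟨0, le_rfl, rfl⟩
    | succ k ih =>
      obtain ⟨m, m1, m2⟩ := ih
      obtain ⟨a, b, o⟩ := one H S hi ((dp_pa H S hi hp k).al (ok' H) hp) (all k)
      exact ⟨m + (a + 1 + b), by omega, by rw [wk_add, m2, o.nx, dp_succ H S hi hp]⟩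
  obtain ⟨t, rfl⟩ := k
  obtain ⟨m, m1, m2⟩ := ix t
  obtain ⟨r, rfl⟩ := Nat.exists_eq_add_of_le m1
  rw [wk_add] at m2
  have := inv H hi ((ok' H).al_wk i hp t) ⟨r, m2⟩
  have := all t
  omega

end KDp

open KDp in
theorem dpS : DpS := fun _ _ _ H S =>
  ⟨one H S, fun hi hp k => inv H hi hp k,
    fun k hi hp => ⟨dp_succ H S hi hp k, (dp_pa H S hi hp k).al (ok' H) hp, dp_pa H S hi hp k⟩,
    fun hi hp k e => exit H S hi hp k e, fun hi hp e h => stay H S hi hp e h, per H S,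
    fun hi hp e => cand H S hi hp e⟩

end Pool.Agent.MP_1a6d78_lc.PG
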