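import Pool.Agent.MP_1a6d78_lc.PG.SpecB

namespace Pool.Agent.MP_1a6d78_lc.PG

open Classical ED PR GL

namespace KEn

variable {K : Rn} {M M' : Cm}

theorem al_old (H : K.H3 M M') {c : ℕ} (h : M'.al c) : M.al c :=
  ((H.h2.h1.g1.hy.smo.al c).1 h).1

theorem down (H : K.H3 M M') {w c : ℕ} (hw : w = 2 ∨ w = 3) (hc : M'.al c) :
    M.Pa w c (K.En' w c) ∧ M.Per w (K.En' w c) ∧ M'.al (K.En' w c) := by
  have G := H.h2.h1.g1
  have ok := H.h2.h1.hy.ok
  have N := H.h2.h1.hy.geo.nm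
  have h1 := N.pa w (by omega) c (al_old H hc)
  have h2 := N.per w (by omega) c (al_old H hc)
  unfold Rn.En'
  rw [H.h2.good.al, if_pos hc, if_pos (by omega)]
  split_ifs with h
  · exact ⟨h1, h2, h⟩
  · have h3 : M.Lv M' (K.P.En w c) := by
      obtain ⟨t, ht⟩ := h1
      rw [← ht]
      clear ht
      induction t with
      | zero => exact G.dead.lv hc
      | succ t ih => rw [Cm.wk_succ]; exact (G.dead.lvst hw ih).1
    obtain ⟨t, ht⟩ := G.smo.ex hw h3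
    have h4 : K.nxa w (K.P.En w c) / 4 = M.wk w (K.P.En w c) (t + 1) := by
      rw [H.h2.lam.nxa hw h3 ht, Cm.wk_succ]
      rfl
    rw [h4]
    exact ⟨h1.trans (Cm.Pa.wk _ _ _), (h2.pa ok (Cm.Pa.wk _ _ _)).1, ht.2⟩

theorem free (H : K.H3 M M') {i c : ℕ} (hi : i < 2) (hc : M'.al c) (h : K.obj i c = M.n)
    (t : ℕ) : M'.wk i c t = M.wk i c t := by
  refine (H.h2.h1.g1.smo.free hi (al_old H hc) (fun x hx hco => ?_) t).2.1
  have := (H.h2.h1.sel.obj hi).2 ⟨al_old H hc, hx, hco⟩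
  omega

theorem free_pa (H : K.H3 M M') {i c y : ℕ} (hi : i < 2) (hc : M'.al c) (h : K.obj i c = M.n) :
    M'.Pa i c y ↔ M.Pa i c y := by
  unfold Cm.Pa
  simp only [free H hi hc h]

theorem exit_iff (H : K.H3 M M') {i c : ℕ} (hi : i < 2) (hc : M'.al c) :
    K.obj i (K.dp i c (K.nc + 1)) = M.n ↔ ∃ u, M'.Pa i c u ∧ K.obj i u = M.n := by
  refine ⟨fun h => ⟨_, (H.dp.dp _ hi hc).2.2, h⟩, fun ⟨u, h1, h2⟩ => ?_⟩
  have h3 := H.dp.exit hi hc h1 h2
  rw [H.dp.stay hi hc h3 (Nat.le_succ _)]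
  exact h3

theorem wk_mod {N : Cm} {i d P : ℕ} (h : N.wk i d P = d) (m : ℕ) :
    N.wk i d m = N.wk i d (m % P) := by
  have h1 : ∀ q, N.wk i d (P * q) = d := by
    intro q
    induction q with
    | zero => rfl
    | succ q ih => rw [Nat.mul_succ, Cm.wk_add, ih, h]
  conv_lhs => rw [← Nat.div_add_mod m P, Cm.wk_add, h1]

theorem locate (u : ℕ → ℕ) (k m L : ℕ) (h1 : u k ≤ m) (h2 : m < u (k + L)) :
    ∃ j < L, u (k + j) ≤ m ∧ m < u (k + j + 1) := by
  induction L with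
  | zero => exact absurd h1 (not_le.2 h2)
  | succ L ih =>
    by_cases h : m < u (k + L)
    · obtain ⟨j, h3, h4⟩ := ih h
      exact ⟨j, by omega, h4⟩
    · exact ⟨L, by omega, not_lt.1 h, h2⟩

theorem onp_iff (H : K.H3 M M') (F : K.PfK M M') {i c : ℕ} (hi : i < 2) (hc : M'.al c)
    (h : K.obj i (K.dp i c (K.nc + 1)) ≠ M.n) : M'.Per i (K.dp i c (K.nc + 1)) ∧
      ∀ y, M'.al y → (K.onp i c y ↔ M'.Per i y ∧ M'.Co i y c) := by
  have ok' : M'.Ok := H.h2.h1.g1.hy.ok'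
  have hall : ∀ k, K.obj i (K.dp i c k) < M.n := fun k =>
    lt_of_le_of_ne (H.h2.h1.sel.ole _ _) fun e =>
      h ((exit_iff H hi hc).2 ⟨_, (H.dp.dp k hi hc).2.2, e⟩)
  obtain ⟨u, a, b, I⟩ := H.idx hi hc
  have hu : StrictMono u := strictMono_nat_of_lt_succ fun k => by
    have := (I.one k (hall k)).2
    omega
  obtain ⟨s, L, h1, h2, h3, h4⟩ := H.dp.per hi hc (hall _)
  obtain ⟨k, hk⟩ : ∃ k, k = K.nc + 1 := ⟨_, rfl⟩
  rw [← hk]
  have h5 : u k < u (k + L) := hu (by omega)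
  have h6 : ∀ m, M'.wk i (K.dp i c k) m = M'.wk i c (u k + m) := fun m => by
    rw [Cm.wk_add, I.dp]
  have h7 : M'.wk i (K.dp i c k) (u (k + L) - u k) = K.dp i c k := by
    rw [h6, show u k + (u (k + L) - u k) = u (k + L) by omega, I.dp, h4 k (by omega)]
  have hper : M'.Per i (K.dp i c k) := by
    refine ⟨(H.dp.dp k hi hc).2.1, u (k + L) - u k - 1, ?_⟩
    rw [← Cm.wk_succ', show u (k + L) - u k - 1 + 1 = u (k + L) - u k by omega, h7]
  refine ⟨hper, fun y hy => ?_⟩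
  unfold Rn.onp
  rw [← hk]
  constructor
  · rintro ⟨l, _, hl⟩
    have h8 : ∃ m, u k ≤ m ∧ M'.wk i c m = y := by
      have h9 : u k ≤ u (k + l / 2) := hu.monotone (by omega)
      obtain ⟨_, _, p1, p2⟩ := F 0 (k + l / 2) y hi hc I (hall _)
      rcases Nat.mod_two_eq_zero_or_one l with e | e
      · rw [show 2 * k + l = 2 * (k + l / 2) by omega] at hl
        obtain ⟨t, _, ht⟩ := p1.1 hl
        exact ⟨_, by omega, ht⟩
      · rw [show 2 * k + l = 2 * (k + l / 2) + 1 by omega] at hl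
        obtain ⟨_, t, _, ht⟩ := (p2 hy).1 hl
        exact ⟨_, by omega, ht⟩
    obtain ⟨m, h9, h10⟩ := h8
    refine ⟨(hper.pa ok' ⟨m - u k, ?_⟩).1, (Cm.Pa.co ⟨m, h10⟩).symm⟩
    rw [h6, show u k + (m - u k) = m by omega, h10]
  · rintro ⟨p1, p2⟩
    obtain ⟨m, hm⟩ := (((H.dp.dp k hi hc).2.2.co.symm).trans p2.symm).pa ok' p1
    rw [wk_mod h7, h6] at hm
    have h8 : m % (u (k + L) - u k) < u (k + L) - u k := Nat.mod_lt _ (by omega)
    obtain ⟨j, j1, j2, j3⟩ := locate u k (u k + m % (u (k + L) - u k)) L (by omega) (by omega)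
    obtain ⟨o1, o2⟩ := I.one (k + j) (hall _)
    obtain ⟨_, _, q1, q2⟩ := F 0 (k + j) y hi hc I (hall _)
    generalize u k + m % (u (k + L) - u k) = r at hm j2 j3
    by_cases h9 : r ≤ u (k + j) + a (k + j)
    · refine ⟨2 * j, by omega, ?_⟩
      rw [show 2 * k + 2 * j = 2 * (k + j) by omega]
      exact q1.2 ⟨r - u (k + j), by omega, by rw [← hm]; congr 1; omega⟩
    · refine ⟨2 * j + 1, by omega, ?_⟩
      rw [show 2 * k + (2 * j + 1) = 2 * (k + j) + 1 by omega]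
      refine (q2 hy).2 ⟨fun e => ?_, r - (u (k + j) + a (k + j) + 1), by omega,
        by rw [← hm]; congr 1; omega⟩
      have := o1.hop e
      omega

theorem en_exit (H : K.H3 M M') {i c : ℕ} (hi : i < 2) (hc : M'.al c)
    (h : K.obj i (K.dp i c (K.nc + 1)) = M.n) :
    K.En' i c = K.P.En i (K.dp i c (K.nc + 1)) := by
  unfold Rn.En'
  rw [H.h2.good.al, if_pos hc, if_neg (by omega), H.h2.h1.hy.n, if_pos h]

theorem sel_obj (H : K.H3 M M') {i c : ℕ} (hi : i < 2) (hc : M'.al c)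
    (h : K.obj i (K.dp i c (K.nc + 1)) ≠ M.n) : K.sel (K.obj i c) :=
  ((H.h2.h1.sel.obj hi).1 ⟨rfl, lt_of_le_of_ne (H.h2.h1.sel.ole _ _) fun e =>
    h ((exit_iff H hi hc).2 ⟨c, Cm.Pa.refl _ _, e⟩)⟩).2.1

theorem en_stay (H : K.H3 M M') (F : K.PfK M M') {i c : ℕ} (hi : i < 2) (hc : M'.al c)
    (h : K.obj i (K.dp i c (K.nc + 1)) ≠ M.n) :
    K.En' i c = K.gd (K.obj i c) (lst K.nc fun t => ∀ m < K.nc,
      (if M'.Per i (K.gd (K.obj i c) t) ∧ M'.Co i (K.gd (K.obj i c) t) c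
        then K.gd (K.obj i c) t else M.n) ≤
      (if M'.Per i (K.gd (K.obj i c) m) ∧ M'.Co i (K.gd (K.obj i c) m) c
        then K.gd (K.obj i c) m else M.n)) := by
  have key : ∀ t < K.nc, (if K.onp i c (K.gd (K.obj i c) t) then K.gd (K.obj i c) t else M.n) =
      if M'.Per i (K.gd (K.obj i c) t) ∧ M'.Co i (K.gd (K.obj i c) t) c
        then K.gd (K.obj i c) t else M.n := by
    intro t ht
    rcases H.h2.good.gal (sel_obj H hi hc h) ht with e | e
    · rw [e]; simp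
    · simp only [(onp_iff H F hi hc h).2 _ e.1]
  unfold Rn.En'
  rw [H.h2.good.al, if_pos hc, if_neg (by omega), H.h2.h1.hy.n, if_neg h]
  congr 1
  unfold amin
  refine lst_congr fun t ht => ?_
  beta_reduce
  rw [key t ht]
  exact forall₂_congr fun m hm => by rw [key m hm]

theorem up (H : K.H3 M M') (F : K.PfK M M') {i c : ℕ} (hi : i < 2) (hc : M'.al c) :
    M'.Pa i c (K.En' i c) ∧ M'.Per i (K.En' i c) := by
  have ok' : M'.Ok := H.h2.h1.g1.hy.ok'
  have N := H.h2.h1.hy.geo.nm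
  obtain ⟨-, d1, d2⟩ := H.dp.dp (K.nc + 1) hi hc
  by_cases h : K.obj i (K.dp i c (K.nc + 1)) = M.n
  · rw [en_exit H hi hc h]
    have h1 := (free_pa H hi d1 h).2 (N.pa i (by omega) _ (al_old H d1))
    have h2 := h1.al ok' d1
    have h3 : K.obj i (K.P.En i (K.dp i c (K.nc + 1))) = M.n :=
      (H.dp.inv hi d1 h1).elim (fun e => e.trans h) id
    refine ⟨d2.trans h1, h2, ?_⟩
    obtain ⟨t, ht⟩ := (N.per i (by omega) _ (al_old H d1)).2
    exact ⟨t, by rw [← Cm.wk_succ', free H hi h2 h3, Cm.wk_succ', ht]⟩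
  · rw [en_stay H F hi hc h]
    have h1 : K.obj i (K.dp i c K.nc) < M.n := lt_of_le_of_ne (H.h2.h1.sel.ole _ _) fun e =>
      h ((exit_iff H hi hc).2 ⟨_, (H.dp.dp _ hi hc).2.2, e⟩)
    obtain ⟨t, t1, t2⟩ := H.h2.good.gex (sel_obj H hi hc h) (H.dp.cand hi hc h1) d1
    have h2 := (amin_spec (fun t => if M'.Per i (K.gd (K.obj i c) t) ∧
      M'.Co i (K.gd (K.obj i c) t) c then K.gd (K.obj i c) t else M.n) (by omega : 0 < K.nc)).2 t t1
    unfold amin at h2
    have h3 := H.h2.h1.hy.ok.lt _ (al_old H d1)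
    rw [t2, if_pos (⟨(onp_iff H F hi hc h).1, d2.co.symm⟩ : _ ∧ _)] at h2
    split_ifs at h2 with h4
    · exact ⟨h4.2.symm.pa ok' h4.1, h4.1⟩
    · omega

end KEn

open KEn in
theorem enS : EnS := by
  intro K M M' H F
  have ok := H.h2.h1.hy.ok
  have ok' : M'.Ok := H.h2.h1.g1.hy.ok'
  have N := H.h2.h1.hy.geo.nm
  have D := H.h2.h1.g1.down
  refine ⟨⟨fun i _ c hc => ?_, fun i hi c hc => ?_, fun i hi c hc => ?_, fun i hi c hc => ?_⟩,
    fun {i c} hi hc h => ?_, fun {i c} hi hc h => ?_⟩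
  · unfold Rn.En'
    rw [H.h2.good.al, if_neg hc, H.h2.h1.hy.n]
    exact H.h2.h1.g1.hy.smo.n.symm
  · by_cases h : i < 2
    · exact (up H F h hc).1
    · have hw : i = 2 ∨ i = 3 := by omega
      exact (D.pa hw hc).2 ⟨(down H hw hc).1, (down H hw hc).2.2⟩
  · by_cases h : i < 2
    · exact (up H F h hc).2
    · have hw : i = 2 ∨ i = 3 := by omega
      exact (D.per hw (down H hw hc).2.2).2 (down H hw hc).2.1
  · have hc' := ok'.al_st i hc
    have hp := Cm.Pa.step (M := M') i c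
    by_cases h : i < 2
    · have e : K.obj i (K.dp i (M'.st i c) (K.nc + 1)) = M.n ↔
          K.obj i (K.dp i c (K.nc + 1)) = M.n := by
        rw [exit_iff H h hc, exit_iff H h hc']
        refine ⟨fun ⟨u, h1, h2⟩ => ⟨u, hp.trans h1, h2⟩, fun ⟨u, h1, h2⟩ => ?_⟩
        rcases h1.cases with rfl | h1
        · exact ⟨_, Cm.Pa.refl _ _, (H.dp.inv h hc hp).elim (fun e => e.trans h2) id⟩
        · exact ⟨u, h1, h2⟩
      by_cases h1 : K.obj i (K.dp i c (K.nc + 1)) = M.n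
      · rw [en_exit H h hc h1, en_exit H h hc' (e.2 h1)]
        obtain ⟨-, d1, d2⟩ := H.dp.dp (K.nc + 1) h hc
        obtain ⟨-, d3, d4⟩ := H.dp.dp (K.nc + 1) h hc'
        rcases d2.tot (hp.trans d4) with h2 | h2
        · exact N.pa_eq ok hi (al_old H d1) ((free_pa H h d1 h1).1 h2)
        · exact (N.pa_eq ok hi (al_old H d3) ((free_pa H h d3 (e.2 h1)).1 h2)).symm
      · have h2 : K.obj i (M'.st i c) = K.obj i c := (H.dp.inv h hc hp).resolve_right fun e' =>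
          h1 ((exit_iff H h hc).2 ⟨_, hp, e'⟩)
        have h3 : ∀ y, M'.Co i y (M'.st i c) ↔ M'.Co i y c := fun y =>
          ⟨fun a => a.trans hp.co.symm, fun a => a.trans hp.co⟩
        rw [en_stay H F h hc h1, en_stay H F h hc' fun a => h1 (e.1 a), h2]
        simp only [h3]
    · have hw : i = 2 ∨ i = 3 := by omega
      have e := N.pa_eq ok hi (al_old H hc) ((D.pa hw hc).1 hp).1
      unfold Rn.En'
      rw [H.h2.good.al, if_pos hc, if_pos hc', if_pos (by omega), if_pos (by omega : 2 ≤ i), e]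
  · exact ((H.dp.inv hi hc (up H F hi hc).1).resolve_right h.ne).symm
  · by_cases h1 : i < 2
    · have h2 : K.obj i c = M.n := le_antisymm (H.h2.h1.sel.ole _ _)
        (not_lt.1 fun a => h ⟨h1, H.h2.h1.hy.n ▸ a⟩)
      obtain ⟨u, a, b, I⟩ := H.idx h1 hc
      have h3 : K.dp i c 0 = c := by rw [← I.dp 0, I.zero]; rfl
      have h4 : K.dp i c (K.nc + 1) = c := by
        rw [H.dp.stay h1 hc (k := 0) (by rw [h3, h2]) (Nat.zero_le _), h3]
      rw [en_exit H h1 hc (by rw [h4, h2]), h4]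
      exact N.idem ok hi (al_old H hc)
    · exact N.pa_eq ok hi (al_old H hc) (down H (by omega) hc).1

end Pool.Agent.MP_1a6d78_lc.PG
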