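import Pool.Agent.MP_1a6d78_lc.PG.SpecB

/-! PROJECT PG, row FE: the new primitive `FE` of the kill round. -/

namespace Pool.Agent.MP_1a6d78_lc.PG

open Classical ED PR GL Cm

namespace KFe

variable {K : Rn} {M M' : Cm} (H : K.H3 M M')
include H

theorem ok' : M'.Ok := H.h2.h1.g1.hy.ok'

theorem nn : M'.n = M.n := H.h2.h1.g1.hy.smo.n

theorem al_of {p : ℕ} (k : M'.al p) : M.al p := ((H.h2.h1.g1.hy.smo.al p).1 k).1

/-- The walk leaves the selected basins: nothing changes. -/
theorem exit {i p s : ℕ} (hi : i < 2) (hs : s < 4) (k : M'.al p) (e : K.obj i p = M.n) :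
    K.fe i p s = M'.FE i p s := by
  have hy := H.h2.h1.hy
  have k0 := al_of H k
  have fr := H.h2.h1.g1.smo.free hi k0 (fun x hx c => by
    have := (H.h2.h1.sel.obj hi).2 ⟨k0, hx, c⟩
    omega)
  have w : ∀ t, M'.wk i p t = M.wk i p t := fun t => (fr t).2.1
  have ss : ∀ t, M'.ss i (M'.wk i p t) = M.ss i (M.wk i p t) := fun t => by
    rw [w]; exact (fr t).2.2
  rw [Rn.fe, if_pos (Or.inl (e.trans hy.n.symm)), hy.geo.FE i (by omega) s hs]
  rcases FE_le hy.ok i p s with c | c
  · rw [c, ← nn H]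
    exact ((FE_none (ok' H) k).2 fun t => ss t ▸ (FE_none hy.ok k0).1 c t).symm
  · obtain ⟨-, t, t1, t2, t3⟩ := FE_spec hy.ok (hy.ok.lt _ c)
    rw [t1, FE_eq (ok' H) k ((ss t).trans t2) fun r hr => ss r ▸ t3 r hr, w]

/-- One stage. -/
theorem stage {i p s a b : ℕ} (hi : i < 2) (hs : s < 4) (k : M'.al p) (e : K.obj i p < M.n)
    (O : K.One M M' i p a b) :
    (K.fe i p s < M.n ∧ K.fe i p s = M'.FE i p s) ∨
      (K.fe i p s = M.n ∧ ∀ t < a + 1 + b, M'.ss i (M'.wk i p t) ≠ s) := by
  have hy := H.h2.h1.hy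
  have k0 := al_of H k
  have o : M.ok ⟨i, p, 0, K.dq i p⟩ := ⟨by show i < 4; omega, k0, a, O.q⟩
  have l : M.ln ⟨i, p, 0, K.dq i p⟩ = a := ln_eq hy.ok o O.q O.fst
  have ss : ∀ t < a, M'.ss i (M'.wk i p t) = M.ss i (M.wk i p t) := fun t ht => by
    rw [O.old t ht.le]; exact O.ss t ht
  have on := hy.geo.On_iff hy.ok (y := M.FE i p s) hs o.wo
  unfold Rn.fe
  rw [hy.n, hy.geo.FE i (by omega) s hs, on]
  by_cases c : ∃ t < a, M.ss i (M.wk i p t) = s
  · obtain ⟨t, t1, t2, t3⟩ : ∃ t < a, M.ss i (M.wk i p t) = s ∧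
        ∀ r < t, M.ss i (M.wk i p r) ≠ s :=
      ⟨Nat.find c, (Nat.find_spec c).1, (Nat.find_spec c).2, fun r hr u =>
        Nat.find_min c hr ⟨hr.trans (Nat.find_spec c).1, u⟩⟩
    have f := FE_eq hy.ok k0 t2 t3
    rw [if_pos (Or.inr ⟨o, t + 1, by omega, f.symm, t2⟩)]
    refine Or.inl ⟨f ▸ hy.ok.lt _ (hy.ok.al_wk i k0 _), ?_⟩
    rw [f, FE_eq (ok' H) k ((ss t t1).trans t2) fun r hr => ss r (by omega) ▸ t3 r hr,
      O.old _ (by omega)]
  have c' : ∀ t < a, M'.ss i (M'.wk i p t) ≠ s := fun t ht u => c ⟨t, ht, ss t ht ▸ u⟩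
  have q : M'.wk i p a = K.dq i p := (O.old a le_rfl).trans O.q
  rw [if_neg]
  · split_ifs with d
    · refine Or.inl ⟨?_, ?_⟩
      · rw [← O.g.1, ← nn H]
        exact (ok' H).lt _ ((ok' H).al_wk i k _)
      · rw [FE_eq (ok' H) k (t := a) (by rw [q, O.g.2, d]) c', O.g.1]
    · refine Or.inr ⟨rfl, fun t ht => ?_⟩
      rcases lt_trichotomy t a with u | rfl | u
      · exact c' t u
      · rwa [q, O.g.2]
      · obtain ⟨r, rfl⟩ := Nat.exists_eq_add_of_lt u
        have w := O.wall fun v => by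
          have := O.hop v
          omega
        have := (w.2.2.2 (r + 1) (by omega)).2.2
        rw [show a + 1 + (r + 1) = a + r + 1 + 1 by omega, sw_succ] at this
        rwa [this, ← w.1, O.g.2]
  · rintro (u | ⟨-, t, t1, t2, t3⟩)
    · omega
    · cases t with
      | zero =>
        have t2 : p = M.FE i p s := t2
        obtain ⟨-, r, r1, -⟩ := FE_spec hy.ok (t2 ▸ hy.ok.lt _ k0 : M.FE i p s < M.n)
        exact (H.stage.q hi k e).2.2.2 ⟨k0, r, by rw [← wk_succ', ← r1, ← t2]⟩
      | succ t => exact c ⟨t, by omega, t3⟩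

theorem up {i c s : ℕ} (hi : i < 2) (hs : s < 4) (k : M'.al c) :
    K.fe i (K.dp i c (lst (2 * (K.nc + 1)) fun l => K.fe i (K.dp i c l) s < M.n)) s =
      M'.FE i c s := by
  obtain ⟨u, a, b, I⟩ := H.idx hi k
  have h := ok' H
  have al : ∀ l, M'.al (K.dp i c l) := fun l => (H.dp.dp l hi k).2.1
  have wk : ∀ l t, M'.wk i c (u l + t) = M'.wk i (K.dp i c l) t := fun l t => by
    rw [wk_add, I.dp]
  have cs : ∀ l, K.obj i (K.dp i c l) = M.n ∨ K.obj i (K.dp i c l) < M.n := fun l =>
    (H.h2.h1.sel.ole _ _).eq_or_lt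
  have key : ∀ l, (∀ r < l, ¬K.fe i (K.dp i c r) s < M.n) →
      (∀ t, M'.ss i (M'.wk i c t) ≠ s) ∨ (l ≤ u l ∧ ∀ t < u l, M'.ss i (M'.wk i c t) ≠ s) := by
    intro l
    induction l with
    | zero => exact fun _ => Or.inr ⟨Nat.zero_le _, fun t ht => by rw [I.zero] at ht; omega⟩
    | succ l ih =>
      intro Q
      rcases ih fun r hr => Q r (by omega) with v | ⟨v1, v⟩
      · exact Or.inl v
      have Ql := Q l (by omega)
      rcases cs l with e | e
      · rw [exit H hi hs (al l) e, ← nn H] at Ql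
        have := (FE_none h (al l)).1 ((FE_le h i _ s).resolve_right fun z => Ql (h.lt _ z))
        refine Or.inl fun t => ?_
        rcases lt_or_ge t (u l) with d | d
        · exact v t d
        · obtain ⟨r, rfl⟩ := Nat.exists_eq_add_of_le d
          rw [wk]
          exact this r
      · obtain ⟨O, e'⟩ := I.one l e
        have := ((stage H hi hs (al l) e O).resolve_left fun z => Ql z.1).2
        refine Or.inr ⟨by omega, fun t ht => ?_⟩
        rcases lt_or_ge t (u l) with d | d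
        · exact v t d
        · obtain ⟨r, rfl⟩ := Nat.exists_eq_add_of_le d
          rw [wk]
          exact this r (by omega)
  have val : ∀ l, K.fe i (K.dp i c l) s = M.n ∨
      K.fe i (K.dp i c l) s = M'.FE i (K.dp i c l) s := fun l =>
    (cs l).elim (fun e => Or.inr (exit H hi hs (al l) e)) fun e =>
      (stage H hi hs (al l) e (I.one l e).1).elim (fun z => Or.inr z.2) fun z => Or.inl z.1
  by_cases ex : ∃ l < 2 * (K.nc + 1), K.fe i (K.dp i c l) s < M.n
  · have s1 := lst_spec ex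
    have s2 : ∀ r < lst (2 * (K.nc + 1)) fun l => K.fe i (K.dp i c l) s < M.n,
        ¬K.fe i (K.dp i c r) s < M.n := fun r hr z =>
      absurd (lst_le (P := fun l => K.fe i (K.dp i c l) s < M.n) (hr.trans s1.1) z) (by omega)
    generalize (lst (2 * (K.nc + 1)) fun l => K.fe i (K.dp i c l) s < M.n) = l at s1 s2
    have e := (val l).resolve_left s1.2.ne
    obtain ⟨-, t, t1, t2, t3⟩ := FE_spec h (i := i) (c := K.dp i c l) (a := s)
      (by rw [← e, nn H]; exact s1.2)
    have v : ∀ t < u l, M'.ss i (M'.wk i c t) ≠ s := (key l s2).elim (fun z t _ => z t) fun z => z.2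
    rw [e, t1, ← wk, ← add_assoc]
    refine (FE_eq h k (by rw [wk]; exact t2) fun r hr => ?_).symm
    rcases lt_or_ge r (u l) with d | d
    · exact v r d
    · obtain ⟨r, rfl⟩ := Nat.exists_eq_add_of_le d
      rw [wk]
      exact t3 r (by omega)
  · have all : ∀ l, ¬K.fe i (K.dp i c l) s < M.n := by
      intro l
      induction l using Nat.strong_induction_on with
      | _ l ih =>
        by_cases d : l < 2 * (K.nc + 1)
        · exact fun z => ex ⟨l, d, z⟩
        rcases cs K.nc with e | e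
        · rw [H.dp.stay hi k e (by omega : K.nc ≤ l)]
          exact ih _ (by omega)
        · obtain ⟨s0, L, a1, a2, a3, a4⟩ := H.dp.per hi k e
          have := a4 (l - L) (by omega)
          rw [show l - L + L = l by omega] at this
          rw [this]
          exact ih _ (by omega)
    have e : M'.FE i c s = M'.n := (FE_none h k).2 fun t =>
      (key (t + 1) fun r _ => all r).elim (fun z => z t) fun z => z.2 t (by omega)
    rw [e, nn H]
    generalize (lst (2 * (K.nc + 1)) fun l => K.fe i (K.dp i c l) s < M.n) = l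
    rcases val l with z | z
    · exact z
    · rcases FE_le h i (K.dp i c l) s with y | y
      · rw [z, y, nn H]
      · exact absurd (by rw [z, ← nn H]; exact h.lt _ y) (all l)

end KFe

theorem feS : FeS := by
  intro K M M' H i hi a ha c
  unfold Rn.FE'
  rw [H.h2.good.al, H.h2.h1.hy.n]
  split_ifs with k d
  · exact H.h2.lam.fed (by omega) ha (Or.inl k)
  · exact KFe.up H (by omega) ha k
  · rw [FE_dead k, KFe.nn H]

end Pool.Agent.MP_1a6d78_lc.PG
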