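import Pool.Agent.MP_1a6d78_lc.PG.SpecB

/-! PROJECT PG, row KGOOD: the fixpoint that finds the surviving candidates. -/

namespace Pool.Agent.MP_1a6d78_lc.PG

open Classical ED PR GL Cm

namespace KGood

theorem pw_iff (M : Cm) (i p s r a : ℕ) :
    M.Pw i p s r a ↔ ∃ t, M.wk i p t = r ∧ M.sw i p s t = a := by
  constructor
  · rintro (⟨rfl, rfl⟩ | ⟨t, c⟩)
    exacts [⟨0, rfl, rfl⟩, ⟨t + 1, c⟩]
  · rintro ⟨t, c⟩
    cases t with
    | zero => exact Or.inl ⟨c.1.symm, c.2.symm⟩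
    | succ t => exact Or.inr ⟨t, c⟩

theorem iter_red {f : ℕ → ℕ} {d a b : ℕ} (l : a < b) (e : f^[a] d = f^[b] d) (r : ℕ) :
    ∃ r' < b, f^[r] d = f^[r'] d := by
  induction r with
  | zero => exact ⟨0, by omega, rfl⟩
  | succ r ih =>
    obtain ⟨s, h, k⟩ := ih
    have k' : f^[r + 1] d = f^[s + 1] d := by
      rw [Function.iterate_succ_apply', Function.iterate_succ_apply', k]
    rcases Nat.lt_or_ge (s + 1) b with u | u
    · exact ⟨s + 1, u, k'⟩
    · exact ⟨a, l, by rw [k', e, show s + 1 = b by omega]⟩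

variable {K : Rn} {M M' : Cm} (H : K.H1 M M')
include H

theorem meets (p s b : ℕ) : K.meets p s b ↔ M.al p ∧ M.al b ∧ M.Mt p s b := by
  have G := H.hy.geo
  have h := H.hy.ok
  have w : ∀ l < 2, M.wo (K.P.fu 3 b 3 l) := fun l _ => G.fu_wo h _ _ _ (by omega)
  unfold Rn.meets
  rw [H.hy.n, G.pa_iff h (by omega)]
  by_cases k : M.al p
  swap
  · rw [G.early_dead h (by omega) (by omega) (by omega) (by omega) k w]
    exact iff_of_false (fun c => c.elim (fun c => k c.1) (lt_irrefl _)) fun c => k c.1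
  rw [(G.early_fst h (by omega) (by omega) (by omega) (by omega) k w).lt_iff]
  constructor
  · rintro (c | ⟨t, c1, l, l2, o, c2⟩)
    · exact ⟨k, c.2.al h k, Or.inl c.2⟩
    · have hb := (G.fu_ok_iff h _ _ (by omega)).1 o
      exact ⟨k, hb, Or.inr ⟨_, (pw_iff ..).2 ⟨t, rfl, c1⟩,
        (pw_iff ..).2 ((G.fu_ps h 3 (by omega) hb _ _).1 ⟨l, l2, c2⟩)⟩⟩
  · rintro ⟨_, hb, c | ⟨r, c1, c2⟩⟩
    · exact Or.inl ⟨k, c⟩
    · obtain ⟨t, e, c3⟩ := (pw_iff ..).1 c1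
      obtain ⟨l, l2, c4⟩ := (G.fu_ps h 3 (by omega) hb _ _).2 ((pw_iff ..).1 c2)
      exact Or.inr ⟨t, c3, l, l2, G.fu_ok h _ _ (by omega) hb, e ▸ c4⟩

theorem hop_eq (b : ℕ) : K.hop b = if M.FE 0 b 3 < M.n then M.FE 2 (M.FE 0 b 3) 1 else b := by
  unfold Rn.hop
  rw [H.hy.n, H.hy.geo.FE 0 (by omega) 3 (by omega), H.hy.geo.FE 2 (by omega) 1 (by omega)]

theorem hop_rg (b : ℕ) : M.Rg (4 * b) (4 * K.hop b) := by
  rw [hop_eq H]
  split_ifs with c
  exacts [(H.meet.hop c).2, ⟨0, rfl⟩]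

theorem hops_rg (b r : ℕ) : M.Rg (4 * b) (4 * K.hop^[r] b) := by
  induction r with
  | zero => exact ⟨0, rfl⟩
  | succ r ih => rw [Function.iterate_succ_apply']; exact Ct.rg_trans ih (hop_rg H _)

theorem al_rg {b c : ℕ} (k : M.al b) (r : M.Rg (4 * b) (4 * c)) : M.al c := by
  have := Ct.rg_al H.hy.ok r
  rw [Nat.mul_div_cancel_left _ (by omega), Nat.mul_div_cancel_left _ (by omega)] at this
  exact this.2 k

theorem it_hop {b : ℕ} (k : M.al b) (r : ℕ) : it K.n K.hop r b = K.hop^[r] b := by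
  rw [H.hy.n]
  exact it_eq' (Q := M.al) (fun a u => al_rg H u (hop_rg H a)) H.hy.ok.lt k r

theorem al' (c : ℕ) : M'.al c ↔ M.al c ∧ ¬∃ x, K.sel x ∧ M.Dd x c := H.g1.hy.smo.al c

theorem hops_al' {b : ℕ} (k : M'.al b) (r : ℕ) : M'.al (K.hop^[r] b) := by
  obtain ⟨k1, k2⟩ := (al' H b).1 k
  exact (al' H _).2 ⟨al_rg H k1 (hops_rg H b r), fun ⟨x, s, d⟩ =>
    k2 ⟨x, s, H.g1.dead.rg d (Ct.rg_symm H.hy.ok (hops_rg H b r))⟩⟩

/-- Surviving candidates pass every round. -/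
theorem surv {x : ℕ} (s : K.sel x) (k : ℕ) : ∀ t, M'.al (K.C x t) → K.G k x t := by
  have h := H.hy.ok
  induction k with
  | zero => exact fun t a => (h.lt _ ((al' H _).1 a).1).trans_eq H.hy.n.symm
  | succ k ih =>
    intro t a
    obtain ⟨a1, a2⟩ := (al' H _).1 a
    refine ⟨H.hy.n ▸ h.lt _ a1, by_contra fun hn => a2 ⟨x, s, ?_⟩⟩
    have st : ∀ r < K.nc + 1, M.Cand K.P.En x (K.hop^[r + 1] (K.C x t)) ∧
        M.FE 0 (K.hop^[r] (K.C x t)) 3 < M.n ∧
        ∀ d, M.Ti 2 2 (M.FE 0 (K.hop^[r] (K.C x t)) 3) d → M.Dd x d := by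
      intro r hr
      have u := hops_al' H a r
      have u1 := ((al' H _).1 u).1
      have e : K.P.En 0 (K.hop^[r] (K.C x t)) = x := by_contra fun c =>
        hn ⟨r, hr, Or.inl (by rwa [it_hop H a1])⟩
      have o := (H.hy.geo.nm.pa 0 (by omega) _ u1).co
      rw [e] at o
      obtain ⟨f, c⟩ := H.meet.step s u o
      rcases c with ⟨b, b1, b2, b3⟩ | c
      · obtain ⟨t', l, rfl⟩ := H.sel.cex s b1
        refine absurd ⟨r, hr, Or.inr ⟨t', l, ih t' b2, ?_⟩⟩ hn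
        rw [it_hop H a1, H.hy.geo.FE 0 (by omega) 3 (by omega)]
        exact (meets H ..).2 ⟨(FE_le h ..).resolve_left f.ne, ((al' H _).1 b2).1, b3⟩
      · refine ⟨?_, f, c.2⟩
        rw [Function.iterate_succ_apply', hop_eq H, if_pos f]
        exact c.1
    have ch : ∀ r, ∃ τ, r < K.nc + 1 → τ < K.nc ∧ K.C x τ = K.hop^[r + 1] (K.C x t) := fun r => by
      by_cases hr : r < K.nc + 1
      · obtain ⟨τ, l, e⟩ := H.sel.cex s (st r hr).1
        exact ⟨τ, fun _ => ⟨l, e⟩⟩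
      · exact ⟨0, fun c => absurd c hr⟩
    choose τ hτ using ch
    have key : ∀ p q, p < q → q < K.nc + 1 → τ p = τ q → M.Dd x (K.C x t) := by
      intro p q pq hq e
      have e' : K.hop^[p + 1] (K.C x t) = K.hop^[q + 1] (K.C x t) := by
        rw [← (hτ p (by omega)).2, e, (hτ q hq).2]
      refine H.meet.fin (fun r => K.hop^[r] (K.C x t)) s a1 fun r => ?_
      obtain ⟨r', l, e⟩ := iter_red (by omega) e' r
      obtain ⟨-, f, c⟩ := st r' (by omega)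
      rw [← e] at f c
      refine ⟨f, ?_, c⟩
      rw [Function.iterate_succ_apply', hop_eq H, if_pos f]
    obtain ⟨p, hp, q, hq, ne, e⟩ := Finset.exists_ne_map_eq_of_card_lt_of_maps_to
      (s := Finset.range (K.nc + 1)) (t := Finset.range K.nc) (by simp) (f := τ)
      fun r hr => Finset.mem_coe.2 (Finset.mem_range.2 (hτ r (Finset.mem_range.1 hr)).1)
    rw [Finset.mem_range] at hp hq
    rcases lt_or_gt_of_ne ne with l | l
    exacts [key p q l hq e, key q p l hp e.symm]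

/-- Dead candidates fail. -/
theorem dead {x t : ℕ} (s : K.sel x) (ht : t < K.nc) (d : M.Dd x (K.C x t)) : ¬K.G K.nc x t := by
  have h := H.hy.ok
  obtain ⟨ρ, hρ⟩ := H.g1.dead.rank s
  have key : ∀ k t, M.Dd x (K.C x t) → K.G k x t →
      k ≤ cnt K.nc fun t' => M.Dd x (K.C x t') ∧ ρ (K.C x t') < ρ (K.C x t) := by
    intro k
    induction k with
    | zero => exact fun _ _ _ => Nat.zero_le _
    | succ k ih =>
      rintro t d ⟨l, r, -, c⟩
      have a1 : M.al (K.C x t) :=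
        ((H.sel.cand s).resolve_left (by rw [← H.hy.n]; exact l.ne)).1
      rw [it_hop H a1] at c
      have rg := hops_rg H (K.C x t) r
      have d' : M.Dd x (K.hop^[r] (K.C x t)) := H.g1.dead.rg d rg
      rcases c with c | ⟨t', l', g, c⟩
      · exact absurd ((H.hy.geo.nm.pa_eq h (by omega) (al_rg H a1 rg)
          (H.g1.dead.pa s (by omega) d')).symm.trans (H.sel.name s)) c
      · rw [H.hy.geo.FE 0 (by omega) 3 (by omega)] at c
        obtain ⟨m1, m2, m3⟩ := (meets H ..).1 c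
        obtain ⟨q1, q2⟩ := H.meet.rk ρ s hρ d' (h.lt _ m1) m2 m3
        have q3 : ρ (K.C x t') < ρ (K.C x t) := (hρ _ _ d).1 rg ▸ q2
        exact (ih t' q1 g).trans_lt (cnt_lt (fun _ _ c => ⟨c.1, c.2.trans q3⟩) l' ⟨q1, q3⟩
          fun c => lt_irrefl _ c.2)
  intro g
  exact absurd (key _ t d g) (not_le.2 ((cnt_lt (Q := fun _ => True) (fun _ _ _ => trivial) ht
    trivial fun c => lt_irrefl _ c.2).trans_le (cnt_le _ _)))

theorem gd {x t : ℕ} (s : K.sel x) (ht : t < K.nc) :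
    K.gd x t = if M'.al (K.C x t) then K.C x t else M.n := by
  unfold Rn.gd
  rw [H.hy.n]
  refine if_congr ⟨fun g => ?_, surv H s _ t⟩ rfl rfl
  have l : K.C x t < K.n := (show K.G (12 * K.c + 1 + 1) x t from g).1
  obtain ⟨a, c⟩ := (H.sel.cand s).resolve_left (by rw [← H.hy.n]; exact l.ne)
  exact (al' H _).2 ⟨a, fun ⟨y, sy, d⟩ => dead H s ht (H.g1.run.cand s sy c d ▸ d) g⟩

theorem gal {x t : ℕ} (s : K.sel x) (ht : t < K.nc) :
    K.gd x t = M.n ∨ (M'.al (K.gd x t) ∧ M.Cand K.P.En x (K.gd x t)) := by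
  rw [gd H s ht]
  split_ifs with a
  · exact Or.inr ⟨a, ((H.sel.cand s).resolve_left (H.hy.ok.lt _ ((al' H _).1 a).1).ne).2⟩
  · exact Or.inl rfl

theorem gex {x b : ℕ} (s : K.sel x) (c : M.Cand K.P.En x b) (a : M'.al b) :
    ∃ t < K.nc, K.gd x t = b := by
  obtain ⟨t, l, rfl⟩ := H.sel.cex s c
  exact ⟨t, l, by rw [gd H s l, if_pos a]⟩

theorem al (c : ℕ) : K.al' c ↔ M'.al c := by
  unfold Rn.al'
  rw [H.hy.n, H.hy.geo.al]
  by_cases e : K.obj 0 c = M.n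
  · refine ⟨fun a => (H.g1.smo.free (i := 0) (by omega) a.1 (fun x s o => ?_) 0).1,
      fun a => ⟨((al' H c).1 a).1, Or.inl e⟩⟩
    obtain ⟨u, v⟩ := (H.sel.obj (by omega)).2 ⟨a.1, s, o⟩
    omega
  obtain ⟨a, s, o⟩ := (H.sel.obj (i := 0) (by omega)).1 ⟨rfl, lt_of_le_of_ne (H.sel.ole 0 c) e⟩
  constructor
  · rintro ⟨-, c' | ⟨t, l, m⟩⟩
    · exact absurd c' e
    · obtain ⟨m1, m2, m3⟩ := (meets H ..).1 m
      exact H.meet.al m1 ((gal H s l).resolve_left (H.hy.ok.lt _ m2).ne).1 m3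
  · intro a'
    obtain ⟨b, b1, b2, b3⟩ := H.meet.ex 0 s a' o
    obtain ⟨t, l, rfl⟩ := gex H s b1 b2
    exact ⟨a, Or.inr ⟨t, l, (meets H ..).2 ⟨a, ((al' H _).1 b2).1, b3⟩⟩⟩

end KGood

theorem goodS : GoodS := fun _ _ _ H =>
  ⟨fun p s b _ => KGood.meets H p s b, KGood.gd H, KGood.gal H, KGood.gex H,
    funext fun c => propext (KGood.al H c)⟩

end Pool.Agent.MP_1a6d78_lc.PG
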