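import Pool.Agent.MP_1a6d78_lc.PG.SpecB

/-! PROJECT PG, rows IDX and PF: the stages cover the new walk; the cells of the pieces. -/

namespace Pool.Agent.MP_1a6d78_lc.PG

open Classical ED PR GL Cm

theorem idxS : IdxS := by
  intro K M M' h _ D i p hi hp
  have ex : ∀ k, ∃ a b, K.obj i (K.dp i p k) < M.n → K.One M M' i (K.dp i p k) a b := fun k => by
    by_cases c : K.obj i (K.dp i p k) < M.n
    · obtain ⟨a, b, o⟩ := D.one hi (D.dp k hi hp).2.1 c
      exact ⟨a, b, fun _ => o⟩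
    · exact ⟨0, 0, fun c' => absurd c' c⟩
  choose a b o using ex
  obtain ⟨u, u0, u1⟩ : ∃ u : ℕ → ℕ, u 0 = 0 ∧ ∀ k,
      u (k + 1) = if K.obj i (K.dp i p k) < M.n then u k + a k + 1 + b k else u k :=
    ⟨fun k => Nat.rec 0 (fun k v => if K.obj i (K.dp i p k) < M.n then v + a k + 1 + b k else v) k,
      rfl, fun _ => rfl⟩
  have dp : ∀ k, M'.wk i p (u k) = K.dp i p k := fun k => by
    induction k with
    | zero => rw [u0]; rfl
    | succ k ih =>
      rw [u1]
      split_ifs with c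
      · rw [show u k + a k + 1 + b k = u k + (a k + 1 + b k) by omega, wk_add, ih, (o k c).nx,
          (D.dp k hi hp).1]
      · rw [ih, D.stay hi hp (le_antisymm (h.h1.sel.ole _ _) (not_lt.1 c)) k.le_succ]
  refine ⟨u, a, b, u0, dp, fun k c => ⟨o k c, by rw [u1, if_pos c]⟩, fun k s hk => ?_⟩
  cases k with
  | zero => rw [u0]; rfl
  | succ k =>
    have c := hk k k.lt_succ_self
    rw [u1, if_pos c, show u k + a k + 1 + b k = u k + (a k + b k) + 1 by omega, sw_succ, wk_add,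
      dp, Rn.ds, if_neg k.succ_ne_zero, Nat.add_sub_cancel]
    split_ifs with d
    · rw [(o k c).hop d, add_zero, (o k c).old _ le_rfl, (o k c).q, (o k c).g.2]
      exact (show sd i _ = 0 from d).symm
    · have e := (((o k c).wall d).2.2.2 _ le_rfl).2.2
      rw [show a k + 1 + b k = a k + b k + 1 by omega, sw_succ] at e
      exact e.symm

theorem pfS : PfS := by
  intro K M M' h i p u a b s k y hi hp I c
  have H := h.h2.h1
  have ok := H.hy.ok
  have G := H.hy.geo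
  have o := (I.one k c).1
  have e0 : K.pf i p s (2 * k) = ⟨i, K.dp i p k, K.ds i p s k, K.dq i (K.dp i p k)⟩ := by
    rw [Rn.pf, if_pos (by omega), show 2 * k / 2 = k by omega]
  have e1 : K.pf i p s (2 * k + 1) = if K.hp i (K.dp i p k) then junk M.n
      else ⟨3 - i, K.db i (K.dp i p k), hs i, K.dg i (K.dp i p k) / 4⟩ := by
    rw [Rn.pf, if_neg (by omega), show (2 * k + 1) / 2 = k by omega, H.hy.n]
  have k0 : M.ok ⟨i, K.dp i p k, K.ds i p s k, K.dq i (K.dp i p k)⟩ :=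
    ⟨(by omega : i < 4), ((H.g1.hy.smo.al _).1 (h.dp.dp k hi hp).2.1).1, a k, o.q⟩
  have wk : ∀ t, M'.wk i p (u k + t) = M'.wk i (K.dp i p k) t := fun t => by rw [wk_add, I.dp]
  rw [e0, e1, H.hy.n]
  have m0 : K.P.OnC M.n y ⟨i, K.dp i p k, K.ds i p s k, K.dq i (K.dp i p k)⟩ ↔
      ∃ t ≤ a k, M'.wk i p (u k + t) = y := by
    rw [G.OnC_iff ok k0.1 k0.wo, and_iff_right k0, Cm.Mem, ln_eq ok k0 o.q o.fst]
    exact exists_congr fun t => and_congr_right fun ht => by rw [wk, o.old t ht]; rfl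
  by_cases d : K.hp i (K.dp i p k)
  · rw [if_pos d]
    refine ⟨k0.wo, junk_wo ok, m0, fun _ => iff_of_false (fun m => ?_) fun m => m.1 d⟩
    exact junk_not ok ((G.OnC_iff ok (by decide : (0 : ℕ) < 4) (junk_wo ok)).1 m).1
  · rw [if_neg d]
    obtain ⟨-, w1, w2, w3⟩ := o.wall d
    obtain ⟨k1, ps, -⟩ := H.g1.down.ps (by change 3 - i = 2 ∨ 3 - i = 3; omega) w2
    refine ⟨k0.wo, k1.wo, m0, fun hy => ?_⟩
    rw [G.OnC_iff ok k1.1 k1.wo, and_iff_right k1, and_iff_right d]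
    have wk' : ∀ t ≤ b k, M'.wk (3 - i) (K.db i (K.dp i p k)) (b k - t) =
        M'.wk i p (u k + a k + 1 + t) := fun t ht => by
      rw [(w3 t ht).1, ← wk, show u k + (a k + 1 + t) = u k + a k + 1 + t by omega]
    constructor
    · intro m
      obtain ⟨x, m⟩ := m.ps
      obtain ⟨t, ht, e⟩ := ((ps y x).2 ⟨m, hy⟩).mem
      rw [w1] at ht
      exact ⟨b k - t, by omega, by rw [← wk' _ (by omega), Nat.sub_sub_self ht]; exact e⟩
    · rintro ⟨t, ht, e⟩
      have m : M'.Mem ⟨3 - i, K.db i (K.dp i p k), hs i, K.dg i (K.dp i p k) / 4⟩ y :=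
        ⟨b k - t, by rw [w1]; omega, (wk' t ht).trans e⟩
      obtain ⟨x, m⟩ := m.ps
      exact ((ps y x).1 m).1.mem

end Pool.Agent.MP_1a6d78_lc.PG
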