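import Pool.Agent.MP_1a6d78_lc.PG.SpecB

/-! PROJECT PG, row LAM: the programs `hits`, `nxa`, `lam'`, `FEd`. -/

namespace Pool.Agent.MP_1a6d78_lc.PG

open Classical ED PR GL Cm

namespace KLam

variable {K : Rn} {M M' : Cm} {w : ℕ}

lemma fst_of {i p v : ℕ} {H J : ℕ → Prop} (a : M.Fst i p J v) (h1 : ∀ s, J s → H s)
    (h2 : ∀ s, H s → (∀ r < s, ¬H r) → J s) : M.Fst i p H v := by
  have k : ∀ s, H s → ∃ r ≤ s, J r := fun s e =>
    ⟨_, Nat.find_min' ⟨s, e⟩ e, h2 _ (Nat.find_spec (⟨s, e⟩ : ∃ s, H s)) fun _ c => Nat.find_min _ c⟩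
  rcases a with ⟨a1, a2⟩ | ⟨a1, t, a2, a3, a4⟩
  · exact Or.inl ⟨a1, fun s e => let ⟨r, _, c⟩ := k s e; a2 r c⟩
  · exact Or.inr ⟨a1, t, a2, h1 t a3, fun s l e => let ⟨r, b, c⟩ := k s e; a4 r (by omega) c⟩

lemma ti_cons {i a u v d : ℕ} (h1 : M.Ti i a u v) (h2 : M.Ti i a v d) : M.Ti i a u d := by
  obtain ⟨s, rfl, s1⟩ := h1
  obtain ⟨t, rfl, t1⟩ := h2
  refine ⟨s + t, wk_add _ _ _ _, fun r hr => ?_⟩
  rcases Nat.lt_or_ge r s with l | l
  · exact s1 r l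
  · obtain ⟨q, rfl⟩ := Nat.exists_eq_add_of_le l
    rw [wk_add]
    exact t1 q (by omega)

lemma side (hw : w = 2 ∨ w = 3) (e : ℕ) : M.ss w e = 2 ∨ M.ss w e = hs w := by
  rcases hw with rfl | rfl
  · exact ss_cases 2 e
  · exact (ss_cases 3 e).symm

lemma hs2 (w : ℕ) : hs w ≠ 2 ∧ hs w < 4 := by unfold hs; split_ifs <;> omega

lemma lvwk (H : K.H1 M M') (hw : w = 2 ∨ w = 3) {e : ℕ} (h : M.Lv M' e) (r : ℕ) :
    M.Lv M' (M.wk w e r) := by
  induction r with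
  | zero => exact h
  | succ r ih => rw [wk_succ]; exact (H.g1.dead.lvst hw ih).1

lemma lval (H : K.H1 M M') (hw : w = 2 ∨ w = 3) {e : ℕ} (h : M.Lv M' e) {r : ℕ}
    (k : M.ss w (M.wk w e r) ≠ 2) : M'.al (M.wk w e (r + 1)) := by
  rw [wk_succ]
  exact (H.g1.dead.lvst hw (lvwk H hw h r)).2 k

lemma dead (H : K.H1 M M') {c : ℕ} (h : M.al c) (k : ¬M'.al c) : ∃ x, K.sel x ∧ M.Dd x c :=
  by_contra fun e => k ((H.g1.hy.smo.al c).2 ⟨h, e⟩)

lemma hits (H : K.H1 M M') (D : K.GoodK M M') (hw : w = 2 ∨ w = 3) {x t : ℕ} (hx : K.sel x)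
    (hd : M.Dd x t) (hl : M.Lv M' t) :
    M.Fst w t (fun s => M'.al (M.wk w t s) ∧ M.sw w t 2 s = 2) (K.hits w t) := by
  have h := H.hy.ok
  have G := H.hy.geo
  have hw' : 5 - w = 2 ∨ 5 - w = 3 := by omega
  have w4 : 5 - w < 4 := by omega
  have ox : K.obj 0 t = x :=
    ((H.sel.obj (by omega)).2 ⟨hl.1, hx, (H.g1.dead.pa hx (by omega) hd).co⟩).1
  unfold Rn.hits
  rw [ox, H.hy.n]
  refine fst_of (G.early_fst h (by omega) (by omega) (hs2 _).2 (hs2 _).1.symm hl.1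
    fun l _ => G.fu_wo h _ _ _ w4) ?_ ?_
  · rintro s ⟨e, l, hl', o, ps⟩
    refine ⟨?_, e⟩
    have a1 : M.al (K.gd x (l / 2)) := (G.fu_ok_iff h _ _ w4).1 o
    have a2 : M'.al (K.gd x (l / 2)) := (D.gal hx (t := l / 2) (by omega)).elim
      (fun c => absurd (c ▸ a1) h.not_al_n) fun c => c.1
    obtain ⟨r, r1, r2⟩ := (G.fu_ps h _ w4 a1 _ _).1 ⟨l % 2, by omega, ps⟩
    rw [← r1]
    cases r with
    | zero => exact a2
    | succ r => exact lval H hw' (H.g1.dead.lv a2) (by rw [← sw_succ, r2]; exact (hs2 _).1)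
  · rintro s ⟨e1, e2⟩ mn
    refine ⟨e2, ?_⟩
    cases s with
    | zero => exact absurd ⟨x, hx, hd⟩ ((H.g1.hy.smo.al t).1 e1).2
    | succ s =>
      have hug : ∀ r ≤ s, M.Hug (3 - w) x (M.wk w t r) := by
        intro r
        induction r with
        | zero => exact fun _ => ⟨t, ⟨0, rfl, fun _ c => absurd c (Nat.not_lt_zero _)⟩, hd⟩
        | succ r ih =>
          intro hr
          have al := h.al_wk w hl.1 r
          rcases side (M := M) hw (M.wk w t r) with c | c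
          · obtain ⟨y, y1, y2⟩ := dead H (h.al_wk w hl.1 (r + 1))
              fun k => mn (r + 1) (by omega) ⟨k, c⟩
            have e := (H.g1.run.cross hw hx al (ih (by omega)) c).2 y y1
              (by
                have := (H.g1.dead.pa y1 (i := w - 2) (by omega) y2).co
                rwa [wk_succ] at this)
            exact ⟨_, ⟨0, rfl, fun _ c => absurd c (Nat.not_lt_zero _)⟩, e ▸ y2⟩
          · obtain ⟨d, d1, d2⟩ := ih (by omega)
            have t1 : M.Ti w (hs w) (M.wk w t r) (M.wk w t (r + 1)) :=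
              ⟨1, (wk_succ _ _ _).symm, fun q l => by rw [Nat.lt_one_iff.1 l]; exact c⟩
            have t2 := H.g1.hy.fl.rev w (by omega) _ _ _ al
              (by rcases hw with rfl | rfl <;> decide) t1
            refine ⟨d, ti_cons ?_ d1, d2⟩
            rcases hw with rfl | rfl <;> exact t2
      rw [wk_succ] at e1 ⊢
      obtain ⟨b, b1, b2, r, r1, r2⟩ :=
        H.g1.wall.two hw hx (h.al_wk w hl.1 s) (hug s le_rfl) e2 e1
      obtain ⟨l, l1, rfl⟩ := D.gex hx b1 b2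
      have a1 := ((H.g1.hy.smo.al _).1 b2).1
      have p1 : M'.Pw (5 - w) (K.gd x l) (hs (5 - w)) (M.st w (M.wk w t s)) (hs (5 - w)) := by
        cases r with
        | zero => exact Or.inl ⟨r1.symm, rfl⟩
        | succ r => exact Or.inr ⟨r, r1, r2 r (by omega)⟩
      obtain ⟨u, u1, u2⟩ := (G.fu_ps h (hs (5 - w)) w4 a1 (M.st w (M.wk w t s)) (hs (5 - w))).2 (by
        rcases ((H.g1.down.pw hw' b2).1 p1).1 with ⟨c, -⟩ | ⟨q, c⟩
        exacts [⟨0, c.symm, rfl⟩, ⟨q + 1, c⟩])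
      refine ⟨2 * l + u, by omega, ?_⟩
      unfold Rn.wall
      rw [show (2 * l + u) / 2 = l by omega, show (2 * l + u) % 2 = u by omega]
      exact ⟨G.fu_ok h _ _ w4 a1, u2⟩

lemma nxa (H : K.H1 M M') (D : K.GoodK M M') (hw : w = 2 ∨ w = 3) {e t : ℕ} (hl : M.Lv M' e)
    (hn : M.Nt M' w e t) : K.nxa w e = M.lk (pt (M.wk w e t) w) := by
  have h := H.hy.ok
  have G := H.hy.geo
  have w4 : w < 4 := by omega
  unfold Rn.nxa
  rw [D.al, G.st_al w hl.1, G.FE w w4 _ (hs2 w).2, H.hy.n]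
  cases t with
  | zero => rw [if_pos (show M'.al (M.st w e) from hn.2), G.lam_pt w hl.1]; rfl
  | succ t =>
    have n1 : ∀ s ≤ t, ¬M'.al (M.wk w (M.st w e) s) := fun s l => hn.1 s (by omega)
    have n2 : M'.al (M.wk w (M.st w e) (t + 1)) := hn.2
    have lr := (H.g1.dead.lvst hw hl).1
    rw [if_neg (show ¬M'.al (M.st w e) from n1 0 (Nat.zero_le _)), wk_succ']
    generalize M.st w e = r at n1 n2 lr
    obtain ⟨x, x1, x2⟩ := dead H lr.1 (n1 0 (Nat.zero_le _))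
    have F := hits H D hw x1 x2 lr
    have s2 : ∀ s < t, M.ss w (M.wk w r s) = 2 := fun s l =>
      by_contra fun c => n1 (s + 1) l (lval H hw lr c)
    rw [h.lk_pt (h.al_wk w lr.1 t), ← wk_succ]
    rcases side (M := M) hw (M.wk w r t) with c | c
    · rw [F.eq (t := t + 1) ⟨n2, c⟩ fun s l k => n1 s (by omega) k.1, if_neg, c]
      rintro ⟨k1, k2⟩
      obtain ⟨-, u, u1, u2, -⟩ := FE_spec h k1
      have o : M.ok ⟨w, r, 2, M.FE w r (hs w)⟩ := ⟨w4, lr.1, _, u1.symm⟩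
      refine k2 ((G.On_iff h (by omega) o.wo).2 ⟨o, t + 1, ?_, rfl, c⟩)
      by_contra l
      have a := lval H hw lr (r := u) (by rw [u2]; exact (hs2 w).1)
      rw [← u1] at a
      have q : M.wk w r (M.ln ⟨w, r, 2, M.FE w r (hs w)⟩) = M.FE w r (hs w) := (ln_spec h o).2.1
      exact n1 (M.ln ⟨w, r, 2, M.FE w r (hs w)⟩) (by omega) (by rw [q]; exact a)
    · rw [FE_eq h lr.1 c fun s l => by rw [s2 s l]; exact (hs2 w).1.symm, if_pos, c]
      refine ⟨h.lt _ (h.al_wk w lr.1 _), fun k => ?_⟩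
      have o : M.ok ⟨w, r, 2, M.wk w r (t + 1)⟩ := ⟨w4, lr.1, Pa.wk _ _ _⟩
      obtain ⟨-, u, u1, u2, u3⟩ := (G.On_iff h (by omega) o.wo).1 k
      rw [ln_eq h o (l := t + 1) rfl fun s l k => n1 s (by omega)
        ((show M.wk w r s = M.wk w r (t + 1) from k) ▸ n2)] at u1
      have u2' : M.wk w r u = K.hits w r := u2
      obtain ⟨s, s1, s3, -⟩ := F.of_lt (u2' ▸ h.lt _ (h.al_wk w lr.1 u))
      have : u = t + 1 := by_contra fun l => n1 u (by omega) (by rw [u2', s1]; exact s3.1)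
      subst this
      exact (hs2 w).1 (c.symm.trans u3)

lemma fed (H : K.H1 M M') (D : K.GoodK M M') (hw : w = 2 ∨ w = 3) {c a : ℕ} (ha : a < 4)
    (hc : M'.al c ∨ c = M.n) : K.FEd w c a = M'.FE w c a := by
  have h := H.hy.ok
  have n' : M'.n = M.n := H.g1.hy.smo.n
  unfold Rn.FEd
  rw [D.al, H.hy.geo.FE w (by omega) _ ha, H.hy.n]
  rcases hc with hc | rfl
  swap
  · rw [FE_dead h.not_al_n, if_neg fun k => lt_irrefl _ k.2.1,
      FE_dead (n' ▸ (H.g1.hy.ok' : M'.Ok).not_al_n), n']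
  have al := ((H.g1.hy.smo.al c).1 hc).1
  have lc := H.g1.dead.lv hc
  by_cases a2 : a = 2
  swap
  · rw [if_neg fun k => a2 k.1]
    exact (H.g1.down.fe hw hc a2).symm
  subst a2
  rcases FE_le h w c 2 with k | k
  · rw [if_neg fun e => e.2.1.ne k, k]
    exact (H.g1.down.fen hw hc fun r e => (FE_none h al).1 k r e.2).symm
  obtain ⟨-, u, u1, u2, u3⟩ := FE_spec h (h.lt _ k)
  by_cases k' : M'.al (M.FE w c 2)
  · rw [if_neg fun e => e.2.2 k', u1]
    exact (H.g1.down.fe2 hw hc (u1 ▸ k') u2 fun r l e => u3 r l e.2).symm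
  rw [if_pos ⟨rfl, h.lt _ k, k'⟩]
  obtain ⟨x, x1, x2⟩ := dead H k k'
  have F := hits H D hw x1 x2 (u1 ▸ lvwk H hw lc (u + 1))
  rw [u1] at F k' ⊢
  have key : ∀ r, M'.al (M.wk w c (r + 1)) ∧ M.ss w (M.wk w c r) = 2 → ∃ s, r = u + 1 + s ∧
      M'.al (M.wk w (M.wk w c (u + 1)) (s + 1)) ∧ M.sw w (M.wk w c (u + 1)) 2 (s + 1) = 2 := by
    intro r e
    rcases lt_trichotomy r u with l | l | l
    · exact absurd e.2 (u3 r l)
    · exact absurd (l ▸ e.1) k'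
    · obtain ⟨s, rfl⟩ := Nat.exists_eq_add_of_le (show u + 1 ≤ r from l)
      exact ⟨s, rfl, by rw [← wk_add]; exact e.1, by rw [sw_succ, ← wk_add]; exact e.2⟩
  rcases F with ⟨f1, f2⟩ | ⟨-, s, f1, f2, f3⟩
  · rw [f1]
    exact (H.g1.down.fen hw hc fun r e => let ⟨s, _, q⟩ := key r e; f2 _ q).symm
  · cases s with
    | zero => exact absurd f2.1 k'
    | succ s =>
      rw [sw_succ, ← wk_add, ← wk_add] at f2
      rw [f1, ← wk_add]
      exact (H.g1.down.fe2 (s := u + 1 + s) hw hc f2.1 f2.2 fun r l e =>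
        let ⟨q, q1, q2⟩ := key r e; f3 _ (by omega) q2).symm

lemma lam (H : K.H1 M M') (D : K.GoodK M M') (p : ℕ) :
    K.lam' p = if M'.al (p / 4) then M'.lk p else 4 * M'.n := by
  have h := H.hy.ok
  have n' : M'.n = M.n := H.g1.hy.smo.n
  have e : pt (p / 4) (p % 4) = p := by unfold pt; omega
  unfold Rn.lam'
  rw [D.al, H.hy.n, n']
  refine if_ctx_congr Iff.rfl (fun k => ?_) fun _ => rfl
  have al := ((H.g1.hy.smo.al _).1 k).1
  rw [H.hy.geo.lam_al al]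
  split_ifs with k1 k2
  · have hw : p % 4 = 2 ∨ p % 4 = 3 := by omega
    obtain ⟨t, ht⟩ := H.g1.smo.ex hw (H.g1.dead.lv k)
    rw [nxa H D hw (H.g1.dead.lv k) ht]
    exact (H.g1.smo.dn hw k ht).symm.trans (congrArg M'.lk e)
  · exact (H.g1.smo.same k k2).symm
  · have s : M.st (p % 4) (p / 4) = M.lk p / 4 := by rw [Cm.st, e]
    have hi : p % 4 < 2 := by omega
    have hw : 2 + p % 4 = 2 ∨ 2 + p % 4 = 3 := by omega
    obtain ⟨b1, b2⟩ := H.g1.dead.bnd hi k (s ▸ k2)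
    obtain ⟨t, ht⟩ := H.g1.smo.ex hw b2
    have l := h.lk_pt (i := p % 4) al
    rw [e, show M.ss (p % 4) (p / 4) = hs (p % 4) from b1] at l
    have q : 5 - M.lk p % 4 = 2 + p % 4 := by
      rw [l, pt_mod]
      rcases (by omega : p % 4 = 0 ∨ p % 4 = 1) with c | c <;> rw [c] <;> decide
    rw [q, ← s, nxa H D hw b2 ht]
    exact (H.g1.smo.up hi k (s ▸ k2) ht).symm.trans (congrArg M'.lk e)

end KLam

theorem lamS : LamS := fun _ _ _ H D =>
  ⟨fun hw => KLam.hits H D hw, fun hw => KLam.nxa H D hw, KLam.lam H D, fun hw => KLam.fed H D hw⟩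

end Pool.Agent.MP_1a6d78_lc.PG
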