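import Pool.Agent.MP_1a6d78_lc.PG.SpecB

/-! PROJECT PG, row LIST. -/

namespace Pool.Agent.MP_1a6d78_lc.PG

open Classical ED PR GL Cm

namespace KList

variable {K : Rn} {M M' : Cm}

/-- The setting. -/
structure St (K : Rn) (M M' : Cm) : Prop where
  h : K.H3 M M'
  en : K.EnK M M'
  v : (K.ks M M').ValK
  a : (K.ks M M').AncK
  p : ∀ e, K.P.val e ↔ M.Prb (e / 4) ∧ (e / 4 + e) % 2 = 1
  p' : ∀ e, K.N.val e ↔ M'.Prb (e / 4) ∧ (e / 4 + e) % 2 = 1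

theorem own_eq (e : ℕ) : K.N.own e = pt (K.En' (e % 4) (e / 16)) e := rfl

theorem own_div (e : ℕ) : K.N.own e / 4 = K.En' (e % 4) (e / 16) := pt_div _ _

theorem pt_pt (a b e : ℕ) : pt a (pt b e) = pt a e := by unfold pt; omega

namespace St

variable (h : St K M M') {e : ℕ}

include h

theorem ok : M.Ok := h.h.h2.h1.hy.ok
theorem ok' : M'.Ok := h.h.h2.h1.g1.hy.ok'
theorem n : K.n = M.n := h.h.h2.h1.hy.n
theorem sel : K.SelK M := h.h.h2.h1.sel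
theorem nm : M.Nm K.P.En := h.h.h2.h1.hy.geo.nm

theorem al {c : ℕ} (k : M'.al c) : M.al c := ((h.h.h2.h1.g1.hy.smo.al c).1 k).1

theorem lt {c : ℕ} (k : M'.al c) : c < K.n := h.n ▸ h.ok.lt c (h.al k)

theorem val_al (k : K.N.val e) : M'.al (e / 16) := by
  have := ((h.p' e).1 k).1.1
  rwa [Nat.div_div_eq_div_mul] at this

theorem hv_iff {y : ℕ} : K.N.hv y ↔ M'.al (y / 4) ∧ K.En' (y % 4) (y / 4) = y / 4 := by
  rw [← h.h.h2.good.al]
  rfl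

theorem hl {y : ℕ} (k : K.N.hv y) : y < 16 * K.n := by
  have := h.lt (h.hv_iff.1 k).1
  omega

theorem vl (k : K.N.val e) : e < 16 * K.n ∧ K.N.hv (K.N.own e) := by
  have a := h.val_al k
  have := h.lt a
  have i : e % 4 < 4 := Nat.mod_lt _ (by omega)
  refine ⟨by omega, h.hv_iff.2 ?_⟩
  rw [own_div, own_eq, pt_mod]
  exact ⟨h.en.nm.al i a, h.en.nm.idem h.ok' i a⟩

theorem mov {i c : ℕ} (a : M'.al c) (k : K.moved i (K.En' i c)) : K.obj i c = K.obj i (K.En' i c) :=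
  h.en.mov k.1 a (h.n ▸ k.2)

omit h in
theorem ren_eq (k : ¬K.moved (e % 4) (K.En' (e % 4) (e / 16))) :
    K.ren (K.N.own e) = pt (K.P.En (e % 4) (K.En' (e % 4) (e / 16))) e := by
  rw [Rn.ren, own_div, own_eq, pt_mod, if_neg k, pt_pt]

theorem co {i a b : ℕ} (hi : i < 4) (ha : M'.al a) (hb : M'.al b) (ma : ¬K.moved i a)
    (mb : ¬K.moved i b) (k : M.Co i a b) : M'.Co i a b := by
  rcases lt_or_ge i 2 with c | c
  · have fr : ∀ {a}, M'.al a → ¬K.moved i a → ∀ t, M'.wk i a t = M.wk i a t := fun ha ma t =>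
      (h.h.h2.h1.g1.smo.free c (h.al ha) (fun x hx k => ma ⟨c, by
        obtain ⟨k1, k2⟩ := (h.sel.obj c).2 ⟨h.al ha, hx, k⟩
        rwa [k1, h.n]⟩) t).2.1
    obtain ⟨u, ⟨s, k1⟩, t, k2⟩ := k
    exact ⟨u, ⟨s, (fr ha ma s).trans k1⟩, t, (fr hb mb t).trans k2⟩
  · exact (h.h.h2.h1.g1.down.co (by omega) ha hb).2 k

theorem inj {x y : ℕ} (hx : K.N.hv x) (hy : K.N.hv y) (k : K.P.hv (K.ren x))
    (e : K.ren x = K.ren y) : x = y := by
  have nm : ∀ y, K.P.hv (K.ren y) → ¬K.moved (y % 4) (y / 4) := fun y k m => by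
    have k1 := k.1
    rw [Rn.ren, if_pos m, h.h.h2.h1.hy.geo.al] at k1
    have := h.ok.lt _ k1
    have := h.n
    omega
  have mx := nm x k
  have my := nm y (e ▸ k)
  obtain ⟨x1, x2⟩ := h.hv_iff.1 hx
  obtain ⟨y1, y2⟩ := h.hv_iff.1 hy
  rw [Rn.ren, Rn.ren, if_neg mx, if_neg my] at e
  have i : y % 4 < 4 := Nat.mod_lt _ (by omega)
  have e1 : x % 4 = y % 4 := by rw [← pt_mod _ x, e, pt_mod]
  have e2 := congrArg (· / 4) e
  simp only [pt_div] at e2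
  rw [e1] at e2 x2 mx
  have := (h.en.nm.co h.ok' i x1 y1).2
    (h.co i x1 y1 mx my ((h.nm.co h.ok i (h.al x1) (h.al y1)).1 e2))
  omega

/-- The killer of an inserted entry. -/
theorem up (k : K.ins e) : K.up (e / 4) < M.n ∧ K.sel (K.up (e / 4)) ∧
    M.Co ((e / 4 + 1) % 2) (e / 4 / 4) (K.up (e / 4)) := by
  obtain ⟨k1, k2⟩ := (h.p' e).1 k.1
  have i : (e / 4 + 1) % 2 < 2 := Nat.mod_lt _ (by omega)
  suffices s : K.up (e / 4) < M.n from ⟨s, ((h.sel.obj i).1 ⟨rfl, s⟩).2⟩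
  rcases k.2 with m | m
  · rw [Rn.up, show (e / 4 + 1) % 2 = e % 4 by have := m.1; omega, Nat.div_div_eq_div_mul, ← h.n]
    exact m.2
  · obtain ⟨x, x1, -, -, x2⟩ := h.v.val k1 fun c => m ((h.p e).2 ⟨c, k2⟩)
    obtain ⟨c1, c2⟩ := (h.sel.obj i).2 ⟨h.al k1.1, x1, (h.h.h2.h1.g1.dead.hug x1 i x2).co⟩
    rwa [Rn.up, c1]

theorem anc (k : K.ins e) (m : ¬K.moved (e % 4) (K.En' (e % 4) (e / 16))) :
    ∃ t < 4 * K.c, K.P.val (pt (K.links (K.up (e / 4)) t) e) ∧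
      K.P.own (pt (K.links (K.up (e / 4)) t) e) = K.ren (K.N.own e) := by
  obtain ⟨k1, k2⟩ := (h.p' e).1 k.1
  obtain ⟨u1, u2, u3⟩ := h.up k
  have a := h.val_al k.1
  have i : e % 4 < 4 := Nat.mod_lt _ (by omega)
  have a' := h.al (h.en.nm.al i a)
  obtain ⟨q, q1, q2, q3⟩ : ∃ q, M.Lsd (K.up (e / 4)) q ∧ (q + e % 4) % 2 = 1 ∧
      K.P.En (e % 4) (q / 4) = K.P.En (e % 4) (K.En' (e % 4) (e / 16)) := by
    rcases lt_or_ge (e % 4) 2 with c | c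
    · rw [show (e / 4 + 1) % 2 = e % 4 by omega, Nat.div_div_eq_div_mul] at u3
      obtain ⟨q, q1, q2, q3⟩ := h.a.up c u2 a u3 (h.en.nm.pa _ i _ a) fun k => m ⟨c, by
        rwa [((h.sel.obj c).2 ⟨a', u2, k⟩).1, h.n]⟩
      exact ⟨q, q1, q2, (h.nm.co h.ok i q1.1.1 a').2 q3⟩
    · have m' : ¬K.moved (e % 4) (e / 16) := fun k => absurd k.1 (not_lt.2 c)
      obtain ⟨q, q1, q2, q3⟩ := h.a.dn k1 (fun c => k.2.resolve_left m' ((h.p e).2 ⟨c, k2⟩)) u2 u3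
      rw [show 2 + (e / 4 + 1) % 2 = e % 4 by omega, Nat.div_div_eq_div_mul] at q3
      exact ⟨q, q1, by omega, ((h.nm.co h.ok i q1.1.1 (h.al a)).2 q3).trans (h.en.old i a m').symm⟩
  obtain ⟨t, t1, t2⟩ := h.sel.lex u2 q1
  refine ⟨t, t1, ?_⟩
  rw [t2, h.p, pt_div, ren_eq m, ← q3, Pr.own, pt_mod, pt_pt,
    show pt q e / 16 = q / 4 by unfold pt; omega]
  exact ⟨⟨q1.1, by unfold pt; omega⟩, rfl⟩

theorem an_eq (k : K.ins e) (m : ¬K.moved (e % 4) (K.En' (e % 4) (e / 16))) :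
    ∃ q, M.Lsd (K.up (e / 4)) q ∧ K.P.val (pt q e) ∧ K.P.own (pt q e) = K.ren (K.N.own e) ∧
      K.an e = K.P.ld.slot (16 * K.n) (pt q e) := by
  obtain ⟨-, k1, k2⟩ := lst_spec (h.anc k m)
  refine ⟨_, h.sel.lsd (h.up k).2.1 ?_, k1, k2, by rw [Rn.an, own_div, if_neg m]⟩
  have := h.ok.lt _ ((h.p _).1 k1).1.1
  rw [pt_div] at this
  omega

theorem nxp (k : K.ins e) : ∃ t < 12 * K.nc, K.nxp (K.up (e / 4)) t = e / 4 := by
  have k1 := ((h.p' e).1 k.1).1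
  obtain ⟨-, u2, u3⟩ := h.up k
  obtain ⟨b, b1, b2, b3⟩ := h.a.cand k1 u2 u3
  obtain ⟨t, t1, t2⟩ := h.h.h2.good.gex u2 b1 b2
  have s0 : ∀ q, q / 4 = b → K.bp (K.up (e / 4)) (4 * t + q % 4) = q := fun q c => by
    rw [Rn.bp, if_pos (by omega), show (4 * t + q % 4) / 4 = t by omega, t2]
    unfold pt
    omega
  have s1 : ∀ s, K.bp (K.up (e / 4)) s = M'.lk (e / 4) →
      K.nxp (K.up (e / 4)) (2 * s + 1) = e / 4 := fun s c => by
    rw [Rn.nxp, if_neg (by omega), show (2 * s + 1) / 2 = s by omega, c, h.h.h2.lam.lam,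
      if_pos (h.ok'.al_lk k1.1), h.ok'.inv]
  rcases b3 with c | c | ⟨w, c1, c⟩
  · refine ⟨2 * (4 * t + e / 4 % 4), by omega, ?_⟩
    rw [Rn.nxp, if_pos (by omega), Nat.mul_div_cancel_left _ two_pos, s0 _ c]
  · exact ⟨_, by omega, s1 _ (s0 _ c)⟩
  · refine ⟨_, by omega, s1 (4 * K.nc + 2 * t + (w - 2)) ?_⟩
    rw [Rn.bp, if_neg (by omega), show 2 + (4 * K.nc + 2 * t + (w - 2)) % 2 = w by omega,
      show (4 * K.nc + 2 * t + (w - 2) - 4 * K.nc) / 2 = t by omega, t2,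
      h.h.h2.lam.fed c1 (by omega) (Or.inl b2)]
    exact c.symm

theorem nx (k : K.ins e) : ∃ t < 12 * K.nc, K.Nx (K.an e) t = e := by
  obtain ⟨t, t1, t2⟩ := h.nxp k
  refine ⟨t, t1, ?_⟩
  by_cases m : K.moved (e % 4) (K.En' (e % 4) (e / 16))
  · have l := h.hl (h.vl k.1).2
    have p := ((h.p' e).1 k.1).2
    have e1 : K.obj (e % 4) (e / 16) = K.up (e / 4) := by
      rw [Rn.up, show (e / 4 + 1) % 2 = e % 4 by have := m.1; omega, Nat.div_div_eq_div_mul]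
    rw [Rn.an, own_div, if_pos m, Rn.Nx, zl_mk _ l, ze_mk _ l, if_pos rfl, own_div, own_eq, pt_mod,
      ← h.mov (h.val_al k.1) m, e1, t2, pt_pt, pt_eta]
  · obtain ⟨q, q1, q2, -, q4⟩ := h.an_eq k m
    have l : pt q e < 16 * K.n := by
      have := h.ok.lt _ q1.1.1
      have := h.n
      unfold pt
      omega
    rw [q4, Ld.slot, Rn.Nx, zl_mk _ l, ze_mk _ l,
      if_neg (show K.P.ld.cur _ ≠ 0 from h.h.h2.h1.hy.cur _ q2), pt_div,
      h.sel.seen (h.up k).2.1 q1, t2, pt_pt, pt_eta]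

end St

end KList

open KList in
theorem listS : ListS := by
  intro hP K M M' H en v a G
  have h : St K M M' := ⟨H, en, v, a,
    fun e => and_congr_left' (hP M K.P H.h2.h1.hy.ok H.h2.h1.hy.geo _),
    fun e => and_congr_left' (hP M' K.N H.h2.h1.g1.hy.ok' G _)⟩
  refine ⟨fun e => h.vl, fun y => h.hl, fun e k => k.1, fun e k1 k2 => ?_, fun x y => h.inj,
    fun e k => ?_, fun e => h.nx⟩
  · obtain ⟨k3, k4⟩ := not_or.1 fun c => k2 ⟨k1, c⟩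
    have b := h.val_al k1
    refine ⟨not_not.1 k4, (St.ren_eq fun m => k3 ⟨m.1, ?_⟩).trans ?_⟩
    · rw [h.mov b m]
      exact m.2
    · rw [en.old (Nat.mod_lt _ (by omega)) b k3]
      rfl
  · by_cases m : K.moved (e % 4) (K.En' (e % 4) (e / 16))
    · exact Or.inl (show K.an e = _ by rw [Rn.an, own_div, if_pos m]; rfl)
    · obtain ⟨q, -, q2, q3, q4⟩ := h.an_eq k m
      exact Or.inr ⟨_, q2, q3, q4⟩

end Pool.Agent.MP_1a6d78_lc.PG
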