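import Pool.Agent.MP_1a6d78_lc.PG.Spec

/-! PROJECT PG: the row MEET. -/

namespace Pool.Agent.MP_1a6d78_lc.PG

open Classical ED PR GL Cm Ct

namespace Meet

section gen

variable {M : Cm} {k a b u v c : ℕ}

theorem p0 (c : ℕ) : pt c 0 = 4 * c := rfl

theorem p2 (c : ℕ) : pt c 2 = 4 * c + 2 := rfl

theorem s0 (c : ℕ) : M.ss 0 c = 0 ∨ M.ss 0 c = 3 := ss_cases 0 c

theorem s2 (c : ℕ) : M.ss 2 c = 2 ∨ M.ss 2 c = 1 := ss_cases 2 c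

theorem s3 (c : ℕ) : M.ss 3 c = 2 ∨ M.ss 3 c = 3 := (ss_cases 3 c).symm

theorem ti_refl (k a u : ℕ) : M.Ti k a u u := ⟨0, rfl, fun _ h => absurd h (Nat.not_lt_zero _)⟩

theorem ti_pa (h : M.Ti k a u v) : M.Pa k u v := let ⟨t, e, _⟩ := h; ⟨t, e⟩

theorem ti_tail (h : M.Ti k a u v) (e : M.ss k v = a) : M.Ti k a u (M.st k v) := by
  obtain ⟨t, rfl, h⟩ := h
  exact ⟨t + 1, wk_succ _ _ _, fun s hs =>
    (Nat.lt_succ_iff_lt_or_eq.1 hs).elim (h s) fun k => k ▸ e⟩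

theorem ti_rg (H : M.Ok) (F : M.FlowK) (hk : k < 4) (hu : M.al u) (h : M.Ti k a u v) :
    M.Rg (pt u a) (pt v a) := by
  obtain ⟨t, rfl, h⟩ := h
  induction t with
  | zero => exact rg_refl _ _
  | succ t ih =>
    have := F.rg1 k hk _ (H.al_wk k hu t)
    rw [h t (Nat.lt_succ_self t), ← wk_succ] at this
    exact rg_trans (ih fun s hs => h s (Nat.lt_succ_of_lt hs)) this

theorem fe_ti (H : M.Ok) (hu : M.al u) (h : M.Ti k a u v) (e : M.ss k v = b) (n : a ≠ b) :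
    M.FE k u b = M.st k v := by
  obtain ⟨t, rfl, h⟩ := h
  rw [FE_eq H hu e fun s hs => h s hs ▸ n, wk_succ]

theorem fe_ex (H : M.Ok) (h : M.FE k u b < M.n) (s : ∀ c, M.ss k c = a ∨ M.ss k c = b) :
    M.al u ∧ ∃ v, M.Ti k a u v ∧ M.ss k v = b ∧ M.FE k u b = M.st k v := by
  obtain ⟨h1, t, h2, h3, h4⟩ := FE_spec H h
  exact ⟨h1, _, ⟨t, rfl, fun r hr => (s _).resolve_right (h4 r hr)⟩, h3, h2.trans (wk_succ _ _ _)⟩

/-- The step back along a passage by the side 3. -/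
theorem back (H : M.Ok) (hc : M.al c) (e : M.ss 0 c = 3) :
    M.st 3 (M.st 0 c) = c ∧ M.ss 3 (M.st 0 c) = 3 := by
  have h := H.lk_pt (i := 0) hc
  rw [e] at h
  have k : M.lk (pt (M.st 0 c) 3) = 4 * c := (congrArg M.lk h).symm.trans (H.inv _)
  unfold Cm.ss
  rw [Cm.st, k]
  exact ⟨by omega, if_pos (by omega)⟩

theorem r03 (F : M.FlowK) (hc : M.al c) (e : M.ss 0 c = 3) : M.Rg (4 * c) (4 * M.st 0 c + 2) := by
  have := F.rg2 0 (by omega) c hc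
  rwa [e] at this

theorem up_rg (H : M.Ok) (F : M.FlowK) (h : M.FE 0 u 3 < M.n) :
    M.al (M.FE 0 u 3) ∧ M.Rg (4 * u) (4 * M.FE 0 u 3 + 2) := by
  obtain ⟨hu, v, h1, h2, h3⟩ := fe_ex H h s0
  have hv := (ti_pa h1).al H hu
  rw [h3]
  exact ⟨H.al_st 0 hv, rg_trans (ti_rg H F (by omega) hu h1) (r03 F hv h2)⟩

theorem nr_back {Q : ℕ → Prop} (h : ∀ l, Q (M.nr l) → Q l) {x y : ℕ} (r : M.Rg x y) (q : Q y) :
    Q x := by
  obtain ⟨t, rfl⟩ := r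
  induction t generalizing x with
  | zero => exact q
  | succ t ih => exact h _ (ih q)

end gen

variable {Z : Ks} (G : Z.G1) {x c u b q w : ℕ}

include G

theorem al0 (h : Z.M'.al c) : Z.M.al c := ((G.hy.smo.al c).1 h).1

theorem nd (h : Z.M'.al c) (hx : Z.X x) : ¬Z.M.Dd x c := fun k =>
  ((G.hy.smo.al c).1 h).2 ⟨x, hx, k⟩

theorem dd (hx : Z.X x) (h : Z.M.al c) (n : ¬Z.M'.al c) (k : Z.M.Co 0 c x) : Z.M.Dd x c := by
  obtain ⟨y, hy, d⟩ : Z.M.Dead Z.X c := by_contra fun e => n ((G.hy.smo.al c).2 ⟨h, e⟩)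
  rwa [G.dead.uniq hx hy (by omega) k (G.dead.pa hy (by omega) d).co]

theorem al_pa (h : Z.M.al c) (k : Z.M.Pa 0 c b) (hb : Z.M'.al b) : Z.M'.al c := by
  refine (G.hy.smo.al c).2 ⟨h, fun ⟨x, hx, d⟩ => nd G hb hx ?_⟩
  obtain ⟨t, rfl⟩ := k
  exact iter_inv (Q := Z.M.Dd x) (fun _ k => G.dead.st hx (by omega) k) d t

theorem lv_wk (hw : w = 2 ∨ w = 3) (h : Z.M.Lv Z.M' c) (t : ℕ) : Z.M.Lv Z.M' (Z.M.wk w c t) :=
  iter_inv (Q := Z.M.Lv Z.M') (fun _ k => (G.dead.lvst hw k).1) h t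

theorem side (hw : w = 2 ∨ w = 3) (h : Z.M.Lv Z.M' c) (t : ℕ)
    (n : ¬Z.M'.al (Z.M.wk w c (t + 1))) : Z.M.ss w (Z.M.wk w c t) = 2 :=
  by_contra fun e => n (wk_succ w c t ▸ (G.dead.lvst hw (lv_wk G hw h t)).2 e)

theorem ex (s : ℕ) (hx : Z.X x) (hc : Z.M'.al c) (k : Z.M.Co 0 c x) :
    ∃ b, Z.M.Cand Z.En x b ∧ Z.M'.al b ∧ Z.M.Mt c s b := by
  have H := G.hy.ok
  obtain ⟨T, hT⟩ := k.pa H (G.dead.per hx (by omega))
  have e : ∃ t, ¬Z.M'.al (Z.M.wk 0 c (t + 1)) := by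
    cases T with
    | zero => exact absurd (.top (rg_refl _ _)) (nd G (hT ▸ hc) hx)
    | succ T => exact ⟨T, fun a => nd G (hT ▸ a) hx (.top (rg_refl _ _))⟩
  have a1 := Nat.find_spec e
  have a2 : Z.M'.al (Z.M.wk 0 c (Nat.find e)) := by
    rcases Nat.eq_zero_or_eq_succ_pred (Nat.find e) with a | a
    · rwa [a]
    · rw [a]
      exact not_not.1 (Nat.find_min e (by omega))
  generalize Nat.find e = t at a1 a2
  have co := (Pa.wk 0 c (t + 1)).co.symm.trans k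
  rw [wk_succ] at a1 co
  have a3 : Z.M.ss 0 (Z.M.wk 0 c t) = 3 := (G.dead.bnd (by omega) a2 a1).1
  obtain ⟨b, b1, b2, j, b3, b4⟩ := G.wall.one (i := 0) (by omega) hx a2
    ⟨_, ti_tail (ti_refl _ _ _) a3, dd G hx (H.al_st 0 (al0 G a2)) a1 co⟩
  refine ⟨b, b1, b2, ?_⟩
  cases j with
  | zero => exact Or.inl ⟨t, b3.symm⟩
  | succ j =>
    obtain ⟨⟨-, n⟩ | ⟨i, i1, i2⟩, -⟩ := (G.down.pw (s := 2) (Or.inr rfl) b2).1
      (Or.inr ⟨j, b3, b4 j (Nat.lt_succ_self j)⟩)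
    · exact absurd n (by decide)
    obtain ⟨r1, r2⟩ := back H (al0 G a2) a3
    have i3 : Z.M.wk 3 b i = Z.M.st 0 (Z.M.wk 0 c t) :=
      H.st_inj (H.al_wk 3 (al0 G b2) i) (H.al_st 0 (al0 G a2))
        (((wk_succ _ _ _).symm.trans i1).trans r1.symm) (i2.trans r2.symm)
    cases i with
    | zero => exact absurd (i3 ▸ b2) a1
    | succ i =>
      exact Or.inr ⟨_, Or.inr ⟨t, wk_succ _ _ _, a3⟩,
        Or.inr ⟨i, i3, side G (Or.inr rfl) (G.dead.lv b2) i (i3 ▸ a1)⟩⟩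

theorem al (hc : Z.M.al c) (hb : Z.M'.al b) (k : Z.M.Mt c 0 b) : Z.M'.al c := by
  obtain k | ⟨r, ⟨-, n⟩ | ⟨t, rfl, a⟩, ⟨-, n⟩ | ⟨j, e, -⟩⟩ := k
  · exact al_pa G hc k hb
  · exact absurd n (by decide)
  · exact absurd n (by decide)
  · exact absurd n (by decide)
  obtain ⟨r1, r2⟩ := back G.hy.ok (G.hy.ok.al_wk 0 hc t) a
  have := (G.dead.lvst (Or.inr rfl) (lv_wk G (Or.inr rfl) (G.dead.lv hb) (j + 1))).2
  rw [e, wk_succ, r1, r2] at this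
  exact al_pa G hc (Pa.wk _ _ _) (this (by decide))

theorem rk (ρ : ℕ → ℕ) (hx : Z.X x) (hρ : ∀ c u, Z.M.Dd x c →
    (Z.M.Rg (4 * c) (4 * u) → ρ u = ρ c) ∧ (Z.M.Rg (4 * c) (4 * u + 2) → ρ u < ρ c))
    (hu : Z.M.Dd x u) (h : Z.M.FE 0 u 3 < Z.M.n) (hb : Z.M.al b)
    (k : Z.M.Mt (Z.M.FE 0 u 3) 3 b) : Z.M.Dd x b ∧ ρ b < ρ u := by
  have H := G.hy.ok
  have F := G.hy.fl
  have al : ∀ {c}, Z.M.Dd x c → Z.M.al c := dd_al H (G.hy.fam.top x hx).1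
  obtain ⟨-, r0⟩ := up_rg H F h
  generalize Z.M.FE 0 u 3 = y at r0 k
  have w : ∀ t, Z.M.Dd x (Z.M.wk 0 y t) ∧ ρ (Z.M.wk 0 y t) < ρ u := fun t =>
    iter_inv (Q := fun c => Z.M.Dd x c ∧ ρ c < ρ u) (fun c k => ⟨G.dead.st hx (by omega) k.1, by
      rcases s0 (M := Z.M) c with e | e
      · have := F.rg1 0 (by omega) c (al k.1)
        rw [e] at this
        exact ((hρ _ _ k.1).1 this).trans_lt k.2
      · exact ((hρ _ _ k.1).2 (r03 F (al k.1) e)).trans k.2⟩)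
      ⟨G.dead.inc hx hu r0, (hρ _ _ hu).2 r0⟩ t
  obtain ⟨t, rfl⟩ | ⟨r, k, ⟨-, n⟩ | ⟨j, e, -⟩⟩ := k
  · exact w t
  · exact absurd n (by decide)
  have key : ∀ j, (∃ o, Z.M.Dd x o ∧ ρ o ≤ ρ u ∧ Z.M.Rg (4 * o) (4 * Z.M.wk 3 b j + 2)) →
      Z.M.Dd x b ∧ ρ b < ρ u := fun j => by
    induction j with
    | zero => exact fun ⟨o, o1, o2, o3⟩ => ⟨G.dead.inc hx o1 o3, ((hρ _ _ o1).2 o3).trans_le o2⟩
    | succ j ih =>
      rintro ⟨o, o1, o2, o3⟩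
      rw [wk_succ] at o3
      rcases s3 (M := Z.M) (Z.M.wk 3 b j) with e | e
      · have := F.rg1 3 (by omega) _ (H.al_wk 3 hb j)
        rw [e] at this
        exact ih ⟨o, o1, o2, rg_trans o3 (rg_symm H this)⟩
      · have := F.rg2 3 (by omega) _ (H.al_wk 3 hb j)
        rw [e] at this
        exact ih ⟨_, G.dead.inc hx o1 o3, (((hρ _ _ o1).2 o3).trans_le o2).le, rg_symm H this⟩
  refine key (j + 1) ?_
  rw [e]
  obtain ⟨rfl, -⟩ | ⟨t, rfl, a⟩ := k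
  · exact ⟨u, hu, le_rfl, r0⟩
  · exact ⟨_, (w t).1, (w t).2.le, wk_succ 0 y t ▸ r03 F (al (w t).1) a⟩

theorem hop (h : Z.M.FE 0 u 3 < Z.M.n) : Z.M.FE 2 (Z.M.FE 0 u 3) 1 < Z.M.n ∧
    Z.M.Rg (4 * u) (4 * Z.M.FE 2 (Z.M.FE 0 u 3) 1) := by
  have H := G.hy.ok
  have F := G.hy.fl
  obtain ⟨hu, v, h1, h2, h3⟩ := fe_ex H h s0
  have k := (F.turn 0 (by omega) v ((ti_pa h1).al H hu)).1
  rw [h2, ← h3] at k
  obtain ⟨hy, e, e1, e2, e3⟩ := fe_ex H k s2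
  have r := F.rg2 2 (by omega) e ((ti_pa e1).al H hy)
  rw [e2, ← e3] at r
  exact ⟨k, rg_trans (up_rg H F h).2 (rg_trans (ti_rg H F (by omega) hy e1) r)⟩

theorem step (hx : Z.X x) (hu : Z.M'.al u) (k : Z.M.Co 0 u x) : Z.M.FE 0 u 3 < Z.M.n ∧
    ((∃ b, Z.M.Cand Z.En x b ∧ Z.M'.al b ∧ Z.M.Mt (Z.M.FE 0 u 3) 3 b) ∨
      (Z.M.Cand Z.En x (Z.M.FE 2 (Z.M.FE 0 u 3) 1) ∧
        ∀ d, Z.M.Ti 2 2 (Z.M.FE 0 u 3) d → Z.M.Dd x d)) := by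
  have H := G.hy.ok
  have F := G.hy.fl
  have h : Z.M.FE 0 u 3 < Z.M.n := by
    refine H.lt _ ((FE_le H 0 u 3).resolve_left fun e => nd G hu hx ?_)
    obtain ⟨t, ht⟩ := k.pa H (G.dead.per hx (by omega))
    exact .top (rg_symm H (ti_rg H F (a := 0) (by omega) (al0 G hu)
      ⟨t, ht, fun s _ => (s0 _).resolve_right ((FE_none H (al0 G hu)).1 e s)⟩))
  refine ⟨h, ?_⟩
  obtain ⟨-, a, h1, h2, h3⟩ := fe_ex H h s0
  have ha := (ti_pa h1).al H (al0 G hu)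
  have ha' : Z.M'.al a := (G.hy.smo.al a).2 ⟨ha, fun ⟨y, hy, d⟩ =>
    nd G hu hy (G.dead.rg d (rg_symm H (ti_rg H F (by omega) (al0 G hu) h1)))⟩
  have co := ((ti_pa h1).trans (Pa.step 0 a)).co.symm.trans k
  rw [h3]
  by_cases n : Z.M'.al (Z.M.st 0 a)
  · exact Or.inl (ex G 3 hx n co)
  have hy := H.al_st 0 ha
  have d := dd G hx hy n co
  have lv := (G.dead.bnd (by omega) ha' n).2
  obtain ⟨t, nt⟩ := G.smo.ex (Or.inl rfl) lv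
  have run := G.run.run (Or.inl rfl) hx d lv nt
  have ti : Z.M.Ti 2 2 (Z.M.st 0 a) (Z.M.wk 2 (Z.M.st 0 a) t) :=
    ⟨t, rfl, fun s hs => side G (Or.inl rfl) lv s (nt.1 s hs)⟩
  have hg := wk_succ 2 (Z.M.st 0 a) t ▸ nt.2
  rcases s2 (M := Z.M) (Z.M.wk 2 (Z.M.st 0 a) t) with e | e
  · obtain ⟨b, b1, b2, b3⟩ := G.wall.two (Or.inl rfl) hx (H.al_wk 2 hy t)
      ⟨_, ti_refl _ _ _, run t le_rfl⟩ e hg
    obtain ⟨i, hi⟩ := ((G.down.pa (Or.inr rfl) b2).1 (ti_pa b3)).1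
    obtain ⟨j, j1, j2⟩ := F.rev 2 (by omega) 2 _ _ hy (Or.inl rfl) (ti_tail ti e)
    cases j with
    | zero => exact absurd (j1 ▸ hg) n
    | succ j =>
      refine Or.inl ⟨b, b1, b2, Or.inr ⟨_, Or.inl ⟨rfl, rfl⟩, Or.inr ⟨i + j, ?_, ?_⟩⟩⟩
      · rw [add_assoc, wk_add, hi]
        exact j1
      · rw [wk_add, hi]
        exact j2 j (Nat.lt_succ_self j)
  · have l := (G.smo.up (i := 0) (by omega) ha' n nt).trans (H.lk_pt (H.al_wk 2 hy t))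
    rw [e] at l
    refine Or.inr ⟨?_, ?_⟩
    · rw [fe_ti H hy ti e (by decide)]
      rcases (G.run.gcase (by omega) hx ha' d).2 with g | ⟨g, -⟩
      · exact Or.inl ⟨_, g, by rw [l, pt_div]⟩
      · rw [Cm.ss, l, sd, pt_mod] at g
        exact absurd g (by decide)
    · rintro _ ⟨j, rfl, hj⟩
      exact run j (not_lt.1 fun c => absurd ((hj t c).symm.trans e) (by decide))

theorem fin (u : ℕ → ℕ) (h : ∀ r, Z.M.FE 0 (u r) 3 < Z.M.n ∧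
    u (r + 1) = Z.M.FE 2 (Z.M.FE 0 (u r) 3) 1 ∧
      ∀ d, Z.M.Ti 2 2 (Z.M.FE 0 (u r) 3) d → Z.M.Dd x d) : Z.M.Dd x (u 0) := by
  have H := G.hy.ok
  have F := G.hy.fl
  refine .step ⟨_, (up_rg H F (h 0).1).2⟩ fun v hv => ?_
  have key := nr_back (Q := fun l => ∃ r c, (l = 4 * c ∧ Z.M.Ti 0 0 (u r) c) ∨
    (l = 4 * c + 2 ∧ Z.M.Ti 2 2 (Z.M.FE 0 (u r) 3) c)) (fun l => ?_) (rg_symm H hv)
    ⟨0, _, Or.inl ⟨rfl, ti_refl _ _ _⟩⟩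
  · obtain ⟨r, c, ⟨e, -⟩ | ⟨e, k⟩⟩ := key
    · omega
    · exact (h r).2.2 v ((show c = v by omega) ▸ k)
  have inv : Z.M.lk (Z.M.nr l) = r4 l := H.inv _
  rintro ⟨r, c, ⟨e, k⟩ | ⟨e, k⟩⟩
  · have hu := (FE_spec H (h r).1).1
    have p := H.lk_pt (i := 0) ((ti_pa k).al H hu)
    rw [p0, ← e, inv] at p
    rcases s0 (M := Z.M) c with s | s <;> rw [s] at p
    · exact ⟨r, _, Or.inl ⟨by revert p; unfold r4 pt ep; simp; omega, ti_tail k s⟩⟩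
    · exact ⟨r, _, Or.inr ⟨by
        rw [fe_ti H hu k s (by decide)]; revert p; unfold r4 pt ep; simp; omega, ti_refl _ _ _⟩⟩
  · have hy := (up_rg H F (h r).1).1
    have p := H.lk_pt (i := 2) ((ti_pa k).al H hy)
    rw [p2, ← e, inv] at p
    rcases s2 (M := Z.M) c with s | s <;> rw [s] at p
    · exact ⟨r, _, Or.inr ⟨by revert p; unfold r4 pt ep; simp; omega, ti_tail k s⟩⟩
    · exact ⟨r + 1, _, Or.inl ⟨by
        rw [(h r).2.1, fe_ti H hy k s (by decide)]; revert p; unfold r4 pt ep; simp; omega,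
        ti_refl _ _ _⟩⟩

end Meet

theorem meetS : MeetS := fun _ G =>
  ⟨fun s => Meet.ex G s, Meet.al G, fun ρ => Meet.rk G ρ, Meet.hop G, Meet.step G,
    fun u _ _ => Meet.fin G u⟩

end Pool.Agent.MP_1a6d78_lc.PG
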