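import Pool.Agent.MP_1a6d78_lc.PG.Spec

/-! PROJECT PG, row RUN: independence of the kills of a family. -/

namespace Pool.Agent.MP_1a6d78_lc.PG

open Classical ED PR GL Relation Cm Ct

namespace KRun

variable {M : Cm} {Z : Ks}

theorem lk_back (H : M.Ok) {i c : ℕ} (hc : M.al c) :
    M.lk (pt (M.st i c) (ep i (M.ss i c))) = pt c i := by
  rw [← H.lk_pt hc, H.inv]

/-- A set of labels that is closed under the next or the previous label contains regions. -/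
theorem clo (H : M.Ok) {Q : ℕ → Prop} (i : ℕ)
    (hs : ∀ l, Q l → ∃ l', Q l' ∧ if i = 1 then M.nr l = l' else M.nr l' = l) {x y : ℕ}
    (h : M.Rg x y) (k : Q x) : Q y := by
  by_cases e : i = 1
  · refine rg_ind h k fun d u => ?_
    obtain ⟨l, l1, l2⟩ := hs d u
    rw [if_pos e] at l2
    exact l2 ▸ l1
  · obtain ⟨s, rfl⟩ := rg_symm H h
    clear h
    induction s with
    | zero => exact k
    | succ s ih =>
      rw [Function.iterate_succ_apply'] at k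
      obtain ⟨l, l1, l2⟩ := hs _ k
      rw [if_neg e] at l2
      exact ih (nr_inj H l2 ▸ l1)

/-- One step along a vertex. -/
theorem stp (H : M.Ok) {i b c : ℕ} (hi : i < 2) (hb : b = 0 ∨ b = 2) (hc : M.al c) {l : ℕ}
    (hl : l = 4 * M.st (b + i) c + if M.ss (b + i) c = b then b else 2 - b) :
    if i = 1 then M.nr (4 * c + b) = l else M.nr l = 4 * c + b := by
  have e1 := H.lk_pt (i := b + i) hc
  have e2 := lk_back (i := b + i) H hc
  have e3 := ss_cases (M := M) (b + i) c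
  subst hl
  unfold Cm.nr
  generalize M.ss (b + i) c = a at *
  generalize M.st (b + i) c = g at *
  split_ifs with u v v
  all_goals first
    | (rw [show r4 (4 * c + b) = pt c (b + i) by unfold r4 pt; omega, e1]
       unfold pt ep
       split_ifs <;> omega)
    | (rw [show 4 * c + b = pt c (b + i) by unfold pt; omega, ← e2]
       congr 1
       unfold r4 pt ep
       split_ifs <;> omega)

theorem lsd_lk (H : M.Ok) (F : M.FlowK) {x p : ℕ} (h : M.Lsd x p) : M.Lsd x (M.lk p) :=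
  ⟨(F.plk p).2 h.1, by rw [H.inv]; exact h.2.symm⟩

theorem dd_wk (D : Z.DeadK) {x c i : ℕ} (hx : Z.X x) (hi : i < 2) (h : Z.M.Dd x c) (t : ℕ) :
    Z.M.Dd x (Z.M.wk i c t) := iter_inv (Q := Z.M.Dd x) (fun _ k => D.st hx hi k) h t

theorem lv_wk (D : Z.DeadK) {w e : ℕ} (hw : w = 2 ∨ w = 3) (h : Z.M.Lv Z.M' e) (t : ℕ) :
    Z.M.Lv Z.M' (Z.M.wk w e t) :=
  iter_inv (Q := Z.M.Lv Z.M') (fun _ k => (D.lvst hw k).1) h t

theorem hug_dd {i x e : ℕ} (h : M.Dd x e) : M.Hug i x e :=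
  ⟨e, ⟨0, rfl, fun _ k => absurd k (Nat.not_lt_zero _)⟩, h⟩

theorem nt_ss (D : Z.DeadK) {w e t s : ℕ} (hw : w = 2 ∨ w = 3) (h : Z.M.Lv Z.M' e)
    (k : Z.M.Nt Z.M' w e t) (hs : s < t) : Z.M.ss w (Z.M.wk w e s) = 2 := by
  by_contra u
  exact k.1 s hs (by rw [wk_succ]; exact (D.lvst hw (lv_wk D hw h s)).2 u)

theorem ex_dd (Y : Z.Hy) {c : ℕ} (h : Z.M.al c) (k : ¬Z.M'.al c) : ∃ y, Z.X y ∧ Z.M.Dd y c :=
  by_contra fun u => k ((Y.smo.al c).2 ⟨h, u⟩)

theorem cross (Y : Z.Hy) (D : Z.DeadK) {w x e : ℕ} (hw : w = 2 ∨ w = 3) (hx : Z.X x)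
    (he : Z.M.al e) (hg : Z.M.Hug (3 - w) x e) (h2 : Z.M.ss w e = 2) :
    (Z.M.Lsd x (pt e w) ∨ Z.M.Hug (w - 2) x (Z.M.st w e)) ∧
      ∀ y, Z.X y → Z.M.Co (w - 2) (Z.M.st w e) y → y = x := by
  have H := Y.ok
  by_cases hp : Z.M.Prb (pt e w)
  · have c1 : Z.M.Co ((pt e w + 1) % 2) (pt e w / 4) x := by
      rw [pt_div, show (pt e w + 1) % 2 = 3 - w by unfold pt; omega]
      exact (D.hug hx (by omega) hg).co
    refine ⟨Or.inl ⟨hp, Or.inl c1⟩, fun y hy c2 => (Y.fam.ind x y _ hx hy hp c1 ?_).symm⟩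
    have := H.par (pt e w) (by rwa [pt_div])
    rwa [show (Z.M.lk (pt e w) + 1) % 2 = w - 2 by unfold pt at *; omega]
  · obtain ⟨f1, u, f2, -, f3, -⟩ := Y.fl.turn w (by omega) e he
    obtain rfl : u = e := not_not.1 fun k => hp (f3.2 k)
    rw [h2, show (w + 2) % 4 = w - 2 by omega, show (2 + 2) % 4 = 0 from rfl] at f1 f2
    obtain ⟨g1, t, g2, g3, g4⟩ := FE_spec H f1
    have ab := H.al_wk (w - 2) g1 t
    obtain ⟨ta, a1, a2⟩ := Y.fl.rev w (by omega) _ _ _ (g2 ▸ H.al_wk _ g1 _)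
      (by rcases hw with rfl | rfl <;> decide) f2
    rw [show ep w (os w 2) = 3 - w by rcases hw with rfl | rfl <;> rfl] at a1
    have bk := lk_back (i := w - 2) H ab
    rw [g3, ← wk_succ, ← g2, show ep (w - 2) 0 = 3 - w by rcases hw with rfl | rfl <;> rfl] at bk
    obtain ⟨d, ⟨td, d1, d2⟩, d3⟩ := hg
    have le : td ≤ ta := not_lt.1 fun k => by
      have := d2 ta k
      rw [a1, Cm.ss, bk] at this
      revert this
      unfold sd hs pt
      split_ifs <;> omega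
    obtain ⟨r, rfl⟩ := Nat.exists_eq_add_of_le le
    rw [wk_add, d1] at a1
    have k := D.st (i := 3 - w) hx (by omega) (a1 ▸ dd_wk (i := 3 - w) D hx (by omega) d3 r)
    rw [Cm.st, bk, pt_div] at k
    have hug : Z.M.Hug (w - 2) x (Z.M.st w u) := ⟨_, ⟨t, rfl, fun s hs => by
      have h1 := g4 s hs
      have h3 := ss_cases (M := Z.M) (w - 2) (Z.M.wk (w - 2) (Z.M.st w u) s)
      unfold PG.hs
      split_ifs <;> omega⟩, k⟩
    exact ⟨Or.inr hug, fun y hy c => D.uniq hy hx (by omega) c (D.hug hx (by omega) hug).co⟩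

theorem run (Y : Z.Hy) (D : Z.DeadK) {w x e t : ℕ} (hw : w = 2 ∨ w = 3) (hx : Z.X x)
    (he : Z.M.Dd x e) (hl : Z.M.Lv Z.M' e) (k : Z.M.Nt Z.M' w e t) :
    ∀ s ≤ t, Z.M.Dd x (Z.M.wk w e s) := by
  intro s
  induction s with
  | zero => exact fun _ => he
  | succ s ih =>
    intro hs
    obtain ⟨y, hy, u⟩ := ex_dd Y (Y.ok.al_wk w hl.1 (s + 1)) (k.1 s hs)
    have := (cross Y D hw hx (Y.ok.al_wk w hl.1 s) (hug_dd (ih (by omega)))
      (nt_ss D hw hl k hs)).2 y hy (by rw [← wk_succ]; exact (D.pa hy (by omega) u).co)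
    exact this ▸ u

theorem gcase (Y : Z.Hy) (D : Z.DeadK) (S : Z.SmoK) {i x q : ℕ} (hi : i < 2) (hx : Z.X x)
    (hq : Z.M'.al q) (he : Z.M.Dd x (Z.M.st i q)) :
    (∃ d, Z.M.Dd x d ∧ Z.M.lk (pt d (2 + i)) = Z.M'.lk (pt q i)) ∧
    (Z.M.Lsd x (Z.M'.lk (pt q i)) ∨ (Z.M'.ss i q = hs i ∧ Z.M.Hug i x (Z.M'.st i q))) := by
  have H := Y.ok
  have aq := ((Y.smo.al q).1 hq).1
  have ne : ¬Z.M'.al (Z.M.st i q) := fun k => ((Y.smo.al _).1 k).2 ⟨x, hx, he⟩
  obtain ⟨b1, b2⟩ := D.bnd hi hq ne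
  have hw : 2 + i = 2 ∨ 2 + i = 3 := by omega
  obtain ⟨t, nt⟩ := S.ex hw b2
  have up := S.up hi hq ne nt
  have rn := run Y D hw hx he b2 nt
  have s2 := fun s => nt_ss (s := s) D hw b2 nt
  have aw := H.al_wk (2 + i) b2.1
  refine ⟨⟨_, rn t le_rfl, up.symm⟩, ?_⟩
  by_cases h2 : Z.M.ss (2 + i) (Z.M.wk (2 + i) (Z.M.st i q) t) = 2
  · rcases (cross Y D hw hx (aw t) (hug_dd (rn t le_rfl)) h2).1 with c | c
    · exact Or.inl (up ▸ lsd_lk H Y.fl c)
    · refine Or.inr ⟨?_, ?_⟩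
      · rw [Cm.ss, up, H.lk_pt (aw t), h2]
        unfold sd hs pt ep
        split_ifs <;> omega
      · rw [Cm.st, up]
        rwa [show 2 + i - 2 = i by omega] at c
  · refine Or.inl (up ▸ lsd_lk H Y.fl ⟨?_, Or.inl ?_⟩)
    swap
    · rw [pt_div]
      exact (D.pa hx (Nat.mod_lt _ (by omega)) (rn t le_rfl)).co
    by_contra hp
    have h3 := ss_cases (M := Z.M) (2 + i) (Z.M.wk (2 + i) (Z.M.st i q) t)
    have o1 : os i (hs i) = 0 := by interval_cases i <;> rfl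
    have o2 : hs i ≠ 0 := by interval_cases i <;> decide
    have r0 : Z.M.Rg (4 * q) (4 * Z.M.st i q + 2) := by
      have := Y.fl.rg2 i (by omega) q aq
      rwa [b1, o1] at this
    have r1 : ∀ s ≤ t, Z.M.Rg (4 * q) (4 * Z.M.wk (2 + i) (Z.M.st i q) s + 2) := fun s => by
      induction s with
      | zero => exact fun _ => r0
      | succ s ih =>
        intro hs
        have := Y.fl.rg1 (2 + i) (by omega) _ (aw s)
        rw [s2 s hs, ← wk_succ] at this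
        exact rg_trans (ih (by omega)) this
    have np : ¬Z.M.Prb (pt q i) := fun k => hp <| by
      obtain ⟨-, y, y', k1, k2, k3⟩ := (Y.fl.psad i (by omega) q).1 k
      rw [b1, o1] at k1 k2
      refine (Y.fl.psad (2 + i) (by omega) _).2 ⟨aw t, ?_⟩
      rw [show os (2 + i) (Z.M.ss (2 + i) (Z.M.wk (2 + i) (Z.M.st i q) t)) = 2 by
        unfold os; split_ifs <;> omega]
      exact ⟨y, y', rg_trans (rg_symm H (r1 t le_rfl)) k1, rg_trans (rg_symm H (r1 t le_rfl)) k2,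
        k3⟩
    obtain ⟨-, u, f2, -, f3, -⟩ := Y.fl.turn i (by omega) q aq
    obtain rfl : u = q := not_not.1 fun k => np (f3.2 k)
    rw [b1, o1, show (i + 2) % 4 = 2 + i by omega, FE_eq (t := t) H b2.1
      (by unfold hs; split_ifs <;> omega)
      (fun s k => by rw [s2 s k]; unfold hs; split_ifs <;> omega)] at f2
    obtain ⟨T, T1, T2⟩ := f2
    have key := fun y => clo (x := 4 * u) (y := y) H (Q := fun l =>
      (∃ s ≤ T, l = 4 * Z.M.wk i (Z.M.wk (2 + i) (Z.M.st i u) (t + 1)) s + 0) ∨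
        ∃ s ≤ t, l = 4 * Z.M.wk (2 + i) (Z.M.st i u) s + 2) i (by
      rintro l (⟨s, hs, rfl⟩ | ⟨s, hs, rfl⟩)
      · refine ⟨_, ?_, stp H hi (Or.inl rfl) (H.al_wk i (aw _) s) rfl⟩
        rw [Nat.zero_add]
        rcases hs.eq_or_lt with rfl | hs
        · rw [T1, if_neg (b1 ▸ o2)]
          exact Or.inr ⟨0, Nat.zero_le _, rfl⟩
        · rw [if_pos (T2 s hs), ← wk_succ]
          exact Or.inl ⟨s + 1, hs, rfl⟩
      · refine ⟨_, ?_, stp H hi (Or.inr rfl) (aw s) rfl⟩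
        rcases hs.eq_or_lt with rfl | hs
        · rw [if_neg h2, ← wk_succ]
          exact Or.inl ⟨0, Nat.zero_le _, rfl⟩
        · rw [if_pos (s2 s hs), ← wk_succ]
          exact Or.inr ⟨s + 1, hs, rfl⟩)
    refine ((Y.smo.al u).1 hq).2 ⟨x, hx, Dd.step ⟨_, r0⟩ fun v hv => ?_⟩
    rcases key _ hv (Or.inl ⟨T, le_rfl, by rw [T1]; rfl⟩) with ⟨s, -, k⟩ | ⟨s, hs, k⟩
    · omega
    · rw [show v = Z.M.wk (2 + i) (Z.M.st i u) s by omega]
      exact rn s hs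

theorem ring (Y : Z.Hy) (D : Z.DeadK) {w y b : ℕ} (hw : w = 2 ∨ w = 3) (hy : Z.X y)
    (k : Z.M.Kd w (hs w) b) : ¬Z.M.Dd y b := by
  intro hb
  have H := Y.ok
  obtain ⟨ρ, hρ⟩ := D.rank hy
  have turn : ∀ e, Z.M.al e → Z.M.ss w e ≠ 2 → Z.M.Rg (4 * Z.M.st w e) (4 * e + 2) :=
    fun e he h2 => by
      have h3 := ss_cases (M := Z.M) w e
      have := Y.fl.rg2 w (by omega) e he
      rw [show os w (Z.M.ss w e) = 2 by unfold os; split_ifs <;> omega] at this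
      exact rg_symm H this
  have key : ∀ t e, Z.M.al e →
      (∃ o, Z.M.Dd y o ∧ Z.M.Rg (4 * o) (4 * Z.M.wk w e t + 2) ∧ ρ o ≤ ρ b) →
      ∃ o, Z.M.Dd y o ∧ Z.M.Rg (4 * o) (4 * e + 2) ∧ ρ o ≤ ρ b := fun t => by
    induction t with
    | zero => exact fun _ _ => id
    | succ t ih =>
      intro e he u
      obtain ⟨o, o1, o2, o3⟩ := ih _ (H.al_st w he) u
      by_cases h2 : Z.M.ss w e = 2
      · have := Y.fl.rg1 w (by omega) e he
        rw [h2] at this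
        exact ⟨o, o1, rg_trans o2 (rg_symm H this), o3⟩
      · exact ⟨_, D.inc hy o1 o2, turn e he h2, ((hρ _ _ o1).2 o2).le.trans o3⟩
  obtain ⟨u, ⟨u1, t, u2⟩, rfl, u3⟩ := k
  obtain ⟨o, o1, o2, o3⟩ := key t _ (H.al_st w u1) ⟨_, hb, by
    rw [u2]
    exact turn u u1 (by rw [u3]; unfold hs; split_ifs <;> omega), le_rfl⟩
  exact absurd ((hρ _ _ o1).2 o2) (not_lt.2 o3)

end KRun

open KRun in
theorem runS : RunS := by
  intro Z Y D S
  have H := Y.ok
  refine ⟨cross Y D, run Y D, gcase Y D S, ?_, ?_, ring Y D⟩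
  · intro i x y p hi hx hy hp c1 c2
    by_cases k : Z.M'.al (Z.M.st i p)
    · have e : Z.M'.st i p = Z.M.st i p :=
        congrArg (· / 4) (S.same (p := pt p i) (by rwa [pt_div]) k)
      rw [e, co_st] at c2
      exact D.uniq hy hx hi c2 c1
    · obtain ⟨z, hz, u⟩ := ex_dd Y (H.al_st i ((Y.smo.al p).1 hp).1) k
      obtain rfl : z = x := D.uniq hz hx hi (co_st.1 (D.pa hz hi u).co) c1
      obtain ⟨⟨d, d1, d2⟩, g | g⟩ := gcase Y D S hi hx hp u
      · have := Y.ok'.par (pt p i) (by rwa [pt_div])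
        refine Y.fam.ind y z _ hy hx g.1 ?_ ?_
        · rwa [show (Z.M'.lk (pt p i) + 1) % 2 = i by unfold pt at *; omega]
        · rw [← d2, H.inv, pt_div]
          exact (D.pa hx (Nat.mod_lt _ (by omega)) d1).co
      · exact D.uniq hy hx hi c2 (D.hug hx hi g.2).co
  · rintro x y b hx hy (⟨p, ⟨p1, p2⟩, rfl⟩ | ⟨w, d, hw, -, rfl, k⟩) hb
    · have c := (D.pa (i := (p + 1) % 2) hy (Nat.mod_lt _ (by omega)) hb).co
      rcases p2 with p2 | p2
      · exact D.uniq hy hx (Nat.mod_lt _ (by omega)) c p2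
      · exact Y.fam.ind y x p hy hx p1 c p2
    · obtain ⟨g1, t, g2, g3, -⟩ := FE_spec H k
      have ad : Z.M.al d := by_contra fun u => H.not_al_n (Y.nm.junk w (by omega) d u ▸ g1)
      exact absurd hb (ring Y D hw hy ⟨_, ((Y.nm.per w (by omega) d ad).pa H (Pa.wk _ _ t)).1,
        by rw [g2, wk_succ], g3⟩)

end Pool.Agent.MP_1a6d78_lc.PG
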