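import Pool.Agent.MP_1a6d78_lc.PG.Spec

/-! PROJECT PG: the links after a kill. -/

namespace Pool.Agent.MP_1a6d78_lc.PG

open Classical ED PR GL PL Relation Cm

namespace KSmo

variable {Z : Ks} {w e t : ℕ}

theorem lvwk (D : Z.DeadK) (hw : w = 2 ∨ w = 3) (h : Z.M.Lv Z.M' e) (s : ℕ) :
    Z.M.Lv Z.M' (Z.M.wk w e s) := by
  induction s with
  | zero => exact h
  | succ s ih => rw [wk_succ]; exact (D.lvst hw ih).1

theorem two (H : Z.Hy) (D : Z.DeadK) (hw : w = 2 ∨ w = 3) (h : Z.M.Lv Z.M' e)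
    (n : ¬Z.M'.al (Z.M.st w e)) : Z.M.lk (pt e w) = pt (Z.M.st w e) (ep w 2) := by
  rw [H.ok.lk_pt h.1, not_not.1 fun k => n ((D.lvst hw h).2 k)]

theorem ex (H : Z.Hy) (D : Z.DeadK) (hw : w = 2 ∨ w = 3) (h : Z.M.Lv Z.M' e) :
    ∃ t, Z.M.Nt Z.M' w e t := by
  have k : ∃ t, Z.M'.al (Z.M.wk w e (t + 1)) := by
    by_contra! n
    have a := fun s => two H D hw (lvwk D hw h s) (by rw [← wk_succ]; exact n s)
    simp only [← wk_succ] at a
    have key : ∀ y, Z.M.Rg (4 * e + 2) y → ∃ s, y = 4 * Z.M.wk w e (s + 1) + 2 := by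
      intro y hy
      rcases hw with rfl | rfl
      · have b : ∀ s, Z.M.nr (4 * Z.M.wk 2 e (s + 1) + 2) = 4 * Z.M.wk 2 e s + 2 := fun s => by
          have := congrArg Z.M.lk (a s)
          rw [H.ok.inv] at this
          rw [nr, show r4 (4 * Z.M.wk 2 e (s + 1) + 2) = pt (Z.M.wk 2 e (s + 1)) (ep 2 2) by
            rw [show ep 2 2 = 3 from rfl]; simp only [r4, pt]; omega, ← this]
          rfl
        obtain ⟨t, ht⟩ := Ct.rg_symm H.ok (Ct.rg_trans (Ct.rg_nr _ _) ((b 0).symm ▸ hy))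
        generalize 0 = s at ht
        induction t generalizing s with
        | zero => exact ⟨s, ht⟩
        | succ t ih =>
          rw [Function.iterate_succ_apply', ← b (s + 1)] at ht
          exact ih _ (Ct.nr_inj H.ok ht)
      · have b : ∀ s, Z.M.nr (4 * Z.M.wk 3 e s + 2) = 4 * Z.M.wk 3 e (s + 1) + 2 := fun s => by
          rw [nr, show r4 (4 * Z.M.wk 3 e s + 2) = pt (Z.M.wk 3 e s) 3 by
            simp only [r4, pt]; omega, a s]
          rfl
        refine Ct.rg_ind (Q := fun y => ∃ s, y = 4 * Z.M.wk 3 e (s + 1) + 2)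
          (Ct.rg_trans (Ct.rg_back H.ok _) hy) ⟨0, b 0⟩ ?_
        rintro _ ⟨s, rfl⟩
        exact ⟨s + 1, b _⟩
    obtain ⟨u, hu, k | k⟩ := h.2
    · obtain ⟨s, hs⟩ := key _ k
      exact n s ((show u = Z.M.wk w e (s + 1) by omega) ▸ hu)
    · obtain ⟨s, hs⟩ := key _ k
      omega
  exact ⟨Nat.find k, fun s hs => Nat.find_min k hs, Nat.find_spec k⟩

theorem cv (H : Z.Hy) (D : Z.DeadK) (hw : w = 2 ∨ w = 3) (h : Z.M.Lv Z.M' e)
    (k : Z.M.Nt Z.M' w e t) :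
    Cv Z.M.lk pr0 Z.M'.al (pt e w) (Z.M.lk (pt (Z.M.wk w e t) w)) := by
  induction t generalizing e with
  | zero => exact .stop k.2
  | succ t ih =>
    have n : ¬Z.M'.al (Z.M.st w e) := k.1 0 t.succ_pos
    refine .go n ?_
    rw [two H D hw h n, show pr0 (pt (Z.M.st w e) (ep w 2)) = pt (Z.M.st w e) w by
      rcases hw with rfl | rfl <;> simp only [pr0, pt, ep] <;> split_ifs <;> omega]
    exact ih (D.lvst hw h).1 ⟨fun s hs => k.1 (s + 1) (Nat.succ_lt_succ hs), k.2⟩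

theorem dn (H : Z.Hy) (D : Z.DeadK) (hw : w = 2 ∨ w = 3) (h : Z.M'.al e)
    (k : Z.M.Nt Z.M' w e t) : Z.M'.lk (pt e w) = Z.M.lk (pt (Z.M.wk w e t) w) :=
  (H.smo.lk _ (by rwa [pt_div])).uniq (cv H D hw (D.lv h) k)

theorem same (H : Z.Hy) {p : ℕ} (h : Z.M'.al (p / 4)) (k : Z.M'.al (Z.M.lk p / 4)) :
    Z.M'.lk p = Z.M.lk p := (H.smo.lk _ h).uniq (.stop k)

end KSmo

open KSmo in
theorem smoS : SmoS := by
  intro Z H D
  refine ⟨ex H D, dn H D, same H, fun {i q t} hi hq n k => ?_, fun {w c} hw hc => ?_,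
    fun {i c} hi hc n => ?_⟩
  · obtain ⟨b1, b2⟩ := D.bnd hi hq n
    refine (H.smo.lk _ (by rwa [pt_div])).uniq (.go n ?_)
    rw [H.ok.lk_pt ((H.smo.al q).1 hq).1, b1,
      show pr0 (pt (Z.M.st i q) (ep i (hs i))) = pt (Z.M.st i q) (2 + i) by
        obtain rfl | rfl : i = 0 ∨ i = 1 := by omega
        · rw [show ep 0 (hs 0) = 3 from rfl]; simp only [pr0, pt]; split_ifs <;> omega
        · rw [show ep 1 (hs 1) = 2 from rfl]; simp only [pr0, pt]; split_ifs <;> omega]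
    exact cv H D (by omega) b2 k
  · choose! N hN using fun e (h : Z.M'.al e) => ex H D hw (D.lv h)
    obtain ⟨u, u0, u1⟩ : ∃ u : ℕ → ℕ, u 0 = 0 ∧ ∀ t, u (t + 1) = u t + (N (Z.M.wk w c (u t)) + 1) :=
      ⟨fun t => Nat.rec 0 (fun _ a => a + (N (Z.M.wk w c a) + 1)) t, rfl, fun _ => rfl⟩
    have a : ∀ t, Z.M'.al (Z.M.wk w c (u t)) ∧ Z.M'.wk w c t = Z.M.wk w c (u t) := fun t => by
      induction t with
      | zero => rw [u0]; exact ⟨hc, rfl⟩
      | succ t ih =>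
        rw [u1, wk_add]
        refine ⟨(hN _ ih.1).2, ?_⟩
        rw [wk_succ, wk_succ, ih.2, Cm.st, dn H D hw ih.1 (hN _ ih.1)]
        rfl
    refine ⟨u, strictMono_nat_of_lt_succ fun t => by rw [u1]; omega, u0, fun t => ⟨(a t).2, ?_⟩,
      fun s h => ?_⟩
    · rw [(a t).2, ss, dn H D hw (a t).1 (hN _ (a t).1), u1, ← add_assoc, Nat.add_sub_cancel, wk_add]
      rfl
    · obtain ⟨t, h1, h2⟩ : ∃ t, u t ≤ s ∧ s < u (t + 1) := by
        clear h
        induction s with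
        | zero => exact ⟨0, u0.le, by rw [u1]; omega⟩
        | succ s ih =>
          obtain ⟨t, h1, h2⟩ := ih
          by_cases k : s + 1 < u (t + 1)
          · exact ⟨t, by omega, k⟩
          · exact ⟨t + 1, by omega, by rw [u1 (t + 1)]; omega⟩
      refine ⟨t, by_contra fun k => ?_⟩
      obtain ⟨r, rfl⟩ : ∃ r, s = u t + (r + 1) := ⟨s - u t - 1, by omega⟩
      rw [wk_add] at h
      exact (hN _ (a t).1).1 r (by rw [u1] at h2; omega) h
  · have a : ∀ t, Z.M'.al (Z.M.wk i c t) := fun t => (H.smo.al _).2 ⟨H.ok.al_wk i hc t,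
      fun ⟨x, hx, k⟩ => n x hx ((Pa.wk i c t).trans (D.pa hx hi k)).co⟩
    have b : ∀ t, Z.M'.lk (pt (Z.M.wk i c t) i) = Z.M.lk (pt (Z.M.wk i c t) i) := fun t =>
      same H (by rw [pt_div]; exact a t) (by have := a (t + 1); rwa [wk_succ] at this)
    refine fun t => ⟨a t, ?_, by rw [ss, b]; rfl⟩
    induction t with
    | zero => rfl
    | succ t ih => rw [wk_succ, wk_succ, ih, Cm.st, b]; rfl

end Pool.Agent.MP_1a6d78_lc.PG
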