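import Pool.Agent.MP_1a6d78_lc.PG.SpecB

/-! PROJECT PG, row KSTAGE: the programs `dq`, `dg`, `tight`, `db`. -/

namespace Pool.Agent.MP_1a6d78_lc.PG

open Classical ED PR GL Cm

namespace KStage

variable {K : Rn} {M M' : Cm} (H : K.H2 M M')
include H

theorem al_of {c : ℕ} (k : M'.al c) : M.al c := ((H.h1.g1.hy.smo.al c).1 k).1

theorem not_al {x c : ℕ} (hx : K.sel x) (k : M.Dd x c) : ¬M'.al c := fun u =>
  ((H.h1.g1.hy.smo.al c).1 u).2 ⟨x, hx, k⟩

theorem not_al_n : ¬M'.al M.n := fun u => H.h1.hy.ok.not_al_n (al_of H u)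

theorem dd_pa {i x c u : ℕ} (hi : i < 2) (hx : K.sel x) (k : M.Dd x c) (p : M.Pa i c u) :
    M.Dd x u := by
  obtain ⟨t, rfl⟩ := p
  induction t with
  | zero => exact k
  | succ t ih => rw [wk_succ]; exact H.h1.g1.dead.st hx hi ih

theorem lv_wk {w b : ℕ} (hw : w = 2 ∨ w = 3) (hb : M'.al b) (t : ℕ) : M.Lv M' (M.wk w b t) := by
  induction t with
  | zero => exact H.h1.g1.dead.lv hb
  | succ t ih => rw [wk_succ]; exact (H.h1.g1.dead.lvst hw ih).1

/-- After a last survivor comes a cell that dies with `x`. -/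
theorem dd_st {i p x u : ℕ} (hi : i < 2) (hp : M.al p) (hx : K.sel x) (c : M.Co i p x)
    (pu : M.Pa i p u) (k : ¬M'.al (M.st i u)) : M.Dd x (M.st i u) := by
  have h := H.h1.hy.ok
  have a : M.al (M.st i u) := h.al_st i (pu.al h hp)
  obtain ⟨y, hy, d⟩ : M.Dead K.sel (M.st i u) := by_contra fun e =>
    k ((H.h1.g1.hy.smo.al _).2 ⟨a, e⟩)
  have e : x = y := H.h1.g1.dead.uniq hx hy hi c
    ((pu.trans (Pa.step _ _)).trans (H.h1.g1.dead.pa hy hi d)).co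
  exact e ▸ d

theorem ls_ex {i p x : ℕ} (hi : i < 2) (hp : M'.al p) (hx : K.sel x) (c : M.Co i p x) :
    ∃ q, M.Pa i p q ∧ M'.al q ∧ ¬M'.al (M.st i q) := by
  obtain ⟨t, e⟩ := c.pa H.h1.hy.ok (H.h1.g1.dead.per hx hi)
  have d : ¬M'.al (M.wk i p t) := by
    rw [e]; exact not_al H hx (Dd.top (Ct.rg_refl _ _))
  clear e
  induction t with
  | zero => exact absurd hp d
  | succ t ih =>
    by_cases k : M'.al (M.wk i p t)
    · exact ⟨_, Pa.wk _ _ _, k, by rw [← wk_succ]; exact d⟩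
    · exact ih k

theorem cq_ex {i p : ℕ} (hi : i < 2) (hp : M'.al p) (ho : K.obj i p < M.n) :
    ∃ t < 3 * K.nc, M.Pa i p (K.cq i p t) ∧ M'.al (K.cq i p t) ∧ ¬M'.al (M.st i (K.cq i p t)) := by
  have h := H.h1.hy.ok
  have G := H.h1.hy.geo
  have h' : M'.Ok := H.h1.g1.hy.ok'
  obtain ⟨ap, hx, c⟩ := (H.h1.sel.obj hi).1 ⟨rfl, ho⟩
  obtain ⟨q, pq, aq, dq⟩ := ls_ex H hi hp hx c
  have dd := dd_st H hi ap hx c pq dq
  have sq : M.ss i q = hs i := (H.h1.g1.dead.bnd hi aq dq).1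
  obtain ⟨b, cb, ab, t0, e0, s0⟩ := H.h1.g1.wall.one hi hx aq
    ⟨M.st i q, ⟨1, rfl, fun s hs => by obtain rfl : s = 0 := by omega
                                       exact sq⟩, dd⟩
  obtain ⟨t, ht, et⟩ := H.good.gex hx cb ab
  have hw : 3 - i = 2 ∨ 3 - i = 3 := by omega
  have e1 : ep (3 - i) (hs i) = i := by rcases (by omega : i = 0 ∨ i = 1) with rfl | rfl <;> rfl
  have e2 : ep i (hs i) = 3 - i := by rcases (by omega : i = 0 ∨ i = 1) with rfl | rfl <;> rfl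
  have e3 : hs i ≠ 0 ∧ hs i ≠ 2 ∧ hs i < 4 := by
    rcases (by omega : i = 0 ∨ i = 1) with rfl | rfl <;> decide
  cases t0 with
  | zero =>
    have e : K.cq i p t = q := by rw [Rn.cq, if_pos ht, et]; exact e0
    exact ⟨t, by omega, by rw [e]; exact ⟨pq, aq, dq⟩⟩
  | succ t0 =>
    have pw : M.Pw (3 - i) b 2 q (hs i) :=
      ((H.h1.g1.down.pw hw ab).1 (Or.inr ⟨t0, e0, s0 t0 (by omega)⟩)).1
    obtain ⟨t1, f1, f2⟩ := pw.resolve_left fun k => e3.2.1 k.2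
    have mb := al_of H ab
    have l1 := h.lk_pt (i := 3 - i) (h.al_wk (3 - i) mb t1)
    rw [← wk_succ, f1, f2, e1] at l1
    have er : M.st i q = M.wk (3 - i) b t1 := by
      rw [Cm.st, ← l1, h.inv, pt_div]
    have pb : ∃ u < 2, M.Ps (K.P.fu (3 - i) b (hs (3 - i)) u) (M.st i q) 2 := by
      refine (G.fu_ps h _ (by omega) mb _ _).2 ⟨t1, er.symm, ?_⟩
      cases t1 with
      | zero => exact absurd (er ▸ ab) dq
      | succ t1 =>
        rw [sw_succ]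
        by_contra k
        exact dq (by rw [er, wk_succ]; exact (H.h1.g1.dead.lvst hw (lv_wk H hw ab t1)).2 k)
    obtain ⟨u, hu, pb⟩ := pb
    have ew : K.wall (3 - i) (K.obj i p) (2 * t + u) = K.P.fu (3 - i) b (hs (3 - i)) u := by
      rw [Rn.wall, show (2 * t + u) / 2 = t by omega, show (2 * t + u) % 2 = u by omega, et]
    have oA := G.fu_ok h 0 0 (by omega : i < 4) ap
    have oB := G.fu_ok h (hs (3 - i)) u (by omega : 3 - i < 4) mb
    have pA : M.Ps (K.P.fu i p 0 0) (M.st i q) (hs i) := by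
      obtain ⟨tq, rfl⟩ := pq
      obtain ⟨v, hv, k⟩ := (G.fu_ps h 0 (by omega : i < 4) ap (M.st i (M.wk i p tq)) (hs i)).2
        ⟨tq + 1, wk_succ _ _ _, sq⟩
      rcases (by omega : v = 0 ∨ v = 1) with rfl | rfl
      · exact k
      · rw [G.fu1 0 one_ne_zero (by omega) ap,
          rg_ps h (by omega) (G.nm.per i (by omega) p ap)] at k
        obtain ⟨⟨z, z1, z2, z3⟩, -⟩ := k
        have cz : M.Co i z (K.obj i p) :=
          (Pa.step i z).co.trans (z2 ▸ (H.h1.g1.dead.pa hx hi dd).co)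
        exact absurd ((H.h1.g1.dead.top hx hi z1 cz).2.symm.trans z3).symm e3.1
    have ex := F_spec h false (hs i) 2 oA oB
    have lt := ex.lt_iff.2 ⟨_, pA, pb⟩
    obtain ⟨⟨⟨t2, -, r1, r2⟩, r3⟩, r4⟩ := ex.of_lt lt
    have bf : M.Bf _ _ _ := r4 _ ⟨pA, pb⟩
    have ec : K.cq i p (K.nc + (2 * t + u)) = K.P.st (3 - i)
        (M.F false (hs i) 2 (K.P.fu i p 0 0) (K.P.fu (3 - i) b (hs (3 - i)) u)) := by
      rw [Rn.cq, if_neg (by omega), Nat.add_sub_cancel_left, ew, e2,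
        G.F false _ _ _ _ e3.2.2 (by omega) e3.2.1 oA.wo oB.wo]
    generalize M.F false (hs i) 2 (K.P.fu i p 0 0) (K.P.fu (3 - i) b (hs (3 - i)) u) = r at *
    have dr : M.Dd (K.obj i p) r := dd_pa H hi hx dd bf.pa
    cases t2 with
    | zero => exact absurd r2.symm e3.1
    | succ t2 =>
      have r1' : M.st i (M.wk i p t2) = r := (wk_succ _ _ _).symm.trans r1
      have r2' : M.ss i (M.wk i p t2) = hs i := r2
      have l2 := h.lk_pt (i := i) (h.al_wk i ap t2)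
      rw [r1', r2', e2] at l2
      have l3 : M.lk (pt r (3 - i)) = pt (M.wk i p t2) i := by rw [← l2, h.inv]
      have ar : M.al r := r1' ▸ h.al_st i (h.al_wk i ap t2)
      have es : M.st (3 - i) r = M.wk i p t2 := by rw [Cm.st, l3, pt_div]
      obtain ⟨t3, r5, -⟩ := (G.fu_ps h _ (by omega : 3 - i < 4) mb _ _).1 ⟨u, hu, r3⟩
      have aq' : M'.al (M.wk i p t2) := by
        rw [← es]
        refine (H.h1.g1.dead.lvst hw (r5 ▸ lv_wk H hw ab t3)).2 ?_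
        show sd (3 - i) (M.lk (pt r (3 - i))) ≠ 2
        rw [l3, sd, pt_mod]
        rcases (by omega : i = 0 ∨ i = 1) with rfl | rfl <;> decide
      refine ⟨K.nc + (2 * t + u), by omega, ?_⟩
      rw [ec, G.st_al _ ar, es, r1']
      exact ⟨Pa.wk _ _ _, aq', not_al H hx dr⟩

theorem q_ls {i p : ℕ} (hi : i < 2) (hp : M'.al p) (ho : K.obj i p < M.n) :
    M.Pa i p (K.dq i p) ∧ M'.al (K.dq i p) ∧ ¬M'.al (M.st i (K.dq i p)) := by
  have h := H.h1.hy.ok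
  have G := H.h1.hy.geo
  obtain ⟨t, ht, c1, c2, c3⟩ := cq_ex H hi hp ho
  obtain ⟨-, d1, d2, d3⟩ := lst_spec (n := 3 * K.nc)
    (P := fun t => K.P.pa K.n i p (K.cq i p t) ∧ K.al' (K.cq i p t) ∧
      ¬K.al' (K.P.st i (K.cq i p t))) ⟨t, ht, by
        rw [H.h1.hy.n, G.pa_iff h (by omega), H.good.al, G.st_al _ (al_of H c2)]
        exact ⟨⟨al_of H hp, c1⟩, c2, c3⟩⟩
  change K.P.pa K.n i p (K.dq i p) at d1
  change K.al' (K.dq i p) at d2
  change ¬K.al' (K.P.st i (K.dq i p)) at d3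
  rw [H.good.al] at d2 d3
  rw [H.h1.hy.n, G.pa_iff h (by omega)] at d1
  rw [G.st_al _ (al_of H d2)] at d3
  exact ⟨d1.2, d2, d3⟩

theorem g_eq {i p : ℕ} (hi : i < 2) (hp : M'.al p) (ho : K.obj i p < M.n) :
    K.dg i p = M'.lk (pt (K.dq i p) i) := by
  rw [Rn.dg, H.lam.lam, pt_div, if_pos (q_ls H hi hp ho).2.1]

theorem tight_iff {w b g : ℕ} (hw : w = 2 ∨ w = 3) (hb : M'.al b ∨ b = M.n) (hg : M'.al g) :
    K.tight w b g ↔ M'.al b ∧ M'.Ti w (hs w) b g := by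
  have h := H.h1.hy.ok
  have G := H.h1.hy.geo
  have h' : M'.Ok := H.h1.g1.hy.ok'
  have en : M'.n = M.n := H.h1.g1.hy.smo.n
  have e3 : hs w ≠ 2 := by rcases hw with rfl | rfl <;> decide
  rw [Rn.tight, H.h1.hy.n, G.pa_iff h (by omega), H.lam.fed hw (by omega) hb]
  rcases hb with hb | rfl
  swap
  · exact iff_of_false (fun k => h.not_al_n k.1.1) fun k => not_al_n H k.1
  have pa : M'.Pa w b g ↔ M.Pa w b g ∧ M'.al g := H.h1.g1.down.pa hw hb
  constructor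
  · rintro ⟨⟨-, p⟩, k⟩
    have o : M'.ok ⟨w, b, hs w, g⟩ := ⟨by show w < 4; omega, hb, pa.2 ⟨p, hg⟩⟩
    obtain ⟨o', ps, -⟩ := H.h1.g1.down.ps (A := ⟨w, b, hs w, g⟩) hw o
    rw [G.On_iff h (by omega) (ok.wo o')] at k
    refine ⟨hb, _, (ln_spec h' o).2.1, fun s hs' => by_contra fun c => k ⟨o', ((ps _ _).1 ?_).1⟩⟩
    have c2 : M'.ss w (M'.wk w b s) = 2 := by
      have := ss_cases (M := M') w (M'.wk w b s)
      have e4 : hs 2 = 1 ∧ hs 3 = 3 := ⟨rfl, rfl⟩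
      rcases hw with rfl | rfl <;> omega
    have lt : M'.FE w b 2 < M'.n :=
      h'.lt _ ((FE_le h' w b 2).resolve_left fun e => (FE_none h' hb).1 e s c2)
    obtain ⟨-, t, t1, t2, t3⟩ := FE_spec h' lt
    have : t ≤ s := not_lt.1 fun u => t3 s u c2
    exact ⟨t + 1, (by omega : t + 1 ≤ M'.ln ⟨w, b, hs w, g⟩), t1.symm, t2⟩
  · rintro ⟨-, t, t1, t2⟩
    have p : M'.Pa w b g := ⟨t, t1⟩
    have o : M'.ok ⟨w, b, hs w, g⟩ := ⟨by show w < 4; omega, hb, p⟩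
    obtain ⟨o', ps, -⟩ := H.h1.g1.down.ps (A := ⟨w, b, hs w, g⟩) hw o
    refine ⟨⟨al_of H hb, (pa.1 p).1⟩, fun k => ?_⟩
    rw [G.On_iff h (by omega) (ok.wo o')] at k
    have a : M'.al (M'.FE w b 2) := (FE_le h' w b 2).resolve_left fun e =>
      h.not_al_n (by rw [← en, ← e]; exact k.2.mem.al h o')
    obtain ⟨s, s1, -, s3⟩ : M'.Ps ⟨w, b, hs w, g⟩ (M'.FE w b 2) 2 := (ps _ _).2 ⟨k.2, a⟩
    have : M'.ln ⟨w, b, hs w, g⟩ ≤ t := not_lt.1 fun u => (ln_spec h' o).2.2 t u t1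
    cases s with
    | zero => exact e3 s3
    | succ s => exact e3 ((t2 s (by omega)).symm.trans s3)

end KStage

open KStage in
theorem stageS : StageS := by
  intro K M M' H
  have h := H.h1.hy.ok
  have h' : M'.Ok := H.h1.g1.hy.ok'
  refine ⟨fun {i p} hi hp ho => ?_, g_eq H, fun {i p} hi hp ho k => ?_, tight_iff H,
    fun {i p} hi hp ho _ => ?_⟩
  all_goals
    obtain ⟨ap, hx, c⟩ := (H.h1.sel.obj hi).1 ⟨rfl, ho⟩
    obtain ⟨q1, q2, q3⟩ := q_ls H hi hp ho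
    have dd := dd_st H hi ap hx c q1 q3
    have gc := (H.h1.g1.run.gcase hi hx q2 dd).2
  · refine ⟨q1, q2, dd, fun pp => not_al H hx (dd_pa H hi hx (Dd.top (Ct.rg_refl _ _))
      (pp.pa h (c.pa h (H.h1.g1.dead.per hx hi))).2) hp⟩
  · rw [Rn.hp, g_eq H hi hp ho] at k
    rw [g_eq H hi hp ho]
    refine Or.inl ⟨_, gc.resolve_right fun u => ?_, rfl⟩
    have : hs i = 0 := u.1.symm.trans k
    rcases (by omega : i = 0 ∨ i = 1) with rfl | rfl <;> exact absurd this (by decide)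
  · have hw : 3 - i = 2 ∨ 3 - i = 3 := by omega
    have e1 : hs (3 - i) = hs i := by rcases (by omega : i = 0 ∨ i = 1) with rfl | rfl <;> rfl
    have eg : K.dg i p / 4 = M'.st i (K.dq i p) := by rw [g_eq H hi hp ho]; rfl
    have ag : M'.al (K.dg i p / 4) := eg ▸ h'.al_st i q2
    obtain ⟨b, cb, ab, tb⟩ : ∃ b, M.Cand K.P.En (K.obj i p) b ∧ M'.al b ∧
        M'.Ti (3 - i) (hs i) b (K.dg i p / 4) := by
      rcases gc with gc | gc
      · exact ⟨_, Or.inl ⟨_, gc, by rw [g_eq H hi hp ho]⟩, ag, 0, rfl, fun _ k => absurd k (by omega)⟩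
      · exact H.h1.g1.wall.one hi hx ag (eg ▸ gc.2)
    obtain ⟨t, ht, et⟩ := H.good.gex hx cb ab
    obtain ⟨d1, d2⟩ := lst_spec (n := K.nc)
      (P := fun t => K.tight (3 - i) (K.gd (K.obj i p) t) (K.dg i p / 4))
      ⟨t, ht, by rw [et, tight_iff H hw (Or.inl ab) ag, e1]; exact ⟨ab, tb⟩⟩
    have ga := H.good.gal hx d1
    change K.tight (3 - i) (K.db i p) _ at d2
    change K.db i p = M.n ∨ (M'.al (K.db i p) ∧ M.Cand _ _ (K.db i p)) at ga
    rw [tight_iff H hw (ga.symm.imp (fun u => u.1) id) ag, e1] at d2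
    exact ⟨(ga.resolve_left fun u => not_al_n H (u ▸ d2.1)).2, d2⟩

end Pool.Agent.MP_1a6d78_lc.PG
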