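import Pool.Agent.MP_1a6d78_lc.PG.Spec

/-! PROJECT PG, row VAL: new saddle links. -/

namespace Pool.Agent.MP_1a6d78_lc.PG

open Classical ED PR PL Ct

namespace KVal

variable {Z : Ks} {c x y l i : ℕ}

theorem sad_rg {M : Cm} (h : M.Rg x y) (k : M.Sad y) : M.Sad x :=
  let ⟨u, v, a, b, r⟩ := k; ⟨u, v, rg_trans h a, rg_trans h b, r⟩

theorem al0 (G : Z.G1) (h : Z.M'.al c) : Z.M.al c := ((G.hy.smo.al c).1 h).1

theorem dd (G : Z.G1) (h : Z.M.al c) (k : ¬Z.M'.al c) : ∃ x, Z.X x ∧ Z.M.Dd x c :=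
  by_contra fun u => k ((G.hy.smo.al c).2 ⟨h, u⟩)

theorem nd (G : Z.G1) (h : Z.X x) (k : Z.M.Dd x c) : ¬Z.M'.al c :=
  fun u => ((G.hy.smo.al c).1 u).2 ⟨x, h, k⟩

theorem up (G : Z.G1) (hi : i < 2) (h : Z.M.al c) (k : ¬Z.M'.al c) : ¬Z.M'.al (Z.M.st i c) :=
  let ⟨_, a, b⟩ := dd G h k; nd G a (G.dead.st a hi b)

/-- Labels of type 0 in one region die together. -/
theorem zero (G : Z.G1) (r : Z.M.Rg x y) (hx : x % 4 = 0) (hy : y % 4 = 0) (h : Z.M.al (x / 4))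
    (k : ¬Z.M'.al (x / 4)) : ¬Z.M'.al (y / 4) := by
  obtain ⟨u, a, b⟩ := dd G h k
  refine nd G a (G.dead.rg b ?_)
  rwa [show 4 * (x / 4) = x by omega, show 4 * (y / 4) = y by omega]

theorem follow {M : Cm} (H : M.Ok) {P : ℕ → Prop} {q r : ℕ} (h : Cv M.lk Cm.pr0 P q r) :
    ∀ y, r4 y = q → y % 2 = 0 → M.al (y / 4) →
      ∃ z, M.Rg y z ∧ M.nr z = r ∧ (z = y ∨ (¬P (z / 4) ∧ ¬P (M.nr y / 4))) := by
  induction h with
  | stop _ =>
    rintro y rfl - -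
    exact ⟨y, rg_refl _ _, rfl, Or.inl rfl⟩
  | go d _ ih =>
    rintro y rfl e a
    have p := nr_par H a
    obtain ⟨z, z1, z2, z3⟩ := ih (M.nr y)
      (by change r4 (M.nr y) = Cm.pr0 (M.nr y); unfold r4 Cm.pr0; split_ifs <;> omega) (by omega)
      ((nr_al H).2 a)
    exact ⟨z, rg_trans (rg_nr _ _) z1, z2, Or.inr ⟨z3.elim (fun u => u ▸ d) fun u => u.1, d⟩⟩

theorem nxt (G : Z.G1) (e : y % 2 = 0) (h : Z.M'.al (y / 4)) : ∃ z, Z.M.Rg y z ∧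
    Z.M.nr z = Z.M'.nr y ∧ (z = y ∨ (¬Z.M'.al (z / 4) ∧ ¬Z.M'.al (Z.M.nr y / 4))) :=
  follow G.hy.ok (G.hy.smo.lk (r4 y) (by rwa [r4_div])) y rfl e (al0 G h)

theorem rg1 (G : Z.G1) (e : y % 2 = 0) (h : Z.M'.al (y / 4)) : Z.M.Rg y (Z.M'.nr y) :=
  let ⟨z, a, b, _⟩ := nxt G e h; b ▸ rg_trans a (rg_nr _ z)

theorem rg0 (G : Z.G1) (e : x % 2 = 0) (h : Z.M'.al (x / 4)) (r : Z.M'.Rg x y) :
    Z.M.Rg x y ∧ y % 2 = 0 ∧ Z.M'.al (y / 4) :=
  rg_ind (Q := fun d => Z.M.Rg x d ∧ d % 2 = 0 ∧ Z.M'.al (d / 4)) r ⟨rg_refl _ _, e, h⟩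
    fun _ ⟨a, b, k⟩ => ⟨rg_trans a (rg1 G b k), (nr_par G.hy.ok' k).trans b, (nr_al G.hy.ok').2 k⟩

theorem alt (G : Z.G1) (e : y % 2 = 0) (h : Z.M'.al (y / 4)) (a : Z.M'.Alt y) :
    ∃ z, Z.M.Rg y z ∧ Z.M.Alt z ∧ z % 4 = y % 4 ∧ (y % 4 = 0 → z = y) ∧
      (y % 4 = 2 → Z.M.nr z = Z.M'.nr y) := by
  have H := G.hy.ok
  have h0 := al0 G h
  obtain ⟨z, z1, z2, z3⟩ := nxt G e h
  have p' := nr_par G.hy.ok' h
  unfold Cm.Alt at a ⊢
  rcases z3 with rfl | ⟨d1, d2⟩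
  · exact ⟨z, z1, z2 ▸ a, rfl, fun _ => rfl, fun _ => z2⟩
  by_cases t : y % 4 = 0
  · refine ⟨y, rg_refl _ _, fun u => ?_, rfl, fun _ => rfl, fun u => by omega⟩
    exact zero G (rg_back H y) (u.trans t) t ((nr_al H).2 h0) d2 h
  · have pz := rg_par H z1 h0
    have : z % 4 = 2 := by_contra fun u => zero G (rg_nr _ z) (by omega) (by omega)
      ((rg_al H z1).2 h0) d1 (z2 ▸ (nr_al G.hy.ok').2 h)
    exact ⟨z, z1, by omega, by omega, fun u => absurd u t, fun _ => z2⟩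

theorem sad (G : Z.G1) (h : Z.M'.al (x / 4)) (e : x % 2 = 0) (s : Z.M'.Sad x) : Z.M.Sad x := by
  obtain ⟨y, y', r, r', ne, a, a', t⟩ := s
  obtain ⟨k1, k2, k3⟩ := rg0 G e h r
  obtain ⟨l1, l2, l3⟩ := rg0 G e h r'
  obtain ⟨z, z1, z2, z3, z4, z5⟩ := alt G k2 k3 a
  obtain ⟨w, w1, w2, w3, w4, w5⟩ := alt G l2 l3 a'
  refine ⟨z, w, rg_trans k1 z1, rg_trans l1 w1, fun u => ne ?_, z2, w2, by omega⟩
  by_cases v : y % 4 = 0
  · rw [← z4 v, u, w4 (t ▸ v)]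
  · exact nr_inj G.hy.ok' (by rw [← z5 (by omega), u, w5 (by omega)])

/-- A region without a dead cell does not change. -/
theorem whole (G : Z.G1) (h : ∀ d, Z.M.Rg l d → Z.M'.al (d / 4)) (s : Z.M'.Sad l) :
    Z.M.Sad l := by
  have e : ∀ d, Z.M.Rg l d → Z.M'.nr d = Z.M.nr d := fun d k =>
    G.smo.same (by rw [r4_div]; exact h d k) (h _ (rg_trans k (rg_nr _ d)))
  have g : ∀ d, Z.M'.Rg l d → Z.M.Rg l d := fun d k =>
    rg_ind (Q := Z.M.Rg l) k (rg_refl _ _) fun u v => e u v ▸ rg_trans v (rg_nr _ u)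
  obtain ⟨y, y', r, r', ne, a, a', t⟩ := s
  unfold Cm.Alt at a a'
  exact ⟨y, y', g y r, g y' r', ne, by rwa [e y (g y r)] at a, by rwa [e y' (g y' r')] at a', t⟩

/-- A face that is not a saddle, with both top cells alive, has no dead cell. -/
theorem top (G : Z.G1) (t : l % 4 = 3) (h : Z.M'.al (l / 4)) (t' : Z.M.nr l % 4 = 1)
    (h' : Z.M'.al (Z.M.nr l / 4)) (s : ¬Z.M.Sad l) (d : ℕ) (r : Z.M.Rg l d) :
    Z.M'.al (d / 4) := by
  have H := G.hy.ok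
  have h0 := al0 G h
  have one : ∀ d, Z.M.Rg l d → d % 4 = 1 → Z.M'.al (d / 4) := fun d r =>
    (rg_ind (Q := fun d => Z.M.Rg l d ∧ (d % 4 = 1 → Z.M'.al (d / 4))) r
      ⟨rg_refl _ _, fun u => by omega⟩ fun d ⟨a, b⟩ => ⟨rg_trans a (rg_nr _ d), fun u => by
        by_cases v : d % 4 = 1
        · by_contra w
          refine up G (i := 1) one_lt_two ((nr_al H).2 ((rg_al H a).2 h0)) w ?_
          rw [Cm.st, show pt (Z.M.nr d / 4) 1 = Z.M.nr d by unfold pt; omega, Cm.nr, H.inv, r4_div]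
          exact b v
        · have := rg_par H a h0
          have : d = l := by_contra fun ne => s ⟨d, l, a, rg_refl _ _, ne,
            by unfold Cm.Alt; omega, by unfold Cm.Alt; omega, by omega⟩
          exact this ▸ h'⟩).2
  by_contra w
  refine (rg_ind (Q := fun d => Z.M.Rg l d ∧ ¬Z.M'.al (d / 4)) (rg_symm H r) ⟨r, w⟩
    fun d ⟨a, b⟩ => ⟨rg_trans a (rg_nr _ d), ?_⟩).2 h
  have p := rg_par H a h0
  have v : d % 4 ≠ 1 := fun u => b (one d a u)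
  have := up G (i := 0) two_pos ((rg_al H a).2 h0) b
  rwa [Cm.st, show pt (d / 4) 0 = r4 d by unfold pt r4; omega] at this

/-- The top corner of a face. -/
theorem corner (G : Z.G1) (hi : i < 2) (h : Z.M'.al c) (h' : Z.M'.al (Z.M.st i c))
    (e : Z.M.ss i c = 0) (r : Z.M.Rg (pt c (os i 0)) l) (s : Z.M'.Sad l) : Z.M.Sad l := by
  have H := G.hy.ok
  by_contra w
  have k := H.lk_pt (i := i) (al0 G h)
  rw [e] at k
  refine w (whole G (fun d v => ?_) s)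
  have v' := rg_trans r v
  have w' : ¬Z.M.Sad (pt c (os i 0)) := fun u => w (sad_rg (rg_symm H r) u)
  obtain rfl | rfl : i = 0 ∨ i = 1 := by omega
  · have n : Z.M.nr (pt c (os 0 0)) = pt (Z.M.st 0 c) (ep 0 0) := by
      rw [← k, Cm.nr, show r4 (pt c (os 0 0)) = pt c 0 by simp [r4, pt, os]; omega]
    exact top G (by rw [pt_mod]; rfl) (by rwa [pt_div]) (by rw [n, pt_mod]; rfl)
      (by rwa [n, pt_div]) w' d v'
  · have n : Z.M.nr (pt (Z.M.st 1 c) 3) = pt c (os 1 0) := by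
      rw [Cm.nr, show r4 (pt (Z.M.st 1 c) 3) = pt (Z.M.st 1 c) (ep 1 0) by
        simp [r4, pt, ep]; omega, ← k, H.inv]
      rfl
    exact top G (l := pt (Z.M.st 1 c) 3) (by rw [pt_mod]) (by rwa [pt_div])
      (by rw [n, pt_mod]; rfl) (by rwa [n, pt_div])
      (fun u => w' (n ▸ sad_rg (rg_back H _) u)) d (rg_trans (n ▸ rg_nr _ _) v')

theorem ti_rg {M : Cm} (H : M.Ok) (F : M.FlowK) {k a u v : ℕ} (hk : k < 4) (h : M.al u)
    (T : M.Ti k a u v) : M.Rg (pt u a) (pt v a) := by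
  obtain ⟨t, rfl, s⟩ := T
  induction t with
  | zero => exact rg_refl _ _
  | succ t ih =>
    have := F.rg1 k hk _ (H.al_wk k h t)
    rw [s t t.lt_succ_self, ← Cm.wk_succ] at this
    exact rg_trans (ih fun r hr => s r (hr.trans t.lt_succ_self)) this

theorem dd_wk (G : Z.G1) (hi : i < 2) (hx : Z.X x) (d : Z.M.Dd x c) (t : ℕ) :
    Z.M.Dd x (Z.M.wk i c t) :=
  iter_inv (Q := Z.M.Dd x) (fun _ k => G.dead.st hx hi k) d t

/-- The bottom corner of a face. -/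
theorem bottom (G : Z.G1) (hi : i < 2) (h : Z.M'.al c) (e : Z.M.ss (2 + i) c = 2)
    (n : ¬Z.M.Prb (pt c (2 + i)))
    (s : Z.M'.al (Z.M.st (2 + i) c) → Z.M'.Sad (pt c (os (2 + i) 2))) :
    ∃ x, Z.X x ∧ Z.M.Hug (1 - i) x c := by
  have H := G.hy.ok
  have h0 := al0 G h
  obtain ⟨k1, u, k2, -, k3, -⟩ := G.hy.fl.turn (2 + i) (by omega) c h0
  obtain rfl : u = c := by_contra fun v => n (k3.2 v)
  rw [e, show (2 + i + 2) % 4 = i by omega, show (2 + 2) % 4 = 0 from rfl] at k1 k2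
  obtain ⟨b0, t, f1, f2, -⟩ := Cm.FE_spec H k1
  have a0 : Z.M.al (Z.M.FE i (Z.M.st (2 + i) u) 0) := f1 ▸ H.al_wk i b0 _
  have q : (os (2 + i) 2 = 2 + i ∨ os (2 + i) 2 = (2 + i + 3) % 4) ∧
      ep (2 + i) (os (2 + i) 2) = 1 - i ∧ os (2 + i) 2 = hs (1 - i) ∧
      (os i 0 + 2) % 4 = os (2 + i) 2 % 4 := by
    obtain rfl | rfl : i = 0 ∨ i = 1 := by omega
    all_goals decide
  have T := G.hy.fl.rev (2 + i) (by omega) _ _ _ a0 q.1 k2
  rw [q.2.1, q.2.2.1] at T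
  by_cases w : Z.M'.al (Z.M.FE i (Z.M.st (2 + i) u) 0)
  swap
  · obtain ⟨x, a, b⟩ := dd G a0 w
    exact ⟨x, a, _, T, b⟩
  exfalso
  have alv : ∀ r ≤ t + 1, Z.M'.al (Z.M.wk i (Z.M.st (2 + i) u) r) := fun r hr => by
    by_contra v
    obtain ⟨x, a, b⟩ := dd G (H.al_wk i b0 r) v
    obtain ⟨j, hj⟩ := Nat.exists_eq_add_of_le hr
    refine nd G a (dd_wk G hi a b j) ?_
    rwa [← Cm.wk_add, ← hj, ← f1]
  have r := G.hy.fl.rg2 i (by omega) _ (H.al_wk i b0 t)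
  rw [f2, ← Cm.wk_succ, ← f1, show pt (Z.M.FE i (Z.M.st (2 + i) u) 0) (os i 0 + 2) =
    pt (Z.M.FE i (Z.M.st (2 + i) u) 0) (os (2 + i) 2) by unfold pt; rw [q.2.2.2]] at r
  refine n ((G.hy.fl.psad (2 + i) (by omega) u).2 ⟨h0, ?_⟩)
  rw [e]
  exact corner G hi (alv t t.le_succ) (by rw [← Cm.wk_succ]; exact alv _ le_rfl) f2
    (rg_trans r (ti_rg H G.hy.fl (by omega) a0 k2)) (s (alv 0 (Nat.zero_le _)))

theorem ss_same (G : Z.G1) {k : ℕ} (h : Z.M'.al c) (h' : Z.M'.al (Z.M.st k c)) :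
    Z.M'.ss k c = Z.M.ss k c := by
  unfold Cm.ss
  rw [G.smo.same (by rwa [pt_div]) h']

/-- Upper ports do not become probes. -/
theorem upper (G : Z.G1) (hi : i < 2) (p : Z.M'.Prb (pt c i)) : Z.M.Prb (pt c i) := by
  have H := G.hy.ok
  obtain ⟨h, s⟩ := (G.hy.fl'.psad i (by omega) c).1 p
  have h0 := al0 G h
  refine (G.hy.fl.psad i (by omega) c).2 ⟨h0, ?_⟩
  have q : os i (hs i) = 0 ∧ hs i ≠ 0 ∧ ep i 0 = 1 - i ∧ ∀ a, a = i % 4 ∨ a = (i + 3) % 4 →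
      a = 0 ∨ a = hs i := by
    obtain rfl | rfl : i = 0 ∨ i = 1 := by omega
    all_goals refine ⟨rfl, by decide, rfl, ?_⟩; rintro a (rfl | rfl) <;> decide
  have ev : pt c 0 / 4 = c ∧ pt c 0 % 2 = 0 := by unfold pt; omega
  by_cases w : Z.M'.al (Z.M.st i c)
  · rw [ss_same G h w] at s
    rcases q.2.2.2 _ (Cm.ss_cases (M := Z.M) i c) with e | e <;> rw [e] at s ⊢
    · exact corner G hi h w e (rg_refl _ _) s
    · rw [q.1] at s ⊢
      exact sad G (by rwa [ev.1]) ev.2 s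
  rw [(G.dead.bnd hi h w).1, q.1]
  rcases q.2.2.2 _ (Cm.ss_cases (M := Z.M') i c) with e | e
  swap
  · rw [e, q.1] at s
    exact sad G (by rwa [ev.1]) ev.2 s
  obtain ⟨x, a, b⟩ := dd G (H.al_st i h0) w
  obtain ⟨⟨d, -, d2⟩, gc⟩ := G.run.gcase hi a h b
  have pr := (gc.resolve_right fun u => q.2.1 (u.1.symm.trans e)).1
  have k := G.hy.ok'.lk_pt (i := i) h
  have g' := G.hy.ok'.al_st i h
  rw [e, q.2.2.1] at k
  rw [k] at pr d2
  have s0 := ((G.hy.fl.psad (1 - i) (by omega) _).1 pr).2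
  rw [Cm.ss, ← d2, H.inv, show os (1 - i) (sd (1 - i) (pt d (2 + i))) = 0 by
    unfold os sd; rw [pt_mod]; split_ifs <;> omega] at s0
  generalize Z.M'.st i c = g at *
  have eg : pt g 0 / 4 = g ∧ pt g 0 % 2 = 0 := by unfold pt; omega
  obtain rfl | rfl : i = 0 ∨ i = 1 := by omega
  · have := rg1 G eg.2 (by rwa [eg.1])
    rw [Cm.nr, show r4 (pt g 0) = pt g (1 - 0) by unfold r4 pt; omega, ← k, G.hy.ok'.inv] at this
    exact sad_rg (rg_symm H this) s0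
  · have := rg1 G ev.2 (by rwa [ev.1])
    rw [Cm.nr, show r4 (pt c 0) = pt c 1 by unfold r4 pt; omega, k] at this
    exact sad_rg this s0

theorem lower (G : Z.G1) (hi : i < 2) (p : Z.M'.Prb (pt c (2 + i))) (n : ¬Z.M.Prb (pt c (2 + i))) :
    Z.M.ss (2 + i) c = 2 ∧ ∃ x, Z.X x ∧ Z.M.Hug (1 - i) x c := by
  obtain ⟨h, s⟩ := (G.hy.fl'.psad (2 + i) (by omega) c).1 p
  have e : Z.M.ss (2 + i) c = 2 := by
    by_contra e
    rw [ss_same G h ((G.dead.lvst (by omega) (G.dead.lv h)).2 e)] at s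
    refine n ((G.hy.fl.psad (2 + i) (by omega) c).2 ⟨al0 G h, sad G (by rwa [pt_div]) ?_ s⟩)
    have := Cm.ss_cases (M := Z.M) (2 + i) c
    unfold pt os
    split_ifs <;> omega
  exact ⟨e, bottom G hi h e n fun w => by rwa [ss_same G h w, e] at s⟩

end KVal

open KVal in
theorem valS : ValS := fun Z G => by
  refine ⟨fun h e s => sad G h e s, fun {p} h n => ?_⟩
  have e : pt (p / 4) (p % 4) = p := by unfold pt; omega
  by_cases u : p % 4 < 2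
  · exact absurd (e ▸ upper G u (e.symm ▸ h)) n
  have v : p % 4 = 2 + (p % 4 - 2) := by omega
  rw [← e, v] at h n
  obtain ⟨k, x, a, b⟩ := lower G (by omega) h n
  exact ⟨x, a, by omega, v ▸ k, by rwa [show (p + 1) % 2 = 1 - (p % 4 - 2) by omega]⟩

end Pool.Agent.MP_1a6d78_lc.PG
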