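import Pool.Agent.MP_1a6d78_lc.PG.Spec

/-! PROJECT PG, row WALL: a surviving candidate on the other wall of a hugged face. -/

namespace Pool.Agent.MP_1a6d78_lc.PG

open Classical ED PR GL Relation Cm

noncomputable section

namespace KW

theorem ti_refl (M : Cm) (i a u : ℕ) : M.Ti i a u u :=
  ⟨0, rfl, fun _ h => absurd h (Nat.not_lt_zero _)⟩

theorem ti_trans {M : Cm} {i a u v w : ℕ} (h : M.Ti i a u v) (k : M.Ti i a v w) :
    M.Ti i a u w := by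
  obtain ⟨s, rfl, h⟩ := h
  obtain ⟨t, rfl, k⟩ := k
  refine ⟨s + t, wk_add _ _ _ _, fun r hr => ?_⟩
  rcases lt_or_ge r s with u1 | u1
  · exact h r u1
  · obtain ⟨r, rfl⟩ := Nat.exists_eq_add_of_le u1
    rw [wk_add]
    exact k r (by omega)

theorem ti_one {M : Cm} {i a u : ℕ} (h : M.ss i u = a) : M.Ti i a u (M.st i u) :=
  ⟨1, rfl, fun s k => by rw [show s = 0 by omega]; exact h⟩

theorem ti_pa {M : Cm} {i a u v : ℕ} (h : M.Ti i a u v) : M.Pa i u v :=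
  let ⟨t, e, _⟩ := h; ⟨t, e⟩

theorem ti_al {M : Cm} (H : M.Ok) {i a u v : ℕ} (hu : M.al u) (h : M.Ti i a u v) : M.al v :=
  (ti_pa h).al H hu

/-- One hugging step, reversed. -/
theorem rv {M : Cm} (H : M.Ok) {i a : ℕ} (hi : i < 2) (ha : M.al a) (e : M.ss i a = hs i) :
    M.st (3 - i) (M.st i a) = a ∧ M.ss (3 - i) (M.st i a) = hs i := by
  have k : M.lk (pt (M.st i a) (3 - i)) = pt a i := by
    have := congrArg M.lk (H.lk_pt (i := i) ha)
    rw [H.inv, e] at this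
    rw [this]
    rcases (by omega : i = 0 ∨ i = 1) with rfl | rfl <;> rfl
  refine ⟨(congrArg (· / 4) k).trans (pt_div _ _), (congrArg (sd (3 - i)) k).trans ?_⟩
  unfold sd
  rw [pt_mod]
  rcases (by omega : i = 0 ∨ i = 1) with rfl | rfl <;> rfl

theorem rev {M : Cm} (F : M.FlowK) {i u v : ℕ} (hi : i < 2) (hu : M.al u)
    (h : M.Ti i (hs i) u v) : M.Ti (3 - i) (hs i) v u := by
  have := F.rev i (by omega) (hs i) u v hu
    (by rcases (by omega : i = 0 ∨ i = 1) with rfl | rfl <;> decide) h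
  rcases (by omega : i = 0 ∨ i = 1) with rfl | rfl <;> exact this

variable {Z : Ks}

theorem not_al (H : Z.Hy) {x c : ℕ} (hx : Z.X x) (d : Z.M.Dd x c) : ¬Z.M'.al c :=
  fun k => ((H.smo.al c).1 k).2 ⟨x, hx, d⟩

theorem old_al (H : Z.Hy) {c : ℕ} (k : Z.M'.al c) : Z.M.al c := ((H.smo.al c).1 k).1

/-- The last survivor of a hugging path. -/
theorem last (H : Z.Hy) (D : Z.DeadK) (S : Z.SmoK) {i x : ℕ} (hi : i < 2) (hx : Z.X x) (t : ℕ) :
    ∀ g, Z.M'.al g → (∀ s < t, Z.M.ss i (Z.M.wk i g s) = hs i) → Z.M.Dd x (Z.M.wk i g t) →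
      ∃ q, Z.M'.al q ∧ Z.M'.Ti i (hs i) g q ∧ Z.M.Dd x (Z.M.st i q) := by
  induction t with
  | zero => exact fun g hg _ d => absurd hg (not_al H hx d)
  | succ t ih =>
    intro g hg h d
    by_cases k : Z.M'.al (Z.M.st i g)
    · obtain ⟨q, q1, q2, q3⟩ := ih _ k (fun s u => h (s + 1) (by omega)) d
      have e : Z.M'.lk (pt g i) = Z.M.lk (pt g i) := S.same (by rwa [pt_div]) k
      have e1 : Z.M'.st i g = Z.M.st i g := congrArg (· / 4) e
      have e2 : Z.M'.ss i g = hs i := (congrArg (sd i) e).trans (h 0 (by omega))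
      exact ⟨q, q1, ti_trans (ti_one e2) (e1 ▸ q2), q3⟩
    · have a := H.ok.al_st i (old_al H hg)
      obtain ⟨y, hy, dy⟩ : Z.M.Dead Z.X (Z.M.st i g) :=
        by_contra fun u => k ((H.smo.al _).2 ⟨a, u⟩)
      have p : Z.M.Pa i (Z.M.st i g) x := Pa.trans ⟨t, rfl⟩ (D.pa hx hi d)
      have := D.uniq hx hy hi p.co (D.pa hy hi dy).co
      exact ⟨g, hg, ti_refl _ _ _ _, this ▸ dy⟩

/-- A hop needs a saddle. -/
theorem hop (H : Z.Hy) (D : Z.DeadK) (S : Z.SmoK) {i q : ℕ} (hi : i < 2) (hq : Z.M'.al q)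
    (k : ¬Z.M'.al (Z.M.st i q)) (p : Z.M.Prb (Z.M'.lk (pt q i))) (e : Z.M'.ss i q ≠ hs i) :
    Z.M.Prb (pt q i) := by
  obtain ⟨b1, b2⟩ := D.bnd hi hq k
  have hw : 2 + i = 2 ∨ 2 + i = 3 := by omega
  obtain ⟨t, ht⟩ := S.ex hw b2
  have u := S.up hi hq k ht
  have run : ∀ s ≤ t, Z.M.Lv Z.M' (Z.M.wk (2 + i) (Z.M.st i q) s) ∧
      Z.M.Rg (pt q 0) (pt (Z.M.wk (2 + i) (Z.M.st i q) s) 2) := by
    intro s
    induction s with
    | zero =>
      refine fun _ => ⟨b2, ?_⟩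
      have := H.fl.rg2 i (by omega) q (old_al H hq)
      rw [b1] at this
      rcases (by omega : i = 0 ∨ i = 1) with rfl | rfl <;> exact this
    | succ s ih =>
      intro hs
      obtain ⟨l1, l2⟩ := ih (by omega)
      obtain ⟨m1, m2⟩ := D.lvst hw l1
      rw [wk_succ]
      have e2 : Z.M.ss (2 + i) (Z.M.wk (2 + i) (Z.M.st i q) s) = 2 :=
        by_contra fun v => ht.1 s (by omega) (by rw [wk_succ]; exact m2 v)
      have := H.fl.rg1 (2 + i) (by omega) _ l1.1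
      rw [e2] at this
      exact ⟨m1, Ct.rg_trans l2 this⟩
  obtain ⟨l1, l2⟩ := run t le_rfl
  rw [u, H.fl.plk, H.fl.psad _ (by omega)] at p
  rw [H.fl.psad _ (by omega), b1]
  have e3 : os (2 + i) (Z.M.ss (2 + i) (Z.M.wk (2 + i) (Z.M.st i q) t)) = 2 := by
    have c := H.ok'.par (pt q i) (by rwa [pt_div])
    unfold ss at e ⊢
    rw [← u]
    rcases (by omega : i = 0 ∨ i = 1) with rfl | rfl
    · rw [show hs 0 = 3 from rfl] at e
      unfold sd os pt at *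
      split_ifs at e ⊢ <;> omega
    · rw [show hs 1 = 1 from rfl] at e
      unfold sd os pt at *
      split_ifs at e ⊢ <;> omega
  rw [e3] at p
  obtain ⟨-, y, y', s1, s2, s3⟩ := p
  have e4 : os i (hs i) = 0 := by rcases (by omega : i = 0 ∨ i = 1) with rfl | rfl <;> rfl
  rw [e4]
  exact ⟨old_al H hq, y, y', Ct.rg_trans l2 s1, Ct.rg_trans l2 s2, s3⟩

theorem src_al (H : Z.Hy) {x d : ℕ} (hx : Z.X x) (h : Z.M.Src x d) : Z.M.al d := by
  rcases h with rfl | ⟨p, h, rfl⟩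
  exacts [(H.fam.top _ hx).1, h.1.1]

/-- A new cycle all of whose passages hug carries a candidate. -/
theorem cyc (H : Z.Hy) (D : Z.DeadK) (S : Z.SmoK) (W : Z.DownK) (R : Z.RunK) (A : Z.AscK)
    {i x u q : ℕ} (hi : i < 2) (hx : Z.X x) (hu : Z.M'.al u) (e : Z.M'.ss i u = hs i)
    (c : Z.M'.Ti i (hs i) (Z.M'.st i u) u) (hq : Z.M'.Ti i (hs i) u q)
    (d : Z.M.Dd x (Z.M.st i q)) :
    ∃ b, Z.M.Cand Z.En x b ∧ Z.M'.al b ∧ Z.M'.Ti (3 - i) (hs i) b u := by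
  have hw : 3 - i = 2 ∨ 3 - i = 3 := by omega
  have eh : hs (3 - i) = hs i := by rcases (by omega : i = 0 ∨ i = 1) with rfl | rfl <;> rfl
  -- the cells of the new cycle
  have C1 : ∀ a, Z.M'.Ti i (hs i) u a → ∃ a', Z.M'.Ti i (hs i) u a' ∧ Z.M'.ss i a' = hs i ∧
      Z.M'.st i a' = a := by
    intro a h
    obtain ⟨t, rfl, k⟩ := ti_trans c h
    refine ⟨Z.M'.wk i u t, ⟨t, rfl, fun s hs => ?_⟩, ?_, (wk_succ _ _ _).symm⟩
    · cases s with
      | zero => exact e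
      | succ s => exact k s (by omega)
    · cases t with
      | zero => exact e
      | succ t => exact k t (by omega)
  have C2 : ∀ a, Z.M'.Ti i (hs i) u a → Z.M'.Ti i (hs i) u (Z.M'.st (3 - i) a) ∧
      Z.M'.ss (3 - i) a = hs i := by
    intro a h
    obtain ⟨a', h1, h2, rfl⟩ := C1 a h
    obtain ⟨r1, r2⟩ := rv H.ok' hi (ti_al H.ok' hu h1) h2
    exact ⟨r1.symm ▸ h1, r2⟩
  have C3 : ∀ s, Z.M'.Ti i (hs i) u (Z.M'.wk (3 - i) u s) := by
    intro s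
    induction s with
    | zero => exact ti_refl _ _ _ _
    | succ s ih => rw [wk_succ]; exact (C2 _ ih).1
  have per : Z.M.Per (3 - i) u :=
    (W.per hw hu).1 ⟨hu, ti_pa (rev H.fl' hi hu (C2 u (ti_refl _ _ _ _)).1)⟩
  have aq := ti_al H.ok' hu hq
  have nq := not_al H hx d
  have co : Z.M.Co (3 - i) (Z.M.st i q) u := by
    have r1 := (rv H.ok hi (old_al H aq) (D.bnd hi aq nq).1).1
    have p1 : Z.M.Pa (3 - i) (Z.M.st i q) q := ⟨1, r1⟩
    exact (p1.trans ((W.pa hw aq).1 (ti_pa (rev H.fl' hi hu hq))).1).co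
  obtain ⟨d', s1, s2⟩ := A.one hw hx (H.ok.al_st i (old_al H aq))
    (D.pa hx (by omega : 3 - i - 2 < 2) d).co
  have ad := src_al H hx s1
  have pe := H.nm.per (3 - i) (by omega) d' ad
  have pu : Z.M.Pa (3 - i) (Z.En (3 - i) d') u :=
    ((H.nm.pa (3 - i) (by omega) d' ad).co.symm.trans (s2.trans co)).pa H.ok per
  obtain ⟨v, -, v0, v1, -⟩ := S.idx hw hu
  have k1 : Z.M.ss (3 - i) (Z.M.wk (3 - i) u (v (0 + 1) - 1)) = hs (3 - i) := by
    rw [← (v1 0).2, eh]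
    exact (C2 _ (C3 0)).2
  have lt : Z.M.FE (3 - i) (Z.En (3 - i) d') (hs (3 - i)) < Z.M.n := by
    obtain ⟨t, ht⟩ := pu.trans (Pa.wk (3 - i) u (v (0 + 1) - 1))
    rcases FE_le H.ok (3 - i) (Z.En (3 - i) d') (hs (3 - i)) with k | k
    · exact absurd (ht ▸ k1) ((FE_none H.ok pe.1).1 k t)
    · exact H.ok.lt _ k
  obtain ⟨-, t, f1, f2, -⟩ := FE_spec H.ok lt
  have kd : Z.M.Kd (3 - i) (hs (3 - i)) (Z.M.FE (3 - i) (Z.En (3 - i) d') (hs (3 - i))) :=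
    ⟨_, (pe.pa H.ok (Pa.wk _ _ t)).1, by rw [f1, wk_succ], f2⟩
  have ab : Z.M'.al (Z.M.FE (3 - i) (Z.En (3 - i) d') (hs (3 - i))) :=
    (H.smo.al _).2 ⟨(kd.per H.ok).1, fun ⟨y, hy, dy⟩ => R.ring hw hy kd dy⟩
  refine ⟨_, Or.inr ⟨3 - i, d', hw, s1, rfl, lt⟩, ab, rev H.fl' hi hu ?_⟩
  obtain ⟨s, hs⟩ := (W.pa hw hu).2 ⟨(pe.pa H.ok pu).2.trans ⟨t + 1, f1.symm⟩, ab⟩
  exact hs ▸ C3 s

theorem one (H : Z.Hy) (D : Z.DeadK) (S : Z.SmoK) (W : Z.DownK) (R : Z.RunK) (A : Z.AscK)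
    {i x g : ℕ} (hi : i < 2) (hx : Z.X x) (hg : Z.M'.al g) (h : Z.M.Hug i x g) :
    ∃ b, Z.M.Cand Z.En x b ∧ Z.M'.al b ∧ Z.M'.Ti (3 - i) (hs i) b g := by
  by_contra nb
  obtain ⟨u, ⟨u1, ⟨d, ⟨t, rfl, u2⟩, u3⟩, u4⟩, cy⟩ := H.fl'.back
    (fun g => Z.M'.al g ∧ Z.M.Hug i x g ∧
      ¬∃ b, Z.M.Cand Z.En x b ∧ Z.M'.al b ∧ Z.M'.Ti (3 - i) (hs i) b g)
    (fun b a => Z.M'.ss i a = hs i ∧ Z.M'.Ti i (hs i) (Z.M'.st i a) b) (by
      rintro a ⟨a1, ⟨d, ⟨t, rfl, a2⟩, a3⟩, a4⟩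
      refine ⟨H.ok'.lt _ a1, ?_⟩
      obtain ⟨q, q1, q2, q3⟩ := last H D S hi hx t a a1 a2 a3
      have nq := not_al H hx q3
      have au := H.ok'.al_st i q1
      rcases (R.gcase hi hx q1 q3).2 with l | ⟨l1, l2⟩
      · by_cases e : Z.M'.ss i q = hs i
        · exact absurd ⟨Z.M'.st i q, Or.inl ⟨_, l, rfl⟩, au,
            rev H.fl' hi a1 (ti_trans q2 (ti_one e))⟩ a4
        · refine absurd ⟨q, Or.inl ⟨pt q i, ⟨hop H D S hi q1 nq l.1 e, Or.inr ?_⟩,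
            (pt_div _ _).symm⟩, q1, rev H.fl' hi a1 q2⟩ a4
          have c := H.ok.par (pt q i) (by rw [pt_div]; exact old_al H q1)
          rw [show (Z.M.lk (pt q i) + 1) % 2 = i by unfold pt at c ⊢; omega]
          exact (D.pa hx hi q3).co
      · have ti := ti_trans q2 (ti_one l1)
        refine ⟨Z.M'.st i q, ⟨au, l2, fun ⟨b, b1, b2, b3⟩ =>
          a4 ⟨b, b1, b2, ti_trans b3 (rev H.fl' hi a1 ti)⟩⟩, ?_⟩
        obtain ⟨s, rfl, k⟩ := q2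
        cases s with
        | zero => exact ⟨l1, ti_refl _ _ _ _⟩
        | succ s =>
          exact ⟨k 0 (by omega),
            ti_trans ⟨s, rfl, fun r hr => k (r + 1) (by omega)⟩ (ti_one l1)⟩) ⟨g, hg, h, nb⟩
  have tr : ∀ {a b}, TransGen (fun b a => Z.M'.ss i a = hs i ∧
      Z.M'.Ti i (hs i) (Z.M'.st i a) b) b a → Z.M'.ss i a = hs i ∧
      Z.M'.Ti i (hs i) (Z.M'.st i a) b := by
    intro a b k
    induction k with
    | single k => exact k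
    | tail _ k ih => exact ⟨k.1, ti_trans k.2 (ti_trans (ti_one ih.1) ih.2)⟩
  obtain ⟨q, -, q2, q3⟩ := last H D S hi hx t u u1 u2 u3
  exact u4 (cyc H D S W R A hi hx u1 (tr cy).1 (tr cy).2 q2 q3)

end KW

theorem wallS : WallS := by
  intro Z H D S W R A
  refine ⟨fun hi hx hg h => KW.one H D S W R A hi hx hg h, ?_⟩
  intro w x e hw hx he h e2 a
  rcases (R.cross hw hx he h e2).1 with l | l
  · refine ⟨Z.M.st w e, Or.inl ⟨Z.M.lk (pt e w), ⟨(H.fl.plk _).2 l.1, ?_⟩, rfl⟩, a,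
      KW.ti_refl _ _ _ _⟩
    rw [H.ok.inv]
    exact l.2.symm
  · have := KW.one H D S W R A (by omega : w - 2 < 2) hx a l
    rcases hw with rfl | rfl <;> exact this

end

end Pool.Agent.MP_1a6d78_lc.PG
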