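import Pool.Agent.MP_1a6d78_lc.PG.KAll0
import Pool.Agent.MP_1a6d78_lc.PG.Flow
import Pool.Agent.MP_1a6d78_lc.PG.KDead
import Pool.Agent.MP_1a6d78_lc.PG.KSmo
import Pool.Agent.MP_1a6d78_lc.PG.KDown
import Pool.Agent.MP_1a6d78_lc.PG.KRun
import Pool.Agent.MP_1a6d78_lc.PG.KAsc
import Pool.Agent.MP_1a6d78_lc.PG.KWall
import Pool.Agent.MP_1a6d78_lc.PG.KMeet
import Pool.Agent.MP_1a6d78_lc.PG.KVal
import Pool.Agent.MP_1a6d78_lc.PG.KAnc
import Pool.Agent.MP_1a6d78_lc.PG.KSel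
import Pool.Agent.MP_1a6d78_lc.PG.KGood
import Pool.Agent.MP_1a6d78_lc.PG.KLam
import Pool.Agent.MP_1a6d78_lc.PG.KStage
import Pool.Agent.MP_1a6d78_lc.PG.KDp
import Pool.Agent.MP_1a6d78_lc.PG.KIdx
import Pool.Agent.MP_1a6d78_lc.PG.KEn
import Pool.Agent.MP_1a6d78_lc.PG.KFe
import Pool.Agent.MP_1a6d78_lc.PG.KCov
import Pool.Agent.MP_1a6d78_lc.PG.KList

/-! PROJECT PG: the kill round is correct. -/

namespace Pool.Agent.MP_1a6d78_lc.PG

theorem killS : KillS :=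
  kill_of flowS prbS deadS smoS downS runS ascS wallS meetS valS ancS selS goodS lamS stageS dpS
    idxS pfS enS feS covS listS

end Pool.Agent.MP_1a6d78_lc.PG
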