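import Pool.Agent.MP_1a6d78_lc.PG.SpecB

/-! PROJECT PG: the kill round from its rows. -/

namespace Pool.Agent.MP_1a6d78_lc.PG

theorem kill_of (fl : FlowS) (pb : PrbS) (a1 : DeadS) (a2 : SmoS) (a3 : DownS) (a4 : RunS)
    (a5 : AscS) (a6 : WallS) (a7 : MeetS) (a8 : ValS) (a9 : AncS) (b1 : SelS) (b2 : GoodS)
    (b3 : LamS) (b4 : StageS) (b5 : DpS) (b6 : IdxS) (b7 : PfS) (b8 : EnS) (b9 : FeS) (c1 : CovS)
    (c2 : ListS) : KillS := by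
  intro K M H
  obtain ⟨M', S⟩ := Ct.smo_ex H.ok (M.Dead K.sel)
  have o' := Ct.smo_ok H.ok S
  have sel := b1 K M H (fl M H.ok)
  have hy : (K.ks M M').Hy := ⟨H.ok, o', fl M H.ok, fl M' o', sel.fam, S, H.geo.nm⟩
  have d := a1 _ hy
  have s := a2 _ hy d
  have w := a3 _ hy d s
  have r := a4 _ hy d s
  have a := a5 _ hy d
  have g : (K.ks M M').G1 := ⟨hy, d, s, w, r, a, a6 _ hy d s w r a⟩
  have h1 : K.H1 M M' := ⟨H, g, a7 _ g, sel⟩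
  have gd := b2 K M M' h1
  have h2 : K.H2 M M' := ⟨h1, gd, b3 K M M' h1 gd⟩
  have st := b4 K M M' h2
  have dp := b5 K M M' h2 st
  have h3 : K.H3 M M' := ⟨h2, st, dp, b6 K M M' h2 st dp⟩
  have pf : K.PfK M M' := b7 K M M' h3
  have en := b8 K M M' h3 pf
  have geo : Geo M' K.N := ⟨gd.al, h2.lam.lam, en.nm, b9 K M M' h3, by
    have := H.geo.genF_gf H.ok o' S.n gd.al 2 (c1 K M M' h3 pf)
    rwa [← H.n] at this⟩
  exact ⟨M', S, o', sel.fam, ⟨geo.al, geo.lam, geo.nm, geo.FE, geo.F⟩,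
    c2 pb K M M' h3 en (a8 _ g) (a9 _ g (a8 _ g)) geo⟩

end Pool.Agent.MP_1a6d78_lc.PG
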