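import Pool.Agent.MP_1a6d78_lc.PG.SpecB

/-! PROJECT PG, row SEL: selection, objects, candidate list. -/

namespace Pool.Agent.MP_1a6d78_lc.PG

open Classical ED PR GL Cm

namespace KSel

variable {M : Cm} {i x y c : ℕ}

theorem top_rg (h : M.Ok) (t : M.Top x) (r : M.Rg (4 * x) (4 * c)) : M.Top c := by
  have := (Ct.rg_al h r).2 (by rw [show 4 * x / 4 = x by omega]; exact t.1)
  rw [show 4 * c / 4 = c by omega] at this
  exact ⟨this, fun z k => t.2 z (Ct.rg_trans r k)⟩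

theorem nr4 (M : Cm) (c : ℕ) : M.nr (4 * c) = M.lk (pt c 1) := by
  unfold Cm.nr; congr 1; unfold r4 pt; omega

theorem nr1 (h : M.Ok) (a : M.al c) (s : M.ss 1 c = 0) : M.nr (4 * c) = 4 * M.st 1 c := by
  rw [nr4, h.lk_pt a, s]; rfl

theorem nr0 (h : M.Ok) (a : M.al c) (s : M.ss 0 c = 0) : M.nr (4 * M.st 0 c) = 4 * c := by
  have e := h.lk_pt (i := 0) a
  rw [s] at e
  rw [nr4, ← show ep 0 0 = 1 from rfl, ← e, h.inv]; rfl

theorem top_ss (h : M.Ok) (t : M.Top c) (hi : i < 2) : M.ss i c = 0 := by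
  rcases (by omega : i = 0 ∨ i = 1) with rfl | rfl
  · have e := Ct.nr_psi h (4 * c)
    have r : M.Rg (4 * c) (PL.r3 (M.lk (4 * c))) := Ct.rg_symm h ⟨1, e⟩
    have := Ct.crit_mod t.2 r
    unfold Cm.ss sd
    rw [show pt c 0 = 4 * c from rfl, if_pos (by unfold PL.r3 at this; omega)]
  · have := Ct.crit_mod t.2 (Ct.rg_nr M _)
    rw [nr4] at this
    unfold Cm.ss sd
    rw [if_neg (by omega)]

theorem top_st (h : M.Ok) (t : M.Top c) (hi : i < 2) : M.Rg (4 * c) (4 * M.st i c) := by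
  have s := top_ss h t hi
  rcases (by omega : i = 0 ∨ i = 1) with rfl | rfl
  · exact Ct.rg_symm h ⟨1, nr0 h t.1 s⟩
  · exact ⟨1, nr1 h t.1 s⟩

theorem pa_rg (h : M.Ok) (t : M.Top x) (hi : i < 2) (p : M.Pa i x c) : M.Rg (4 * x) (4 * c) := by
  obtain ⟨s, rfl⟩ := p
  induction s with
  | zero => exact Ct.rg_refl _ _
  | succ s ih => rw [wk_succ]; exact Ct.rg_trans ih (top_st h (top_rg h t ih) hi)

theorem rg_pa1 (h : M.Ok) (t : M.Top x) (r : M.Rg (4 * x) (4 * c)) : M.Pa 1 x c := by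
  obtain ⟨d, e, p⟩ := Ct.rg_ind (Q := fun z => ∃ d, z = 4 * d ∧ M.Pa 1 x d) r ⟨x, rfl, Pa.refl _ _⟩
    (by
      rintro _ ⟨d, rfl, p⟩
      have td := top_rg h t (pa_rg h t (by omega) p)
      exact ⟨_, nr1 h td.1 (top_ss h td (by omega)), p.trans (Pa.step _ _)⟩)
  rwa [show c = d by omega]

theorem rg_pa (h : M.Ok) (t : M.Top x) (hi : i < 2) (r : M.Rg (4 * x) (4 * c)) : M.Pa i x c := by
  rcases (by omega : i = 0 ∨ i = 1) with rfl | rfl
  · have tc := top_rg h t r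
    obtain ⟨s, rfl⟩ := rg_pa1 h tc (Ct.rg_symm h r)
    clear r t
    induction s with
    | zero => exact Pa.refl _ _
    | succ s ih =>
      have td := top_rg h tc (pa_rg h tc (by omega) (Pa.wk 1 c s))
      have e := nr1 h td.1 (top_ss h td (by omega))
      rw [nr4] at e
      have e' : M.st 0 (M.st 1 (M.wk 1 c s)) = M.wk 1 c s := by
        rw [Cm.st, show pt (M.st 1 (M.wk 1 c s)) 0 = 4 * M.st 1 (M.wk 1 c s) from rfl, ← e, h.inv,
          pt_div]
      rw [wk_succ]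
      exact (e' ▸ Pa.step 0 (M.st 1 (M.wk 1 c s))).trans ih
  · exact rg_pa1 h t r

/-- A cycle all of whose passages are by the side 0 bounds a critical region. -/
theorem top_of (h : M.Ok) (hi : i < 2) (p : M.Per i y) (f : M.FE i y (hs i) = M.n) : M.Top y := by
  have s : ∀ c, M.Pa i y c → M.ss i c = 0 := by
    rintro _ ⟨t, rfl⟩
    have k := (FE_none h p.1).1 f t
    have := ss_cases (M := M) i (M.wk i y t)
    unfold hs at k
    split_ifs at k <;> omega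
  have cl : ∀ d, M.Pa i y d → ∃ u, M.nr (4 * d) = 4 * u ∧ M.Pa i y u := by
    intro d pd
    rcases (by omega : i = 0 ∨ i = 1) with rfl | rfl
    · obtain ⟨_, u, pu, rfl, -⟩ := (p.pa h pd).1.kd h
      have q := pd.trans (pu.pa h (Pa.step _ _)).2
      exact ⟨u, nr0 h pu.1 (s u q), q⟩
    · exact ⟨_, nr1 h (pd.al h p.1) (s d pd), pd.trans (Pa.step _ _)⟩
  refine ⟨p.1, fun z r => ?_⟩
  obtain ⟨d, rfl, pd⟩ := Ct.rg_ind (Q := fun z => ∃ d, z = 4 * d ∧ M.Pa i y d) r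
    ⟨y, rfl, Pa.refl _ _⟩ (by rintro _ ⟨d, rfl, pd⟩; exact cl d pd)
  obtain ⟨u, e, -⟩ := cl d pd
  unfold Cm.Alt
  omega

theorem en_pa (h : M.Ok) {En : ℕ → ℕ → ℕ} (N : M.Nm En) (hi : i < 2) (a : M.al c)
    (k : M.Co i c x) : M.Pa i x (En i c) :=
  (k.symm.trans (N.pa i (by omega) c a).co).pa h (N.per i (by omega) c a)

theorem en_en (h : M.Ok) {En : ℕ → ℕ → ℕ} (N : M.Nm En) (t : M.Top x) (hi : i < 2) (a : M.al c)
    (k : M.Co i c x) : En 0 (En i c) = En 0 x :=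
  N.pa_eq h (by omega) t.1 (rg_pa h t (by omega) (pa_rg h t hi (en_pa h N hi a k)))

variable {K : Rn}

theorem sel_al (H : K.Hy M) (s : K.sel x) : M.al x := H.geo.al ▸ s.1

theorem sel_top (H : K.Hy M) (s : K.sel x) : M.Top x :=
  top_of H.ok (i := 0) (by omega) (s.2.1 ▸ H.geo.nm.per 0 (by omega) x (sel_al H s))
    (by rw [← H.geo.FE 0 (by omega) _ (by decide), ← H.n]; exact s.2.2.1)

theorem both (H : K.Hy M) (s : K.sel x) {p : ℕ} (b : M.Prb p) (k : M.Co ((p + 1) % 2) (p / 4) x) :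
    ∃ u < 2 * K.c, K.links x (2 * u) = p ∧ K.links x (2 * u + 1) = M.lk p := by
  have e := (H.geo.nm.co H.ok (by omega) b.1 (sel_al H s)).2 k
  have l := H.geo.lam_al b.1
  rcases (by omega : (p + 1) % 2 = 0 ∨ (p + 1) % 2 = 1) with j | j <;> rw [j] at e
  · rw [s.2.1] at e
    obtain ⟨t, t1, t2⟩ := H.ex 0 (by omega) p b (by omega) (e ▸ s.2.2.2.2.1)
    rw [e] at t2
    refine ⟨t, by omega, ?_, ?_⟩ <;> unfold Rn.links
    · rw [if_pos (by omega), show 2 * t / 2 = t by omega, if_pos t1, t2]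
    · rw [if_neg (by omega), show (2 * t + 1) / 2 = t by omega, if_pos t1, t2, l]
  · obtain ⟨t, t1, t2⟩ := H.ex 1 (by omega) p b (by omega) (e ▸ s.2.2.2.2.2.1)
    rw [e] at t2
    refine ⟨K.c + t, by omega, ?_, ?_⟩ <;> unfold Rn.links
    · rw [if_pos (by omega), if_neg (by omega), show 2 * (K.c + t) / 2 - K.c = t by omega, t2]
    · rw [if_neg (by omega), if_neg (by omega), show (2 * (K.c + t) + 1) / 2 - K.c = t by omega,
        t2, l]

theorem ind (H : K.Hy M) : M.Ind K.sel := by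
  intro x y p sx sy b kx ky
  obtain ⟨u, u1, -, u3⟩ := both H sx b kx
  have a := H.ok.al_lk b.1
  have := sx.2.2.2.2.2.2 (2 * u + 1) (by omega) (by rw [u3, H.n]; exact Ct.lt4 H.ok a)
  rw [u3, Rn.own0, en_en H.ok H.geo.nm (sel_top H sy) (by omega) a ky, sy.2.1] at this
  exact (this.resolve_right fun k => k sy.2.2.2.1).symm

theorem obj (H : K.Hy M) (hi : i < 2) :
    K.obj i c = x ∧ x < M.n ↔ M.al c ∧ K.sel x ∧ M.Co i c x := by
  have h := H.ok
  have N := H.geo.nm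
  have f : ∀ y, K.P.FE i y (hs i) = M.FE i y (hs i) :=
    H.geo.FE i (by omega) _ (by unfold hs; split_ifs <;> omega)
  unfold Rn.obj
  rw [f, H.n]
  constructor
  · rintro ⟨e, l⟩
    split_ifs at e with k
    · subst e
      have a := (H.geo.En_al h (by omega)).1 ((H.geo.En_al h (by omega)).1 (sel_al H k.2))
      have t := top_of h hi (N.per i (by omega) c a) k.1
      exact ⟨a, k.2, ((N.pa i (by omega) c a).trans
        (rg_pa h t hi (pa_rg h t (by omega) (N.pa 0 (by omega) _ t.1)))).co⟩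
    · omega
  · rintro ⟨a, s, k⟩
    have t := sel_top H s
    have e := (en_en h N t hi a k).trans s.2.1
    have t' := top_rg h t (pa_rg h t hi (en_pa h N hi a k))
    have g : M.FE i (K.P.En i c) (hs i) = M.n := (FE_none h t'.1).2 fun r => by
      rw [top_ss h (top_rg h t' (pa_rg h t' hi (Pa.wk _ _ _))) hi]
      unfold hs; split_ifs <;> omega
    rw [e, if_pos ⟨g, s⟩]
    exact ⟨rfl, h.lt _ t.1⟩

theorem lle (H : K.Hy M) (x t : ℕ) : K.links x t ≤ 4 * M.n := by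
  have l : ∀ p, K.P.lam p ≤ 4 * M.n := fun p => by
    rw [H.geo.lam]
    split_ifs with k
    exacts [(Ct.lt4 H.ok (H.ok.al_lk k)).le, le_rfl]
  unfold Rn.links
  split_ifs
  exacts [H.le _ _ _, H.le _ _ _, l _, l _]

theorem lsd (H : K.Hy M) (F : M.FlowK) (s : K.sel x) {t : ℕ} (l : K.links x t < 4 * M.n) :
    M.Lsd x (K.links x t) := by
  have h := H.ok
  have N := H.geo.nm
  have a := sel_al H s
  have key : ∀ e, e = (if t / 2 < K.c then K.ent 0 x (t / 2) else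
      K.ent 1 (K.P.En 1 x) (t / 2 - K.c)) → e < 4 * M.n → M.Prb e ∧ M.Co ((e + 1) % 2) (e / 4) x := by
    intro e he le
    split_ifs at he
    · subst he
      obtain ⟨v1, v2, v3⟩ := H.val 0 (by omega) x _ a s.2.1 le
      rw [show (K.ent 0 x (t / 2) + 1) % 2 = 0 by omega]
      exact ⟨v1, (N.co h (by omega) v1.1 a).1 (v3.trans s.2.1.symm)⟩
    · subst he
      obtain ⟨v1, v2, v3⟩ := H.val 1 (by omega) _ _ (N.al (by omega) a) (N.idem h (by omega) a) le
      rw [v2]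
      exact ⟨v1, (N.co h (by omega) v1.1 a).1 v3⟩
  unfold Rn.links at l ⊢
  generalize he : (if t / 2 < K.c then K.ent 0 x (t / 2) else
    K.ent 1 (K.P.En 1 x) (t / 2 - K.c)) = e at l ⊢
  split_ifs at l ⊢
  · exact ⟨(key e he.symm l).1, Or.inl (key e he.symm l).2⟩
  · have ae : M.al (e / 4) := by_contra fun k => l.ne (H.geo.lam_dead k)
    obtain ⟨k1, k2⟩ := key e he.symm (Ct.lt4 h ae)
    rw [H.geo.lam_al ae]
    exact ⟨(F.plk e).2 k1, Or.inr (by rw [h.inv]; exact k2)⟩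

theorem lex (H : K.Hy M) (F : M.FlowK) (s : K.sel x) {p : ℕ} (l : M.Lsd x p) :
    ∃ t < 4 * K.c, K.links x t = p := by
  rcases l.2 with k | k
  · obtain ⟨u, u1, u2, -⟩ := both H s l.1 k
    exact ⟨_, by omega, u2⟩
  · obtain ⟨u, u1, -, u3⟩ := both H s ((F.plk p).2 l.1) k
    exact ⟨_, by omega, u3.trans (H.ok.inv p)⟩

theorem hs_lt (w : ℕ) : hs w < 4 := by unfold hs; split_ifs <;> omega

theorem cand (H : K.Hy M) (F : M.FlowK) (s : K.sel x) (t : ℕ) :
    K.C x t = M.n ∨ (M.al (K.C x t) ∧ M.Cand K.P.En x (K.C x t)) := by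
  have two : ∀ u, K.links x u / 4 = M.n ∨ M.Lsd x (K.links x u) := fun u =>
    (lle H x u).eq_or_lt.imp (fun e => by omega) (lsd H F s)
  unfold Rn.C
  by_cases ht : t < 4 * K.c
  · rw [if_pos ht]
    exact (two t).imp id fun l => ⟨l.1.1, Or.inl ⟨_, l, rfl⟩⟩
  · rw [if_neg ht, H.geo.FE _ (by omega) _ (hs_lt _)]
    refine (FE_le H.ok _ _ _).imp id fun a => ⟨a, Or.inr ⟨_, _, by omega, ?_, rfl, H.ok.lt _ a⟩⟩
    have b := (H.geo.En_al H.ok (by omega)).1 (FE_spec H.ok (H.ok.lt _ a)).1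
    split_ifs at b ⊢
    · exact Or.inl rfl
    · exact Or.inr ⟨_, (two _).resolve_left fun e => H.ok.not_al_n (e ▸ b), rfl⟩

theorem cex (H : K.Hy M) (F : M.FlowK) (s : K.sel x) {b : ℕ} (k : M.Cand K.P.En x b) :
    ∃ t < K.nc, K.C x t = b := by
  unfold Rn.nc Rn.C
  rcases k with ⟨p, l, rfl⟩ | ⟨w, d, hw, sr, rfl, -⟩
  · obtain ⟨t, t1, t2⟩ := lex H F s l
    exact ⟨t, by omega, by rw [if_pos t1, t2]⟩
  · obtain ⟨u, u1, u2⟩ : ∃ u ≤ 4 * K.c, (if u = 4 * K.c then x else K.links x u / 4) = d := by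
      rcases sr with rfl | ⟨p, l, rfl⟩
      · exact ⟨_, le_rfl, if_pos rfl⟩
      · obtain ⟨t, t1, t2⟩ := lex H F s l
        exact ⟨t, t1.le, by rw [if_neg t1.ne, t2]⟩
    refine ⟨4 * K.c + 2 * u + (w - 2), by omega, ?_⟩
    rw [if_neg (by omega), show 2 + (4 * K.c + 2 * u + (w - 2)) % 2 = w by omega,
      show (4 * K.c + 2 * u + (w - 2) - 4 * K.c) / 2 = u by omega, u2,
      H.geo.FE _ (by omega) _ (hs_lt _)]

theorem seen (H : K.Hy M) (s : K.sel x) {q : ℕ} (l : M.Lsd x q) : K.seen q = x := by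
  unfold Rn.seen Rn.up
  rw [H.n, H.geo.lam_al l.1.1]
  rcases l.2 with k | k
  · obtain ⟨e, lt⟩ := (obj H (by omega)).2 ⟨l.1.1, s, k⟩
    rw [e, if_pos lt]
  · split_ifs with u
    · obtain ⟨-, sy, ky⟩ := (obj H (by omega)).1 ⟨rfl, u⟩
      exact ind H _ _ q sy s l.1 ky k
    · exact ((obj H (by omega)).2 ⟨H.ok.al_lk l.1.1, s, k⟩).1

end KSel

open KSel in
theorem selS : SelS := by
  intro K M H F
  refine ⟨⟨fun x => sel_top H, fun x y sx sy r => ?_, ind H⟩, fun s => s.2.1, fun i c => ?_,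
    fun hi => obj H hi, lle H, fun s => lsd H F s, fun s => lex H F s, fun s => cand H F s _,
    fun s => cex H F s, fun s => seen H s⟩
  · have := H.geo.nm.pa_eq H.ok (by omega) (sel_al H sx) (rg_pa H.ok (sel_top H sx) (i := 0)
      (by omega) r)
    rw [sx.2.1, sy.2.1] at this
    exact this.symm
  · unfold Rn.obj
    split_ifs with k
    exacts [(H.ok.lt _ (sel_al H k.2)).le, H.n.le]

end Pool.Agent.MP_1a6d78_lc.PG
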