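import Pool.Agent.MP_1a6d78_lc.PG.MSpec
import Pool.Agent.MP_1a6d78_lc.PG.Flow

/-! PROJECT PG: clipping keeps the invariant; level 0. -/

namespace Pool.Agent.MP_1a6d78_lc.PG

open Classical ED PR SC GL

theorem clipS : ClipS := fun M P j ls q I hq h7 => by
  have H := I.ok
  have G := I.geo
  have hn : 32 * M.n < q := by
    have : 16 * M.n * (j + 2) = 16 * M.n * j + 32 * M.n := by ring
    omega
  have m : ∀ a, a ≤ 4 * M.n ∨ a < 4 → min a q = a := fun a h => min_eq_left (by omega)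
  have al : ∀ c, M.al (min c q) ↔ M.al c := fun c => by
    rcases le_total c q with h | h
    · rw [min_eq_left h]
    · rw [min_eq_right h]
      exact ⟨fun k => by have := H.lt _ k; omega, fun k => by have := H.lt _ k; omega⟩
  have ma : ∀ c, M.al c → min c q = c := fun c k => m c (by have := H.lt _ k; omega)
  have en : ∀ i < 4, ∀ c, (P.clip q).En i c = P.En i c := fun i hi c => by
    show min (P.En (min i q) (min c q)) q = _
    rw [m i (Or.inr hi)]
    by_cases k : M.al c
    · rw [ma c k, ma _ (G.nm.al hi k)]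
    · rw [G.nm.junk i hi c k, G.nm.junk i hi _ (mt (al c).1 k), m _ (by omega)]
  have e : (P.clip q).al = M.al := funext fun c => propext (G.al ▸ al c)
  have sg : ∀ A, M.wo A → M.wo (A.clip q) ∧ (M.ok (A.clip q) ↔ M.ok A) ∧ (M.ok A →
      M.el (A.clip q) = M.el A ∧ M.ln (A.clip q) = M.ln A ∧
        ∀ a < 4, ∀ t, M.sv (A.clip q) t = a ↔ M.sv A t = a) := fun A w => by
    by_cases k : M.al A.p
    · have o := w k
      have : A.clip q = ⟨A.i, A.p, min A.s q, A.q⟩ := by
        unfold Sg.clip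
        rw [m _ (Or.inr o.1), ma _ k, ma _ (o.2.2.al H k)]
      rw [this]
      refine ⟨w, Iff.rfl, fun _ => ⟨rfl, rfl, fun a ha t => ?_⟩⟩
      unfold Cm.sv
      split_ifs
      · show min A.s q = a ↔ _
        omega
      · rfl
    · have k' : ¬M.al (A.clip q).p := mt (al _).1 k
      exact ⟨fun v => absurd v k', ⟨fun v => absurd v.2.1 k', fun v => absurd v.2.1 k⟩,
        fun v => absurd v.2.1 k⟩
  have G' : Geo M (P.clip q) := by
    refine ⟨e, fun p => ?_, ⟨fun i hi c k => ?_, fun i hi c k => ?_, fun i hi c k => ?_,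
      fun i hi c k => ?_⟩, fun i hi a ha c => ?_, fun fl a b A B ha hb ne wA wB => ?_⟩
    · show min (P.lam (min p q)) q = _
      rw [G.lam]
      by_cases k : M.al (p / 4)
      · rw [m p (Or.inl (Ct.lt4 H k).le), if_pos k, m _ (Or.inl (Ct.lt4 H (H.al_lk k)).le)]
      · rw [if_neg k, if_neg, m _ (Or.inl le_rfl)]
        intro v
        have := H.lt _ v
        exact k (by rwa [min_eq_left (by omega)] at v)
    · exact en i hi c ▸ G.nm.junk i hi c k
    · exact en i hi c ▸ G.nm.pa i hi c k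
    · exact en i hi c ▸ G.nm.per i hi c k
    · rw [en i hi, en i hi, G.nm.st i hi c k]
    · show min (P.FE (min i q) (min c q) (min a q)) q = _
      rw [m i (Or.inr hi), m a (Or.inr ha), G.FE i hi a ha]
      by_cases k : M.al c
      · rw [ma c k]
        exact (Cm.FE_le H i c a).elim (fun v => m _ (by omega)) (ma _)
      · rw [Cm.FE_dead k, Cm.FE_dead (mt (al c).1 k), m _ (by omega)]
    · show min (P.F fl (min a q) (min b q) _ _) q = _
      obtain ⟨a1, a2, a3⟩ := sg A wA
      obtain ⟨b1, b2, b3⟩ := sg B wB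
      have := Cm.F_le H fl a b (A.clip q) (B.clip q)
      rw [m a (Or.inr ha), m b (Or.inr hb), G.F fl a b _ _ ha hb ne a1 b1, m _ (by omega)]
      by_cases k : M.ok A ∧ M.ok B
      · have e : M.hit a b (A.clip q) (B.clip q) = M.hit a b A B := by
          funext t
          unfold Cm.hit Cm.Ps
          simp only [(a3 k.1).1, (a3 k.1).2.1, (a3 k.1).2.2 a ha, (b3 k.2).1, (b3 k.2).2.1,
            (b3 k.2).2.2 b hb]
        unfold Cm.F
        rw [a2, b2, e, (a3 k.1).1]
      · rw [Cm.F_junk _ _ _ k, Cm.F_junk _ _ _ (by rwa [a2, b2])]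
  have hv : (P.clip q).hv = P.hv := funext fun y => by
    unfold Pr.hv
    rw [en _ (Nat.mod_lt _ (by omega)), e, G.al]
  have ld : (P.clip q).ld = P.ld.clip q := by
    have e1 : (P.clip q).val = P.val := funext fun y => by
      unfold Pr.val
      rw [prbS M _ H G', prbS M _ H G]
    have e2 : (P.clip q).own = P.own := funext fun y => by
      unfold Pr.own
      rw [en _ (Nat.mod_lt _ (by omega))]
    unfold Pr.ld
    rw [e1, e2, hv]
    rfl
  exact ⟨⟨H, G', ld ▸ I.li.clip hq⟩, by unfold Pr.tot; rw [hv]⟩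

theorem nm_en0 {M : Cm} (H : M.Ok) : M.Nm M.En0 := by
  have per : ∀ i c, M.al c → M.Per i (M.wk i c M.n) := fun i c k => by
    obtain ⟨s, l, e⟩ := (Cm.Pa.wk i c M.n).bnd H k
    refine ⟨H.al_wk i k _, M.n - s - 1, ?_⟩
    rw [← Cm.wk_succ', ← e, ← Cm.wk_add, show s + (M.n - s - 1 + 1) = M.n by omega, e]
  have e : ∀ i c, M.al c → M.En0 i c = lst M.n (M.Pa i (M.wk i c M.n)) := fun i c k => by
    rw [Cm.En0, if_pos k]
    exact lst_congr fun y _ => ⟨fun ⟨t, _, v⟩ => ⟨t, by rwa [← Cm.wk_add]⟩, fun v =>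
      (v.bnd H (per i c k).1).imp fun t u => ⟨u.1, by rw [Cm.wk_add, u.2]⟩⟩
  have pa : ∀ i c, M.al c → M.Pa i (M.wk i c M.n) (M.En0 i c) := fun i c k =>
    e i c k ▸ (lst_spec ⟨_, H.lt _ (per i c k).1, Cm.Pa.refl _ _⟩).2
  refine ⟨fun i _ c k => if_neg k, fun i _ c k => (Cm.Pa.wk i c _).trans (pa i c k),
    fun i _ c k => ((per i c k).pa H (pa i c k)).1, fun i _ c k => ?_⟩
  rw [e i c k, e i _ (H.al_st i k), ← Cm.wk_succ', Cm.wk_succ]
  exact lst_congr fun y _ => ⟨(Cm.Pa.step _ _).trans, (per i c k).2.trans⟩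

theorem base0S : Base0S := fun M H => by
  have N := nm_en0 H
  obtain ⟨ls, k1, k2⟩ := GL.base (m := 16 * M.n) (val := (geo0 M).val) (hv := (geo0 M).hv)
    (own := (geo0 M).own) (fun e h => by
      have k : M.al (e / 4 / 4) := h.1.1
      have := H.lt _ k
      rw [show e / 4 / 4 = e / 16 by omega] at k
      refine ⟨by omega, ?_⟩
      unfold Pr.hv Pr.own
      rw [pt_div, pt_mod]
      exact ⟨N.al (Nat.mod_lt _ (by omega)) k, N.idem H (Nat.mod_lt _ (by omega)) k⟩)
    fun y h => by have := H.lt _ h.1; omega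
  exact ⟨ls, ⟨H, ⟨rfl, fun _ => rfl, N, fun _ _ _ _ _ => rfl, fun _ _ _ _ _ _ _ _ _ _ => rfl⟩, k1⟩,
    k2⟩

end Pool.Agent.MP_1a6d78_lc.PG
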