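import Pool.Agent.MP_1a6d78_lc.PG.MSpec
import Pool.Agent.MP_1a6d78_lc.PG.FAll

/-! PROJECT PG: row CPAY. -/

namespace Pool.Agent.MP_1a6d78_lc.PG

open Classical ED PR SC GL Cm

theorem cond_move {M : Cm} (H : M.Ok) {z v w : ℕ} (h : M.Cond z v) (p : M.Pa 0 v w) :
    M.Cond z w ∧ M.Co 1 (M.FE 0 w 3) (M.FE 0 v 3) := by
  have K := sWalk M H
  have rv := (K.ring v).1 h.ring
  have rw' := K.rn_pa _ _ _ rv p
  have c : ∀ y, M.Co 0 y w ↔ M.Co 0 y v := fun y => ⟨fun k => k.trans p.co.symm, fun k => k.trans p.co⟩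
  obtain ⟨y, y1, y2⟩ := rw'.2.2
  obtain ⟨-, f1, f2⟩ := K.fe_kd 0 w y _ rw'.1 y1 y2
  obtain ⟨o, o'⟩ := (sOm M H v h.ring h.all h.nx).1 _ _ (Pa.refl 3 _) ⟨f2, (c _).1 f1.co.symm⟩
  have e : ∀ p, M.Eg w p ↔ M.Eg v p := fun p => and_congr_right fun _ => and_congr_right fun _ =>
    ⟨fun k => k.trans o, fun k => k.trans o.symm⟩
  refine ⟨⟨(K.ring w).2 rw', h.cand.imp (fun ⟨q, q1, q2⟩ => ⟨q, (e q).2 q1, (c _).2 q2⟩) (c _).2,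
    fun q k => (h.all q ((e q).1 k)).imp (fun u => ⟨u.1, u.2.1, (c _).2 u.2.2⟩)
      fun ⟨y, y1, y2⟩ => ⟨y, y1, y2.1, (c _).2 y2.2⟩,
    fun u u1 u2 => o' u u1 ⟨u2.1, (c _).1 u2.2⟩⟩, o⟩

theorem cpayS (hL : LongS) : CpayS := by
  intro K M M' j ls hn I hq H' C hc Y hY
  have H := I.ok
  have W := sWalk M H
  have N := I.geo.nm
  have rg : ∀ v, K.ccut v → M.Ring v := fun v k => ((hc v).1 k).2.1.ring
  rcases hY with hY | ⟨y1, y2, y3, y4⟩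
  · obtain ⟨rs, cx, -⟩ := (sCutEx M H).1 M' _ rg
    have R := sCutR M M' _ H H' rs (cx.1 C)
    refine ⟨Y, ⟨fun x k => ?_, fun x y k l r => hY.2 x y k l ((R.rg _ _ ?_).1 r).1⟩, by omega⟩
    · obtain ⟨t, -, nt⟩ := sCS M M' _ H H' rs (cx.1 C) x (hY.1 x k).1
      exact ⟨t, (nt _).2 (hY.1 x k).2⟩
    · rintro ⟨t, t1, t2⟩
      refine (R.cor t _ _ t1 t2).2.1 ?_
      rw [show 4 * (4 * x / 4) + 4 * x % 4 = 4 * x by omega]
      exact (hY.1 x k).1.2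
  obtain ⟨y4, y5⟩ := y4 M' _ rg C
  have al : ∀ v, Y v → M.al v := fun v k => (y1 v k).ring.1.1
  have fe : ∀ v a, M.FE 0 v a < M.n → M.al (M.FE 0 v a) := fun v a k =>
    (FE_le H 0 v a).resolve_left k.ne
  have l0 := hL K M j ls hn I hq 0 (by omega) Y id al y2
  have l1 := hL K M j ls hn I hq 1 (by omega) Y (fun v => M.FE 0 v 3)
    (fun v k => fe v 3 (y1 v k).ring.2.2) y3
  obtain ⟨G, hG⟩ : ∃ G : ℕ → Prop, ∀ v, G v ↔
      Y v ∧ K.short 0 (K.P.En 0 v) ∧ K.short 1 (K.P.En 1 (M.FE 0 v 3)) := ⟨_, fun _ => Iff.rfl⟩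
  have cut : ∀ v, G v → Y v ∧ K.ccut (K.P.En 0 v) ∧ M.Co 0 v (K.P.En 0 v) := fun v k => by
    obtain ⟨k1, k2, k3⟩ := (hG v).1 k
    have p := N.pa 0 (by omega) v (al v k1)
    obtain ⟨c, o⟩ := cond_move H (y1 v k1) p
    refine ⟨k1, (hc _).2 ⟨N.idem H (by omega) (al v k1), c, k2, ?_⟩, p.co⟩
    rw [Rn.cg, I.geo.FE 0 (by omega) 3 (by omega), (N.co H (by omega) (fe _ 3 c.ring.2.2)
      (fe v 3 (y1 v k1).ring.2.2)).2 o]
    exact k3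
  have inj : ∀ v w, G v → G w → M'.Rg (4 * M.FE 0 v 0) (4 * M.FE 0 w 0) → v = w := fun v w k l =>
    y5 v w _ _ (cut v k).1 (cut w l).1 (cut v k).2.1 (cut w l).2.1 (cut v k).2.2 (cut w l).2.2
  refine ⟨fun x => ∃ v, G v ∧ x = M.FE 0 v 0, ⟨?_, ?_⟩, ?_⟩
  · rintro x ⟨v, k, rfl⟩
    exact y4 v _ (cut v k).1 (cut v k).2.1 (cut v k).2.2
  · rintro x y ⟨v, k, rfl⟩ ⟨w, l, rfl⟩ r
    rw [inj v w k l r]
  · have c1 : cnt M.n G ≤ cnt M.n fun x => ∃ v, G v ∧ x = M.FE 0 v 0 :=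
      cnt_inj (fun v => M.FE 0 v 0) (fun v _ k => ⟨(y1 v (cut v k).1).ring.2.1, v, k, rfl⟩)
        fun v _ w _ k l e => inj v w k l (by rw [show M.FE 0 v 0 = M.FE 0 w 0 from e]; exact Ct.rg_refl _ _)
    have c2 := (cnt_mono (n := M.n) (P := Y) fun v _ k => ?_).trans ((cnt_or _ G _).trans
      (Nat.add_le_add c1 (cnt_or M.n (fun v => Y v ∧ ¬K.short 0 (K.P.En 0 (id v)))
        fun v => Y v ∧ ¬K.short 1 (K.P.En 1 (M.FE 0 v 3)))))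
    · have := Nat.mul_le_mul_left K.c c2
      rw [mul_add, mul_add] at this
      omega
    · rw [hG]
      tauto

end Pool.Agent.MP_1a6d78_lc.PG
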