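import Pool.Agent.MP_1a6d78_lc.PG.MSpec
import Pool.Agent.MP_1a6d78_lc.PG.KSel

/-! PROJECT PG: long lists are rare, some hash selects many poles that pay. -/

namespace Pool.Agent.MP_1a6d78_lc.PG

open Classical ED PR SC GL

theorem longS : LongS := by
  intro K M j ls hn I hq i hi Y f h1 h2
  refine le_trans (Nat.mul_le_mul_left _ ?_) (I.li.markov hq K.c)
  have N := I.geo.nm
  refine cnt_inj (fun v => pt (K.P.En i (f v)) i) (fun v _ k => ?_) fun v _ w _ k l e => ?_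
  · have a := N.al hi (h1 v k.1)
    have := I.ok.lt _ a
    refine ⟨by unfold pt; omega, ?_, fun s => k.2 (by rw [Rn.short, hn]; exact s)⟩
    show K.P.al _ ∧ _
    rw [pt_div, pt_mod, Nat.mod_eq_of_lt hi, I.geo.al]
    exact ⟨a, N.idem I.ok hi (h1 v k.1)⟩
  · refine h2 v w k.1 l.1 ((N.co I.ok hi (h1 v k.1) (h1 w l.1)).1 ?_)
    have := congrArg (· / 4) e
    simpa only [pt_div] using this

theorem dd_rg {M : Cm} (h : M.Ok) {x y c : ℕ} (r : M.Rg (4 * x) (4 * y)) (d : M.Dd x c) :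
    M.Dd y c := by
  induction d with
  | top k => exact .top (Ct.rg_trans (Ct.rg_symm h r) k)
  | step k _ ih => exact .step k ih

theorem nt_rg {M : Cm} (h : M.Ok) {x y z : ℕ} (r : M.Rg (4 * x) (4 * y)) (d : M.NT z x) :
    M.NT z y := by
  have e : M.Dd x = M.Dd y := funext fun c => propext ⟨dd_rg h r, dd_rg h (Ct.rg_symm h r)⟩
  unfold Cm.NT Cm.Hop at *
  rwa [← e]

theorem kpayS : KpayS := by
  intro P M z c q j j' ls I hq hc Y ⟨y1, y2⟩
  have h := I.ok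
  have N := I.geo.nm
  let K : Rn := ⟨P, M.n, z, c, q, j', fun _ => True⟩
  have co : ∀ i < 2, ∀ v w, Y v → Y w → M.Co i v w → v = w := fun i hi v w a b ⟨u, p1, p2⟩ =>
    y2 v w a b (Ct.rg_trans (KSel.pa_rg h (y1 v a).1 hi p1)
      (Ct.rg_symm h (KSel.pa_rg h (y1 w b).1 hi p2)))
  have l0 := longS K M j ls rfl I hq 0 (by omega) Y id (fun v k => (y1 v k).1.1) (co 0 (by omega))
  have l1 := longS K M j ls rfl I hq 1 (by omega) Y id (fun v k => (y1 v k).1.1) (co 1 (by omega))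
  obtain ⟨w, hw, k⟩ := hash M.n (4 * c)
    (fun x => ∃ y, Y y ∧ P.En 0 y = x ∧ K.short 0 x ∧ K.short 1 (P.En 1 y))
    (fun x t => K.own0 (K.links x t)) (by omega)
  refine ⟨w, hw, ?_⟩
  have a1 : cnt M.n Y ≤ cnt M.n (fun v => Y v ∧ ¬K.short 0 (P.En 0 v)) +
      (cnt M.n (fun v => Y v ∧ ¬K.short 1 (P.En 1 v)) +
        cnt M.n fun v => Y v ∧ K.short 0 (P.En 0 v) ∧ K.short 1 (P.En 1 v)) :=
    le_trans (cnt_mono fun v _ k => by tauto)
      ((cnt_or _ _ _).trans (Nat.add_le_add_left (cnt_or _ _ _) _))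
  have a2 : cnt M.n (fun v => Y v ∧ K.short 0 (P.En 0 v) ∧ K.short 1 (P.En 1 v)) ≤
      cnt M.n fun x => ∃ y, Y y ∧ P.En 0 y = x ∧ K.short 0 x ∧ K.short 1 (P.En 1 y) :=
    cnt_inj (P.En 0) (fun v _ k => ⟨h.lt _ (N.al (by omega) (y1 v k.1).1.1), v, k.1, rfl, k.2⟩)
      fun v _ u _ k l e => co 0 (by omega) v u k.1 l.1
        ((N.co h (by omega) (y1 v k.1).1.1 (y1 u l.1).1.1).1 e)
  have a3 := k.trans (Nat.mul_le_mul_left _ (cnt_mono (Q := fun x =>
      (Rn.mk P M.n z c q j' (colq M.n (4 * (4 * c)) w)).sel x ∧ M.NT z x) ?_))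
  · have e1 : K.c = c := rfl
    have e2 : K.P = P := rfl
    simp only [e1, e2, id] at l0 l1
    have := Nat.mul_le_mul_left c (a1.trans (Nat.add_le_add_left (Nat.add_le_add_left
      (a2.trans a3) _) _))
    rw [mul_add, mul_add, ← mul_assoc, show c * (8 * (4 * c)) = 32 * c ^ 2 by ring] at this
    omega
  · rintro x - ⟨⟨y, a, rfl, s0, s1⟩, c1, c2⟩
    have t := (y1 y a).1
    have r := KSel.pa_rg h t (i := 0) (by omega) (N.pa 0 (by omega) y t.1)
    have t' := KSel.top_rg h t r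
    refine ⟨⟨I.geo.al ▸ t'.1, N.idem h (by omega) t.1, ?_, c1, s0, ?_, fun u hu _ =>
      (Classical.em _).imp id (c2 u hu)⟩, nt_rg h r (y1 y a).2⟩
    · show P.FE 0 _ 3 = M.n
      rw [I.geo.FE 0 (by omega) 3 (by omega), Cm.FE_none h t'.1]
      intro u e
      have := KSel.top_ss h (KSel.top_rg h t' (KSel.pa_rg h t' (i := 0) (by omega)
        (Cm.Pa.wk _ _ u))) (i := 0) (by omega)
      omega
    · show K.short 1 (P.En 1 (P.En 0 y))
      rwa [N.pa_eq h (by omega) t.1 (KSel.rg_pa h t (i := 1) (by omega) r)]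

end Pool.Agent.MP_1a6d78_lc.PG
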