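import Pool.Agent.MP_1a6d78_lc.PG.LClip

/-! PROJECT PG: frames keep the invariant; the hypotheses of a round; valid entries are few. -/

namespace Pool.Agent.MP_1a6d78_lc.PG

open Classical ED PR SC GL Ct

theorem vcntS : VcntS := fun M P H G => by
  have i0 := count16 H
  have key : ∀ Q : ℕ → Prop, (∀ a b, Q a → Q b → a % 4 / 2 = b % 4 / 2) →
      cnt (16 * M.n) (fun e => P.val e ∧ Q e) ≤ cnt (4 * M.n) M.Prb := fun Q h =>
    cnt_inj (fun e => e / 4) (fun e he k => ⟨by omega, (prbS M P H G _).1 k.1.1⟩)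
      fun a _ b _ k k' e => by
        have := k.1.2
        have := k'.1.2
        have := h a b k.2 k'.2
        omega
  have i1 := key (fun e => e % 4 / 2 = 0 % 2) fun _ _ u v => u.trans v.symm
  have i2 := key (fun e => e % 4 / 2 = 1 % 2) fun _ _ u v => u.trans v.symm
  rw [cnt_bit]
  omega

theorem hyS : HyS := fun K M j ls hn I hq => by
  have H := I.ok
  have G := I.geo
  have hv : ∀ i < 4, ∀ y, M.al y → K.P.En i y = y → K.P.ld.hv (pt y i) := fun i hi y k e => by
    show K.P.al _ ∧ _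
    rw [pt_div, pt_mod, Nat.mod_eq_of_lt hi, G.al]
    exact ⟨k, e⟩
  refine ⟨H, hn, G, fun i y t => ?_, fun i hi y t k e l => ?_, fun i hi p k e s => ?_,
    fun e k => ?_⟩
  · have := I.li.en_le (q := K.q) (pt y i) t
    unfold Rn.ent
    rw [hn]
    omega
  · unfold Rn.ent at *
    rw [hn] at *
    obtain ⟨k1, k2⟩ := I.li.en_val hq (i := t) (hv i hi y k e) (by omega)
    generalize K.P.ld.en (16 * M.n) K.q (pt y i) t = w at *
    have k3 : pt (K.P.En (w % 4) (w / 16)) w = pt y i := k2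
    have k4 : w % 4 = i := by unfold pt at k3; omega
    have := k1.2
    rw [k4] at k3
    exact ⟨(prbS M _ H G _).1 k1.1, by omega, by
      rw [show w / 4 / 4 = w / 16 by omega]; unfold pt at k3; omega⟩
  · have v : K.P.ld.val (4 * p + i) := ⟨by
      rw [show (4 * p + i) / 4 = p by omega]; exact (prbS M _ H G _).2 k, by
      rw [show (4 * p + i) / 4 = p by omega]; omega⟩
    have o : K.P.ld.own (4 * p + i) = pt (K.P.En i (p / 4)) i := by
      show pt (K.P.En _ _) _ = _
      rw [show (4 * p + i) % 4 = i by omega, show (4 * p + i) / 16 = p / 4 by omega]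
      unfold pt
      omega
    unfold Rn.short Rn.ent at *
    rw [hn, ← o] at s ⊢
    obtain ⟨t, l, w⟩ := I.li.en_ex hq v s
    exact ⟨t, l, by rw [w]; omega⟩
  · have := (I.li.rg _ (I.li.vl e k).2 _ (I.li.mem e k)).1
    rw [Ld.slot, zl_mk _ (I.li.vl e k).1] at this
    exact Nat.ne_of_gt this

theorem twiS : TwiS := fun M P j ls g h I => by
  have H := I.ok
  have G := I.geo
  have G' := geo_tw H G h
  have t4 : ∀ g e, te g e / 4 = tp g (e / 4) ∧ te g e % 4 = fp g (e % 4) := fun g e => by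
    have := fp_lt g (e % 4)
    unfold te
    omega
  have b1 : Bij (16 * M.n) (te g) (te (gi g)) := fun a ha => by
    have := tp_div g (a / 4)
    have := tp_div (gi g) (a / 4)
    have := t4 g a
    have := t4 (gi g) a
    refine ⟨by omega, by omega, ?_, ?_⟩ <;> rw [te, (t4 _ a).1, (t4 _ a).2]
    · rw [(tp_tp h _).2, (fp_fp h _).2]
      omega
    · rw [(tp_tp h _).1, (fp_fp h _).1]
      omega
  have b2 : Bij (16 * M.n) (tp g) (tp (gi g)) := fun a ha => by
    have := tp_div g a
    have := tp_div (gi g) a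
    exact ⟨by omega, by omega, (tp_tp h a).2, (tp_tp h a).1⟩
  obtain ⟨ls', k1, k2⟩ := I.li.tw b1 b2
  have fm : ∀ y, fp g (y % 4) = fp g y := fun y => (fp_inj h).2 (Nat.mod_mod _ _)
  obtain ⟨l1, l2⟩ := k1.congr (D' := (P.tw M.n g).ld) (fun a => by
      show (P.tw M.n g).prb _ ∧ _ ↔ _ ∧ P.prb _ ∧ _
      rw [prbS _ _ (tw_ok H h) G', prbS _ _ H G, tw_prb H h, (t4 g a).1]
      have e : (tp g (a / 4) + te g a) % 2 = 1 ↔ (a / 4 + a) % 2 = 1 := by
        unfold te tp fp
        split_ifs <;> omega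
      rw [e]
      refine (and_iff_right_of_imp fun k => ?_).symm
      have := H.lt _ k.1.1
      rw [tp_div] at this
      omega) (fun a _ => by
      show pt (P.En _ _) a = tp _ (pt (P.En _ _) _)
      have := tp_div g (a / 4)
      have := t4 g a
      rw [tp_pt, (t4 g a).2, show te g a / 16 = a / 16 by omega]
      refine Fl.pt_cg _ ?_
      rw [← (fp_inj (gi_lt h)).2 (Nat.mod_mod (te g a) 4), (t4 g a).2, (fp_fp h _).1]
      omega) (fun y => by
      show P.al _ ∧ P.En _ _ = _ ↔ _ ∧ P.al _ ∧ _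
      rw [tp_div, tp_mod, fm]
      refine (and_iff_right_of_imp fun k => ?_).symm
      have := H.lt _ (G.al ▸ k.1)
      omega) rfl rfl
  exact ⟨ls', ⟨tw_ok H h, G', l1⟩, l2.trans k2⟩

end Pool.Agent.MP_1a6d78_lc.PG
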