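import Pool.Agent.MP_1a6d78_lc.PG.LKpay
import Pool.Agent.MP_1a6d78_lc.PG.LCpay
import Pool.Agent.MP_1a6d78_lc.PG.LTwi
import Pool.Agent.MP_1a6d78_lc.PG.KAll
import Pool.Agent.MP_1a6d78_lc.PG.CutF

/-! PROJECT PG: the two rounds keep the invariant. -/

namespace Pool.Agent.MP_1a6d78_lc.PG

open Classical ED PR SC GL Ct

noncomputable section

variable {M : Cm} {P : Pr} {j q z c g : ℕ} {ls : ℕ → List ℕ}

theorem big {n j q k : ℕ} (h : 16 * n * (2 * j + 4) < q) (hk : k ≤ 2) :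
    16 * n * (2 * j + k + 2) < q := (Nat.mul_le_mul_left _ (by omega)).trans_lt h

theorem cutRound (K : Rn) (e : K.n = M.n) (I : Inv M K.P K.j ls) (hq : 16 * M.n * (K.j + 2) < K.q) :
    ∃ N ls', M.Cutm N K.ccut ∧ N.mu = M.mu ∧ Inv N K.cut (K.j + 1) ls' ∧
      K.cut.tot M.n ls' ≤ K.P.tot M.n ls + 16 * M.mu ∧
      ∀ v, K.ccut v ↔ K.P.En 0 v = v ∧ M.Cond K.z v ∧ K.short 0 v ∧ K.short 1 (K.cg v) := by
  obtain ⟨N, h1, h2, h3, h4, h5⟩ := cutS K M (hyS K M _ ls e I hq)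
  obtain ⟨k1, k2, -⟩ := (sCutEx M I.ok).1 N K.ccut fun v k => ((h5 v).1 k).2.1.ring
  have mu := (sCutR M N _ I.ok h2 k1 (k2.1 h1)).mu
  obtain ⟨ls', J, t⟩ := Rd.step (K := K.crd) (ls := ls) (by
    show LI (16 * K.n) K.P.ld K.j ls
    rw [e]; exact I.li) h4
  have v := (cnt_mono fun a (_ : a < 16 * N.n) => h4.iv a).trans (vcntS N K.cut h2 h3)
  rw [h1.n, mu] at v
  refine ⟨N, ls', h1, mu, ⟨h2, h3, by rw [h1.n, ← e]; exact J⟩, ?_, h5⟩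
  have t' : GL.tot (16 * K.n) K.cut.hv ls' ≤ GL.tot (16 * K.n) K.P.hv ls +
    cnt (16 * K.n) K.crd.ins := t
  rw [e] at t'
  exact t'.trans (Nat.add_le_add_left v _)

theorem killRound (K : Rn) (e : K.n = M.n) (I : Inv M K.P K.j ls)
    (hq : 16 * M.n * (K.j + 2) < K.q) : ∃ N ls', M.Smo N (M.Dead K.sel) ∧ M.Fam K.sel ∧
      Inv N K.kill (K.j + 1) ls' ∧ K.kill.tot M.n ls' ≤ K.P.tot M.n ls + 16 * N.mu := by
  obtain ⟨N, h1, h2, h5, h3, h4⟩ := killS K M (hyS K M _ ls e I hq)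
  obtain ⟨ls', J, t⟩ := Rd.step (K := K.rd) (ls := ls) (by
    show LI (16 * K.n) K.P.ld K.j ls
    rw [e]; exact I.li) h4
  have v := (cnt_mono fun a (_ : a < 16 * N.n) => h4.iv a).trans (vcntS N K.kill h2 h3)
  rw [h1.n] at v
  refine ⟨N, ls', h1, h5, ⟨h2, h3, by rw [h1.n, ← e]; exact J⟩, ?_⟩
  have t' : GL.tot (16 * K.n) K.kill.hv ls' ≤ GL.tot (16 * K.n) K.P.hv ls +
    cnt (16 * K.n) K.rd.ins := t
  rw [e] at t'
  exact t'.trans (Nat.add_le_add_left v _)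

theorem garb_inv {h : ℕ → Prop} {ls' : ℕ → List ℕ} (I : Inv M P (2 * j) ls)
    (J : LI (16 * M.n) (P.ld.garb (16 * M.n) h) (2 * j + 1) ls') :
    Inv M (P.garb M.n h) (2 * (j + 1)) ls' :=
  ⟨I.ok, ⟨I.geo.al, I.geo.lam, I.geo.nm, I.geo.FE, I.geo.F⟩, J.up⟩

theorem ar0 {a b d K : ℕ} (h : b + d ≤ a) (k : a ≤ K * d) : b * K ≤ a * (K - 1) := by
  rw [Nat.mul_sub, mul_one]
  exact Nat.le_sub_of_add_le (by nlinarith [Nat.mul_le_mul_right K h])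

end

end Pool.Agent.MP_1a6d78_lc.PG
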