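import Pool.Agent.MP_1a6d78_lc.PG.MKill
import Pool.Agent.MP_1a6d78_lc.PG.AlgC

/-! PROJECT PG: the cut round is computable. -/

namespace Pool.Agent.MP_1a6d78_lc.PG

open Classical ED PR SC GL

variable {κ m β : List Bool → ℕ} {i a b e r : EN} {A B : ES}

namespace KL

variable {c : ℕ} {K : List Bool → Orc → Env → Rn} (H : KC κ m β c fun x g ρ => (K x g ρ).wc c)
include H

theorem cg (ha : Nq κ m β a) : Nq κ m β fun x g ρ => ((K x g ρ).wc c).cg (a x g ρ) :=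
  H.P.En (Q.c 1) (H.P.FE (Q.c 0) ha (Q.c 3))

theorem con (ha : Nq κ m β a) (hi : Nq κ m β i) (hb : Nq κ m β b) :
    Pq κ m β fun x g ρ => ((K x g ρ).wc c).con (a x g ρ) (i x g ρ) (b x g ρ) :=
  H.P.On H.n hb hi (H.P.ring (Q.c 0) ha)

theorem cx (ha : Nq κ m β a) (hb : Nq κ m β b) :
    Pq κ m β fun x g ρ => ((K x g ρ).wc c).cx (a x g ρ) (b x g ρ) :=
  Q.or (con H ha (Q.c 0) hb) (Q.lt (H.P.early H.n (Q.c 1) hb (Q.c 0) (Q.c 1) (Q.c 0)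
    (fun _ => H.P.ring (Q.c 0) ha) 1) H.n)

theorem ccut (ha : Nq κ m β a) : Pq κ m β fun x g ρ => ((K x g ρ).wc c).ccut (a x g ρ) :=
  have u := H.ent (Q.c 1) (cg H ha)
  Q.and (Q.eq (H.P.En (Q.c 0) ha) ha) (Q.and (Q.lt (H.P.FE (Q.c 0) ha (Q.c 0)) H.n)
    (Q.and (Q.lt (H.P.FE (Q.c 0) ha (Q.c 3)) H.n) (Q.and (H.short (Q.c 0) ha)
      (Q.and (H.short (Q.c 1) (cg H ha)) (Q.and (Q.or (Q.eq (H.P.En (Q.c 0) H.z) ha)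
        (U.ex c fun t => Q.eq (H.P.En (Q.c 0) (d4 (u t))) ha))
        (Q.and (U.all c fun t => Q.imp (Q.lt (u t) H.n4) (Q.or (Q.and (Q.eq (m4 (u t)) (Q.c 0))
          (Q.or (con H ha (Q.c 0) (d4 (u t))) (con H ha (Q.c 3) (d4 (u t)))))
          (cx H ha (d4 (u t))))) (Q.not (cx H ha (H.P.FE (Q.c 0) ha (Q.c 3))))))))))

theorem cis (hi : Nq κ m β i) (ha : Nq κ m β a) :
    Pq κ m β fun x g ρ => ((K x g ρ).wc c).cis (i x g ρ) (a x g ρ) :=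
  Q.and (ccut H (H.P.En (Q.c 0) ha)) (con H (H.P.En (Q.c 0) ha) hi ha)

theorem ck (ha : Nq κ m β a) : Nq κ m β fun x g ρ => ((K x g ρ).wc c).ck (a x g ρ) :=
  Q.ite (con H (H.P.En (Q.c 0) ha) (Q.c 0) ha) (Q.c 0) (Q.c 3)

theorem cc (ha : Nq κ m β a) (t : ℕ) : Nq κ m β fun x g ρ => ((K x g ρ).wc c).cc (a x g ρ) t :=
  H.P.En (Q.c 0) (Q.ite (U.cP (t < c)) (d4 (H.ent (Q.c 1) (H.P.En (Q.c 1) ha) t))
    (Q.ite (U.cP (t = c)) H.z ha))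

theorem cb (ha : Nq κ m β a) (t : ℕ) : Sv κ m β fun x g ρ => ((K x g ρ).wc c).cb (a x g ρ) t :=
  Sv.ite (ccut H (cc H ha t)) (H.P.ring (Q.c 0) (cc H ha t)) (Sv.junk H.n)

theorem ch (hi : Nq κ m β i) (ha : Nq κ m β a) (hb : Nq κ m β b) (he : Nq κ m β e) :
    Nq κ m β fun x g ρ => ((K x g ρ).wc c).ch (i x g ρ) (a x g ρ) (b x g ρ) (e x g ρ) :=
  Q.ite (cis H ha he) he (H.P.early H.n hi he ha hb ha (cb H he) (c + 2))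

theorem cdiv (hi : Nq κ m β i) (ha : Nq κ m β a) :
    Nq κ m β fun x g ρ => ((K x g ρ).wc c).cdiv (i x g ρ) (a x g ρ) :=
  Q.ite (Q.eq hi (Q.c 0)) (Q.ite (Q.lt (ch H (Q.c 0) (Q.c 0) (Q.c 3) ha) H.n)
    (ch H (Q.c 0) (Q.c 0) (Q.c 3) ha) (ch H (Q.c 0) (Q.c 3) (Q.c 0) ha))
    (Q.ite (Q.eq hi (Q.c 1)) (ch H (Q.c 1) (Q.c 0) (Q.c 1) ha)
      (Q.ite (Q.eq hi (Q.c 3)) (ch H (Q.c 3) (Q.c 3) (Q.c 2) ha) H.n))

theorem cpv (ha : Nq κ m β a) (hr : Nq κ m β r) :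
    Nq κ m β fun x g ρ => ((K x g ρ).wc c).cpv (a x g ρ) (r x g ρ) :=
  have u := Q.sub (Q.c 3) ha
  Q.ite (con H (H.P.En (Q.c 0) hr) ha hr) hr (H.P.early H.n (epC (Q.c 0) u) hr u u ha
    (fun _ => H.P.ring (Q.c 0) (H.P.En (Q.c 0) hr)) 1)

theorem clam (ha : Nq κ m β a) : Nq κ m β fun x g ρ => ((K x g ρ).wc c).clam (a x g ρ) :=
  have k := ck H (d4 ha)
  Q.ite (Q.and (cis H k (d4 ha)) (Q.eq (m4 ha) (Q.c 0)))
    (ptC (H.P.FE (Q.c 0) (d4 ha) k) (epC (Q.c 0) k))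
    (Q.ite (Q.and (cis H k (d4 ha)) (Q.eq (m4 ha) (epC (Q.c 0) k)))
      (Q.mul (Q.c 4) (cpv H k (d4 (H.P.lam ha)))) (H.P.lam ha))

theorem cEn (hi : Nq κ m β i) (ha : Nq κ m β a) :
    Nq κ m β fun x g ρ => ((K x g ρ).wc c).cEn (i x g ρ) (a x g ρ) :=
  have d := cdiv H hi ha
  Q.ite (Q.lt d H.n) (H.P.FE (Q.c 0) (H.P.En (Q.c 0) d) (ck H d)) (H.P.En hi ha)

theorem cr (hi : Nq κ m β i) (ha : Nq κ m β a) :
    Nq κ m β fun x g ρ => ((K x g ρ).wc c).cr (i x g ρ) (a x g ρ) :=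
  d4 (clam H (ptC (cdiv H hi ha) hi))

theorem cFE (hi : Nq κ m β i) (ha : Nq κ m β a) (hb : Nq κ m β b) :
    Nq κ m β fun x g ρ => ((K x g ρ).wc c).cFE (i x g ρ) (a x g ρ) (b x g ρ) :=
  have d := cdiv H hi ha
  have f := H.P.FE hi ha hb
  Q.ite (Q.and (Q.lt d H.n) (Q.not (Q.and (Q.ne f ha) (H.P.On H.n f hb (Sv.mk' hi ha hb d)))))
    (Q.ite (Q.eq hb (ck H d)) (cr H hi ha) H.n) f

theorem cnp (hA : Sv κ m β A) : Nq κ m β fun x g ρ => ((K x g ρ).wc c).cnp (A x g ρ) :=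
  have d := cdiv H hA.i hA.p
  Q.ite (Q.and (Q.lt d H.n) (Q.not (H.P.OnC H.n hA.q (Sv.mk' hA.i hA.p hA.s d)))) (Q.c 1) (Q.c 0)

omit H in
theorem cnp_le (K : Rn) (A : Sg) : K.cnp A ≤ 1 := by
  unfold Rn.cnp
  split_ifs <;> omega

theorem cpc (hA : Sv κ m β A) (ha : Nq κ m β a) (k : ℕ) :
    Sv κ m β fun x g ρ => ((K x g ρ).wc c).cpc (A x g ρ) (a x g ρ) k :=
  have d := cdiv H hA.i hA.p
  have u := cr H hA.i hA.p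
  Sv.ite (Q.eq (cnp H hA) (Q.c 0)) hA (Sv.ite (U.cP (k = 0)) (Sv.mk' hA.i hA.p hA.s d)
    (Sv.ite (Q.eq ha (ck H d)) (Sv.ite (Q.eq hA.i (Q.c 0)) (Sv.mk' (Q.c 0) u ha hA.q)
      (Sv.mk' (Q.c 0) hA.q ha u)) (Sv.junk H.n)))

theorem cN : PC κ m β fun x g ρ => ((K x g ρ).wc c).cN :=
  ⟨H.P.al, clam H, cEn H, cFE H,
    H.P.genF H.n 1 H.P.al (cnp H) (fun x g ρ => cnp_le ((K x g ρ).wc c)) (cpc H)
      fun hA k => Bv.dec (Q.and (Q.ne hA.i (Q.c 0)) (U.cP (k = 1))),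
    H.P.next, H.P.cur, H.P.rs⟩

theorem cins (ha : Nq κ m β a) : Pq κ m β fun x g ρ => ((K x g ρ).wc c).cins (a x g ρ) :=
  Q.and ((cN H).val ha) (Q.or (Q.lt (cdiv H (m4 ha) (Q.div ha (Q.c 16))) H.n) (Q.not (H.P.val ha)))

theorem cren (ha : Nq κ m β a) : Nq κ m β fun x g ρ => ((K x g ρ).wc c).cren (a x g ρ) :=
  Q.ite (Q.lt (cdiv H (m4 ha) (d4 ha)) H.n) H.n16 (ptC (H.P.En (m4 ha) (d4 ha)) ha)

theorem can (ha : Nq κ m β a) : Nq κ m β fun x g ρ => ((K x g ρ).wc c).can (a x g ρ) :=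
  Q.ite (Q.lt (cdiv H (m4 ha) (Q.div ha (Q.c 16))) H.n) (codeC H.n16 (Q.c 0) ((cN H).own ha))
    (H.P.ld.slot H.n16 (ptC (H.P.lam (clam H (d4 ha))) ha))

theorem cnx (ha : Nq κ m β a) (t : ℕ) : Nq κ m β fun x g ρ => ((K x g ρ).wc c).cnx (a x g ρ) t :=
  Q.ite (U.cP (t < c)) (H.ent (Q.c 0) ha t) (Q.ite (U.cP (t < 2 * c))
    (H.ent (Q.c 1) (cg H ha) (t - c)) (clam H (H.ent (Q.c 0) ha (t - 2 * c))))

theorem cNx (ha : Nq κ m β a) (t : ℕ) : Nq κ m β fun x g ρ => ((K x g ρ).wc c).cNx (a x g ρ) t :=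
  have u := zeC H.n16 ha
  ptC (Q.ite (Q.eq (zlC H.n16 ha) (Q.c 0)) (cnx H (H.P.En (Q.c 0) (d4 u)) t)
    (clam H (H.P.lam (d4 u)))) u

theorem crd : RC κ m β (3 * c + 1) fun x g ρ => ((K x g ρ).wc c).crd :=
  ⟨fun _ _ _ => rfl, H.n16, H.j, H.P.ld, cins H, cren H, can H, fun t _ h => cNx H h t⟩

theorem cut : PC κ m β fun x g ρ => ((K x g ρ).wc c).cut :=
  ⟨(cN H).al, (cN H).lam, (cN H).En, (cN H).FE, (cN H).F, (crd H).next, (crd H).cur, (cN H).rs⟩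

end KL

theorem KC.cut {c : ℕ} {K : List Bool → Orc → Env → Rn} (H : KC κ m β c K) :
    PC κ m β fun x g ρ => (K x g ρ).cut := by
  have := H.wc
  rw [this] at H ⊢
  exact KL.cut H

end Pool.Agent.MP_1a6d78_lc.PG
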