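import Pool.Agent.MP_1a6d78_lc.PG.MPr

/-! PROJECT PG: the kill round is computable. -/

namespace Pool.Agent.MP_1a6d78_lc.PG

open Classical ED PR SC GL

/-- The round with the constant `c`. -/
def Rn.wc (K : Rn) (c : ℕ) : Rn := { K with c := c }

variable {κ m β : List Bool → ℕ} {i a b e r : EN} {A B : ES}

theorem KC.wc {c : ℕ} {K : List Bool → Orc → Env → Rn} (H : KC κ m β c K) :
    K = fun x g ρ => (K x g ρ).wc c := by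
  funext x g ρ
  rw [← H.c x g ρ]
  rfl

namespace KL

variable {c : ℕ} {K : List Bool → Orc → Env → Rn} (H : KC κ m β c fun x g ρ => (K x g ρ).wc c)
include H

theorem links (ha : Nq κ m β a) (t : ℕ) :
    Nq κ m β fun x g ρ => ((K x g ρ).wc c).links (a x g ρ) t :=
  have u := Q.ite (i := fun _ _ _ => Nat.decLt (t / 2) c) (U.cP (t / 2 < c))
    (H.ent (Q.c 0) ha (t / 2)) (H.ent (Q.c 1) (H.P.En (Q.c 1) ha) (t / 2 - c))
  Q.ite (U.cP (t % 2 = 0)) u (H.P.lam u)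

theorem own0 (ha : Nq κ m β a) : Nq κ m β fun x g ρ => ((K x g ρ).wc c).own0 (a x g ρ) :=
  H.P.En (Q.c 0) (H.P.En (Q.mod (Q.add ha (Q.c 1)) (Q.c 2)) (d4 ha))

theorem sel (ha : Nq κ m β a) : Pq κ m β fun x g ρ => ((K x g ρ).wc c).sel (a x g ρ) :=
  Q.and (H.P.al ha) (Q.and (Q.eq (H.P.En (Q.c 0) ha) ha) (Q.and (Q.eq (H.P.FE (Q.c 0) ha (Q.c 3)) H.n)
    (Q.and (H.h ha) (Q.and (H.short (Q.c 0) ha) (Q.and (H.short (Q.c 1) (H.P.En (Q.c 1) ha))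
      (U.all (4 * c) fun t => Q.imp (Q.lt (links H ha t) H.n4)
        (Q.or (Q.eq (own0 H (links H ha t)) ha) (Q.not (H.h (own0 H (links H ha t)))))))))))

theorem obj (hi : Nq κ m β i) (ha : Nq κ m β a) :
    Nq κ m β fun x g ρ => ((K x g ρ).wc c).obj (i x g ρ) (a x g ρ) :=
  Q.ite (Q.and (Q.eq (H.P.FE hi (H.P.En hi ha) (hsC hi)) H.n) (sel H (H.P.En (Q.c 0) (H.P.En hi ha))))
    (H.P.En (Q.c 0) (H.P.En hi ha)) H.n

theorem C (ha : Nq κ m β a) (t : ℕ) : Nq κ m β fun x g ρ => ((K x g ρ).wc c).C (a x g ρ) t :=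
  Q.ite (U.cP (t < 4 * c)) (d4 (links H ha t)) (H.P.FE (Q.c (2 + t % 2)) (H.P.En (Q.c (2 + t % 2))
    (Q.ite (U.cP ((t - 4 * c) / 2 = 4 * c)) ha (d4 (links H ha ((t - 4 * c) / 2)))))
    (Q.c (hs (2 + t % 2))))

theorem meets (ha : Nq κ m β a) (hr : Nq κ m β r) (hb : Nq κ m β b) :
    Pq κ m β fun x g ρ => ((K x g ρ).wc c).meets (a x g ρ) (r x g ρ) (b x g ρ) :=
  Q.or (H.P.pa H.n (Q.c 0) ha hb) (Q.lt (H.P.early H.n (Q.c 0) ha hr (Q.c 3) (Q.c 2)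
    (H.P.fu (Q.c 3) hb (Q.c 3)) 2) H.n)

theorem hop (ha : Nq κ m β a) : Nq κ m β fun x g ρ => ((K x g ρ).wc c).hop (a x g ρ) :=
  Q.ite (Q.lt (H.P.FE (Q.c 0) ha (Q.c 3)) H.n) (H.P.FE (Q.c 2) (H.P.FE (Q.c 0) ha (Q.c 3)) (Q.c 1))
    ha

theorem G (ha : Nq κ m β a) (k t : ℕ) :
    Pq κ m β fun x g ρ => ((K x g ρ).wc c).G k (a x g ρ) t := by
  induction k generalizing t with
  | zero => exact Q.lt (C H ha t) H.n
  | succ k ih =>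
    have u := fun r => U.it (f := fun x g ρ => ((K x g ρ).wc c).hop) r H.n (hop H) (C H ha t)
    exact Q.and (Q.lt (C H ha t) H.n) (U.ex (12 * c + 2 + 1) fun r =>
      Q.or (Q.ne (H.P.En (Q.c 0) (u r)) ha) (U.ex (12 * c + 2) fun t' =>
        Q.and (ih t') (meets H (H.P.FE (Q.c 0) (u r) (Q.c 3)) (Q.c 3) (C H ha t'))))

theorem gd (ha : Nq κ m β a) (t : ℕ) : Nq κ m β fun x g ρ => ((K x g ρ).wc c).gd (a x g ρ) t :=
  Q.ite (G H ha (12 * c + 2) t) (C H ha t) H.n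

theorem al' (ha : Nq κ m β a) : Pq κ m β fun x g ρ => ((K x g ρ).wc c).al' (a x g ρ) :=
  Q.and (H.P.al ha) (Q.or (Q.eq (obj H (Q.c 0) ha) H.n) (U.ex (12 * c + 2) fun t =>
    meets H ha (Q.c 0) (gd H (obj H (Q.c 0) ha) t)))

theorem wall (hi : Nq κ m β i) (ha : Nq κ m β a) (t : ℕ) :
    Sv κ m β fun x g ρ => ((K x g ρ).wc c).wall (i x g ρ) (a x g ρ) t :=
  H.P.fu hi (gd H ha (t / 2)) (hsC hi) (t % 2)

theorem hits (hi : Nq κ m β i) (ha : Nq κ m β a) :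
    Nq κ m β fun x g ρ => ((K x g ρ).wc c).hits (i x g ρ) (a x g ρ) :=
  H.P.early H.n hi ha (Q.c 2) (Q.c 2) (hsC (Q.sub (Q.c 5) hi))
    (wall H (Q.sub (Q.c 5) hi) (obj H (Q.c 0) ha)) (2 * (12 * c + 2))

theorem nxa (hi : Nq κ m β i) (ha : Nq κ m β a) :
    Nq κ m β fun x g ρ => ((K x g ρ).wc c).nxa (i x g ρ) (a x g ρ) :=
  have s := H.P.st hi ha
  have f := H.P.FE hi s (hsC hi)
  Q.ite (al' H s) (H.P.lam (ptC ha hi)) (Q.ite (Q.and (Q.lt f H.n) (Q.not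
    (H.P.On H.n (hits H hi s) (Q.c 2) (Sv.mk' hi s (Q.c 2) f)))) (ptC f (epC hi (hsC hi)))
    (ptC (hits H hi s) (epC hi (Q.c 2))))

theorem lam' (ha : Nq κ m β a) : Nq κ m β fun x g ρ => ((K x g ρ).wc c).lam' (a x g ρ) :=
  Q.ite (al' H (d4 ha)) (Q.ite (Q.le (Q.c 2) (m4 ha)) (nxa H (m4 ha) (d4 ha))
    (Q.ite (al' H (d4 (H.P.lam ha))) (H.P.lam ha)
      (nxa H (Q.sub (Q.c 5) (m4 (H.P.lam ha))) (d4 (H.P.lam ha))))) H.n4

theorem FEd (hi : Nq κ m β i) (ha : Nq κ m β a) (hb : Nq κ m β b) :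
    Nq κ m β fun x g ρ => ((K x g ρ).wc c).FEd (i x g ρ) (a x g ρ) (b x g ρ) :=
  have f := H.P.FE hi ha hb
  Q.ite (Q.and (Q.eq hb (Q.c 2)) (Q.and (Q.lt f H.n) (Q.not (al' H f)))) (hits H hi f) f

theorem cq (hi : Nq κ m β i) (ha : Nq κ m β a) (t : ℕ) :
    Nq κ m β fun x g ρ => ((K x g ρ).wc c).cq (i x g ρ) (a x g ρ) t :=
  Q.ite (U.cP (t < 12 * c + 2)) (gd H (obj H hi ha) t) (H.P.st (epC hi (hsC hi))
    (H.P.F (Bv.c false) (hsC hi) (Q.c 2) (H.P.fu hi ha (Q.c 0) 0)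
      (wall H (Q.sub (Q.c 3) hi) (obj H hi ha) (t - (12 * c + 2)))))

theorem dq (hi : Nq κ m β i) (ha : Nq κ m β a) :
    Nq κ m β fun x g ρ => ((K x g ρ).wc c).dq (i x g ρ) (a x g ρ) :=
  U.atl (f := fun x g ρ t => ((K x g ρ).wc c).cq (i x g ρ) (a x g ρ) t) (3 * (12 * c + 2))
    (cq H hi ha) fun t => Q.and (H.P.pa H.n hi ha (cq H hi ha t)) (Q.and (al' H (cq H hi ha t))
      (Q.not (al' H (H.P.st hi (cq H hi ha t)))))

theorem dg (hi : Nq κ m β i) (ha : Nq κ m β a) :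
    Nq κ m β fun x g ρ => ((K x g ρ).wc c).dg (i x g ρ) (a x g ρ) := lam' H (ptC (dq H hi ha) hi)

theorem hp (hi : Nq κ m β i) (ha : Nq κ m β a) :
    Pq κ m β fun x g ρ => ((K x g ρ).wc c).hp (i x g ρ) (a x g ρ) :=
  Q.eq (sdC hi (dg H hi ha)) (Q.c 0)

theorem tight (hi : Nq κ m β i) (ha : Nq κ m β a) (hb : Nq κ m β b) :
    Pq κ m β fun x g ρ => ((K x g ρ).wc c).tight (i x g ρ) (a x g ρ) (b x g ρ) :=
  Q.and (H.P.pa H.n hi ha hb) (Q.not (H.P.On H.n (FEd H hi ha (Q.c 2)) (Q.c 2)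
    (Sv.mk' hi ha (hsC hi) hb)))

theorem db (hi : Nq κ m β i) (ha : Nq κ m β a) :
    Nq κ m β fun x g ρ => ((K x g ρ).wc c).db (i x g ρ) (a x g ρ) :=
  U.atl (f := fun x g ρ t => ((K x g ρ).wc c).gd (((K x g ρ).wc c).obj (i x g ρ) (a x g ρ)) t)
    (12 * c + 2) (gd H (obj H hi ha)) fun t =>
      tight H (Q.sub (Q.c 3) hi) (gd H (obj H hi ha) t) (d4 (dg H hi ha))

theorem nx (hi : Nq κ m β i) (ha : Nq κ m β a) :
    Nq κ m β fun x g ρ => ((K x g ρ).wc c).nx (i x g ρ) (a x g ρ) :=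
  Q.ite (Q.eq (obj H hi ha) H.n) ha (Q.ite (hp H hi ha) (d4 (dg H hi ha)) (db H hi ha))

theorem dp (hi : Nq κ m β i) (ha : Nq κ m β a) (k : ℕ) :
    Nq κ m β fun x g ρ => ((K x g ρ).wc c).dp (i x g ρ) (a x g ρ) k :=
  U.it (f := fun x g ρ => ((K x g ρ).wc c).nx (i x g ρ)) k H.n (nx H hi) ha

theorem ds (hi : Nq κ m β i) (ha : Nq κ m β a) (hb : Nq κ m β b) (k : ℕ) :
    Nq κ m β fun x g ρ => ((K x g ρ).wc c).ds (i x g ρ) (a x g ρ) (b x g ρ) k :=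
  Q.ite (U.cP (k = 0)) hb (Q.ite (hp H hi (dp H hi ha (k - 1))) (Q.c 0) (hsC hi))

theorem pf (hi : Nq κ m β i) (ha : Nq κ m β a) (hb : Nq κ m β b) (k : ℕ) :
    Sv κ m β fun x g ρ => ((K x g ρ).wc c).pf (i x g ρ) (a x g ρ) (b x g ρ) k :=
  have d := dp H hi ha (k / 2)
  Sv.ite (U.cP (k % 2 = 0)) (Sv.mk' hi d (ds H hi ha hb (k / 2)) (dq H hi d))
    (Sv.ite (hp H hi d) (Sv.junk H.n)
      (Sv.mk' (Q.sub (Q.c 3) hi) (db H hi d) (hsC hi) (d4 (dg H hi d))))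

theorem onp (hi : Nq κ m β i) (ha : Nq κ m β a) (hb : Nq κ m β b) :
    Pq κ m β fun x g ρ => ((K x g ρ).wc c).onp (i x g ρ) (a x g ρ) (b x g ρ) :=
  U.ex (2 * (12 * c + 2 + 1)) fun k =>
    H.P.OnC H.n hb (pf H hi ha (Q.c 0) (2 * (12 * c + 2 + 1) + k))

theorem En' (hi : Nq κ m β i) (ha : Nq κ m β a) :
    Nq κ m β fun x g ρ => ((K x g ρ).wc c).En' (i x g ρ) (a x g ρ) :=
  have d := dp H hi ha (12 * c + 2 + 1)
  have u := gd H (obj H hi ha)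
  Q.ite (al' H ha) (Q.ite (Q.le (Q.c 2) hi)
    (Q.ite (al' H (H.P.En hi ha)) (H.P.En hi ha) (d4 (nxa H hi (H.P.En hi ha))))
    (Q.ite (Q.eq (obj H hi d) H.n) (H.P.En hi d)
      (U.ata (f := fun x g ρ t => ((K x g ρ).wc c).gd (((K x g ρ).wc c).obj (i x g ρ) (a x g ρ)) t)
        (12 * c + 2) u fun t => Q.ite (onp H hi ha (u t)) (u t) H.n))) H.n

theorem fe (hi : Nq κ m β i) (ha : Nq κ m β a) (hb : Nq κ m β b) :
    Nq κ m β fun x g ρ => ((K x g ρ).wc c).fe (i x g ρ) (a x g ρ) (b x g ρ) :=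
  Q.ite (Q.or (Q.eq (obj H hi ha) H.n) (H.P.On H.n (H.P.FE hi ha hb) hb
    (Sv.mk' hi ha (Q.c 0) (dq H hi ha)))) (H.P.FE hi ha hb)
    (Q.ite (Q.eq (sdC hi (dg H hi ha)) hb) (d4 (dg H hi ha)) H.n)

theorem FE' (hi : Nq κ m β i) (ha : Nq κ m β a) (hb : Nq κ m β b) :
    Nq κ m β fun x g ρ => ((K x g ρ).wc c).FE' (i x g ρ) (a x g ρ) (b x g ρ) :=
  have u := fun k => fe H hi (dp H hi ha k) hb
  Q.ite (al' H ha) (Q.ite (Q.le (Q.c 2) hi) (FEd H hi ha hb)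
    (U.atl (f := fun x g ρ k => ((K x g ρ).wc c).fe (i x g ρ)
      (((K x g ρ).wc c).dp (i x g ρ) (a x g ρ) k) (b x g ρ)) (2 * (12 * c + 2 + 1)) u
      fun k => Q.lt (u k) H.n)) H.n

theorem np (hA : Sv κ m β A) : Nq κ m β fun x g ρ => ((K x g ρ).wc c).np (A x g ρ) :=
  Q.ite (Q.le (Q.c 2) hA.i) (Q.c 0) (U.lst (4 * (12 * c + 2 + 1)) fun k =>
    Q.or (Q.eq (obj H hA.i (dp H hA.i hA.p (k / 2))) H.n)
      (H.P.OnC H.n hA.q (pf H hA.i hA.p hA.s k)))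

omit H in
theorem np_le (K : Rn) (A : Sg) : K.np A ≤ 4 * (K.nc + 1) := by
  unfold Rn.np
  split_ifs
  · omega
  · exact U.lst_le' _ _

theorem pc (hA : Sv κ m β A) (k : ℕ) :
    Sv κ m β fun x g ρ => ((K x g ρ).wc c).pc (A x g ρ) (a x g ρ) k :=
  Sv.ite (Q.le (Q.c 2) hA.i) hA (Sv.ite (Q.eq (Q.c k) (np H hA))
    (Sv.ite (U.cP (k % 2 = 0)) (Sv.mk' hA.i (dp H hA.i hA.p (k / 2))
      (ds H hA.i hA.p hA.s (k / 2)) hA.q) (Sv.mk' (Q.sub (Q.c 3) hA.i) hA.q (hsC hA.i)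
        (d4 (dg H hA.i (dp H hA.i hA.p (k / 2)))))) (pf H hA.i hA.p hA.s k))

theorem N : PC κ m β fun x g ρ => ((K x g ρ).wc c).N :=
  ⟨al' H, lam' H, En' H, FE' H,
    H.P.genF H.n (4 * (12 * c + 2 + 1)) (al' H) (np H) (fun x g ρ => np_le ((K x g ρ).wc c))
      (fun hA _ => pc H hA) fun hA k => Bv.dec (Q.and (Q.lt hA.i (Q.c 2)) (U.cP (k % 2 = 1))),
    H.P.next, H.P.cur,
    Q.ite (Q.and (Q.eq H.P.rs (Q.c 0)) (Q.not (al' H H.z))) (Q.c 2) H.P.rs⟩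

theorem moved (hi : Nq κ m β i) (ha : Nq κ m β a) :
    Pq κ m β fun x g ρ => ((K x g ρ).wc c).moved (i x g ρ) (a x g ρ) :=
  Q.and (Q.lt hi (Q.c 2)) (Q.lt (obj H hi ha) H.n)

theorem ins (ha : Nq κ m β a) : Pq κ m β fun x g ρ => ((K x g ρ).wc c).ins (a x g ρ) :=
  Q.and ((N H).val ha) (Q.or (moved H (m4 ha) (Q.div ha (Q.c 16))) (Q.not (H.P.val ha)))

theorem ren (ha : Nq κ m β a) : Nq κ m β fun x g ρ => ((K x g ρ).wc c).ren (a x g ρ) :=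
  Q.ite (moved H (m4 ha) (d4 ha)) H.n16 (ptC (H.P.En (m4 ha) (d4 ha)) ha)

theorem up (ha : Nq κ m β a) : Nq κ m β fun x g ρ => ((K x g ρ).wc c).up (a x g ρ) :=
  obj H (Q.mod (Q.add ha (Q.c 1)) (Q.c 2)) (d4 ha)

theorem seen (ha : Nq κ m β a) : Nq κ m β fun x g ρ => ((K x g ρ).wc c).seen (a x g ρ) :=
  Q.ite (Q.lt (up H ha) H.n) (up H ha) (up H (H.P.lam ha))

theorem bp (ha : Nq κ m β a) (t : ℕ) : Nq κ m β fun x g ρ => ((K x g ρ).wc c).bp (a x g ρ) t :=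
  Q.ite (U.cP (t < 4 * (12 * c + 2))) (ptC (gd H ha (t / 4)) (Q.c t))
    (ptC (FEd H (Q.c (2 + t % 2)) (gd H ha ((t - 4 * (12 * c + 2)) / 2)) (Q.c 2))
      (Q.c (ep (2 + t % 2) 2)))

theorem nxp (ha : Nq κ m β a) (t : ℕ) : Nq κ m β fun x g ρ => ((K x g ρ).wc c).nxp (a x g ρ) t :=
  Q.ite (U.cP (t % 2 = 0)) (bp H ha (t / 2)) (lam' H (bp H ha (t / 2)))

theorem Nx (ha : Nq κ m β a) (t : ℕ) : Nq κ m β fun x g ρ => ((K x g ρ).wc c).Nx (a x g ρ) t :=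
  have u := zeC H.n16 ha
  ptC (nxp H (Q.ite (Q.eq (zlC H.n16 ha) (Q.c 0)) (obj H (m4 u) (d4 u)) (seen H (d4 u))) t) u

theorem an (ha : Nq κ m β a) : Nq κ m β fun x g ρ => ((K x g ρ).wc c).an (a x g ρ) :=
  have u := fun t => ptC (links H (up H (d4 ha)) t) ha
  Q.ite (moved H (m4 ha) (d4 ((N H).own ha))) (codeC H.n16 (Q.c 0) ((N H).own ha))
    (H.P.ld.slot H.n16 (U.atl (f := fun x g ρ t => pt (((K x g ρ).wc c).links
      (((K x g ρ).wc c).up (a x g ρ / 4)) t) (a x g ρ)) (4 * c) u fun t =>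
        Q.and (H.P.val (u t)) (Q.eq (H.P.own (u t)) (ren H ((N H).own ha)))))

theorem rd : RC κ m β (12 * (12 * c + 2)) fun x g ρ => ((K x g ρ).wc c).rd :=
  ⟨fun _ _ _ => rfl, H.n16, H.j, H.P.ld, ins H, ren H, an H, fun t _ h => Nx H h t⟩

theorem kill : PC κ m β fun x g ρ => ((K x g ρ).wc c).kill :=
  ⟨(N H).al, (N H).lam, (N H).En, (N H).FE, (N H).F, (rd H).next, (rd H).cur, (N H).rs⟩

end KL

theorem KC.kill {c : ℕ} {K : List Bool → Orc → Env → Rn} (H : KC κ m β c K) :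
    PC κ m β fun x g ρ => (K x g ρ).kill := by
  have := H.wc
  rw [this] at H ⊢
  exact KL.kill H

end Pool.Agent.MP_1a6d78_lc.PG
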