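import Pool.Agent.MP_1a6d78_lc.PG.Alg

/-! PROJECT PG: closure rules for the primitives and the derived programs. -/

namespace Pool.Agent.MP_1a6d78_lc.PG

open Classical ED PR SC GL

abbrev EB : Type := List Bool → Orc → Env → Bool

abbrev ES : Type := List Bool → Orc → Env → Sg

variable (κ m β : List Bool → ℕ)

def Bv (s : EB) : Prop := Pq κ m β fun x g ρ => s x g ρ = true

structure Sv (A : ES) : Prop where
  i : Nq κ m β fun x g ρ => (A x g ρ).i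
  p : Nq κ m β fun x g ρ => (A x g ρ).p
  s : Nq κ m β fun x g ρ => (A x g ρ).s
  q : Nq κ m β fun x g ρ => (A x g ρ).q

/-- The primitives of `P` are computable. -/
structure PC (P : List Bool → Orc → Env → Pr) : Prop where
  al : ∀ {a : EN}, Nq κ m β a → Pq κ m β fun x g ρ => (P x g ρ).al (a x g ρ)
  lam : ∀ {a : EN}, Nq κ m β a → Nq κ m β fun x g ρ => (P x g ρ).lam (a x g ρ)
  En : ∀ {i a : EN}, Nq κ m β i → Nq κ m β a →
    Nq κ m β fun x g ρ => (P x g ρ).En (i x g ρ) (a x g ρ)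
  FE : ∀ {i a b : EN}, Nq κ m β i → Nq κ m β a → Nq κ m β b →
    Nq κ m β fun x g ρ => (P x g ρ).FE (i x g ρ) (a x g ρ) (b x g ρ)
  F : ∀ {fl : EB} {a b : EN} {A B : ES}, Bv κ m β fl → Nq κ m β a → Nq κ m β b → Sv κ m β A →
    Sv κ m β B → Nq κ m β fun x g ρ => (P x g ρ).F (fl x g ρ) (a x g ρ) (b x g ρ) (A x g ρ) (B x g ρ)
  next : ∀ {a : EN}, Nq κ m β a → Nq κ m β fun x g ρ => (P x g ρ).next (a x g ρ)
  cur : ∀ {a : EN}, Nq κ m β a → Nq κ m β fun x g ρ => (P x g ρ).cur (a x g ρ)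
  rs : Nq κ m β fun x g ρ => (P x g ρ).rs

/-- The data of a round are computable, `c` is a constant. -/
structure KC (c : ℕ) (K : List Bool → Orc → Env → Rn) : Prop where
  P : PC κ m β fun x g ρ => (K x g ρ).P
  n : Nq κ m β fun x g ρ => (K x g ρ).n
  z : Nq κ m β fun x g ρ => (K x g ρ).z
  c : ∀ x g ρ, (K x g ρ).c = c
  q : Nq κ m β fun x g ρ => (K x g ρ).q
  j : Nq κ m β fun x g ρ => (K x g ρ).j
  h : ∀ {a : EN}, Nq κ m β a → Pq κ m β fun x g ρ => (K x g ρ).h (a x g ρ)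

variable {κ m β} {n i a b e r : EN} {s t : EB} {A B : ES}

namespace Bv

theorem dec {P : EP} {i : ∀ x g ρ, Decidable (P x g ρ)} (h : Pq κ m β P) :
    Bv κ m β fun x g ρ => @decide (P x g ρ) (i x g ρ) := Q.cgP h fun _ _ _ => by simp

theorem c (u : Bool) : Bv κ m β fun _ _ _ => u := U.cP _

theorem xor (h : Bv κ m β s) (k : Bv κ m β t) :
    Bv κ m β fun x g ρ => xor (s x g ρ) (t x g ρ) :=
  Q.cgP (Q.not (U.iff h k)) fun x g ρ => by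
    show ¬(s x g ρ = true ↔ t x g ρ = true) ↔ (s x g ρ ^^ t x g ρ) = true
    cases s x g ρ <;> cases t x g ρ <;> simp

theorem not (h : Bv κ m β s) : Bv κ m β fun x g ρ => !s x g ρ :=
  Q.cgP (Q.not h) fun _ _ _ => by simp

end Bv

theorem ptC (ha : Nq κ m β a) (hb : Nq κ m β b) : Nq κ m β fun x g ρ => pt (a x g ρ) (b x g ρ) :=
  Q.add (Q.mul (Q.c 4) ha) (Q.mod hb (Q.c 4))

theorem d4 (ha : Nq κ m β a) : Nq κ m β fun x g ρ => a x g ρ / 4 := Q.div ha (Q.c 4)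

theorem m4 (ha : Nq κ m β a) : Nq κ m β fun x g ρ => a x g ρ % 4 := Q.mod ha (Q.c 4)

theorem a4 (ha : Nq κ m β a) (k : ℕ) : Nq κ m β fun x g ρ => (a x g ρ + k) % 4 :=
  m4 (Q.add ha (Q.c k))

theorem sdC (ha : Nq κ m β a) (hb : Nq κ m β b) : Nq κ m β fun x g ρ => sd (a x g ρ) (b x g ρ) :=
  Q.ite (Q.eq (m4 hb) (a4 ha 1)) (m4 ha) (a4 ha 3)

theorem epC (ha : Nq κ m β a) (hb : Nq κ m β b) : Nq κ m β fun x g ρ => ep (a x g ρ) (b x g ρ) :=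
  Q.ite (Q.eq (m4 hb) (m4 ha)) (a4 ha 1) (a4 ha 3)

theorem hsC (ha : Nq κ m β a) : Nq κ m β fun x g ρ => hs (a x g ρ) :=
  Q.ite (Q.or (Q.eq ha (Q.c 0)) (Q.eq ha (Q.c 3))) (Q.c 3) (Q.c 1)

theorem fpC (ha : Nq κ m β a) (hb : Nq κ m β b) : Nq κ m β fun x g ρ => fp (a x g ρ) (b x g ρ) :=
  Q.ite (Q.lt ha (Q.c 4)) (m4 (Q.add ha hb)) (m4 (Q.sub (Q.add ha (Q.c 4)) (m4 hb)))

theorem fsC (ha : Nq κ m β a) (hb : Nq κ m β b) : Nq κ m β fun x g ρ => fs (a x g ρ) (b x g ρ) :=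
  Q.ite (Q.lt ha (Q.c 4)) (m4 (Q.add ha hb)) (m4 (Q.sub (Q.add ha (Q.c 3)) (m4 hb)))

theorem giC (ha : Nq κ m β a) : Nq κ m β fun x g ρ => gi (a x g ρ) :=
  Q.ite (Q.lt ha (Q.c 4)) (m4 (Q.sub (Q.c 4) ha)) ha

theorem tpC (ha : Nq κ m β a) (hb : Nq κ m β b) : Nq κ m β fun x g ρ => tp (a x g ρ) (b x g ρ) :=
  Q.add (Q.mul (Q.c 4) (d4 hb)) (fpC ha hb)

theorem teC (ha : Nq κ m β a) (hb : Nq κ m β b) : Nq κ m β fun x g ρ => te (a x g ρ) (b x g ρ) :=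
  Q.add (Q.mul (Q.c 4) (tpC ha (d4 hb))) (fpC ha (m4 hb))

/-- `pick` with a constant bound. -/
theorem pickC {P : List Bool → Orc → Env → ℕ → Prop} (hs : Bv κ m β s) (k : ℕ)
    (h : ∀ i, Pq κ m β fun x g ρ => P x g ρ i) :
    Nq κ m β fun x g ρ => pick (s x g ρ) k (P x g ρ) :=
  Q.ite hs (U.lst k h) (Q.sub (Q.c (k - 1))
    (U.lst (P := fun x g ρ i => P x g ρ (k - 1 - i)) k fun _ => h _))

theorem pick_le (fl : Bool) (k : ℕ) (P : ℕ → Prop) : pick fl k P ≤ k := by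
  unfold pick
  split_ifs
  · exact U.lst_le' _ _
  · omega

namespace Sv

theorem mk' (hi : Nq κ m β i) (ha : Nq κ m β a) (hb : Nq κ m β b) (he : Nq κ m β e) :
    Sv κ m β fun x g ρ => ⟨i x g ρ, a x g ρ, b x g ρ, e x g ρ⟩ := ⟨hi, ha, hb, he⟩

theorem ite {P : EP} {i : ∀ x g ρ, Decidable (P x g ρ)} (hP : Pq κ m β P) (h : Sv κ m β A)
    (k : Sv κ m β B) : Sv κ m β fun x g ρ => @ite _ (P x g ρ) (i x g ρ) (A x g ρ) (B x g ρ) :=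
  ⟨Q.cg (Q.ite (i := i) hP h.i k.i) fun _ _ _ => (apply_ite Sg.i _ _ _).symm,
    Q.cg (Q.ite (i := i) hP h.p k.p) fun _ _ _ => (apply_ite Sg.p _ _ _).symm,
    Q.cg (Q.ite (i := i) hP h.s k.s) fun _ _ _ => (apply_ite Sg.s _ _ _).symm,
    Q.cg (Q.ite (i := i) hP h.q k.q) fun _ _ _ => (apply_ite Sg.q _ _ _).symm⟩

theorem junk (hn : Nq κ m β n) : Sv κ m β fun x g ρ => junk (n x g ρ) := ⟨Q.c 0, hn, Q.c 0, hn⟩

theorem shr (hn : Nq κ m β n) (hs : Bv κ m β s) (ha : Nq κ m β a) (h : Sv κ m β A)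
    (hr : Nq κ m β r) :
    Sv κ m β fun x g ρ => PG.shr (n x g ρ) (s x g ρ) (a x g ρ) (A x g ρ) (r x g ρ) :=
  ite (Q.lt hr hn) (ite hs (mk' h.i h.p h.s hr) (mk' h.i hr ha h.q)) h

theorem tw (h : Sv κ m β A) (ha : Nq κ m β a) : Sv κ m β fun x g ρ => (A x g ρ).tw (a x g ρ) :=
  ⟨fpC ha h.i, h.p, Q.ite (Q.lt h.s (Q.c 4)) (fsC ha h.s) h.s, h.q⟩

/-- A computed index below a constant. -/
theorem sw {f : List Bool → Orc → Env → ℕ → Sg} (k : ℕ) (h : ∀ t, Sv κ m β fun x g ρ => f x g ρ t)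
    (ha : Nq κ m β a) (hk : ∀ x g ρ, a x g ρ ≤ k) : Sv κ m β fun x g ρ => f x g ρ (a x g ρ) :=
  ⟨U.sw (f := fun x g ρ t => (f x g ρ t).i) k (fun t => (h t).i) ha hk,
    U.sw (f := fun x g ρ t => (f x g ρ t).p) k (fun t => (h t).p) ha hk,
    U.sw (f := fun x g ρ t => (f x g ρ t).s) k (fun t => (h t).s) ha hk,
    U.sw (f := fun x g ρ t => (f x g ρ t).q) k (fun t => (h t).q) ha hk⟩

end Sv

namespace PC

variable {P R : List Bool → Orc → Env → Pr} (H : PC κ m β P)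
include H

theorem ite {C : EP} {i : ∀ x g ρ, Decidable (C x g ρ)} (hC : Pq κ m β C) (k : PC κ m β R) :
    PC κ m β fun x g ρ => @ite _ (C x g ρ) (i x g ρ) (P x g ρ) (R x g ρ) where
  al h := Q.cgP (U.iteP (i := i) hC (H.al h) (k.al h)) fun x g ρ => by
    by_cases u : C x g ρ <;> simp [u]
  lam h := Q.cg (Q.ite (i := i) hC (H.lam h) (k.lam h)) fun x g ρ => by
    by_cases u : C x g ρ <;> simp [u]
  En h h' := Q.cg (Q.ite (i := i) hC (H.En h h') (k.En h h')) fun x g ρ => by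
    by_cases u : C x g ρ <;> simp [u]
  FE h h' h'' := Q.cg (Q.ite (i := i) hC (H.FE h h' h'') (k.FE h h' h'')) fun x g ρ => by
    by_cases u : C x g ρ <;> simp [u]
  F h1 h2 h3 h4 h5 := Q.cg (Q.ite (i := i) hC (H.F h1 h2 h3 h4 h5) (k.F h1 h2 h3 h4 h5))
    fun x g ρ => by by_cases u : C x g ρ <;> simp [u]
  next h := Q.cg (Q.ite (i := i) hC (H.next h) (k.next h)) fun x g ρ => by
    by_cases u : C x g ρ <;> simp [u]
  cur h := Q.cg (Q.ite (i := i) hC (H.cur h) (k.cur h)) fun x g ρ => by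
    by_cases u : C x g ρ <;> simp [u]
  rs := Q.cg (Q.ite (i := i) hC H.rs k.rs) fun x g ρ => by by_cases u : C x g ρ <;> simp [u]

theorem st (hi : Nq κ m β i) (ha : Nq κ m β a) :
    Nq κ m β fun x g ρ => (P x g ρ).st (i x g ρ) (a x g ρ) := d4 (H.lam (ptC ha hi))

theorem ring (hi : Nq κ m β i) (ha : Nq κ m β a) :
    Sv κ m β fun x g ρ => (P x g ρ).ring (i x g ρ) (a x g ρ) :=
  ⟨hi, H.st hi ha, sdC hi (H.lam (ptC ha hi)), ha⟩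

theorem fu (hi : Nq κ m β i) (ha : Nq κ m β a) (hb : Nq κ m β b) (u : ℕ) :
    Sv κ m β fun x g ρ => (P x g ρ).fu (i x g ρ) (a x g ρ) (b x g ρ) u :=
  Sv.ite (U.cP (u = 0)) (Sv.mk' hi ha hb (H.En hi ha)) (H.ring hi (H.En hi ha))

theorem lo (ha : Nq κ m β a) : Nq κ m β fun x g ρ => (P x g ρ).lo (a x g ρ) :=
  Q.ite (Q.eq (m4 (H.lam ha)) (a4 ha 1)) ha (H.lam ha)

theorem prb (ha : Nq κ m β a) : Pq κ m β fun x g ρ => (P x g ρ).prb (a x g ρ) :=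
  have l := H.lo ha
  Q.and (H.al (d4 ha)) (Q.ne (H.lam (ptC (H.FE (a4 l 3) (d4 l) (a4 l 2)) (Q.add l (Q.c 2))))
    (ptC (H.FE (a4 l 2) (d4 (H.lam l)) (a4 l 2)) (Q.add l (Q.c 3))))

theorem val (ha : Nq κ m β a) : Pq κ m β fun x g ρ => (P x g ρ).val (a x g ρ) :=
  Q.and (H.prb (d4 ha)) (Q.eq (Q.mod (Q.add (d4 ha) ha) (Q.c 2)) (Q.c 1))

theorem own (ha : Nq κ m β a) : Nq κ m β fun x g ρ => (P x g ρ).own (a x g ρ) :=
  ptC (H.En (m4 ha) (Q.div ha (Q.c 16))) ha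

theorem hv (ha : Nq κ m β a) : Pq κ m β fun x g ρ => (P x g ρ).hv (a x g ρ) :=
  Q.and (H.al (d4 ha)) (Q.eq (H.En (m4 ha) (d4 ha)) (d4 ha))

theorem ld : LC κ m β fun x g ρ => (P x g ρ).ld := ⟨H.val, H.own, H.hv, H.next, H.cur⟩

variable (hn : Nq κ m β n)
include hn

theorem On (hb : Nq κ m β b) (ha : Nq κ m β a) (hA : Sv κ m β A) :
    Pq κ m β fun x g ρ => (P x g ρ).On (n x g ρ) (b x g ρ) (a x g ρ) (A x g ρ) :=
  Q.lt (H.F (Bv.c true) ha (a4 ha 1) hA (Sv.mk' (a4 ha 1) hb (a4 ha 1) hb)) hn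

theorem OnC (hb : Nq κ m β b) (hA : Sv κ m β A) :
    Pq κ m β fun x g ρ => (P x g ρ).OnC (n x g ρ) (b x g ρ) (A x g ρ) :=
  Q.or (Q.and (Q.eq hb hA.p) (H.al hb)) (Q.or (H.On hn hb hA.i hA) (H.On hn hb (a4 hA.i 3) hA))

theorem pa (hi : Nq κ m β i) (ha : Nq κ m β a) (hb : Nq κ m β b) :
    Pq κ m β fun x g ρ => (P x g ρ).pa (n x g ρ) (i x g ρ) (a x g ρ) (b x g ρ) :=
  Q.or (H.OnC hn hb (H.fu hi ha hi 0)) (H.OnC hn hb (H.fu hi ha hi 1))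

theorem fo {Y : List Bool → Orc → Env → ℕ → Sg} (hs : Bv κ m β s) (ha : Nq κ m β a)
    (hb : Nq κ m β b) (hA : Sv κ m β A) (hY : ∀ t, Sv κ m β fun x g ρ => Y x g ρ t)
    (hr : Nq κ m β r) (k : ℕ) : Nq κ m β fun x g ρ => PG.fo (n x g ρ) (P x g ρ).F (s x g ρ)
      (a x g ρ) (b x g ρ) (A x g ρ) (Y x g ρ) (r x g ρ) k :=
  U.itr (F := fun x g ρ t r => if (P x g ρ).F (s x g ρ) (a x g ρ) (b x g ρ)
      (PG.shr (n x g ρ) (s x g ρ) (a x g ρ) (A x g ρ) r) (Y x g ρ t) < n x g ρ then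
      (P x g ρ).F (s x g ρ) (a x g ρ) (b x g ρ)
        (PG.shr (n x g ρ) (s x g ρ) (a x g ρ) (A x g ρ) r) (Y x g ρ t) else r) k
    (fun t _ hr => Q.ite (Q.lt (H.F hs ha hb (Sv.shr hn hs ha hA hr) (hY t)) hn)
      (H.F hs ha hb (Sv.shr hn hs ha hA hr) (hY t)) hr) hr

theorem early {Y : List Bool → Orc → Env → ℕ → Sg} (hi : Nq κ m β i) (he : Nq κ m β e)
    (hr : Nq κ m β r) (ha : Nq κ m β a) (hb : Nq κ m β b)
    (hY : ∀ t, Sv κ m β fun x g ρ => Y x g ρ t) (k : ℕ) : Nq κ m β fun x g ρ =>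
      (P x g ρ).early (n x g ρ) (i x g ρ) (e x g ρ) (r x g ρ) (a x g ρ) (b x g ρ) (Y x g ρ) k :=
  Q.ite (Q.lt (H.fo hn (Bv.c true) ha hb (H.fu hi he hr 0) hY hn k) hn)
    (H.fo hn (Bv.c true) ha hb (H.fu hi he hr 0) hY hn k)
    (H.fo hn (Bv.c true) ha hb (H.fu hi he hr 1) hY hn k)

theorem fpc {X Y : List Bool → Orc → Env → ℕ → Sg} {rv : List Bool → Orc → Env → ℕ → Bool}
    (hs : Bv κ m β s) (ha : Nq κ m β a) (hb : Nq κ m β b)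
    (hX : ∀ t, Sv κ m β fun x g ρ => X x g ρ t) (hr : ∀ t, Bv κ m β fun x g ρ => rv x g ρ t)
    (k : ℕ) (hY : ∀ t, Sv κ m β fun x g ρ => Y x g ρ t) (l : ℕ) :
    Nq κ m β fun x g ρ => PG.fpc (n x g ρ) (P x g ρ).F (s x g ρ) (a x g ρ) (b x g ρ) (X x g ρ)
      (rv x g ρ) k (Y x g ρ) l :=
  have res := fun t => H.fo hn (hs.xor (hr t)) ha hb (hX t) hY hn l
  Q.ite (U.ex k fun t => Q.lt (res t) hn)
    (U.sw (f := fun x g ρ t => PG.fo (n x g ρ) (P x g ρ).F (xor (s x g ρ) (rv x g ρ t)) (a x g ρ)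
      (b x g ρ) (X x g ρ t) (Y x g ρ) (n x g ρ) l) k res (pickC hs k fun t => Q.lt (res t) hn)
      fun _ _ _ => pick_le _ _ _) hn

/-- The primitive `F` from at most `k + 1` pieces. -/
theorem genF {al' : List Bool → Orc → Env → ℕ → Prop} {np : List Bool → Orc → Env → Sg → ℕ}
    {pc : List Bool → Orc → Env → Sg → ℕ → ℕ → Sg} {rv : List Bool → Orc → Env → Sg → ℕ → Bool}
    (k : ℕ) (h1 : ∀ {a : EN}, Nq κ m β a → Pq κ m β fun x g ρ => al' x g ρ (a x g ρ))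
    (h2 : ∀ {A : ES}, Sv κ m β A → Nq κ m β fun x g ρ => np x g ρ (A x g ρ))
    (hk : ∀ x g ρ A, np x g ρ A ≤ k)
    (h3 : ∀ {A : ES} {a : EN}, Sv κ m β A → Nq κ m β a → ∀ t,
      Sv κ m β fun x g ρ => pc x g ρ (A x g ρ) (a x g ρ) t)
    (h4 : ∀ {A : ES}, Sv κ m β A → ∀ t, Bv κ m β fun x g ρ => rv x g ρ (A x g ρ) t)
    (hs : Bv κ m β s) (ha : Nq κ m β a) (hb : Nq κ m β b) (hA : Sv κ m β A) (hB : Sv κ m β B) :
    Nq κ m β fun x g ρ => (P x g ρ).genF (n x g ρ) (al' x g ρ) (np x g ρ) (pc x g ρ) (rv x g ρ)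
      (s x g ρ) (a x g ρ) (b x g ρ) (A x g ρ) (B x g ρ) :=
  Q.ite (Q.and (h1 hA.p) (h1 hB.p))
    (U.sw (f := fun x g ρ u => PG.fpc (n x g ρ) (P x g ρ).F (s x g ρ) (a x g ρ) (b x g ρ)
      (pc x g ρ (A x g ρ) (a x g ρ)) (rv x g ρ (A x g ρ)) (u + 1) (pc x g ρ (B x g ρ) (b x g ρ))
      (np x g ρ (B x g ρ) + 1)) k (fun u =>
        U.sw (f := fun x g ρ v => PG.fpc (n x g ρ) (P x g ρ).F (s x g ρ) (a x g ρ) (b x g ρ)
          (pc x g ρ (A x g ρ) (a x g ρ)) (rv x g ρ (A x g ρ)) (u + 1)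
          (pc x g ρ (B x g ρ) (b x g ρ)) (v + 1)) k
          (fun v => H.fpc hn hs ha hb (h3 hA ha) (h4 hA) (u + 1) (h3 hB hb) (v + 1)) (h2 hB)
          fun x g ρ => hk x g ρ _) (h2 hA) fun x g ρ => hk x g ρ _) hn

theorem mark (ha : Nq κ m β a) : PC κ m β fun x g ρ => (P x g ρ).mark (n x g ρ) (a x g ρ) :=
  ⟨H.al, H.lam, H.En, H.FE, H.F, H.next, H.cur,
    Q.ite (Q.and (Q.eq H.rs (Q.c 0)) (U.ex 8 fun t =>
      H.On hn ha (Q.c ((t / 2 + 3 * (t % 2)) % 4)) (H.fu (Q.c (t / 2)) ha (Q.c 0) 1)))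
    (Q.ite (U.ex 4 fun t => H.On hn ha (Q.c (1 + 2 * (t / 2)))
      (H.fu (Q.c ((1 + 2 * (t / 2) + t % 2) % 4)) ha (Q.c 0) 1)) (Q.c 1) (Q.c 2)) H.rs⟩

theorem tw (ha : Nq κ m β a) : PC κ m β fun x g ρ => (P x g ρ).tw (n x g ρ) (a x g ρ) where
  al := H.al
  lam h := Q.ite (H.al (d4 h)) (tpC (giC ha) (H.lam (tpC ha h))) (Q.mul (Q.c 4) hn)
  En h h' := H.En (fpC ha h) h'
  FE h h' h'' := H.FE (fpC ha h) h' (fsC ha h'')
  F h1 h2 h3 h4 h5 := H.F h1 (fsC ha h2) (fsC ha h3) (h4.tw ha) (h5.tw ha)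
  next h := tzC (e := fun x g ρ => te (gi (a x g ρ))) (h := fun x g ρ => tp (gi (a x g ρ)))
    (Q.mul (Q.c 16) hn) (teC (giC ha)) (tpC (giC ha))
    (H.next (tzC (e := fun x g ρ => te (a x g ρ)) (h := fun x g ρ => tp (a x g ρ))
      (Q.mul (Q.c 16) hn) (teC ha) (tpC ha) h))
  cur h := H.cur (teC ha h)
  rs := Q.ite (Q.eq H.rs (Q.c 0)) (Q.c 0) (Q.add (Q.c 1)
    (Q.mod (Q.add (Q.sub H.rs (Q.c 1)) (fsC ha (Q.c 0))) (Q.c 2)))

end PC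

namespace KC

variable {c : ℕ} {K : List Bool → Orc → Env → Rn} (H : KC κ m β c K)
include H

theorem n4 : Nq κ m β fun x g ρ => 4 * (K x g ρ).n := Q.mul (Q.c 4) H.n

theorem n16 : Nq κ m β fun x g ρ => 16 * (K x g ρ).n := Q.mul (Q.c 16) H.n

theorem short (hi : Nq κ m β i) (ha : Nq κ m β a) :
    Pq κ m β fun x g ρ => (K x g ρ).short (i x g ρ) (a x g ρ) :=
  Q.cgP (H.P.ld.short H.n16 H.q c (ptC ha hi)) fun x g ρ => by rw [Rn.short, H.c]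

theorem ent (hi : Nq κ m β i) (ha : Nq κ m β a) (t : ℕ) :
    Nq κ m β fun x g ρ => (K x g ρ).ent (i x g ρ) (a x g ρ) t :=
  d4 (H.P.ld.en H.n16 H.q (ptC ha hi) t)

end KC

end Pool.Agent.MP_1a6d78_lc.PG
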