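import Pool.Agent.MP_1a6d78_lc.PG.Pcs

/-! PROJECT PG: segments of two maps; splitting and reversing a segment. -/

namespace Pool.Agent.MP_1a6d78_lc.PG

open Classical ED PR PL

namespace Cm

variable {M M' : Cm} {A : Sg}

theorem mem_iff_bf {y : ℕ} : M.Mem A y ↔ M.Bf A y y := ⟨Mem.bf, Bf.left⟩

/-- The start side plays no role for membership and order. -/
theorem bf_side (i p s s' q y y' : ℕ) : M.Bf ⟨i, p, s, q⟩ y y' ↔ M.Bf ⟨i, p, s', q⟩ y y' := Iff.rfl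

theorem mem_side (i p s s' q y : ℕ) : M.Mem ⟨i, p, s, q⟩ y ↔ M.Mem ⟨i, p, s', q⟩ y := Iff.rfl

theorem ok_side (i p s s' q : ℕ) : M.ok ⟨i, p, s, q⟩ ↔ M.ok ⟨i, p, s', q⟩ := Iff.rfl

/-- A passage is the start or comes from a step inside the segment. -/
theorem ps_iff (h : M.Ok) (k : M.ok A) {y a : ℕ} : M.Ps A y a ↔ (y = A.p ∧ a = A.s) ∨
    ∃ u, M.Mem A u ∧ u ≠ A.q ∧ M.st A.i u = y ∧ M.ss A.i u = a := by
  constructor
  · rintro ⟨t, t1, rfl, rfl⟩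
    cases t with
    | zero => exact Or.inl ⟨rfl, rfl⟩
    | succ t =>
      exact Or.inr ⟨_, ⟨t, by omega, rfl⟩, (ln_spec h k).2.2 t t1, (wk_succ _ _ _).symm, rfl⟩
  · rintro (⟨rfl, rfl⟩ | ⟨u, ⟨t, t1, rfl⟩, u2, rfl, rfl⟩)
    · exact ps_p _
    · exact ⟨t + 1, lt_of_le_of_ne t1 fun e => u2 (e ▸ (ln_spec h k).2.1), wk_succ _ _ _, rfl⟩

/-- Splitting after `y`. -/
theorem split (h : M.Ok) (k : M.ok A) {y : ℕ} (m : M.Mem A y) (hy : y ≠ A.q) :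
    M.Ps A (M.st A.i y) (M.ss A.i y) ∧ M.Bf A y (M.st A.i y) ∧ M.st A.i y ≠ y ∧
      ∀ u, M.Mem A u → M.Bf A u y ∨ M.Bf A (M.st A.i y) u := by
  obtain ⟨t, t1, rfl⟩ := m
  have t2 : t + 1 ≤ M.ln A := lt_of_le_of_ne t1 fun e => hy (e ▸ (ln_spec h k).2.1)
  have e : M.el A (t + 1) = M.st A.i (M.el A t) := wk_succ _ _ _
  refine ⟨⟨t + 1, t2, e, rfl⟩, ⟨t, t + 1, t.le_succ, t2, rfl, e⟩, fun c => ?_, ?_⟩
  · have := el_inj h k t2 t1 (e.trans c)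
    omega
  · rintro u ⟨s, s1, rfl⟩
    rcases le_or_gt s t with c | c
    exacts [Or.inl ⟨s, t, c, t1, rfl, rfl⟩, Or.inr ⟨t + 1, s, c, s1, e, rfl⟩]

/-- Induction along a segment. -/
theorem Mem.ind (h : M.Ok) (k : M.ok A) {Q : ℕ → Prop} (h0 : Q A.p)
    (hs : ∀ u, M.Mem A u → u ≠ A.q → Q u → Q (M.st A.i u)) {y : ℕ} (m : M.Mem A y) : Q y := by
  obtain ⟨t, t1, rfl⟩ := m
  induction t with
  | zero => exact h0
  | succ t ih =>
    rw [show M.el A (t + 1) = M.st A.i (M.el A t) from wk_succ _ _ _]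
    exact hs _ ⟨t, by omega, rfl⟩ ((ln_spec h k).2.2 t t1) (ih (by omega))

/-- The cells of the walk up to the first cell with `Q`. -/
theorem mem_first (h : M.Ok) {i p s T : ℕ} {Q : ℕ → Prop} (hi : i < 4) (hp : M.al p)
    (hQ : Q (M.wk i p T)) (hT : ∀ t < T, ¬Q (M.wk i p t)) :
    M.ok ⟨i, p, s, M.wk i p T⟩ ∧ M.ln ⟨i, p, s, M.wk i p T⟩ = T :=
  have o : M.ok ⟨i, p, s, M.wk i p T⟩ := ⟨hi, hp, Pa.wk _ _ _⟩
  ⟨o, ln_eq h o rfl fun t ht e => hT t ht (by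
    rw [show M.wk i p t = M.wk i p T from e]; exact hQ)⟩

theorem wk_agree {i p T : ℕ} (e : ∀ t < T, M'.st i (M.wk i p t) = M.st i (M.wk i p t)) :
    ∀ t ≤ T, M'.wk i p t = M.wk i p t := by
  intro t
  induction t with
  | zero => exact fun _ => rfl
  | succ t ih => exact fun k => by rw [wk_succ, wk_succ, ih (by omega), e t k]

/-- A segment whose steps do not change. -/
theorem agree (h : M.Ok) (h' : M'.Ok) (k : M.ok A) (hp : M'.al A.p)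
    (e : ∀ u, M.Mem A u → u ≠ A.q → M'.lk (pt u A.i) = M.lk (pt u A.i)) :
    M'.ok A ∧ (∀ y a, M'.Ps A y a ↔ M.Ps A y a) ∧ ∀ y y', M'.Bf A y y' ↔ M.Bf A y y' := by
  have e0 : ∀ t < M.ln A, M'.lk (pt (M.el A t) A.i) = M.lk (pt (M.el A t) A.i) := fun t ht =>
    e _ ⟨t, ht.le, rfl⟩ ((ln_spec h k).2.2 t ht)
  have e1 : ∀ t ≤ M.ln A, M'.el A t = M.el A t :=
    wk_agree fun t ht => congrArg (· / 4) (e0 t ht)
  have o : M'.ok A := ⟨k.1, hp, _, (e1 _ le_rfl).trans (ln_spec h k).2.1⟩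
  have e2 : M'.ln A = M.ln A := ln_eq h' o ((e1 _ le_rfl).trans (ln_spec h k).2.1) fun t ht => by
    rw [e1 t ht.le]; exact (ln_spec h k).2.2 t ht
  have e3 : ∀ t ≤ M.ln A, M'.sv A t = M.sv A t := fun t ht => by
    cases t with
    | zero => rfl
    | succ t => rw [sv_succ, sv_succ, e1 t (by omega), ss, ss, e0 t ht]
  refine ⟨o, fun y a => ?_, fun y y' => ?_⟩
  · unfold Ps
    rw [e2]
    exact exists_congr fun t => and_congr_right fun ht => by rw [e1 t ht, e3 t ht]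
  · unfold Bf
    rw [e2]
    exact exists_congr fun s => exists_congr fun t => and_congr_right fun u =>
      and_congr_right fun ht => by rw [e1 t ht, e1 s (u.trans ht)]

/-- The `i'`-walk of `M'` is the `i`-walk of `M` restricted to the cells with `K`. -/
def SubW (M M' : Cm) (i i' : ℕ) (K : ℕ → Prop) : Prop :=
  ∀ u, K u → ∃ t, M'.st i' u = M.wk i u (t + 1) ∧ K (M'.st i' u) ∧ ∀ s < t, ¬K (M.wk i u (s + 1))

theorem SubW.tau {i i' p : ℕ} {K : ℕ → Prop} (w : SubW M M' i i' K) (hp : K p) :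
    ∃ τ : ℕ → ℕ, StrictMono τ ∧ (∀ j, M'.wk i' p j = M.wk i p (τ j) ∧ K (M'.wk i' p j)) ∧
      ∀ t, K (M.wk i p t) → ∃ j, τ j = t := by
  choose! g g1 g2 g3 using w
  let τ : ℕ → ℕ := fun j => Nat.rec 0 (fun j a => a + (g (M'.wk i' p j) + 1)) j
  have s : ∀ j, τ (j + 1) = τ j + (g (M'.wk i' p j) + 1) := fun _ => rfl
  have a : ∀ j, M'.wk i' p j = M.wk i p (τ j) ∧ K (M'.wk i' p j) := fun j => by
    induction j with
    | zero => exact ⟨rfl, hp⟩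
    | succ j ih => rw [s, wk_succ, wk_add, ← ih.1]; exact ⟨g1 _ ih.2, g2 _ ih.2⟩
  have m : StrictMono τ := strictMono_nat_of_lt_succ fun j => by rw [s]; omega
  refine ⟨τ, m, a, fun t ht => ?_⟩
  have ex : ∃ j, t < τ (j + 1) := ⟨t, m.le_apply⟩
  have b1 := Nat.find_spec ex
  have b2 : τ (Nat.find ex) ≤ t := by
    rcases Nat.eq_zero_or_pos (Nat.find ex) with c | c
    · rw [c]; exact Nat.zero_le _
    · have := Nat.find_min ex (show Nat.find ex - 1 < Nat.find ex by omega)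
      rw [Nat.sub_add_cancel c] at this
      omega
  generalize Nat.find ex = j at b1 b2
  refine ⟨j, by_contra fun c => ?_⟩
  rw [s] at b1
  refine g3 _ (a j).2 (t - τ j - 1) (by omega) ?_
  rw [(a j).1, ← wk_add, show τ j + (t - τ j - 1 + 1) = t by omega]
  exact ht

theorem SubW.pa {i i' p : ℕ} {K : ℕ → Prop} (w : SubW M M' i i' K) (hp : K p) (q : ℕ) :
    M'.Pa i' p q ↔ M.Pa i p q ∧ K q := by
  obtain ⟨τ, -, a, b⟩ := w.tau hp
  constructor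
  · rintro ⟨j, rfl⟩
    exact ⟨⟨_, (a j).1.symm⟩, (a j).2⟩
  · rintro ⟨⟨t, rfl⟩, k⟩
    obtain ⟨j, rfl⟩ := b t k
    exact ⟨j, (a j).1⟩

theorem SubW.bf (h : M.Ok) (h' : M'.Ok) {i i' p s s' q : ℕ} {K : ℕ → Prop} (w : SubW M M' i i' K)
    (hp : K p) (k : M.ok ⟨i, p, s, q⟩) (k' : M'.ok ⟨i', p, s', q⟩) (y y' : ℕ) :
    M'.Bf ⟨i', p, s', q⟩ y y' ↔ M.Bf ⟨i, p, s, q⟩ y y' ∧ K y ∧ K y' := by
  obtain ⟨τ, m, a, b⟩ := w.tau hp
  obtain ⟨-, l1, l2⟩ := ln_spec h k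
  obtain ⟨-, l3, l4⟩ := ln_spec h' k'
  have kq : K q := ((w.pa hp q).1 k'.2.2).2
  have e : τ (M'.ln ⟨i', p, s', q⟩) = M.ln ⟨i, p, s, q⟩ := by
    obtain ⟨j, hj⟩ := b (M.ln ⟨i, p, s, q⟩) (by rw [show M.wk i p _ = q from l1]; exact kq)
    rw [← hj, ln_eq h' k' (l := j) ((a j).1.trans (hj ▸ l1)) fun t ht c =>
      l2 (τ t) (hj ▸ m ht) ((a t).1.symm.trans c)]
  constructor
  · rintro ⟨u, v, uv, v1, rfl, rfl⟩
    exact ⟨⟨τ u, τ v, m.monotone uv, e ▸ m.monotone v1, (a u).1.symm, (a v).1.symm⟩,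
      (a u).2, (a v).2⟩
  · rintro ⟨⟨u, v, uv, v1, rfl, rfl⟩, k1, k2⟩
    obtain ⟨u, rfl⟩ := b u k1
    obtain ⟨v, rfl⟩ := b v k2
    exact ⟨u, v, m.le_iff_le.1 uv, m.le_iff_le.1 (e ▸ v1), (a u).1, (a v).1⟩

/-- A segment read backwards by another type. -/
theorem rev_seg (h : M.Ok) {i i' p s s' q : ℕ} (hi : i' < 4) (k : M.ok ⟨i, p, s, q⟩)
    (e : ∀ u, M.Mem ⟨i, p, s, q⟩ u → u ≠ q → M.st i' (M.st i u) = u) :
    M.ok ⟨i', q, s', p⟩ ∧ ∀ y y', M.Bf ⟨i', q, s', p⟩ y y' ↔ M.Bf ⟨i, p, s, q⟩ y' y := by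
  obtain ⟨-, l1, l2⟩ := ln_spec h k
  generalize hl : M.ln ⟨i, p, s, q⟩ = L at l1 l2
  have a : ∀ j ≤ L, M.wk i' q j = M.wk i p (L - j) := fun j => by
    induction j with
    | zero => exact fun _ => l1.symm
    | succ j ih =>
      intro c
      rw [wk_succ, ih (by omega), show L - j = L - (j + 1) + 1 by omega, wk_succ]
      exact e _ ⟨_, by omega, rfl⟩ (l2 _ (by omega))
  have o : M.ok ⟨i', q, s', p⟩ := ⟨hi, (mem_q h k).al h k, L, by rw [a L le_rfl, Nat.sub_self]; rfl⟩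
  have b : M.ln ⟨i', q, s', p⟩ = L := ln_eq h o (by
    show M.wk i' q L = p
    rw [a L le_rfl, Nat.sub_self]; rfl) fun t ht c => by
      have := el_inj h k (s := L - t) (t := 0) (by omega) (Nat.zero_le _) ((a t ht.le).symm.trans c)
      omega
  refine ⟨o, fun y y' => ⟨?_, ?_⟩⟩
  · rintro ⟨u, v, uv, v1, rfl, rfl⟩
    rw [b] at v1
    exact ⟨L - v, L - u, by omega, by omega, (a v v1).symm, (a u (by omega)).symm⟩
  · rintro ⟨u, v, uv, v1, rfl, rfl⟩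
    rw [hl] at v1
    exact ⟨L - v, L - u, by omega, by omega,
      (a _ (by omega)).trans (by rw [show L - (L - v) = v by omega]; rfl),
      (a _ (by omega)).trans (by rw [show L - (L - u) = u by omega]; rfl)⟩

/-- One piece whose passages are the new ones, apart from removed cells. -/
theorem cov_one {δ a : ℕ} {X : ℕ → Sg} {rv : ℕ → Bool} (k : M.ok (X 0))
    (c1 : ∀ y, M'.Ps A y a → M.Ps (X 0) y a)
    (c2 : ∀ y, M.Ps (X 0) y a → M'.Ps A y a ∨ (¬M'.al y ∧ a = δ))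
    (c3 : ∀ y y', M.Ps (X 0) y a → M.Ps (X 0) y' a → M'.al y → M'.al y' →
      M.Bo (!rv 0) (X 0) y y' → M'.Bf A y y') : Cov M M' δ a A X rv 1 :=
  ⟨fun l hl => (Nat.lt_one_iff.1 hl).symm ▸ k.wo, fun y p => ⟨0, Nat.one_pos, k, c1 y p⟩,
    fun l hl y => (Nat.lt_one_iff.1 hl).symm ▸ fun _ => c2 y, fun _ _ _ _ u v => by omega,
    fun l hl y y' => (Nat.lt_one_iff.1 hl).symm ▸ fun _ => c3 y y'⟩

end Cm

end Pool.Agent.MP_1a6d78_lc.PG
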