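import Pool.Agent.MP_1a6d78_lc.PG.Spec
import Pool.Agent.MP_1a6d78_lc.PG.Prog

/-! PROJECT PG: the statements for the programs of the kill round. -/

namespace Pool.Agent.MP_1a6d78_lc.PG

open Classical ED PR GL

noncomputable section

/-- PRB: the test for saddle links. -/
def PrbS : Prop := ∀ (M : Cm) (P : Pr), M.Ok → Geo M P → ∀ p, P.prb p ↔ M.Prb p

namespace Rn

variable (K : Rn) (M M' : Cm)

/-- The semantic kill. -/
abbrev ks : Ks := ⟨M, M', K.sel, K.P.En⟩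

/-- SEL -/
structure SelK : Prop where
  fam : M.Fam K.sel
  name : ∀ {x}, K.sel x → K.P.En 0 x = x
  ole : ∀ i c, K.obj i c ≤ M.n
  obj : ∀ {i c x}, i < 2 → (K.obj i c = x ∧ x < M.n ↔ M.al c ∧ K.sel x ∧ M.Co i c x)
  lle : ∀ x t, K.links x t ≤ 4 * M.n
  lsd : ∀ {x t}, K.sel x → K.links x t < 4 * M.n → M.Lsd x (K.links x t)
  lex : ∀ {x p}, K.sel x → M.Lsd x p → ∃ t < 4 * K.c, K.links x t = p
  cand : ∀ {x t}, K.sel x → K.C x t = M.n ∨ (M.al (K.C x t) ∧ M.Cand K.P.En x (K.C x t))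
  cex : ∀ {x b}, K.sel x → M.Cand K.P.En x b → ∃ t < K.nc, K.C x t = b
  seen : ∀ {x q}, K.sel x → M.Lsd x q → K.seen q = x

structure H1 : Prop where
  hy : K.Hy M
  g1 : (K.ks M M').G1
  meet : (K.ks M M').MeetK
  sel : K.SelK M

/-- GOOD -/
structure GoodK : Prop where
  meets : ∀ p s b, s < 4 → (K.meets p s b ↔ M.al p ∧ M.al b ∧ M.Mt p s b)
  gd : ∀ {x t}, K.sel x → t < K.nc → K.gd x t = if M'.al (K.C x t) then K.C x t else M.n
  gal : ∀ {x t}, K.sel x → t < K.nc →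
    K.gd x t = M.n ∨ (M'.al (K.gd x t) ∧ M.Cand K.P.En x (K.gd x t))
  gex : ∀ {x b}, K.sel x → M.Cand K.P.En x b → M'.al b → ∃ t < K.nc, K.gd x t = b
  al : K.al' = M'.al

/-- LAM -/
structure LamK : Prop where
  hits : ∀ {w x t}, w = 2 ∨ w = 3 → K.sel x → M.Dd x t → M.Lv M' t →
    M.Fst w t (fun s => M'.al (M.wk w t s) ∧ M.sw w t 2 s = 2) (K.hits w t)
  nxa : ∀ {w e t}, w = 2 ∨ w = 3 → M.Lv M' e → M.Nt M' w e t →
    K.nxa w e = M.lk (pt (M.wk w e t) w)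
  lam : ∀ p, K.lam' p = if M'.al (p / 4) then M'.lk p else 4 * M'.n
  fed : ∀ {w c a}, w = 2 ∨ w = 3 → a < 4 → M'.al c ∨ c = M.n → K.FEd w c a = M'.FE w c a

structure H2 : Prop where
  h1 : K.H1 M M'
  good : K.GoodK M M'
  lam : K.LamK M M'

/-- STAGE -/
structure StageK : Prop where
  q : ∀ {i p}, i < 2 → M'.al p → K.obj i p < M.n → M.Pa i p (K.dq i p) ∧ M'.al (K.dq i p) ∧
    M.Dd (K.obj i p) (M.st i (K.dq i p)) ∧ ¬M.Per i p
  g : ∀ {i p}, i < 2 → M'.al p → K.obj i p < M.n → K.dg i p = M'.lk (pt (K.dq i p) i)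
  hp : ∀ {i p}, i < 2 → M'.al p → K.obj i p < M.n → K.hp i p →
    M.Cand K.P.En (K.obj i p) (K.dg i p / 4)
  tight : ∀ {w b g}, w = 2 ∨ w = 3 → M'.al b ∨ b = M.n → M'.al g →
    (K.tight w b g ↔ M'.al b ∧ M'.Ti w (hs w) b g)
  b : ∀ {i p}, i < 2 → M'.al p → K.obj i p < M.n → ¬K.hp i p →
    M.Cand K.P.En (K.obj i p) (K.db i p) ∧ M'.al (K.db i p) ∧
      M'.Ti (3 - i) (hs i) (K.db i p) (K.dg i p / 4)

/-- The new walk from `p`: `a` steps to `dq`, one step to `dg`, `b` steps to the next start. -/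
structure One (i p a b : ℕ) : Prop where
  q : M.wk i p a = K.dq i p
  fst : ∀ t < a, M.wk i p t ≠ K.dq i p
  old : ∀ t ≤ a, M'.wk i p t = M.wk i p t
  ss : ∀ t < a, M'.ss i (M.wk i p t) = M.ss i (M.wk i p t)
  g : M'.wk i p (a + 1) = K.dg i p / 4 ∧ M'.ss i (K.dq i p) = sd i (K.dg i p)
  nx : M'.wk i p (a + 1 + b) = K.nx i p
  hop : K.hp i p → b = 0
  wall : ¬K.hp i p → M'.ss i (K.dq i p) = hs i ∧ M'.ln ⟨3 - i, K.db i p, hs i, K.dg i p / 4⟩ = b ∧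
    M'.ok ⟨3 - i, K.db i p, hs i, K.dg i p / 4⟩ ∧ ∀ t ≤ b,
      M'.wk (3 - i) (K.db i p) (b - t) = M'.wk i p (a + 1 + t) ∧
      M'.sw (3 - i) (K.db i p) (hs i) t = hs i ∧ M'.sw i p 0 (a + 1 + t) = hs i

/-- DP: the loop. -/
structure DpK : Prop where
  one : ∀ {i p}, i < 2 → M'.al p → K.obj i p < M.n → ∃ a b, K.One M M' i p a b
  inv : ∀ {i p u}, i < 2 → M'.al p → M'.Pa i p u → K.obj i u = K.obj i p ∨ K.obj i u = M.n
  dp : ∀ {i p} k, i < 2 → M'.al p → K.dp i p (k + 1) = K.nx i (K.dp i p k) ∧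
    M'.al (K.dp i p k) ∧ M'.Pa i p (K.dp i p k)
  exit : ∀ {i p u}, i < 2 → M'.al p → M'.Pa i p u → K.obj i u = M.n →
    K.obj i (K.dp i p K.nc) = M.n
  stay : ∀ {i p k l}, i < 2 → M'.al p → K.obj i (K.dp i p k) = M.n → k ≤ l → K.dp i p l = K.dp i p k
  per : ∀ {i p}, i < 2 → M'.al p → K.obj i (K.dp i p K.nc) < M.n →
    ∃ s L, s ≤ K.nc ∧ 0 < L ∧ L ≤ K.nc ∧ ∀ k, s ≤ k → K.dp i p (k + L) = K.dp i p k
  cand : ∀ {i p k}, i < 2 → M'.al p → K.obj i (K.dp i p k) < M.n →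
    M.Cand K.P.En (K.obj i p) (K.dp i p (k + 1))

/-- The stages cover the new walk: the stage `k` starts at the index `u k`. -/
structure Idx (i p : ℕ) (u a b : ℕ → ℕ) : Prop where
  zero : u 0 = 0
  dp : ∀ k, M'.wk i p (u k) = K.dp i p k
  one : ∀ k, K.obj i (K.dp i p k) < M.n →
    K.One M M' i (K.dp i p k) (a k) (b k) ∧ u (k + 1) = u k + a k + 1 + b k
  ds : ∀ k s, (∀ l < k, K.obj i (K.dp i p l) < M.n) → K.ds i p s k = M'.sw i p s (u k)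

structure H3 : Prop where
  h2 : K.H2 M M'
  stage : K.StageK M M'
  dp : K.DpK M M'
  idx : ∀ {i p}, i < 2 → M'.al p → ∃ u a b, K.Idx M M' i p u a b

/-- PF: the cells of the pieces. -/
def PfK : Prop :=
  ∀ {i p u a b} s k y, i < 2 → M'.al p → K.Idx M M' i p u a b → K.obj i (K.dp i p k) < M.n →
    M.wo (K.pf i p s (2 * k)) ∧ M.wo (K.pf i p s (2 * k + 1)) ∧
    (K.P.OnC K.n y (K.pf i p s (2 * k)) ↔ ∃ t ≤ a k, M'.wk i p (u k + t) = y) ∧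
    (M'.al y → (K.P.OnC K.n y (K.pf i p s (2 * k + 1)) ↔
      ¬K.hp i (K.dp i p k) ∧ ∃ t ≤ b k, M'.wk i p (u k + a k + 1 + t) = y))

/-- EN -/
structure EnK : Prop where
  nm : M'.Nm K.En'
  mov : ∀ {i c}, i < 2 → M'.al c → K.obj i (K.En' i c) < M.n → K.obj i c = K.obj i (K.En' i c)
  old : ∀ {i c}, i < 4 → M'.al c → ¬K.moved i c → K.P.En i (K.En' i c) = K.P.En i c

/-- FE -/
def FeK : Prop := ∀ i < 4, ∀ a < 4, ∀ c, K.FE' i c a = M'.FE i c a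

/-- COV -/
def CovK : Prop := ∀ A, ∀ a < 4, M'.ok A → Cm.Cov M M' 2 a A (K.pc A a) (rv A) (K.np A + 1)

end Rn

def SelS : Prop := ∀ (K : Rn) M, K.Hy M → M.FlowK → K.SelK M

def GoodS : Prop := ∀ (K : Rn) M M', K.H1 M M' → K.GoodK M M'

def LamS : Prop := ∀ (K : Rn) M M', K.H1 M M' → K.GoodK M M' → K.LamK M M'

def StageS : Prop := ∀ (K : Rn) M M', K.H2 M M' → K.StageK M M'

def DpS : Prop := ∀ (K : Rn) M M', K.H2 M M' → K.StageK M M' → K.DpK M M'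

def IdxS : Prop := ∀ (K : Rn) M M', K.H2 M M' → K.StageK M M' → K.DpK M M' →
  ∀ {i p}, i < 2 → M'.al p → ∃ u a b, K.Idx M M' i p u a b

def PfS : Prop := ∀ (K : Rn) M M', K.H3 M M' → K.PfK M M'

def EnS : Prop := ∀ (K : Rn) M M', K.H3 M M' → K.PfK M M' → K.EnK M M'

def FeS : Prop := ∀ (K : Rn) M M', K.H3 M M' → K.FeK M'

def CovS : Prop := ∀ (K : Rn) M M', K.H3 M M' → K.PfK M M' → K.CovK M M'

/-- LIST: what the lists need. -/
def ListS : Prop := PrbS → ∀ (K : Rn) M M', K.H3 M M' → K.EnK M M' → (K.ks M M').ValK →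
  (K.ks M M').AncK → Geo M' K.N → K.rd.Hy

/-- The kill round. -/
def KillS : Prop := ∀ (K : Rn) M, K.Hy M → ∃ M', M.Smo M' (M.Dead K.sel) ∧ M'.Ok ∧ M.Fam K.sel ∧
  Geo M' K.kill ∧ K.rd.Hy

end

end Pool.Agent.MP_1a6d78_lc.PG
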