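import Pool.Agent.MP_1a6d78_lc.PG.CutS
import Pool.Agent.MP_1a6d78_lc.PG.AlgC
import Pool.Agent.MP_1a6d78_lc.PG.FSpec

/-! PROJECT PG: the statements for the programs of the cut round. -/

namespace Pool.Agent.MP_1a6d78_lc.PG

open Classical ED PR GL

noncomputable section

namespace Rn

variable (K : Rn) (M M' : Cm)

/-- CSEL -/
structure CSelK : Prop where
  con : ∀ {a y c}, a < 4 → (K.con (K.P.En 0 c) a y ↔ M.al c ∧ M.Rc c a y)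
  cut : ∀ v, K.ccut v ↔ K.P.En 0 v = v ∧ M.Cond K.z v ∧ K.short 0 v ∧ K.short 1 (K.cg v)
  cis : ∀ {a y}, a < 4 → (K.cis a y ↔ M.Rk K.ccut a y)
  ck : ∀ {a y}, M.Kd 0 a y → K.ck y = a
  div : ∀ {i c}, i < 4 → M.al c → M.Fst i c (fun t => M.Rp K.ccut i (M.wk i c t)) (K.cdiv i c)
  dead : ∀ i {c}, ¬M.al c → K.cdiv i c = M.n

/-- The hypotheses of the rows. -/
structure C1 : Prop where
  hy : K.Hy M
  cut : M.Cutm M' K.ccut
  sel : K.CSelK M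
  lam : ∀ p, K.clam p = if M.al (p / 4) then M'.lk p else 4 * M.n

end Rn

def CSelS : Prop := S_Om → ∀ (K : Rn) M, K.Hy M → K.CSelK M

def CLamS : Prop := ∀ (K : Rn) M M', K.Hy M → M.Cutm M' K.ccut → K.CSelK M →
  ∀ p, K.clam p = if M.al (p / 4) then M'.lk p else 4 * M.n

def CEnS : Prop := ∀ (K : Rn) M M', K.C1 M M' → M'.Nm K.cEn

def CFeS : Prop := ∀ (K : Rn) M M', K.C1 M M' → ∀ i < 4, ∀ a < 4, ∀ c, K.cFE i c a = M'.FE i c a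

def CCovS : Prop := ∀ (K : Rn) M M', K.C1 M M' → ∀ A, ∀ a < 4, M'.ok A →
  Cm.Cov M M' 0 a A (K.cpc A a) (Rn.crv A) (K.cnp A + 1)

/-- The cut round. -/
def CutS : Prop := ∀ (K : Rn) M, K.Hy M → ∃ M', M.Cutm M' K.ccut ∧ M'.Ok ∧ Geo M' K.cut ∧
  K.crd.Hy ∧
    ∀ v, K.ccut v ↔ K.P.En 0 v = v ∧ M.Cond K.z v ∧ K.short 0 v ∧ K.short 1 (K.cg v)

end

end Pool.Agent.MP_1a6d78_lc.PG
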