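import Pool.Agent.MP_1a6d78_lc.PG.AlgM
import Pool.Agent.MP_1a6d78_lc.PG.SpecC
import Pool.Agent.MP_1a6d78_lc.PG.SpecB
import Pool.Agent.MP_1a6d78_lc.PG.FSpec

/-! PROJECT PG: the statements for the levels of the machine. -/

namespace Pool.Agent.MP_1a6d78_lc.PG

open Classical ED PR SC GL

noncomputable section

/-- The invariant of an open level. -/
structure Inv (M : Cm) (P : Pr) (j : ℕ) (ls : ℕ → List ℕ) : Prop where
  ok : M.Ok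
  geo : Geo M P
  li : LI (16 * M.n) P.ld j ls

/-- The number of slots. -/
def Pr.tot (P : Pr) (n : ℕ) (ls : ℕ → List ℕ) : ℕ := GL.tot (16 * n) P.hv ls

/-- CLIP -/
def ClipS : Prop := ∀ M P j ls q, Inv M P j ls → 16 * M.n * (j + 2) < q → 7 ≤ q →
  Inv M (P.clip q) j ls ∧ (P.clip q).tot M.n ls = P.tot M.n ls

/-- BASE0 -/
def Base0S : Prop := ∀ M : Cm, M.Ok →
  ∃ ls, Inv M (base0 M) 0 ls ∧ (base0 M).tot M.n ls ≤ 16 * M.n

/-- TWI -/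
def TwiS : Prop := ∀ M P j ls, ∀ g < 8, Inv M P j ls →
  ∃ ls', Inv (M.tw g) (P.tw M.n g) j ls' ∧ (P.tw M.n g).tot M.n ls' = P.tot M.n ls

/-- HY -/
def HyS : Prop := ∀ (K : Rn) M j ls, K.n = M.n → Inv M K.P j ls → 16 * M.n * (j + 2) < K.q → K.Hy M

/-- VCNT -/
def VcntS : Prop := ∀ M P, M.Ok → Geo M P → cnt (16 * M.n) P.val ≤ 16 * M.mu

/-- LONG: few heads of one type have long lists. -/
def LongS : Prop := ∀ (K : Rn) M j ls, K.n = M.n → Inv M K.P j ls → 16 * M.n * (j + 2) < K.q →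
  ∀ i < 4, ∀ (Y : ℕ → Prop) (f : ℕ → ℕ), (∀ v, Y v → M.al (f v)) →
    (∀ v w, Y v → Y w → M.Co i (f v) (f w) → v = w) →
      K.c * cnt M.n (fun v => Y v ∧ ¬K.short i (K.P.En i (f v))) ≤ K.P.tot M.n ls

/-- A family of poles that pay. -/
def Cm.Pay (M : Cm) (z : ℕ) (Y : ℕ → Prop) : Prop :=
  (∀ x, Y x → M.Top x ∧ M.NT z x) ∧ ∀ x y, Y x → Y y → M.Rg (4 * x) (4 * y) → x = y

/-- A family of rings that pay (second case of PROG). -/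
def Cm.PayR (M : Cm) (z : ℕ) (Y : ℕ → Prop) : Prop :=
  (∀ v, Y v → M.Cond z v) ∧ (∀ v v', Y v → Y v' → M.Co 0 v v' → v = v') ∧
    (∀ v v', Y v → Y v' → M.Co 1 (M.FE 0 v 3) (M.FE 0 v' 3) → v = v') ∧
    ∀ (N' : Cm) (R : ℕ → Prop), (∀ v, R v → M.Ring v) → M.Cutm N' R →
      (∀ v v', Y v → R v' → M.Co 0 v v' → N'.Top (M.FE 0 v 0) ∧ N'.NT z (M.FE 0 v 0)) ∧
      ∀ v w v' w', Y v → Y w → R v' → R w' → M.Co 0 v v' → M.Co 0 w w' →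
        N'.Rg (4 * M.FE 0 v 0) (4 * M.FE 0 w 0) → v = w

/-- CPAY: after the cut most of the family are poles that pay. -/
def CpayS : Prop := ∀ (K : Rn) M M' j ls, K.n = M.n → Inv M K.P j ls → 16 * M.n * (j + 2) < K.q →
  M'.Ok → M.Cutm M' K.ccut →
  (∀ v, K.ccut v ↔ K.P.En 0 v = v ∧ M.Cond K.z v ∧ K.short 0 v ∧ K.short 1 (K.cg v)) →
  ∀ Y, M.Pay K.z Y ∨ M.PayR K.z Y →
    ∃ Y', M'.Pay K.z Y' ∧ K.c * cnt M.n Y ≤ K.c * cnt M.n Y' + 2 * K.P.tot M.n ls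

/-- KPAY: some hash selects many poles that pay. -/
def KpayS : Prop := ∀ (P : Pr) (M : Cm) z c q j j' ls, Inv M P j ls → 16 * M.n * (j + 2) < q → 0 < c →
  ∀ Y, M.Pay z Y → ∃ w < 4 * (4 * c) * (2 * M.n + 3) ^ 2,
    c * cnt M.n Y ≤ 2 * P.tot M.n ls + 32 * c ^ 2 * cnt M.n fun x =>
      (Rn.mk P M.n z c q j' (colq M.n (4 * (4 * c)) w)).sel x ∧ M.NT z x

end

end Pool.Agent.MP_1a6d78_lc.PG
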