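import Pool.Agent.MP_1a6d78_lc.PG.Seg

/-! PROJECT PG: folds of the two-segment primitive; the primitive of a new level from pieces. -/

namespace Pool.Agent.MP_1a6d78_lc.PG

open Classical ED PR PL

noncomputable section

abbrev FT : Type := Bool → ℕ → ℕ → Sg → Sg → ℕ

/-- Cut `X` at the best hit found so far. -/
def shr (n : ℕ) (fl : Bool) (a : ℕ) (X : Sg) (r : ℕ) : Sg :=
  if r < n then (if fl then ⟨X.i, X.p, X.s, r⟩ else ⟨X.i, r, a, X.q⟩) else X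

/-- The first or last hit of `X` with one of the segments `B k`, `k < m`, or the cell `r0`. -/
def fo (n : ℕ) (f : FT) (fl : Bool) (a b : ℕ) (X : Sg) (B : ℕ → Sg) (r0 m : ℕ) : ℕ :=
  itr (fun k r => if f fl a b (shr n fl a X r) (B k) < n then f fl a b (shr n fl a X r) (B k) else r)
    r0 m

/-- The segment passes `y` by the side `a`. -/
def onf (n : ℕ) (f : FT) (y a : ℕ) (A : Sg) : Prop :=
  f true a ((a + 1) % 4) A ⟨(a + 1) % 4, y, (a + 1) % 4, y⟩ < n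

/-- The segment contains `y` (the start side has to be one of the two sides of the type). -/
def onc (n : ℕ) (f : FT) (y : ℕ) (A : Sg) : Prop := onf n f y A.i A ∨ onf n f y ((A.i + 3) % 4) A

def junk (n : ℕ) : Sg := ⟨0, n, 0, n⟩

/-- The two-segment primitive from the pieces `X k`, `k < m` (read backwards if `rv k`) and
`Y l`, `l < m'`. -/
def fpc (n : ℕ) (f : FT) (fl : Bool) (a b : ℕ) (X : ℕ → Sg) (rv : ℕ → Bool) (m : ℕ) (Y : ℕ → Sg)
    (m' : ℕ) : ℕ :=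
  if ∃ k < m, fo n f (xor fl (rv k)) a b (X k) Y n m' < n then
    fo n f (xor fl (rv (pick fl m fun k => fo n f (xor fl (rv k)) a b (X k) Y n m' < n))) a b
      (X (pick fl m fun k => fo n f (xor fl (rv k)) a b (X k) Y n m' < n)) Y n m'
  else n

namespace Cm

variable {M M' : Cm}

/-- Weakly correct segments. -/
def wo (M : Cm) (A : Sg) : Prop := M.al A.p → M.ok A

/-- `f` is the two-segment primitive of `M`. -/
def GF (M : Cm) (f : FT) : Prop :=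
  ∀ fl a b A B, a < 4 → b < 4 → a ≠ b → M.wo A → M.wo B → f fl a b A B = M.F fl a b A B

/-- The passages of `A` in `M'` by the side `a` are those of the pieces `X k`, `k < m`, of `M`;
the pieces pass removed cells only by the side `δ`. -/
structure Cov (M M' : Cm) (δ a : ℕ) (A : Sg) (X : ℕ → Sg) (rv : ℕ → Bool) (m : ℕ) : Prop where
  wo : ∀ k < m, M.wo (X k)
  c1 : ∀ y, M'.Ps A y a → ∃ k < m, M.ok (X k) ∧ M.Ps (X k) y a
  c2 : ∀ k < m, ∀ y, M.ok (X k) → M.Ps (X k) y a → M'.Ps A y a ∨ (¬M'.al y ∧ a = δ)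
  lt : ∀ k k' y y', k < k' → k' < m → M.ok (X k) → M.ok (X k') → M.Ps (X k) y a →
    M.Ps (X k') y' a → M'.al y → M'.al y' → M'.Bf A y y'
  eq : ∀ k < m, ∀ y y', M.ok (X k) → M.Ps (X k) y a → M.Ps (X k) y' a → M'.al y → M'.al y' →
    M.Bo (!rv k) (X k) y y' → M'.Bf A y y'

variable {f : FT} {A B X : Sg}

theorem ok.wo (k : M.ok A) : M.wo A := fun _ => k

theorem wo_dead (k : ¬M.al A.p) : M.wo A := fun u => absurd u k

theorem junk_wo (h : M.Ok) : M.wo (junk M.n) := wo_dead h.not_al_n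

theorem junk_not (h : M.Ok) : ¬M.ok (junk M.n) := fun k => h.not_al_n k.2.1

theorem one_wo {i : ℕ} (y s : ℕ) (hi : i < 4) : M.wo ⟨i, y, s, y⟩ := fun k => one_ok s hi k

theorem gf_self (M : Cm) : M.GF M.F := fun _ _ _ _ _ _ _ _ _ _ => rfl

theorem onf_iff (h : M.Ok) (g : M.GF f) {y a : ℕ} (ha : a < 4) (w : M.wo A) :
    onf M.n f y a A ↔ M.ok A ∧ M.Ps A y a := by
  have b : (a + 1) % 4 < 4 := Nat.mod_lt _ (by omega)
  unfold onf
  rw [g _ _ _ _ _ ha b (by omega) w (one_wo _ _ b)]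
  by_cases k : M.ok A ∧ M.ok ⟨(a + 1) % 4, y, (a + 1) % 4, y⟩
  · rw [(F_spec h true _ _ k.1 k.2).lt_iff]
    exact ⟨fun ⟨u, u1, u2⟩ => ⟨k.1, ((one_ps h k.2 _ _).1 u2).1 ▸ u1⟩,
      fun u => ⟨y, u.2, (one_ps h k.2 _ _).2 ⟨rfl, rfl⟩⟩⟩
  · rw [F_junk _ _ _ k]
    exact ⟨fun u => absurd u (lt_irrefl _), fun u => absurd ⟨u.1, one_ok _ b (u.2.mem.al h u.1)⟩ k⟩

theorem Ps.side {y a : ℕ} (p : M.Ps A y a) : (y = A.p ∧ a = A.s) ∨ a = A.i % 4 ∨ a = (A.i + 3) % 4 := by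
  obtain ⟨t, -, rfl, rfl⟩ := p
  cases t with
  | zero => exact Or.inl ⟨rfl, rfl⟩
  | succ t => exact Or.inr (ss_cases _ _)

theorem onc_iff (h : M.Ok) (g : M.GF f) {y : ℕ} (hi : A.i < 4) (w : M.wo A)
    (hs : A.s = A.i ∨ A.s = (A.i + 3) % 4) : onc M.n f y A ↔ M.ok A ∧ M.Mem A y := by
  unfold onc
  rw [onf_iff h g hi w, onf_iff h g (Nat.mod_lt _ (by omega)) w]
  refine ⟨fun k => k.elim (fun k => ⟨k.1, k.2.mem⟩) fun k => ⟨k.1, k.2.mem⟩, fun ⟨k, m⟩ => ?_⟩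
  obtain ⟨a, p⟩ := m.ps
  rcases p.side with u | u | u
  · rcases hs with e | e
    exacts [Or.inl ⟨k, e ▸ u.2 ▸ p⟩, Or.inr ⟨k, e ▸ u.2 ▸ p⟩]
  · rw [Nat.mod_eq_of_lt hi] at u
    exact Or.inl ⟨k, u ▸ p⟩
  · exact Or.inr ⟨k, u ▸ p⟩

theorem shr_spec (h : M.Ok) (k : M.ok X) {fl : Bool} {a r : ℕ} (m : M.Mem X r)
    (s : fl = true ∨ M.Ps X r a) : M.ok (shr M.n fl a X r) ∧
      (∀ y c, M.Ps (shr M.n fl a X r) y c ↔ M.Ps X y c ∧ M.Bo fl X y r) ∧
      ∀ y y', M.Bo fl (shr M.n fl a X r) y y' → M.Bo fl X y y' := by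
  rw [shr, if_pos (h.lt _ (m.al h k))]
  cases fl
  · obtain ⟨u1, u2, u3⟩ := cutp h k (s.resolve_left (by simp))
    exact ⟨u1, u2, fun y y' b => ((u3 _ _).1 b).1⟩
  · obtain ⟨u1, u2, u3⟩ := cutq h k m
    exact ⟨u1, u2, fun y y' b => ((u3 _ _).1 b).1⟩

/-- The fold, started with `r0`. -/
theorem fo_spec' (h : M.Ok) (g : M.GF f) (fl : Bool) {a b : ℕ} (ha : a < 4) (hb : b < 4)
    (hab : a ≠ b) (k : M.ok X) {B : ℕ → Sg} {r0 : ℕ}
    (h0 : r0 = M.n ∨ (M.Mem X r0 ∧ (fl = true ∨ M.Ps X r0 a))) :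
    ∀ m, (∀ l < m, M.wo (B l)) → M.Ex fl X
      (fun y => (y = r0 ∧ r0 < M.n) ∨ (M.Ps X y a ∧ ∃ l < m, M.ok (B l) ∧ M.Ps (B l) y b))
      (fo M.n f fl a b X B r0 m) := by
  intro m
  induction m with
  | zero =>
    intro _
    show M.Ex _ _ _ r0
    rcases h0 with e | ⟨e, -⟩
    · exact Or.inl ⟨e, fun u c => c.elim (fun c => c.2.ne e) fun ⟨_, _, c, _⟩ => by omega⟩
    · refine Or.inr ⟨h.lt _ (e.al h k), Or.inl ⟨rfl, h.lt _ (e.al h k)⟩, fun u c => ?_⟩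
      rcases c with c | ⟨_, _, c, _⟩
      · exact c.1 ▸ e.bo fl
      · omega
  | succ m ih =>
    intro w
    have i := ih fun l hl => w l (hl.trans m.lt_succ_self)
    have wm := w m m.lt_succ_self
    show M.Ex _ _ _ (if f fl a b (shr M.n fl a X (fo M.n f fl a b X B r0 m)) (B m) < M.n then
      f fl a b (shr M.n fl a X (fo M.n f fl a b X B r0 m)) (B m) else fo M.n f fl a b X B r0 m)
    generalize fo M.n f fl a b X B r0 m = r at i
    have sp : ∀ y, ((y = r0 ∧ r0 < M.n) ∨ (M.Ps X y a ∧ ∃ l < m + 1, M.ok (B l) ∧ M.Ps (B l) y b)) ↔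
        ((y = r0 ∧ r0 < M.n) ∨ (M.Ps X y a ∧ ∃ l < m, M.ok (B l) ∧ M.Ps (B l) y b)) ∨
          (M.Ps X y a ∧ M.ok (B m) ∧ M.Ps (B m) y b) := fun y => by
      rw [Nat.exists_lt_succ_right, and_or_left, or_assoc]
    refine Ex.congr ?_ fun y => (sp y).symm
    by_cases ob : M.ok (B m)
    swap
    · have w1 : M.wo (shr M.n fl a X r) := by
        rcases i with ⟨e, -⟩ | ⟨-, i1, -⟩
        · rw [shr, if_neg e.not_lt]; exact k.wo
        · rcases i1 with ⟨rfl, c⟩ | i1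
          · obtain ⟨c1, c2⟩ := h0.resolve_left c.ne
            exact (shr_spec h k c1 c2).1.wo
          · exact (shr_spec h k i1.1.mem (Or.inr i1.1)).1.wo
      rw [g _ _ _ _ _ ha hb hab w1 wm, F_junk _ _ _ fun u => ob u.2, if_neg (lt_irrefl _)]
      exact i.congr fun u => ⟨Or.inl, fun c => c.elim id fun c => absurd c.2.1 ob⟩
    rcases i with ⟨e, i2⟩ | ⟨i0, i1, i2⟩
    · rw [shr, if_neg e.not_lt, g _ _ _ _ _ ha hb hab k.wo wm]
      have s := F_spec h fl a b k ob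
      have s' := s.congr (J := fun y => ((y = r0 ∧ r0 < M.n) ∨
          (M.Ps X y a ∧ ∃ l < m, M.ok (B l) ∧ M.Ps (B l) y b)) ∨
          (M.Ps X y a ∧ M.ok (B m) ∧ M.Ps (B m) y b)) fun u =>
        ⟨fun c => Or.inr ⟨c.1, ob, c.2⟩, fun c => c.elim (fun c => absurd c (i2 u))
          fun c => ⟨c.1, c.2.2⟩⟩
      split_ifs with u
      · exact s'
      · exact (e.trans (le_antisymm s.le (not_lt.1 u)).symm) ▸ s'
    · obtain ⟨c1, c2⟩ : M.Mem X r ∧ (fl = true ∨ M.Ps X r a) := by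
        rcases i1 with ⟨rfl, c⟩ | i1
        exacts [h0.resolve_left c.ne, ⟨i1.1.mem, Or.inr i1.1⟩]
      obtain ⟨s1, s2, s3⟩ := shr_spec h k c1 c2
      rw [g _ _ _ _ _ ha hb hab s1.wo wm]
      have s := F_spec h fl a b s1 ob
      split_ifs with u
      · obtain ⟨⟨v1, v2⟩, v3⟩ := s.of_lt u
        obtain ⟨v4, v5⟩ := (s2 _ _).1 v1
        refine Or.inr ⟨u, Or.inr ⟨v4, ob, v2⟩, fun y c => ?_⟩
        rcases c with c | c
        · exact v5.trans h k (i2 y c)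
        · rcases c.1.mem.toto fl c1 with t | t
          exacts [s3 _ _ (v3 y ⟨(s2 _ _).2 ⟨c.1, t⟩, c.2.2⟩), v5.trans h k t]
      · refine Or.inr ⟨i0, Or.inl i1, fun y c => ?_⟩
        rcases c with c | c
        · exact i2 y c
        · rcases c.1.mem.toto fl c1 with t | t
          exacts [absurd (s.lt_iff.2 ⟨y, (s2 _ _).2 ⟨c.1, t⟩, c.2.2⟩) u, t]

theorem fo_spec (h : M.Ok) (g : M.GF f) (fl : Bool) {a b : ℕ} (ha : a < 4) (hb : b < 4)
    (hab : a ≠ b) (k : M.ok X) {B : ℕ → Sg} {m : ℕ} (w : ∀ l < m, M.wo (B l)) :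
    M.Ex fl X (fun y => M.Ps X y a ∧ ∃ l < m, M.ok (B l) ∧ M.Ps (B l) y b)
      (fo M.n f fl a b X B M.n m) :=
  (fo_spec' h g fl ha hb hab k (Or.inl rfl) m w).congr fun _ =>
    ⟨fun c => c.resolve_left fun c => lt_irrefl _ c.2, Or.inr⟩

theorem fo_dead (g : M.GF f) (fl : Bool) {a b : ℕ} (ha : a < 4) (hb : b < 4)
    (hab : a ≠ b) (k : ¬M.al X.p) {B : ℕ → Sg} {m : ℕ} (w : ∀ l < m, M.wo (B l)) :
    fo M.n f fl a b X B M.n m = M.n := by
  induction m with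
  | zero => rfl
  | succ m ih =>
    show (if f fl a b (shr M.n fl a X (fo M.n f fl a b X B M.n m)) (B m) < M.n then
      f fl a b (shr M.n fl a X (fo M.n f fl a b X B M.n m)) (B m) else fo M.n f fl a b X B M.n m) = _
    rw [ih fun l hl => w l (hl.trans m.lt_succ_self), shr, if_neg (lt_irrefl _),
      g _ _ _ _ _ ha hb hab (wo_dead k) (w m m.lt_succ_self), F_junk _ _ _ fun u => k u.1.2.1,
      if_neg (lt_irrefl _)]

/-- FC: the new primitive. -/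
theorem fpc_eq (h : M.Ok) (h' : M'.Ok) (e : M'.n = M.n) (g : M.GF f) (fl : Bool) {δ a b : ℕ}
    (ha : a < 4) (hb : b < 4) (hab : a ≠ b) (oa : M'.ok A) (ob : M'.ok B) {X Y : ℕ → Sg}
    {rv rw' : ℕ → Bool} {m m' : ℕ} (ca : Cov M M' δ a A X rv m) (cb : Cov M M' δ b B Y rw' m') :
    fpc M.n f fl a b X rv m Y m' = M'.F fl a b A B := by
  have key : ∀ k < m, ∀ y, M.ok (X k) →
      (M.Ps (X k) y a ∧ ∃ l < m', M.ok (Y l) ∧ M.Ps (Y l) y b) → M'.Ps A y a ∧ M'.Ps B y b := by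
    rintro k hk y o ⟨p, l, hl, o', p'⟩
    rcases ca.c2 k hk y o p with u | u <;> rcases cb.c2 l hl y o' p' with v | v
    exacts [⟨u, v⟩, absurd (u.mem.al h' oa) v.1, absurd (v.mem.al h' ob) u.1,
      absurd (u.2.trans v.2.symm) hab]
  have okk : ∀ k < m, fo M.n f (xor fl (rv k)) a b (X k) Y M.n m' < M.n → M.ok (X k) :=
    fun k hk c => ca.wo k hk (by_contra fun d => c.ne (fo_dead g _ ha hb hab d cb.wo))
  have back : ∀ y, M'.Ps A y a ∧ M'.Ps B y b → ∃ k < m, M.ok (X k) ∧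
      M.Ps (X k) y a ∧ ∃ l < m', M.ok (Y l) ∧ M.Ps (Y l) y b := fun y c =>
    let ⟨k, k1, k2, k3⟩ := ca.c1 y c.1; ⟨k, k1, k2, k3, cb.c1 y c.2⟩
  refine Ex.uniq h' oa ?_ (F_spec h' fl a b oa ob)
  unfold fpc
  split_ifs with u
  · obtain ⟨p1, p2, p3⟩ := pick_spec fl u
    generalize (pick fl m fun k => fo M.n f (xor fl (rv k)) a b (X k) Y M.n m' < M.n) = k0
      at p1 p2 p3
    have o := okk k0 p1 p2
    obtain ⟨s1, s2⟩ := (fo_spec h g (xor fl (rv k0)) ha hb hab o cb.wo).of_lt p2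
    have s3 := key k0 p1 _ o s1
    have a0 := s3.1.mem.al h' oa
    refine Or.inr ⟨e ▸ p2, s3, fun y c => ?_⟩
    obtain ⟨k, k1, k2, k3⟩ := back y c
    have a1 := c.1.mem.al h' oa
    have t := p3 k k1 ((fo_spec h g (xor fl (rv k)) ha hb hab k2 cb.wo).lt_iff.2 ⟨y, k3⟩)
    by_cases ek : k = k0
    · subst ek
      have b0 := s2 y k3
      cases fl
      · refine ca.eq k k1 _ _ o k3.1 s1.1 a1 a0 ?_
        revert b0
        cases rv k <;> exact id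
      · refine ca.eq k k1 _ _ o s1.1 k3.1 a0 a1 ?_
        revert b0
        cases rv k <;> exact id
    · cases fl
      · exact ca.lt k k0 _ _ (lt_of_le_of_ne t ek) p1 k2 o k3.1 s1.1 a1 a0
      · exact ca.lt k0 k _ _ (lt_of_le_of_ne t (Ne.symm ek)) k1 o k2 s1.1 k3.1 a0 a1
  · refine Or.inl ⟨e.symm, fun y c => ?_⟩
    obtain ⟨k, k1, k2, k3⟩ := back y c
    exact u ⟨k, k1, (fo_spec h g (xor fl (rv k)) ha hb hab k2 cb.wo).lt_iff.2 ⟨y, k3⟩⟩

end Cm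

end

end Pool.Agent.MP_1a6d78_lc.PG
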