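import Pool.Agent.MP_1a6d78_lc.PG.Geo

/-! PROJECT PG: the statements for the kill round.  Hints: PSC1a6d78_BLUEPRINT.md.
Up types `i < 2`, down types `w = 2, 3`. -/

namespace Pool.Agent.MP_1a6d78_lc.PG

open Classical ED PR GL Relation

noncomputable section

namespace Cm

variable (M : Cm)

/-- FLOW: the region kit (proved in PS/Flow). -/
structure FlowK : Prop where
  rg1 : ∀ k < 4, ∀ a, M.al a → M.Rg (pt a (M.ss k a)) (pt (M.st k a) (M.ss k a))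
  rg2 : ∀ k < 4, ∀ a, M.al a →
    M.Rg (pt a (os k (M.ss k a))) (pt (M.st k a) (os k (M.ss k a) + 2))
  plk : ∀ p, M.Prb (M.lk p) ↔ M.Prb p
  psad : ∀ k < 4, ∀ a, M.Prb (pt a k) ↔ M.al a ∧ M.Sad (pt a (os k (M.ss k a)))
  turn : ∀ k < 4, ∀ a, M.al a → M.FE ((k + 2) % 4) (M.st k a) ((M.ss k a + 2) % 4) < M.n ∧
    ∃ u, M.Ti k (os k (M.ss k a)) (M.FE ((k + 2) % 4) (M.st k a) ((M.ss k a + 2) % 4)) u ∧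
      M.ss k u = M.ss k a ∧ (M.Prb (pt a k) ↔ u ≠ a) ∧ (u ≠ a → M.Prb (pt u k))
  bk : ∀ k < 4, ∀ a, M.al a → ∃ g, M.Ti (ep k (os k (M.ss k a))) (os k (M.ss k a)) a g ∧
    M.ss (ep k (os k (M.ss k a))) g ≠ os k (M.ss k a) ∧
    (M.Prb (pt g (ep k (os k (M.ss k a)))) ↔ M.Prb (pt a k))
  rev : ∀ k < 4, ∀ a u v, M.al u → (a = k ∨ a = (k + 3) % 4) → M.Ti k a u v → M.Ti (ep k a) a v u
  trace : ∀ k < 4, ∀ (χ : ℕ → Prop) a, (∀ c, M.al c → (χ (M.st ((k + 2) % 4) c) ↔ χ c)) → M.al a →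
    ¬(χ a ↔ χ (M.st k a)) → ¬M.Prb (pt a k) → ∃ a', M.al a' ∧ M.Pa k (M.st k a') a ∧
      M.ss k a' ≠ M.ss k a ∧ (χ a' ↔ χ (M.st k a)) ∧ (χ (M.st k a') ↔ χ a)
  back : ∀ (S : ℕ → Prop) (r : ℕ → ℕ → Prop), (∀ a, S a → a < M.n ∧ ∃ b, S b ∧ r b a) →
    (∃ a, S a) → ∃ a, S a ∧ TransGen r a a

/-- An end of a saddle link that is listed for `x`. -/
def Lsd (x p : ℕ) : Prop :=
  M.Prb p ∧ (M.Co ((p + 1) % 2) (p / 4) x ∨ M.Co ((M.lk p + 1) % 2) (M.lk p / 4) x)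

def Src (x d : ℕ) : Prop := d = x ∨ ∃ p, M.Lsd x p ∧ d = p / 4

def Cand (En : ℕ → ℕ → ℕ) (x b : ℕ) : Prop :=
  (∃ p, M.Lsd x p ∧ b = p / 4) ∨
    ∃ w d, (w = 2 ∨ w = 3) ∧ M.Src x d ∧ b = M.FE w (En w d) (hs w) ∧ b < M.n

/-- The up walk hugs a face until it reaches a cell that dies with `x`. -/
def Hug (i x e : ℕ) : Prop := ∃ d, M.Ti i (hs i) e d ∧ M.Dd x d

/-- The walk from `p` (first passage counted with side `s`) passes `r` by the side `a`. -/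
def Pw (i p s r a : ℕ) : Prop :=
  (r = p ∧ a = s) ∨ ∃ t, M.wk i p (t + 1) = r ∧ M.ss i (M.wk i p t) = a

def Mt (p s b : ℕ) : Prop := M.Pa 0 p b ∨ ∃ r, M.Pw 0 p s r 3 ∧ M.Pw 3 b 3 r 2

variable (M' : Cm)

/-- The region below `e` has a surviving cell. -/
def Lv (e : ℕ) : Prop :=
  M.al e ∧ ∃ u, M'.al u ∧ (M.Rg (4 * e + 2) (4 * u + 2) ∨ M.Rg (4 * e + 2) (4 * u))

/-- The first survivor on the walk after `e` comes after `t + 1` steps. -/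
def Nt (w e t : ℕ) : Prop := (∀ s < t, ¬M'.al (M.wk w e (s + 1))) ∧ M'.al (M.wk w e (t + 1))

end Cm

/-- A kill on the semantic level. -/
structure Ks where
  M : Cm
  M' : Cm
  X : ℕ → Prop
  En : ℕ → ℕ → ℕ

namespace Ks

variable (Z : Ks)

structure Hy : Prop where
  ok : Z.M.Ok
  ok' : Z.M'.Ok
  fl : Z.M.FlowK
  fl' : Z.M'.FlowK
  fam : Z.M.Fam Z.X
  smo : Z.M.Smo Z.M' (Z.M.Dead Z.X)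
  nm : Z.M.Nm Z.En

/-- DEAD -/
structure DeadK : Prop where
  rg : ∀ {x c u}, Z.M.Dd x c → Z.M.Rg (4 * c) (4 * u) → Z.M.Dd x u
  inc : ∀ {x c u}, Z.X x → Z.M.Dd x c → Z.M.Rg (4 * c) (4 * u + 2) → Z.M.Dd x u
  st : ∀ {x c i}, Z.X x → i < 2 → Z.M.Dd x c → Z.M.Dd x (Z.M.st i c)
  pa : ∀ {x c i}, Z.X x → i < 2 → Z.M.Dd x c → Z.M.Pa i c x
  per : ∀ {x i}, Z.X x → i < 2 → Z.M.Per i x
  top : ∀ {x c i}, Z.X x → i < 2 → Z.M.Per i c → Z.M.Co i c x →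
    Z.M.Rg (4 * x) (4 * c) ∧ Z.M.ss i c = 0
  uniq : ∀ {x y c i}, Z.X x → Z.X y → i < 2 → Z.M.Co i c x → Z.M.Co i c y → x = y
  rank : ∀ {x}, Z.X x → ∃ ρ : ℕ → ℕ, ∀ c u, Z.M.Dd x c →
    (Z.M.Rg (4 * c) (4 * u) → ρ u = ρ c) ∧ (Z.M.Rg (4 * c) (4 * u + 2) → ρ u < ρ c)
  lv : ∀ {e}, Z.M'.al e → Z.M.Lv Z.M' e
  lvst : ∀ {w e}, w = 2 ∨ w = 3 → Z.M.Lv Z.M' e →
    Z.M.Lv Z.M' (Z.M.st w e) ∧ (Z.M.ss w e ≠ 2 → Z.M'.al (Z.M.st w e))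
  bnd : ∀ {i q}, i < 2 → Z.M'.al q → ¬Z.M'.al (Z.M.st i q) →
    Z.M.ss i q = hs i ∧ Z.M.Lv Z.M' (Z.M.st i q)
  hug : ∀ {i x e}, Z.X x → i < 2 → Z.M.Hug i x e → Z.M.Pa i e x

/-- SMO: the new links and the walks that do not change. -/
structure SmoK : Prop where
  ex : ∀ {w e}, w = 2 ∨ w = 3 → Z.M.Lv Z.M' e → ∃ t, Z.M.Nt Z.M' w e t
  dn : ∀ {w e t}, w = 2 ∨ w = 3 → Z.M'.al e → Z.M.Nt Z.M' w e t →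
    Z.M'.lk (pt e w) = Z.M.lk (pt (Z.M.wk w e t) w)
  same : ∀ {p}, Z.M'.al (p / 4) → Z.M'.al (Z.M.lk p / 4) → Z.M'.lk p = Z.M.lk p
  up : ∀ {i q t}, i < 2 → Z.M'.al q → ¬Z.M'.al (Z.M.st i q) → Z.M.Nt Z.M' (2 + i) (Z.M.st i q) t →
    Z.M'.lk (pt q i) = Z.M.lk (pt (Z.M.wk (2 + i) (Z.M.st i q) t) (2 + i))
  idx : ∀ {w c}, w = 2 ∨ w = 3 → Z.M'.al c → ∃ u : ℕ → ℕ, StrictMono u ∧ u 0 = 0 ∧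
    (∀ t, Z.M'.wk w c t = Z.M.wk w c (u t) ∧
      Z.M'.ss w (Z.M'.wk w c t) = Z.M.ss w (Z.M.wk w c (u (t + 1) - 1))) ∧
    ∀ s, Z.M'.al (Z.M.wk w c s) → ∃ t, u t = s
  free : ∀ {i c}, i < 2 → Z.M.al c → (∀ x, Z.X x → ¬Z.M.Co i c x) → ∀ t,
    Z.M'.al (Z.M.wk i c t) ∧ Z.M'.wk i c t = Z.M.wk i c t ∧
      Z.M'.ss i (Z.M.wk i c t) = Z.M.ss i (Z.M.wk i c t)

/-- DOWN: consequences for the down walks. -/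
structure DownK : Prop where
  pa : ∀ {w c y}, w = 2 ∨ w = 3 → Z.M'.al c → (Z.M'.Pa w c y ↔ Z.M.Pa w c y ∧ Z.M'.al y)
  per : ∀ {w c}, w = 2 ∨ w = 3 → Z.M'.al c → (Z.M'.Per w c ↔ Z.M.Per w c)
  co : ∀ {w a b}, w = 2 ∨ w = 3 → Z.M'.al a → Z.M'.al b → (Z.M'.Co w a b ↔ Z.M.Co w a b)
  pw : ∀ {w c s r a}, w = 2 ∨ w = 3 → Z.M'.al c →
    (Z.M'.Pw w c s r a ↔ Z.M.Pw w c s r a ∧ Z.M'.al r)
  fe : ∀ {w c a}, w = 2 ∨ w = 3 → Z.M'.al c → a ≠ 2 → Z.M'.FE w c a = Z.M.FE w c a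
  fe2 : ∀ {w c s}, w = 2 ∨ w = 3 → Z.M'.al c → Z.M'.al (Z.M.wk w c (s + 1)) →
    Z.M.ss w (Z.M.wk w c s) = 2 →
    (∀ r < s, ¬(Z.M'.al (Z.M.wk w c (r + 1)) ∧ Z.M.ss w (Z.M.wk w c r) = 2)) →
      Z.M'.FE w c 2 = Z.M.wk w c (s + 1)
  fen : ∀ {w c}, w = 2 ∨ w = 3 → Z.M'.al c →
    (∀ r, ¬(Z.M'.al (Z.M.wk w c (r + 1)) ∧ Z.M.ss w (Z.M.wk w c r) = 2)) → Z.M'.FE w c 2 = Z.M.n
  ps : ∀ {A : Sg}, A.i = 2 ∨ A.i = 3 → Z.M'.ok A → Z.M.ok A ∧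
    (∀ y a, Z.M'.Ps A y a ↔ Z.M.Ps A y a ∧ Z.M'.al y) ∧
    (∀ y a, Z.M.Ps A y a → ¬Z.M'.al y → a = 2) ∧
    ∀ y y', Z.M'.al y → Z.M'.al y' → (Z.M'.Bf A y y' ↔ Z.M.Bf A y y')

/-- RUN: independence. -/
structure RunK : Prop where
  cross : ∀ {w x e}, w = 2 ∨ w = 3 → Z.X x → Z.M.al e → Z.M.Hug (3 - w) x e → Z.M.ss w e = 2 →
    (Z.M.Lsd x (pt e w) ∨ Z.M.Hug (w - 2) x (Z.M.st w e)) ∧
      ∀ y, Z.X y → Z.M.Co (w - 2) (Z.M.st w e) y → y = x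
  run : ∀ {w x e t}, w = 2 ∨ w = 3 → Z.X x → Z.M.Dd x e → Z.M.Lv Z.M' e → Z.M.Nt Z.M' w e t →
    ∀ s ≤ t, Z.M.Dd x (Z.M.wk w e s)
  gcase : ∀ {i x q}, i < 2 → Z.X x → Z.M'.al q → Z.M.Dd x (Z.M.st i q) →
    (∃ d, Z.M.Dd x d ∧ Z.M.lk (pt d (2 + i)) = Z.M'.lk (pt q i)) ∧
    (Z.M.Lsd x (Z.M'.lk (pt q i)) ∨ (Z.M'.ss i q = hs i ∧ Z.M.Hug i x (Z.M'.st i q)))
  inv : ∀ {i x y p}, i < 2 → Z.X x → Z.X y → Z.M'.al p → Z.M.Co i p x →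
    Z.M.Co i (Z.M'.st i p) y → y = x
  cand : ∀ {x y b}, Z.X x → Z.X y → Z.M.Cand Z.En x b → Z.M.Dd y b → y = x
  ring : ∀ {w y b}, w = 2 ∨ w = 3 → Z.X y → Z.M.Kd w (hs w) b → ¬Z.M.Dd y b

/-- ASC: cycles of the down types are seen from the lists. -/
structure AscK : Prop where
  one : ∀ {w x c}, w = 2 ∨ w = 3 → Z.X x → Z.M.al c → Z.M.Co (w - 2) c x →
    ∃ d, Z.M.Src x d ∧ Z.M.Co w d c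
  two : ∀ {w x c q v}, w = 2 ∨ w = 3 → Z.X x → Z.M.al c → Z.M.Co (w - 2) c x → Z.M.Lsd x q →
    (q + w) % 2 = 1 → Z.M.al v → Z.M.Co (w - 2) v x → Z.M.Co w v (q / 4) →
      ∃ q', Z.M.Lsd x q' ∧ (q' + w) % 2 = 1 ∧ Z.M.Co w (q' / 4) c

/-- WALL -/
structure WallK : Prop where
  one : ∀ {i x g}, i < 2 → Z.X x → Z.M'.al g → Z.M.Hug i x g →
    ∃ b, Z.M.Cand Z.En x b ∧ Z.M'.al b ∧ Z.M'.Ti (3 - i) (hs i) b g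
  two : ∀ {w x e}, w = 2 ∨ w = 3 → Z.X x → Z.M.al e → Z.M.Hug (3 - w) x e → Z.M.ss w e = 2 →
    Z.M'.al (Z.M.st w e) →
      ∃ b, Z.M.Cand Z.En x b ∧ Z.M'.al b ∧ Z.M'.Ti (5 - w) (hs (5 - w)) b (Z.M.st w e)

structure G1 : Prop where
  hy : Z.Hy
  dead : Z.DeadK
  smo : Z.SmoK
  down : Z.DownK
  run : Z.RunK
  asc : Z.AscK
  wall : Z.WallK

/-- MEET -/
structure MeetK : Prop where
  ex : ∀ {x c} s, Z.X x → Z.M'.al c → Z.M.Co 0 c x →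
    ∃ b, Z.M.Cand Z.En x b ∧ Z.M'.al b ∧ Z.M.Mt c s b
  al : ∀ {c b}, Z.M.al c → Z.M'.al b → Z.M.Mt c 0 b → Z.M'.al c
  rk : ∀ {x u b} (ρ : ℕ → ℕ), Z.X x → (∀ c u, Z.M.Dd x c →
    (Z.M.Rg (4 * c) (4 * u) → ρ u = ρ c) ∧ (Z.M.Rg (4 * c) (4 * u + 2) → ρ u < ρ c)) →
    Z.M.Dd x u → Z.M.FE 0 u 3 < Z.M.n → Z.M.al b → Z.M.Mt (Z.M.FE 0 u 3) 3 b →
      Z.M.Dd x b ∧ ρ b < ρ u
  hop : ∀ {u}, Z.M.FE 0 u 3 < Z.M.n → Z.M.FE 2 (Z.M.FE 0 u 3) 1 < Z.M.n ∧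
    Z.M.Rg (4 * u) (4 * Z.M.FE 2 (Z.M.FE 0 u 3) 1)
  step : ∀ {x u}, Z.X x → Z.M'.al u → Z.M.Co 0 u x → Z.M.FE 0 u 3 < Z.M.n ∧
    ((∃ b, Z.M.Cand Z.En x b ∧ Z.M'.al b ∧ Z.M.Mt (Z.M.FE 0 u 3) 3 b) ∨
      (Z.M.Cand Z.En x (Z.M.FE 2 (Z.M.FE 0 u 3) 1) ∧
        ∀ d, Z.M.Ti 2 2 (Z.M.FE 0 u 3) d → Z.M.Dd x d))
  fin : ∀ {x} (u : ℕ → ℕ), Z.X x → Z.M.al (u 0) → (∀ r, Z.M.FE 0 (u r) 3 < Z.M.n ∧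
    u (r + 1) = Z.M.FE 2 (Z.M.FE 0 (u r) 3) 1 ∧
      ∀ d, Z.M.Ti 2 2 (Z.M.FE 0 (u r) 3) d → Z.M.Dd x d) → Z.M.Dd x (u 0)

/-- VAL: new saddle links. -/
structure ValK : Prop where
  sad : ∀ {x}, Z.M'.al (x / 4) → x % 2 = 0 → Z.M'.Sad x → Z.M.Sad x
  val : ∀ {p}, Z.M'.Prb p → ¬Z.M.Prb p → ∃ x, Z.X x ∧ p % 4 = 3 - (p + 1) % 2 ∧
    Z.M.ss (p % 4) (p / 4) = 2 ∧ Z.M.Hug ((p + 1) % 2) x (p / 4)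

/-- ANC -/
structure AncK : Prop where
  dn : ∀ {p x}, Z.M'.Prb p → ¬Z.M.Prb p → Z.X x → Z.M.Co ((p + 1) % 2) (p / 4) x →
    ∃ q, Z.M.Lsd x q ∧ q % 2 = p % 2 ∧ Z.M.Co (2 + (p + 1) % 2) (q / 4) (p / 4)
  up : ∀ {i c y x}, i < 2 → Z.X x → Z.M'.al c → Z.M.Co i c x → Z.M'.Pa i c y → ¬Z.M.Co i y x →
    ∃ q, Z.M.Lsd x q ∧ (q + i) % 2 = 1 ∧ Z.M.Co i (q / 4) y
  cand : ∀ {p x}, Z.M'.Prb p → Z.X x → Z.M.Co ((p + 1) % 2) (p / 4) x →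
    ∃ b, Z.M.Cand Z.En x b ∧ Z.M'.al b ∧ (p / 4 = b ∨ Z.M'.lk p / 4 = b ∨
      ∃ w, (w = 2 ∨ w = 3) ∧ Z.M'.lk p = pt (Z.M'.FE w b 2) (ep w 2))

end Ks

def FlowS : Prop := ∀ M : Cm, M.Ok → M.FlowK

def DeadS : Prop := ∀ Z : Ks, Z.Hy → Z.DeadK

def SmoS : Prop := ∀ Z : Ks, Z.Hy → Z.DeadK → Z.SmoK

def DownS : Prop := ∀ Z : Ks, Z.Hy → Z.DeadK → Z.SmoK → Z.DownK

def RunS : Prop := ∀ Z : Ks, Z.Hy → Z.DeadK → Z.SmoK → Z.RunK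

def AscS : Prop := ∀ Z : Ks, Z.Hy → Z.DeadK → Z.AscK

def WallS : Prop := ∀ Z : Ks, Z.Hy → Z.DeadK → Z.SmoK → Z.DownK → Z.RunK → Z.AscK → Z.WallK

def MeetS : Prop := ∀ Z : Ks, Z.G1 → Z.MeetK

def ValS : Prop := ∀ Z : Ks, Z.G1 → Z.ValK

def AncS : Prop := ∀ Z : Ks, Z.G1 → Z.ValK → Z.AncK

end

end Pool.Agent.MP_1a6d78_lc.PG
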