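import Pool.Agent.MP_1a6d78_lc.PG.Cert

/-! PROJECT PG: frames. -/

namespace Pool.Agent.MP_1a6d78_lc.PG.Ct

open Classical ED PR PL Relation

variable {M : Cm} {g a b c i x y z p q u : ℕ}

/-- The label `x` of the new map is the label `ts g x` of the old map. -/
def ts (g x : ℕ) : ℕ := 4 * (x / 4) + fs g x

/-- The segment `A` of the new map is the segment `tA g A` of the old map. -/
def tA (g : ℕ) (A : Sg) : Sg := ⟨fp g A.i, A.p, fs g A.s, A.q⟩

theorem gi_lt (h : g < 8) : gi g < 8 := by unfold gi; split_ifs <;> omega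

theorem gi_gi (h : g < 8) : gi (gi g) = g := by unfold gi; split_ifs <;> omega

theorem fp_lt (g q : ℕ) : fp g q < 4 := by unfold fp; split_ifs <;> omega

theorem fs_lt (g q : ℕ) : fs g q < 4 := by unfold fs; split_ifs <;> omega

theorem fp_fp (h : g < 8) (q : ℕ) : fp (gi g) (fp g q) = q % 4 ∧ fp g (fp (gi g) q) = q % 4 := by
  unfold fp gi
  split_ifs <;> omega

theorem fs_fs (h : g < 8) (q : ℕ) : fs (gi g) (fs g q) = q % 4 ∧ fs g (fs (gi g) q) = q % 4 := by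
  unfold fs gi
  split_ifs <;> omega

theorem fs_inj (h : g < 8) : fs g a = fs g b ↔ a % 4 = b % 4 := by
  unfold fs
  split_ifs <;> omega

theorem fp_inj (h : g < 8) : fp g a = fp g b ↔ a % 4 = b % 4 := by
  unfold fp
  split_ifs <;> omega

theorem tp_div (g p : ℕ) : tp g p / 4 = p / 4 := by have := fp_lt g p; unfold tp; omega

theorem ts_div (g p : ℕ) : ts g p / 4 = p / 4 := by have := fs_lt g p; unfold ts; omega

theorem tp_mod (g p : ℕ) : tp g p % 4 = fp g p := by have := fp_lt g p; unfold tp; omega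

theorem ts_mod (g p : ℕ) : ts g p % 4 = fs g p := by have := fs_lt g p; unfold ts; omega

theorem tp_tp (h : g < 8) (p : ℕ) : tp (gi g) (tp g p) = p ∧ tp g (tp (gi g) p) = p := by
  unfold tp fp gi
  split_ifs <;> omega

theorem ts_ts (h : g < 8) (p : ℕ) : ts (gi g) (ts g p) = p ∧ ts g (ts (gi g) p) = p := by
  unfold ts fs gi
  split_ifs <;> omega

theorem tp_pt (g c q : ℕ) : tp g (pt c q) = pt c (fp g q) := by
  unfold tp pt fp
  split_ifs <;> omega

theorem ts_pt (g c q : ℕ) : ts g (pt c q) = pt c (fs g q) := by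
  unfold ts pt fs
  split_ifs <;> omega

theorem ts_inj (h : g < 8) (e : ts g x = ts g y) : x = y := by
  rw [← (ts_ts h x).1, e, (ts_ts h y).1]

theorem tw_n (M : Cm) (g : ℕ) : (M.tw g).n = M.n := rfl

theorem tw_lk (h : g < 8) (p : ℕ) : tp g ((M.tw g).lk p) = M.lk (tp g p) := (tp_tp h _).2

theorem tw_tw (h : g < 8) (M : Cm) : (M.tw g).tw (gi g) = M := by
  unfold Cm.tw
  simp only [gi_gi h, (tp_tp h _).2]

theorem tw_tw' (h : g < 8) (M : Cm) : (M.tw (gi g)).tw g = M := by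
  have := tw_tw (gi_lt h) M
  rwa [gi_gi h] at this

theorem tw_fix (h : g < 8) (p : ℕ) : (M.tw g).lk p = p ↔ M.lk (tp g p) = tp g p :=
  ⟨fun e => by rw [← tw_lk h, e], fun e => by rw [← (tp_tp h ((M.tw g).lk p)).1, tw_lk h, e,
    (tp_tp h p).1]⟩

theorem tw_al (H : M.Ok) (h : g < 8) : (M.tw g).al = M.al := by
  funext c
  refine propext (((tw_fix h _).trans (H.fix _)).not.trans ?_)
  rw [not_not, tp_div, show 4 * c / 4 = c by omega]

theorem tw_ok (H : M.Ok) (h : g < 8) : (M.tw g).Ok := by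
  refine ⟨fun c k => H.lt c (tw_al H h ▸ k), fun p => ?_, fun p => ?_, fun p k => ?_⟩
  · rw [← (tp_tp h ((M.tw g).lk _)).1, tw_lk h, tw_lk h, H.inv, (tp_tp h p).1]
  · rw [tw_fix h, H.fix, tp_div, tw_al H h]
  · have := H.par (tp g p) (by rwa [tp_div, ← tw_al H h])
    rw [← tw_lk h] at this
    unfold tp fp at this
    split_ifs at this <;> omega

/-! ### Walks -/

theorem tw_st (h : g < 8) (i : ℕ) : (M.tw g).st i = M.st (fp g i) := by
  funext c
  unfold Cm.st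
  rw [← tp_div g, tw_lk h, tp_pt]

theorem tw_wk (h : g < 8) (i : ℕ) : (M.tw g).wk i = M.wk (fp g i) := by
  funext c t
  unfold Cm.wk
  rw [tw_st h]

theorem tw_pa (h : g < 8) (i : ℕ) : (M.tw g).Pa i = M.Pa (fp g i) := by
  funext a b
  unfold Cm.Pa
  rw [tw_wk h]

theorem tw_per (H : M.Ok) (h : g < 8) (i : ℕ) : (M.tw g).Per i = M.Per (fp g i) := by
  funext a
  unfold Cm.Per
  rw [tw_pa h, tw_st h, tw_al H h]

theorem tw_co (h : g < 8) (i : ℕ) : (M.tw g).Co i = M.Co (fp g i) := by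
  funext a b
  unfold Cm.Co
  rw [tw_pa h]

theorem ss_lt (M : Cm) (i c : ℕ) : M.ss i c < 4 := by unfold Cm.ss sd; split_ifs <;> omega

theorem tw_ss (H : M.Ok) (h : g < 8) (i : ℕ) (k : M.al c) :
    fs g ((M.tw g).ss i c) = M.ss (fp g i) c := by
  have := (tw_ok H h).par (pt c i) (by
    rwa [tw_al H h, show pt c i / 4 = c by unfold pt; omega])
  unfold Cm.ss
  rw [← tp_pt, ← tw_lk h]
  generalize (M.tw g).lk (pt c i) = r at *
  unfold sd tp fs fp
  unfold pt at this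
  split_ifs <;> omega

theorem tw_ss_iff (H : M.Ok) (h : g < 8) (i : ℕ) (k : M.al c) (ha : a < 4) :
    (M.tw g).ss i c = a ↔ M.ss (fp g i) c = fs g a := by
  have := ss_lt (M.tw g) i c
  rw [← tw_ss H h i k, fs_inj h]
  omega

theorem tw_kd (H : M.Ok) (h : g < 8) (ha : a < 4) :
    (M.tw g).Kd i a y ↔ M.Kd (fp g i) (fs g a) y := by
  unfold Cm.Kd
  rw [tw_per H h, tw_st h]
  exact exists_congr fun u => and_congr_right fun k => and_congr_right fun _ =>
    tw_ss_iff H h i k.1 ha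

theorem tw_nm (H : M.Ok) (h : g < 8) {En : ℕ → ℕ → ℕ} (N : M.Nm En) :
    (M.tw g).Nm fun i => En (fp g i) := by
  refine ⟨fun i _ c => ?_, fun i _ c => ?_, fun i _ c => ?_, fun i _ c => ?_⟩ <;> rw [tw_al H h]
  · exact N.junk _ (fp_lt g i) c
  · exact tw_pa h i ▸ N.pa _ (fp_lt g i) c
  · exact tw_per H h i ▸ N.per _ (fp_lt g i) c
  · exact tw_st h i ▸ N.st _ (fp_lt g i) c

theorem wk_al (H : M.Ok) (k : M.al c) (i t : ℕ) : M.al (M.wk i c t) := iter_inv (Q := M.al)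
  (fun a k => al_lk H (by rwa [show pt a i / 4 = a by unfold pt; omega])) k t

theorem tw_fe (H : M.Ok) (h : g < 8) (i c : ℕ) (ha : a < 4) :
    (M.tw g).FE i c a = M.FE (fp g i) c (fs g a) := by
  unfold Cm.FE
  rw [tw_al H h, tw_wk h, tw_n]
  by_cases k : M.al c
  · simp only [tw_ss_iff H h i (wk_al H k _ _) ha]
  · rw [if_neg fun v => k v.1, if_neg fun v => k v.1]

theorem tw_el (h : g < 8) (A : Sg) : (M.tw g).el A = M.el (tA g A) := by
  funext t
  unfold Cm.el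
  rw [tw_wk h]
  rfl

theorem tw_ln (h : g < 8) (A : Sg) : (M.tw g).ln A = M.ln (tA g A) := by
  unfold Cm.ln
  rw [tw_el h]
  rfl

theorem tw_sok (H : M.Ok) (h : g < 8) {A : Sg} (hA : A.i < 4) : (M.tw g).ok A ↔ M.ok (tA g A) := by
  unfold Cm.ok
  rw [tw_al H h, tw_pa h]
  exact and_congr ⟨fun _ => fp_lt _ _, fun _ => hA⟩ Iff.rfl

theorem tw_sv (H : M.Ok) (h : g < 8) {A : Sg} (k : M.al A.p) (hA : A.s < 4) (ha : a < 4) (t : ℕ) :
    (M.tw g).sv A t = a ↔ M.sv (tA g A) t = fs g a := by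
  unfold Cm.sv
  split_ifs
  · exact ⟨fun e => e ▸ rfl, fun e => by have := (fs_inj h).1 e; omega⟩
  · rw [tw_wk h]
    exact tw_ss_iff H h _ (wk_al H k _ _) ha

theorem tw_ps (H : M.Ok) (h : g < 8) {A : Sg} (k : M.al A.p) (hA : A.s < 4) (ha : a < 4) :
    (M.tw g).Ps A y a ↔ M.Ps (tA g A) y (fs g a) := by
  unfold Cm.Ps
  simp only [tw_ln h, tw_el h, tw_sv H h k hA ha]

theorem tw_F (H : M.Ok) (h : g < 8) (fl : Bool) {A B : Sg} (hA : A.i < 4 ∧ A.s < 4)
    (hB : B.i < 4 ∧ B.s < 4) (ha : a < 4) (hb : b < 4) :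
    (M.tw g).F fl a b A B = M.F fl (fs g a) (fs g b) (tA g A) (tA g B) := by
  unfold Cm.F
  rw [tw_sok H h hA.1, tw_sok H h hB.1, tw_n]
  by_cases k : M.ok (tA g A) ∧ M.ok (tA g B)
  · have e : (M.tw g).hit a b A B = M.hit (fs g a) (fs g b) (tA g A) (tA g B) := by
      funext t
      unfold Cm.hit
      rw [tw_ln h, tw_el h, tw_sv H h (A := A) k.1.2.1 hA.2 ha,
        tw_ps H h (A := B) k.2.2.1 hB.2 hb]
    rw [e, tw_el h]
  · rw [if_neg fun v => k ⟨v.1, v.2.1⟩, if_neg fun v => k ⟨v.1, v.2.1⟩]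

/-! ### Regions -/

theorem tw_nr (h : g < 4) (x : ℕ) : ts g ((M.tw g).nr x) = M.nr (ts g x) := by
  unfold Cm.nr
  rw [show r4 (ts g x) = tp g (r4 x) by unfold r4 ts tp fs fp; split_ifs; omega,
    ← tw_lk (by omega)]
  unfold ts tp fs fp
  rw [if_pos h, if_pos h]

theorem tw_nr' (H : M.Ok) (h : g < 8) (k : ¬g < 4) (x : ℕ) :
    M.nr (ts g ((M.tw g).nr x)) = ts g x := by
  unfold Cm.nr
  rw [show ∀ p, r4 (ts g p) = tp g p from fun p => by unfold r4 ts tp fs fp; split_ifs; omega,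
    tw_lk h, H.inv]
  unfold r4 ts tp fs fp
  split_ifs
  omega

theorem tw_rg1 (H : M.Ok) (h : g < 8) (x : ℕ) : M.Rg (ts g x) (ts g ((M.tw g).nr x)) := by
  by_cases k : g < 4
  · exact tw_nr k x ▸ rg_nr _ _
  · have := rg_back H (ts g ((M.tw g).nr x))
    rwa [tw_nr' H h k] at this

theorem tw_rg0 (H : M.Ok) (h : g < 8) (k : (M.tw g).Rg x y) : M.Rg (ts g x) (ts g y) :=
  rg_ind (Q := fun d => M.Rg (ts g x) (ts g d)) k (rg_refl _ _) fun d u => rg_trans u (tw_rg1 H h d)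

theorem tw_rg (H : M.Ok) (h : g < 8) : (M.tw g).Rg x y ↔ M.Rg (ts g x) (ts g y) :=
  ⟨tw_rg0 H h, fun k => by
    have := tw_rg0 (tw_ok H h) (gi_lt h) (x := ts g x) (y := ts g y) (by rwa [tw_tw h])
    rwa [(ts_ts h x).1, (ts_ts h y).1] at this⟩

/-- The label of the old map at which the same link alternates. -/
def ta (M : Cm) (g x : ℕ) : ℕ := if g < 4 then ts g x else ts g ((M.tw g).nr x)

theorem tw_alt (H : M.Ok) (h : g < 8) : (M.tw g).Alt x ↔ M.Alt (ta M g x) := by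
  unfold Cm.Alt ta
  split_ifs with k
  · rw [← tw_nr k, ts_mod, ts_mod, Ne, Ne, fs_inj h]
  · rw [tw_nr' H h k, ts_mod, ts_mod, Ne, Ne, fs_inj h, eq_comm]

theorem ta_rg (H : M.Ok) (h : g < 8) (x : ℕ) : M.Rg (ts g x) (ta M g x) := by
  unfold ta
  split_ifs
  exacts [rg_refl _ _, tw_rg1 H h x]

theorem ta_inj (H : M.Ok) (h : g < 8) (e : ta M g x = ta M g y) : x = y := by
  unfold ta at e
  split_ifs at e
  exacts [ts_inj h e, nr_inj (tw_ok H h) (ts_inj h e)]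

theorem tw_crit0 (H : M.Ok) (h : g < 8) (k : M.Crit (ts g x)) : (M.tw g).Crit x := fun y u v =>
  k _ (rg_trans (tw_rg0 H h u) (ta_rg H h y)) ((tw_alt H h).1 v)

theorem tw_crit (H : M.Ok) (h : g < 8) : (M.tw g).Crit x ↔ M.Crit (ts g x) :=
  ⟨fun k => by
    have := tw_crit0 (tw_ok H h) (gi_lt h) (x := ts g x) (by rwa [(ts_ts h x).1])
    rwa [tw_tw h] at this, tw_crit0 H h⟩

theorem sad_al (H : M.Ok) (k : M.Sad x) : M.al (x / 4) := by
  obtain ⟨y, y', k1, k2, k3, -, -, k4⟩ := k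
  by_contra v
  have : ∀ y, M.Rg x y → y / 4 = x / 4 := fun y u => rg_ind (Q := fun d => d / 4 = x / 4) u rfl
    fun d e => by unfold Cm.nr; rw [(H.fix _).2 (by rwa [r4_div, e]), r4_div, e]
  have i1 := this y k1
  have i2 := this y' k2
  omega

theorem alt_mod (H : M.Ok) (k : M.al (x / 4)) (h : M.Alt x) : M.nr x % 4 = (x + 2) % 4 := by
  have := nr_par H k
  unfold Cm.Alt at h
  omega

theorem sad_rg (H : M.Ok) (h : M.Rg x y) : M.Sad x ↔ M.Sad y :=
  have : ∀ x y, M.Rg y x → M.Sad x → M.Sad y := fun _ _ h ⟨u, v, k1, k2, k⟩ =>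
    ⟨u, v, rg_trans h k1, rg_trans h k2, k⟩
  ⟨this _ _ (rg_symm H h), this _ _ h⟩

theorem crit_rg (H : M.Ok) (h : M.Rg x y) : M.Crit x ↔ M.Crit y :=
  ⟨fun k _ u => k _ (rg_trans h u), fun k _ u => k _ (rg_trans (rg_symm H h) u)⟩

theorem tw_sad0 (H : M.Ok) (h : g < 8) (k : (M.tw g).Sad x) : M.Sad (ts g x) := by
  have H' := tw_ok H h
  have al := sad_al H' k
  obtain ⟨y, y', k1, k2, k3, k4, k5, k6⟩ := k
  refine ⟨ta M g y, ta M g y', rg_trans (tw_rg0 H h k1) (ta_rg H h _),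
    rg_trans (tw_rg0 H h k2) (ta_rg H h _), fun e => k3 (ta_inj H h e), (tw_alt H h).1 k4,
    (tw_alt H h).1 k5, ?_⟩
  have i1 := alt_mod H' ((rg_al H' k1).2 al) k4
  have i2 := alt_mod H' ((rg_al H' k2).2 al) k5
  unfold ta
  split_ifs <;> rw [ts_mod, ts_mod, fs_inj h] <;> omega

theorem tw_sad (H : M.Ok) (h : g < 8) : (M.tw g).Sad x ↔ M.Sad (ts g x) :=
  ⟨tw_sad0 H h, fun k => by
    have := tw_sad0 (tw_ok H h) (gi_lt h) (x := ts g x) (by rwa [tw_tw h])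
    rwa [(ts_ts h x).1] at this⟩

theorem tw_prb (H : M.Ok) (h : g < 8) : (M.tw g).Prb p ↔ M.Prb (tp g p) := by
  unfold Cm.Prb
  rw [tw_al H h, tp_div, tw_sad H h]
  refine and_congr_right fun k => sad_rg H ?_
  have par := (tw_ok H h).par p (by rwa [tw_al H h])
  have e := tw_lk (M := M) h p
  have nr : ∀ q, M.Rg (M.lk q) (r3 q) := fun q => by
    have := rg_back H (r3 q)
    rwa [Cm.nr, show r4 (r3 q) = q by unfold r4 r3; omega] at this
  by_cases u : g < 4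
  · have r : ∀ q, ts g (r3 q) = r3 (tp g q) := fun q => by
      unfold ts r3 tp fs fp
      split_ifs
      omega
    have : tp g ((M.tw g).lo p) = M.lo (tp g p) := by
      unfold Cm.lo
      rw [← e, apply_ite (tp g)]
      refine if_congr ?_ rfl rfl
      unfold tp fp
      split_ifs
      omega
    rw [r, this]
    exact rg_refl _ _
  · have r : ∀ q, ts g (r3 q) = tp g q := fun q => by
      unfold ts r3 tp fs fp
      split_ifs
      omega
    have : tp g ((M.tw g).lo p) = M.lk (M.lo (tp g p)) := by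
      unfold Cm.lo
      rw [apply_ite M.lk, H.inv, ← e, apply_ite (tp g), ← ite_not]
      refine if_congr ?_ rfl rfl
      unfold tp fp
      split_ifs
      omega
    rw [r, this]
    exact nr _

theorem rg_eqv (H : M.Ok) (n : ℕ) : Eqv n M.Rg :=
  ⟨fun x _ => rg_refl M x, fun _ _ _ _ => rg_symm H, fun _ _ _ _ _ _ => rg_trans⟩

/-- Classes are counted through a map that separates them. -/
theorem ncl_le {n m : ℕ} {A B : ℕ → Prop} {r s : ℕ → ℕ → Prop} (f : ℕ → ℕ) (hr : Eqv n r)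
    (hs : Eqv m s) (hB : ∀ x < m, ∀ y < m, s x y → B x → B y)
    (h1 : ∀ x < n, A x → f x < m ∧ B (f x))
    (h2 : ∀ x < n, ∀ y < n, A x → A y → s (f x) (f y) → r x y) : ncl n A r ≤ ncl m B s := by
  have sp : ∀ x < m, lst m (s x) < m ∧ s x (lst m (s x)) := fun x k => lst_spec ⟨x, k, hs.1 x k⟩
  refine cnt_inj (fun x => lst m (s (f x))) (fun x hx k => ?_) fun x hx y hy k k' e => ?_
  · obtain ⟨i1, i2⟩ := h1 x hx k.1
    obtain ⟨j1, j2⟩ := sp _ i1
    exact ⟨j1, hB _ i1 _ j1 j2 i2, fun e he v => lst_le he (hs.2.2 _ i1 _ j1 _ he j2 v)⟩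
  · have i1 := (h1 x hx k.1).1
    have i2 := (h1 y hy k'.1).1
    obtain ⟨j1, j2⟩ := sp _ i1
    obtain ⟨j3, j4⟩ := sp _ i2
    beta_reduce at e
    rw [← e] at j4
    have := h2 x hx y hy k.1 k'.1 (hs.2.2 _ i1 _ j1 _ i2 j2 (hs.2.1 _ i2 _ j1 j4))
    exact le_antisymm (k.2 y hy this) (k'.2 x hx (hr.2.1 _ hx _ hy this))

theorem tw_mu (H : M.Ok) (h : g < 8) : (M.tw g).mu = M.mu := by
  have key : ∀ (M : Cm) g, M.Ok → g < 8 →
      ncl (4 * M.n) (fun x => (M.tw g).al (x / 4) ∧ ¬(M.tw g).Crit x) (M.tw g).Rg ≤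
      ncl (4 * M.n) (fun x => M.al (x / 4) ∧ ¬M.Crit x) M.Rg := fun M g H h =>
    ncl_le (ts g) (rg_eqv (tw_ok H h) _) (rg_eqv H _)
      (fun x _ y _ u k => ⟨(rg_al H u).2 k.1, mt (crit_rg H u).2 k.2⟩)
      (fun x hx k => ⟨by have := ts_div g x; omega, by rw [ts_div, ← tw_al H h]; exact k.1,
        mt (tw_crit H h).2 k.2⟩) fun x _ y _ _ _ => (tw_rg H h).2
  have i1 := key M g H h
  have i2 := key (M.tw g) (gi g) (tw_ok H h) (gi_lt h)
  rw [tw_tw h, tw_n] at i2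
  unfold Cm.mu
  rw [tw_n, le_antisymm i1 i2, tw_al H h]

theorem tw_rch0 (H : M.Ok) (h : g < 8) (k : (M.tw g).Rch a x y) :
    M.Rch (fs g a) (ts g x) (ts g y) := by
  induction k with
  | refl => exact .refl
  | @tail u v _ w ih =>
    rw [tw_al H h, ← ts_div g] at w
    rcases w with ⟨w, rfl | ⟨e, rfl⟩⟩
    · exact ih.trans (rg_rch H (tw_rg1 H h u) w)
    · refine ih.tail ⟨w, Or.inr ⟨?_, ?_⟩⟩ <;> unfold ts fs <;> (try unfold pt) <;>
      split_ifs <;> omega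

theorem rch_mod (e : a % 4 = b % 4) (k : M.Rch a x y) : M.Rch b x y := by
  unfold Cm.Rch pt at *
  rwa [← e, show (b + 2) % 4 = (a + 2) % 4 by omega]

theorem tw_rch (H : M.Ok) (h : g < 8) :
    (M.tw g).Rch a x y ↔ M.Rch (fs g a) (ts g x) (ts g y) :=
  ⟨tw_rch0 H h, fun k => by
    have := tw_rch0 (tw_ok H h) (gi_lt h) (a := fs g a) (x := ts g x) (y := ts g y)
      (by rwa [tw_tw h])
    rw [(ts_ts h x).1, (ts_ts h y).1] at this
    exact rch_mod (by rw [(fs_fs h a).1, Nat.mod_mod]) this⟩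

theorem tw_cy (H : M.Ok) (h : g < 8) : (M.tw g).Cy a z ↔ M.Cy (fs g a) z := by
  unfold Cm.Cy
  rw [tw_al H h, tw_rch H h, ts_pt, ts_pt, show pt z (fs g (a + 2)) = pt z (fs g a + 2) by
    unfold pt fs; split_ifs <;> omega]

end Pool.Agent.MP_1a6d78_lc.PG.Ct
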